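import Mathlib

set_option autoImplicit false

namespace Pool.Agent.Lib.helper1.Ab

open Finset Filter Topology

def Good (c : ℕ → ℝ) : Prop := ∀ r : ℝ, 0 ≤ r → Summable fun i => |c i| * r ^ i

noncomputable def S (c : ℕ → ℝ) (x : ℝ) : ℝ := ∑' i, c i * x ^ i

def D (c : ℕ → ℝ) (i : ℕ) : ℝ := (i + 1) * c (i + 1)

lemma Good.le {c c' : ℕ → ℝ} (h : Good c) {K : ℝ} (hK : ∀ i, |c' i| ≤ K * |c i|) : Good c' :=
  fun r hr => .of_nonneg_of_le (fun i => by positivity)
    (fun i => by rw [← mul_assoc]; exact mul_le_mul_of_nonneg_right (hK i) (by positivity))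
    ((h r hr).mul_left K)

lemma Good.sum {c : ℕ → ℝ} (h : Good c) (x : ℝ) : Summable fun i => c i * x ^ i :=
  .of_norm (by simpa using h |x| (abs_nonneg x))

lemma Good.T {c : ℕ → ℝ} (h : Good c) : Good fun i => i * c i := fun r hr =>
  .of_nonneg_of_le (fun i => by positivity) (fun i => by
    have : (i : ℝ) ≤ 2 ^ i := by exact_mod_cast Nat.lt_two_pow_self.le
    rw [abs_mul, Nat.abs_cast, mul_pow]
    nlinarith [mul_nonneg (abs_nonneg (c i)) (pow_nonneg hr i)]) (h (2 * r) (by positivity))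

lemma Good.D {c : ℕ → ℝ} (h : Good c) : Good (D c) := fun r hr =>
  .of_nonneg_of_le (fun i => by positivity) (fun i => by
    have : r ^ i ≤ (r + 1) ^ (i + 1) := (pow_le_pow_left₀ hr (by linarith) i).trans
      (pow_le_pow_right₀ (by linarith) (by omega))
    simp only [Ab.D]; push_cast
    exact mul_le_mul_of_nonneg_left this (abs_nonneg _))
    ((summable_nat_add_iff 1).2 (h.T (r + 1) (by positivity)))

lemma Good.mulD {c : ℕ → ℝ} (h : Good c) (x : ℝ) : x * S (Ab.D c) x = S (fun i => i * c i) x := by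
  rw [S, S, (h.T.sum x).tsum_eq_zero_add, ← tsum_mul_left]
  simp only [Ab.D, Nat.cast_zero, zero_mul, zero_add]
  exact tsum_congr fun i => by push_cast; ring

lemma Good.der {c : ℕ → ℝ} (h : Good c) (x : ℝ) : HasDerivAt (S c) (S (Ab.D c) x) x := by
  set R := |x| + 1 with hR
  have R1 : 1 ≤ R := by linarith [abs_nonneg x]
  have b : ∀ n y, y ∈ Set.Ioo (-R) R → ‖c n * (n * y ^ (n - 1))‖ ≤ |n * c n| * R ^ n :=
    fun n y hy => by
      have : |y| ^ (n - 1) ≤ R ^ n := (pow_le_pow_left₀ (abs_nonneg _) (abs_lt.2 hy).le _).trans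
        (pow_le_pow_right₀ R1 (by omega))
      rw [Real.norm_eq_abs, ← mul_assoc, abs_mul, abs_pow, mul_comm (c n)]
      exact mul_le_mul_of_nonneg_left this (abs_nonneg _)
  have hx : x ∈ Set.Ioo (-R) R := abs_lt.1 (by linarith)
  have := hasDerivAt_tsum_of_isPreconnected (h.T R (by linarith)) isOpen_Ioo isPreconnected_Ioo
    (g := fun n y => c n * y ^ n) (fun n y _ => (hasDerivAt_pow n y).const_mul (c n)) b hx (h.sum x) hx
  refine this.congr_deriv ?_
  symm
  rw [S, (Summable.of_norm_bounded (h.T R (by linarith)) fun n => b n x hx).tsum_eq_zero_add]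
  simp only [Ab.D, Nat.cast_zero, zero_mul, mul_zero, zero_add, Nat.add_sub_cancel]
  exact tsum_congr fun i => by push_cast; ring

lemma Good.smooth {c : ℕ → ℝ} (h : Good c) : ContDiff ℝ ((⊤ : ℕ∞) : WithTop ℕ∞) (S c) := by
  refine contDiff_infty.2 fun n => ?_
  induction n generalizing c with
  | zero => exact contDiff_zero.2 (continuous_iff_continuousAt.2 fun x => (h.der x).continuousAt)
  | succ n ih =>
    push_cast
    refine contDiff_succ_iff_deriv.2 ⟨fun x => (h.der x).differentiableAt, by simp, ?_⟩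
    rw [funext fun x => (h.der x).deriv]
    exact ih h.D

lemma part {p g : ℕ → ℝ} (p0 : ∀ i, 0 ≤ p i) (hg : Monotone g) {c : ℝ}
    (h : HasSum (fun j => p j * (c - g j)) 0) (i : ℕ) :
    0 ≤ ∑ j ∈ range (i + 1), p j * (c - g j) := by
  rcases le_total (g i) c with h1 | h1
  · exact sum_nonneg fun j hj => mul_nonneg (p0 j)
      (sub_nonneg.2 ((hg (Nat.lt_succ_iff.1 (mem_range.1 hj))).trans h1))
  · have := h.summable.sum_add_tsum_nat_add (i + 1)
    rw [h.tsum_eq] at this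
    have : ∑' j, p (j + (i + 1)) * (c - g (j + (i + 1))) ≤ 0 := tsum_nonpos fun j =>
      mul_nonpos_of_nonneg_of_nonpos (p0 _) (sub_nonpos.2 (h1.trans (hg (by omega))))
    linarith

lemma abel {q u φ : ℕ → ℝ} (hu : ∀ i, u i = ∑ j ∈ range (i + 1), q j) {a : ℝ}
    (h1 : HasSum (fun j => q j * φ j) a) (h2 : Summable fun i => (φ (i + 1) - φ i) * u i)
    (h3 : Tendsto (fun n => φ n * u n) atTop (𝓝 0)) : ∑' i, (φ (i + 1) - φ i) * u i = -a := by
  have e : ∀ n, ∑ i ∈ range n, (φ (i + 1) - φ i) * u i =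
      φ n * u n - ∑ j ∈ range (n + 1), q j * φ j := fun n => by
    induction n with
    | zero => simp [hu, mul_comm]
    | succ n ih =>
      rw [sum_range_succ, ih, sum_range_succ _ (n + 1), hu (n + 1), sum_range_succ _ (n + 1), ← hu]
      ring
  refine tendsto_nhds_unique h2.hasSum.tendsto_sum_nat ?_
  simp only [e]
  simpa using h3.sub (h1.tendsto_sum_nat.comp (tendsto_add_atTop_nat 1))

lemma mono {p r d L : ℕ → ℝ} {x l μ θ : ℝ} {m : ℕ} {β : ℝ} (x0 : 0 < x) (p0 : ∀ i, 0 < p i)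
    (pt : Tendsto p atTop (𝓝 0)) (hp : ∀ i, d (i + 1) * p (i + 1) = x * p i) (d0 : ∀ i, 0 ≤ d i)
    (r0 : ∀ i, 0 ≤ r i) (r1 : ∀ i, r i ≤ 1) (θ0 : 0 ≤ θ) (μ0 : 0 ≤ μ + β)
    (hr : ∀ i, x * r (i + 1) = d (i + 1) * r i + l - L (i + 1)) (h01 : r 0 < r 1)
    (hβ : β ≤ (μ + β) * r 0)
    (h1 : ∀ i < m, d (i + 1) = d i + (μ + β) ∧ L (i + 1) = L i + β)
    (h2 : ∀ i, m ≤ i → d (i + 1) = d i + θ ∧ L (i + 1) = L i + θ) : Monotone r := by
  have A : ∀ i < m, r i ≤ r (i + 1) ∧ r 0 ≤ r (i + 1) := fun i hi => by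
    induction i with
    | zero => exact ⟨h01.le, h01.le⟩
    | succ i ih =>
      obtain ⟨a, b⟩ := ih (by omega)
      have : r (i + 1) ≤ r (i + 1 + 1) := by
        refine le_of_mul_le_mul_left ?_ x0
        rw [hr (i + 1), (h1 _ hi).1, (h1 _ hi).2, hr i]
        nlinarith [mul_le_mul_of_nonneg_left a (d0 (i + 1)), mul_le_mul_of_nonneg_left b μ0]
      exact ⟨this, b.trans this⟩
  refine monotone_nat_of_le_succ fun i => ?_
  rcases lt_or_ge i m with hi | hi
  · exact (A i hi).1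
  by_contra hc
  push Not at hc
  have B : ∀ j, i ≤ j → (r i - r (i + 1)) * p i ≤ (r j - r (j + 1)) * p j := fun j hj => by
    induction j, hj using Nat.le_induction with
    | base => rfl
    | succ j hj ih =>
      refine ih.trans (le_of_mul_le_mul_left ?_ x0)
      have e := h2 (j + 1) (by omega)
      have : d (j + 1) * (r j - r (j + 1)) ≤ x * (r (j + 1) - r (j + 1 + 1)) := by
        rw [mul_sub x, hr (j + 1), e.1, e.2, hr j]
        nlinarith [mul_le_mul_of_nonneg_left (r1 (j + 1)) θ0]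
      calc _ = (r j - r (j + 1)) * (x * p j) := by ring
        _ = d (j + 1) * (r j - r (j + 1)) * p (j + 1) := by rw [← hp]; ring
        _ ≤ _ := by rw [← mul_assoc]; exact mul_le_mul_of_nonneg_right this (p0 _).le
  obtain ⟨j, h3, h4⟩ := ((pt.eventually (gt_mem_nhds (mul_pos (sub_pos.2 hc) (p0 i)))).and
    (eventually_ge_atTop i)).exists
  nlinarith [B j h4, r0 (j + 1), r1 j, p0 j]

lemma cheb {p r : ℕ → ℝ} (p0 : ∀ i, 0 < p i) (hr : Monotone r) (h01 : r 0 < r 1) {n : ℝ}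
    (n0 : 0 < n) {a : ℝ} (h1 : HasSum (fun i => p i * (i - n)) 0)
    (h2 : HasSum (fun i => p i * r i * (i - n)) a) : 0 < a := by
  have h3 := h2.sub (h1.mul_left (r ⌊n⌋₊))
  rw [mul_zero, sub_zero] at h3
  have e : ∀ i : ℕ, p i * r i * (i - n) - r ⌊n⌋₊ * (p i * (i - n)) =
    p i * ((r i - r ⌊n⌋₊) * (i - n)) := fun i => by ring
  simp only [e] at h3
  have f1 := Nat.floor_le n0.le
  have f2 := Nat.lt_floor_add_one n
  have nn : ∀ i : ℕ, 0 ≤ p i * ((r i - r ⌊n⌋₊) * (i - n)) := fun i => by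
    refine mul_nonneg (p0 i).le ?_
    rcases le_or_gt i ⌊n⌋₊ with h | h
    · have : (i : ℝ) ≤ ⌊n⌋₊ := by exact_mod_cast h
      exact mul_nonneg_of_nonpos_of_nonpos (sub_nonpos.2 (hr h)) (by linarith)
    · have : (⌊n⌋₊ : ℝ) + 1 ≤ i := by exact_mod_cast h
      exact mul_nonneg (sub_nonneg.2 (hr h.le)) (by linarith)
  rcases Nat.eq_zero_or_pos ⌊n⌋₊ with h | h
  · rw [← h3.tsum_eq]
    refine h3.summable.tsum_pos nn 1 (mul_pos (p0 _) (mul_pos ?_ ?_))
    · rw [h]; linarith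
    · rw [h] at f2; push_cast at f2 ⊢; linarith
  · rw [← h3.tsum_eq]
    exact h3.summable.tsum_pos nn 0 (mul_pos (p0 _) (mul_pos_of_neg_of_neg
      (by linarith [hr (show 1 ≤ _ from h)]) (by simpa)))

end Pool.Agent.Lib.helper1.Ab
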