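import Pool.Agent.Lib.helper1.Ab1

set_option autoImplicit false

namespace Pool.Agent.Lib.helper1.Ab

open Finset Filter Topology

lemma Good.mulDD {c : ℕ → ℝ} (h : Good c) (x : ℝ) : x ^ 2 * S (Ab.D (Ab.D c)) x =
    S (fun i => i * (i * c i)) x - S (fun i => i * c i) x := by
  rw [← h.T.mulD, ← h.mulD, sq, mul_assoc, h.D.mulD, ← mul_sub, S, S, S,
    ← (h.T.D.sum x).tsum_sub (h.D.sum x)]
  exact congrArg _ (tsum_congr fun i => by simp only [Ab.D]; push_cast; ring)

lemma cg {f g : ℕ → ℝ} {a b : ℝ} (h : HasSum f a) (e : ∀ i, g i = f i) (e' : b = a) :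
    HasSum g b := by rw [funext e, e']; exact h

structure Q (s L : ℕ → ℝ) (m : ℕ) (μ θ β : ℝ) : Prop where
  s0 : s 0 = 0
  L0 : L 0 = 0
  m0 : 0 < m
  μ0 : 0 < μ
  θ0 : 0 < θ
  β0 : 0 ≤ β
  lo : ∀ i < m, s (i + 1) = s i + μ ∧ L (i + 1) = L i + β
  hi : ∀ i, m ≤ i → s (i + 1) = s i ∧ L (i + 1) = L i + θ

noncomputable def a (s L : ℕ → ℝ) (i : ℕ) : ℝ := ∏ j ∈ range i, (s (j + 1) + L (j + 1))⁻¹

variable {s L : ℕ → ℝ} {m : ℕ} {μ θ β : ℝ}

lemma Q.facts (h : Q s L m μ θ β) (i : ℕ) : 0 ≤ s i ∧ 0 ≤ L i ∧ s i ≤ μ * min i m ∧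
    min μ θ * i ≤ s i + L i ∧ L i ≤ (β + θ) * i ∧ θ * μ * (i - m) ≤ μ * L i - β * s i ∧
    β * s i ≤ μ * L i := by
  have := h.μ0; have := h.θ0; have := h.β0
  have := min_le_left μ θ; have := min_le_right μ θ; have := mul_pos h.θ0 h.μ0
  induction i with
  | zero => simp [h.s0, h.L0]; positivity
  | succ i ih =>
    obtain ⟨a, b, c, d, e, f, g⟩ := ih
    rcases lt_or_ge i m with hi | hi
    · have : (i : ℝ) + 1 ≤ m := by exact_mod_cast hi
      rw [(h.lo i hi).1, (h.lo i hi).2, min_eq_left (show i + 1 ≤ m from hi)]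
      rw [min_eq_left hi.le] at c
      push_cast
      refine ⟨?_, ?_, ?_, ?_, ?_, ?_, ?_⟩ <;> nlinarith
    · rw [(h.hi i hi).1, (h.hi i hi).2, min_eq_right (show m ≤ i + 1 by omega)]
      rw [min_eq_right hi] at c
      push_cast
      refine ⟨?_, ?_, ?_, ?_, ?_, ?_, ?_⟩ <;> nlinarith

lemma Q.dpos (h : Q s L m μ θ β) (i : ℕ) : 0 < s (i + 1) + L (i + 1) :=
  lt_of_lt_of_le (mul_pos (lt_min h.μ0 h.θ0) (by positivity)) (h.facts _).2.2.2.1

lemma Q.apos (h : Q s L m μ θ β) (i : ℕ) : 0 < a s L i :=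
  prod_pos fun j _ => inv_pos.2 (h.dpos j)

lemma Q.ga (h : Q s L m μ θ β) : Good (a s L) := fun r hr => by
  have k0 := lt_min h.μ0 h.θ0
  refine .of_nonneg_of_le (fun i => by positivity) (fun i => ?_)
    (Real.summable_pow_div_factorial (r / min μ θ))
  rw [abs_of_pos (h.apos i)]
  induction i with
  | zero => simp [a]
  | succ i ih =>
    have e : (s (i + 1) + L (i + 1))⁻¹ ≤ (min μ θ * (i + 1 : ℕ))⁻¹ :=
      inv_anti₀ (by positivity) (h.facts _).2.2.2.1
    calc _ = a s L i * r ^ i * (r * (s (i + 1) + L (i + 1))⁻¹) := by rw [a, prod_range_succ, a]; ring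
      _ ≤ (r / min μ θ) ^ i / i.factorial * (r * (min μ θ * (i + 1 : ℕ))⁻¹) :=
        mul_le_mul ih (mul_le_mul_of_nonneg_left e hr) (mul_nonneg hr (inv_pos.2 (h.dpos i)).le)
          (by positivity)
      _ = _ := by rw [Nat.factorial_succ, pow_succ]; push_cast; field_simp

lemma Q.gb (h : Q s L m μ θ β) : Good fun i => a s L i * L i :=
  h.ga.T.le (K := β + θ) fun i => by
    have := h.apos i
    have := h.facts i
    rw [abs_of_nonneg (mul_nonneg (h.apos i).le this.2.1), abs_of_nonneg (by positivity)]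
    nlinarith

lemma Q.key (h : Q s L m μ θ β) {x : ℝ} (x0 : 0 < x) {Z0 Z1 Z2 A0 A1 A2 : ℝ}
    (z0 : HasSum (fun i => a s L i * x ^ i) Z0)
    (z1 : HasSum (fun i : ℕ => i * a s L i * x ^ i) Z1)
    (z2 : HasSum (fun i : ℕ => i * (i * a s L i) * x ^ i) Z2)
    (a0 : HasSum (fun i => a s L i * L i * x ^ i) A0)
    (a1 : HasSum (fun i : ℕ => i * (a s L i * L i) * x ^ i) A1)
    (a2 : HasSum (fun i : ℕ => i * (i * (a s L i * L i)) * x ^ i) A2) :
    0 < Z0 ∧ 0 < A1 * Z0 - A0 * Z1 ∧ A1 * Z0 - A0 * Z1 < x * Z0 ^ 2 ∧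
      0 < ((A2 - A1) * Z0 - A0 * (Z2 - Z1)) * Z0 - 2 * (A1 * Z0 - A0 * Z1) * Z1 ∧
      x - μ * m ≤ A0 / Z0 := by
  set p : ℕ → ℝ := fun i => a s L i * x ^ i with hp
  have p0 : ∀ i, 0 < p i := fun i => mul_pos (h.apos i) (pow_pos x0 i)
  have pd : ∀ i, (s (i + 1) + L (i + 1)) * p (i + 1) = x * p i := fun i => by
    have := h.dpos i
    simp only [hp, a, prod_range_succ, pow_succ]; field_simp
  have Zp : 0 < Z0 := z0.tsum_eq ▸ z0.summable.tsum_pos (fun i => (p0 i).le) 0 (p0 0)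
  have Z1p : 0 < Z1 := z1.tsum_eq ▸ z1.summable.tsum_pos
    (fun i => by have := h.apos i; positivity) 1 (by have := h.apos 1; positivity)
  set l := A0 / Z0 with hl
  have hA : A0 = l * Z0 := by rw [hl]; field_simp
  have q0 : HasSum (fun j => p j * (l - L j)) 0 :=
    cg ((z0.mul_left l).sub a0) (fun j => by simp only [hp]; ring) (by rw [← hA, sub_self])
  have qd : HasSum (fun j => (s j + L j) * p j) (x * Z0) := by
    have := (hasSum_nat_add_iff (f := fun j => (s j + L j) * p j) 1).1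
      (by simp only [pd]; exact z0.mul_left x)
    simpa [h.s0, h.L0] using this
  have qs : HasSum (fun j => p j * (x - l - s j)) 0 :=
    cg (((z0.mul_left x).sub qd).sub q0) (fun j => by ring) (by simp)
  have ms : Monotone s := monotone_nat_of_le_succ fun i => by
    rcases lt_or_ge i m with hi | hi
    · rw [(h.lo i hi).1]; linarith [h.μ0]
    · rw [(h.hi i hi).1]
  have mL : Monotone L := monotone_nat_of_le_succ fun i => by
    rcases lt_or_ge i m with hi | hi
    · rw [(h.lo i hi).2]; linarith [h.β0]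
    · rw [(h.hi i hi).2]; linarith [h.θ0]
  set u : ℕ → ℝ := fun i => ∑ j ∈ range (i + 1), p j * (l - L j) with hu
  have u0 : ∀ i, 0 ≤ u i := part (fun i => (p0 i).le) mL q0
  have us : ∀ i, u (i + 1) = u i + p (i + 1) * (l - L (i + 1)) := fun i => sum_range_succ _ _
  have u1 : ∀ i, u i ≤ x * p i := fun i => by
    have : u i + ∑ j ∈ range (i + 1), p j * (x - l - s j) = x * p i := by
      induction i with
      | zero => simp [hu, h.s0, h.L0]; ring
      | succ i ih => rw [us, sum_range_succ _ (i + 1)]; linear_combination ih - pd i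
    linarith [part (fun i => (p0 i).le) ms qs i]
  have c1 : β * (x - l) < μ * l := by
    have := (qs.mul_left β).sub (q0.mul_left μ)
    have h2 := this.sub (z0.mul_left (β * (x - l) - μ * l))
    have e : ∀ j, β * (p j * (x - l - s j)) - μ * (p j * (l - L j)) -
      (β * (x - l) - μ * l) * p j = p j * (μ * L j - β * s j) := fun j => by ring
    simp only [e] at h2
    have := h2.tsum_eq ▸ h2.summable.tsum_pos
      (fun j => mul_nonneg (p0 j).le (sub_nonneg.2 (h.facts j).2.2.2.2.2.2)) (m + 1)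
      (mul_pos (p0 _) (lt_of_lt_of_le (by simpa using mul_pos h.θ0 h.μ0) (h.facts _).2.2.2.2.2.1))
    nlinarith
  have c2 : l < x := by
    have h2 := (z0.mul_left (x - l)).sub qs
    have e : ∀ j, (x - l) * p j - p j * (x - l - s j) = p j * s j := fun j => by ring
    simp only [e] at h2
    have := h2.tsum_eq ▸ h2.summable.tsum_pos (fun j => mul_nonneg (p0 j).le (h.facts j).1) 1
      (mul_pos (p0 _) (by rw [(h.lo 0 h.m0).1, h.s0, zero_add]; exact h.μ0))
    nlinarith
  have c3 : x - μ * m ≤ l := by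
    have h2 := qs.sub (z0.mul_left (x - l - μ * m))
    have e : ∀ j, p j * (x - l - s j) - (x - l - μ * m) * p j = p j * (μ * m - s j) :=
      fun j => by ring
    simp only [e] at h2
    have := h2.nonneg fun j => mul_nonneg (p0 j).le (sub_nonneg.2 ((h.facts j).2.2.1.trans
      (mul_le_mul_of_nonneg_left (by exact_mod_cast min_le_right j m) h.μ0.le)))
    nlinarith
  have l0 : 0 < l := by nlinarith [h.μ0, mul_nonneg h.β0 (sub_pos.2 c2).le]
  set r : ℕ → ℝ := fun i => u i / (x * p i) with hr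
  have ur : ∀ i, u i = x * p i * r i := fun i => by
    have := p0 i
    simp only [hr]; field_simp
  have U0 : u 0 = p 0 * l := by simp [hu, h.L0]
  have r00 : x * r 0 = l := mul_left_cancel₀ (p0 0).ne' (by rw [← U0, ur]; ring)
  have rs : ∀ i, x * r (i + 1) = (s (i + 1) + L (i + 1)) * r i + l - L (i + 1) := fun i =>
    mul_left_cancel₀ (p0 (i + 1)).ne' (by
      linear_combination us i - ur (i + 1) + ur i - r i * pd i)
  have hβ : β < (μ + β) * r 0 := lt_of_mul_lt_mul_left
    (by rw [mul_left_comm, r00]; linarith) x0.le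
  have r01 : r 0 < r 1 := by
    refine lt_of_mul_lt_mul_left ?_ x0.le
    rw [rs 0, (h.lo 0 h.m0).1, (h.lo 0 h.m0).2, h.s0, h.L0, r00]; linarith
  have mr : Monotone r := mono (d := fun i => s i + L i) (m := m) x0 p0 z0.summable.tendsto_atTop_zero
    pd (fun i => add_nonneg (h.facts i).1 (h.facts i).2.1)
    (fun i => div_nonneg (u0 i) (mul_pos x0 (p0 i)).le)
    (fun i => (div_le_one (mul_pos x0 (p0 i))).2 (u1 i)) h.θ0.le (by linarith [h.μ0, h.β0]) rs r01
    hβ.le (fun i hi => ⟨by rw [(h.lo i hi).1, (h.lo i hi).2]; ring, (h.lo i hi).2⟩)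
    (fun i hi => ⟨by rw [(h.hi i hi).1, (h.hi i hi).2]; ring, (h.hi i hi).2⟩)
  have su : Summable u := .of_nonneg_of_le u0 u1 (z0.summable.mul_left x)
  have su1 : Summable fun i : ℕ => i * u i := .of_nonneg_of_le (fun i => mul_nonneg (by positivity) (u0 i))
    (fun i => (mul_le_mul_of_nonneg_left (u1 i) (by positivity)).trans_eq (by simp only [hp]; ring))
    (z1.summable.mul_left x)
  have su2 : Summable fun i : ℕ => i * (i * u i) := .of_nonneg_of_le
    (fun i => by have := u0 i; positivity)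
    (fun i => (mul_le_mul_of_nonneg_left (mul_le_mul_of_nonneg_left (u1 i) (by positivity))
      (by positivity)).trans_eq (by simp only [hp]; ring)) (z2.summable.mul_left x)
  have b1 : HasSum u (A1 - l * Z1) := by
    have := abel (φ := fun i => (i : ℝ)) (u := u) (fun _ => rfl) (a := l * Z1 - A1)
      (cg ((z1.mul_left l).sub a1) (fun j => by simp only [hp]; ring) rfl) (by simpa using su)
      su1.tendsto_atTop_zero
    simp only [Nat.cast_add, Nat.cast_one, add_sub_cancel_left, one_mul, neg_sub] at this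
    exact this ▸ su.hasSum
  have b2 : HasSum (fun i : ℕ => 2 * (i * u i)) (A2 - A1 - l * (Z2 - Z1)) := by
    have e : ∀ i : ℕ, ((((i + 1 : ℕ) : ℝ) * (i + 1 : ℕ) - (i + 1 : ℕ)) - (i * i - i)) * u i =
      2 * (i * u i) := fun i => by push_cast; ring
    have := abel (φ := fun i => (i : ℝ) * i - i) (u := u) (fun _ => rfl)
      (a := l * (Z2 - Z1) - (A2 - A1))
      (cg (((z2.sub z1).mul_left l).sub (a2.sub a1)) (fun j => by simp only [hp]; ring) rfl)
      (by simp only [e]; exact su1.mul_left 2)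
      ((su2.sub su1).tendsto_atTop_zero.congr fun j => by ring)
    simp only [e, neg_sub] at this
    exact this ▸ (su1.mul_left 2).hasSum
  have d1 : 0 < A1 - l * Z1 := b1.tsum_eq ▸ su.tsum_pos u0 0 (by rw [U0]; exact mul_pos (p0 0) l0)
  have d2 : 0 < x * Z0 - (A1 - l * Z1) := by
    have h2 := (z0.mul_left x).sub b1
    exact h2.tsum_eq ▸ h2.summable.tsum_pos (fun i => sub_nonneg.2 (u1 i)) 0
      (by rw [U0]; nlinarith [p0 0])
  have d3 := cheb (p := fun i => 2 * (x * p i)) (fun i => by have := p0 i; positivity) mr r01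
    (div_pos Z1p Zp) (a := A2 - A1 - l * (Z2 - Z1) - 2 * (Z1 / Z0) * (A1 - l * Z1))
    (cg ((z1.sub (z0.mul_left (Z1 / Z0))).mul_left (2 * x)) (fun i => by simp only [hp]; ring)
      (by field_simp; ring))
    (cg (b2.sub (b1.mul_left (2 * (Z1 / Z0)))) (fun i => by rw [ur]; ring) rfl)
  refine ⟨Zp, by rw [hA]; nlinarith, by rw [hA]; nlinarith, ?_, c3⟩
  have := mul_pos d3 (pow_pos Zp 2)
  rw [hA]
  refine this.trans_eq ?_
  field_simp

end Pool.Agent.Lib.helper1.Ab
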