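import Pool.Agent.Lib.helper1.Ab2

set_option autoImplicit false

namespace Pool.Agent.Lib.helper1.Ab

open Finset Filter Topology

variable {s L : ℕ → ℝ} {m : ℕ} {μ θ β : ℝ}

theorem Q.main (h : Q s L m μ θ β) {f : ℝ → ℝ}
    (hf : f = fun x => S (fun i => a s L i * L i) x / S (a s L) x) :
    StrictMonoOn f (Set.Ioi 0) ∧ StrictConvexOn ℝ (Set.Ioi 0) f ∧
      DifferentiableOn ℝ f (Set.Ioi 0) ∧
      ContDiffOn ℝ ((⊤ : ℕ∞) : WithTop ℕ∞) (deriv f) (Set.Ioi 0) ∧
      StrictMonoOn (deriv f) (Set.Ioi 0) ∧ Tendsto (deriv f) atTop (𝓝 1) := by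
  have ga := h.ga
  have gb := h.gb
  set b : ℕ → ℝ := fun i => a s L i * L i with hb
  have key := fun (x : ℝ) (x0 : 0 < x) => h.key x0 (ga.sum x).hasSum (ga.T.sum x).hasSum
    (ga.T.T.sum x).hasSum (gb.sum x).hasSum (gb.T.sum x).hasSum (gb.T.T.sum x).hasSum
  change ∀ x : ℝ, 0 < x → 0 < S (a s L) x ∧
    0 < S (fun i => i * b i) x * S (a s L) x - S b x * S (fun i => i * a s L i) x ∧
    S (fun i => i * b i) x * S (a s L) x - S b x * S (fun i => i * a s L i) x <
      x * S (a s L) x ^ 2 ∧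
    0 < ((S (fun i => i * (i * b i)) x - S (fun i => i * b i) x) * S (a s L) x - S b x *
      (S (fun i => i * (i * a s L i)) x - S (fun i => i * a s L i) x)) * S (a s L) x -
      2 * (S (fun i => i * b i) x * S (a s L) x - S b x * S (fun i => i * a s L i) x) *
      S (fun i => i * a s L i) x ∧ x - μ * m ≤ S b x / S (a s L) x at key
  simp only [← ga.mulDD, ← gb.mulDD] at key
  simp only [← ga.mulD, ← gb.mulD] at key
  set F : ℝ → ℝ := fun x => (S (D b) x * S (a s L) x - S b x * S (D (a s L)) x) / S (a s L) x ^ 2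
    with hF
  have d1 : ∀ x, 0 < x → HasDerivAt f (F x) x := fun x x0 =>
    hf ▸ (gb.der x).div (ga.der x) (key x x0).1.ne'
  have F0 : ∀ x, 0 < x → 0 < F x ∧ F x < 1 := fun x x0 => by
    obtain ⟨k1, k2, k3, -⟩ := key x x0
    exact ⟨div_pos (pos_of_mul_pos_left (b := x) (by linarith) x0.le) (by positivity),
      (div_lt_one (by positivity)).2 (lt_of_mul_lt_mul_left (by linarith) x0.le)⟩
  have ev : ∀ x, 0 < x → deriv f =ᶠ[𝓝 x] F := fun x x0 =>
    (eventually_gt_nhds x0).mono fun y hy => (d1 y hy).deriv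
  have d2 : ∀ x, 0 < x → 0 < deriv (deriv f) x := fun x x0 => by
    obtain ⟨k1, -, -, k4, -⟩ := key x x0
    have := ((((gb.D.der x).mul (ga.der x)).sub ((gb.der x).mul (ga.D.der x))).div
      ((ga.der x).pow 2) (pow_pos k1 2).ne').deriv
    rw [(ev x x0).deriv_eq]
    refine lt_of_lt_of_eq (div_pos ?_ (pow_pos (pow_pos k1 2) 2)) this.symm
    refine pos_of_mul_pos_left (b := x ^ 2) ((mul_pos k4 k1).trans_eq ?_) (by positivity)
    simp only [Pi.pow_apply, Pi.mul_apply, Pi.sub_apply]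
    push_cast
    ring
  have df : DifferentiableOn ℝ f (Set.Ioi 0) := fun x x0 =>
    (d1 x x0).differentiableAt.differentiableWithinAt
  have sm : StrictMonoOn (deriv f) (Set.Ioi 0) := strictMonoOn_of_deriv_pos (convex_Ioi 0)
    (fun x x0 => (differentiableAt_of_deriv_ne_zero (d2 x x0).ne').continuousAt.continuousWithinAt)
    (by rw [interior_Ioi]; exact d2)
  refine ⟨strictMonoOn_of_deriv_pos (convex_Ioi 0) df.continuousOn ?_,
    StrictMonoOn.strictConvexOn_of_deriv (convex_Ioi 0) df.continuousOn (by rwa [interior_Ioi]),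
    df, ?_, sm, tendsto_order.2 ⟨fun c hc => ?_, fun c hc => ?_⟩⟩
  · rw [interior_Ioi]
    exact fun x x0 => (d1 x x0).deriv ▸ (F0 x x0).1
  · refine ContDiffOn.congr (f := F) ?_ fun x x0 => (d1 x x0).deriv
    exact ((gb.D.smooth.mul ga.smooth).sub (gb.smooth.mul ga.D.smooth)).contDiffOn.div
      (ga.smooth.pow 2).contDiffOn fun x x0 => (pow_pos (key x x0).1 2).ne'
  · obtain ⟨y, y0, hy⟩ : ∃ y, 0 < y ∧ c < deriv f y := by
      by_contra hn
      push Not at hn
      obtain ⟨x, x1, hx⟩ : ∃ x : ℝ, 1 ≤ x ∧ μ * m + f 1 - c < (1 - c) * x :=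
        ((eventually_ge_atTop 1).and ((tendsto_id.const_mul_atTop (sub_pos.2 hc)).eventually
          (eventually_gt_atTop _))).exists
      have := (convex_Ioi (0 : ℝ)).image_sub_le_mul_sub_of_deriv_le df.continuousOn
        (by rwa [interior_Ioi]) (C := c) (by rwa [interior_Ioi]) 1 (Set.mem_Ioi.2 one_pos) x
        (Set.mem_Ioi.2 (by linarith)) x1
      have k : x - μ * m ≤ f x := hf ▸ (key x (by linarith)).2.2.2.2
      linarith
    exact (eventually_gt_atTop y).mono fun x hx => hy.trans (sm y0 (y0.trans hx) hx)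
  · exact (eventually_gt_atTop 0).mono fun x x0 => ((d1 x x0).deriv ▸ (F0 x x0).2).trans hc

noncomputable def ab (des : Bool) (m : ℕ) (θ : ℝ) (i : ℕ) : ℝ :=
  if des then i * θ else (i - m : ℕ) * θ

noncomputable def wt (des : Bool) (m : ℕ) (μ θ x : ℝ) (i : ℕ) : ℝ :=
  ∏ j ∈ range i, x / ((min (j + 1) m : ℕ) * μ + ab des m θ (j + 1))

noncomputable def ell (des : Bool) (m : ℕ) (μ θ x : ℝ) : ℝ :=
  ∑' i, wt des m μ θ x i / (∑' k, wt des m μ θ x k) * ab des m θ i

theorem final (des : Bool) (hm : 0 < m) (hμ : 0 < μ) (hθ : 0 < θ) :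
    StrictMonoOn (ell des m μ θ) (Set.Ioi 0) ∧ StrictConvexOn ℝ (Set.Ioi 0) (ell des m μ θ) ∧
      DifferentiableOn ℝ (ell des m μ θ) (Set.Ioi 0) ∧
      ContDiffOn ℝ ((⊤ : ℕ∞) : WithTop ℕ∞) (deriv (ell des m μ θ)) (Set.Ioi 0) ∧
      StrictMonoOn (deriv (ell des m μ θ)) (Set.Ioi 0) ∧
      Tendsto (deriv (ell des m μ θ)) atTop (𝓝 1) := by
  have h : Q (fun i => (min i m : ℕ) * μ) (ab des m θ) m μ θ (if des then θ else 0) := by
    refine ⟨by simp, by simp [ab], hm, hμ, hθ, by split_ifs <;> positivity, fun i hi => ⟨?_, ?_⟩,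
      fun i hi => ⟨?_, ?_⟩⟩
    · rw [min_eq_left hi.le, min_eq_left (show i + 1 ≤ m from hi)]; push_cast; ring
    · simp only [ab, Nat.sub_eq_zero_of_le hi.le, Nat.sub_eq_zero_of_le (show i + 1 ≤ m from hi)]
      split_ifs <;> push_cast <;> ring
    · rw [min_eq_right hi, min_eq_right (show m ≤ i + 1 by omega)]
    · simp only [ab, Nat.sub_add_comm hi]
      split_ifs <;> push_cast <;> ring
  refine h.main (funext fun x => ?_)
  have e : ∀ i, wt des m μ θ x i = a (fun i => (min i m : ℕ) * μ) (ab des m θ) i * x ^ i :=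
    fun i => by simp only [wt, a, div_eq_mul_inv, prod_mul_distrib, prod_const, card_range, mul_comm]
  simp only [ell, e, S]
  rw [← tsum_div_const]
  exact tsum_congr fun i => by ring

end Pool.Agent.Lib.helper1.Ab
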