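import Mathlib

set_option autoImplicit false
set_option linter.unusedSectionVars false

open Finset Filter Topology Matrix

namespace Pool.Agent.Lib.helper1.Heat

lemma hs_exp (x : ℝ) : HasSum (fun k : ℕ => x ^ k / (k.factorial : ℝ)) (Real.exp x) := by
  rw [Real.exp_eq_exp_ℝ]
  exact NormedSpace.expSeries_div_hasSum_exp x

/-- Poisson weights -/
noncomputable def po (t : ℝ) (k : ℕ) : ℝ := Real.exp (-t) * t ^ k / (k.factorial : ℝ)

lemma po_nonneg {t : ℝ} (ht : 0 ≤ t) (k : ℕ) : 0 ≤ po t k := by unfold po; positivity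

lemma hs_geo (t a : ℝ) : HasSum (fun k : ℕ => po t k * a ^ k) (Real.exp (-(t * (1 - a)))) := by
  have := (hs_exp (t * a)).mul_left (Real.exp (-t))
  rw [← Real.exp_add, show -t + t * a = -(t * (1 - a)) by ring] at this
  have e : (fun k : ℕ => po t k * a ^ k) =
      fun k : ℕ => Real.exp (-t) * ((t * a) ^ k / (k.factorial : ℝ)) := by
    funext k; rw [po, mul_pow]; ring
  rw [e]; exact this

lemma hs_one (t : ℝ) : HasSum (po t) 1 := by
  simpa using hs_geo t 1

lemma hs_mean (t : ℝ) : HasSum (fun k : ℕ => po t k * k) t := by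
  rw [← hasSum_nat_add_iff' 1]
  simp only [range_one, sum_singleton, Nat.cast_zero, mul_zero, sub_zero]
  have := (hs_one t).mul_left t
  rw [mul_one] at this
  have e : (fun k : ℕ => po t (k + 1) * ((k + 1 : ℕ) : ℝ)) = fun k : ℕ => t * po t k := by
    funext k
    rw [po, po, Nat.factorial_succ]; push_cast
    have : (k.factorial : ℝ) ≠ 0 := by positivity
    field_simp; ring
  rw [e]; exact this

variable {V : Type} [Fintype V] [DecidableEq V]

lemma hs_heat (K : Matrix V V ℝ) (t : ℝ) (x y : V) :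
    HasSum (fun k : ℕ => po t k * (K ^ k) x y) (NormedSpace.exp (t • (K - 1)) x y) := by
  have h1 : t • (K - 1) = t • K + (-t) • (1 : Matrix V V ℝ) := by
    rw [smul_sub, neg_smul, sub_eq_add_neg]
  have h2 : Commute (t • K) ((-t) • (1 : Matrix V V ℝ)) :=
    ((Commute.one_right K).smul_left t).smul_right (-t)
  have h3 : NormedSpace.exp ((-t) • (1 : Matrix V V ℝ)) = Real.exp (-t) • (1 : Matrix V V ℝ) := by
    rw [← Matrix.diagonal_one, ← Matrix.diagonal_smul, ← Matrix.diagonal_smul,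
      Matrix.exp_diagonal]
    congr 1
    funext i
    simp [Pi.coe_exp, Real.exp_eq_exp_ℝ]
  have h4 : HasSum (fun k : ℕ => ((k.factorial : ℝ)⁻¹) • (t • K) ^ k) (NormedSpace.exp (t • K)) := by
    open scoped Matrix.Norms.Operator in
    exact NormedSpace.exp_series_hasSum_exp' (𝕂 := ℝ) (t • K)
  have h5 := (Pi.hasSum.1 (Pi.hasSum.1 h4 x) y).mul_left (Real.exp (-t))
  rw [h1, Matrix.exp_add_of_commute _ _ h2, h3, Matrix.mul_smul, Matrix.mul_one,
    Matrix.smul_apply, smul_eq_mul]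
  have e : (fun k : ℕ => po t k * (K ^ k) x y) =
      fun k : ℕ => Real.exp (-t) * (((k.factorial : ℝ)⁻¹) • (t • K) ^ k) x y := by
    funext k
    simp only [po, smul_pow, Matrix.smul_apply, smul_eq_mul]; ring
  rw [e]; exact h5

lemma hs_set (K : Matrix V V ℝ) (t : ℝ) (x : V) (W : Finset V) :
    HasSum (fun k : ℕ => po t k * ∑ y ∈ W, (K ^ k) x y)
      (∑ y ∈ W, NormedSpace.exp (t • (K - 1)) x y) := by
  simp only [Finset.mul_sum]
  exact hasSum_sum fun y _ => hs_heat K t x y

lemma pow_nn {K : Matrix V V ℝ} (h : ∀ x y, 0 ≤ K x y) (k : ℕ) (x y : V) : 0 ≤ (K ^ k) x y := by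
  induction k generalizing y with
  | zero => simp [Matrix.one_apply]; split_ifs <;> norm_num
  | succ t ih =>
    rw [pow_succ, Matrix.mul_apply]
    exact Finset.sum_nonneg fun w _ => mul_nonneg (ih w) (h _ _)

lemma pow_row {K : Matrix V V ℝ} (h : ∀ x, ∑ y, K x y = 1) (k : ℕ) (x : V) :
    ∑ y, (K ^ k) x y = 1 := by
  induction k with
  | zero => simp [Matrix.one_apply]
  | succ t ih =>
    simp only [pow_succ, Matrix.mul_apply]
    rw [Finset.sum_comm]
    simp only [← Finset.mul_sum, h, mul_one, ih]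

lemma heat_nn {K : Matrix V V ℝ} (h : ∀ x y, 0 ≤ K x y) {t : ℝ} (ht : 0 ≤ t) (x y : V) :
    0 ≤ NormedSpace.exp (t • (K - 1)) x y :=
  (hs_heat K t x y).nonneg fun k => mul_nonneg (po_nonneg ht k) (pow_nn h k x y)

lemma heat_row {K : Matrix V V ℝ} (h : ∀ x, ∑ y, K x y = 1) (t : ℝ) (x : V) :
    ∑ y, NormedSpace.exp (t • (K - 1)) x y = 1 := by
  have h1 := hs_set K t x univ
  simp only [pow_row h, mul_one] at h1
  exact h1.unique (hs_one t)

end Pool.Agent.Lib.helper1.Heat
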