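import Mathlib
import Pool.Agent.Lib.helper1.Heat

set_option autoImplicit false
set_option linter.unusedSectionVars false

open Finset Filter Topology Matrix

namespace Pool.Agent.Lib.helper1.Aldous

open Pool.Agent.Lib.helper1.Heat

variable (L : ℕ)

noncomputable def a : ℝ := Real.exp L
noncomputable def β : ℝ := 1 / (1 + a L)
noncomputable def η : ℝ := 1 / (L : ℝ) ^ 2
noncomputable def m (k : ℕ) : ℝ :=
  if k ≤ L then a L ^ k else if k < 2 * L then η L * a L ^ k else a L ^ (2 * L)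
noncomputable def c (x y : ℕ) : ℝ :=
  (if y = x + 1 then (1 - β L) * (if x < L then a L ^ x else η L * a L ^ x) else 0) +
    (if x = L ∧ y = 2 * L then (1 - β L) * (1 - η L) * a L ^ L else 0)
noncomputable def C (x y : ℕ) : ℝ := c L x y + c L y x
noncomputable def Q : Matrix (Fin (2 * L + 1)) (Fin (2 * L + 1)) ℝ := fun x y =>
  C L x y / m L x - if x = y then (∑ z : Fin (2 * L + 1), C L x z) / m L x else 0
noncomputable def K : Matrix (Fin (2 * L + 1)) (Fin (2 * L + 1)) ℝ := Q L + 1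
noncomputable def Z : ℝ := ∑ z : Fin (2 * L + 1), m L z
noncomputable def π (x : Fin (2 * L + 1)) : ℝ := m L x / Z L
def o : Fin (2 * L + 1) := Fin.last _

variable {L}

lemma a_ge (hL : 10 ≤ L) : 11 ≤ a L := by
  have h1 : (10 : ℝ) ≤ L := by exact_mod_cast hL
  have := Real.add_one_le_exp (L : ℝ)
  unfold a; linarith
lemma a_pos : 0 < a L := Real.exp_pos _
lemma β_pos : 0 < β L := by have := a_pos (L := L); unfold β; positivity
lemma β_le (hL : 10 ≤ L) : β L ≤ 1 / 12 := by
  have := a_ge hL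
  unfold β; exact one_div_le_one_div_of_le (by norm_num) (by linarith)
lemma β_eq : 1 - β L = a L * β L := by
  have := a_pos (L := L); unfold β; field_simp; ring
lemma β_le' : β L ≤ Real.exp (-L) := by
  rw [Real.exp_neg, β, ← one_div]
  exact one_div_le_one_div_of_le (Real.exp_pos _) (by unfold a; linarith)
lemma η_pos (hL : 10 ≤ L) : 0 < η L := by
  have h1 : (10 : ℝ) ≤ L := by exact_mod_cast hL
  unfold η; positivity
lemma η_le (hL : 10 ≤ L) : η L ≤ 1 / 100 := by
  have h1 : (10 : ℝ) ≤ L := by exact_mod_cast hL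
  unfold η; exact one_div_le_one_div_of_le (by norm_num) (by nlinarith)
lemma m_pos (hL : 10 ≤ L) (k : ℕ) : 0 < m L k := by
  have := a_pos (L := L); have := η_pos hL
  unfold m; split_ifs <;> positivity
lemma c_nn (hL : 10 ≤ L) (x y : ℕ) : 0 ≤ c L x y := by
  have := a_pos (L := L); have := η_pos hL; have := η_le hL; have := β_le hL
  have h1 : 0 ≤ 1 - β L := by linarith
  have h2 : 0 ≤ 1 - η L := by linarith
  unfold c; split_ifs <;> positivity
lemma C_nn (hL : 10 ≤ L) (x y : ℕ) : 0 ≤ C L x y := add_nonneg (c_nn hL _ _) (c_nn hL _ _)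
lemma C_self (hL : 10 ≤ L) (x : ℕ) : C L x x = 0 := by
  unfold C c
  rw [if_neg (by omega), if_neg (by omega)]; simp

lemma sum_val_le {n : ℕ} (p : ℕ → Prop) [DecidablePred p] (j : ℕ) (hp : ∀ y, p y → y = j)
    (g : ℕ → ℝ) (u : ℝ) (hu : 0 ≤ u) (hg : p j → g j ≤ u) :
    ∑ y : Fin n, (if p y then g y else 0) ≤ u := by
  by_cases h : ∃ y : Fin n, p y
  · obtain ⟨y, hy⟩ := h
    rw [Finset.sum_eq_single y]
    · have := hp y hy
      rw [if_pos hy, this]; exact hg (this ▸ hy)
    · intro b _ hb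
      rw [if_neg]; intro h2
      exact hb (Fin.ext ((hp b h2).trans (hp y hy).symm))
    · simp
  · push Not at h
    simp [h, hu]

lemma rate_le (hL : 10 ≤ L) (x : Fin (2 * L + 1)) :
    ∑ z : Fin (2 * L + 1), C L x z ≤ (if (x : ℕ) = 2 * L then 2 * β L else 1) * m L x := by
  have ha := a_pos (L := L); have ha1 := a_ge hL; have hη := η_pos hL; have hη1 := η_le hL
  have hβ := β_pos (L := L); have hβ1 := β_le hL; have hβe := β_eq (L := L)
  have h1 : 0 ≤ 1 - β L := by linarith
  have h2 : 0 ≤ 1 - η L := by linarith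
  have hx := x.2
  simp only [C, c, Finset.sum_add_distrib]
  by_cases hx2 : (x : ℕ) = 2 * L
  · have e1 : ∑ z : Fin (2 * L + 1), (if (z : ℕ) = x + 1 then
        (1 - β L) * (if (x : ℕ) < L then a L ^ (x : ℕ) else η L * a L ^ (x : ℕ)) else 0) = 0 :=
      Finset.sum_eq_zero fun z _ => if_neg (by have := z.2; omega)
    have e2 : ∑ z : Fin (2 * L + 1), (if (x : ℕ) = L ∧ (z : ℕ) = 2 * L then
        (1 - β L) * (1 - η L) * a L ^ L else 0) = 0 :=
      Finset.sum_eq_zero fun z _ => if_neg (by omega)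
    have e3 := sum_val_le (n := 2 * L + 1) (fun z => (x : ℕ) = z + 1) (2 * L - 1)
      (fun y hy => by omega)
      (fun z => (1 - β L) * (if z < L then a L ^ z else η L * a L ^ z)) (β L * a L ^ (2 * L))
      (by positivity) (fun _ => by
        rw [if_neg (by omega), hβe]
        have : a L ^ (2 * L) = a L * a L ^ (2 * L - 1) := by
          rw [← pow_succ']; congr 1; omega
        rw [this]
        have : 0 ≤ a L * β L * a L ^ (2 * L - 1) := by positivity
        nlinarith)
    have e4 := sum_val_le (n := 2 * L + 1) (fun z => z = L ∧ (x : ℕ) = 2 * L) L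
      (fun y hy => hy.1) (fun _ => (1 - β L) * (1 - η L) * a L ^ L) (β L * a L ^ (2 * L))
      (by positivity) (fun _ => by
        rw [hβe]
        have h3 : a L ^ (L + 1) ≤ a L ^ (2 * L) := pow_le_pow_right₀ (by linarith) (by omega)
        rw [pow_succ] at h3
        have : 0 ≤ a L * β L * a L ^ L := by positivity
        nlinarith)
    rw [e1, e2, if_pos hx2, m, if_neg (by omega), if_neg (by omega)]
    linarith
  · have e4 : ∑ z : Fin (2 * L + 1), (if (z : ℕ) = L ∧ (x : ℕ) = 2 * L then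
        (1 - β L) * (1 - η L) * a L ^ L else 0) = 0 :=
      Finset.sum_eq_zero fun z _ => if_neg (by omega)
    have hm := m_pos hL x
    have e3 := sum_val_le (n := 2 * L + 1) (fun z => (x : ℕ) = z + 1) (x - 1)
      (fun y hy => by omega)
      (fun z => (1 - β L) * (if z < L then a L ^ z else η L * a L ^ z)) (β L * m L x)
      (by positivity) (fun hz => by
        have e : a L ^ (x : ℕ) = a L * a L ^ ((x : ℕ) - 1) := by
          rw [← pow_succ']; congr 1
        rw [hβe, m]
        by_cases h5 : (x : ℕ) ≤ L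
        · rw [if_pos (by omega), if_pos h5, e]; exact le_of_eq (by ring)
        · rw [if_neg (by omega), if_neg h5, if_pos (by omega), e]; exact le_of_eq (by ring))
    have e1 := sum_val_le (n := 2 * L + 1) (fun z => z = (x : ℕ) + 1) (x + 1) (fun y hy => hy)
      (fun _ => (1 - β L) * (if (x : ℕ) < L then a L ^ (x : ℕ) else η L * a L ^ (x : ℕ))) _
      (by split_ifs <;> positivity) (fun _ => le_rfl)
    rw [e4, if_neg hx2]
    by_cases hxL : (x : ℕ) = L
    · have e2 := sum_val_le (n := 2 * L + 1) (fun z => (x : ℕ) = L ∧ z = 2 * L) (2 * L)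
        (fun y hy => hy.2) (fun _ => (1 - β L) * (1 - η L) * a L ^ L) _
        (by positivity) (fun _ => le_rfl)
      have e5 : m L x = a L ^ L := by rw [m, if_pos (by omega), hxL]
      rw [if_neg (by omega : ¬ (x : ℕ) < L), hxL] at e1
      rw [e5] at e3 ⊢
      simp only [hxL, lt_irrefl, if_false] at e2 e3 ⊢
      nlinarith
    · have e2 : ∑ z : Fin (2 * L + 1), (if (x : ℕ) = L ∧ (z : ℕ) = 2 * L then
          (1 - β L) * (1 - η L) * a L ^ L else 0) = 0 :=
        Finset.sum_eq_zero fun z _ => if_neg (by omega)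
      have e5 : (if (x : ℕ) < L then a L ^ (x : ℕ) else η L * a L ^ (x : ℕ)) = m L x := by
        rw [m]
        by_cases h5 : (x : ℕ) < L
        · rw [if_pos h5, if_pos h5.le]
        · rw [if_neg h5, if_neg (by omega), if_pos (by omega)]
      rw [e2]
      simp only [e5] at e1 ⊢
      linarith

lemma Q_off (x y : Fin (2 * L + 1)) (h : x ≠ y) : Q L x y = C L x y / m L x := by
  simp [Q, h]

lemma K_off (x y : Fin (2 * L + 1)) (h : x ≠ y) : K L x y = C L x y / m L x := by
  simp [K, Q, h]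

lemma K_diag (hL : 10 ≤ L) (x : Fin (2 * L + 1)) :
    K L x x = 1 - (∑ z : Fin (2 * L + 1), C L x z) / m L x := by
  simp [K, Q, C_self hL]; ring

lemma K_nn (hL : 10 ≤ L) (x y : Fin (2 * L + 1)) : 0 ≤ K L x y := by
  have hm := m_pos hL x
  by_cases h : x = y
  · subst h
    rw [K_diag hL, sub_nonneg, div_le_one hm]
    refine (rate_le hL x).trans ?_
    have := β_le hL
    split_ifs <;> nlinarith
  · rw [K_off _ _ h]; exact div_nonneg (C_nn hL _ _) hm.le

lemma Q_row (x : Fin (2 * L + 1)) : ∑ y, Q L x y = 0 := by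
  simp [Q, Finset.sum_sub_distrib, Finset.sum_div]

lemma K_row (x : Fin (2 * L + 1)) : ∑ y, K L x y = 1 := by
  simp [K, Finset.sum_add_distrib, Q_row, Matrix.one_apply]

lemma K_oo (hL : 10 ≤ L) : 1 - 2 * β L ≤ K L (o L) (o L) := by
  have hm := m_pos hL (o L)
  have := rate_le hL (o L)
  rw [if_pos (by simp [o])] at this
  rw [K_diag hL]
  have h2 : (∑ z : Fin (2 * L + 1), C L (o L) z) / m L (o L) ≤ 2 * β L := by
    rw [div_le_iff₀ hm]; exact this
  linarith

lemma K_succ (hL : 10 ≤ L) (x y : Fin (2 * L + 1)) (h : (y : ℕ) = x + 1) :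
    (1 - β L) * (if (x : ℕ) = L then η L else 1) ≤ K L x y := by
  have hm := m_pos hL x
  have hy := y.2
  have hne : x ≠ y := fun h2 => by rw [h2] at h; omega
  rw [K_off _ _ hne, le_div_iff₀ hm, C]
  have h1 := c_nn hL y x
  have h2 : (1 - β L) * (if (x : ℕ) = L then η L else 1) * m L x ≤ c L x y := by
    rw [c, if_pos h, if_neg (show ¬ ((x : ℕ) = L ∧ (y : ℕ) = 2 * L) by omega), add_zero, m]
    by_cases h5 : (x : ℕ) < L
    · rw [if_neg (by omega), if_pos h5.le, if_pos h5]; exact le_of_eq (by ring)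
    · by_cases h6 : (x : ℕ) = L
      · rw [if_pos h6, if_pos h6.le, if_neg h5]; exact le_of_eq (by ring)
      · rw [if_neg h6, if_neg (by omega), if_pos (by omega), if_neg h5]; exact le_of_eq (by ring)
  linarith

lemma K_short (hL : 10 ≤ L) (x : Fin (2 * L + 1)) (h : (x : ℕ) = L) :
    (1 - β L) * (1 - η L) ≤ K L x (o L) := by
  have hm := m_pos hL x
  have ho : ((o L : Fin (2 * L + 1)) : ℕ) = 2 * L := by simp [o]
  have hne : x ≠ o L := fun h2 => by rw [h2] at h; omega
  rw [K_off _ _ hne, le_div_iff₀ hm, C]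
  have h1 := c_nn hL (o L) x
  have h2 : (1 - β L) * (1 - η L) * m L x ≤ c L x (o L) := by
    rw [c, if_neg (by omega), if_pos ⟨h, ho⟩, zero_add, m, if_pos h.le, h]
  linarith

lemma pow_step (hL : 10 ≤ L) (k : ℕ) (x w y : Fin (2 * L + 1)) :
    K L x w * (K L ^ k) w y ≤ (K L ^ (k + 1)) x y := by
  rw [pow_succ', Matrix.mul_apply]
  exact Finset.single_le_sum (f := fun j => K L x j * (K L ^ k) j y)
    (fun j _ => mul_nonneg (K_nn hL _ _) (pow_nn (K_nn hL) _ _ _)) (mem_univ w)

lemma o_val : ((o L : Fin (2 * L + 1)) : ℕ) = 2 * L := by simp [o]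

lemma reach1 (hL : 10 ≤ L) (k : ℕ) (x : Fin (2 * L + 1))
    (h : (if (x : ℕ) ≤ L then L + 1 - x else 2 * L - x) ≤ k) :
    (1 - 2 * β L) ^ k * (if (x : ℕ) ≤ L then 1 - η L else 1) ≤ (K L ^ k) x (o L) := by
  have hη := η_pos hL; have hη1 := η_le hL
  have hβ := β_pos (L := L); have hβ1 := β_le hL
  induction k generalizing x with
  | zero =>
    have hx := x.2
    have : x = o L := by
      apply Fin.ext; rw [o_val]; split_ifs at h <;> omega
    subst this
    rw [if_neg (by rw [o_val]; omega)]; simp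
  | succ k ih =>
    have hx := x.2
    have hp : 0 ≤ (1 - 2 * β L) ^ k := pow_nonneg (by linarith) k
    by_cases h1 : (x : ℕ) = 2 * L
    · have : x = o L := Fin.ext (by rw [o_val]; exact h1)
      subst this
      have h2 := ih (o L) (by rw [o_val, if_neg (by omega)]; omega)
      rw [if_neg (by omega), mul_one] at h2 ⊢
      refine le_trans ?_ (pow_step hL k _ (o L) _)
      rw [pow_succ']
      exact mul_le_mul (K_oo hL) h2 hp (K_nn hL _ _)
    by_cases h2 : (x : ℕ) = L
    · have h3 := ih (o L) (by rw [o_val, if_neg (by omega)]; omega)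
      rw [o_val, if_neg (by omega), mul_one] at h3
      refine le_trans ?_ (pow_step hL k _ (o L) _)
      rw [if_pos h2.le]
      calc (1 - 2 * β L) ^ (k + 1) * (1 - η L) = ((1 - 2 * β L) * (1 - η L)) * (1 - 2 * β L) ^ k := by
            ring
        _ ≤ _ := mul_le_mul (le_trans (by nlinarith) (K_short hL x h2)) h3 hp (K_nn hL _ _)
    · let w : Fin (2 * L + 1) := ⟨x + 1, by omega⟩
      have hw : (w : ℕ) = x + 1 := rfl
      have h3 := ih w (by rw [hw]; split_ifs at h ⊢ <;> omega)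
      have h4 := K_succ hL x w hw
      rw [if_neg h2, mul_one] at h4
      refine le_trans ?_ (pow_step hL k _ w _)
      have h5 : (if (w : ℕ) ≤ L then 1 - η L else 1) = if (x : ℕ) ≤ L then 1 - η L else 1 := by
        rw [hw]
        by_cases h6 : (x : ℕ) ≤ L
        · rw [if_pos h6, if_pos (by omega)]
        · rw [if_neg h6, if_neg (by omega)]
      rw [h5] at h3
      rw [pow_succ', mul_assoc]
      refine mul_le_mul (by linarith) h3 (mul_nonneg hp ?_) (K_nn hL _ _)
      split_ifs <;> linarith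

lemma reach2 (hL : 10 ≤ L) (k : ℕ) (x : Fin (2 * L + 1)) (h : 2 * L - x ≤ k) :
    (1 - 2 * β L) ^ k ≤ (K L ^ k) x (o L) := by
  have hη := η_pos hL; have hη1 := η_le hL
  have hβ := β_pos (L := L); have hβ1 := β_le hL
  induction k generalizing x with
  | zero =>
    have hx := x.2
    have : x = o L := by apply Fin.ext; rw [o_val]; omega
    subst this; simp
  | succ k ih =>
    have hx := x.2
    have hp : 0 ≤ (1 - 2 * β L) ^ k := pow_nonneg (by linarith) k
    by_cases h1 : (x : ℕ) = 2 * L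
    · have : x = o L := Fin.ext (by rw [o_val]; exact h1)
      subst this
      have h2 := ih (o L) (by rw [o_val]; omega)
      refine le_trans ?_ (pow_step hL k _ (o L) _)
      rw [pow_succ']
      exact mul_le_mul (K_oo hL) h2 hp (K_nn hL _ _)
    let w : Fin (2 * L + 1) := ⟨x + 1, by omega⟩
    have hw : (w : ℕ) = x + 1 := rfl
    have h3 := ih w (by rw [hw]; omega)
    have h4 := K_succ hL x w hw
    by_cases h2 : (x : ℕ) = L
    · have h5 := ih (o L) (by rw [o_val]; omega)
      have h6 := K_short hL x h2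
      rw [if_pos h2] at h4
      have hne : w ≠ o L := fun h7 => by have := congrArg Fin.val h7; rw [o_val, hw] at this; omega
      rw [pow_succ' (K L), Matrix.mul_apply]
      have h7 := Finset.sum_le_sum_of_subset_of_nonneg (f := fun j => K L x j * (K L ^ k) j (o L))
        (Finset.subset_univ {w, o L})
        (fun j _ _ => mul_nonneg (K_nn hL _ _) (pow_nn (K_nn hL) _ _ _))
      rw [Finset.sum_pair hne] at h7
      have h8 := mul_le_mul h4 h3 hp (K_nn hL _ _)
      have h9 := mul_le_mul h6 h5 hp (K_nn hL _ _)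
      rw [pow_succ']
      nlinarith
    · rw [if_neg h2, mul_one] at h4
      refine le_trans ?_ (pow_step hL k _ w _)
      rw [pow_succ']
      exact mul_le_mul (by linarith) h3 hp (K_nn hL _ _)

lemma stay (hL : 10 ≤ L) (k : ℕ) (hk : k < 2 * L + 1) :
    (1 - β L) ^ k * η L ≤ (K L ^ k) 0 ⟨k, hk⟩ * (if k ≤ L then η L else 1) := by
  have hη := η_pos hL; have hη1 := η_le hL
  have hβ := β_pos (L := L); have hβ1 := β_le hL
  induction k with
  | zero => simp
  | succ k ih =>
    have h1 := ih (by omega)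
    have h2 := K_succ hL ⟨k, by omega⟩ ⟨k + 1, hk⟩ rfl
    have h3 : (K L ^ k) 0 ⟨k, by omega⟩ * K L ⟨k, by omega⟩ ⟨k + 1, hk⟩ ≤
        (K L ^ (k + 1)) 0 ⟨k + 1, hk⟩ := by
      rw [pow_succ, Matrix.mul_apply]
      exact Finset.single_le_sum (f := fun j => (K L ^ k) 0 j * K L j ⟨k + 1, hk⟩)
        (fun j _ => mul_nonneg (pow_nn (K_nn hL) _ _ _) (K_nn hL _ _)) (mem_univ _)
    have h4 := pow_nn (K_nn hL) k 0 ⟨k, by omega⟩
    have h5 := mul_le_mul_of_nonneg_left h2 h4
    have h6 := h5.trans h3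
    have h7 := mul_le_mul_of_nonneg_left h1 (show 0 ≤ 1 - β L by linarith)
    simp only at h6
    rw [pow_succ]
    by_cases h8 : k = L
    · rw [if_pos h8] at h6
      rw [if_pos h8.le] at h7
      rw [if_neg (by omega)]; nlinarith
    · rw [if_neg h8] at h6
      by_cases h9 : k ≤ L
      · rw [if_pos h9] at h7
        rw [if_pos (by omega)]; nlinarith
      · rw [if_neg h9] at h7
        rw [if_neg (by omega)]; nlinarith

lemma m_le (hL : 10 ≤ L) (k : ℕ) (hk : k < 2 * L) : m L k ≤ a L ^ k := by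
  have ha := a_pos (L := L); have hη := η_pos hL; have hη1 := η_le hL
  have : 0 < a L ^ k := by positivity
  unfold m
  rw [if_pos hk]
  split_ifs <;> nlinarith

lemma m_ge (hL : 10 ≤ L) (k : ℕ) : η L ≤ m L k := by
  have ha1 := a_ge hL; have hη := η_pos hL; have hη1 := η_le hL
  have h1 : ∀ j, 1 ≤ a L ^ j := fun j => one_le_pow₀ (by linarith)
  unfold m
  split_ifs
  · linarith [h1 k]
  · nlinarith [h1 k]
  · linarith [h1 (2 * L)]

lemma m_o (hL : 10 ≤ L) : m L (o L) = a L ^ (2 * L) := by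
  rw [o_val, m, if_neg (by omega), if_neg (by omega)]

lemma Z_ge (hL : 10 ≤ L) : a L ^ (2 * L) ≤ Z L := by
  rw [← m_o hL]
  exact Finset.single_le_sum (f := fun z : Fin (2 * L + 1) => m L z)
    (fun z _ => (m_pos hL z).le) (mem_univ _)

lemma Z_pos (hL : 10 ≤ L) : 0 < Z L :=
  lt_of_lt_of_le (pow_pos a_pos _) (Z_ge hL)

lemma Z_le (hL : 10 ≤ L) : Z L ≤ a L ^ (2 * L) * (1 + 2 * L * Real.exp (-L)) := by
  have ha := a_pos (L := L); have ha1 := a_ge hL
  rw [Z, Fin.sum_univ_castSucc]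
  have h1 : ∑ i : Fin (2 * L), m L ((Fin.castSucc i : Fin (2 * L + 1)) : ℕ) ≤
      ∑ _i : Fin (2 * L), a L ^ (2 * L - 1) := Finset.sum_le_sum fun i _ => by
    have := i.2
    exact (m_le hL _ (by simp)).trans (pow_le_pow_right₀ (by linarith) (by simp; omega))
  have h2 := m_o hL
  have h3 : a L ^ (2 * L - 1) = a L ^ (2 * L) * Real.exp (-L) := by
    have : a L ^ (2 * L) = a L ^ (2 * L - 1) * a L := by rw [← pow_succ]; congr 1; omega
    rw [this, Real.exp_neg, mul_assoc]; unfold a; rw [mul_inv_cancel₀ (Real.exp_pos _).ne']; simp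
  simp only [sum_const, card_univ, Fintype.card_fin, nsmul_eq_mul] at h1
  rw [h3] at h1
  unfold o at h2
  rw [h2]; push_cast at h1; linarith

lemma π_pos (hL : 10 ≤ L) (x : Fin (2 * L + 1)) : 0 < π L x := div_pos (m_pos hL _) (Z_pos hL)

lemma π_sum (hL : 10 ≤ L) : ∑ x, π L x = 1 := by
  simp only [π, ← Finset.sum_div]; exact div_self (Z_pos hL).ne'

lemma rev (hL : 10 ≤ L) (x y : Fin (2 * L + 1)) : π L x * Q L x y = π L y * Q L y x := by
  by_cases h : x = y
  · rw [h]
  · have h1 := m_pos hL x; have h2 := m_pos hL y; have h3 := Z_pos hL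
    rw [Q_off _ _ h, Q_off _ _ (Ne.symm h), π, π, C, C]
    field_simp; ring

lemma small (hL : 10 ≤ L) : 2 * L * Real.exp (-L) ≤ 1 := by
  have h1 : (10 : ℝ) ≤ L := by exact_mod_cast hL
  have h2 := Real.quadratic_le_exp_of_nonneg (x := (L : ℝ)) (by linarith)
  rw [Real.exp_neg, ← div_eq_mul_inv, div_le_one (Real.exp_pos _)]
  nlinarith

lemma logπ_o (hL : 10 ≤ L) : -Real.log (π L (o L)) ≤ 2 * L * Real.exp (-L) := by
  have h1 := Z_le hL; have h2 := Z_pos hL
  have h3 : 0 < a L ^ (2 * L) := pow_pos a_pos _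
  rw [← Real.log_inv, π, m_o hL, inv_div]
  refine (Real.log_le_sub_one_of_pos (by positivity)).trans ?_
  rw [sub_le_iff_le_add, div_le_iff₀ h3]; linarith

lemma logπ (hL : 10 ≤ L) (x : Fin (2 * L + 1)) : -Real.log (π L x) ≤ 3 * (L : ℝ) ^ 2 := by
  have h0 : (10 : ℝ) ≤ L := by exact_mod_cast hL
  have h1 := Z_le hL; have h2 := Z_pos hL; have h4 := m_ge hL x; have h5 := η_pos hL
  have h6 := small hL
  have h3 : a L ^ (2 * L) = Real.exp (2 * (L : ℝ) ^ 2) := by
    unfold a; rw [← Real.exp_nat_mul]; congr 1; push_cast; ring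
  rw [← Real.log_inv, π, inv_div, Real.log_le_iff_le_exp (div_pos h2 (m_pos hL _)),
    div_le_iff₀ (m_pos hL _)]
  have h7 : 2 ≤ Real.exp ((L : ℝ) ^ 2) * η L := by
    have := Real.quadratic_le_exp_of_nonneg (x := (L : ℝ) ^ 2) (by positivity)
    rw [η, mul_one_div, le_div_iff₀ (by positivity)]
    nlinarith
  have h8 : Real.exp (3 * (L : ℝ) ^ 2) = Real.exp (2 * (L : ℝ) ^ 2) * Real.exp ((L : ℝ) ^ 2) := by
    rw [← Real.exp_add]; congr 1; ring
  rw [h3] at h1
  have h9 := Real.exp_pos (2 * (L : ℝ) ^ 2)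
  have h10 := Real.exp_pos ((L : ℝ) ^ 2)
  calc Z L ≤ Real.exp (2 * (L : ℝ) ^ 2) * 2 := by nlinarith
    _ ≤ Real.exp (2 * (L : ℝ) ^ 2) * (Real.exp ((L : ℝ) ^ 2) * m L x) := by
        gcongr; nlinarith
    _ = _ := by rw [h8]; ring

section Ent
variable {V : Type} [Fintype V] [DecidableEq V]

lemma ent_up (f p : V → ℝ) (hf : ∀ y, 0 ≤ f y) (hs : ∑ y, f y = 1) (hp : ∀ y, 0 < p y) (z : V)
    (A B : ℝ) (hA : 0 ≤ A) (h1 : -Real.log (p z) ≤ A) (h2 : ∀ y, -Real.log (p y) ≤ B) :
    ∑ y, f y * Real.log (f y / p y) ≤ A + B * (1 - f z) := by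
  have hle : ∀ y, f y ≤ 1 := fun y => hs ▸ Finset.single_le_sum (fun i _ => hf i) (mem_univ y)
  have h3 : ∀ y, f y * Real.log (f y / p y) ≤ f y * (-Real.log (p y)) := by
    intro y
    rcases (hf y).eq_or_lt with h | h
    · simp [← h]
    · rw [Real.log_div h.ne' (hp y).ne']
      have := Real.log_nonpos h.le (hle y)
      nlinarith
  refine (Finset.sum_le_sum fun y _ => h3 y).trans ?_
  rw [← Finset.add_sum_erase _ _ (mem_univ z)] at hs ⊢
  have h4 : ∑ y ∈ univ.erase z, f y * (-Real.log (p y)) ≤ ∑ y ∈ univ.erase z, B * f y :=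
    Finset.sum_le_sum fun y _ => by nlinarith [hf y, h2 y]
  rw [← Finset.mul_sum, show ∑ y ∈ univ.erase z, f y = 1 - f z by linarith] at h4
  nlinarith [hf z, hle z]

lemma ent_low (f p : V → ℝ) (hf : ∀ y, 0 ≤ f y) (hs : ∑ y, f y = 1) (hp : ∀ y, 0 < p y)
    (hps : ∑ y, p y = 1) (W : Finset V) (α : ℝ) :
    α * ∑ y ∈ W, f y - (∑ y ∈ W, p y) * Real.exp α ≤ ∑ y, f y * Real.log (f y / p y) := by
  have h1 : ∀ y, ∀ φ : ℝ, f y * φ + f y - p y * Real.exp φ ≤ f y * Real.log (f y / p y) := by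
    intro y φ
    have hpy := hp y
    have he := Real.exp_pos φ
    rcases (hf y).eq_or_lt with h | h
    · rw [← h]; simp; positivity
    · have h2 := Real.log_le_sub_one_of_pos (show 0 < p y * Real.exp φ / f y by positivity)
      rw [Real.log_div (by positivity) h.ne', Real.log_mul hpy.ne' he.ne', Real.log_exp] at h2
      rw [Real.log_div h.ne' hpy.ne']
      have h3 := mul_le_mul_of_nonneg_left h2 h.le
      have h4 : f y * (p y * Real.exp φ / f y - 1) = p y * Real.exp φ - f y := by field_simp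
      rw [h4] at h3
      nlinarith
  have h2 := Finset.sum_le_sum fun y (_ : y ∈ univ) => h1 y (if y ∈ W then α else 0)
  refine le_trans ?_ h2
  have h3 : ∀ y, p y * Real.exp (if y ∈ W then α else 0) ≤
      p y + (if y ∈ W then p y * Real.exp α else 0) := by
    intro y; have := hp y
    split_ifs <;> simp; positivity
  have h4 := Finset.sum_le_sum fun y (_ : y ∈ univ) => h3 y
  simp only [Finset.sum_add_distrib, Finset.sum_sub_distrib, hs, hps, mul_ite, mul_zero,
    Finset.sum_ite_mem, Finset.univ_inter, ← Finset.sum_mul] at h4 ⊢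
  linarith

end Ent

lemma Q_eq : Q L = K L - 1 := by simp [K]

noncomputable def E (L : ℕ) (t : ℝ) (x : Fin (2 * L + 1)) : ℝ :=
  ∑ y, NormedSpace.exp (t • Q L) x y * Real.log (NormedSpace.exp (t • Q L) x y / π L y)

lemma E_up (hL : 10 ≤ L) (t : ℝ) (ht : 0 ≤ t) (x : Fin (2 * L + 1)) (M : ℕ) (u : ℝ)
    (hu : 0 ≤ u) (hu1 : u ≤ 1)
    (h : ∀ k, M ≤ k → (1 - 2 * β L) ^ k * (1 - u) ≤ (K L ^ k) x (o L)) :
    E L t x ≤ 2 * L * Real.exp (-L) +
      3 * (L : ℝ) ^ 2 * (u + 2 * Real.exp (-L) * t + 2 ^ M * Real.exp (-(t / 2))) := by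
  have hβ := β_pos (L := L); have hβ1 := β_le hL; have hβ2 := β_le' (L := L)
  have h1 := ent_up (fun y => NormedSpace.exp (t • Q L) x y) (π L)
    (fun y => by rw [Q_eq]; exact heat_nn (K_nn hL) ht x y)
    (by rw [Q_eq]; exact heat_row K_row t x) (π_pos hL) (o L) _ _ (by positivity)
    (logπ_o hL) (logπ hL)
  refine h1.trans ?_
  have h2 : ∀ k : ℕ, 1 - u - 2 * β L * k - 2 ^ M * (1 / 2) ^ k ≤ (K L ^ k) x (o L) := by
    intro k
    have hk0 : 0 ≤ β L * k := by positivity
    by_cases hk : M ≤ k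
    · have h3 := h k hk
      have h4 : 1 + (k : ℝ) * (-(2 * β L)) ≤ (1 + -(2 * β L)) ^ k :=
        one_add_mul_le_pow (by linarith) k
      rw [← sub_eq_add_neg] at h4
      have h5 : (0 : ℝ) ≤ 2 ^ M * (1 / 2) ^ k := by positivity
      nlinarith
    · have h3 := pow_nn (K_nn hL) k x (o L)
      have h4 : (1 : ℝ) ≤ 2 ^ M * (1 / 2) ^ k := by
        rw [one_div, inv_pow, ← div_eq_mul_inv, le_div_iff₀ (by positivity), one_mul]
        exact pow_le_pow_right₀ (by norm_num) (by omega)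
      linarith
  have h3 := (((hs_one t).mul_left (1 - u)).sub ((hs_mean t).mul_left (2 * β L))).sub
    ((hs_geo t (1 / 2)).mul_left (2 ^ M))
  have h4 := hasSum_le (fun k => ?_) h3 (hs_heat (K L) t x (o L))
  · rw [← Q_eq, show t * (1 - 1 / 2) = t / 2 by ring] at h4
    have h5 : β L * t ≤ Real.exp (-L) * t := by gcongr
    gcongr
    linarith
  · have := mul_le_mul_of_nonneg_left (h2 k) (po_nonneg ht k)
    refine le_trans (le_of_eq ?_) this
    ring

lemma E_low (hL : 10 ≤ L) (t : ℝ) (ht : 0 ≤ t) (M : ℕ) (hM : M < 2 * L) (hM0 : 0 < M) (α : ℝ)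
    (hα : 0 ≤ α) :
    α * (η L / 2 * (1 - t / M)) - 2 * L * Real.exp (α - L * (2 * L - M)) ≤ E L t 0 := by
  have hβ := β_pos (L := L); have hβ1 := β_le hL; have hβ2 := β_le' (L := L)
  have hη := η_pos hL; have hη1 := η_le hL; have ha1 := a_ge hL
  have hL0 : (10 : ℝ) ≤ L := by exact_mod_cast hL
  have hMr : (0 : ℝ) < M := by exact_mod_cast hM0
  have hMr2 : (M : ℝ) + 1 ≤ 2 * L := by exact_mod_cast hM
  let W : Finset (Fin (2 * L + 1)) := univ.filter fun y => (y : ℕ) ≤ M
  have h1 := ent_low (fun y => NormedSpace.exp (t • Q L) 0 y) (π L)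
    (fun y => by rw [Q_eq]; exact heat_nn (K_nn hL) ht 0 y)
    (by rw [Q_eq]; exact heat_row K_row t 0) (π_pos hL) (π_sum hL) W α
  refine le_trans ?_ h1
  have hsm : 4 * L * Real.exp (-L) ≤ 1 := by
    have h2 := Real.quadratic_le_exp_of_nonneg (x := (L : ℝ)) (by linarith)
    rw [Real.exp_neg, ← div_eq_mul_inv, div_le_one (Real.exp_pos _)]
    nlinarith
  have h2 : ∀ k : ℕ, η L / 2 * (1 - (k : ℝ) / M) ≤ ∑ y ∈ W, (K L ^ k) 0 y := by
    intro k
    have hk0 : 0 ≤ (k : ℝ) / M := by positivity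
    by_cases hk : k ≤ M
    · have h3 := stay hL k (by omega)
      have h4 := pow_nn (K_nn hL) k 0 ⟨k, by omega⟩
      have h5 : (K L ^ k) 0 ⟨k, by omega⟩ ≤ ∑ y ∈ W, (K L ^ k) 0 y :=
        Finset.single_le_sum (f := fun y => (K L ^ k) 0 y) (fun y _ => pow_nn (K_nn hL) _ _ _)
          (by simp [W, hk])
      have h6 : 1 + (k : ℝ) * (-β L) ≤ (1 + -β L) ^ k := one_add_mul_le_pow (by linarith) k
      rw [← sub_eq_add_neg] at h6
      have h7 : (k : ℝ) ≤ M := by exact_mod_cast hk
      have h8 : (k : ℝ) * β L ≤ 1 / 2 := by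
        have : (k : ℝ) * β L ≤ (2 * L) * Real.exp (-L) := by gcongr; linarith
        linarith
      have h9 : (K L ^ k) 0 ⟨k, by omega⟩ * (if k ≤ L then η L else 1) ≤
          (K L ^ k) 0 ⟨k, by omega⟩ := by split_ifs <;> nlinarith
      nlinarith
    · have h3 : (M : ℝ) ≤ k := by exact_mod_cast (by omega : M ≤ k)
      have h4 : 1 ≤ (k : ℝ) / M := by rw [le_div_iff₀ hMr]; linarith
      have h5 : 0 ≤ ∑ y ∈ W, (K L ^ k) 0 y := Finset.sum_nonneg fun y _ => pow_nn (K_nn hL) _ _ _
      nlinarith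
  have h3 := ((hs_one t).sub ((hs_mean t).div_const M)).mul_left (η L / 2)
  have h4 := hasSum_le (fun k => ?_) h3 (hs_set (K L) t 0 W)
  · rw [← Q_eq] at h4
    have h5 : ∑ y ∈ W, π L y ≤ 2 * L * Real.exp (-(L * (2 * L - M))) := by
      have h6 : ∀ y ∈ W, π L y ≤ Real.exp (-(L * (2 * L - M))) := by
        intro y hy
        have hy' : (y : ℕ) ≤ M := by simpa [W] using hy
        rw [π, div_le_iff₀ (Z_pos hL)]
        calc m L y ≤ a L ^ (y : ℕ) := m_le hL _ (by omega)
          _ ≤ a L ^ M := pow_le_pow_right₀ (by linarith) hy'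
          _ = Real.exp (-(L * (2 * L - M))) * a L ^ (2 * L) := by
              unfold a
              rw [← Real.exp_nat_mul, ← Real.exp_nat_mul, ← Real.exp_add]
              congr 1; push_cast; ring
          _ ≤ _ := by gcongr; exact Z_ge hL
      have h7 := Finset.sum_le_card_nsmul W _ _ h6
      have h8 : W.card ≤ M + 1 := by
        have := Finset.card_le_card_of_injOn (s := W) (t := Finset.range (M + 1))
          (fun y => (y : ℕ)) (fun y hy => by
            have hy' : (y : ℕ) ≤ M := by simpa [W] using hy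
            simp; omega) (fun x _ y _ h => Fin.ext h)
        simpa using this
      have h9 : (W.card : ℝ) ≤ M + 1 := by exact_mod_cast h8
      rw [nsmul_eq_mul] at h7
      refine h7.trans ?_
      gcongr; linarith
    have h6 : Real.exp (α - L * (2 * L - M)) = Real.exp (-(L * (2 * L - M))) * Real.exp α := by
      rw [← Real.exp_add]; congr 1; ring
    have h7 := mul_le_mul_of_nonneg_left h4 hα
    have h8 := mul_le_mul_of_nonneg_right h5 (Real.exp_pos α).le
    rw [h6]; linarith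
  · have := mul_le_mul_of_nonneg_left (h2 k) (po_nonneg ht k)
    refine le_trans (le_of_eq ?_) this
    ring

lemma poincare (hL : 10 ≤ L) (f : Fin (2 * L + 1) → ℝ) :
    ∑ x, π L x * (f x - f (o L)) ^ 2 ≤
      16 * ((1 / 2) * ∑ x, ∑ y, π L x * Q L x y * (f y - f x) ^ 2) := by
  have hβ := β_pos (L := L); have hβ1 := β_le hL
  have hη := η_pos hL; have hη1 := η_le hL; have ha1 := a_ge hL
  let σ : Fin (2 * L + 1) → Fin (2 * L + 1) := fun x =>
    if h : (x : ℕ) < 2 * L ∧ (x : ℕ) ≠ L then ⟨x + 1, by omega⟩ else o L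
  have hterm : ∀ x y, 0 ≤ π L x * Q L x y * (f y - f x) ^ 2 := by
    intro x y
    by_cases h : x = y
    · simp [h]
    · rw [Q_off _ _ h]
      have := π_pos hL x; have := C_nn hL x y; have := m_pos hL x
      positivity
  have h1 : ∀ x, π L x * (f x - f (σ x)) ^ 2 ≤ 2 * ∑ y, π L x * Q L x y * (f y - f x) ^ 2 := by
    intro x
    have h2 := Finset.single_le_sum (f := fun y => π L x * Q L x y * (f y - f x) ^ 2)
      (fun y _ => hterm x y) (mem_univ (σ x))
    by_cases h : x = σ x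
    · rw [← h]; simp only [sub_self]
      have := Finset.sum_nonneg fun y (_ : y ∈ univ) => hterm x y
      simp; linarith
    · have h3 : 1 / 2 ≤ Q L x (σ x) := by
        rw [Q_off _ _ h, ← K_off _ _ h]
        by_cases h4 : (x : ℕ) < 2 * L ∧ (x : ℕ) ≠ L
        · have := K_succ hL x (σ x) (by simp only [σ, dif_pos h4])
          rw [if_neg h4.2] at this; linarith
        · have h5 : σ x = o L := by simp only [σ, dif_neg h4]
          have h6 : (x : ℕ) = L := by
            by_contra h7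
            apply h; rw [h5]; apply Fin.ext; rw [o_val]; have := x.2; omega
          rw [h5]
          have := K_short hL x h6
          nlinarith
      have h4 : 0 ≤ π L x * (f (σ x) - f x) ^ 2 := mul_nonneg (π_pos hL x).le (sq_nonneg _)
      nlinarith
  have h2 : ∑ x, π L x * (f (σ x) - f (o L)) ^ 2 ≤ (1 / 4) * ∑ x, π L x * (f x - f (o L)) ^ 2 := by
    let T : Finset (Fin (2 * L + 1)) := univ.filter fun x => (x : ℕ) + 1 < 2 * L ∧ (x : ℕ) ≠ L
    have hσ : ∀ x ∈ T, ((σ x : Fin (2 * L + 1)) : ℕ) = x + 1 := by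
      intro x hx
      have hx' : (x : ℕ) + 1 < 2 * L ∧ (x : ℕ) ≠ L := by simpa [T] using hx
      simp only [σ, dif_pos (show (x : ℕ) < 2 * L ∧ (x : ℕ) ≠ L by omega)]
    have h3 : ∑ x, π L x * (f (σ x) - f (o L)) ^ 2 = ∑ x ∈ T, π L x * (f (σ x) - f (o L)) ^ 2 := by
      symm
      refine Finset.sum_subset (Finset.subset_univ _) fun x _ hx => ?_
      have hx' : ¬ ((x : ℕ) + 1 < 2 * L ∧ (x : ℕ) ≠ L) := by simpa [T] using hx
      have : σ x = o L := by
        by_cases h4 : (x : ℕ) < 2 * L ∧ (x : ℕ) ≠ L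
        · apply Fin.ext; simp only [σ, dif_pos h4, o_val]; omega
        · simp only [σ, dif_neg h4]
      simp [this]
    have h4 : ∀ x ∈ T, π L x * (f (σ x) - f (o L)) ^ 2 ≤
        (1 / 4) * (π L (σ x) * (f (σ x) - f (o L)) ^ 2) := by
      intro x hx
      have hx' : (x : ℕ) + 1 < 2 * L ∧ (x : ℕ) ≠ L := by simpa [T] using hx
      have h5 : m L x ≤ (1 / 4) * m L (σ x) := by
        rw [hσ x hx, m, m]
        have : 0 < a L ^ (x : ℕ) := pow_pos a_pos _
        by_cases h6 : (x : ℕ) ≤ L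
        · rw [if_pos h6, if_pos (by omega), pow_succ]; nlinarith
        · rw [if_neg h6, if_pos (show (x : ℕ) < 2 * L by omega),
            if_neg (show ¬ (x : ℕ) + 1 ≤ L by omega), if_pos hx'.1, pow_succ]
          have := mul_pos hη this
          nlinarith
      have h6 : π L x ≤ (1 / 4) * π L (σ x) := by
        rw [π, π, ← mul_div_assoc]; exact div_le_div_of_nonneg_right h5 (Z_pos hL).le
      nlinarith [sq_nonneg (f (σ x) - f (o L))]
    rw [h3]
    refine (Finset.sum_le_sum h4).trans ?_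
    rw [← Finset.mul_sum]
    gcongr
    rw [← Finset.sum_image (g := σ) (f := fun z => π L z * (f z - f (o L)) ^ 2)]
    · exact Finset.sum_le_sum_of_subset_of_nonneg (Finset.subset_univ _)
        fun z _ _ => mul_nonneg (π_pos hL z).le (sq_nonneg _)
    · intro x hx y hy hxy
      have := congrArg Fin.val hxy
      rw [hσ x hx, hσ y hy] at this
      exact Fin.ext (by omega)
  have h3 : ∑ x, π L x * (f x - f (o L)) ^ 2 ≤
      ∑ x, (2 * (π L x * (f x - f (σ x)) ^ 2) + 2 * (π L x * (f (σ x) - f (o L)) ^ 2)) :=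
    Finset.sum_le_sum fun x _ => by
      nlinarith [mul_nonneg (π_pos hL x).le (sq_nonneg (f x - 2 * f (σ x) + f (o L)))]
  have h4 := Finset.sum_le_sum fun x (_ : x ∈ univ) => h1 x
  rw [Finset.sum_add_distrib, ← Finset.mul_sum, ← Finset.mul_sum] at h3
  rw [← Finset.mul_sum] at h4
  linarith

lemma irred (hL : 10 ≤ L) (x y : Fin (2 * L + 1)) :
    Relation.ReflTransGen (fun a b => a ≠ b ∧ 0 < Q L a b) x y := by
  have hβ1 := β_le hL; have hη := η_pos hL
  have h1 : ∀ u v : Fin (2 * L + 1), (v : ℕ) = u + 1 →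
      (u ≠ v ∧ 0 < Q L u v) ∧ (v ≠ u ∧ 0 < Q L v u) := by
    intro u v h
    have hne : u ≠ v := fun h2 => by rw [h2] at h; omega
    have h2 := K_succ hL u v h
    have h3 : 0 < Q L u v := by
      rw [Q_off _ _ hne, ← K_off _ _ hne]
      refine lt_of_lt_of_le ?_ h2
      split_ifs <;> nlinarith
    refine ⟨⟨hne, h3⟩, hne.symm, ?_⟩
    have h4 := rev hL u v
    have h5 := mul_pos (π_pos hL u) h3
    rw [h4] at h5
    exact (mul_pos_iff_of_pos_left (π_pos hL v)).1 h5
  have h2 : ∀ k (hk : k < 2 * L + 1),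
      Relation.ReflTransGen (fun a b => a ≠ b ∧ 0 < Q L a b) 0 ⟨k, hk⟩ ∧
      Relation.ReflTransGen (fun a b => a ≠ b ∧ 0 < Q L a b) ⟨k, hk⟩ 0 := by
    intro k
    induction k with
    | zero => intro hk; exact ⟨Relation.ReflTransGen.refl, Relation.ReflTransGen.refl⟩
    | succ k ih =>
      intro hk
      have h3 := h1 ⟨k, by omega⟩ ⟨k + 1, hk⟩ rfl
      exact ⟨Relation.ReflTransGen.tail (ih (by omega)).1 h3.1,
        Relation.ReflTransGen.head h3.2 (ih (by omega)).2⟩
  exact (h2 x x.2).2.trans (h2 y y.2).1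

end Pool.Agent.Lib.helper1.Aldous
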