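import Mathlib

set_option autoImplicit false

namespace Pool.Agent.Lib.helper1.BK

open MeasureTheory ProbabilityTheory Filter Topology

lemma indep_comp {Ω Ω' C D : Type} [MeasurableSpace Ω] [MeasurableSpace Ω'] [MeasurableSpace C]
    [MeasurableSpace D] {μ : Measure Ω} {μ' : Measure Ω'} {T : Ω → Ω'}
    (hT : MeasurePreserving T μ μ') {f : Ω' → C} {g : Ω' → D} (hf : Measurable f)
    (hg : Measurable g) : IndepFun f g μ' ↔ IndepFun (f ∘ T) (g ∘ T) μ := by
  simp only [indepFun_iff_measure_inter_preimage_eq_mul]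
  refine forall₄_congr fun s t hs ht => ?_
  rw [Set.preimage_comp, Set.preimage_comp, ← Set.preimage_inter,
    hT.measure_preimage ((hf hs).inter (hg ht)).nullMeasurableSet,
    hT.measure_preimage (hf hs).nullMeasurableSet, hT.measure_preimage (hg ht).nullMeasurableSet]

section
variable {T : Type} [MeasurableSpace T] (ρ : Measure T) [IsProbabilityMeasure ρ]

noncomputable abbrev ν : Measure (ℤ → T) := Measure.infinitePi fun _ : ℤ => ρ

lemma shift (k : ℤ) : MeasurePreserving (fun (y : ℤ → T) i => y (i + k)) (ν ρ) (ν ρ) :=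
  ⟨by fun_prop, Measure.map_infinitePi_infinitePi_of_inj (add_left_injective k)⟩

lemma merge (B : ℤ → Prop) [DecidablePred B] :
    MeasurePreserving (fun (p : (ℤ → T) × (ℤ → T)) i => if B i then p.1 i else p.2 i)
      ((ν ρ).prod (ν ρ)) (ν ρ) := by
  have m : Measurable fun (p : (ℤ → T) × (ℤ → T)) i => if B i then p.1 i else p.2 i :=
    measurable_pi_lambda _ fun i => by split_ifs <;> fun_prop
  refine ⟨m, Measure.eq_infinitePi _ fun s t ht => ?_⟩
  have : (fun (p : (ℤ → T) × (ℤ → T)) i => if B i then p.1 i else p.2 i) ⁻¹'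
      Set.pi s t = Set.pi (s.filter B) t ×ˢ Set.pi (s.filter (¬ B ·)) t := by
    ext p
    simp only [Set.mem_preimage, Set.mem_pi, Set.mem_prod, Finset.mem_coe, Finset.mem_filter]
    refine ⟨fun h => ⟨fun i hi => by simpa [hi.2] using h i hi.1,
      fun i hi => by simpa [hi.2] using h i hi.1⟩, fun h i hi => ?_⟩
    split_ifs with c
    exacts [h.1 i ⟨hi, c⟩, h.2 i ⟨hi, c⟩]
  rw [Measure.map_apply m (MeasurableSet.pi s.countable_toSet fun i _ => ht i), this,
    Measure.prod_prod, Measure.infinitePi_pi _ fun i _ => ht i,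
    Measure.infinitePi_pi _ fun i _ => ht i, Finset.prod_filter_mul_prod_filter_not]

lemma indep_split (B : ℤ → Prop) [DecidablePred B] {C D : Type} [MeasurableSpace C]
    [MeasurableSpace D] {f : (ℤ → T) → C} {g : (ℤ → T) → D} (hf : Measurable f) (hg : Measurable g)
    (h1 : ∀ y y', (∀ i, B i → y i = y' i) → f y = f y')
    (h2 : ∀ y y', (∀ i, ¬ B i → y i = y' i) → g y = g y') : IndepFun f g (ν ρ) := by
  rw [indep_comp (merge ρ B) hf hg]
  have e1 : (f ∘ fun (p : (ℤ → T) × (ℤ → T)) i => if B i then p.1 i else p.2 i)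
      = fun p => f p.1 := funext fun p => h1 _ _ fun i hi => if_pos hi
  have e2 : (g ∘ fun (p : (ℤ → T) × (ℤ → T)) i => if B i then p.1 i else p.2 i)
      = fun p => g p.2 := funext fun p => h2 _ _ fun i hi => if_neg hi
  rw [e1, e2]
  exact indepFun_prod hf hg

lemma skew {Γ : Type} [MeasurableSpace Γ] (a : ℤ) {τ : Γ → T → T}
    (hτ : Measurable (Function.uncurry τ)) (hm : ∀ γ, ρ.map (τ γ) = ρ) {g : (ℤ → T) → Γ}
    (hg : Measurable g) (h : ∀ y s, g (Function.update y a s) = g y) :
    MeasurePreserving (fun y => Function.update y a (τ (g y) (y a))) (ν ρ) (ν ρ) := by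
  have mu : Measurable fun p : (ℤ → T) × T => Function.update p.1 a p.2 := measurable_update'
  have U : MeasurePreserving (fun p : (ℤ → T) × T => Function.update p.1 a p.2) ((ν ρ).prod ρ)
      (ν ρ) := by
    refine ⟨mu, ?_⟩
    have e := ((MeasurePreserving.id (ν ρ)).prod (measurePreserving_eval_infinitePi
      (fun _ : ℤ => ρ) a)).map_eq
    conv_lhs => rw [← e, Measure.map_map mu (by fun_prop)]
    refine Eq.trans ?_ (merge ρ (· ≠ a)).map_eq
    congr 1
    ext p i
    by_cases c : i = a <;> simp [c]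
  have m : Measurable fun y : ℤ → T => Function.update y a (τ (g y) (y a)) :=
    mu.comp (measurable_id.prodMk (hτ.comp (hg.prodMk (measurable_pi_apply a))))
  have S := (MeasurePreserving.id (ν ρ)).skew_product (g := fun y s => τ (g y) s) (μc := ρ)
    (hτ.comp ((hg.comp measurable_fst).prodMk measurable_snd)) (.of_forall fun y => hm _)
  refine ⟨m, ?_⟩
  conv_lhs => rw [← U.map_eq, Measure.map_map m mu]
  refine Eq.trans ?_ (U.comp S).map_eq
  congr 1
  ext1 p
  simp [h]

end

lemma gen {Ω : Type} {m0 : MeasurableSpace Ω} {μ : Measure Ω} [IsProbabilityMeasure μ]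
    (m : ℤ → MeasurableSpace Ω) (hle : ∀ i, m i ≤ m0)
    (H : ∀ t, Indep (⨆ i ∈ Set.Iic t, m i) (⨆ i ∈ Set.Ici (t + 2), m i) μ) (A B : Set ℤ)
    (h : ∀ i ∈ A, ∀ j ∈ B, 1 < |i - j|) : Indep (⨆ i ∈ A, m i) (⨆ i ∈ B, m i) μ := by
  classical
  have key : ∀ f : ℤ → Set Ω, (∀ i, MeasurableSet[m i] (f i)) → ∀ N, ∀ I J : Finset ℤ,
      I.card + J.card ≤ N → (∀ i ∈ I, ∀ j ∈ J, 1 < |i - j|) →
      μ (⋂ i ∈ I ∪ J, f i) = μ (⋂ i ∈ I, f i) * μ (⋂ i ∈ J, f i) := by
    intro f hf
    have cut : ∀ t, ∀ I J : Finset ℤ, (∀ i ∈ I, i ≤ t) → (∀ j ∈ J, t + 2 ≤ j) →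
        μ (⋂ i ∈ I ∪ J, f i) = μ (⋂ i ∈ I, f i) * μ (⋂ i ∈ J, f i) := fun t I J hI hJ => by
      rw [Finset.set_biInter_inter]
      exact (Indep_iff _ _ _).1 (H t) _ _
        (I.measurableSet_biInter fun i hi => le_iSup₂ (f := fun i _ => m i) i (hI i hi) _ (hf i))
        (J.measurableSet_biInter fun i hi => le_iSup₂ (f := fun i _ => m i) i (hJ i hi) _ (hf i))
    intro N
    induction N with
    | zero => intro I J h _; simp [show I = ∅ from Finset.card_eq_zero.1 (by omega)]
    | succ N ih =>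
      have one : ∀ I J : Finset ℤ, I.card + J.card ≤ N + 1 → (∀ i ∈ I, ∀ j ∈ J, 1 < |i - j|) →
          ∀ b, b ∈ J → (∀ j ∈ J, j ≤ b) → (∃ i ∈ I, b < i) →
          μ (⋂ i ∈ I ∪ J, f i) = μ (⋂ i ∈ I, f i) * μ (⋂ i ∈ J, f i) := by
        rintro I J hc hs b hb hm ⟨i0, hi0, l⟩
        have e := Finset.filter_union_filter_not_eq (· ≤ b) I
        have h2 : ∀ j ∈ I.filter (¬ · ≤ b), b + 2 ≤ j := fun j hj => by
          have := hs j (Finset.mem_filter.1 hj).1 b hb
          have := (Finset.mem_filter.1 hj).2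
          rw [lt_abs] at *
          omega
        have := Finset.card_lt_card ((Finset.filter_ssubset (p := (· ≤ b))).2 ⟨i0, hi0, l.not_ge⟩)
        conv_lhs => rw [← e, Finset.union_right_comm, cut b _ _ (fun i hi =>
          (Finset.mem_union.1 hi).elim (fun h => (Finset.mem_filter.1 h).2) (hm i)) h2,
          ih _ _ (by omega) fun i hi => hs i (Finset.mem_filter.1 hi).1]
        conv_rhs => rw [← e, cut b _ _ (fun i hi => (Finset.mem_filter.1 hi).2) h2]
        ring
      intro I J hc hs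
      rcases I.eq_empty_or_nonempty with rfl | hI
      · simp
      rcases J.eq_empty_or_nonempty with rfl | hJ
      · simp
      rcases lt_trichotomy (I.max' hI) (J.max' hJ) with l | l | l
      · rw [Finset.union_comm, mul_comm]
        exact one J I (by omega) (fun i hi j hj => abs_sub_comm j i ▸ hs j hj i hi) _
          (I.max'_mem hI) (I.le_max') ⟨_, J.max'_mem hJ, l⟩
      · simpa [l] using hs _ (I.max'_mem hI) _ (J.max'_mem hJ)
      · exact one I J hc hs _ (J.max'_mem hJ) (J.le_max') ⟨_, I.max'_mem hI, l⟩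
  refine IndepSets.indep (iSup₂_le fun i _ => hle i) (iSup₂_le fun i _ => hle i)
    (isPiSystem_piiUnionInter _ (fun i => @MeasurableSpace.isPiSystem_measurableSet _ (m i)) A)
    (isPiSystem_piiUnionInter _ (fun i => @MeasurableSpace.isPiSystem_measurableSet _ (m i)) B)
    (generateFrom_piiUnionInter_measurableSet m A).symm
    (generateFrom_piiUnionInter_measurableSet m B).symm ?_
  rw [IndepSets_iff]
  rintro _ _ ⟨I, hI, f, hf, rfl⟩ ⟨J, hJ, g, hg, rfl⟩
  have d : ∀ j ∈ J, j ∉ I := fun j hj hi => by simpa using h j (hI hi) j (hJ hj)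
  have := key (fun i => if i ∈ I then f i else if i ∈ J then g i else Set.univ) (fun i => by
    split_ifs with c c'
    exacts [hf i c, hg i c', .univ]) _ I J le_rfl fun i hi j hj => h i (hI hi) j (hJ hj)
  have e1 : (⋂ i ∈ I, if i ∈ I then f i else if i ∈ J then g i else Set.univ) = ⋂ i ∈ I, f i :=
    Set.iInter₂_congr fun i hi => if_pos hi
  have e2 : (⋂ i ∈ J, if i ∈ I then f i else if i ∈ J then g i else Set.univ) = ⋂ i ∈ J, g i :=
    Set.iInter₂_congr fun i hi => by rw [if_neg (d i hi), if_pos hi]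
  rwa [Finset.set_biInter_inter, e1, e2] at this

lemma comap_res {Ω S : Type} [MeasurableSpace S] (X : ℤ → Ω → S) (A : Set ℤ) :
    MeasurableSpace.comap (fun ω (i : A) => X i ω) inferInstance
      = ⨆ i ∈ A, MeasurableSpace.comap (X i) inferInstance := by
  simp only [MeasurableSpace.pi, MeasurableSpace.comap_iSup, MeasurableSpace.comap_comp,
    iSup_subtype']
  rfl

end Pool.Agent.Lib.helper1.BK
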