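import Pool.Agent.Lib.helper1.BK1

set_option autoImplicit false

namespace Pool.Agent.Lib.helper1.BK

open MeasureTheory ProbabilityTheory Filter Topology

abbrev St : Type := unitInterval × ZMod 2 × (ℕ → ZMod 2)

noncomputable def pp (n : ℕ) : ℝ := 1 / (2400 * (n + 1))

lemma ex_KK (n : ℕ) : ∃ k : ℕ, k = 1440000 * (n + 1) := ⟨_, rfl⟩

noncomputable def KK (n : ℕ) : ℕ := (ex_KK n).choose

lemma KK_eq (n : ℕ) : KK n = 1440000 * (n + 1) := (ex_KK n).choose_spec

noncomputable def LL (n : ℕ) : ℕ := 4 * n + 2 + 2 * KK n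

def Mk (n : ℕ) (s : St) : Prop := (s.1 : ℝ) ≤ pp n

lemma m_Mk (n : ℕ) : MeasurableSet {s | Mk n s} := measurableSet_le (by fun_prop) measurable_const

open Classical in
noncomputable def hh (n : ℕ) (x : ZMod 2) : ℕ → ℤ → (ℤ → St) → ZMod 2
  | 0, _, _ => 0
  | k + 1, v, ω => if Mk n (ω v) then x * (ω v).2.1 else (ω v).2.2 n + hh n x k (v + 1) ω

open Classical in
noncomputable def Φ (ω : ℤ → St) (v : ℤ) : St := ((ω v).1, (ω v).2.1, fun n =>
  if Mk n (ω v) then hh n (ω v).2.1 (LL n) (v + 1) ω else (ω v).2.2 n)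

instance : DiscreteMeasurableSpace (ZMod 2) := ⟨fun _ => trivial⟩

lemma mk (n : ℕ) (v : ℤ) : MeasurableSet {ω : ℤ → St | Mk n (ω v)} :=
  measurable_pi_apply (X := fun _ => St) v (m_Mk n)

lemma m_hh (n k : ℕ) (v : ℤ) : Measurable fun q : ZMod 2 × (ℤ → St) => hh n q.1 k v q.2 := by
  induction k generalizing v with
  | zero => exact measurable_const
  | succ k ih =>
    exact Measurable.ite ((by fun_prop : Measurable fun q : ZMod 2 × (ℤ → St) => q.2 v) (m_Mk n))
      (by fun_prop) ((Measurable.of_discrete (f := fun p : ZMod 2 × ZMod 2 => p.1 + p.2)).comp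
        (Measurable.prodMk (by fun_prop) (ih _)))

lemma m_hh' (n k : ℕ) (s v : ℤ) : Measurable fun ω : ℤ → St => hh n (ω s).2.1 k v ω :=
  (m_hh n k v).comp (f := fun ω : ℤ → St => ((ω s).2.1, ω)) (by fun_prop)

lemma m_Φ : Measurable Φ := measurable_pi_lambda _ fun v => Measurable.prodMk (by fun_prop)
  (Measurable.prodMk (by fun_prop) (measurable_pi_lambda _ fun n =>
    Measurable.ite (mk n v) (m_hh' _ _ _ _) (by fun_prop)))

lemma hh_sh (n : ℕ) (x : ZMod 2) (k : ℕ) (v t : ℤ) (ω : ℤ → St) :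
    hh n x k v (fun i => ω (i + t)) = hh n x k (v + t) ω := by
  induction k generalizing v with
  | zero => rfl
  | succ k ih => simp only [hh, ih, add_right_comm v 1 t]

lemma Φ_sh (t : ℤ) (ω : ℤ → St) : Φ (fun i => ω (i + t)) = fun i => Φ ω (i + t) := by
  ext1 v
  simp only [Φ, hh_sh, add_right_comm v 1 t]

lemma hh_fut (n : ℕ) (x : ZMod 2) (k : ℕ) (v : ℤ) {ω ω' : ℤ → St} (h : ∀ i, v ≤ i → ω i = ω' i) :
    hh n x k v ω = hh n x k v ω' := by
  induction k generalizing v with
  | zero => rfl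
  | succ k ih => rw [hh, hh, h v le_rfl, ih (v + 1) fun i hi => h i (by omega)]

lemma Φ_fut (v : ℤ) {ω ω' : ℤ → St} (h : ∀ i, v ≤ i → ω i = ω' i) : Φ ω v = Φ ω' v := by
  unfold Φ
  rw [h v le_rfl]
  simp only [fun n x k => hh_fut n x k (v + 1) fun i hi => h i (by omega)]

lemma hh_back (n : ℕ) (x : ZMod 2) (a : ℤ) {ω ω' : ℤ → St} (h : ∀ i, i < a → ω i = ω' i)
    (i k : ℕ) (H : (∀ w, a - i ≤ w → w < a → ¬ Mk n (ω w)) →
      hh n x (k - i) a ω = hh n x (k - i) a ω') : hh n x k (a - i) ω = hh n x k (a - i) ω' := by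
  induction i generalizing k with
  | zero => simpa using H fun w h1 h2 => by omega
  | succ i ih =>
    cases k with
    | zero => rfl
    | succ k =>
      have e : a - (i + 1 : ℕ) + 1 = a - i := by push_cast; ring
      rw [hh, hh, ← h (a - (i + 1 : ℕ)) (by omega), e]
      split_ifs with c
      · rfl
      · rw [ih k fun hw => ?_]
        simpa using H fun w h1 h2 => by
          rcases h1.eq_or_lt with rfl | l
          exacts [c, hw w (by omega) h2]

noncomputable def U2 : Measure (ZMod 2) := uniformOn Set.univ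

instance : IsProbabilityMeasure U2 := by unfold U2; infer_instance

lemma U2_add (c : ZMod 2) : U2.map (· + c) = U2 := by
  refine Measure.ext_iff_singleton.2 fun x => ?_
  have : (· + c) ⁻¹' {x} = {x - c} := by ext; simp only [Set.mem_preimage, Set.mem_singleton_iff, eq_sub_iff_add_eq]
  rw [Measure.map_apply (by fun_prop) (by simp), this]
  simp [U2, uniformOn_univ]

noncomputable def ρ0 : Measure St := volume.prod (U2.prod (Measure.infinitePi fun _ => U2))

instance : IsProbabilityMeasure ρ0 := by unfold ρ0; infer_instance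

def τ (γ : ZMod 2 × (ℕ → ZMod 2)) (s : St) : St := (s.1, s.2 + γ)

lemma τ_mp (γ : ZMod 2 × (ℕ → ZMod 2)) : ρ0.map (τ γ) = ρ0 := by
  have : MeasurePreserving (fun u : ℕ → ZMod 2 => fun i => u i + γ.2 i)
      (Measure.infinitePi fun _ => U2) (Measure.infinitePi fun _ => U2) := ⟨by fun_prop, by
    rw [Measure.infinitePi_map_pi _ (f := fun i u => u + γ.2 i) (by fun_prop)]
    simp only [U2_add]⟩
  exact ((MeasurePreserving.id _).prod ((MeasurePreserving.mk (by fun_prop)
    (U2_add γ.1)).prod this)).map_eq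

lemma half (t : ℤ) : IndepFun (fun ω (i : Set.Iic t) => Φ ω i)
    (fun ω (i : Set.Ici (t + 2)) => Φ ω i) (ν ρ0) := by
  classical
  let P : (ℤ → St) → ℕ → Prop := fun ω n => ∃ i : ℕ, Mk n (ω (t - i)) ∧
    (∀ w, t + 1 - i ≤ w → w < t + 1 → ¬ Mk n (ω w)) ∧
      hh n (ω (t - i)).2.1 (LL n - i - 1) (t + 2) ω = 1
  let g : (ℤ → St) → ZMod 2 × (ℕ → ZMod 2) := fun ω => (0, fun n => if P ω n then 1 else 0)
  have mk : ∀ n v, Measurable fun ω : ℤ → St => Mk n (ω v) := fun n v =>
    measurableSet_setOfPred.1 (mk n v)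
  have mg : Measurable g := measurable_const.prodMk (measurable_pi_lambda _ fun n =>
    Measurable.ite (measurableSet_setOfPred.2 (Measurable.exists fun i => (mk _ _).and
      ((Measurable.forall fun w => measurable_const.imp (measurable_const.imp (mk _ _).not)).and
        (measurableSet_setOfPred.1 (m_hh' _ _ _ _ (MeasurableSet.singleton 1))))))
      measurable_const measurable_const)
  have hg : ∀ y s, g (Function.update y (t + 1) s) = g y := fun y s => by
    have : ∀ n, P (Function.update y (t + 1) s) n ↔ P y n := fun n => exists_congr fun i => by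
      rw [Function.update_of_ne (by omega), hh_fut n _ _ _ (ω' := y) fun i hi =>
        Function.update_of_ne (by omega) _ _]
      refine and_congr_right fun _ => and_congr_left fun _ => forall₃_congr fun w _ _ => ?_
      rw [Function.update_of_ne (by omega)]
    simp only [g, this]
  have T := skew ρ0 (t + 1) (τ := τ) (by unfold τ Function.uncurry; fun_prop) τ_mp mg hg
  have m1 : Measurable fun ω (i : Set.Iic t) => Φ ω i := by have := m_Φ; fun_prop
  have m2 : Measurable fun ω (i : Set.Ici (t + 2)) => Φ ω i := by have := m_Φ; fun_prop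
  rw [indep_comp T m1 m2]
  let c : (ℤ → St) → ℤ → St := fun ω i => if i ≤ t + 1 then ω i else (0, 0, 0)
  have mc : Measurable c := measurable_pi_lambda _ fun i => by
    simp only [c]; split_ifs <;> fun_prop
  have e1 : ((fun ω (i : Set.Iic t) => Φ ω i) ∘ fun y => Function.update y (t + 1)
      (τ (g y) (y (t + 1)))) = (fun ω (i : Set.Iic t) => Φ ω i) ∘ c := by
    ext1 ω
    ext1 ⟨v, hv⟩
    obtain ⟨i, rfl⟩ : ∃ i : ℕ, v = t - i := ⟨(t - v).toNat, by have : v ≤ t := hv; omega⟩
    have a1 : ∀ j, j < t + 1 → Function.update ω (t + 1) (τ (g ω) (ω (t + 1))) j = ω j :=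
      fun j hj => Function.update_of_ne hj.ne _ _
    have a2 : ∀ j, j ≤ t + 1 → c ω j = ω j := fun j hj => if_pos hj
    simp only [Function.comp]
    unfold Φ
    rw [a1 (t - i) (by omega), a2 (t - i) (by omega)]
    congr 2
    ext n
    split_ifs with hm
    swap
    · rfl
    rw [show t - i + 1 = t + 1 - i by ring]
    refine hh_back n _ _ (fun j hj => (a1 j hj).trans (a2 j hj.le).symm) _ _ fun hw => ?_
    replace hw : ∀ w, t + 1 - i ≤ w → w < t + 1 → ¬ Mk n (ω w) := fun w h1 h2 =>
      a1 w h2 ▸ hw w h1 h2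
    cases e : LL n - i with
    | zero => rfl
    | succ k =>
      have z : hh n (ω (t - i)).2.1 k (t + 1 + 1) (c ω) = 0 := by
        cases k with
        | zero => rfl
        | succ k =>
          have : c ω (t + 1 + 1) = (0, 0, 0) := if_neg (by omega)
          have p0 : Mk n (0, 0, 0) := by simp only [Mk, pp]; simp; positivity
          simp [hh, this, p0]
      have : (if P ω n then 1 else 0) = hh n (ω (t - i)).2.1 k (t + 2) ω := by
        have k' : k = LL n - i - 1 := by omega
        have : P ω n ↔ hh n (ω (t - i)).2.1 k (t + 2) ω = 1 := by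
          refine ⟨fun ⟨j, h1, h2, h3⟩ => ?_, fun h => ⟨i, hm, hw, k' ▸ h⟩⟩
          rcases lt_trichotomy i j with l | rfl | l
          · exact absurd hm (h2 _ (by omega) (by omega))
          · exact k' ▸ h3
          · exact absurd h1 (hw _ (by omega) (by omega))
        simp only [this]
        generalize hh n (ω (t - i)).2.1 k (t + 2) ω = z
        revert z
        decide
      simp only [hh, Function.update_self, a2 _ le_rfl, z, τ, g, Mk, Prod.fst_add, Prod.snd_add,
        add_zero, Pi.add_apply, this]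
      rw [hh_fut n _ k (t + 1 + 1) (ω' := ω) fun j hj => Function.update_of_ne (by omega) _ _, add_assoc t,
        one_add_one_eq_two, add_assoc, CharTwo.add_self_eq_zero, add_zero]
  have e2 : ((fun ω (i : Set.Ici (t + 2)) => Φ ω i) ∘ fun y => Function.update y (t + 1)
      (τ (g y) (y (t + 1)))) = fun ω (i : Set.Ici (t + 2)) => Φ ω i := by
    ext1 ω
    ext1 ⟨v, hv⟩
    exact Φ_fut v fun i hi => Function.update_of_ne (by have : t + 2 ≤ v := hv; omega) _ _
  rw [e1, e2]
  refine indep_split ρ0 (· ≤ t + 1) (m1.comp mc) m2 (fun y y' h => ?_) fun y y' h => ?_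
  · have : c y = c y' := funext fun i => by
      simp only [c]; split_ifs with l; exacts [h i l, rfl]
    simp only [Function.comp, this]
  · ext1 ⟨v, hv⟩
    exact Φ_fut v fun i hi => h i (by have : t + 2 ≤ v := hv; omega)

lemma dep (A B : Set ℤ) (h : ∀ i ∈ A, ∀ j ∈ B, 1 < |i - j|) :
    IndepFun (fun ω (i : A) => Φ ω i) (fun ω (i : B) => Φ ω i) (ν ρ0) := by
  rw [IndepFun_iff_Indep, comap_res fun i ω => Φ ω i, comap_res fun i ω => Φ ω i]
  refine gen (fun i => MeasurableSpace.comap (fun ω => Φ ω i) inferInstance) (fun i => ((measurable_pi_apply i).comp m_Φ).comap_le) (fun t => ?_) A B h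
  rw [← comap_res fun i ω => Φ ω i, ← comap_res fun i ω => Φ ω i, ← IndepFun_iff_Indep]
  exact half t

lemma rel (n : ℕ) (ω : ℤ → St) (x : ZMod 2) (t : ℤ) (ht : Mk n (ω t)) (i k : ℕ) (hk : i < k)
    (h : ∀ w, t - i ≤ w → w < t → ¬ Mk n (ω w)) :
    hh n x k (t - i) ω = x * (ω t).2.1 + ∑ v ∈ Finset.Ico (t - i) t, (Φ ω v).2.2 n := by
  induction i generalizing k with
  | zero => obtain ⟨k, rfl⟩ := Nat.exists_eq_succ_of_ne_zero hk.ne'; simp [hh, ht]
  | succ i ih =>
    obtain ⟨k, rfl⟩ := Nat.exists_eq_succ_of_ne_zero (n := k) (by omega)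
    have e : t - (i + 1 : ℕ) + 1 = t - i := by push_cast; ring
    have c := h (t - (i + 1 : ℕ)) le_rfl (by omega)
    rw [hh, if_neg c, e, ih k (by omega) fun w h1 => h w (by omega), ← e,
      ← Finset.insert_Ico_add_one_left_eq_Ico (by omega : t - (i + 1 : ℕ) < t),
      Finset.sum_insert (by simp)]
    simp only [Φ, if_neg c]
    ring

end Pool.Agent.Lib.helper1.BK
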