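import Pool.Agent.Lib.helper1.BK2

set_option autoImplicit false

namespace Pool.Agent.Lib.helper1.BK

open MeasureTheory ProbabilityTheory Filter Topology

lemma chsh {T : Type} [MeasurableSpace T] (ρ : Measure T) [IsProbabilityMeasure ρ] (n : ℤ)
    (hn : 0 ≤ n) {x y a b : (ℤ → T) → ZMod 2} (mx : Measurable x) (my : Measurable y)
    (ma : Measurable a) (mb : Measurable b)
    (hx : ∀ w w', (∀ i, i < -n → w i = w' i) → x w = x w')
    (hy : ∀ w w', (∀ i, n < i → w i = w' i) → y w = y w')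
    (ha : ∀ w w', (∀ i, i ≤ n → w i = w' i) → a w = a w')
    (hb : ∀ w w', (∀ i, -n ≤ i → w i = w' i) → b w = b w') (j : ZMod 2) :
    (ν ρ).real {w | x w = 0 ∧ y w = j} * (ν ρ).real {w | x w = 1 ∧ y w = j + 1}
      ≤ 4 * (ν ρ).real {w | a w + b w ≠ x w * y w} := by
  let F := {w | a w + b w ≠ x w * y w}
  have mF : MeasurableSet F := (measurableSet_eq_fun (by fun_prop) (by fun_prop)).compl
  let M := fun (B : ℤ → Prop) [DecidablePred B] (p : (ℤ → T) × (ℤ → T)) (i : ℤ) =>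
    if B i then p.1 i else p.2 i
  have e : ∀ (B : ℤ → Prop) [DecidablePred B], ((ν ρ).prod (ν ρ)).real (M B ⁻¹' F)
      = (ν ρ).real F := fun B _ => (merge ρ B).measureReal_preimage mF.nullMeasurableSet
  have s : {w | x w = 0 ∧ y w = j} ×ˢ {w | x w = 1 ∧ y w = j + 1} ⊆ (M (fun _ => True) ⁻¹' F ∪
      M (-n ≤ ·) ⁻¹' F) ∪ (M (· ≤ n) ⁻¹' F ∪ M (fun i => -n ≤ i ∧ i ≤ n) ⁻¹' F) := by
    rintro p ⟨⟨h1, h2⟩, h3, h4⟩
    by_contra hc
    simp only [Set.mem_union, Set.mem_preimage, F, Set.mem_ofPred_eq, not_or, not_not] at hc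
    obtain ⟨⟨c1, c2⟩, c3, c4⟩ := hc
    have e1 : M (fun _ => True) p = p.1 := funext fun i => if_pos trivial
    rw [e1, h1, h2] at c1
    rw [hx _ p.2 fun i hi => if_neg (by omega), hy _ p.1 fun i hi => if_pos (by omega),
      hb _ p.1 fun i hi => if_pos hi, h3, h2] at c2
    rw [hx _ p.1 fun i hi => if_pos (by omega), hy _ p.2 fun i hi => if_neg (by omega),
      ha _ p.1 fun i hi => if_pos hi, h1, h4] at c3
    rw [hx _ p.2 fun i hi => if_neg (by omega), hy _ p.2 fun i hi => if_neg (by omega),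
      ha _ (M (-n ≤ ·) p) fun i hi => by simp [M, hi], hb _ (M (· ≤ n) p) fun i hi => by simp [M, hi],
      h3, h4] at c4
    clear h1 h2 h3 h4
    revert c1 c2 c3 c4
    generalize a p.1 = a1, b p.1 = b1, a (M (-n ≤ ·) p) = a2, b (M (· ≤ n) p) = b2
    revert a1 b1 a2 b2 j
    decide
  have := measureReal_mono (μ := (ν ρ).prod (ν ρ)) s
  rw [measureReal_prod_prod] at this
  refine this.trans ((measureReal_union_le _ _).trans ((add_le_add (measureReal_union_le _ _)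
    (measureReal_union_le _ _)).trans_eq ?_))
  simp only [e]
  ring

open Classical in
noncomputable def fs (n : ℕ) (σ : ℕ → ℤ) (G : ℕ → (ℤ → St) → ZMod 2) (ξ : ℤ → St) : ZMod 2 :=
  ∑ i ∈ Finset.range (KK n), if Mk n (ξ (σ i)) ∧ ∀ j < i, ¬ Mk n (ξ (σ j)) then G i ξ else 0

lemma m_fs (n : ℕ) (σ : ℕ → ℤ) {G : ℕ → (ℤ → St) → ZMod 2} (h : ∀ i, Measurable (G i)) :
    Measurable (fs n σ G) := Finset.measurable_sum _ fun i _ => Measurable.ite
  ((mk n _).inter (measurableSet_setOfPred.2 (Measurable.forall fun j => measurable_const.imp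
    (measurableSet_setOfPred.1 (mk n (σ j))).not))) (h i) measurable_const

lemma fs_eq {n : ℕ} {σ : ℕ → ℤ} (G : ℕ → (ℤ → St) → ZMod 2) {ξ : ℤ → St} {i : ℕ} (hi : i < KK n)
    (h : Mk n (ξ (σ i))) (h' : ∀ j < i, ¬ Mk n (ξ (σ j))) : fs n σ G ξ = G i ξ := by
  rw [fs, Finset.sum_eq_single i (fun j _ hj => if_neg fun c => ?_)
    (fun c => absurd (Finset.mem_range.2 hi) c), if_pos ⟨h, h'⟩]
  rcases lt_or_gt_of_ne hj with l | l
  exacts [h' j l c.1, c.2 i l h]

lemma fs_congr {n : ℕ} {σ : ℕ → ℤ} {G : ℕ → (ℤ → St) → ZMod 2} {ξ ξ' : ℤ → St}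
    (h : ∀ i < KK n, ξ (σ i) = ξ' (σ i)) (h' : ∀ i < KK n, G i ξ = G i ξ') :
    fs n σ G ξ = fs n σ G ξ' := Finset.sum_congr rfl fun i hi => by
  have := Finset.mem_range.1 hi
  have e : (Mk n (ξ (σ i)) ∧ ∀ j < i, ¬ Mk n (ξ (σ j))) = (Mk n (ξ' (σ i)) ∧
      ∀ j < i, ¬ Mk n (ξ' (σ j))) := propext (and_congr (by rw [h i this])
    (forall₂_congr fun j hj => by rw [h j (by omega)]))
  by_cases c : Mk n (ξ (σ i)) ∧ ∀ j < i, ¬ Mk n (ξ (σ j))
  · rw [if_pos c, if_pos (e ▸ c), h' i this]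
  · rw [if_neg c, if_neg (e ▸ c)]

attribute [irreducible] fs

def sL (n i : ℕ) : ℤ := -(2 * n + 1 + i)
def sR (n i : ℕ) : ℤ := 2 * n + 1 + i

noncomputable def xA (n : ℕ) := fs n (sL n) fun i ξ => (ξ (sL n i)).2.1
noncomputable def yB (n : ℕ) := fs n (sR n) fun i ξ => (ξ (sR n i)).2.1
noncomputable def aA (n : ℕ) := fs n (sL n) fun i ξ => ∑ v ∈ Finset.Ico (sL n i) 1, (ξ v).2.2 n
noncomputable def bB (n : ℕ) := fs n (sR n) fun i ξ => ∑ v ∈ Finset.Ico 1 (sR n i), (ξ v).2.2 n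

lemma m_xA (n : ℕ) : Measurable (xA n) := m_fs _ _ (by fun_prop)
lemma m_yB (n : ℕ) : Measurable (yB n) := m_fs _ _ (by fun_prop)
lemma m_aA (n : ℕ) : Measurable (aA n) := m_fs _ _ (by fun_prop)
lemma m_bB (n : ℕ) : Measurable (bB n) := m_fs _ _ (by fun_prop)

def DD (n : ℕ) : Set (ℤ → St) := {ω | (∀ v ∈ Finset.Icc (-(2 * n : ℤ)) (2 * n), ¬ Mk n (ω v)) ∧
  (∃ i < KK n, Mk n (ω (sL n i))) ∧ ∃ i < KK n, Mk n (ω (sR n i))}

lemma first {P : ℕ → Prop} {K : ℕ} (h : ∃ i < K, P i) : ∃ i < K, P i ∧ ∀ j < i, ¬ P j := by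
  classical
  exact ⟨Nat.find h, (Nat.find_spec h).1, (Nat.find_spec h).2, fun j hj c =>
    Nat.find_min h hj ⟨hj.trans (Nat.find_spec h).1, c⟩⟩

lemma good {n : ℕ} {ω : ℤ → St} (h : ω ∈ DD n) :
    aA n (Φ ω) + bB n (Φ ω) = xA n (Φ ω) * yB n (Φ ω) := by
  obtain ⟨i, hi, a1, a2⟩ := first h.2.1
  obtain ⟨j, hj, b1, b2⟩ := first h.2.2
  rw [aA, bB, xA, yB, fs_eq (ξ := Φ ω) _ hi a1 a2, fs_eq (ξ := Φ ω) _ hi a1 a2,
    fs_eq (ξ := Φ ω) _ hj b1 b2, fs_eq (ξ := Φ ω) _ hj b1 b2, ← Finset.sum_union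
      (Finset.Ico_disjoint_Ico_consecutive _ _ _), Finset.Ico_union_Ico_eq_Ico
      (by unfold sL; omega) (by unfold sR; omega), ← Finset.insert_Ico_add_one_left_eq_Ico
      (by unfold sL sR; omega), Finset.sum_insert (by simp)]
  have e : sR n j - (4 * n + 1 + i + j : ℕ) = sL n i + 1 := by unfold sL sR; push_cast; ring
  have := rel n ω (ω (sL n i)).2.1 (sR n j) b1 (4 * n + 1 + i + j) (LL n) (by unfold LL; omega)
    fun w h1 h2 => by
      rw [e] at h1
      unfold sL sR at *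
      by_cases c : w < -(2 * n)
      · have := a2 (-(2 * n + 1 + w)).toNat (by omega)
        rwa [show -(2 * (n : ℤ) + 1 + (-(2 * n + 1 + w)).toNat) = w by omega] at this
      by_cases c' : 2 * n < w
      · have := b2 (w - (2 * n + 1)).toNat (by omega)
        rwa [show 2 * (n : ℤ) + 1 + (w - (2 * n + 1)).toNat = w by omega] at this
      exact h.1 w (Finset.mem_Icc.2 (by omega))
  rw [e] at this
  rw [show (Φ ω (sL n i)).2.2 n = _ from if_pos a1, this, add_assoc, CharTwo.add_self_eq_zero,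
    add_zero]
  rfl

lemma pp_pos (n : ℕ) : 0 < pp n := by unfold pp; positivity
lemma pp_le (n : ℕ) : pp n ≤ 1 := by
  unfold pp; rw [div_le_one (by positivity)]; linarith [n.cast_nonneg (α := ℝ)]

lemma ρ_Mk (n : ℕ) : ρ0.real {s | Mk n s} = pp n := by
  have : {s | Mk n s} = Set.Iic (⟨pp n, (pp_pos n).le, pp_le n⟩ : unitInterval) ×ˢ Set.univ := by
    ext s; simp [Mk, ← Subtype.coe_le_coe]
  rw [this, ρ0, measureReal_prod_prod]
  simp [Measure.real, (pp_pos n).le]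

lemma none_le (n : ℕ) {σ : ℕ → ℤ} (hσ : Function.Injective σ) :
    (ν ρ0).real {ω | ¬ ∃ i < KK n, Mk n (ω (σ i))} ≤ 1 / 600 := by
  have : {ω : ℤ → St | ¬ ∃ i < KK n, Mk n (ω (σ i))}
      = Set.pi ((Finset.range (KK n)).image σ) fun _ => {s | Mk n s}ᶜ := by ext; simp
  rw [this, Measure.real, Measure.infinitePi_pi _ fun _ _ => (m_Mk n).compl, Finset.prod_const,
    Finset.card_image_of_injective _ hσ, Finset.card_range, ENNReal.toReal_pow, ← Measure.real,
    probReal_compl_eq_one_sub (m_Mk n), ρ_Mk]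
  have h1 := one_add_mul_le_pow (a := pp n) (by linarith [pp_pos n]) (KK n)
  have h2 : (KK n : ℝ) * pp n = 600 := by rw [KK_eq]; unfold pp; push_cast; field_simp; norm_num
  have h3 : (1 - pp n) ^ KK n * (1 + pp n) ^ KK n ≤ 1 := by
    rw [← mul_pow]
    exact pow_le_one₀ (by nlinarith [pp_pos n, pp_le n]) (by nlinarith [sq_nonneg (pp n)])
  have h4 : 0 ≤ (1 - pp n) ^ KK n := pow_nonneg (by linarith [pp_le n]) _
  nlinarith

lemma m_DD (n : ℕ) : MeasurableSet (DD n) := by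
  have := fun v => measurableSet_setOfPred.1 (mk n v)
  exact measurableSet_setOfPred.2 ((Measurable.forall fun v => measurable_const.imp
    (this v).not).and ((Measurable.exists fun i => measurable_const.and (this _)).and
      (Measurable.exists fun i => measurable_const.and (this _))))

lemma DD_le (n : ℕ) : (ν ρ0).real (DD n)ᶜ ≤ 1 / 200 := by
  have s : (DD n)ᶜ ⊆ (⋃ v ∈ Finset.Icc (-(2 * n : ℤ)) (2 * n), {ω | Mk n (ω v)}) ∪
      ({ω | ¬ ∃ i < KK n, Mk n (ω (sL n i))} ∪ {ω | ¬ ∃ i < KK n, Mk n (ω (sR n i))}) := by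
    intro ω h
    by_contra c
    simp only [Set.mem_union, Set.mem_iUnion, Set.mem_ofPred_eq, not_or, not_not] at c
    exact h ⟨fun v hv e => c.1 ⟨v, hv, e⟩, c.2⟩
  have e : ∀ v, (ν ρ0).real {ω | Mk n (ω v)} = pp n := fun v => by
    rw [← ρ_Mk]
    exact (measurePreserving_eval_infinitePi (fun _ : ℤ => ρ0) v).measureReal_preimage
      (m_Mk n).nullMeasurableSet
  have h1 := measureReal_biUnion_finset_le (μ := ν ρ0) (Finset.Icc (-(2 * n : ℤ)) (2 * n))
    fun v => {ω | Mk n (ω v)}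
  have c : (Finset.Icc (-(2 * n : ℤ)) (2 * n)).card = 4 * n + 1 := by simp; omega
  simp only [e, Finset.sum_const, c, nsmul_eq_mul] at h1
  have h2 : ((4 * n + 1 : ℕ) : ℝ) * pp n ≤ 1 / 600 := by
    unfold pp; push_cast; rw [mul_one_div, div_le_div_iff₀ (by positivity) (by positivity)]; linarith
  have h3 := none_le n (σ := sL n) fun i j h => by unfold sL at h; omega
  have h4 := none_le n (σ := sR n) fun i j h => by unfold sR at h; omega
  refine (measureReal_mono s).trans ((measureReal_union_le _ _).trans ?_)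
  linarith [measureReal_union_le (μ := ν ρ0) {ω | ¬ ∃ i < KK n, Mk n (ω (sL n i))}
    {ω | ¬ ∃ i < KK n, Mk n (ω (sR n i))}]

lemma mE0 (n : ℕ) (i j : ZMod 2) : MeasurableSet {ξ | xA n ξ = i ∧ yB n ξ = j} :=
  (m_xA n (MeasurableSet.singleton i)).inter (m_yB n (MeasurableSet.singleton j))

lemma spread (n : ℕ) : ∃ j, 49 / 200 ≤ (ν ρ0).real {ω | xA n (Φ ω) = 0 ∧ yB n (Φ ω) = j} ∧
    49 / 200 ≤ (ν ρ0).real {ω | xA n (Φ ω) = 1 ∧ yB n (Φ ω) = j + 1} := by
  let E := fun i j => DD n ∩ {ω | xA n (Φ ω) = i ∧ yB n (Φ ω) = j}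
  have mE : ∀ i j, MeasurableSet (E i j) := fun i j => (m_DD n).inter (m_Φ (mE0 n i j))
  have mτ : Measurable (τ (1, 0)) := by unfold τ; fun_prop
  have F : MeasurePreserving (fun (ω : ℤ → St) v => τ (1, 0) (ω v)) (ν ρ0) (ν ρ0) :=
    ⟨by fun_prop, by
      rw [Measure.infinitePi_map_pi _ (f := fun _ => τ (1, 0)) fun _ => mτ]; simp only [τ_mp]⟩
  have e : ∀ j, (ν ρ0).real (E 0 j) = (ν ρ0).real (E 1 (j + 1)) := fun j => by
    rw [← F.measureReal_preimage (mE _ _).nullMeasurableSet]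
    congr 1
    ext ω
    refine and_congr_right fun h : ω ∈ DD n => ?_
    obtain ⟨i, hi, a1, a2⟩ := first h.2.1
    obtain ⟨l, hj, b1, b2⟩ := first h.2.2
    simp only [Set.mem_ofPred_eq, xA, yB]
    rw [fs_eq (ξ := Φ ω) _ hi a1 a2, fs_eq (ξ := Φ ω) _ hj b1 b2,
      fs_eq (ξ := Φ fun v => τ (1, 0) (ω v)) _ hi a1 a2,
      fs_eq (ξ := Φ fun v => τ (1, 0) (ω v)) _ hj b1 b2]
    simp only [Φ, τ, Prod.fst_add]
    generalize (ω (sL n i)).2.1 = a, (ω (sR n l)).2.1 = b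
    clear * -
    revert a b j
    decide
  have s : Set.univ ⊆ (DD n)ᶜ ∪ ((E 0 0 ∪ E 0 1) ∪ (E 1 (0 + 1) ∪ E 1 (1 + 1))) := fun ω _ => by
    by_cases h : ω ∈ DD n
    · simp only [E, Set.mem_union, Set.mem_inter_iff, h, true_and, Set.mem_ofPred_eq]
      right
      generalize xA n (Φ ω) = a, yB n (Φ ω) = b
      revert a b
      decide
    · exact .inl h
  have h := (measureReal_mono (μ := ν ρ0) s).trans ((measureReal_union_le _ _).trans
    (add_le_add (DD_le n) ((measureReal_union_le _ _).trans (add_le_add (measureReal_union_le _ _)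
      (measureReal_union_le _ _)))))
  rw [probReal_univ, ← e, ← e] at h
  have m : ∀ i j, (ν ρ0).real (E i j) ≤ (ν ρ0).real {ω | xA n (Φ ω) = i ∧ yB n (Φ ω) = j} :=
    fun i j => measureReal_mono Set.inter_subset_right
  by_cases c : 49 / 200 ≤ (ν ρ0).real (E 0 0)
  · exact ⟨0, c.trans (m _ _), (c.trans_eq (e 0)).trans (m _ _)⟩
  · have c' : 49 / 200 ≤ (ν ρ0).real (E 0 1) := by linarith
    exact ⟨1, c'.trans (m _ _), (c'.trans_eq (e 1)).trans (m _ _)⟩

lemma lower {T : Type} [MeasurableSpace T] (ρ : Measure T) [IsProbabilityMeasure ρ]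
    {φ : (ℤ → T) → ℤ → St} (hφ : Measurable φ)
    (he : ∀ k : ℤ, ∀ᵐ y ∂ν ρ, φ (fun i => y (i + k)) = fun i => φ y (i + k))
    (hm : (ν ρ).map φ = (ν ρ0).map Φ) (n : ℕ) {f : (ℤ → T) → St} (hf : Measurable f)
    (hd : ∀ y y', (∀ i, |i| ≤ (n : ℤ) → y i = y' i) → f y = f y') :
    1 / (10 ^ 9 * (n + 1)) ≤ (ν ρ).real {y | φ y 0 ≠ f y} := by
  have tr : ∀ s, MeasurableSet s → (ν ρ).real (φ ⁻¹' s) = (ν ρ0).real (Φ ⁻¹' s) := fun s hs => by
    rw [← map_measureReal_apply hφ hs, hm, map_measureReal_apply m_Φ hs]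
  let Z : (ℤ → T) → ℤ → St := fun y v => f fun i => y (i + v)
  have mZ : Measurable Z := by fun_prop
  have dZ : ∀ (v : ℤ) w w', (∀ i, v - n ≤ i → i ≤ v + n → w i = w' i) → Z w v = Z w' v :=
    fun v w w' h => hd _ _ fun i hi => h _ (by linarith [(abs_le.1 hi).1])
      (by linarith [(abs_le.1 hi).2])
  let W := Finset.Icc (-(2 * n + KK n : ℤ)) (2 * n + KK n)
  let Bad := ⋃ v ∈ W, {y | φ y v ≠ Z y v}
  have mB : MeasurableSet {y | φ y 0 ≠ f y} := (measurableSet_eq_fun (by fun_prop) hf).compl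
  have hB : (ν ρ).real Bad ≤ (10 ^ 9 * (n + 1)) / 200 * (ν ρ).real {y | φ y 0 ≠ f y} := by
    refine (measureReal_biUnion_finset_le _ _).trans ?_
    rw [Finset.sum_congr rfl (g := fun _ => (ν ρ).real {y | φ y 0 ≠ f y}) fun v _ => ?_,
      Finset.sum_const, nsmul_eq_mul]
    · refine mul_le_mul_of_nonneg_right ?_ measureReal_nonneg
      have : W.card = 4 * n + 1 + 2 * KK n := by simp [W]; omega
      rw [this, KK_eq]
      push_cast
      linarith [n.cast_nonneg (α := ℝ)]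
    · rw [← (shift ρ v).measureReal_preimage mB.nullMeasurableSet]
      refine measureReal_congr ?_
      filter_upwards [he v] with y h
      simp only [eq_iff_iff]
      change φ y v ≠ Z y v ↔ φ (fun i => y (i + v)) 0 ≠ Z y v
      rw [h]
      simp only [zero_add]
  have ag : ∀ y, y ∉ Bad → xA n (φ y) = xA n (Z y) ∧ yB n (φ y) = yB n (Z y) ∧
      aA n (φ y) = aA n (Z y) ∧ bB n (φ y) = bB n (Z y) := fun y h => by
    have h' : ∀ v, -(2 * n + KK n : ℤ) ≤ v → v ≤ 2 * n + KK n → φ y v = Z y v := fun v h1 h2 => by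
      by_contra c
      exact h (Set.mem_biUnion (Finset.mem_Icc.2 ⟨h1, h2⟩) c)
    have l : ∀ i < KK n, φ y (sL n i) = Z y (sL n i) := fun i hi => by
      unfold sL; exact h' _ (by omega) (by omega)
    have r : ∀ i < KK n, φ y (sR n i) = Z y (sR n i) := fun i hi => by
      unfold sR; exact h' _ (by omega) (by omega)
    refine ⟨fs_congr l fun i hi => by rw [l i hi], fs_congr r fun i hi => by rw [r i hi],
      fs_congr l fun i hi => Finset.sum_congr rfl fun v hv => ?_,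
      fs_congr r fun i hi => Finset.sum_congr rfl fun v hv => ?_⟩ <;>
    · have := Finset.mem_Ico.1 hv
      simp only [sL, sR] at this
      rw [h' v (by omega) (by omega)]
  obtain ⟨j, s1, s2⟩ := spread n
  have := chsh ρ n (by omega) ((m_xA n).comp mZ) ((m_yB n).comp mZ) ((m_aA n).comp mZ)
    ((m_bB n).comp mZ) (fun w w' h => by
      have l : ∀ i, Z w (sL n i) = Z w' (sL n i) := fun i =>
        dZ _ _ _ fun k _ _ => h k (by unfold sL at *; omega)
      exact fs_congr (fun i _ => l i) fun i _ => by rw [l i]) (fun w w' h => by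
      have l : ∀ i, Z w (sR n i) = Z w' (sR n i) := fun i =>
        dZ _ _ _ fun k _ _ => h k (by unfold sR at *; omega)
      exact fs_congr (fun i _ => l i) fun i _ => by rw [l i]) (fun w w' h => by
      have l : ∀ v ≤ 0, Z w v = Z w' v := fun v _ => dZ _ _ _ fun k _ _ => h k (by omega)
      exact fs_congr (fun i _ => l _ (by unfold sL; omega)) fun i _ => Finset.sum_congr rfl
        fun v hv => by rw [l v (by have := Finset.mem_Ico.1 hv; omega)]) (fun w w' h => by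
      have l : ∀ v, 0 ≤ v → Z w v = Z w' v := fun v _ => dZ _ _ _ fun k _ _ => h k (by omega)
      exact fs_congr (fun i _ => l _ (by unfold sR; omega)) fun i _ => Finset.sum_congr rfl
        fun v hv => by rw [l v (by have := Finset.mem_Ico.1 hv; omega)]) j
  simp only [Function.comp] at this
  have lo : ∀ i j, (ν ρ0).real {ω | xA n (Φ ω) = i ∧ yB n (Φ ω) = j} ≤
      (ν ρ).real {y | xA n (Z y) = i ∧ yB n (Z y) = j} + (ν ρ).real Bad := fun i j => by
    refine (tr _ (mE0 n i j)).symm.trans_le ((measureReal_mono fun y h => ?_).trans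
        (measureReal_union_le _ _))
    by_cases c : y ∈ Bad
    exacts [.inr c, .inl ⟨(ag y c).1 ▸ h.1, (ag y c).2.1 ▸ h.2⟩]
  have up : (ν ρ).real {y | aA n (Z y) + bB n (Z y) ≠ xA n (Z y) * yB n (Z y)}
      ≤ 1 / 200 + (ν ρ).real Bad := by
    have := m_xA n; have := m_yB n; have := m_aA n; have := m_bB n
    have e := tr {ξ | aA n ξ + bB n ξ ≠ xA n ξ * yB n ξ}
      (measurableSet_eq_fun (by fun_prop) (by fun_prop)).compl
    refine (measureReal_mono fun y h => ?_).trans ((measureReal_union_le _ _).trans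
      (add_le_add (e.trans_le ((measureReal_mono (s₂ := (DD n)ᶜ) fun ω h c => Set.mem_ofPred_eq ▸
        Set.mem_preimage.1 h <| good c).trans (DD_le n))) le_rfl))
    by_cases c : y ∈ Bad
    · exact .inr c
    · obtain ⟨h1, h2, h3, h4⟩ := ag y c
      refine .inl ?_
      simp only [Set.mem_preimage, Set.mem_ofPred_eq, h1, h2, h3, h4]
      exact h
  by_contra hc
  rw [not_le, lt_div_iff₀ (by positivity)] at hc
  have b : (ν ρ).real Bad ≤ 1 / 200 := by linarith
  have := mul_le_mul (show 6 / 25 ≤ (ν ρ).real {y | xA n (Z y) = 0 ∧ yB n (Z y) = j} by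
    linarith [lo 0 j]) (show 6 / 25 ≤ (ν ρ).real {y | xA n (Z y) = 1 ∧ yB n (Z y) = j + 1} by
    linarith [lo 1 (j + 1)]) (by norm_num) measureReal_nonneg |>.trans this
  linarith

end Pool.Agent.Lib.helper1.BK
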