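import Mathlib

set_option autoImplicit false

open MeasureTheory Set
open scoped ENNReal Pointwise

namespace Pool.Agent.Lib.helper1.BM

lemma bm_compact {K L C : Set ℝ} (hK : IsCompact K) (hL : IsCompact L) (nK : K.Nonempty)
    (nL : L.Nonempty) (h : ∀ x ∈ K, ∀ y ∈ L, x + y ∈ C) : volume K + volume L ≤ volume C := by
  obtain ⟨M, hM⟩ := hK.exists_isGreatest nK
  obtain ⟨m, hm⟩ := hL.exists_isLeast nL
  have e1 : volume K = volume ((fun z => z + (-m)) ⁻¹' K) := (measure_preimage_add_right _ _ _).symm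
  have e2 : volume L = volume ((fun z => z + (-M)) ⁻¹' L) := (measure_preimage_add_right _ _ _).symm
  have hT : MeasurableSet ((fun z => z + (-M)) ⁻¹' L) := hL.measurableSet.preimage (by fun_prop)
  rw [e1, e2, ← measure_union_add_inter _ hT]
  have h0 : volume ((fun z => z + (-m)) ⁻¹' K ∩ (fun z => z + (-M)) ⁻¹' L) = 0 := by
    refine measure_mono_null (t := {M + m}) ?_ (measure_singleton _)
    rintro z ⟨h1, h2⟩
    have a1 := hM.2 h1
    have a2 := hm.2 h2
    simp only [mem_singleton_iff]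
    linarith
  rw [h0, add_zero]
  refine measure_mono ?_
  rintro z (h1 | h1)
  · have := h _ h1 m hm.1
    simpa using this
  · have := h M hM.1 _ h1
    simpa using this

lemma sup_step {A : Set ℝ} (hA : MeasurableSet A) {x y : ℝ≥0∞}
    (h : ∀ K ⊆ A, IsCompact K → volume K + x ≤ y) : volume A + x ≤ y := by
  have h0 : x ≤ y := by simpa using h ∅ (empty_subset _) isCompact_empty
  by_cases hx : x = ⊤
  · subst hx; exact le_top.trans h0
  refine add_le_of_le_tsub_right_of_le h0 ?_
  rw [hA.measure_eq_iSup_isCompact volume]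
  exact iSup_le fun K => iSup_le fun h1 => iSup_le fun h2 =>
    ENNReal.le_sub_of_add_le_right hx (h K h1 h2)

lemma bm_meas {A B C : Set ℝ} (hA : MeasurableSet A) (hB : MeasurableSet B) (nA : A.Nonempty)
    (nB : B.Nonempty) (h : ∀ x ∈ A, ∀ y ∈ B, x + y ∈ C) : volume A + volume B ≤ volume C := by
  obtain ⟨a, ha⟩ := nA
  obtain ⟨b, hb⟩ := nB
  refine sup_step hA fun K hKA hK => ?_
  rw [add_comm]
  refine sup_step hB fun L hLB hL => ?_
  rw [add_comm]
  refine le_trans (add_le_add (measure_mono (subset_insert a K)) (measure_mono (subset_insert b L)))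
    (bm_compact (hK.insert a) (hL.insert b) (insert_nonempty _ _) (insert_nonempty _ _) ?_)
  intro x hx y hy
  exact h x (insert_subset ha hKA hx) y (insert_subset hb hLB hy)

/-- one-dimensional Brunn-Minkowski inequality -/
lemma bm1 {A B C : Set ℝ} (hA : MeasurableSet A) (hB : MeasurableSet B) (nA : A.Nonempty)
    (nB : B.Nonempty) {t : ℝ} (h0 : 0 ≤ t) (h1 : t ≤ 1)
    (h : ∀ x ∈ A, ∀ y ∈ B, t * x + (1 - t) * y ∈ C) :
    ENNReal.ofReal t * volume A + ENNReal.ofReal (1 - t) * volume B ≤ volume C := by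
  have e1 := Measure.addHaar_smul_of_nonneg (volume : Measure ℝ) h0 A
  have e2 := Measure.addHaar_smul_of_nonneg (volume : Measure ℝ) (sub_nonneg.2 h1) B
  rw [Module.finrank_self, pow_one] at e1 e2
  rw [← e1, ← e2]
  refine bm_meas (hA.const_smul₀ t) (hB.const_smul₀ _) nA.smul_set nB.smul_set ?_
  rintro _ ⟨x, hx, rfl⟩ _ ⟨y, hy, rfl⟩
  exact h x hx y hy

lemma layer {F : ℝ → ℝ} (hF : Measurable F) (h0 : ∀ y, 0 ≤ F y) {a : ℝ} (ha : 0 < a) :
    ∫⁻ s in Ioi (0:ℝ), volume {y | s * a < F y}
      = ENNReal.ofReal (1 / a) * ∫⁻ y, ENNReal.ofReal (F y) := by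
  have h := lintegral_eq_lintegral_meas_lt (volume : Measure ℝ) (f := fun y => F y / a)
    (Filter.Eventually.of_forall fun y => div_nonneg (h0 y) ha.le)
    (hF.div_const a).aemeasurable
  simp_rw [lt_div_iff₀ ha] at h
  rw [← h, ← lintegral_const_mul _ hF.ennreal_ofReal]
  refine lintegral_congr fun y => ?_
  rw [← ENNReal.ofReal_mul (by positivity)]
  congr 1; ring

lemma meas_level {F : ℝ → ℝ} (hF : Measurable F) (a : ℝ) :
    Measurable fun s : ℝ => volume {y | s * a < F y} := by
  have : MeasurableSet {p : ℝ × ℝ | p.1 * a < F p.2} :=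
    measurableSet_lt (by fun_prop) (by fun_prop)
  exact measurable_measure_prodMk_left this

/-- one-dimensional Borell-Brascamp-Lieb inequality for the harmonic mean -/
lemma bbl1 {F G H : ℝ → ℝ} (hF : Measurable F) (hG : Measurable G) (hH : Measurable H)
    (F0 : ∀ y, 0 ≤ F y) (G0 : ∀ y, 0 ≤ G y) (H0 : ∀ y, 0 ≤ H y)
    (F1 : ∀ y, F y ≤ 1) (G1 : ∀ y, G y ≤ 1) {t : ℝ} (h0 : 0 < t) (h1 : t < 1)
    (h : ∀ y y' p r : ℝ, 0 < p → 0 < r → p < F y → r < G y' →
      1 / (t / p + (1 - t) / r) < H (t * y + (1 - t) * y')) :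
    min (∫⁻ y, ENNReal.ofReal (F y)) (∫⁻ y, ENNReal.ofReal (G y))
      ≤ ∫⁻ y, ENNReal.ofReal (H y) := by
  by_cases hz : (∀ y, F y ≤ 0) ∨ (∀ y, G y ≤ 0)
  · rcases hz with hz | hz
    · refine (min_le_left _ _).trans ?_
      simp [ENNReal.ofReal_of_nonpos (hz _)]
    · refine (min_le_right _ _).trans ?_
      simp [ENNReal.ofReal_of_nonpos (hz _)]
  push Not at hz
  obtain ⟨⟨y0, hy0⟩, ⟨y1, hy1⟩⟩ := hz
  have bF : BddAbove (range F) := ⟨1, by rintro _ ⟨y, rfl⟩; exact F1 y⟩
  have bG : BddAbove (range G) := ⟨1, by rintro _ ⟨y, rfl⟩; exact G1 y⟩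
  set a := sSup (range F) with hadef
  set b := sSup (range G) with hbdef
  have Fa : ∀ y, F y ≤ a := fun y => le_csSup bF ⟨y, rfl⟩
  have Gb : ∀ y, G y ≤ b := fun y => le_csSup bG ⟨y, rfl⟩
  have ha : 0 < a := hy0.trans_le (Fa _)
  have hb : 0 < b := hy1.trans_le (Gb _)
  have h2 : 0 < 1 - t := sub_pos.2 h1
  set d := t / a + (1 - t) / b with hd
  have hd0 : 0 < d := by positivity
  have key : ∀ s ∈ Ioi (0:ℝ), ENNReal.ofReal t * volume {y | s * a < F y}
      + ENNReal.ofReal (1 - t) * volume {y | s * b < G y} ≤ volume {y | s * (1 / d) < H y} := by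
    intro s hs
    have hs0 : 0 < s := hs
    by_cases hs1 : s < 1
    · refine bm1 (measurableSet_lt measurable_const hF) (measurableSet_lt measurable_const hG)
        ?_ ?_ h0.le h1.le ?_
      · obtain ⟨_, ⟨y, rfl⟩, hy⟩ := exists_lt_of_lt_csSup (range_nonempty F)
          (show s * a < a by nlinarith)
        exact ⟨y, hy⟩
      · obtain ⟨_, ⟨y, rfl⟩, hy⟩ := exists_lt_of_lt_csSup (range_nonempty G)
          (show s * b < b by nlinarith)
        exact ⟨y, hy⟩
      · intro x hx y hy
        have := h x y (s * a) (s * b) (by positivity) (by positivity) hx hy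
        have e : 1 / (t / (s * a) + (1 - t) / (s * b)) = s * (1 / d) := by
          rw [hd]; field_simp
        rw [e] at this
        exact this
    · have e1 : {y | s * a < F y} = ∅ := by
        ext y; simp only [mem_ofPred_eq, mem_empty_iff_false, iff_false, not_lt]
        nlinarith [Fa y]
      have e2 : {y | s * b < G y} = ∅ := by
        ext y; simp only [mem_ofPred_eq, mem_empty_iff_false, iff_false, not_lt]
        nlinarith [Gb y]
      simp [e1, e2]
  have hI := setLIntegral_mono' (μ := volume) measurableSet_Ioi key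
  rw [lintegral_add_left ((meas_level hF a).const_mul _), lintegral_const_mul _ (meas_level hF a),
    lintegral_const_mul _ (meas_level hG b), layer hF F0 ha, layer hG G0 hb,
    layer hH H0 (by positivity), one_div_one_div] at hI
  refine (ENNReal.mul_le_mul_iff_right (a := ENNReal.ofReal d) (by simpa using hd0)
    ENNReal.ofReal_ne_top).1 (le_trans ?_ hI)
  rw [hd, ENNReal.ofReal_add (by positivity) (by positivity), add_mul, ← mul_assoc, ← mul_assoc,
    ← ENNReal.ofReal_mul h0.le, ← ENNReal.ofReal_mul h2.le, mul_one_div, mul_one_div]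
  exact add_le_add (mul_le_mul_right (min_le_left _ _) _) (mul_le_mul_right (min_le_right _ _) _)

end Pool.Agent.Lib.helper1.BM
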