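import Mathlib

namespace Pool.Agent.Lib.helper1.Blaschke

open Set MeasureTheory Filter Topology Pointwise

abbrev E := EuclideanSpace ℝ (Fin 4)

def p1 (x : E) : ℝ × ℝ := (x 0, x 1)
def p2 (x : E) : ℝ × ℝ := (x 2, x 3)

lemma mp : MeasurePreserving fun x : E => (p1 x, p2 x) := by
  have a := (volume_measurePreserving_piCongrLeft (fun _ : Fin 4 => ℝ)
    (finSumFinEquiv (m := 2) (n := 2))).symm
  have b := volume_measurePreserving_sumPiEquivProdPi (fun _ : Fin 2 ⊕ Fin 2 => ℝ)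
  have c := (volume_preserving_finTwoArrow ℝ).prod (volume_preserving_finTwoArrow ℝ)
  exact c.comp (b.comp (a.comp (PiLp.volume_preserving_ofLp (Fin 4))))

def c : Fin 6 → ℝ × ℝ := ![(-1, 0), (1, 0), (0, -1), (0, 1), (-1, -1), (1, 1)]

def l (i : Fin 6) (z : ℝ × ℝ) : ℝ := (c i).1 * z.1 + (c i).2 * z.2

def P (s : Finset (Fin 6)) (b : Fin 6 → ℝ) : Set (ℝ × ℝ) := {z | ∀ i ∈ s, l i z ≤ b i}

def Pr (U V : Set (ℝ × ℝ)) : Set E := {x | p1 x ∈ U ∧ p2 x ∈ V}

lemma vol_Pr {U V : Set (ℝ × ℝ)} (hU : MeasurableSet U) (hV : MeasurableSet V) :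
    volume (Pr U V) = volume U * volume V := by
  rw [← Measure.prod_prod]
  exact mp.measure_preimage (hU.prod hV).nullMeasurableSet

lemma l_cont (i : Fin 6) : Continuous (l i) := by unfold l; fun_prop

lemma P_closed (s : Finset (Fin 6)) (b : Fin 6 → ℝ) : IsClosed (P s b) := by
  have : P s b = ⋂ i ∈ s, {z | l i z ≤ b i} := by ext; simp [P]
  rw [this]
  exact isClosed_biInter fun i _ => isClosed_le (l_cont i) continuous_const

lemma pair (i j : Fin 6) (h : i ≠ j) :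
    (∀ w δ, |l i w| ≤ δ → |l j w| ≤ δ → |w.1| ≤ 2 * δ ∧ |w.2| ≤ 2 * δ) ∨
      ∀ w, l j w = -l i w := by
  fin_cases i <;> fin_cases j <;> simp at h <;>
  first
  | (right; intro w; simp [l, c]; done)
  | (right; intro w; simp [l, c]; ring1)
  | (left; intro w δ; simp only [l, c, abs_le]; simp; intro h1 h2 h3 h4
     refine ⟨⟨?_, ?_⟩, ?_, ?_⟩ <;> linarith)

lemma l_sub (i : Fin 6) (z w : ℝ × ℝ) : l i (z - w) = l i z - l i w := by
  simp [l]; ring

lemma l_smul (i : Fin 6) (t : ℝ) (w : ℝ × ℝ) : l i (t • w) = t * l i w := by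
  simp [l]; ring

def Bad (s : Finset (Fin 6)) (b : Fin 6 → ℝ) (δ : ℝ) : Set (ℝ × ℝ) :=
  ⋃ p ∈ s.offDiag, {z | |l p.1 z - b p.1| ≤ δ ∧ |l p.2 z - b p.2| ≤ δ}

lemma Bad_meas (s : Finset (Fin 6)) (b : Fin 6 → ℝ) (δ : ℝ) : MeasurableSet (Bad s b δ) := by
  refine Finset.measurableSet_biUnion _ fun p _ => IsClosed.measurableSet ?_
  exact (isClosed_le ((l_cont p.1).sub continuous_const).abs continuous_const).inter
    (isClosed_le ((l_cont p.2).sub continuous_const).abs continuous_const)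

lemma vol_Bad (s : Finset (Fin 6)) (b : Fin 6 → ℝ) {δ : ℝ} (h0 : 0 ≤ δ)
    (hb : ∀ i ∈ s, ∀ j ∈ s, 2 * δ < b i + b j ∨ ¬ ∀ w, l j w = -l i w) :
    volume (Bad s b δ) ≤ ENNReal.ofReal (36 * (8 * δ * (8 * δ))) := by
  refine (measure_biUnion_finset_le _ _).trans ?_
  refine (Finset.sum_le_card_nsmul _ _ (ENNReal.ofReal (8 * δ * (8 * δ))) ?_).trans ?_
  · intro p hp
    rw [Finset.mem_offDiag] at hp
    rcases eq_empty_or_nonempty {z | |l p.1 z - b p.1| ≤ δ ∧ |l p.2 z - b p.2| ≤ δ} with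
      e | ⟨z, hz⟩
    · rw [e]; simp
    · rcases pair p.1 p.2 hp.2.2 with h | h
      · refine (measure_mono (t := Icc (z.1 - 4 * δ) (z.1 + 4 * δ) ×ˢ
          Icc (z.2 - 4 * δ) (z.2 + 4 * δ)) fun w hw => ?_).trans ?_
        · have := h (w - z) (2 * δ) (by
            rw [l_sub, abs_le]; constructor <;> linarith [abs_le.mp hz.1, abs_le.mp hw.1]) (by
            rw [l_sub, abs_le]; constructor <;> linarith [abs_le.mp hz.2, abs_le.mp hw.2])
          simp only [Prod.fst_sub, Prod.snd_sub, abs_le] at this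
          exact ⟨⟨by linarith, by linarith⟩, by linarith, by linarith⟩
        · rw [Measure.volume_eq_prod, Measure.prod_prod, Real.volume_Icc, Real.volume_Icc,
            ← ENNReal.ofReal_mul (by linarith)]
          apply le_of_eq; congr 1; ring
      · rcases hb _ hp.1 _ hp.2.1 with h' | h'
        · have := h z
          linarith [abs_le.mp hz.1, abs_le.mp hz.2]
        · exact absurd h h'
  · rw [nsmul_eq_mul, ENNReal.ofReal_mul (p := 36) (by norm_num)]
    gcongr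
    have : s.offDiag.card ≤ 36 := (Finset.card_le_univ _).trans (by simp)
    rw [show ENNReal.ofReal 36 = ((36 : ℕ) : ENNReal) by simp]
    exact_mod_cast this

lemma good {s : Finset (Fin 6)} {b h : Fin 6 → ℝ} {M : Set (ℝ × ℝ)} (hne : M.Nonempty) {R ε : ℝ}
    (hε : 0 ≤ ε) (hh : ∀ i, ∃ m ∈ M, l i m = h i) (hR : ∀ i, ∀ m ∈ M, |l i m| ≤ R) {z : ℝ × ℝ}
    (hz : z ∈ P s (b + ε • h)) (hb : z ∉ Bad s b (ε * R)) : ∃ m ∈ M, z - ε • m ∈ P s b := by
  have far : ∀ j, l j z ≤ b j - ε * R → ∀ m ∈ M, l j (z - ε • m) ≤ b j := by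
    intro j hj m hm
    rw [l_sub, l_smul]
    nlinarith [abs_le.mp (hR j m hm)]
  have near : ∀ j ∈ s, ¬ l j z ≤ b j - ε * R → |l j z - b j| ≤ ε * R := by
    intro j hj h1
    have := hz j hj
    obtain ⟨m, hm, e⟩ := hh j
    have := (abs_le.mp (hR j m hm)).2
    simp only [Pi.add_apply, Pi.smul_apply, smul_eq_mul] at *
    rw [abs_le]; constructor <;> nlinarith
  by_cases h1 : ∃ i ∈ s, ¬ l i z ≤ b i - ε * R
  · obtain ⟨i, hi, h1⟩ := h1
    obtain ⟨m, hm, e⟩ := hh i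
    refine ⟨m, hm, fun j hj => ?_⟩
    rcases eq_or_ne i j with rfl | hij
    · have := hz i hi
      rw [l_sub, l_smul, e]
      simp only [Pi.add_apply, Pi.smul_apply, smul_eq_mul] at this
      linarith
    · refine far j ?_ m hm
      by_contra h2
      exact hb (mem_biUnion (x := (i, j)) (Finset.mem_offDiag.mpr ⟨hi, hj, hij⟩)
        ⟨near i hi h1, near j hj h2⟩)
  · push Not at h1
    exact ⟨_, hne.some_mem, fun j hj => far j (h1 j hj) _ hne.some_mem⟩

lemma p1_sub (x y : E) (t : ℝ) : p1 (x - t • y) = p1 x - t • p1 y := by simp [p1]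
lemma p2_sub (x y : E) (t : ℝ) : p2 (x - t • y) = p2 x - t • p2 y := by simp [p2]

lemma est {s : Finset (Fin 6)} {b h k : Fin 6 → ℝ} {L : Set E} (hne : L.Nonempty) {R ε : ℝ}
    (hε : 0 ≤ ε) (hh : ∀ i, IsGreatest (l i '' (p1 '' L)) (h i))
    (hk : ∀ i, IsGreatest (l i '' (p2 '' L)) (k i))
    (hR : ∀ i, ∀ m ∈ L, |l i (p1 m)| ≤ R ∧ |l i (p2 m)| ≤ R) :
    volume (Pr (P s b) (P s b) + ε • L) ≤ volume (P s (b + ε • h)) * volume (P s (b + ε • k)) ∧
    volume (P s (b + ε • h)) * volume (P s (b + ε • k)) ≤ volume (Pr (P s b) (P s b) + ε • L) +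
      (2 * volume (Bad s b (ε * R)) * volume (P s (b + ε • fun _ => R)) +
        volume (P s (b + ε • fun _ => R) \ P s (b - ε • fun _ => R)) ^ 2) := by
  have m := fun b => (P_closed s b).measurableSet
  have mB := Bad_meas s b (ε * R)
  have key : ∀ x : E, ∀ y ∈ L, p1 x - ε • p1 y ∈ P s b → p2 x - ε • p2 y ∈ P s b →
      x ∈ Pr (P s b) (P s b) + ε • L := fun x y hy h1 h2 =>
    ⟨x - ε • y, ⟨by rwa [p1_sub], by rwa [p2_sub]⟩, ε • y, smul_mem_smul_set hy, by simp⟩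
  have up : ∀ {g : Fin 6 → ℝ}, (∀ i, g i ≤ R) → P s (b + ε • g) ⊆ P s (b + ε • fun _ => R) := by
    intro g hg z hz i hi
    have := hz i hi
    simp only [Pi.add_apply, Pi.smul_apply, smul_eq_mul] at *
    nlinarith [hg i]
  have u1 := up (g := h) fun i => by
    obtain ⟨_, ⟨y, hy, rfl⟩, e⟩ := (hh i).1
    exact e ▸ (abs_le.mp (hR i y hy).1).2
  have u2 := up (g := k) fun i => by
    obtain ⟨_, ⟨y, hy, rfl⟩, e⟩ := (hk i).1
    exact e ▸ (abs_le.mp (hR i y hy).2).2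
  have low : ∀ z w, z ∈ P s (b - ε • fun _ => R) → (∀ i, |l i w| ≤ R) → z - ε • w ∈ P s b := by
    intro z w hz hw i hi
    have := hz i hi
    simp only [Pi.sub_apply, Pi.smul_apply, smul_eq_mul] at this
    rw [l_sub, l_smul]
    nlinarith [abs_le.mp (hw i)]
  rw [← vol_Pr (m _) (m _)]
  constructor
  · apply measure_mono
    rintro _ ⟨x, hx, _, ⟨y, hy, rfl⟩, rfl⟩
    have e : x = x + ε • y - ε • y := by simp
    constructor
    · intro i hi
      have h1 := hx.1 i hi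
      have h2 := (hh i).2 ⟨_, ⟨y, hy, rfl⟩, rfl⟩
      rw [e, p1_sub, l_sub, l_smul] at h1
      simp only [Pi.add_apply, Pi.smul_apply, smul_eq_mul]
      nlinarith
    · intro i hi
      have h1 := hx.2 i hi
      have h2 := (hk i).2 ⟨_, ⟨y, hy, rfl⟩, rfl⟩
      rw [e, p2_sub, l_sub, l_smul] at h1
      simp only [Pi.add_apply, Pi.smul_apply, smul_eq_mul]
      nlinarith
  · have e : 2 * volume (Bad s b (ε * R)) * volume (P s (b + ε • fun _ => R)) =
        volume (Pr (Bad s b (ε * R)) (P s (b + ε • fun _ => R))) +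
          volume (Pr (P s (b + ε • fun _ => R)) (Bad s b (ε * R))) := by
      rw [vol_Pr mB (m _), vol_Pr (m _) mB]; ring
    rw [sq, ← vol_Pr ((m _).diff (m _)) ((m _).diff (m _)), e]
    refine le_trans (measure_mono fun x hx => ?_) ((measure_union_le _ _).trans (add_le_add_right
      ((measure_union_le _ _).trans (add_le_add_left (measure_union_le _ _) _)) _))
    by_cases b1 : p1 x ∈ Bad s b (ε * R)
    · exact Or.inr (Or.inl (Or.inl ⟨b1, u2 hx.2⟩))
    by_cases b2 : p2 x ∈ Bad s b (ε * R)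
    · exact Or.inr (Or.inl (Or.inr ⟨u1 hx.1, b2⟩))
    by_cases c2 : p2 x ∈ P s (b - ε • fun _ => R)
    · obtain ⟨_, ⟨y, hy, rfl⟩, h1⟩ := good (hne.image p1) hε (fun i => (hh i).1)
        (by rintro i _ ⟨y, hy, rfl⟩; exact (hR i y hy).1) hx.1 b1
      exact Or.inl (key x y hy h1 (low _ _ c2 fun i => (hR i y hy).2))
    by_cases c1 : p1 x ∈ P s (b - ε • fun _ => R)
    · obtain ⟨_, ⟨y, hy, rfl⟩, h1⟩ := good (hne.image p2) hε (fun i => (hk i).1)
        (by rintro i _ ⟨y, hy, rfl⟩; exact (hR i y hy).2) hx.2 b2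
      exact Or.inl (key x y hy (low _ _ c1 fun i => (hR i y hy).1) h1)
    exact Or.inr (Or.inr ⟨⟨u1 hx.1, c1⟩, u2 hx.2, c2⟩)

lemma int1 {A B d f : ℝ} (h1 : A ≤ f - d) (h2 : f - d ≤ B) :
    ∫ x in A..B, min d (f - x) = d * (B - A) - (B - f + d) ^ 2 / 2 := by
  have hc : Continuous fun x : ℝ => min d (f - x) := by fun_prop
  rw [← intervalIntegral.integral_add_adjacent_intervals (hc.intervalIntegrable A (f - d))
    (hc.intervalIntegrable _ B), intervalIntegral.integral_congr (g := fun _ => d),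
    intervalIntegral.integral_congr (a := f - d) (g := fun x => f - x),
    intervalIntegral.integral_sub (by simp) (continuous_id'.intervalIntegrable _ _)]
  · simp; ring
  · intro x hx; rw [uIcc_of_le h2] at hx; exact min_eq_right (by linarith [hx.1])
  · intro x hx; rw [uIcc_of_le h1] at hx; exact min_eq_left (by linarith [hx.2])

lemma int2 {A B d f : ℝ} (h1 : A ≤ d - f) (h2 : d - f ≤ B) :
    ∫ x in A..B, min d (f + x) = d * (B - A) - (d - f - A) ^ 2 / 2 := by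
  have := intervalIntegral.integral_comp_neg (a := A) (b := B) fun x => min d (f - x)
  simp only [sub_neg_eq_add] at this
  rw [this, int1 (by linarith) (by linarith)]; ring

noncomputable def area (b : Fin 6 → ℝ) : ℝ :=
  (b 3 + b 2) * (b 1 + b 0) - (b 1 - b 5 + b 3) ^ 2 / 2 - (b 2 - b 4 + b 0) ^ 2 / 2

lemma mem_univ' (b : Fin 6 → ℝ) (z : ℝ × ℝ) : z ∈ P Finset.univ b ↔ -z.1 ≤ b 0 ∧ z.1 ≤ b 1 ∧
    -z.2 ≤ b 2 ∧ z.2 ≤ b 3 ∧ -z.1 - z.2 ≤ b 4 ∧ z.1 + z.2 ≤ b 5 := by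
  simp [P, Fin.forall_fin_succ, l, c, sub_eq_add_neg]

lemma vol_hex (b : Fin 6 → ℝ) (h1 : -b 0 ≤ b 5 - b 3) (h2 : b 5 - b 3 ≤ b 1)
    (h3 : -b 0 ≤ b 2 - b 4) (h4 : b 2 - b 4 ≤ b 1) (h5 : 0 ≤ b 3 + b 2) (h6 : 0 ≤ b 3 + b 4 - b 0)
    (h7 : 0 ≤ b 5 - b 1 + b 2) (_h8 : 0 ≤ b 5 + b 4) :
    volume (P Finset.univ b) = ENNReal.ofReal (area b) := by
  rw [Measure.volume_eq_prod, Measure.prod_apply (P_closed _ _).measurableSet]
  have : ∀ x : ℝ, volume (Prod.mk x ⁻¹' P Finset.univ b) = (Icc (-b 0) (b 1)).indicator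
      (fun x => ENNReal.ofReal (min (b 3) (b 5 - x) + min (b 2) (b 4 + x))) x := by
    intro x
    by_cases hx : x ∈ Icc (-b 0) (b 1)
    · rw [indicator_of_mem hx, ← sub_neg_eq_add, ← Real.volume_Icc]
      congr 1
      ext y
      simp only [mem_preimage, mem_univ', mem_Icc, le_min_iff, neg_le (a := min _ _)]
      constructor
      · rintro ⟨_, _, _, _, _, _⟩; refine ⟨⟨?_, ?_⟩, ?_, ?_⟩ <;> linarith
      · rintro ⟨⟨_, _⟩, _, _⟩; refine ⟨?_, ?_, ?_, ?_, ?_, ?_⟩ <;> linarith [hx.1, hx.2]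
    · rw [indicator_of_notMem hx]
      have : Prod.mk x ⁻¹' P Finset.univ b = ∅ := by
        ext y
        simp only [mem_preimage, mem_univ', mem_empty_iff_false, iff_false]
        exact fun h => hx ⟨by linarith [h.1], h.2.1⟩
      rw [this, measure_empty]
  have c1 : Continuous fun x : ℝ => min (b 3) (b 5 - x) := by fun_prop
  have c2 : Continuous fun x : ℝ => min (b 2) (b 4 + x) := by fun_prop
  rw [lintegral_congr this, lintegral_indicator measurableSet_Icc,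
    ← ofReal_integral_eq_lintegral_ofReal (c1.fun_add c2).integrableOn_Icc,
    integral_Icc_eq_integral_Ioc, ← intervalIntegral.integral_of_le (by linarith),
    intervalIntegral.integral_add (c1.intervalIntegrable _ _) (c2.intervalIntegrable _ _),
    int1 h1 h2, int2 h3 h4]
  · congr 1; unfold area; ring
  · refine (ae_restrict_mem measurableSet_Icc).mono fun x hx => ?_
    simp only [Pi.zero_apply]
    rcases min_choice (b 3) (b 5 - x) with e | e <;> rcases min_choice (b 2) (b 4 + x) with f | f <;>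
      rw [e, f] <;> linarith [hx.1, hx.2]

lemma quad {r g : ℝ → ℝ} (h0 : r 0 = 0) (hg : Tendsto g (𝓝[≥] 0) (𝓝 0))
    (h : ∀ᶠ ε in 𝓝[≥] (0 : ℝ), |r ε| ≤ ε * g ε) : HasDerivWithinAt r 0 (Ici 0) 0 := by
  rw [hasDerivWithinAt_iff_isLittleO, Asymptotics.isLittleO_iff]
  intro c hc
  filter_upwards [h, hg.eventually (gt_mem_nhds hc), self_mem_nhdsWithin] with ε h1 h2 h3
  simp only [h0, sub_zero, smul_zero, Real.norm_eq_abs, abs_of_nonneg (show 0 ≤ ε from h3)]
  nlinarith [show 0 ≤ ε from h3]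

lemma key (s : Finset (Fin 6)) (b : Fin 6 → ℝ) (a : (Fin 6 → ℝ) → ℝ)
    (ha : ∀ᶠ b' in 𝓝 b, volume (P s b') = ENNReal.ofReal (a b') ∧ 0 ≤ a b')
    (hd : DifferentiableAt ℝ a b)
    (hb : ∀ i ∈ s, ∀ j ∈ s, 0 < b i + b j ∨ ¬ ∀ w, l j w = -l i w)
    {h k : Fin 6 → ℝ} {L : Set E} (hL : IsCompact L) (hne : L.Nonempty)
    (hh : ∀ i, IsGreatest (l i '' (p1 '' L)) (h i))
    (hk : ∀ i, IsGreatest (l i '' (p2 '' L)) (k i)) :
    HasDerivWithinAt (fun ε : ℝ => (volume (Pr (P s b) (P s b) + ε • L)).toReal -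
      a (b + ε • h) * a (b + ε • k)) 0 (Ici 0) 0 := by
  obtain ⟨R, hR0, hR⟩ : ∃ R, 0 ≤ R ∧ ∀ i, ∀ m ∈ L, |l i (p1 m)| ≤ R ∧ |l i (p2 m)| ≤ R := by
    obtain ⟨R, hR⟩ := hL.exists_bound_of_continuousOn (f := fun m => (fun i => l i (p1 m),
      fun i => l i (p2 m))) (by unfold l p1 p2; fun_prop)
    exact ⟨R, (norm_nonneg _).trans (hR _ hne.some_mem), fun i m hm =>
      ⟨(norm_le_pi_norm (fun i => l i (p1 m)) i).trans ((norm_fst_le _).trans (hR m hm)),
        (norm_le_pi_norm (fun i => l i (p2 m)) i).trans ((norm_snd_le _).trans (hR m hm))⟩⟩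
  have T : ∀ g : Fin 6 → ℝ, Tendsto (fun ε : ℝ => b + ε • g) (𝓝[≥] 0) (𝓝 b) := fun g =>
    Tendsto.mono_left (Continuous.tendsto' (by fun_prop) _ _ (by simp)) nhdsWithin_le_nhds
  have D : ∀ g : Fin 6 → ℝ, DifferentiableAt ℝ (fun ε : ℝ => a (b + ε • g)) 0 := fun g =>
    DifferentiableAt.comp (g := a) 0 (by simpa using hd) (by fun_prop)
  obtain ⟨C, hC⟩ := ((D fun _ => R).sub (D (-fun _ => R))).isBigO_sub.bound
  have a0 := ha.self_of_nhds
  have e0 : ∀ ε : ℝ, (b - ε • fun _ => R) = b + ε • (-fun _ => R) := fun ε => by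
    rw [smul_neg, sub_eq_add_neg]
  apply quad (g := fun ε => ε * (2 * (36 * (8 * R * (8 * R))) * a (b + ε • fun _ => R) + C ^ 2))
  · rw [zero_smul_set hne, add_zero, vol_Pr (P_closed s b).measurableSet
      (P_closed s b).measurableSet, a0.1, ENNReal.toReal_mul, ENNReal.toReal_ofReal a0.2]
    simp
  · have := (tendsto_id.mono_left (nhdsWithin_le_nhds (a := (0 : ℝ)) (s := Ici 0))).mul
      ((((hd.continuousAt.tendsto.comp (T fun _ => R)).const_mul
        (2 * (36 * (8 * R * (8 * R))))).add_const (C ^ 2)))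
    simpa using this
  · have hs : ∀ᶠ ε : ℝ in 𝓝[≥] 0, ∀ i ∈ s, ∀ j ∈ s,
        2 * (ε * R) < b i + b j ∨ ¬ ∀ w, l j w = -l i w := by
      simp only [Filter.eventually_all_finset]
      intro i hi j hj
      rcases hb i hi j hj with h' | h'
      · have : Tendsto (fun ε : ℝ => 2 * (ε * R)) (𝓝[≥] 0) (𝓝 0) :=
          Tendsto.mono_left (Continuous.tendsto' (by fun_prop) _ _ (by simp)) nhdsWithin_le_nhds
        exact (this.eventually (gt_mem_nhds h')).mono fun _ => Or.inl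
      · exact Eventually.of_forall fun _ => Or.inr h'
    filter_upwards [hs, (T h).eventually ha, (T k).eventually ha, (T fun _ => R).eventually ha,
      (T (-fun _ => R)).eventually ha, hC.filter_mono nhdsWithin_le_nhds, self_mem_nhdsWithin]
      with ε h1 h2 h3 h4 h5 h6 h7
    have h7 : 0 ≤ ε := h7
    obtain ⟨e1, e2⟩ := est (s := s) (b := b) hne h7 hh hk hR
    have e3 := vol_Bad s b (mul_nonneg h7 hR0) h1
    have sub : P s (b + ε • (-fun _ => R)) ⊆ P s (b + ε • fun _ => R) := by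
      intro z hz i hi
      have := hz i hi
      simp only [Pi.add_apply, Pi.smul_apply, smul_eq_mul, Pi.neg_apply] at *
      nlinarith
    have le : a (b + ε • (-fun _ => R)) ≤ a (b + ε • fun _ => R) := by
      rw [← ENNReal.ofReal_le_ofReal_iff h4.2, ← h4.1, ← h5.1]; exact measure_mono sub
    rw [e0, measure_sdiff sub (P_closed _ _).measurableSet.nullMeasurableSet
      (by rw [h5.1]; simp), h5.1, h4.1, ← ENNReal.ofReal_sub _ h5.2] at e2
    rw [h2.1, h3.1, ← ENNReal.ofReal_mul h2.2] at e1 e2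
    have fin : volume (Pr (P s b) (P s b) + ε • L) ≠ ⊤ := ne_top_of_le_ne_top (by simp) e1
    rw [← ENNReal.ofReal_toReal fin] at e1 e2
    have hV : 0 ≤ (volume (Pr (P s b) (P s b) + ε • L)).toReal := ENNReal.toReal_nonneg
    generalize (volume (Pr (P s b) (P s b) + ε • L)).toReal = V at e1 e2 hV ⊢
    have p0 : 0 ≤ 36 * (8 * (ε * R) * (8 * (ε * R))) := by positivity
    replace e2 := e2.trans (add_le_add_right (add_le_add_left
      (mul_le_mul_left (mul_le_mul_right e3 _) _) _) _)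
    rw [← ENNReal.ofReal_ofNat 2, ← ENNReal.ofReal_mul (by norm_num),
      ← ENNReal.ofReal_mul (by positivity), ← ENNReal.ofReal_pow (by linarith),
      ← ENNReal.ofReal_add (mul_nonneg (by positivity) h4.2) (sq_nonneg _),
      ← ENNReal.ofReal_add hV
        (add_nonneg (mul_nonneg (by positivity) h4.2) (sq_nonneg _)),
      ENNReal.ofReal_le_ofReal_iff (add_nonneg hV
        (add_nonneg (mul_nonneg (by positivity) h4.2) (sq_nonneg _)))] at e2
    rw [ENNReal.ofReal_le_ofReal_iff (mul_nonneg h2.2 h3.2)] at e1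
    simp only [Pi.sub_apply, zero_smul, add_zero, sub_self, sub_zero, Real.norm_eq_abs,
      abs_of_nonneg h7] at h6
    have h8 := pow_le_pow_left₀ (abs_nonneg _) h6 2
    rw [sq_abs] at h8
    rw [abs_le]
    constructor <;> nlinarith [mul_nonneg p0 h4.2, sq_nonneg (C * ε)]

lemma mem_A (b : Fin 6 → ℝ) (z : ℝ × ℝ) : z ∈ P {0, 2, 5} b ↔
    -z.1 ≤ b 0 ∧ -z.2 ≤ b 2 ∧ z.1 + z.2 ≤ b 5 := by
  simp [P, l, c]

lemma mem_B (b : Fin 6 → ℝ) (z : ℝ × ℝ) : z ∈ P {1, 3, 4} b ↔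
    z.1 ≤ b 1 ∧ z.2 ≤ b 3 ∧ -z.1 - z.2 ≤ b 4 := by
  simp [P, l, c, sub_eq_add_neg]

lemma vol_A (b : Fin 6 → ℝ) (h : 0 ≤ b 0 + b 2 + b 5) :
    volume (P {0, 2, 5} b) = ENNReal.ofReal ((b 0 + b 2 + b 5) ^ 2 / 2) := by
  have : P {0, 2, 5} b = P Finset.univ ![b 0, b 5 + b 2, b 2, b 5 + b 0, b 0 + b 2, b 5] := by
    ext z
    rw [mem_A, mem_univ']
    simp only [Matrix.cons_val]
    constructor
    · rintro ⟨_, _, _⟩; refine ⟨?_, ?_, ?_, ?_, ?_, ?_⟩ <;> linarith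
    · rintro ⟨_, _, _, _, _, _⟩; refine ⟨?_, ?_, ?_⟩ <;> linarith
  rw [this, vol_hex]
  · congr 1; simp only [area, Matrix.cons_val]; ring
  all_goals simp only [Matrix.cons_val]; linarith

lemma vol_B (b : Fin 6 → ℝ) (h : 0 ≤ b 1 + b 3 + b 4) :
    volume (P {1, 3, 4} b) = ENNReal.ofReal ((b 1 + b 3 + b 4) ^ 2 / 2) := by
  have : P {1, 3, 4} b = P Finset.univ ![b 3 + b 4, b 1, b 1 + b 4, b 3, b 4, b 1 + b 3] := by
    ext z
    rw [mem_B, mem_univ']
    simp only [Matrix.cons_val]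
    constructor
    · rintro ⟨_, _, _⟩; refine ⟨?_, ?_, ?_, ?_, ?_, ?_⟩ <;> linarith
    · rintro ⟨_, _, _, _, _, _⟩; refine ⟨?_, ?_, ?_⟩ <;> linarith
  rw [this, vol_hex]
  · congr 1; simp only [area, Matrix.cons_val]; ring
  all_goals simp only [Matrix.cons_val]; linarith

def bT : Fin 6 → ℝ := ![0, 0, 0, 0, 1, 1]
def K : Set E := Pr (P {0, 2, 5} bT) (P {0, 2, 5} bT)
def B (a : ℝ) : Set E := Pr (P Finset.univ fun _ => a) (P Finset.univ fun _ => a)

lemma mem_K (x : E) : x ∈ K ↔ (0 ≤ x 0 ∧ 0 ≤ x 1 ∧ x 0 + x 1 ≤ 1) ∧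
    0 ≤ x 2 ∧ 0 ≤ x 3 ∧ x 2 + x 3 ≤ 1 := by
  simp [K, Pr, mem_A, p1, p2, bT]

lemma neg_K : -K = Pr (P {1, 3, 4} bT) (P {1, 3, 4} bT) := by
  ext x
  rw [Set.mem_neg, mem_K]
  simp [Pr, mem_B, p1, p2, bT, sub_eq_add_neg]

lemma mem_BB (a : ℝ) (x : E) : x ∈ B a ↔ (|x 0| ≤ a ∧ |x 1| ≤ a ∧ |x 0 + x 1| ≤ a) ∧
    |x 2| ≤ a ∧ |x 3| ≤ a ∧ |x 2 + x 3| ≤ a := by
  simp only [B, Pr, mem_ofPred_eq, mem_univ', p1, p2, abs_le]
  constructor
  · rintro ⟨⟨_, _, _, _, _, _⟩, _, _, _, _, _, _⟩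
    refine ⟨⟨⟨?_, ?_⟩, ⟨?_, ?_⟩, ?_, ?_⟩, ⟨?_, ?_⟩, ⟨?_, ?_⟩, ?_, ?_⟩ <;> linarith
  · rintro ⟨⟨⟨_, _⟩, ⟨_, _⟩, _, _⟩, ⟨_, _⟩, ⟨_, _⟩, _, _⟩
    refine ⟨⟨?_, ?_, ?_, ?_, ?_, ?_⟩, ?_, ?_, ?_, ?_, ?_, ?_⟩ <;> linarith

lemma Pr_body (s : Finset (Fin 6)) (b : Fin 6 → ℝ) (R : ℝ)
    (h : ∀ z ∈ P s b, |z.1| ≤ R ∧ |z.2| ≤ R) (z : ℝ × ℝ) (hz : ∀ i ∈ s, l i z < b i) :
    IsCompact (Pr (P s b) (P s b)) ∧ Convex ℝ (Pr (P s b) (P s b)) ∧
      (interior (Pr (P s b) (P s b))).Nonempty := by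
  have c1 : Continuous p1 := by unfold p1; fun_prop
  have c2 : Continuous p2 := by unfold p2; fun_prop
  refine ⟨Metric.isCompact_of_isClosed_isBounded (((P_closed s b).preimage c1).inter
    ((P_closed s b).preimage c2)) (isBounded_iff_forall_norm_le.mpr ⟨2 * |R|, fun x hx => ?_⟩),
    ?_, !₂[z.1, z.2, z.1, z.2], ?_⟩
  · have h1 := h _ hx.1
    have h2 := h _ hx.2
    simp only [p1, p2] at h1 h2
    apply (sq_le_sq₀ (norm_nonneg _) (by positivity)).mp
    rw [EuclideanSpace.real_norm_sq_eq, Fin.sum_univ_four, mul_pow, sq_abs]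
    have := sq_le_sq' (abs_le.mp h1.1).1 (abs_le.mp h1.1).2
    have := sq_le_sq' (abs_le.mp h1.2).1 (abs_le.mp h1.2).2
    have := sq_le_sq' (abs_le.mp h2.1).1 (abs_le.mp h2.1).2
    have := sq_le_sq' (abs_le.mp h2.2).1 (abs_le.mp h2.2).2
    linarith
  · intro x hx y hy t u ht hu htu
    constructor <;> intro i hi
    · have := hx.1 i hi
      have := hy.1 i hi
      have e : b i = t * b i + u * b i := by rw [← add_mul, htu, one_mul]
      simp only [l, p1, PiLp.add_apply, PiLp.smul_apply, smul_eq_mul] at *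
      nlinarith
    · have := hx.2 i hi
      have := hy.2 i hi
      have e : b i = t * b i + u * b i := by rw [← add_mul, htu, one_mul]
      simp only [l, p2, PiLp.add_apply, PiLp.smul_apply, smul_eq_mul] at *
      nlinarith
  · rw [mem_interior_iff_mem_nhds]
    have : ∀ᶠ w in 𝓝 z, w ∈ P s b :=
      (Filter.eventually_all_finset s).mpr fun i hi =>
        ((l_cont i).continuousAt.eventually (gt_mem_nhds (hz i hi))).mono fun _ => le_of_lt
    exact (c1.continuousAt.tendsto.eventually (by simpa [p1] using this)).and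
      (c2.continuousAt.tendsto.eventually (by simpa [p2] using this))

lemma K_sub : K + -K = B 1 := by
  ext x
  rw [mem_BB]
  constructor
  · rintro ⟨y, hy, z, hz, rfl⟩
    rw [Set.mem_neg, mem_K] at hz
    rw [mem_K] at hy
    obtain ⟨⟨_, _, _⟩, _, _, _⟩ := hy
    obtain ⟨⟨_, _, _⟩, _, _, _⟩ := hz
    simp only [PiLp.neg_apply, PiLp.add_apply, abs_le] at *
    refine ⟨⟨⟨?_, ?_⟩, ⟨?_, ?_⟩, ?_, ?_⟩, ⟨?_, ?_⟩, ⟨?_, ?_⟩, ?_, ?_⟩ <;> linarith
  · intro hx
    have aux : ∀ u v : ℝ, |u| ≤ 1 → |v| ≤ 1 → |u + v| ≤ 1 → max u 0 + max v 0 ≤ 1 := by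
      intro u v h1 h2 h3
      rcases max_choice u 0 with e | e <;> rcases max_choice v 0 with f | f <;> rw [e, f] <;>
        linarith [abs_le.mp h1, abs_le.mp h2, abs_le.mp h3]
    refine ⟨WithLp.toLp 2 fun i => max (x i) 0, ?_, -WithLp.toLp 2 fun i => max (-x i) 0, ?_, ?_⟩
    · rw [mem_K]
      exact ⟨⟨le_max_right _ _, le_max_right _ _, aux _ _ hx.1.1 hx.1.2.1 hx.1.2.2⟩,
        le_max_right _ _, le_max_right _ _, aux _ _ hx.2.1 hx.2.2.1 hx.2.2.2⟩
    · rw [Set.mem_neg, neg_neg, mem_K]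
      exact ⟨⟨le_max_right _ _, le_max_right _ _, aux _ _ (by rw [abs_neg]; exact hx.1.1)
        (by rw [abs_neg]; exact hx.1.2.1) (by rw [← neg_add, abs_neg]; exact hx.1.2.2)⟩,
        le_max_right _ _, le_max_right _ _, aux _ _ (by rw [abs_neg]; exact hx.2.1)
        (by rw [abs_neg]; exact hx.2.2.1) (by rw [← neg_add, abs_neg]; exact hx.2.2.2)⟩
    · ext i
      simp only [PiLp.add_apply, PiLp.neg_apply]
      rcases le_total (x i) 0 with h | h
      · rw [max_eq_right h, max_eq_left (by linarith)]; ring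
      · rw [max_eq_left h, max_eq_right (by linarith)]; ring

lemma B_smul {a : ℝ} (ha : 0 < a) : B a = a • B 1 := by
  ext x
  rw [mem_smul_set_iff_inv_smul_mem₀ ha.ne', mem_BB, mem_BB]
  simp only [PiLp.smul_apply, smul_eq_mul, ← mul_add, abs_mul, abs_inv, abs_of_pos ha,
    inv_mul_le_iff₀ ha, mul_one]

lemma main {a : ℝ} (ha : 0 < a) (h3 : a ^ 3 = 1 / 12) {L : Set E} (hL : IsCompact L)
    (hne : L.Nonempty) : HasDerivWithinAt (fun ε : ℝ => (volume (B a + ε • L)).toReal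
      - ((volume (K + ε • L)).toReal + (volume (-K + ε • L)).toReal) / 2) 0 (Ici 0) 0 := by
  have c1 : Continuous p1 := by unfold p1; fun_prop
  have c2 : Continuous p2 := by unfold p2; fun_prop
  choose h hh using fun i =>
    ((hL.image c1).image (l_cont i)).exists_isGreatest ((hne.image _).image _)
  choose k hk using fun i =>
    ((hL.image c2).image (l_cont i)).exists_isGreatest ((hne.image _).image _)
  have ev : ∀ (b : Fin 6 → ℝ) (f : (Fin 6 → ℝ) → ℝ), Continuous f → 0 < f b →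
      ∀ᶠ b' in 𝓝 b, 0 ≤ f b' := fun b f hf h =>
    (hf.continuousAt.eventually (lt_mem_nhds h)).mono fun _ => le_of_lt
  have k1 := key Finset.univ (fun _ => a) area (by
    filter_upwards [ev (fun _ => a) (fun b => b 5 - b 3 + b 0) (by fun_prop) (by simpa),
      ev (fun _ => a) (fun b => b 1 - b 5 + b 3) (by fun_prop) (by simpa),
      ev (fun _ => a) (fun b => b 2 - b 4 + b 0) (by fun_prop) (by simpa),
      ev (fun _ => a) (fun b => b 1 - b 2 + b 4) (by fun_prop) (by simpa),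
      ev (fun _ => a) (fun b => b 3 + b 2) (by fun_prop) (by simpa),
      ev (fun _ => a) (fun b => b 3 + b 4 - b 0) (by fun_prop) (by simpa),
      ev (fun _ => a) (fun b => b 5 - b 1 + b 2) (by fun_prop) (by simpa),
      ev (fun _ => a) (fun b => b 5 + b 4) (by fun_prop) (by simpa),
      ev (fun _ => a) area (by unfold area; fun_prop) (by unfold area; nlinarith)]
      with b h1 h2 h3 h4 h5 h6 h7 h8 h9
    exact ⟨vol_hex b (by linarith) (by linarith) (by linarith) (by linarith) h5 h6 h7 h8, h9⟩)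
    (by unfold area; fun_prop) (fun i _ j _ => Or.inl (by positivity)) hL hne hh hk
  have k2 := key {0, 2, 5} bT (fun b => (b 0 + b 2 + b 5) ^ 2 / 2) (by
    filter_upwards [ev bT (fun b => b 0 + b 2 + b 5) (by fun_prop) (by simp [bT])] with b h1
    exact ⟨vol_A b h1, by positivity⟩) (by fun_prop) (fun i hi j hj => Or.inr fun h => by
      have h1 := h (1, 3)
      simp only [Finset.mem_insert, Finset.mem_singleton] at hi hj
      rcases hi with rfl | rfl | rfl <;> rcases hj with rfl | rfl | rfl <;>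
        simp only [l, c, Matrix.cons_val] at h1 <;> norm_num at h1) hL hne hh hk
  have k3 := key {1, 3, 4} bT (fun b => (b 1 + b 3 + b 4) ^ 2 / 2) (by
    filter_upwards [ev bT (fun b => b 1 + b 3 + b 4) (by fun_prop) (by simp [bT])] with b h1
    exact ⟨vol_B b h1, by positivity⟩) (by fun_prop) (fun i hi j hj => Or.inr fun h => by
      have h1 := h (1, 3)
      simp only [Finset.mem_insert, Finset.mem_singleton] at hi hj
      rcases hi with rfl | rfl | rfl <;> rcases hj with rfl | rfl | rfl <;>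
        simp only [l, c, Matrix.cons_val] at h1 <;> norm_num at h1) hL hne hh hk
  have dA : ∀ g : Fin 6 → ℝ, HasDerivAt (fun ε : ℝ => area ((fun _ => a) + ε • g))
      (a * (g 0 + g 1 + g 2 + g 3 + g 4 + g 5)) 0 := by
    intro g
    have : (fun ε : ℝ => area ((fun _ => a) + ε • g)) = fun ε => 3 * a ^ 2 +
        a * (g 0 + g 1 + g 2 + g 3 + g 4 + g 5) * ε + area g * ε ^ 2 := by
      funext ε; simp [area]; ring
    rw [this]
    exact (((hasDerivAt_id' (0 : ℝ)).const_mul _).const_add _).add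
      ((hasDerivAt_pow 2 (0 : ℝ)).const_mul _) |>.congr_deriv (by simp)
  have dT : ∀ t : ℝ, HasDerivAt (fun ε : ℝ => (1 + ε * t) ^ 2 / 2) t 0 := fun t =>
    ((((hasDerivAt_id' (0 : ℝ)).mul_const t).const_add 1).pow 2).div_const 2 |>.congr_deriv
      (by simp)
  have F := ((dA h).fun_mul (dA k)).fun_sub ((((dT (h 0 + h 2 + h 5)).fun_mul
    (dT (k 0 + k 2 + k 5))).fun_add ((dT (h 1 + h 3 + h 4)).fun_mul
      (dT (k 1 + k 3 + k 4)))).div_const 2)
  have G := (k1.fun_sub ((k2.fun_add k3).div_const 2)).fun_add F.hasDerivWithinAt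
  rw [neg_K]
  refine (G.congr_deriv ?_).congr (fun ε _ => ?_) ?_
  · simp [area]
    linear_combination 3 * (h 0 + h 1 + h 2 + h 3 + h 4 + h 5 + k 0 + k 1 + k 2 + k 3 + k 4 + k 5) * h3
  · simp [B, K, bT]; ring
  · simp [B, K, bT]; ring

end Pool.Agent.Lib.helper1.Blaschke
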