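import Mathlib

set_option autoImplicit false

namespace Pool.Agent.Lib.helper1.Ca

open Finset

def Conf {J F : Type*} [Fintype F] (C : ℕ) (y : J → F → ℝ) : Prop :=
  (∀ j f, 0 ≤ y j f ∧ y j f ≤ 1) ∧ ∀ j, ∑ f, y j f ≤ C

noncomputable def rew {I J F : Type*} [Fintype I] (N : I → Finset J) (x : I → F)
    (y : J → F → ℝ) : ℝ := ∑ i, min 1 (∑ j ∈ N i, y j (x i))

noncomputable def reg {I J F : Type*} [Fintype I] (N : I → Finset J) (T : ℕ)
    (π : (t : ℕ) → (Fin t → I → F) → J → F → ℝ) (x : ℕ → I → F) (y : J → F → ℝ) : ℝ :=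
  ∑ t ∈ range T, rew N (x t) y - ∑ t ∈ range T, rew N (x t) (π t fun s => x s)

noncomputable def ord {I J : Type*} [Fintype I] (N : I → Finset J) (C T : ℕ) : ℝ :=
  ∑ i, min (T : ℝ) √(C * (N i).card * T)

lemma proj {E κ : Type*} [Fintype κ] [TopologicalSpace E] [AddCommGroup E] [Module ℝ E]
    {K : Set (E × (κ → ℝ))} (hK : IsCompact K) (cK : Convex ℝ K) (ne : K.Nonempty)
    {w : κ → ℝ} (hw : ∀ k, 0 ≤ w k) (a : κ → ℝ) :
    ∃ p ∈ K, ∀ q ∈ K, ∑ k, w k * (q.2 k - p.2 k) ^ 2 ≤ ∑ k, w k * (q.2 k - a k) ^ 2 := by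
  obtain ⟨p, hp, h⟩ := hK.exists_isMinOn (f := fun q => ∑ k, w k * (q.2 k - a k) ^ 2) ne
    (by fun_prop)
  refine ⟨p, hp, fun q hq => ?_⟩
  set A := ∑ k, w k * ((q.2 k - p.2 k) * (p.2 k - a k)) with hA
  set B := ∑ k, w k * (q.2 k - p.2 k) ^ 2 with hB
  set D := ∑ k, w k * (p.2 k - a k) ^ 2 with hD
  have B0 : 0 ≤ B := sum_nonneg fun k _ => mul_nonneg (hw k) (sq_nonneg _)
  have D0 : 0 ≤ D := sum_nonneg fun k _ => mul_nonneg (hw k) (sq_nonneg _)
  have e : ∀ s : ℝ, ∑ k, w k * (((1 - s) • p + s • q).2 k - a k) ^ 2 = D + 2 * s * A + s ^ 2 * B :=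
    fun s => by
      simp only [hA, hB, hD, mul_sum, ← sum_add_distrib]
      refine sum_congr rfl fun k _ => ?_
      simp only [Prod.snd_add, Prod.smul_snd, Pi.add_apply, Pi.smul_apply, smul_eq_mul]; ring
  have A0 : 0 ≤ A := by
    by_contra hc
    push Not at hc
    set s := min 1 (-A / (B + 1)) with hs
    have s0 : 0 < s := lt_min one_pos (div_pos (by linarith) (by linarith))
    have s1 : s * (B + 1) ≤ -A := (le_div_iff₀ (by linarith)).1 (min_le_right _ _)
    have := h (cK hp hq (a := 1 - s) (b := s) (by linarith [min_le_left 1 (-A / (B + 1))]) s0.le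
      (by ring))
    simp only [Set.mem_ofPred_eq] at this
    rw [e] at this
    nlinarith
  have := e 1
  simp only [sub_self, zero_smul, one_smul, zero_add] at this
  rw [this]; linarith

theorem upper {I J F : Type*} [Fintype I] [Fintype J] [Fintype F] (N : I → Finset J) (C T : ℕ) :
    ∃ π : (t : ℕ) → (Fin t → I → F) → J → F → ℝ, (∀ t h, Conf C (π t h)) ∧
      ∀ x y, Conf C y → reg N T π x y ≤ ord N C T := by
  classical
  set K : Set ((J → F → ℝ) × (I × F → ℝ)) := {p | Conf C p.1 ∧ ∀ k : I × F,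
    0 ≤ p.2 k ∧ p.2 k ≤ 1 ∧ p.2 k ≤ ∑ j ∈ N k.1, p.1 j k.2} with hK
  have K0 : (0 : (J → F → ℝ) × (I × F → ℝ)) ∈ K := by simp [hK, Conf]
  have cK : IsCompact K := by
    refine (isCompact_Icc (a := 0) (b := 1)).of_isClosed_subset ?_ fun p hp =>
      ⟨Prod.le_def.2 ⟨fun j f => (hp.1.1 j f).1, fun k => (hp.2 k).1⟩,
        Prod.le_def.2 ⟨fun j f => (hp.1.1 j f).2, fun k => (hp.2 k).2.1⟩⟩
    simp only [hK, Conf, Set.ofPred_and, Set.ofPred_forall]
    refine .inter (.inter ?_ ?_) ?_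
    · exact isClosed_iInter fun j => isClosed_iInter fun f =>
        .inter (isClosed_le (by fun_prop) (by fun_prop)) (isClosed_le (by fun_prop) (by fun_prop))
    · exact isClosed_iInter fun j => isClosed_le (by fun_prop) (by fun_prop)
    · exact isClosed_iInter fun k => .inter (isClosed_le (by fun_prop) (by fun_prop))
        (.inter (isClosed_le (by fun_prop) (by fun_prop)) (isClosed_le (by fun_prop) (by fun_prop)))
  have vK : Convex ℝ K := by
    rintro p ⟨⟨p1, p2⟩, p3⟩ q ⟨⟨q1, q2⟩, q3⟩ a b ha hb hab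
    simp only [hK, Conf, Set.mem_ofPred_eq, Prod.fst_add, Prod.snd_add, Prod.smul_fst, Prod.smul_snd,
      Pi.add_apply, Pi.smul_apply, smul_eq_mul, sum_add_distrib, ← mul_sum]
    refine ⟨⟨fun j f => ⟨?_, ?_⟩, fun j => ?_⟩, fun k => ⟨?_, ?_, ?_⟩⟩
    · nlinarith [p1 j f, q1 j f]
    · nlinarith [p1 j f, q1 j f]
    · have := mul_le_mul_of_nonneg_left (p2 j) ha
      have := mul_le_mul_of_nonneg_left (q2 j) hb
      have : a * C + b * C = C := by rw [← add_mul, hab, one_mul]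
      linarith
    · nlinarith [p3 k, q3 k]
    · nlinarith [p3 k, q3 k]
    · nlinarith [p3 k, q3 k]
  set a : I → ℝ := fun i => C * (N i).card with ha
  set η : I → ℝ := fun i => if 0 < a i ∧ a i ≤ T then √(a i / T) else 0 with hη
  have η0 : ∀ i, 0 ≤ η i := fun i => by simp only [hη]; split_ifs <;> positivity
  choose st s1 s2 using fun (p : (J → F → ℝ) × (I × F → ℝ)) (x : I → F) =>
    proj cK vK ⟨0, K0⟩ (w := fun k => (η k.1)⁻¹) (fun k => inv_nonneg.2 (η0 _))
      (fun k => p.2 k + if k.2 = x k.1 then η k.1 else 0)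
  have hf : ∀ (t : ℕ) (h : Fin t → I → F), Fin.foldl t (fun p s => st p (h s)) 0 ∈ K := fun t h => by
    cases t with
    | zero => simpa using K0
    | succ t => rw [Fin.foldl_succ_last]; exact s1 _ _
  refine ⟨fun t h => (Fin.foldl t (fun p s => st p (h s)) 0).1, fun t h => (hf t h).1,
    fun x y hy => ?_⟩
  set P : ℕ → (J → F → ℝ) × (I × F → ℝ) := fun t =>
    Fin.foldl t (fun p s => st p (x s)) 0 with hP
  have PK : ∀ t, P t ∈ K := fun t => hf t fun s => x s
  set u : I × F → ℝ := fun k => min 1 (∑ j ∈ N k.1, y j k.2) with hu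
  have u0 : ∀ k, 0 ≤ u k := fun k => le_min zero_le_one (sum_nonneg fun j _ => (hy.1 j _).1)
  have qK : (y, u) ∈ K := ⟨hy, fun k => ⟨u0 k, min_le_left _ _, min_le_right _ _⟩⟩
  have ua : ∀ i, ∑ f, u (i, f) ≤ a i := fun i => by
    refine (sum_le_sum fun f _ => min_le_right _ _).trans ?_
    dsimp only
    rw [sum_comm]
    exact (sum_le_card_nsmul _ _ _ fun j _ => hy.2 j).trans (by simp [ha, mul_comm])
  have pot : ∀ t, ∑ k, (η k.1)⁻¹ * (u k - (P t).2 k) ^ 2 + 2 * ∑ s ∈ range t, ∑ i,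
      (η i)⁻¹ * η i * (u (i, x s i) - (P s).2 (i, x s i)) ≤
      ∑ i, (η i)⁻¹ * a i + t * ∑ i, η i := fun t => by
    induction t with
    | zero =>
      simp only [hP, Fin.foldl_zero, Prod.snd_zero, Pi.zero_apply, sub_zero, range_zero, sum_empty,
        mul_zero, add_zero, Nat.cast_zero, zero_mul, Fintype.sum_prod_type, ← mul_sum]
      refine sum_le_sum fun i _ => mul_le_mul_of_nonneg_left (le_trans (sum_le_sum fun f _ => ?_)
        (ua i)) (inv_nonneg.2 (η0 _))
      nlinarith [u0 (i, f), (qK.2 (i, f)).2.1]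
    | succ t ih =>
      have e : P (t + 1) = st (P t) (x t) := by simp [hP, Fin.foldl_succ_last]
      have h1 := s2 (P t) (x t) _ qK
      have h2 : ∑ k : I × F, (η k.1)⁻¹ * (u k - ((P t).2 k + if k.2 = x t k.1 then η k.1 else 0)) ^ 2
          = ∑ k, (η k.1)⁻¹ * (u k - (P t).2 k) ^ 2 - 2 * ∑ i,
          (η i)⁻¹ * η i * (u (i, x t i) - (P t).2 (i, x t i)) + ∑ i, η i := by
        simp only [Fintype.sum_prod_type, mul_sum, ← sum_sub_distrib, ← sum_add_distrib]
        refine sum_congr rfl fun i _ => ?_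
        have : ∀ f, (η i)⁻¹ * (u (i, f) - ((P t).2 (i, f) + if f = x t i then η i else 0)) ^ 2 =
            (η i)⁻¹ * (u (i, f) - (P t).2 (i, f)) ^ 2 + if f = x t i then
              η i - 2 * ((η i)⁻¹ * η i * (u (i, f) - (P t).2 (i, f))) else 0 := fun f => by
          split_ifs
          · rcases eq_or_ne (η i) 0 with h | h
            · simp [h]
            · field_simp; ring
          · simp
        simp only [this, sum_add_distrib, sum_ite_eq', mem_univ, if_true]; ring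
      rw [sum_range_succ, e]; push_cast
      dsimp only at h1
      linarith
  have h1 := pot T
  have h2 : 0 ≤ ∑ k, (η k.1)⁻¹ * (u k - (P T).2 k) ^ 2 :=
    sum_nonneg fun k _ => mul_nonneg (inv_nonneg.2 (η0 _)) (sq_nonneg _)
  have h3 : reg N T (fun t h => (Fin.foldl t (fun p s => st p (h s)) 0).1) x y ≤
      ∑ s ∈ range T, ∑ i, (η i)⁻¹ * η i * (u (i, x s i) - (P s).2 (i, x s i)) +
        T * ∑ i, (1 - (η i)⁻¹ * η i) * min 1 (a i) := by
    have : (T : ℝ) * ∑ i, (1 - (η i)⁻¹ * η i) * min 1 (a i) =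
      ∑ _s ∈ range T, ∑ i, (1 - (η i)⁻¹ * η i) * min 1 (a i) := by simp
    simp only [reg, rew, this, ← sum_sub_distrib, ← sum_add_distrib]
    refine sum_le_sum fun s _ => sum_le_sum fun i _ => ?_
    obtain ⟨b1, b2, b3⟩ := (PK s).2 (i, x s i)
    have b4 : (P s).2 (i, x s i) ≤ min 1 (∑ j ∈ N i, (P s).1 j (x s i)) := le_min b2 b3
    have b5 : u (i, x s i) ≤ min 1 (a i) := le_min (min_le_left _ _)
      ((single_le_sum (f := fun f => u (i, f)) (fun f _ => u0 _) (mem_univ _)).trans (ua i))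
    show u (i, x s i) - min 1 (∑ j ∈ N i, (P s).1 j (x s i)) ≤ _
    rcases eq_or_ne (η i) 0 with h | h
    · simp only [h, mul_zero, zero_mul, sub_zero, one_mul, zero_add]; linarith
    · rw [inv_mul_cancel₀ h]; linarith
  have h4 : (∑ i, (η i)⁻¹ * a i + T * ∑ i, η i) / 2 +
      T * ∑ i, (1 - (η i)⁻¹ * η i) * min 1 (a i) ≤ ord N C T := by
    simp only [ord, mul_sum, ← sum_add_distrib, sum_div]
    refine sum_le_sum fun i _ => ?_
    show _ ≤ min (T : ℝ) √(a i * T)
    have T0 : (0 : ℝ) ≤ T := Nat.cast_nonneg _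
    by_cases h : 0 < a i ∧ a i ≤ T
    · have T1 : (0 : ℝ) < T := h.1.trans_le h.2
      have e1 : η i = √(a i / T) := if_pos h
      have p : 0 < η i := by rw [e1]; exact Real.sqrt_pos.2 (div_pos h.1 T1)
      have e2 : η i ^ 2 * T = a i := by
        rw [e1, Real.sq_sqrt (div_pos h.1 T1).le]; field_simp
      have e3 : √(a i * T) = η i * T := by
        rw [← e2, show η i ^ 2 * T * T = (η i * T) ^ 2 by ring, Real.sqrt_sq (by positivity)]
      have e4 : η i ≤ 1 := by rw [e1]; exact Real.sqrt_le_one.2 ((div_le_one T1).2 h.2)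
      rw [e3, inv_mul_cancel₀ p.ne', min_eq_right (show η i * T ≤ T by nlinarith), ← e2]
      apply le_of_eq; field_simp; ring
    · have e1 : η i = 0 := if_neg h
      simp only [e1, inv_zero, zero_mul, mul_zero, add_zero, zero_div, sub_zero, one_mul, zero_add]
      have a0 : 0 ≤ a i := by simp only [ha]; positivity
      rcases a0.eq_or_lt with h' | h'
      · simp [← h']
      · have : (T : ℝ) ≤ a i := (not_le.1 fun h'' => h ⟨h', h''⟩).le
        rw [min_eq_left (Real.le_sqrt_of_sq_le (by nlinarith))]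
        nlinarith [min_le_left 1 (a i)]
  linarith

end Pool.Agent.Lib.helper1.Ca
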