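import Pool.Agent.Lib.helper1.Ca1

set_option autoImplicit false

namespace Pool.Agent.Lib.helper1.Ca

open Finset

section
variable {K V : Type*} [Fintype K] [DecidableEq K] [Fintype V]

noncomputable def Ex (μ : K → V → ℝ) (G : (K → V) → ℝ) : ℝ := ∑ ω : K → V, (∏ k, μ k (ω k)) * G ω

variable {μ : K → V → ℝ}

lemma Ex_const (h1 : ∀ k, ∑ v, μ k v = 1) (c : ℝ) : Ex μ (fun _ => c) = c := by
  rw [Ex, ← sum_mul, ← Fintype.piFinset_univ, ← prod_univ_sum]; simp [h1]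

lemma Ex_mono (h0 : ∀ k v, 0 ≤ μ k v) {G H : (K → V) → ℝ} (h : ∀ ω, G ω ≤ H ω) :
    Ex μ G ≤ Ex μ H :=
  sum_le_sum fun ω _ => mul_le_mul_of_nonneg_left (h ω) (prod_nonneg fun k _ => h0 k _)

lemma Ex_add (G H : (K → V) → ℝ) : Ex μ (fun ω => G ω + H ω) = Ex μ G + Ex μ H := by
  simp only [Ex, mul_add, sum_add_distrib]

lemma Ex_mul (c : ℝ) (G : (K → V) → ℝ) : Ex μ (fun ω => c * G ω) = c * Ex μ G := by
  simp only [Ex, mul_sum, mul_left_comm]

lemma Ex_sum {ι : Type*} (s : Finset ι) (G : ι → (K → V) → ℝ) :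
    Ex μ (fun ω => ∑ i ∈ s, G i ω) = ∑ i ∈ s, Ex μ (G i) := by
  simp only [Ex, mul_sum]; exact sum_comm

lemma Ex_res (h1 : ∀ k, ∑ v, μ k v = 1) (k : K) (G : (K → V) → ℝ) :
    Ex μ G = Ex μ fun ω => ∑ v, μ k v * G (Function.update ω k v) := by
  have : Ex μ G = ∑ p : (K → V) × V, (∏ l, μ l (p.1 l)) * (μ k p.2 * G p.1) := by
    simp only [Fintype.sum_prod_type, ← mul_sum, ← sum_mul, h1, one_mul, Ex]
  rw [this]
  simp only [Ex, mul_sum]
  rw [← Fintype.sum_prod_type']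
  refine Fintype.sum_bijective (fun p => (Function.update p.1 k p.2, p.1 k))
    (Function.Involutive.bijective fun p => by simp) _ _ fun p => ?_
  simp only [Function.update_idem, Function.update_eq_self]
  rw [← mul_prod_erase _ _ (mem_univ k), ← mul_prod_erase _ _ (mem_univ k), Function.update_self,
    prod_congr rfl (s₁ := univ.erase k) (f := fun l => μ l (Function.update p.1 k p.2 l))
      fun l hl => by rw [Function.update_of_ne (ne_of_mem_erase hl)]]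
  ring

lemma mom (h1 : ∀ k, ∑ v, μ k v = 1) {ξ : K → V → ℝ} {p : K → ℝ}
    (m1 : ∀ k, ∑ v, μ k v * ξ k v = 0) (m2 : ∀ k, ∑ v, μ k v * ξ k v ^ 2 = p k)
    (m3 : ∀ k v, ξ k v ^ 3 = ξ k v) (s : Finset K) :
    Ex μ (fun ω => (∑ k ∈ s, ξ k (ω k)) ^ 2) = ∑ k ∈ s, p k ∧
      Ex μ (fun ω => (∑ k ∈ s, ξ k (ω k)) ^ 4) ≤ ∑ k ∈ s, p k + 3 * (∑ k ∈ s, p k) ^ 2 := by
  induction s using Finset.induction_on with
  | empty => simp [Ex]
  | insert k s hk ih =>
    have e : ∀ (ω : K → V) v, ∑ l ∈ insert k s, ξ l (Function.update ω k v l) =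
        ξ k v + ∑ l ∈ s, ξ l (ω l) := fun ω v => by
      rw [sum_insert hk, Function.update_self]
      exact congrArg _ (sum_congr rfl fun l hl => by
        rw [Function.update_of_ne (ne_of_mem_of_not_mem hl hk)])
    have e2 : ∀ x : ℝ, ∑ v, μ k v * (ξ k v + x) ^ 2 = x ^ 2 + p k := fun x => by
      have : ∀ v, μ k v * (ξ k v + x) ^ 2 =
        x ^ 2 * μ k v + 2 * x * (μ k v * ξ k v) + μ k v * ξ k v ^ 2 := fun v => by ring
      simp only [this, sum_add_distrib, ← mul_sum, h1, m1, m2]; ring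
    have e4 : ∀ x : ℝ, ∑ v, μ k v * (ξ k v + x) ^ 4 = x ^ 4 + (6 * p k * x ^ 2 + p k) := fun x => by
      have : ∀ v, μ k v * (ξ k v + x) ^ 4 = x ^ 4 * μ k v + (4 * x ^ 3 + 4 * x) * (μ k v * ξ k v) +
          (6 * x ^ 2 + 1) * (μ k v * ξ k v ^ 2) := fun v => by
        linear_combination μ k v * (4 * x + ξ k v) * m3 k v
      simp only [this, sum_add_distrib, ← mul_sum, h1, m1, m2]; ring
    rw [Ex_res h1 k, Ex_res h1 k (fun ω => (∑ l ∈ insert k s, ξ l (ω l)) ^ 4)]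
    simp only [e, e2, e4, Ex_add, Ex_mul, Ex_const h1, ih.1, sum_insert hk]
    exact ⟨add_comm _ _, by nlinarith [ih.2, sq_nonneg (p k)]⟩

lemma anti (h0 : ∀ k v, 0 ≤ μ k v) {S : (K → V) → ℝ} {q : ℝ}
    (q0 : 0 ≤ q) (m2 : Ex μ (fun ω => S ω ^ 2) = q) (m4 : Ex μ (fun ω => S ω ^ 4) ≤ q + 3 * q ^ 2) :
    min q √q / 2 ≤ Ex μ fun ω => |S ω| := by
  set l := √(1 + 3 * q) with hl
  have l0 : 0 < l := Real.sqrt_pos.2 (by linarith)
  have l2 : l ^ 2 = 1 + 3 * q := Real.sq_sqrt (by linarith)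
  have h := Ex_mono h0 (G := fun ω => 3 * l ^ 2 * S ω ^ 2 + (-1) * S ω ^ 4)
    (H := fun ω => 2 * l ^ 3 * |S ω|) fun ω => by
      have a := abs_nonneg (S ω)
      rw [← sq_abs (S ω), show S ω ^ 4 = |S ω| ^ 4 by rw [← abs_pow, abs_of_nonneg (by positivity)]]
      nlinarith [mul_nonneg (mul_nonneg a (sq_nonneg (|S ω| - l))) (show 0 ≤ |S ω| + 2 * l by linarith)]
  simp only [Ex_add, Ex_mul, m2] at h
  have h2 : q ≤ l * Ex μ fun ω => |S ω| := by
    have : l ^ 2 * q ≤ l ^ 2 * (l * Ex μ fun ω => |S ω|) := by nlinarith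
    exact le_of_mul_le_mul_left this (by positivity)
  refine le_of_mul_le_mul_left (le_trans ?_ h2) l0
  have s0 := Real.sqrt_nonneg q
  have s2 := Real.sq_sqrt q0
  rcases le_total q 1 with h | h
  · have : l ≤ 2 := Real.sqrt_le_iff.2 ⟨by norm_num, by linarith⟩
    nlinarith [min_le_left q √q, le_min q0 s0]
  · have : l ≤ 2 * √q := Real.sqrt_le_iff.2 ⟨by positivity, by nlinarith⟩
    nlinarith [min_le_right q √q, le_min q0 s0]

end

lemma cs {I : Type*} (s : Finset I) {τ : I → ℝ} (h : ∀ i, 0 ≤ τ i) {d : ℕ} (hd : s.card ≤ d) :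
    (∑ i ∈ s, min (τ i) √(τ i)) / √d ≤ min (∑ i ∈ s, τ i) √(∑ i ∈ s, τ i) := by
  rcases s.eq_empty_or_nonempty with rfl | ne
  · simp
  have d1 : (1 : ℝ) ≤ d := by exact_mod_cast ne.card_pos.trans_le hd
  have d2 : 1 ≤ √(d : ℝ) := Real.one_le_sqrt.2 d1
  have t0 : 0 ≤ ∑ i ∈ s, τ i := sum_nonneg fun i _ => h i
  rw [div_le_iff₀ (by linarith), min_mul_of_nonneg _ _ (by linarith)]
  refine le_min ((sum_le_sum fun i _ => min_le_left _ _).trans (by nlinarith))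
    ((sum_le_sum fun i _ => min_le_right _ _).trans ?_)
  rw [← Real.sqrt_mul t0]
  refine Real.le_sqrt_of_sq_le (sq_sum_le_card_mul_sum_sq.trans ?_)
  rw [sum_congr rfl fun i _ => Real.sq_sqrt (h i), mul_comm]
  exact mul_le_mul_of_nonneg_left (by exact_mod_cast hd) t0

end Pool.Agent.Lib.helper1.Ca
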