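import Pool.Agent.Lib.helper1.Ca2

set_option autoImplicit false

namespace Pool.Agent.Lib.helper1.Ca

open Finset

lemma sf {J : Type*} (A : Type*) [Fintype J] [Fintype A] (g : J → ℝ) :
    ∑ v : J × A, g v.1 = Fintype.card A * ∑ j, g j := by
  simp [Fintype.sum_prod_type, mul_sum]

theorem lower {I J F : Type*} [Fintype I] [Fintype J] [Fintype F] [DecidableEq J] [Nonempty J]
    (N : I → Finset J) {C d : ℕ} (T : ℕ) (hC : 0 < C) (hd : ∀ j, #{i | j ∈ N i} ≤ d)
    (hF : 2 * C * Fintype.card J ≤ Fintype.card F)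
    (π : (t : ℕ) → (Fin t → I → F) → J → F → ℝ) (hπ : ∀ t h, Conf C (π t h)) :
    ∃ x y, Conf C y ∧ ord N C T / (4 * √d) ≤ reg N T π x y := by
  classical
  obtain ⟨e⟩ : Nonempty (J × Fin C × Bool ↪ F) :=
    Function.Embedding.nonempty_of_card_le (by simpa [mul_comm, mul_left_comm] using hF)
  have C0 : (0 : ℝ) < C := by exact_mod_cast hC
  obtain ⟨j0⟩ := ‹Nonempty J›
  set N' : I → Finset J := fun i => if N i = ∅ then univ else N i with hN'
  have n0 : ∀ i, (0 : ℝ) < #(N' i) := fun i => by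
    have : (N' i).Nonempty := by
      simp only [hN']; split_ifs with h
      exacts [⟨j0, mem_univ _⟩, nonempty_iff_ne_empty.2 h]
    exact_mod_cast this.card_pos
  have n1 : ∀ i j, j ∈ N i → N' i = N i := fun i j h => if_neg (ne_empty_of_mem h)
  set μ : Fin T × I → J × Fin C × Bool → ℝ := fun k v =>
    if v.1 ∈ N' k.2 then 1 / (2 * C * #(N' k.2)) else 0 with hμ
  have h0 : ∀ k v, 0 ≤ μ k v := fun k v => by simp only [hμ]; split_ifs <;> positivity
  have h1 : ∀ k, ∑ v, μ k v = 1 := fun k => by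
    have := n0 k.2
    refine (sf (Fin C × Bool) fun j => if j ∈ N' k.2 then 1 / (2 * C * #(N' k.2)) else 0).trans ?_
    simp only [Fintype.card_prod, sum_const, Fintype.card_bool, Fintype.card_fin,
      nsmul_eq_mul, sum_ite_mem, univ_inter]
    push_cast
    field_simp
  set sg : Bool → ℝ := fun b => if b then 1 else -1 with hsg
  set ξ : J × Fin C → Fin T × I → J × Fin C × Bool → ℝ := fun a k v =>
    if a = (v.1, v.2.1) then if v.1 ∈ N k.2 then sg v.2.2 else 0 else 0 with hξ
  set p : J → Fin T × I → ℝ := fun j k => if j ∈ N k.2 then 1 / (C * #(N k.2)) else 0 with hp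
  have mm := fun a : J × Fin C => mom h1 (ξ := ξ a) (p := p a.1) (fun k => by
      simp only [hμ, hξ, hsg, Fintype.sum_prod_type, Fintype.sum_bool]
      refine sum_eq_zero fun j _ => sum_eq_zero fun c _ => ?_
      split_ifs <;> simp_all) (fun k => by
      obtain ⟨j, c⟩ := a
      simp only [Fintype.sum_prod_type, Fintype.sum_bool]
      rw [sum_eq_single j (fun j' _ h => by simp [hξ, h.symm]) (by simp),
        sum_eq_single c (fun c' _ h => by simp [hξ, h.symm]) (by simp)]
      by_cases h : j ∈ N k.2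
      · have := n0 k.2
        rw [n1 _ _ h] at this
        simp only [hμ, hξ, hsg, hp, n1 _ _ h, h, if_true]
        field_simp; norm_num
      · simp [hξ, hp, h]) (fun k v => by
      simp only [hξ, hsg]; split_ifs <;> norm_num) univ
  set X : (Fin T × I → J × Fin C × Bool) → ℕ → I → F := fun ω t i =>
    if h : t < T then e (ω (⟨t, h⟩, i)) else e (j0, ⟨0, hC⟩, true) with hX
  set S : J × Fin C → (Fin T × I → J × Fin C × Bool) → ℝ := fun a ω => ∑ k, ξ a k (ω k) with hS
  set y : (Fin T × I → J × Fin C × Bool) → J → F → ℝ := fun ω j f =>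
    if ∃ c, f = e (j, c, decide (0 ≤ S (j, c) ω)) then 1 else 0 with hy
  have y0 : ∀ ω j f, 0 ≤ y ω j f ∧ y ω j f ≤ 1 := fun ω j f => by
    simp only [hy]; split_ifs <;> norm_num
  have cy : ∀ ω, Conf C (y ω) := fun ω => ⟨y0 ω, fun j => by
    calc _ ≤ ∑ f, ∑ c, if f = e (j, c, decide (0 ≤ S (j, c) ω)) then (1 : ℝ) else 0 := by
          refine sum_le_sum fun f _ => ?_
          simp only [hy]
          split_ifs with h
          · obtain ⟨c, hc⟩ := h
            exact le_trans (by rw [if_pos hc]) (single_le_sum (f := fun c =>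
              if f = e (j, c, decide (0 ≤ S (j, c) ω)) then (1 : ℝ) else 0)
              (fun c _ => by positivity) (mem_univ c))
          · positivity
      _ = C := by rw [sum_comm]; simp⟩
  set D : Fin T × I → (Fin T × I → J × Fin C × Bool) → ℝ := fun k ω =>
    (if (ω k).1 ∈ N k.2 then 1 / 2 else 0) -
      min 1 (∑ j ∈ N k.2, π k.1 (fun s => X ω s) j (e (ω k))) with hD
  have pw : ∀ ω, ∑ k, D k ω + 1 / 2 * ∑ a, |S a ω| ≤ reg N T π (X ω) (y ω) := fun ω => by
    have e1 : ∑ a, |S a ω| = ∑ k, if (ω k).1 ∈ N k.2 then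
        sg (decide (0 ≤ S ((ω k).1, (ω k).2.1) ω)) * sg (ω k).2.2 else 0 := by
      calc _ = ∑ a, ∑ k, sg (decide (0 ≤ S a ω)) * ξ a k (ω k) := by
            refine sum_congr rfl fun a _ => ?_
            rw [← mul_sum]
            show _ = _ * S a ω
            by_cases h : 0 ≤ S a ω
            · simp [hsg, h]
            · simp [hsg, h, abs_of_neg (not_le.1 h)]
        _ = _ := by
            rw [sum_comm]
            refine sum_congr rfl fun k _ => ?_
            simp only [hξ, mul_ite, mul_zero, sum_ite_eq', mem_univ, if_true]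
    have eX : ∀ (t : Fin T) i, X ω t i = e (ω (t, i)) := fun t i => dif_pos t.2
    simp only [e1, reg, rew, sum_range, eX, ← Fintype.sum_prod_type', mul_sum, ← sum_add_distrib,
      ← sum_sub_distrib, hD]
    refine sum_le_sum fun k _ => ?_
    have z : 0 ≤ ∑ j ∈ N k.2, y ω j (e (ω k)) := sum_nonneg fun j _ => (y0 _ _ _).1
    have : (if (ω k).1 ∈ N k.2 then 1 / 2 else 0) + 1 / 2 * (if (ω k).1 ∈ N k.2 then
        sg (decide (0 ≤ S ((ω k).1, (ω k).2.1) ω)) * sg (ω k).2.2 else 0) ≤
        min 1 (∑ j ∈ N k.2, y ω j (e (ω k))) := by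
      split_ifs with h
      · by_cases hb : decide (0 ≤ S ((ω k).1, (ω k).2.1) ω) = (ω k).2.2
        · have : y ω (ω k).1 (e (ω k)) = 1 := if_pos ⟨(ω k).2.1, by rw [hb]⟩
          rw [min_eq_left (this.symm.trans_le (single_le_sum (f := fun j => y ω j (e (ω k)))
            (fun j _ => (y0 _ _ _).1) h)), hb]
          simp only [hsg]; split_ifs <;> norm_num
        · refine le_trans (le_of_eq ?_) (le_min zero_le_one z)
          revert hb
          cases decide (0 ≤ S ((ω k).1, (ω k).2.1) ω) <;> cases (ω k).2.2 <;> norm_num [hsg]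
      · simpa using z
    linarith
  have eD : ∀ k, 0 ≤ Ex μ (D k) := fun k => by
    rw [Ex_res h1 k, ← Ex_const h1 0]
    refine Ex_mono h0 fun ω => ?_
    have hh : ∀ v, (fun s : Fin k.1 => X (Function.update ω k v) s) = fun s : Fin k.1 => X ω s :=
      fun v => by
        funext s i
        simp only [hX]
        split_ifs with h
        · rw [Function.update_of_ne]
          intro h'
          have := congrArg (fun k : Fin T × I => (k.1 : ℕ)) h'
          exact s.2.ne this
        · rfl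
    simp only [hD, hh, Function.update_self]
    obtain ⟨z1, z2⟩ := hπ k.1 fun s => X ω s
    set z := π k.1 fun s => X ω s
    rcases (N k.2).eq_empty_or_nonempty with h | ⟨j, h⟩
    · simp [h]
    have n2 := n0 k.2
    have a1 : ∀ v, μ k v * ((if v.1 ∈ N k.2 then 1 / 2 else 0) - min 1 (∑ j ∈ N k.2, z j (e v))) ≥
        1 / 2 * μ k v - 1 / (2 * C * #(N' k.2)) * ∑ j ∈ N k.2, z j (e v) := fun v => by
      have r0 : (0 : ℝ) < 1 / (2 * C * #(N' k.2)) := by positivity
      have : 0 ≤ ∑ j ∈ N k.2, z j (e v) := sum_nonneg fun j _ => (z1 _ _).1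
      simp only [hμ, n1 _ _ h] at r0 ⊢
      split_ifs
      · nlinarith [min_le_right 1 (∑ j ∈ N k.2, z j (e v))]
      · nlinarith
    refine le_trans ?_ (sum_le_sum fun v _ => a1 v)
    rw [sum_sub_distrib, ← mul_sum, ← mul_sum, h1, sum_comm]
    have a2 : ∑ j ∈ N k.2, ∑ v, z j (e v) ≤ #(N k.2) * C := by
      refine (sum_le_card_nsmul _ _ (C : ℝ) fun j _ => le_trans ?_ (z2 j)).trans (by simp)
      rw [← sum_map univ e (z j)]
      exact sum_le_sum_of_subset_of_nonneg (subset_univ _) fun f _ _ => (z1 _ _).1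
    rw [n1 _ _ h] at n2 ⊢
    rw [sub_nonneg, one_div_mul_eq_div, div_le_iff₀ (by positivity)]
    linarith
  set τ : I → ℝ := fun i => T / (C * #(N i)) with hτ
  have τ0 : ∀ i, 0 ≤ τ i := fun i => by simp only [hτ]; positivity
  have eS : ∀ a : J × Fin C, (∑ i with a.1 ∈ N i, min (τ i) √(τ i)) / √d / 2 ≤
      Ex μ fun ω => |S a ω| := fun a => by
    have e1 : ∑ k, p a.1 k = ∑ i with a.1 ∈ N i, τ i := by
      simp only [hp, hτ, Fintype.sum_prod_type, sum_const, card_univ, Fintype.card_fin, sum_filter,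
        nsmul_eq_mul, mul_sum, mul_ite, mul_zero, mul_one_div]
    have := mm a
    rw [e1] at this
    refine le_trans ?_ (anti h0 (sum_nonneg fun i _ => τ0 i) this.1 this.2)
    linarith [cs _ τ0 (hd a.1)]
  have eO : ord N C T = ∑ a : J × Fin C, ∑ i with a.1 ∈ N i, min (τ i) √(τ i) := by
    simp only [sum_filter]
    rw [sum_comm]
    refine sum_congr rfl fun i _ => ?_
    refine Eq.trans ?_ (sf (Fin C) fun j => if j ∈ N i then min (τ i) √(τ i) else 0).symm
    simp only [sum_const, Fintype.card_fin, nsmul_eq_mul, sum_ite_mem, univ_inter]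
    rcases (N i).eq_empty_or_nonempty with h | ⟨j, h⟩
    · simp [h]
    have n2 := n0 i
    rw [n1 _ _ h] at n2
    have n3 : (0 : ℝ) ≤ C * #(N i) := (mul_pos C0 n2).le
    have e1 : (T : ℝ) = C * #(N i) * τ i := by simp only [hτ]; field_simp
    rw [← mul_assoc, mul_min_of_nonneg _ _ n3, ← e1]
    congr 1
    rw [e1, ← mul_assoc, Real.sqrt_mul (mul_nonneg n3 n3), Real.sqrt_mul_self n3]
  have : Nonempty (Fin T × I → J × Fin C × Bool) := ⟨fun _ => (j0, ⟨0, hC⟩, true)⟩
  obtain ⟨ω, hω⟩ := Finite.exists_max fun ω => reg N T π (X ω) (y ω)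
  refine ⟨X ω, y ω, cy ω, ?_⟩
  have := Ex_mono h0 fun ω' => (pw ω').trans (hω ω')
  rw [Ex_const h1, Ex_add, Ex_mul, Ex_sum, Ex_sum] at this
  have b1 : 0 ≤ ∑ k, Ex μ (D k) := sum_nonneg fun k _ => eD k
  have b2 := sum_le_sum fun a (_ : a ∈ univ) => eS a
  rw [← sum_div, ← sum_div, ← eO] at b2
  rw [mul_comm, ← div_div]
  linarith

end Pool.Agent.Lib.helper1.Ca
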