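import Pool.Agent.Lib.helper1.Ca3

set_option autoImplicit false

namespace Pool.Agent.Lib.helper1.Ca

open Finset

noncomputable def polReg {I J F : Type*} [Fintype I] [Fintype F] (N : I → Finset J) (C T : ℕ)
    (π : (t : ℕ) → (Fin t → I → F) → J → F → ℝ) : ℝ :=
  sSup {r | ∃ x y, Conf C y ∧ r = reg N T π x y}

noncomputable def minimax {I J : Type*} (F : Type*) [Fintype I] [Fintype F] (N : I → Finset J)
    (C T : ℕ) : ℝ :=
  sInf {r | ∃ π : (t : ℕ) → (Fin t → I → F) → J → F → ℝ, (∀ t h, Conf C (π t h)) ∧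
    r = polReg N C T π}

theorem final {I J F : Type*} [Fintype I] [Fintype J] [Fintype F] [DecidableEq J] [Nonempty J]
    (N : I → Finset J) {C d : ℕ} (T : ℕ) (hC : 0 < C) (hd : ∀ j, #{i | j ∈ N i} ≤ d)
    (hF : 2 * C * Fintype.card J ≤ Fintype.card F) :
    ord N C T / (4 * √d) ≤ minimax F N C T ∧ minimax F N C T ≤ ord N C T := by
  have lo : ∀ r ∈ {r | ∃ π : (t : ℕ) → (Fin t → I → F) → J → F → ℝ, (∀ t h, Conf C (π t h)) ∧
      r = polReg N C T π}, ord N C T / (4 * √d) ≤ r := by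
    rintro _ ⟨π, hπ, rfl⟩
    obtain ⟨x, y, hy, h⟩ := lower N T hC hd hF π hπ
    refine h.trans (le_csSup ⟨∑ _t ∈ range T, ∑ _i : I, (1 : ℝ), ?_⟩ ⟨x, y, hy, rfl⟩)
    rintro _ ⟨x, y, -, rfl⟩
    exact (sub_le_self _ (sum_nonneg fun t _ => sum_nonneg fun i _ => le_min zero_le_one
      (sum_nonneg fun j _ => ((hπ _ _).1 _ _).1))).trans
      (sum_le_sum fun t _ => sum_le_sum fun i _ => min_le_left _ _)
  obtain ⟨π, hπ, h⟩ := upper (F := F) N C T
  refine ⟨le_csInf ⟨_, π, hπ, rfl⟩ lo, (csInf_le ⟨_, lo⟩ ⟨π, hπ, rfl⟩).trans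
    (Real.sSup_le ?_ (sum_nonneg fun i _ => by positivity))⟩
  rintro _ ⟨x, y, hy, rfl⟩
  exact h x y hy

end Pool.Agent.Lib.helper1.Ca
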