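import Mathlib
import Pool.Agent.Lib.helper1.BM

set_option autoImplicit false

open MeasureTheory Set Pool.Agent.Lib.helper1.BM
open scoped ENNReal Pointwise

namespace Pool.Agent.Lib.helper1.Cau

/-- Cauchy density -/
noncomputable def h (y : ℝ) : ℝ := Real.pi⁻¹ * (1 + y ^ 2)⁻¹

noncomputable def a : ℝ := Real.exp 4480 - 1

lemma a_ge : 4480 ≤ a := by unfold a; linarith [Real.add_one_le_exp (4480:ℝ)]
lemma a_pos : 0 < a := by linarith [a_ge]

/-- uniform density on `[-a, a]` -/
noncomputable def u (x : ℝ) : ℝ := (Icc (-a) a).indicator (fun _ => 1 / (2 * a)) x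

lemma h_pos (y : ℝ) : 0 < h y := by unfold h; have := Real.pi_pos; positivity
lemma h_le (y : ℝ) : h y ≤ 1 := by
  unfold h
  have h1 : Real.pi⁻¹ ≤ 1 := inv_le_one_of_one_le₀ (by linarith [Real.pi_gt_three])
  have h2 : (1 + y ^ 2)⁻¹ ≤ 1 := inv_le_one_of_one_le₀ (by nlinarith [sq_nonneg y])
  exact mul_le_one₀ h1 (by positivity) h2
lemma h_meas : Measurable h := by unfold h; fun_prop
lemma u_meas : Measurable u := measurable_const.indicator measurableSet_Icc
lemma u_nn (x : ℝ) : 0 ≤ u x := indicator_nonneg (fun _ _ => by have := a_pos; positivity) x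
lemma u_le (x : ℝ) : u x ≤ 1 := by
  refine indicator_le' (g := fun _ => 1) (fun _ _ => ?_) (fun _ _ => zero_le_one) x
  rw [div_le_one (by linarith [a_pos])]; linarith [a_ge]

noncomputable def PY : Measure ℝ := volume.withDensity fun y => ENNReal.ofReal (h y)
noncomputable def PU : Measure ℝ := volume.withDensity fun x => ENNReal.ofReal (u x)
noncomputable def k : ℝ≥0∞ := ENNReal.ofReal (1 / (2 * a))

lemma u_eq (x : ℝ) : ENNReal.ofReal (u x) = (Icc (-a) a).indicator (fun _ => k) x := by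
  by_cases hx : x ∈ Icc (-a) a <;> simp [u, k, hx]

lemma PU_apply {S : Set ℝ} (hS : MeasurableSet S) : PU S = k * volume (S ∩ Icc (-a) a) := by
  rw [PU, withDensity_apply _ hS]
  simp_rw [u_eq]
  rw [lintegral_indicator measurableSet_Icc, setLIntegral_const,
    Measure.restrict_apply measurableSet_Icc, inter_comm]

lemma k_mul : k * ENNReal.ofReal (2 * a) = 1 := by
  have := a_pos
  rw [k, ← ENNReal.ofReal_mul (by positivity), one_div_mul_cancel (by positivity)]
  simp

instance : IsProbabilityMeasure PU := ⟨by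
  rw [PU_apply MeasurableSet.univ, univ_inter, Real.volume_Icc, ← k_mul]
  congr 2; ring⟩

instance : IsProbabilityMeasure PY := ⟨by
  rw [PY, withDensity_apply _ MeasurableSet.univ, Measure.restrict_univ,
    ← ofReal_integral_eq_lintegral_ofReal (f := h) (integrable_inv_one_add_sq.const_mul _)
      (Filter.Eventually.of_forall fun y => (h_pos y).le)]
  unfold h
  rw [integral_const_mul, integral_univ_inv_one_add_sq, inv_mul_cancel₀ Real.pi_pos.ne']
  simp⟩

noncomputable def mu : Measure (ℝ × ℝ) := PY.prod PU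

instance : IsProbabilityMeasure mu := by unfold mu; infer_instance

lemma PU_bm {A B C : Set ℝ} (hA : MeasurableSet A) (hB : MeasurableSet B) (hC : MeasurableSet C)
    (pA : PU A ≠ 0) (pB : PU B ≠ 0) {t : ℝ} (h0 : 0 ≤ t) (h1 : t ≤ 1)
    (hh : ∀ x ∈ A, ∀ y ∈ B, t * x + (1 - t) * y ∈ C) :
    t * (PU A).toReal + (1 - t) * (PU B).toReal ≤ (PU C).toReal := by
  have h2 : 0 ≤ 1 - t := sub_nonneg.2 h1
  have nA : (A ∩ Icc (-a) a).Nonempty := by
    rw [PU_apply hA] at pA
    exact nonempty_of_measure_ne_zero (right_ne_zero_of_mul pA)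
  have nB : (B ∩ Icc (-a) a).Nonempty := by
    rw [PU_apply hB] at pB
    exact nonempty_of_measure_ne_zero (right_ne_zero_of_mul pB)
  have key := bm1 (C := C ∩ Icc (-a) a) (hA.inter measurableSet_Icc) (hB.inter measurableSet_Icc)
    nA nB h0 h1 (fun x hx y hy => ⟨hh x hx.1 y hy.1,
      (convex_Icc (-a) a) hx.2 hy.2 h0 h2 (by ring)⟩)
  have key2 : ENNReal.ofReal t * PU A + ENNReal.ofReal (1 - t) * PU B ≤ PU C := by
    rw [PU_apply hA, PU_apply hB, PU_apply hC, mul_left_comm, mul_left_comm _ k, ← mul_add]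
    exact mul_le_mul_right key _
  have := ENNReal.toReal_mono (measure_ne_top PU C) key2
  rwa [ENNReal.toReal_add (ENNReal.mul_ne_top ENNReal.ofReal_ne_top (measure_ne_top _ _))
    (ENNReal.mul_ne_top ENNReal.ofReal_ne_top (measure_ne_top _ _)), ENNReal.toReal_mul,
    ENNReal.toReal_mul, ENNReal.toReal_ofReal h0, ENNReal.toReal_ofReal h2] at this

lemma cs {t y y' al be : ℝ} (h0 : 0 < t) (h1 : t < 1) (ha : 0 < al) (hb : 0 < be) :
    1 + (t * y + (1 - t) * y') ^ 2
      ≤ (t * al + (1 - t) * be) * (t * ((1 + y ^ 2) / al) + (1 - t) * ((1 + y' ^ 2) / be)) := by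
  have h2 : 0 < 1 - t := sub_pos.2 h1
  have e : (t * al + (1 - t) * be) * (t * ((1 + y ^ 2) / al) + (1 - t) * ((1 + y' ^ 2) / be))
      - (1 + (t * y + (1 - t) * y') ^ 2)
      = t * (1 - t) * (((al - be) ^ 2 + (al * y' - be * y) ^ 2) / (al * be)) := by
    field_simp; ring
  have : 0 ≤ t * (1 - t) * (((al - be) ^ 2 + (al * y' - be * y) ^ 2) / (al * be)) := by positivity
  linarith

lemma harm {t y y' al be ga p r : ℝ} (h0 : 0 < t) (h1 : t < 1) (ha : 0 < al) (hb : 0 < be)
    (hp : 0 < p) (hr : 0 < r) (hg : t * al + (1 - t) * be ≤ ga) (a1 : p < h y * al)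
    (a2 : r < h y' * be) : 1 / (t / p + (1 - t) / r) < h (t * y + (1 - t) * y') * ga := by
  have h2 : 0 < 1 - t := sub_pos.2 h1
  have hpi := Real.pi_pos
  have b1 : Real.pi * ((1 + y ^ 2) / al) < 1 / p := by
    have : Real.pi * ((1 + y ^ 2) / al) = 1 / (h y * al) := by unfold h; field_simp
    rw [this]; exact one_div_lt_one_div_of_lt hp a1
  have b2 : Real.pi * ((1 + y' ^ 2) / be) < 1 / r := by
    have : Real.pi * ((1 + y' ^ 2) / be) = 1 / (h y' * be) := by unfold h; field_simp
    rw [this]; exact one_div_lt_one_div_of_lt hr a2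
  have c := cs (y := y) (y' := y') h0 h1 ha hb
  set S := t * ((1 + y ^ 2) / al) + (1 - t) * ((1 + y' ^ 2) / be) with hS
  have S0 : 0 < S := by positivity
  have b3 : Real.pi * S < t / p + (1 - t) / r := by
    have e1 : t / p = t * (1 / p) := by ring
    have e2 : (1 - t) / r = (1 - t) * (1 / r) := by ring
    rw [e1, e2, hS]
    nlinarith [mul_lt_mul_of_pos_left b1 h0, mul_lt_mul_of_pos_left b2 h2]
  refine (one_div_lt_one_div_of_lt (by positivity) b3).trans_le ?_
  have c2 : 1 + (t * y + (1 - t) * y') ^ 2 ≤ ga * S :=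
    c.trans (mul_le_mul_of_nonneg_right hg S0.le)
  have e3 : h (t * y + (1 - t) * y') * ga
      = 1 / (Real.pi * S) * (ga * S / (1 + (t * y + (1 - t) * y') ^ 2)) := by
    unfold h; field_simp
  rw [e3]
  exact le_mul_of_one_le_right (by positivity) ((one_le_div (by positivity)).2 c2)

lemma mu_apply {A : Set (ℝ × ℝ)} (hA : MeasurableSet A) :
    mu A = ∫⁻ y, ENNReal.ofReal (h y * (PU (Prod.mk y ⁻¹' A)).toReal) := by
  rw [mu, Measure.prod_apply hA, PY, lintegral_withDensity_eq_lintegral_mul _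
    h_meas.ennreal_ofReal (measurable_measure_prodMk_left hA)]
  refine lintegral_congr fun y => ?_
  rw [ENNReal.ofReal_mul (h_pos y).le, ENNReal.ofReal_toReal (measure_ne_top _ _)]
  rfl

/-- the product of the Cauchy law and the uniform law is a convex measure -/
lemma mu_quasi {A B C : Set (ℝ × ℝ)} (hA : MeasurableSet A) (hB : MeasurableSet B)
    (hC : MeasurableSet C) {t : ℝ} (h0 : 0 < t) (h1 : t < 1)
    (hh : ∀ x ∈ A, ∀ y ∈ B, t • x + (1 - t) • y ∈ C) : min (mu A) (mu B) ≤ mu C := by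
  have m : ∀ {D : Set (ℝ × ℝ)}, MeasurableSet D →
      Measurable fun y => h y * (PU (Prod.mk y ⁻¹' D)).toReal := fun hD =>
    h_meas.mul (measurable_measure_prodMk_left hD).ennreal_toReal
  have n : ∀ (D : Set (ℝ × ℝ)) y, 0 ≤ h y * (PU (Prod.mk y ⁻¹' D)).toReal := fun D y =>
    mul_nonneg (h_pos y).le ENNReal.toReal_nonneg
  have o : ∀ (D : Set (ℝ × ℝ)) y, h y * (PU (Prod.mk y ⁻¹' D)).toReal ≤ 1 := fun D y =>
    mul_le_one₀ (h_le y) ENNReal.toReal_nonneg measureReal_le_one
  rw [mu_apply hA, mu_apply hB, mu_apply hC]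
  refine bbl1 (m hA) (m hB) (m hC) (n A) (n B) (n C) (o A) (o B) h0 h1 ?_
  intro y y' p r hp hr a1 a2
  have p1 : 0 < (PU (Prod.mk y ⁻¹' A)).toReal := (pos_iff_pos_of_mul_pos (hp.trans a1)).1 (h_pos y)
  have p2 : 0 < (PU (Prod.mk y' ⁻¹' B)).toReal :=
    (pos_iff_pos_of_mul_pos (hr.trans a2)).1 (h_pos y')
  refine harm h0 h1 p1 p2 hp hr ?_ a1 a2
  refine PU_bm (measurable_prodMk_left hA) (measurable_prodMk_left hB) (measurable_prodMk_left hC)
    (ENNReal.toReal_pos_iff.1 p1).1.ne' (ENNReal.toReal_pos_iff.1 p2).1.ne' h0.le h1.le ?_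
  intro x hx x' hx'
  exact hh (y, x) hx (y', x') hx'

lemma even_map {f : ℝ → ℝ≥0∞} (hf : ∀ x, f (-x) = f x) :
    (volume.withDensity f).map (fun x => -x) = volume.withDensity f := by
  ext s hs
  rw [Measure.map_apply measurable_neg hs, withDensity_apply _ (measurable_neg hs),
    withDensity_apply _ hs, ← lintegral_indicator (measurable_neg hs), ← lintegral_indicator hs,
    ← lintegral_neg_eq_self (s.indicator f)]
  refine lintegral_congr fun x => ?_
  by_cases hx : -x ∈ s <;> simp [indicator, hx, hf]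

lemma mu_neg : mu.map (fun x => -x) = mu := by
  have e1 : PY.map (fun x => -x) = PY := even_map fun x => by simp [h]
  have e2 : PU.map (fun x => -x) = PU := even_map fun x => by
    congr 1
    simp only [u, indicator, mem_Icc, neg_le_neg_iff, neg_le, and_comm]
  have := Measure.map_prod_map PY PU measurable_neg measurable_neg
  rw [show (Neg.neg : ℝ → ℝ) = fun x => -x from rfl, e1, e2] at this
  exact this.symm

noncomputable def q (w : ℝ) : ℝ≥0∞ := PY (Icc (w - a) (w + a))

lemma q_meas : Measurable q := by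
  have : MeasurableSet {p : ℝ × ℝ | p.1 - a ≤ p.2 ∧ p.2 ≤ p.1 + a} :=
    (measurableSet_le (measurable_fst.sub_const a) measurable_snd).inter
      (measurableSet_le measurable_snd (measurable_fst.add_const a))
  exact measurable_measure_prodMk_left this

lemma q_le (w : ℝ) : q w ≤ 1 := prob_le_one

lemma map_add : mu.map (fun x => x.1 + x.2) = volume.withDensity fun w => k * q w := by
  have := conv_withDensity_eq_lconvolution (μ := (volume : Measure ℝ)) h_meas.ennreal_ofReal
    u_meas.ennreal_ofReal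
  refine Eq.trans this ?_
  congr 1
  ext w
  rw [lconvolution_def, q, PY, withDensity_apply _ measurableSet_Icc,
    ← lintegral_const_mul _ h_meas.ennreal_ofReal, ← lintegral_indicator measurableSet_Icc]
  refine lintegral_congr fun y => ?_
  rw [u_eq]
  by_cases hy : y ∈ Icc (w - a) (w + a)
  · rw [indicator_of_mem hy, indicator_of_mem (by constructor <;> linarith [hy.1, hy.2]), mul_comm]
  · rw [indicator_of_notMem hy, indicator_of_notMem, mul_zero]
    exact fun hc => hy (by constructor <;> linarith [hc.1, hc.2])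

lemma map_fst : mu.map Prod.fst = volume.withDensity fun y => ENNReal.ofReal (h y) := by
  rw [mu, Measure.map_fst_prod]; simp [PY]

lemma map_snd : mu.map Prod.snd = volume.withDensity fun y => ENNReal.ofReal (u y) := by
  rw [mu, Measure.map_snd_prod]; simp [PU]

lemma PY_ge {l r c : ℝ} (hc : ∀ y ∈ Ioc l r, c ≤ h y) (c0 : 0 ≤ c) :
    ENNReal.ofReal (c * (r - l)) ≤ PY (Ioc l r) := by
  rw [PY, withDensity_apply _ measurableSet_Ioc, ENNReal.ofReal_mul c0, ← Real.volume_Ioc,
    ← setLIntegral_const]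
  exact setLIntegral_mono' measurableSet_Ioc fun y hy => ENNReal.ofReal_le_ofReal (hc y hy)

lemma h_ge {y s : ℝ} (hy : 1 + y ^ 2 ≤ s) : 1 / (3.2 * s) ≤ h y := by
  have hp := Real.pi_pos
  have : h y = 1 / (Real.pi * (1 + y ^ 2)) := by unfold h; field_simp
  rw [this]
  refine one_div_le_one_div_of_le (by positivity) ?_
  exact mul_le_mul (by linarith [Real.pi_lt_d2]) hy (by positivity) (by norm_num)

lemma q_low {w : ℝ} (hw : w ∈ Icc (-a) 0) :
    ENNReal.ofReal (1 / 112 * (1 + a + w)⁻¹) ≤ q w * (1 - q w) := by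
  have ha := a_ge
  have s0 : 0 < 1 + a + w := by linarith [hw.1]
  have b1 : ENNReal.ofReal (1 / 7) ≤ q w := by
    refine le_trans ?_ ((PY_ge (l := -1) (r := 0) (c := 1 / (3.2 * 2))
      (fun y hy => h_ge (by nlinarith [hy.1, hy.2])) (by norm_num)).trans
        (measure_mono fun y hy => ⟨by linarith [hy.1, hw.2], by linarith [hy.2, hw.1]⟩))
    exact ENNReal.ofReal_le_ofReal (by norm_num)
  have b2 : ENNReal.ofReal (1 / 16 * (1 + a + w)⁻¹) ≤ 1 - q w := by
    rw [q, ← prob_compl_eq_one_sub measurableSet_Icc]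
    refine le_trans ?_ ((PY_ge (l := w + a) (r := 2 * (w + a) + 1)
      (c := 1 / (3.2 * (5 * (1 + a + w) ^ 2)))
      (fun y hy => h_ge (by nlinarith [hy.1, hy.2, hw.1])) (by positivity)).trans
        (measure_mono fun y hy hc => by linarith [hy.1, hc.2]))
    refine ENNReal.ofReal_le_ofReal (le_of_eq ?_)
    field_simp; ring
  refine le_trans (le_of_eq ?_) (mul_le_mul' b1 b2)
  rw [← ENNReal.ofReal_mul (by norm_num)]
  congr 1; ring

lemma J_low : ENNReal.ofReal 40 ≤ ∫⁻ w, q w * (1 - q w) := by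
  have ha := a_pos
  have hc : ContinuousOn (fun w : ℝ => 1 / 112 * (1 + a + w)⁻¹) (Icc (-a) 0) :=
    continuousOn_const.mul (ContinuousOn.inv₀ (by fun_prop) fun w hw => by linarith [hw.1])
  have e : ∫ w in (-a)..0, 1 / 112 * (1 + a + w)⁻¹ = 40 := by
    rw [intervalIntegral.integral_eq_sub_of_hasDerivAt (f := fun w => 1 / 112 * Real.log (1 + a + w))]
    · have : 1 + a + 0 = Real.exp 4480 := by unfold a; ring
      rw [this, Real.log_exp, show 1 + a + -a = 1 by ring, Real.log_one]; norm_num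
    · intro w hw
      rw [uIcc_of_le (by linarith)] at hw
      have := (((hasDerivAt_id w).const_add (1 + a)).log (by simp only [id]; linarith [hw.1])).const_mul (1 / 112)
      simpa using this
    · exact (hc.mono (by rw [uIcc_of_le (by linarith)])).intervalIntegrable
  rw [← e, intervalIntegral.integral_of_le (by linarith), ← integral_Icc_eq_integral_Ioc,
    ofReal_integral_eq_lintegral_ofReal hc.integrableOn_Icc
      ((ae_restrict_iff' measurableSet_Icc).2 (Filter.Eventually.of_forall fun w hw => by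
        have : 0 < 1 + a + w := by linarith [hw.1]
        simp only [Pi.zero_apply]; positivity))]
  exact (setLIntegral_mono' measurableSet_Icc fun w hw => q_low hw).trans
    (setLIntegral_le_lintegral _ _)

lemma k_ne : k ≠ 0 := left_ne_zero_of_mul_eq_one k_mul

lemma q_int : ∫⁻ w, q w = ENNReal.ofReal (2 * a) := by
  have h1 : (mu.map (fun x => x.1 + x.2)) univ = 1 := by
    rw [Measure.map_apply (by fun_prop) MeasurableSet.univ]; simp
  rw [map_add, withDensity_apply _ MeasurableSet.univ, Measure.restrict_univ,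
    lintegral_const_mul _ q_meas, ← k_mul] at h1
  exact (ENNReal.mul_right_inj k_ne ENNReal.ofReal_ne_top).1 h1

lemma IW : ∫⁻ w, (k * q w) ^ 2 ≤ ENNReal.ofReal (1 / (2 * a + 40)) := by
  have ha := a_ge
  have e1 : (∫⁻ w, q w ^ 2) + ∫⁻ w, q w * (1 - q w) = ENNReal.ofReal (2 * a) := by
    rw [← lintegral_add_left (q_meas.pow_const 2), ← q_int]
    refine lintegral_congr fun w => ?_
    rw [sq, ← mul_add, add_tsub_cancel_of_le (q_le w), mul_one]
  have e2 : ∫⁻ w, q w ^ 2 ≤ ENNReal.ofReal (2 * a - 40) := by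
    rw [ENNReal.ofReal_sub _ (by norm_num)]
    refine ENNReal.le_sub_of_add_le_right ENNReal.ofReal_ne_top ?_
    rw [← e1]; exact add_le_add le_rfl J_low
  simp_rw [mul_pow]
  rw [lintegral_const_mul _ (q_meas.pow_const 2)]
  refine (mul_le_mul_right e2 _).trans ?_
  rw [k, ← ENNReal.ofReal_pow (by positivity), ← ENNReal.ofReal_mul (by positivity)]
  refine ENNReal.ofReal_le_ofReal ?_
  rw [div_pow, div_mul_eq_mul_div, div_le_div_iff₀ (by positivity) (by positivity)]
  nlinarith

lemma IU : ∫⁻ x, ENNReal.ofReal (u x) ^ 2 = ENNReal.ofReal (1 / (2 * a)) := by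
  have : ∀ x, ENNReal.ofReal (u x) ^ 2 = (Icc (-a) a).indicator (fun _ => k ^ 2) x := by
    intro x; rw [u_eq]; by_cases hx : x ∈ Icc (-a) a <;> simp [hx]
  simp_rw [this]
  rw [lintegral_indicator measurableSet_Icc, setLIntegral_const, Real.volume_Icc,
    show a - -a = 2 * a by ring, sq, mul_assoc, k_mul, mul_one, k]

lemma IV : ENNReal.ofReal (1 / 30) ≤ ∫⁻ y, ENNReal.ofReal (h y) ^ 2 := by
  refine le_trans ?_ (setLIntegral_le_lintegral (Icc (-1) 1) _)
  refine le_trans ?_ (setLIntegral_mono' (f := fun _ => ENNReal.ofReal (1 / (3.2 * 2)) ^ 2)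
    measurableSet_Icc fun y hy => pow_le_pow_left₀ zero_le
      (ENNReal.ofReal_le_ofReal (h_ge (by nlinarith [hy.1, hy.2]))) 2)
  rw [setLIntegral_const, Real.volume_Icc, ← ENNReal.ofReal_pow (by norm_num),
    ← ENNReal.ofReal_mul (by norm_num)]
  exact ENNReal.ofReal_le_ofReal (by norm_num)

/-- failure of the triangle inequality for the order two entropy power -/
lemma fail : ¬ ((∫⁻ w, (k * q w) ^ 2)⁻¹
    ≤ (∫⁻ y, ENNReal.ofReal (h y) ^ 2)⁻¹ + (∫⁻ x, ENNReal.ofReal (u x) ^ 2)⁻¹) := by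
  have ha := a_ge
  intro H
  have a1 := ENNReal.inv_le_inv.2 IW
  have a2 := ENNReal.inv_le_inv.2 IV
  rw [IU] at H
  have a3 := (a1.trans H).trans (add_le_add a2 le_rfl)
  rw [← ENNReal.ofReal_inv_of_pos (by positivity), ← ENNReal.ofReal_inv_of_pos (by positivity),
    ← ENNReal.ofReal_inv_of_pos (by positivity), ← ENNReal.ofReal_add (by positivity) (by positivity),
    ENNReal.ofReal_le_ofReal_iff (by positivity)] at a3
  simp only [one_div, inv_inv] at a3
  linarith

lemma dens_le {f : ℝ → ℝ} (hf : ∀ x, f x ≤ 1) (S : Set ℝ) :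
    (volume.withDensity fun x => ENNReal.ofReal (f x)) S ≤ volume S := by
  have := withDensity_mono (μ := (volume : Measure ℝ)) (f := fun x => ENNReal.ofReal (f x))
    (g := 1) (Filter.Eventually.of_forall fun x => ENNReal.ofReal_le_one.2 (hf x))
  rw [withDensity_one] at this
  exact this S

lemma lin_le (r s : ℝ) (hr : r ≠ 0 ∨ s ≠ 0) : ∃ c : ℝ≥0∞, c ≠ ⊤ ∧ ∀ S, MeasurableSet S →
    mu.map (fun x => r * x.1 + s * x.2) S ≤ c * volume S := by
  have hm : Measurable fun x : ℝ × ℝ => r * x.1 + s * x.2 := by fun_prop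
  rcases hr with hr | hs
  · refine ⟨ENNReal.ofReal |r⁻¹|, ENNReal.ofReal_ne_top, fun S hS => ?_⟩
    rw [Measure.map_apply hm hS, mu, Measure.prod_apply_symm (hm hS)]
    refine (lintegral_mono (g := fun _ => ENNReal.ofReal |r⁻¹| * volume S) fun y => ?_).trans
      (by simp)
    refine (dens_le h_le _).trans (le_of_eq ?_)
    rw [← measure_preimage_add_right volume (s * y) S, ← Real.volume_preimage_mul_left hr]
    rfl
  · refine ⟨ENNReal.ofReal |s⁻¹|, ENNReal.ofReal_ne_top, fun S hS => ?_⟩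
    rw [Measure.map_apply hm hS, mu, Measure.prod_apply (hm hS)]
    refine (lintegral_mono (g := fun _ => ENNReal.ofReal |s⁻¹| * volume S) fun y => ?_).trans
      (by simp)
    refine (dens_le u_le _).trans (le_of_eq ?_)
    rw [← measure_preimage_add volume (r * y) S, ← Real.volume_preimage_mul_left hs]
    rfl

lemma bdd_dens {ν : Measure ℝ} [IsProbabilityMeasure ν] {c : ℝ≥0∞} (hc : c ≠ ⊤)
    (hν : ∀ S, MeasurableSet S → ν S ≤ c * volume S) :
    ν = volume.withDensity (ν.rnDeriv volume) ∧ (∫⁻ x, ν.rnDeriv volume x ^ 2) ≠ 0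
      ∧ (∫⁻ x, ν.rnDeriv volume x ^ 2) ≠ ⊤ := by
  have hac : ν ≪ volume := Measure.AbsolutelyContinuous.mk fun S hS h0 => by
    simpa [h0] using hν S hS
  have e := Measure.withDensity_rnDeriv_eq ν volume hac
  have hm := Measure.measurable_rnDeriv ν volume
  refine ⟨e.symm, fun h0 => ?_, ?_⟩
  · rw [lintegral_eq_zero_iff (hm.pow_const 2)] at h0
    have h1 : ν.rnDeriv volume =ᵐ[volume] 0 := by
      filter_upwards [h0] with x hx
      simpa using hx
    rw [withDensity_congr_ae h1, withDensity_zero] at e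
    exact IsProbabilityMeasure.ne_zero ν e.symm
  · have h1 : ν.rnDeriv volume ≤ᵐ[volume] fun _ => c :=
      ae_le_of_forall_setLIntegral_le_of_sigmaFinite hm fun s hs _ => by
        rw [setLIntegral_const]
        exact (Measure.setLIntegral_rnDeriv_le s).trans (hν s hs)
    have h2 : ∫⁻ x, ν.rnDeriv volume x ^ 2 ≤ ∫⁻ x, c * ν.rnDeriv volume x := by
      refine lintegral_mono_ae ?_
      filter_upwards [h1] with x hx
      rw [sq]; exact mul_le_mul_left hx _
    rw [lintegral_const_mul _ hm] at h2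
    exact ne_top_of_le_ne_top (ENNReal.mul_ne_top hc
      (ne_top_of_le_ne_top (measure_ne_top ν univ) Measure.lintegral_rnDeriv_le)) h2

lemma mu_ac : mu ≪ volume :=
  (withDensity_absolutelyContinuous _ _).prod (withDensity_absolutelyContinuous _ _)

end Pool.Agent.Lib.helper1.Cau
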