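import Mathlib

set_option autoImplicit false

namespace Pool.Agent.Lib.helper1.Cs

open Finset

def Fast {N : ℕ} (P : Fin N → Equiv.Perm (Fin N)) : Prop :=
  ∀ n d : Fin N, d.val + 1 = N → P n d = n

def sends {N : ℕ} (P : Fin N → Equiv.Perm (Fin N)) : Finset (Fin N × Fin N × Fin N) :=
  {e | ∃ n d' : Fin N, d'.val = e.1.val + 1 ∧ P n e.1 = e.2.1 ∧ P n d' = e.2.2}

lemma mk {N : ℕ} (f : Fin N → ℕ → ℕ) (h1 : ∀ n, ∀ d < N, f n d < N)
    (h2 : ∀ n, ∀ d < N, ∀ d' < N, f n d = f n d' → d = d') :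
    ∃ P : Fin N → Equiv.Perm (Fin N), ∀ n d, (P n d).val = f n d :=
  ⟨fun n => Equiv.ofBijective (fun d => ⟨f n d, h1 n d d.2⟩) (Finite.injective_iff_bijective.1
    fun d d' h => Fin.ext (h2 n d d.2 d' d'.2 (congrArg Fin.val h))), fun _ _ => rfl⟩

theorem small {N : ℕ} (hN : 2 ≤ N) : ∃ P : Fin N → Equiv.Perm (Fin N), Fast P ∧
    ∀ i, #{e ∈ sends P | e.2.1 = i} ≤ 2 * Nat.sqrt N + 13 := by
  set m := Nat.sqrt N + 1 with hm
  have m2 : 2 ≤ m := by
    have := Nat.sqrt_pos.2 (show 0 < N by omega)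
    omega
  have mN : N < m * m := Nat.lt_succ_sqrt N
  obtain ⟨g, g1, g2, g3, g4⟩ : ∃ g : ℕ → ℕ, (∀ n < N, g n < N) ∧ (∀ n, g n ≠ n) ∧
      (∀ n < N, g n < m) ∧ ∀ n, n = 0 ∨ (g n * m ≤ n ∧ n < g n * m + m) := by
    refine ⟨fun n => if n = 0 then 1 else n / m, fun n hn => ?_, fun n => ?_, fun n hn => ?_,
      fun n => ?_⟩ <;> dsimp only <;> split_ifs with h
    · omega
    · exact (Nat.div_le_self _ _).trans_lt hn
    · omega
    · exact (Nat.div_lt_self (by omega) m2).ne
    · omega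
    · exact Nat.div_lt_of_lt_mul (hn.trans mN)
    · exact .inl h
    · exact .inr ⟨Nat.div_mul_le_self _ _, Nat.lt_div_mul_add (by omega)⟩
  obtain ⟨P, hP⟩ := mk (N := N) (fun n d => if d + 1 = N then n else if d + 2 = N then g n else
      if d < min n.val (g n) then d else if d + 1 < max n.val (g n) then d + 1 else d + 2)
    (fun n d hd => by have := g1 n n.2; have := n.2; split_ifs <;> omega)
    (fun n d hd d' hd' => by have := g2 n; split_ifs <;> omega)
  refine ⟨P, fun n d h => Fin.ext (by rw [hP, if_pos h]), fun i => ?_⟩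
  refine le_trans (card_le_card_of_injOn (t := Icc (i.val - 2) i ×ˢ Icc (i.val + 1) (i + 3) ∪
    ({N - 3} ×ˢ range m ∪ {N - 2} ×ˢ insert 0 (Ico (i * m) (i * m + m))))
    (fun e => (e.1.val, e.2.2.val)) (fun e he => ?_) fun e he e' he' h => ?_) ?_
  · simp only [sends, coe_filter, mem_filter, mem_univ, true_and, Set.mem_ofPred_eq] at he
    obtain ⟨⟨n, d', h1, h2, h3⟩, h4⟩ := he
    have a := hP n e.1
    have b := hP n d'
    rw [h2, h4] at a
    rw [h3, h1] at b
    have := d'.2
    have := g3 n n.2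
    have := g2 n
    have c := g4 n
    simp only [coe_union, coe_product, Set.mem_union, Set.mem_prod, mem_coe, mem_Icc, mem_singleton,
      mem_range, mem_insert, mem_Ico]
    by_cases h5 : e.1.val + 2 = N
    · rw [if_neg (by omega), if_pos h5] at a
      rw [if_pos (by omega)] at b
      rw [a, b]
      omega
    · split_ifs at a b <;> omega
  · simp only [coe_filter, Set.mem_ofPred_eq] at he he'
    simp only [Prod.mk.injEq] at h
    exact Prod.ext (Fin.ext h.1) (Prod.ext (he.2.trans he'.2.symm) (Fin.ext h.2))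
  · refine (card_union_le _ _).trans ((Nat.add_le_add_left (card_union_le _ _) _).trans ?_)
    have := card_insert_le 0 (Ico (i * m) (i * m + m))
    simp only [card_product, Nat.card_Icc, card_singleton, card_range, Nat.card_Ico] at this ⊢
    have : (i.val + 1 - (i - 2)) * (i + 3 + 1 - (i + 1)) ≤ 3 * 3 :=
      Nat.mul_le_mul (by omega) (by omega)
    omega

theorem neg (c : ℝ) (hc : 0 < c) : ∃ N, 2 ≤ N ∧ ∃ P : Fin N → Equiv.Perm (Fin N), Fast P ∧
    ∀ i, (#{e ∈ sends P | e.2.1 = i} : ℝ) < c * N := by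
  obtain ⟨k, hk⟩ := exists_nat_gt (max 13 (3 / c))
  have k1 : (13 : ℝ) < k := (le_max_left _ _).trans_lt hk
  have k2 : 3 < k * c := (div_lt_iff₀ hc).1 ((le_max_right _ _).trans_lt hk)
  have k3 : 13 < k := by exact_mod_cast k1
  obtain ⟨P, h1, h2⟩ := small (N := k * k) (by nlinarith)
  refine ⟨k * k, by nlinarith, P, h1, fun i => ?_⟩
  have := h2 i
  rw [Nat.sqrt_eq] at this
  have : (#{e ∈ sends P | e.2.1 = i} : ℝ) ≤ 2 * k + 13 := by exact_mod_cast this
  push_cast
  nlinarith

theorem upper {N : ℕ} (hN : 2 ≤ N) : ∃ P : Fin N → Equiv.Perm (Fin N), Fast P ∧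
    #(sends P) ≤ 4 * N - 6 := by
  obtain ⟨P, hP⟩ := mk (N := N) (fun n d => if d + 1 = N then n else if d < n.val then d else d + 1)
    (fun n d hd => by have := n.2; split_ifs <;> omega)
    (fun n d hd d' hd' => by split_ifs <;> omega)
  refine ⟨P, fun n d h => Fin.ext (by rw [hP, if_pos h]), ?_⟩
  refine le_trans (card_le_card_of_injOn (t := range (N - 2) ×ˢ range 3 ∪ {N - 2} ×ˢ range N)
    (fun e => (e.1.val, if e.1.val + 2 = N then e.2.2.val else e.2.1 + e.2.2 - 2 * e.1 - 1))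
    (fun e he => ?_) fun e he e' he' h => ?_) ?_
  · simp only [sends, coe_filter, mem_univ, true_and, Set.mem_ofPred_eq] at he
    obtain ⟨n, d', h1, h2, h3⟩ := he
    have a := hP n e.1
    have b := hP n d'
    rw [h2] at a
    rw [h3, h1] at b
    have := d'.2
    have := n.2
    simp only [coe_union, coe_product, Set.mem_union, Set.mem_prod, mem_coe, mem_singleton, mem_range]
    split_ifs at a b ⊢ <;> omega
  · simp only [sends, coe_filter, mem_univ, true_and, Set.mem_ofPred_eq] at he he'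
    obtain ⟨n, d, h1, h2, h3⟩ := he
    obtain ⟨n', d', h1', h2', h3'⟩ := he'
    have a := hP n e.1
    have b := hP n d
    have a' := hP n' e'.1
    have b' := hP n' d'
    rw [h2] at a
    rw [h3, h1] at b
    rw [h2'] at a'
    rw [h3', h1'] at b'
    have := d.2
    simp only [Prod.mk.injEq] at h
    obtain ⟨h4, h5⟩ := h
    rw [← h4] at h5 a' b'
    refine Prod.ext (Fin.ext h4) (Prod.ext (Fin.ext ?_) (Fin.ext ?_)) <;>
      split_ifs at a b a' b' h5 <;> omega
  · refine (card_union_le _ _).trans ?_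
    simp only [card_product, card_singleton, card_range]
    omega

end Pool.Agent.Lib.helper1.Cs
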