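import Pool.Agent.Lib.helper1.Cs1

set_option autoImplicit false

namespace Pool.Agent.Lib.helper1.Cs

open Finset

lemma early {K : ℕ} (P : Fin (K + 3) → Equiv.Perm (Fin (K + 3))) (hP : Fast P) :
    3 * K + 3 ≤ #{e ∈ sends P | e.1.val + 2 < K + 3} := by
  set A := {e ∈ sends P | e.1.val + 2 < K + 3} with hA
  set o : ℕ → Fin (K + 3) := Fin.ofNat (K + 3) with ho
  have ov : ∀ d < K + 3, (o d).val = d := fun d h => Nat.mod_eq_of_lt h
  set ed : Fin (K + 3) → ℕ → Fin (K + 3) × Fin (K + 3) × Fin (K + 3) :=
    fun n d => (o d, P n (o d), P n (o (d + 1))) with hed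
  have eA : ∀ n, ∀ d < K + 1, ed n d ∈ A := fun n d h => by
    simp only [hA, sends, mem_filter, mem_univ, true_and, hed, ov d (by omega)]
    exact ⟨⟨n, o (d + 1), ov _ (by omega), rfl, rfl⟩, by omega⟩
  set ct : Fin (K + 3) ⊕ Fin K × Bool → Fin (K + 3) :=
    Sum.elim id fun q => if q.2 then P 0 (o (q.1 + 1)) else 0 with hct
  set ln : Fin (K + 3) ⊕ Fin K × Bool → ℕ := Sum.elim (fun _ => K + 1) fun q => q.1 + 1 with hln
  have l1 : ∀ i, ln i ≤ K + 1 := fun i => by
    rcases i with n | q
    · rfl
    · exact Nat.succ_le_succ q.1.2.le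
  have last : ∀ n, P n (o (K + 2)) = n := fun n => hP n _ (by rw [ov _ (by omega)])
  have li : LinearIndependent ℝ fun i (e : A) =>
      ∑ d ∈ range (ln i), if ed (ct i) d = e then (1 : ℝ) else 0 := by
    refine Fintype.linearIndependent_iff.2 fun g hg => ?_
    have test : ∀ ψ : Fin (K + 3) × Fin (K + 3) × Fin (K + 3) → ℝ,
        ∑ i, g i * ∑ d ∈ range (ln i), ψ (ed (ct i) d) = 0 := fun ψ => by
      have : ∑ e : A, ψ e * ∑ i, g i * ∑ d ∈ range (ln i), (if ed (ct i) d = e then (1 : ℝ) else 0)
          = 0 := sum_eq_zero fun e _ => by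
        have := congrFun hg e
        simp only [Finset.sum_apply, Pi.smul_apply, smul_eq_mul, Pi.zero_apply] at this
        rw [this, mul_zero]
      rw [← this]
      simp only [mul_sum]
      rw [sum_comm (s := (univ : Finset A))]
      refine sum_congr rfl fun i _ => ?_
      rw [sum_comm]
      refine sum_congr rfl fun d hd => ?_
      rw [sum_eq_single ⟨_, eA (ct i) d ((mem_range.1 hd).trans_le (l1 i))⟩
        (fun e _ h => by rw [if_neg fun h' => h (Subtype.ext h'.symm)]; simp) (by simp)]
      simp [mul_comm]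
    have node : ∀ (D : Fin K) (v : Fin (K + 3)), (g (.inr (D, true)) *
        if P (P 0 (o (D + 1))) (o (D + 1)) = v then 1 else 0) +
        (g (.inr (D, false)) * if P 0 (o (D + 1)) = v then 1 else 0) = 0 := fun D v => by
      set u : ℕ → Fin (K + 3) → ℝ := fun d j => if d = D + 1 ∧ j = v then 1 else 0 with hu
      have := test fun e => u (e.1.val + 1) e.2.2 - u e.1.val e.2.1
      have e : ∀ i, ∑ d ∈ range (ln i), (u ((ed (ct i) d).1.val + 1) (ed (ct i) d).2.2 -
          u (ed (ct i) d).1.val (ed (ct i) d).2.1) = u (ln i) (P (ct i) (o (ln i))) := fun i => by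
        rw [sum_congr rfl (g := fun d => u (d + 1) (P (ct i) (o (d + 1))) - u d (P (ct i) (o d)))
          fun d hd => by
            have := (mem_range.1 hd).trans_le (l1 i)
            simp only [hed, ov d (by omega)],
          sum_range_sub fun d => u d (P (ct i) (o d))]
        simp [hu]
      simp only [e, Fintype.sum_sum_type, Fintype.sum_prod_type] at this
      rw [sum_eq_zero fun n _ => by simp [hu, hln, D.2.ne'], zero_add, sum_eq_single D
        (fun d _ h => by simp [hu, hln, Fin.val_ne_of_ne h]) (by simp)] at this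
      simpa [hu, hln, hct] using this
    have ne : ∀ D : Fin K, P (P 0 (o (D + 1))) (o (D + 1)) ≠ P 0 (o (D + 1)) := fun D h => by
      have := congrArg Fin.val ((P _).injective (h.trans (last _).symm))
      have := D.2
      rw [ov _ (by omega), ov _ (by omega)] at *
      omega
    have z : ∀ q, g (.inr q) = 0 := by
      rintro ⟨D, _ | _⟩
      · simpa [ne D] using node D (P 0 (o (D + 1)))
      · simpa [(ne D).symm] using node D (P (P 0 (o (D + 1))) (o (D + 1)))
    have lab : ∀ l, ∑ n, g (.inl n) = g (.inl l) := fun l => by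
      have := test fun e => (if e.2.2 = l then 1 else 0) + if e.1.val = 0 ∧ e.2.1 = l then 1 else 0
      have e : ∀ n, ∑ d ∈ range (K + 1), ((if (ed n d).2.2 = l then (1 : ℝ) else 0) +
          if (ed n d).1.val = 0 ∧ (ed n d).2.1 = l then 1 else 0) = 1 - if n = l then 1 else 0 :=
        fun n => by
          have h1 : ∑ d ∈ range (K + 3), (if P n (o d) = l then (1 : ℝ) else 0) = 1 := by
            rw [sum_range]
            simp only [ho, Fin.ofNat_val_eq_self]
            rw [Equiv.sum_comp (P n) fun j => if j = l then (1 : ℝ) else 0]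
            simp
          rw [sum_range_succ, last, sum_range_succ'] at h1
          rw [sum_add_distrib, sum_eq_single 0 (f := fun d =>
            if (ed n d).1.val = 0 ∧ (ed n d).2.1 = l then (1 : ℝ) else 0) (fun d hd h => by
              have := mem_range.1 hd
              simp [hed, ov d (by omega), h]) (by simp)]
          simp only [hed, ov 0 (by omega), true_and]
          linarith
      simp only [Fintype.sum_sum_type, z, zero_mul, sum_const_zero, add_zero, hln, hct,
        Sum.elim_inl, id] at this
      replace this := (sum_congr rfl fun n _ => congrArg (g (.inl n) * ·) (e n)).symm.trans this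
      simp only [mul_sub, mul_one, sum_sub_distrib, mul_ite, mul_zero, sum_ite_eq',
        mem_univ, if_true] at this
      linarith
    have h0 : ∑ n, g (.inl n) = 0 := by
      have := sum_congr rfl fun l (_ : l ∈ univ) => lab l
      simp only [sum_const, card_univ, Fintype.card_fin, nsmul_eq_mul] at this
      push_cast at this
      have h : ((K : ℝ) + 2) * ∑ n, g (.inl n) = 0 := by linarith
      exact (mul_eq_zero.1 h).resolve_left (by positivity)
    rintro (n | q)
    · rw [← lab, h0]
    · exact z q
  have := li.fintype_card_le_finrank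
  simp only [Module.finrank_fintype_fun_eq_card, Fintype.card_coe, Fintype.card_sum,
    Fintype.card_fin, Fintype.card_prod, Fintype.card_bool] at this
  omega

theorem lower {N : ℕ} (hN : 2 ≤ N) (P : Fin N → Equiv.Perm (Fin N)) (hP : Fast P) :
    4 * N - 6 ≤ #(sends P) := by
  have h1 : #(univ : Finset (Fin N)) ≤ #{e ∈ sends P | ¬ e.1.val + 2 < N} :=
    card_le_card_of_injOn (fun n => (⟨N - 2, by omega⟩, P n ⟨N - 2, by omega⟩, n))
      (fun n _ => by
        simp only [sends, coe_filter, mem_filter, mem_univ, true_and, Set.mem_ofPred_eq]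
        exact ⟨⟨n, ⟨N - 1, by omega⟩, by dsimp only; omega, rfl, hP _ _ (by dsimp only; omega)⟩,
          by omega⟩) fun n _ n' _ h => congrArg (·.2.2) h
  have h2 := card_filter_add_card_filter_not (s := sends P) fun e => e.1.val + 2 < N
  rw [card_univ, Fintype.card_fin] at h1
  obtain rfl | ⟨K, rfl⟩ : N = 2 ∨ ∃ K, N = K + 3 := by
    rcases hN.eq_or_lt with h | h
    exacts [.inl h.symm, .inr ⟨N - 3, by omega⟩]
  · omega
  · have := early P hP
    omega

theorem least {N : ℕ} (hN : 2 ≤ N) :
    IsLeast {c | ∃ P : Fin N → Equiv.Perm (Fin N), Fast P ∧ #(sends P) = c} (4 * N - 6) := by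
  obtain ⟨P, h1, h2⟩ := upper hN
  exact ⟨⟨P, h1, le_antisymm h2 (lower hN P h1)⟩, by rintro _ ⟨Q, h, rfl⟩; exact lower hN Q h⟩

end Pool.Agent.Lib.helper1.Cs
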