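import Mathlib

set_option autoImplicit false

namespace Pool.Agent.Lib.helper1.CvxP

open Finset MeasureTheory ProbabilityTheory Filter Topology

variable {n : ℕ}

abbrev fl (i : Fin n) (s : Fin n → Bool) : Fin n → Bool := Function.update s i (!(s i))

lemma sum_cons (F : (Fin (n + 1) → Bool) → ℝ) :
    ∑ s, F s = ∑ y, (F (Fin.cons true y) + F (Fin.cons false y)) := by
  rw [← (Fin.consEquiv fun _ => Bool).sum_comp, Fintype.sum_prod_type_right]
  simp [Fin.consEquiv]

lemma es (h : (Fin n → Bool) → ℝ) :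
    2 ^ n * ∑ s, h s ^ 2 - (∑ s, h s) ^ 2 ≤ 2 ^ n / 4 * ∑ i, ∑ s, (h s - h (fl i s)) ^ 2 := by
  induction n with
  | zero => simp
  | succ n ih =>
    have := ih fun y => h (Fin.cons true y) + h (Fin.cons false y)
    have e : ∀ (i : Fin n) b y, fl i.succ (Fin.cons b y) = Fin.cons b (fl i y) := fun i b y => by
      rw [fl, Fin.cons_succ, ← Fin.cons_update]
    simp only [sum_cons, Fin.sum_univ_succ, e, Fin.cons_zero, Fin.update_cons_zero, Bool.not_true,
      Bool.not_false]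
    have a : ∑ i, ∑ y, (h (Fin.cons true y) + h (Fin.cons false y) - (h (Fin.cons true (fl i y)) +
        h (Fin.cons false (fl i y)))) ^ 2 ≤ 2 * ∑ i, ∑ y, ((h (Fin.cons true y) -
        h (Fin.cons true (fl i y))) ^ 2 + (h (Fin.cons false y) - h (Fin.cons false (fl i y))) ^ 2) := by
      simp only [mul_sum]
      exact sum_le_sum fun i _ => sum_le_sum fun y _ => by
        nlinarith [sq_nonneg (h (Fin.cons true y) - h (Fin.cons true (fl i y)) -
          (h (Fin.cons false y) - h (Fin.cons false (fl i y))))]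
    have b : 4 * ∑ y, (h (Fin.cons true y) ^ 2 + h (Fin.cons false y) ^ 2) =
        2 * ∑ y, (h (Fin.cons true y) + h (Fin.cons false y)) ^ 2 + ∑ y, ((h (Fin.cons true y) -
        h (Fin.cons false y)) ^ 2 + (h (Fin.cons false y) - h (Fin.cons true y)) ^ 2) := by
      simp only [mul_sum, ← sum_add_distrib]
      exact sum_congr rfl fun y _ => by ring
    have p : (0 : ℝ) < 2 ^ n := by positivity
    rw [pow_succ 2]
    nlinarith [mul_le_mul_of_nonneg_left a p.le]

abbrev E (n : ℕ) := EuclideanSpace ℝ (Fin n)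

noncomputable def pt (s : Fin n → Bool) : E n := WithLp.toLp 2 fun i => if s i then 1 else -1

lemma pt_norm (s : Fin n → Bool) : ‖pt s‖ = √n := by
  rw [EuclideanSpace.norm_eq, sum_congr rfl (g := fun _ => 1) fun i _ => by
    cases h : s i <;> simp [pt, h]]
  simp

variable {g : E n → ℝ}

lemma grad (hg : ConvexOn ℝ Set.univ g) (s : Fin n → Bool) {σ : ℝ}
    (h : ∀ y, g (pt s) - g y ≤ σ * dist y (pt s)) :
    ∑ i, max (g (pt s) - g (pt (fl i s))) 0 ^ 2 ≤ 4 * σ ^ 2 := by
  set a := fun i => max (g (pt s) - g (pt (fl i s))) 0 with ha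
  have a0 : ∀ i, 0 ≤ a i := fun i => le_max_right _ _
  rcases (sum_nonneg fun i (_ : i ∈ univ) => a0 i).eq_or_lt with k | k
  · have := (sum_eq_zero_iff_of_nonneg fun i _ => a0 i).1 k.symm
    rw [sum_eq_zero fun i hi => by rw [show max _ _ = a i from rfl, this i hi]; simp]
    positivity
  set A := ∑ i, a i
  have w : ∑ i, a i / A = 1 := by rw [← sum_div, div_self k.ne']
  have J := hg.map_sum_le (t := univ) (w := fun i => a i / A) (p := fun i => pt (fl i s))
    (fun i _ => div_nonneg (a0 i) k.le) w fun _ _ => trivial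
  have d : dist (∑ i, (a i / A) • pt (fl i s)) (pt s) = 2 * √(∑ i, a i ^ 2) / A := by
    rw [EuclideanSpace.dist_eq, sum_congr rfl (g := fun j => a j ^ 2 * (2 / A) ^ 2) fun j _ => ?_,
      ← sum_mul, Real.sqrt_mul' _ (sq_nonneg _), Real.sqrt_sq (by positivity)]
    · ring
    have : ∀ i, a i / A * pt (fl i s) j = a i / A * pt s j + if i = j then
        -2 * (a j / A) * pt s j else 0 := fun i => by
      by_cases e : i = j
      · subst e; cases k : s i <;> simp [pt, fl, k] <;> ring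
      · simp [pt, fl, e, Ne.symm e]
    simp only [WithLp.ofLp_sum, WithLp.ofLp_smul, Finset.sum_apply, Pi.smul_apply, smul_eq_mul,
      this, sum_add_distrib, ← sum_mul, w, sum_ite_eq', mem_univ, if_true, Real.dist_eq, sq_abs]
    cases k : s j <;> simp [pt, k] <;> ring
  have e : ∑ i, (a i / A) • g (pt (fl i s)) = g (pt s) - (∑ i, a i ^ 2) / A := by
    rw [← one_mul (g (pt s)), ← w, sum_mul, sum_div, ← sum_sub_distrib]
    refine sum_congr rfl fun i _ => ?_
    simp only [ha, smul_eq_mul, max_def]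
    split_ifs <;> ring
  have := h (∑ i, (a i / A) • pt (fl i s))
  rw [d] at this
  have q : (∑ i, a i ^ 2) / A ≤ σ * 2 * √(∑ i, a i ^ 2) / A := by
    linarith [mul_div_assoc (σ * 2) (√(∑ i, a i ^ 2)) A, show σ * (2 * √(∑ i, a i ^ 2) / A) =
      σ * 2 * (√(∑ i, a i ^ 2) / A) by ring]
  rw [div_le_div_iff_of_pos_right k] at q
  have r := Real.sq_sqrt (sum_nonneg fun i (_ : i ∈ univ) => sq_nonneg (a i))
  change ∑ i, a i ^ 2 ≤ _
  nlinarith [sq_nonneg (√(∑ i, a i ^ 2) - 2 * σ)]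

lemma real_ineq (hg : ConvexOn ℝ Set.univ g) {σ : (Fin n → Bool) → ℝ}
    (h : ∀ s y, g (pt s) - g y ≤ σ s * dist y (pt s)) : ∃ c : ℝ,
    ∑ s, (g (pt s) - c) ^ 2 ≤ 2 * ∑ s, σ s ^ 2 ∧ 2 ^ n * (g 0 - c) ^ 2 ≤ n * ∑ s, σ s ^ 2 := by
  have p : (0 : ℝ) < 2 ^ n := by positivity
  obtain ⟨c, hc⟩ : ∃ c, ∑ s, g (pt s) = 2 ^ n * c := ⟨_, (mul_div_cancel₀ _ p.ne').symm⟩
  refine ⟨c, ?_, ?_⟩
  · have a := es fun s => g (pt s)
    have b : ∑ i, ∑ s, (g (pt s) - g (pt (fl i s))) ^ 2 =
        2 * ∑ s, ∑ i, max (g (pt s) - g (pt (fl i s))) 0 ^ 2 := by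
      rw [sum_comm (f := fun s i => max _ 0 ^ 2), mul_sum]
      refine sum_congr rfl fun i _ => ?_
      have I : Function.Involutive (fl i) := fun s => by simp [fl]
      rw [two_mul]
      nth_rw 2 [← Equiv.sum_comp I.toPerm]
      rw [← sum_add_distrib]
      refine sum_congr rfl fun s _ => ?_
      simp only [Function.Involutive.coe_toPerm, I s, max_def]
      split_ifs <;> nlinarith
    have d := sum_le_sum fun s (_ : s ∈ univ) => grad hg s (h s)
    simp only [sub_sq _ c, sum_add_distrib, sum_sub_distrib, ← sum_mul, ← mul_sum, hc, sum_const,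
      card_univ, Fintype.card_pi, Fintype.card_bool, prod_const, Fintype.card_fin, nsmul_eq_mul,
      Nat.cast_pow, Nat.cast_ofNat] at d ⊢
    rw [b, hc] at a
    refine le_of_mul_le_mul_left ?_ p
    nlinarith [mul_le_mul_of_nonneg_left d p.le]
  · have I : Function.Involutive fun (s : Fin n → Bool) i => !(s i) := fun s => by simp
    have a : 2 ^ n * g 0 ≤ 2 ^ n * c := by
      have := fun s : Fin n → Bool => hg.2 (Set.mem_univ (pt s))
        (Set.mem_univ (pt (I.toPerm _ s))) one_half_pos.le one_half_pos.le (add_halves 1)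
      have := sum_le_sum fun s (_ : s ∈ univ) => this s
      have z : ∀ s, (1 / 2 : ℝ) • pt s + (1 / 2 : ℝ) • pt (I.toPerm _ s) = 0 := fun s => by
        ext i; cases k : s i <;> simp [pt, k]
      simp only [z, smul_eq_mul, sum_add_distrib, ← mul_sum] at this
      rw [Equiv.sum_comp (I.toPerm _) fun s => g (pt s), hc] at this
      simp at this; linarith
    have b := sum_le_sum fun s (_ : s ∈ univ) => h s 0
    simp only [dist_zero_left, pt_norm, sum_sub_distrib, hc, ← sum_mul] at b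
    have d := sq_sum_le_card_mul_sum_sq (s := univ) (f := σ)
    simp at b d
    have e : (2 ^ n * (c - g 0)) ^ 2 ≤ ((∑ s, σ s) * √n) ^ 2 :=
      pow_le_pow_left₀ (by linarith) (by linarith) 2
    rw [mul_pow _ √n, Real.sq_sqrt n.cast_nonneg] at e
    refine le_of_mul_le_mul_left ?_ p
    nlinarith [mul_le_mul_of_nonneg_right d n.cast_nonneg]

lemma slope (hg : ConvexOn ℝ Set.univ g) {L : NNReal} (hL : LipschitzWith L g) (x : E n) :
    ∃ σ : ℝ, 0 ≤ σ ∧ ENNReal.ofReal σ = limsup (fun y => ENNReal.ofReal (|g y - g x| / dist y x))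
      (𝓝[≠] x) ∧ ∀ y, g x - g y ≤ σ * dist y x := by
  have f : limsup (fun y => ENNReal.ofReal (|g y - g x| / dist y x)) (𝓝[≠] x) ≠ ⊤ :=
    ((limsup_le_of_le (by isBoundedDefault) (.of_forall fun y => ENNReal.ofReal_le_ofReal
      (div_le_of_le_mul₀ dist_nonneg L.2 (hL.dist_le_mul y x)))).trans_lt ENNReal.ofReal_lt_top).ne
  refine ⟨_, ENNReal.toReal_nonneg, ENNReal.ofReal_toReal f, fun y => ?_⟩
  rcases eq_or_ne y x with rfl | h
  · simp
  have d := dist_pos.2 h
  rw [← div_le_iff₀ d, ← ENNReal.ofReal_le_iff_le_toReal f]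
  have t : Tendsto (fun r : ℝ => x + r • (x - y)) (𝓝[>] 0) (𝓝[≠] x) :=
    tendsto_nhdsWithin_iff.2 ⟨(Continuous.tendsto' (by fun_prop) _ _ (by simp)).mono_left
      nhdsWithin_le_nhds, eventually_mem_nhdsWithin.mono fun r hr => by
        simp [sub_ne_zero.2 h.symm, (Set.mem_Ioi.1 hr).ne']⟩
  refine le_limsup_of_frequently_le (t.frequently (Eventually.frequently
    (eventually_mem_nhdsWithin.mono fun r hr => ENNReal.ofReal_le_ofReal ?_)))
  have hr : 0 < r := hr
  have := hg.2 (Set.mem_univ (x + r • (x - y))) (Set.mem_univ y)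
    (by positivity : 0 ≤ 1 / (1 + r)) (by positivity : 0 ≤ r / (1 + r)) (by field_simp)
  rw [show (1 / (1 + r)) • (x + r • (x - y)) + (r / (1 + r)) • y = x by
    match_scalars; exacts [by field_simp, by field_simp; ring], smul_eq_mul, smul_eq_mul, one_div_mul_eq_div,
    div_mul_eq_mul_div, ← add_div, le_div_iff₀ (by positivity)] at this
  rw [dist_self_add_left, norm_smul, Real.norm_of_nonneg hr.le, ← dist_eq_norm, dist_comm x,
    ← mul_div_mul_left _ _ hr.ne']
  gcongr
  exact le_trans (by linarith) (le_abs_self _)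

noncomputable def mu (n : ℕ) (a b : NNReal) : Measure (E n) :=
  a • Measure.dirac 0 + ∑ s, b • Measure.dirac (pt s)

lemma mu_l (a b : NNReal) (F : E n → ENNReal) :
    ∫⁻ x, F x ∂(mu n a b) = a * F 0 + ∑ s, b * F (pt s) := by
  simp [mu, lintegral_add_measure, lintegral_finsetSum_measure]; rfl

lemma mu_i (a b : NNReal) (F : E n → ℝ) : ∫ x, F x ∂(mu n a b) = a * F 0 + ∑ s, b * F (pt s) := by
  have i : ∀ (c : NNReal) x, Integrable F (c • Measure.dirac x) := fun c x =>
    (integrable_dirac (by simp)).smul_measure_nnreal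
  rw [mu, integral_add_measure (i _ _) (integrable_finsetSum_measure.2 fun _ _ => i _ _),
    integral_finsetSum_measure fun _ _ => i _ _]
  simp [NNReal.smul_def]

lemma poinc {a b : NNReal} (h1 : (a : ℝ) + 2 ^ n * b = 1) (h2 : (a : ℝ) * n ≤ 2 ^ n * b)
    (hg : ConvexOn ℝ Set.univ g) {L : NNReal} (hL : LipschitzWith L g) :
    evariance g (mu n a b) ≤ ENNReal.ofReal 3 * ∫⁻ x, (limsup (fun y => ENNReal.ofReal
      (|g y - g x| / dist y x)) (𝓝[≠] x)) ^ 2 ∂(mu n a b) := by
  choose σ s0 s1 s2 using slope hg hL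
  obtain ⟨c, c1, c2⟩ := real_ineq hg fun s => s2 (pt s)
  have e : ∀ (F : E n → ℝ), (∀ x, 0 ≤ F x) → ∫⁻ x, ENNReal.ofReal (F x) ∂(mu n a b) =
      ENNReal.ofReal (a * F 0 + ∑ s, b * F (pt s)) := fun F h => by
    rw [mu_l, ENNReal.ofReal_add (mul_nonneg a.coe_nonneg (h _)) (sum_nonneg fun _ _ =>
      mul_nonneg b.coe_nonneg (h _)),
      ENNReal.ofReal_sum_of_nonneg fun _ _ => mul_nonneg b.coe_nonneg (h _)]
    simp [ENNReal.ofReal_mul]
  simp only [evariance_eq_lintegral_ofReal, ← s1, ← ENNReal.ofReal_pow (s0 _)]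
  rw [e _ fun _ => sq_nonneg _, e _ fun _ => sq_nonneg _, ← ENNReal.ofReal_mul (by norm_num)]
  refine ENNReal.ofReal_le_ofReal ?_
  have m := mu_i a b g
  generalize ∫ x, g x ∂(mu n a b) = M at m
  have p : (0 : ℝ) < 2 ^ n := by positivity
  have k : (a : ℝ) * (g 0 - c) ^ 2 ≤ b * ∑ s, σ (pt s) ^ 2 := by
    refine le_of_mul_le_mul_left ?_ p
    nlinarith [mul_le_mul_of_nonneg_left c2 a.2, mul_le_mul_of_nonneg_right h2
      (sum_nonneg fun s (_ : s ∈ univ) => sq_nonneg (σ (pt s)))]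
  have := mul_le_mul_of_nonneg_left c1 b.2
  simp only [sub_sq, sum_add_distrib, sum_sub_distrib, ← sum_mul, ← mul_sum, sum_const,
    card_univ, Fintype.card_pi, Fintype.card_bool, prod_const, Fintype.card_fin, nsmul_eq_mul,
    Nat.cast_pow, Nat.cast_ofNat, NNReal.val_eq_coe] at this m k ⊢
  have q : (0 : ℝ) ≤ a * σ 0 ^ 2 := by positivity
  have r : (a : ℝ) * (g 0 ^ 2 - 2 * g 0 * M + M ^ 2) + b * (∑ s, g (pt s) ^ 2 -
      (2 * ∑ s, g (pt s)) * M + 2 ^ n * M ^ 2) + (M - c) ^ 2 = a * (g 0 ^ 2 - 2 * g 0 * c + c ^ 2) +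
      b * (∑ s, g (pt s) ^ 2 - (2 * ∑ s, g (pt s)) * c + 2 ^ n * c ^ 2) := by
    linear_combination (M ^ 2 - c ^ 2) * h1 + 2 * (M - c) * m
  nlinarith [sq_nonneg (M - c)]

lemma mu_s (a b : NNReal) (S : Set (E n)) :
    mu n a b S = a * S.indicator 1 0 + ∑ s, (b : ENNReal) * S.indicator 1 (pt s) := by
  simp [mu]; rfl

end Pool.Agent.Lib.helper1.CvxP
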