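import Mathlib

set_option autoImplicit false

namespace Pool.Agent.Lib.helper1.Don

open MeasureTheory Set Filter Topology Real

def I (β : ℝ) (f : ℝ → ℝ) : Prop := IntegrableOn (fun x => exp (-(β * x)) * f x) (Ioi 0)

def E (f : ℝ → ℝ) : Prop := ∀ᶠ β in atTop, I β f

noncomputable def L (f : ℝ → ℝ) (β : ℝ) : ℝ := ∫ x in Ioi 0, exp (-(β * x)) * f x

noncomputable def conv (f g : ℝ → ℝ) (x : ℝ) : ℝ := ∫ t in (0 : ℝ)..x, f t * g (x - t)

noncomputable def P (f : ℝ → ℝ) (x : ℝ) : ℝ := ∫ t in (0 : ℝ)..x, f t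

variable {f g : ℝ → ℝ} {β γ : ℝ}

lemma aeI {p : ℝ → Prop} (h : ∀ x, 0 < x → p x) : ∀ᵐ x ∂(volume.restrict (Ioi (0 : ℝ))), p x :=
  (ae_restrict_iff' measurableSet_Ioi).2 (.of_forall h)

lemma I.meas (h : I β f) : AEStronglyMeasurable f (volume.restrict (Ioi 0)) := by
  have := (show Continuous fun x : ℝ => exp (β * x) by fun_prop).aestronglyMeasurable.mul h.1
  refine this.congr (.of_forall fun x => ?_)
  simp [← mul_assoc, ← exp_add]

lemma I.of_le (h : I β f) (m : AEStronglyMeasurable g (volume.restrict (Ioi 0))) (C : ℝ)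
    (b : ∀ x, 0 < x → exp (-(γ * x)) * |g x| ≤ C * (exp (-(β * x)) * |f x|)) : I γ g := by
  refine (h.norm.const_mul C).mono' ((show Continuous fun x : ℝ => exp (-(γ * x)) by
    fun_prop).aestronglyMeasurable.mul m) (aeI fun x hx => ?_)
  simpa [abs_mul] using b x hx

lemma I.mono (h : I β f) (b : β ≤ γ) : I γ f :=
  h.of_le h.meas 1 fun x hx => by
    rw [one_mul]; gcongr

lemma I.E (h : I β f) : E f := (eventually_ge_atTop β).mono fun _ => h.mono

lemma I.abs (h : I β f) : I β fun x => |f x| :=
  h.of_le h.meas.norm 1 fun x hx => by simp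

lemma I.add (h : I β f) (k : I β g) : I β fun x => f x + g x := by
  simp only [I, mul_add]; exact Integrable.add h k

lemma I.cmul (h : I β f) (c : ℝ) : I β fun x => c * f x := by
  simp only [I, mul_left_comm _ c]; exact Integrable.const_mul h c

lemma L_add (h : I β f) (k : I β g) : L (fun x => f x + g x) β = L f β + L g β := by
  simpa only [L, mul_add] using integral_add h k

lemma L_cmul (c : ℝ) : L (fun x => c * f x) β = c * L f β := by
  simp only [L, mul_left_comm _ c, integral_const_mul]

lemma I.congr (h : I β f) (e : f =ᵐ[volume.restrict (Ioi 0)] g) : I β g :=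
  Integrable.congr h (e.mono fun x hx => by simp [hx])

lemma L_congr (e : f =ᵐ[volume.restrict (Ioi 0)] g) : L f = L g :=
  funext fun _ => integral_congr_ae (e.mono fun x hx => by simp [hx])

lemma conv_exp (x : ℝ) : exp (-(β * x)) * conv f g x =
    ∫ t in (0 : ℝ)..x, (exp (-(β * t)) * f t) * (exp (-(β * (x - t))) * g (x - t)) := by
  rw [conv, ← intervalIntegral.integral_const_mul]
  refine intervalIntegral.integral_congr fun t _ => ?_
  rw [mul_mul_mul_comm, ← exp_add]; congr 2; ring

lemma I.conv (h : I β f) (k : I β g) : I β (conv f g) := by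
  have := (integrable_posConvolution h k (ContinuousLinearMap.mul ℝ ℝ)).integrableOn (s := Ioi 0)
  refine this.congr_fun (fun x hx => ?_) measurableSet_Ioi
  simp only [posConvolution, indicator_of_mem hx, conv_exp, ContinuousLinearMap.mul_apply']

lemma L_conv (h : I β f) (k : I β g) : L (conv f g) β = L f β * L g β := by
  simpa only [L, conv_exp, ContinuousLinearMap.mul_apply'] using
    integral_posConvolution h k (ContinuousLinearMap.mul ℝ ℝ)

lemma I_one (h : 0 < β) : I β fun _ => 1 := by
  simpa [I] using exp_neg_integrableOn_Ioi 0 h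

lemma L_one (h : 0 < β) : L (fun _ => 1) β = 1 / β := by
  have := integral_exp_mul_Ioi (neg_lt_zero.2 h) 0
  simpa [L, neg_div_neg_eq] using this

lemma P_eq : P f = conv f fun _ => 1 := by
  ext; simp [P, conv]

lemma I.P (h : I β f) (b : 0 < β) : I β (P f) := P_eq ▸ h.conv (I_one b)

lemma L_P (h : I β f) (b : 0 < β) : L (P f) β = L f β / β := by
  rw [P_eq, L_conv h (I_one b), L_one b]; ring

lemma I.xmul (h : I β f) (b : β < γ) : I γ fun x => x * f x :=
  h.of_le (measurable_id.aestronglyMeasurable.mul h.meas) (1 / (γ - β)) fun x hx => by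
    have := add_one_le_exp ((γ - β) * x)
    have b' := sub_pos.2 b
    rw [abs_mul, abs_of_pos hx, ← mul_assoc, ← mul_assoc]
    refine mul_le_mul_of_nonneg_right ?_ (abs_nonneg _)
    rw [one_div, le_inv_mul_iff₀ b', show -(β * x) = -(γ * x) + (γ - β) * x by ring, exp_add]
    nlinarith [exp_pos (-(γ * x))]

lemma L_deriv (h : I β f) (b : β < γ) : HasDerivAt (L f) (-L (fun x => x * f x) γ) γ := by
  obtain ⟨η, h1, h2⟩ := exists_between b
  have := (hasDerivAt_integral_of_dominated_loc_of_deriv_le (μ := volume.restrict (Ioi 0))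
    (F := fun s x => exp (-(s * x)) * f x) (F' := fun s x => -(exp (-(s * x)) * (x * f x)))
    (Ioi_mem_nhds h2) ((eventually_gt_nhds b).mono fun s hs => (h.mono hs.le).1) (h.mono b.le)
    (h.xmul b).1.neg (aeI fun x hx s hs => ?_) (h.xmul h1).norm
    (.of_forall fun x s _ => ?_)).2
  · rwa [integral_neg] at this
  · have : η ≤ s := le_of_lt hs
    simp only [norm_neg, norm_mul, norm_eq_abs, abs_exp]
    gcongr
  · exact (((hasDerivAt_mul_const x).fun_neg.exp).mul_const (f x)).congr_deriv (by ring)

lemma lerch (h : E f) (z : ∀ᶠ β in atTop, L f β = 0) : f =ᵐ[volume.restrict (Ioi 0)] 0 := by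
  obtain ⟨b, hb⟩ := eventually_atTop.1 (h.and z)
  have i := (hb b le_rfl).1
  have e : ∀ (n : ℕ) (c x : ℝ), c * exp (-x) ^ n * (exp (-(b * x)) * f x) =
      c * (exp (-((b + n) * x)) * f x) := fun n c x => by
    rw [← exp_nat_mul, mul_assoc, ← mul_assoc (exp _), ← exp_add]; congr 3; ring
  have hp : ∀ p : Polynomial ℝ, IntegrableOn (fun x => p.eval (exp (-x)) * (exp (-(b * x)) * f x))
      (Ioi 0) ∧ ∫ x in Ioi 0, p.eval (exp (-x)) * (exp (-(b * x)) * f x) = 0 := fun p => by
    induction p using Polynomial.induction_on' with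
    | add p q hp hq =>
      simp only [Polynomial.eval_add, add_mul]
      exact ⟨hp.1.add hq.1, by rw [integral_add hp.1 hq.1, hp.2, hq.2, add_zero]⟩
    | monomial n c =>
      simp only [Polynomial.eval_monomial, e]
      have := hb (b + n) (by simp)
      exact ⟨this.1.const_mul c, by rw [integral_const_mul]; exact mul_eq_zero_of_right _ this.2⟩
  have := isOpen_Ioi.ae_eq_zero_of_integral_contDiff_smul_eq_zero
    (IntegrableOn.locallyIntegrableOn i) fun φ hφ cφ sφ => ?_
  · refine (ae_restrict_iff' measurableSet_Ioi).2 (this.mono fun x hx h => ?_)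
    simpa using hx h
  have z0 : ∀ x, x ∉ Ioi (0 : ℝ) → φ x = 0 := fun x hx =>
    image_eq_zero_of_notMem_tsupport fun k => hx (sφ k)
  rw [← setIntegral_eq_integral_of_forall_compl_eq_zero (s := Ioi 0) fun x hx => by
    simp [z0 x hx]]
  have c : ContinuousOn (fun u => φ (-log u)) (Icc 0 1) := fun u hu => by
    rcases hu.1.eq_or_lt with rfl | h
    · refine .mono (t := Ici 0) ?_ Icc_subset_Ici_self
      rw [← continuousWithinAt_Ioi_iff_Ici, ContinuousWithinAt]
      simp only [log_zero, neg_zero, z0 0 (by simp)]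
      exact cφ.is_zero_at_infty.comp ((tendsto_neg_atBot_atTop.comp
        tendsto_log_nhdsGT_zero).mono_right atTop_le_cocompact)
    · exact (hφ.continuous.continuousAt.comp (continuousAt_log h.ne').neg).continuousWithinAt
  obtain ⟨C, hC⟩ := hφ.continuous.bounded_above_of_compact_support cφ
  have iφ := Integrable.bdd_mul i hφ.continuous.aestronglyMeasurable (.of_forall hC)
  refine abs_nonpos_iff.1 (le_of_forall_pos_le_add fun ε hε => ?_)
  set N := ∫ x in Ioi 0, ‖exp (-(b * x)) * f x‖
  have N0 : 0 ≤ N := integral_nonneg fun _ => norm_nonneg _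
  obtain ⟨p, hp'⟩ := exists_polynomial_near_of_continuousOn 0 1 _ c (ε / (N + 1)) (by positivity)
  simp only [smul_eq_mul]
  have q := integral_sub (hp p).1 iφ
  rw [(hp p).2, zero_sub] at q
  rw [← abs_neg, ← q]
  rw [← norm_eq_abs]
  refine (norm_integral_le_of_norm_le (i.norm.const_mul (ε / (N + 1))) (aeI fun x hx => ?_)).trans ?_
  · rw [← sub_mul, norm_mul]
    gcongr
    simpa using (hp' (exp (-x)) ⟨(exp_pos _).le, exp_le_one_iff.2 (by linarith)⟩).le
  · rw [integral_const_mul, zero_add, div_mul_eq_mul_div, div_le_iff₀ (by positivity)]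
    nlinarith

lemma uniq (h : E f) (k : E g) (z : ∀ᶠ β in atTop, L f β = L g β) :
    f =ᵐ[volume.restrict (Ioi 0)] g := by
  have := lerch (f := fun x => f x + -1 * g x) ((h.and k).mono fun β j => j.1.add (j.2.cmul _))
    (((h.and k).and z).mono fun β j => by rw [L_add j.1.1 (j.1.2.cmul _), L_cmul, j.2]; ring)
  exact this.mono fun x hx => by simp at hx; linarith

noncomputable def pw (f : ℝ → ℝ) : ℕ → ℝ → ℝ
  | 0 => f
  | n + 1 => conv f (pw f n)

lemma pw_I (h : I β f) (n : ℕ) : I β (pw f n) ∧ L (pw f n) β = L f β ^ (n + 1) ∧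
    L (fun x => |pw f n x|) β ≤ L (fun x => |f x|) β ^ (n + 1) := by
  induction n with
  | zero => simp [pw, h]
  | succ n ih =>
    refine ⟨h.conv ih.1, by rw [pw, L_conv h ih.1, ih.2.1]; ring, ?_⟩
    have : 0 ≤ L (fun x => |f x|) β := integral_nonneg fun _ => by positivity
    refine le_trans ?_ ((mul_le_mul_of_nonneg_left ih.2.2 this).trans_eq (by ring))
    rw [← L_conv h.abs ih.1.abs]
    refine integral_mono_ae (h.conv ih.1).abs (h.abs.conv ih.1.abs) (aeI fun x hx => ?_)
    simp only [pw, conv, ← abs_mul]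
    gcongr
    exact intervalIntegral.abs_integral_le_integral_abs hx.le

lemma L_small (h : E f) : ∀ᶠ β in atTop, L (fun x => |f x|) β < 1 := by
  obtain ⟨b, hb⟩ := h.exists
  have := tendsto_integral_filter_of_dominated_convergence (μ := volume.restrict (Ioi 0))
    (l := atTop) (F := fun β x => exp (-(β * x)) * |f x|) (f := fun _ => 0) _
    (hb.abs.E.mono fun β j => j.1) ((eventually_ge_atTop b).mono fun β j => aeI fun x hx => ?_)
    hb.abs.norm (aeI fun x hx => ?_)
  · exact this.eventually (gt_mem_nhds (by simp))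
  · simp only [norm_mul, norm_eq_abs, abs_exp]
    gcongr
  · simpa using (tendsto_exp_neg_atTop_nhds_zero.comp
      (tendsto_id.atTop_mul_const hx)).mul_const |f x|

lemma resolvent (h : E f) : ∃ r, E r ∧ ∀ᶠ β in atTop, (1 + L f β) * (1 + L r β) = 1 := by
  have h' : E fun x => -1 * f x := h.mono fun _ j => j.cmul _
  suffices H : _ from ⟨fun x => ∑' n, pw (fun x => -1 * f x) n x, eventually_and.1 H⟩
  filter_upwards [h', L_small h'] with β i s
  have p := pw_I i
  have n0 : 0 ≤ L (fun x => |-1 * f x|) β := integral_nonneg fun _ => by positivity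
  have sm : Summable fun n => ∫ x in Ioi 0, ‖exp (-(β * x)) * pw (fun x => -1 * f x) n x‖ :=
    .of_nonneg_of_le (fun _ => integral_nonneg fun _ => norm_nonneg _) (fun n => by
      simp only [norm_mul, norm_eq_abs, abs_exp]; exact (p n).2.2)
      ((summable_nat_add_iff 1).2 (summable_geometric_of_lt_one n0 s))
  constructor
  · simp only [I, ← tsum_mul_left]
    refine ⟨(AEMeasurable.tsum fun n => (p n).1.1.aemeasurable).aestronglyMeasurable, ?_⟩
    refine (lintegral_mono fun x => enorm_tsum_le_tsum_enorm).trans_lt ?_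
    rw [lintegral_tsum fun n => (p n).1.1.enorm]
    simp only [fun n => (ofReal_integral_norm_eq_lintegral_enorm (p n).1).symm]
    rw [← ENNReal.ofReal_tsum_of_nonneg (fun _ => integral_nonneg fun _ => norm_nonneg _) sm]
    exact ENNReal.ofReal_lt_top
  · have a := hasSum_integral_of_summable_integral_norm (fun n => (p n).1) sm
    have lt : ‖L (fun x => -1 * f x) β‖ < 1 := (norm_integral_le_integral_norm _).trans_lt (by
      simp only [norm_eq_abs, abs_mul (exp _), abs_exp]; exact s)
    have b := (hasSum_geometric_of_norm_lt_one lt).mul_right (L (fun x => -1 * f x) β)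
    simp only [tsum_mul_left] at a
    simp only [← pow_succ, ← (p _).2.1] at b
    have c : L _ β = _ := a.unique b
    rw [c]
    rw [L_cmul] at lt ⊢
    have := (abs_lt.1 lt).2
    have : 1 - -1 * L f β ≠ 0 := by linarith
    linear_combination (-L f β) * mul_inv_cancel₀ this

end Pool.Agent.Lib.helper1.Don
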