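import Pool.Agent.Lib.helper1.Don2

set_option autoImplicit false

namespace Pool.Agent.Lib.helper1.Don

open MeasureTheory Set Filter Topology Real

def S (j : ℕ) (f : ℝ → ℝ) : Prop := ContDiffOn ℝ j f (Ioi 0)

variable {f g A B : ℝ → ℝ} {j : ℕ}

lemma E.add (h : E f) (k : E g) : E fun x => f x + g x := (h.and k).mono fun _ j => j.1.add j.2

lemma E.cmul (h : E f) (c : ℝ) : E fun x => c * f x := h.mono fun _ j => j.cmul c

lemma E.conv (h : E f) (k : E g) : E (conv f g) := (h.and k).mono fun _ j => j.1.conv j.2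

lemma E.P (h : E f) : E (P f) := (h.and (eventually_gt_atTop 0)).mono fun _ j => j.1.P j.2

lemma E.congr (h : E f) (e : f =ᵐ[volume.restrict (Ioi 0)] g) : E g := h.mono fun _ j => j.congr e

lemma E.xmul (h : E f) : E fun x => x * f x :=
  let ⟨b, hb⟩ := h.exists; (hb.xmul (lt_add_one b)).E

lemma E.loc (h : E f) : LocallyIntegrable (indicator (Ioi 0) f) := by
  obtain ⟨b, hb⟩ := h.exists
  convert ((integrable_indicator_iff measurableSet_Ioi).2 hb).locallyIntegrable.continuous_mul
    (g := fun x => exp (b * x)) (by fun_prop) using 2 with x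
  by_cases hx : x ∈ Ioi (0 : ℝ) <;> simp [hx, ← mul_assoc, ← exp_add]

lemma P_congr (e : f =ᵐ[volume.restrict (Ioi 0)] g) {x : ℝ} (hx : 0 < x) : P f x = P g x :=
  intervalIntegral.integral_congr_ae (((ae_restrict_iff' measurableSet_Ioi).1 e).mono
    fun t ht k => ht (by rw [uIoc_of_le hx.le] at k; exact k.1))

lemma P_ind {x : ℝ} (hx : 0 < x) : P f =ᶠ[𝓝 x] P (indicator (Ioi 0) f) :=
  (eventually_gt_nhds hx).mono fun _ => P_congr (aeI fun _ ht => (indicator_of_mem ht _).symm)

lemma E.ii (h : E f) (a b : ℝ) : IntervalIntegrable (indicator (Ioi 0) f) volume a b :=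
  (h.loc.integrableOn_isCompact isCompact_uIcc).intervalIntegrable

lemma E.P_cont (h : E f) : ContinuousOn (Don.P f) (Ioi 0) := fun _ hx =>
  ((intervalIntegral.continuous_primitive h.ii 0).continuousAt.congr
    (P_ind hx).symm).continuousWithinAt

lemma E.P_ae (h : E f) : deriv (Don.P f) =ᵐ[volume.restrict (Ioi 0)] f :=
  (ae_restrict_iff' measurableSet_Ioi).2 ((_root_.LocallyIntegrable.ae_hasDerivAt_integral h.loc).mono fun x hx k => by
    rw [(P_ind k).deriv_eq]; exact (hx 0).deriv.trans (indicator_of_mem k _))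

lemma S_succ : S (j + 1) f ↔ DifferentiableOn ℝ f (Ioi 0) ∧ S j (deriv f) := by
  simp [S, contDiffOn_succ_iff_deriv_of_isOpen isOpen_Ioi]

lemma S.congr (h : S j f) (e : ∀ x, 0 < x → g x = f x) : S j g := ContDiffOn.congr h e

lemma S.weak (h : S (j + 1) f) : S j f := ContDiffOn.of_le h (by simp)

lemma S_P (h : E f) (c : ContinuousOn f (Ioi 0)) : S (j + 1) (P f) ↔ S j f := by
  have d : ∀ x, 0 < x → HasDerivAt (P f) (f x) x := fun x hx => by
    have e : indicator (Ioi 0) f =ᶠ[𝓝 x] f :=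
      (eventually_gt_nhds hx).mono fun _ ht => indicator_of_mem ht _
    have := intervalIntegral.integral_hasDerivAt_right (h.ii 0 x)
      ⟨univ, univ_mem, by simpa using h.loc.aestronglyMeasurable⟩
      ((c.continuousAt (Ioi_mem_nhds hx)).congr e.symm)
    rw [indicator_of_mem (show x ∈ Ioi 0 from hx)] at this
    exact this.congr_of_eventuallyEq (P_ind hx)
  exact S_succ.trans ((and_iff_right fun x hx =>
    (d x hx).differentiableAt.differentiableWithinAt).trans
    (contDiffOn_congr fun x hx => (d x hx).deriv))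

lemma S_x : S j (fun x => x * f x) ↔ S j f :=
  ⟨fun h => S.congr (ContDiffOn.div h contDiffOn_id fun _ hx => ne_of_gt hx) fun x hx => by
    simp [hx.ne'], fun h => contDiffOn_id.mul h⟩

lemma S.conv (h : S j f) (k : S j g) (h' : E f) (k' : E g) : S j (conv f g) := by
  intro y hy
  have hy : 0 < y := hy
  let φ : ContDiffBump (2 * y) := ⟨7 / 4 * y, 15 / 8 * y, by linarith, by linarith⟩
  have z : ∀ x, x ≤ 0 → φ =ᶠ[𝓝 x] 0 := fun x hx => notMem_tsupport_iff_eventuallyEq.1 (by
    rw [φ.tsupport_eq, Real.closedBall_eq_Icc]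
    exact fun k => by have : 2 * y - 15 / 8 * y ≤ x := k.1; linarith)
  have o : ∀ x, y / 4 ≤ x → x ≤ 3 * y → φ x = 1 := fun x a b => φ.one_of_mem_closedBall (by
    rw [Real.closedBall_eq_Icc]
    exact ⟨show 2 * y - 7 / 4 * y ≤ x by linarith, show x ≤ 2 * y + 7 / 4 * y by linarith⟩)
  have sm : ∀ u : ℝ → ℝ, S j u → ContDiff ℝ (j : ℕ∞) (φ.toFun * u) := fun u hu =>
    contDiff_iff_contDiffAt.2 fun x => by
      rcases le_or_gt x 0 with hx | hx
      · exact contDiffAt_const.congr_of_eventuallyEq ((z x hx).mono fun t ht => by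
          rw [Pi.mul_apply, ht]; exact zero_mul _)
      · exact φ.contDiffAt.mul (hu.contDiffAt (Ioi_mem_nhds hx))
  have cs : ∀ u : ℝ → ℝ, HasCompactSupport (φ.toFun * u) := fun u => φ.hasCompactSupport.mul_right
  have l := k'.loc.continuous_mul (g := fun x => 1 - φ x) (continuous_const.sub φ.continuous)
  let M := ContinuousLinearMap.mul ℝ ℝ
  refine ((((cs g).contDiff_convolution_right M h'.loc (sm g k)).add
    ((cs f).contDiff_convolution_left M (sm f h) l)).contDiffAt.congr_of_eventuallyEq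
    ?_).contDiffWithinAt
  filter_upwards [Ioo_mem_nhds (half_lt_self hy) (show y < 2 * y by linarith)] with x hx
  have x0 : x ∈ Ioi (0 : ℝ) := (half_pos hy).trans hx.1
  have := congrFun (posConvolution_eq_convolution_indicator f g M) x
  rw [posConvolution, indicator_of_mem x0] at this
  refine this.trans ?_
  rw [convolution_def, convolution_def, convolution_def, ← integral_add
    ((cs g).convolutionExists_right M h'.loc (sm g k).continuous x)
    ((cs f).convolutionExists_left M (sm f h).continuous l x)]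
  refine integral_congr_ae (.of_forall fun t => ?_)
  simp only [M, ContinuousLinearMap.mul_apply', Pi.mul_apply, indicator, mem_Ioi]
  split_ifs with a b b
  · rcases le_or_gt (y / 4) (x - t) with c | c
    · rw [o (x - t) c (by linarith [hx.2])]; ring
    · rw [o t (by linarith [hx.1]) (by linarith [hx.2])]; ring
  · rw [(z _ (not_lt.1 b)).self_of_nhds]; simp
  · rw [(z _ (not_lt.1 a)).self_of_nhds]; simp
  · simp

noncomputable def G (g B : ℝ → ℝ) (x : ℝ) : ℝ :=
  -1 * (g x + conv g (fun t => 2 * B t + conv B B t) x)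

lemma E.G (h : E g) (k : E B) : E (G g B) := (h.add (h.conv ((k.cmul 2).add (k.conv k)))).cmul _

lemma S.G (h : S j g) (k : S j B) (h' : E g) (k' : E B) : S j (G g B) :=
  contDiffOn_const.mul (ContDiffOn.add h (h.conv ((contDiffOn_const.mul k).add (k.conv k k' k'))
    h' ((k'.cmul 2).add (k'.conv k'))))

lemma key (hA : E A) (hB : E B) (hg : E g) (e : ∀ x, 0 < x → x * A x = P g x)
    (i : ∀ᶠ β in atTop, (1 + L A β) * (1 + L B β) = 1) :
    (fun x => x * B x) =ᵐ[volume.restrict (Ioi 0)] P (G g B) := by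
  refine uniq hB.xmul (hg.G hB).P ?_
  obtain ⟨b, hb⟩ := eventually_atTop.1 (((hA.and hB).and hg).and i)
  filter_upwards [eventually_gt_atTop b, eventually_gt_atTop 0] with β h1 h0
  obtain ⟨⟨⟨a1, a2⟩, a3⟩, a4⟩ := hb β h1.le
  have d := ((L_deriv (hb b le_rfl).1.1.1 h1).const_add 1).fun_mul
    ((L_deriv (hb b le_rfl).1.1.2 h1).const_add 1)
  have := d.unique ((hasDerivAt_const β (1 : ℝ)).congr_of_eventuallyEq
    ((eventually_gt_nhds h1).mono fun s hs => (hb s hs.le).2))
  have a5 := (a2.cmul 2).add (a2.conv a2)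
  rw [L_congr (aeI e), L_P a3 h0] at this
  unfold G
  rw [L_P ((a3.add (a3.conv a5)).cmul _) h0, L_cmul, L_add a3 (a3.conv a5), L_conv a3 a5,
    L_add (a2.cmul 2) (a2.conv a2), L_cmul, L_conv a2 a2]
  linear_combination (-(1 + L B β)) * this - L (fun x => x * B x) β * a4

lemma boot (hA : E A) (hB : E B) (hg : E g) (e : ∀ x, 0 < x → x * A x = P g x)
    (i : ∀ᶠ β in atTop, (1 + L A β) * (1 + L B β) = 1) (c : ContinuousOn B (Ioi 0))
    (s : S j A) : S j B := by
  induction j with
  | zero => exact contDiffOn_zero.2 c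
  | succ j ih =>
    have s1 := (S_succ.1 ((S_x.2 s).congr fun x hx => (e x hx).symm)).2
    have e1 := hg.congr hg.P_ae.symm
    have s2 := s1.G (ih s.weak) e1 hB
    refine S_x.1 (((S_P (e1.G hB) s2.continuousOn).2 s2).congr fun x hx => ?_)
    exact Measure.eqOn_open_of_ae_eq (key hA hB e1 (fun t ht => (e t ht).trans
      (P_congr hg.P_ae.symm ht)) i) isOpen_Ioi (continuousOn_id.mul c) (e1.G hB).P_cont hx

lemma cont_of (hg : E g) (e : ∀ x, 0 < x → x * A x = P g x) : ContinuousOn A (Ioi 0) :=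
  (hg.P_cont.div continuousOn_id fun _ hx => ne_of_gt hx).congr fun x hx => by
    have : 0 < x := hx
    simp [← e x hx, this.ne']

theorem res (hA : E A) (hg : E g) (e : ∀ x, 0 < x → x * A x = P g x) :
    ∃ B, E B ∧ ContinuousOn B (Ioi 0) ∧ (∀ᶠ β in atTop, (1 + L A β) * (1 + L B β) = 1) ∧
      ∀ j, S j A ↔ S j B := by
  obtain ⟨r, hr, i⟩ := resolvent hA
  have a : r =ᵐ[volume.restrict (Ioi 0)] fun x => P (G g r) x / x := by
    filter_upwards [key hA hr hg e i, aeI fun x (hx : 0 < x) => hx.ne'] with x h1 h2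
    rw [← h1]; simp [h2]
  have e' : ∀ x, 0 < x → x * (P (G g r) x / x) = P (G g r) x := fun x hx => by field_simp
  rw [L_congr a] at i
  have c := cont_of (hg.G hr) e'
  exact ⟨_, hr.congr a, c, i, fun j => ⟨boot hA (hr.congr a) hg e i c, boot (hr.congr a) hA
    (hg.G hr) e' (i.mono fun _ h => by rwa [mul_comm]) (cont_of hg e)⟩⟩

lemma anti_eq (h : AntitoneOn f (Ioi 0)) (c : ContinuousOn g (Ioi 0))
    (e : f =ᵐ[volume.restrict (Ioi 0)] g) {x : ℝ} (hx : 0 < x) : f x = g x := by
  have d := Measure.dense_of_ae ((ae_restrict_iff' measurableSet_Ioi).1 e)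
  have t := (c.continuousAt (Ioi_mem_nhds hx)).tendsto
  refine le_antisymm (le_of_not_gt fun k => ?_) (le_of_not_gt fun k => ?_)
  · obtain ⟨l, hl, H⟩ := mem_nhdsLT_iff_exists_Ioo_subset.1 (nhdsWithin_le_nhds
      ((t.eventually (gt_mem_nhds k)).and (eventually_gt_nhds hx)))
    obtain ⟨z, h1, h2⟩ := d.inter_open_nonempty _ isOpen_Ioo (nonempty_Ioo.2 hl)
    exact (h (H h1).2 hx h1.2.le).not_gt ((h2 (H h1).2).trans_lt (H h1).1)
  · obtain ⟨l, hl, H⟩ := mem_nhdsGT_iff_exists_Ioo_subset.1 (nhdsWithin_le_nhds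
      ((t.eventually (lt_mem_nhds k)).and (eventually_gt_nhds hx)))
    obtain ⟨z, h1, h2⟩ := d.inter_open_nonempty _ isOpen_Ioo (nonempty_Ioo.2 hl)
    exact (h hx (H h1).2 h1.1.le).not_gt ((H h1).1.trans_eq (h2 (H h1).2).symm)

theorem tail {K T : ℝ → ℝ} (hg : E fun x => K x - x * T x) (a : AntitoneOn T (Ioi 0))
    (e : ∀ x, 0 < x → x * K x = P (fun x => K x - x * T x) x) : S (j + 1) K ↔ S j T := by
  constructor
  · intro s
    have s1 := (S_succ.1 ((S_x.2 s).congr fun x hx => (e x hx).symm)).2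
    have s2 : S j _ := (ContDiffOn.sub s.weak s1).div contDiffOn_id fun _ hx => ne_of_gt hx
    refine s2.congr fun x hx => anti_eq a s2.continuousOn ?_ hx
    filter_upwards [hg.P_ae, aeI fun x (hx : 0 < x) => hx.ne'] with x h1 h2
    simp [h1, h2]
  · intro s
    have : ∀ n, n ≤ j + 1 → S n K := fun n => by
      induction n with
      | zero => exact fun _ => contDiffOn_zero.2 (cont_of hg e)
      | succ n ih =>
        intro hn
        have s1 : S n _ := ContDiffOn.sub (ih (by omega))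
          (S_x.2 (ContDiffOn.of_le s (by exact_mod_cast (by omega : n ≤ j))))
        exact S_x.1 (((S_P hg s1.continuousOn).2 s1).congr e)
    exact this _ le_rfl

end Pool.Agent.Lib.helper1.Don
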