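import Pool.Agent.Lib.helper1.Don3

set_option autoImplicit false

namespace Pool.Agent.Lib.helper1.Don

open MeasureTheory Set Filter Topology Real

variable {β y z : ℝ} {μ : Measure ℝ}

noncomputable def u (y : ℝ) : ℝ → ℝ := indicator (Iic y) fun _ => 1

noncomputable def kap (y z : ℝ) : ℝ := (if y < 1 then y else 0) - min z y

noncomputable def ind (y z : ℝ) : ℝ := if z < y then z else 0

noncomputable def D (y z : ℝ) : ℝ := if y < 1 then y * u y z else z * 1

lemma u_I (h : 0 < β) : I β (u y) :=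
  (I_one h).of_le (aestronglyMeasurable_const.indicator measurableSet_Iic) 1 fun x _ => by
    by_cases k : x ∈ Iic y <;> simp [u, k, exp_nonneg]

lemma u_L (h : 0 < β) (hy : 0 < y) : L (u y) β = (1 - exp (-(β * y))) / β := by
  have e : ∀ x, exp (-(β * x)) * u y x = (Iic y).indicator (fun x => exp (-(β * x))) x :=
    fun x => by by_cases k : x ∈ Iic y <;> simp [u, k]
  simp only [L, e]
  rw [setIntegral_indicator measurableSet_Iic, Ioi_inter_Iic,
    ← intervalIntegral.integral_of_le hy.le]
  have := intervalIntegral.integral_eq_sub_of_hasDerivAt (a := 0) (b := y)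
    (f := fun x => -exp (-(β * x)) / β) (f' := fun x => exp (-(β * x))) (fun x _ =>
      ((hasDerivAt_const_mul β).fun_neg.exp.fun_neg.div_const β).congr_deriv (by field_simp))
    (Continuous.intervalIntegrable (by fun_prop) _ _)
  rw [this]; simp; ring

lemma u_P (hy : 0 < y) (hz : 0 < z) : P (u y) z = min z y := by
  rw [P, intervalIntegral.integral_of_le hz.le, u, setIntegral_indicator measurableSet_Iic,
    Ioc_inter_Iic]
  simp [hy.le, hz.le]

lemma kap_L (h : 0 < β) (hy : 0 < y) :
    β ^ 2 * L (kap y) β = exp (-(β * y)) - 1 + β * if y < 1 then y else 0 := by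
  rw [L_congr (g := fun z => (if y < 1 then y else 0) * 1 + -1 * P (u y) z)
    (aeI fun z hz => by simp only [u_P hy hz, kap]; ring), L_add ((I_one h).cmul _)
    (((u_I h).P h).cmul _), L_cmul, L_cmul, L_one h, L_P (u_I h) h, u_L h hy]
  field_simp
  ring

lemma kap_P (hz : 0 < z) : ∫ t in (0 : ℝ)..z, (kap y t - ind y t) = z * kap y z := by
  have c : Continuous (kap y) := by unfold kap; fun_prop
  rw [intervalIntegral.integral_eq_sub_of_hasDeriv_right_of_le (f := fun t => t * kap y t)
    (f' := fun t => kap y t - ind y t) hz.le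
    (continuous_id.mul c).continuousOn (fun t _ => ?_) ((c.intervalIntegrable _ _).sub
    ⟨(continuous_id.integrableOn_Ioc.indicator (measurableSet_Iio (a := y))),
     (continuous_id.integrableOn_Ioc.indicator (measurableSet_Iio (a := y)))⟩)]
  · simp
  rcases lt_or_ge t y with h | h
  · refine ((((hasDerivAt_id' t).fun_mul ((hasDerivAt_id' t).const_sub (if y < 1 then y else 0))
      ).congr_of_eventuallyEq ((eventually_lt_nhds h).mono fun s hs => by
        simp [kap, hs.le])).congr_deriv ?_).hasDerivWithinAt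
    simp [kap, ind, h, h.le]; ring
  · refine ((hasDerivAt_mul_const ((if y < 1 then y else 0) - y)).hasDerivWithinAt.congr
      (fun s hs => by simp [kap, h.trans (le_of_lt hs)]) (by simp [kap, h])).congr_deriv ?_
    simp [kap, ind, h, h.not_gt]

lemma kap_le (hy : 0 < y) (hz : 0 < z) : |kap y z| ≤ D y z := by
  simp only [kap, D, u, indicator, mem_Iic, min_def, abs_le]
  split_ifs <;> constructor <;> linarith

lemma ind_le (hy : 0 < y) (hz : 0 < z) : |ind y z| ≤ D y z := by
  simp only [ind, D, u, indicator, mem_Iic, abs_le]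
  split_ifs <;> constructor <;> linarith

lemma D_I (h : 0 < β) : I β (D y) := by
  unfold D; split_ifs
  exacts [(u_I h).cmul _, (I_one (half_pos h)).xmul (half_lt_self h)]

lemma D_L (h : 0 < β) (hy : 0 < y) : L (D y) β ≤ (1 + L (fun z => z * 1) β) * min 1 (y ^ 2) := by
  have : 0 ≤ L (fun z => z * 1) β := integral_nonneg_of_ae (aeI fun x hx => by
    simp only [Pi.zero_apply]; positivity)
  unfold D; split_ifs with k
  · rw [L_cmul, u_L h hy, min_eq_right (by nlinarith)]
    have : (1 - exp (-(β * y))) / β ≤ y := by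
      rw [div_le_iff₀ h]; linarith [add_one_le_exp (-(β * y))]
    nlinarith [sq_nonneg y]
  · rw [min_eq_left (by nlinarith)]; linarith

lemma prodI [SFinite μ] (h0 : ∀ᵐ x ∂μ, 0 < -x) (h1 : Integrable (fun x => min 1 (x ^ 2)) μ)
    (h : 0 < β) {F : ℝ → ℝ → ℝ} (m : Measurable fun p : ℝ × ℝ => F (-p.2) p.1)
    (b : ∀ y z, 0 < y → 0 < z → |F y z| ≤ D y z) :
    Integrable (Function.uncurry fun z x => exp (-(β * z)) * F (-x) z)
      ((volume.restrict (Ioi 0)).prod μ) := by
  have m' : AEStronglyMeasurable (Function.uncurry fun z x => exp (-(β * z)) * F (-x) z)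
      ((volume.restrict (Ioi 0)).prod μ) :=
    ((show Measurable fun p : ℝ × ℝ => exp (-(β * p.1)) by fun_prop).mul m).aestronglyMeasurable
  have i : ∀ x, 0 < -x → I β (F (-x)) := fun x hx => (D_I (y := -x) h).of_le
    (m.comp (measurable_prodMk_right (y := x))).aestronglyMeasurable 1 fun z hz => by
      rw [one_mul]
      exact mul_le_mul_of_nonneg_left ((b _ _ hx hz).trans (le_abs_self _)) (exp_nonneg _)
  refine (integrable_prod_iff' m').2 ⟨h0.mono i, (h1.const_mul
    (1 + L (fun z => z * 1) β)).mono' m'.norm.prod_swap.integral_prod_right' (h0.mono fun x hx => ?_)⟩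
  rw [norm_of_nonneg (integral_nonneg fun _ => norm_nonneg _), ← neg_sq]
  refine (integral_mono_ae (i x hx).norm (D_I h) (aeI fun z hz => ?_)).trans (D_L h hx)
  simp only [norm_mul, norm_eq_abs, abs_exp]
  gcongr; exact b _ _ hx hz

lemma kap_m : Measurable fun p : ℝ × ℝ => kap (-p.2) p.1 :=
  (Measurable.ite (measurableSet_lt (by fun_prop) (by fun_prop)) (by fun_prop) (by fun_prop)).sub
    (by fun_prop)

lemma ind_m : Measurable fun p : ℝ × ℝ => ind (-p.2) p.1 :=
  Measurable.ite (measurableSet_lt (by fun_prop) (by fun_prop)) (by fun_prop) (by fun_prop)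

theorem levy [SFinite μ] (h0 : ∀ᵐ x ∂μ, 0 < -x) (h1 : Integrable (fun x => min 1 (x ^ 2)) μ) :
    ∃ K, E K ∧ E (fun z => K z - z * μ.real (Iio (-z))) ∧
      (∀ z, 0 < z → z * K z = P (fun z => K z - z * μ.real (Iio (-z))) z) ∧ ∀ β, 0 < β →
      β ^ 2 * L K β = ∫ x, (exp (β * x) - 1 - (Ioi (-1 : ℝ)).indicator (fun y => β * y) x) ∂μ := by
  have k := fun β (h : 0 < β) => prodI h0 h1 h kap_m fun _ _ => kap_le
  have i := prodI h0 h1 one_pos ind_m fun _ _ => ind_le
  have j : Integrable (Function.uncurry fun z x => exp (-(1 * z)) * (kap (-x) z - ind (-x) z)) _ :=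
    ((k 1 one_pos).sub i).congr (.of_forall fun p => (mul_sub _ _ _).symm)
  have e : (fun z => ∫ x, (kap (-x) z - ind (-x) z) ∂μ) =ᵐ[volume.restrict (Ioi 0)]
      fun z => ∫ x, kap (-x) z ∂μ - z * μ.real (Iio (-z)) := by
    filter_upwards [(k 1 one_pos).prod_right_ae, i.prod_right_ae] with z a b
    have U := (exp_ne_zero (-(1 * z))).isUnit
    rw [integral_sub ((integrable_const_mul_iff U _).1 a) ((integrable_const_mul_iff U _).1 b),
      mul_comm, ← smul_eq_mul, ← integral_indicator_const _ measurableSet_Iio]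
    congr 2 with x
    simp only [ind, indicator, mem_Iio, lt_neg]
  refine ⟨fun z => ∫ x, kap (-x) z ∂μ, I.E (β := 1) ?_, (I.E (β := 1) ?_).congr e,
    fun z hz => ?_, fun β h => ?_⟩
  · simp only [I, ← integral_const_mul]; exact (k 1 one_pos).integral_prod_left
  · simp only [I, ← integral_const_mul]; exact j.integral_prod_left
  · rw [← P_congr e hz, P, intervalIntegral_integral_swap, ← integral_const_mul]
    · exact integral_congr_ae (h0.mono fun x hx => (kap_P hz).symm)
    rw [uIoc_of_le hz.le]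
    refine (Integrable.bdd_mul (c := exp z) (f := fun p => exp p.1) (j.mono_measure
      (Measure.prod_mono (Measure.restrict_mono Ioc_subset_Ioi_self le_rfl) le_rfl))
      (by fun_prop) (Measure.quasiMeasurePreserving_fst.ae (p := fun t => ‖exp t‖ ≤ exp z) ((ae_restrict_iff'
      measurableSet_Ioc).2 (.of_forall fun t ht => ?_)))).congr (.of_forall fun p => ?_)
    · simpa using ht.2
    · simp [Function.uncurry, ← mul_assoc, ← exp_add]
  · simp only [L, ← integral_const_mul (exp _)]
    rw [integral_integral_swap (k β h), ← integral_const_mul]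
    refine integral_congr_ae (h0.mono fun x hx => (kap_L h hx).trans ?_)
    simp only [indicator, mem_Ioi, neg_lt, mul_neg, neg_neg]
    split_ifs <;> ring

lemma S_aff {j : ℕ} {f : ℝ → ℝ} {c : ℝ} (d : ℝ) (hc : c ≠ 0) :
    S j (fun x => c * (d + f x)) ↔ S j f :=
  ⟨fun h => S.congr ((ContDiffOn.div_const h c).sub (contDiffOn_const (c := d))) fun x _ => by
    field_simp; ring, fun h => contDiffOn_const.mul (contDiffOn_const.add h)⟩

lemma E.ii' {f : ℝ → ℝ} (h : E f) (hz : 0 < z) : IntervalIntegrable f volume 0 z :=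
  (h.ii 0 z).congr fun t ht => indicator_of_mem (by rw [uIoc_of_le hz.le] at ht; exact ht.1) _

theorem main (a δ : ℝ) (W : ℝ → ℝ) (h0 : μ (Ici 0) = 0)
    (h1 : ∫⁻ x, ENNReal.ofReal (min 1 (x ^ 2)) ∂μ < ⊤) (hδ : δ ≠ 0) (c : ContinuousOn W (Ioi 0))
    (hW : ∀ᶠ β in atTop, I β W ∧ L W β = 1 / (-(a * β) + δ * β ^ 2 +
      ∫ x, (exp (β * x) - 1 - (Ioi (-1 : ℝ)).indicator (fun y => β * y) x) ∂μ)) (k : ℕ) :
    S (k + 3) W ↔ S k fun z => μ.real (Iio (-z)) := by
  have h1 : Integrable (fun x => min 1 (x ^ 2)) μ := ⟨by fun_prop,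
    (hasFiniteIntegral_iff_ofReal (.of_forall fun x => by positivity)).2 h1⟩
  have fin : ∀ z, 0 < z → μ (Iio (-z)) < ⊤ := fun z hz => (measure_mono fun t ht => by
    have : t < -z := ht
    exact min_le_min_left 1 (show z ^ 2 ≤ t ^ 2 by nlinarith)).trans_lt (h1.measure_ge_lt_top
      (ε := min 1 (z ^ 2)) (by positivity))
  have : SigmaFinite μ := Measure.sigmaFinite_of_countable
    ((countable_range fun n : ℕ => Iio (-(1 / (n + 1 : ℝ)))).insert (Ici 0)) (by
      rintro _ (rfl | ⟨n, rfl⟩)
      exacts [by simp [h0], fin _ (by positivity)]) (eq_univ_of_forall fun x => by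
      rcases le_or_gt 0 x with h | h
      · exact ⟨_, mem_insert _ _, h⟩
      · obtain ⟨n, hn⟩ := exists_nat_one_div_lt (neg_pos.2 h)
        exact ⟨_, .inr ⟨n, rfl⟩, lt_neg.1 hn⟩)
  obtain ⟨K, k1, k2, k3, k4⟩ := levy (μ := μ) (by simp only [ae_iff, neg_pos, not_lt]; exact h0) h1
  have o : E fun _ => (1 : ℝ) := (I_one one_pos).E
  obtain ⟨B, b1, b2, b3, b4⟩ := res (A := fun x => δ⁻¹ * (-a * 1 + K x))
    (((o.cmul _).add k1).cmul _) (((o.cmul (-a)).add k2).cmul δ⁻¹) fun x hx => by
      rw [P, intervalIntegral.integral_const_mul, intervalIntegral.integral_add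
        ((o.cmul _).ii' hx) (k2.ii' hx), ← P, ← P, ← k3 x hx, P]
      simp; ring
  have e1 := (o.add b1.P).cmul δ⁻¹
  have e := Measure.eqOn_open_of_ae_eq (uniq (hW.mono fun _ h => h.1) e1.P (by
    filter_upwards [hW, b3, k1, b1, eventually_gt_atTop 0] with β w b i j h
    rw [w.2, L_P (((I_one h).add (j.P h)).cmul _) h, L_cmul, L_add (I_one h) (j.P h), L_P j h,
      L_one h, ← k4 β h]
    rw [L_cmul, L_add ((I_one h).cmul _) i, L_cmul, L_one h] at b
    rw [eq_comm, one_div (_ + _), eq_comm, inv_eq_of_mul_eq_one_right]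
    refine .trans ?_ b
    field_simp; ring)) isOpen_Ioi c e1.P_cont
  rw [← tail k2 (fun s hs t ht st => ENNReal.toReal_mono (fin s hs).ne
    (measure_mono (Iio_subset_Iio (neg_le_neg st)))) k3, ← S_aff (f := K) (-a * 1) (inv_ne_zero hδ), b4,
    ← S_P b1 b2, ← S_aff (f := P B) 1 (inv_ne_zero hδ), ← S_P e1 (continuousOn_const.mul
    (continuousOn_const.add b1.P_cont))]
  exact contDiffOn_congr e

end Pool.Agent.Lib.helper1.Don
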