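import Mathlib

set_option autoImplicit false

namespace Pool.Agent.Lib.helper1.Doney

open MeasureTheory Set Filter Topology Real

noncomputable def g (p x : ℝ) : ℝ := max x 0 ^ p / Gamma (p + 1)

lemma g_cont {p : ℝ} (hp : 0 < p) : Continuous (g p) :=
  ((continuous_id.max continuous_const).rpow_const fun _ => .inr hp.le).div_const _

lemma g_neg {p x : ℝ} (hp : 0 < p) (hx : x ≤ 0) : g p x = 0 := by
  simp [g, hx, zero_rpow hp.ne']

lemma g_deriv {p : ℝ} (hp : 1 < p) (x : ℝ) : HasDerivAt (g p) (g (p - 1) x) x := by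
  have h1 : HasDerivWithinAt (g p) (g (p - 1) x) (Ici 0) x := by
    by_cases h : 0 ≤ x
    · refine ((hasDerivAt_rpow_const (x := x) (.inr hp.le)).div_const
        (Gamma (p + 1))).hasDerivWithinAt.congr (fun y hy => by rw [g, max_eq_left hy])
        (by rw [g, max_eq_left h]) |>.congr_deriv ?_
      rw [g, max_eq_left h, sub_add_cancel, Gamma_add_one (by positivity),
        mul_div_mul_left _ _ (by positivity)]
    · exact HasFDerivWithinAt.of_notMem_closure (by simpa using h)
  have h2 : HasDerivWithinAt (g p) (g (p - 1) x) (Iic 0) x := by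
    by_cases h : x ≤ 0
    · rw [g_neg (by linarith) h]
      exact (hasDerivWithinAt_const x _ (0 : ℝ)).congr (fun y hy => g_neg (by linarith) hy)
        (g_neg (by linarith) h)
    · exact HasFDerivWithinAt.of_notMem_closure (by simpa using h)
  simpa using h2.union h1

lemma g_bound {p : ℝ} (hp : 0 < p) (x : ℝ) : |g p x| ≤ exp (4 * x) * (1 / 4) ^ p := by
  rcases le_or_gt x 0 with h | h
  · rw [g_neg hp h, abs_zero]; positivity
  have G := Gamma_pos_of_pos (show 0 < p + 1 by linarith)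
  have I := GammaIntegral_convergent (show 0 < p + 1 by linarith)
  have : exp (-(4 * x)) * (4 * x) ^ p ≤ Gamma (p + 1) := by
    rw [Gamma_eq_integral (by linarith), ← integral_exp_neg_Ioi, ← integral_mul_const]
    refine (setIntegral_mono_on ((integrableOn_exp_neg_Ioi _).mul_const _)
      (I.mono_set (Ioi_subset_Ioi (by linarith))) measurableSet_Ioi fun t ht => ?_).trans
      (setIntegral_mono_set I ((ae_restrict_iff' measurableSet_Ioi).2 (.of_forall fun t ht => by
        have : 0 < t := ht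
        positivity)) (Ioi_subset_Ioi (by linarith)).eventuallyLE)
    rw [add_sub_cancel_right]
    gcongr
    exact le_of_lt ht
  rw [g, max_eq_left h.le, abs_of_nonneg (by positivity), div_le_iff₀ G]
  refine le_trans (le_of_eq ?_) (mul_le_mul_of_nonneg_left this (by positivity))
  rw [mul_mul_mul_comm, ← exp_add, ← mul_rpow (by norm_num) (by positivity)]
  simp

lemma lap {p β j : ℝ} (hp : 0 < p) (hβ : 0 < β) (hj : 0 ≤ j) :
    ∫ x in Ioi 0, exp (-β * x) * g p (x - j) = exp (-β * j) * (1 / β) ^ (p + 1) := by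
  rw [setIntegral_eq_integral_of_forall_compl_eq_zero fun x hx => by
      rw [g_neg hp (by simp at hx; linarith), mul_zero],
    ← integral_add_right_eq_self _ j, ← setIntegral_eq_integral_of_forall_compl_eq_zero
      (s := Ioi 0) fun x hx => by rw [g_neg hp (by simpa using hx), mul_zero],
    setIntegral_congr_fun measurableSet_Ioi (g := fun x => exp (-β * j) / Gamma (p + 1) *
      (x ^ (p + 1 - 1) * exp (-(β * x)))) fun x hx => by
        simp only [g, add_sub_cancel_right, max_eq_left (mem_Ioi.1 hx).le, mul_add, exp_add, neg_mul]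
        ring, integral_const_mul, integral_rpow_mul_exp_neg_mul_Ioi (by linarith) hβ]
  have := Gamma_pos_of_pos (show 0 < p + 1 by linarith)
  field_simp

noncomputable def T (r : ℝ) (n : ℕ) (x : ℝ) : ℝ := ∑ j ∈ Finset.range (n + 1),
  (-1) ^ j * n.choose j * g (7 / 4 * (n + 1) - 1 - r) (x - j)

lemma T_cont {r : ℝ} {n : ℕ} (h : 0 < 7 / 4 * (n + 1 : ℝ) - 1 - r) : Continuous (T r n) :=
  continuous_finsetSum _ fun _ _ => ((g_cont h).comp (continuous_sub_right _)).const_mul _

lemma T_bound {r : ℝ} {n : ℕ} (h : 0 < 7 / 4 * (n + 1 : ℝ) - 1 - r)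
    (h' : n - 1 ≤ 7 / 4 * (n + 1 : ℝ) - 1 - r) (x : ℝ) :
    ‖T r n x‖ ≤ 4 * exp (4 * x) * (1 / 2) ^ n := by
  refine (norm_sum_le_of_le _ (n := fun j => n.choose j * (exp (4 * x) * (1 / 4) ^ (n - 1 : ℝ)))
    fun j _ => ?_).trans (le_of_eq ?_)
  · rw [norm_mul, norm_mul, norm_pow, norm_neg, norm_one, one_pow, one_mul, norm_natCast]
    refine mul_le_mul_of_nonneg_left ((g_bound h _).trans (mul_le_mul (exp_le_exp.2 ?_)
      (rpow_le_rpow_of_exponent_ge (by norm_num) (by norm_num) h') (by positivity)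
      (by positivity))) (by positivity)
    linarith [j.cast_nonneg (α := ℝ)]
  · rw [← Finset.sum_mul, ← Nat.cast_sum, Nat.sum_range_choose, rpow_sub (by norm_num),
      rpow_natCast, show (1 / 4 : ℝ) = (1 / 2) * (1 / 2) by norm_num, mul_pow]
    push_cast
    have : (2 : ℝ) ^ n * (1 / 2) ^ n = 1 := by rw [← mul_pow]; norm_num
    linear_combination (4 * exp (4 * x) * (1 / 2) ^ n) * this

lemma T_deriv {r : ℝ} {n : ℕ} (h : 1 < 7 / 4 * (n + 1 : ℝ) - 1 - r) (x : ℝ) :
    HasDerivAt (T r n) (T (r + 1) n x) x := by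
  unfold T
  refine HasDerivAt.fun_sum fun j _ => HasDerivAt.const_mul _ ?_
  simpa [sub_add_eq_sub_sub] using (g_deriv h (x - j)).comp_sub_const x j

lemma sm (c : ℝ) (k : ℕ) : Summable fun n : ℕ => c * (1 / 2 : ℝ) ^ (n + k) :=
  ((summable_nat_add_iff k).2 summable_geometric_two).mul_left c

lemma S_cont {r : ℝ} {k : ℕ} (h : ∀ n : ℕ, 0 < 7 / 4 * ((n + k : ℕ) + 1 : ℝ) - 1 - r)
    (hr : r ≤ 2) (hk : r ≤ 1 ∨ 1 ≤ k) : Continuous fun x => ∑' n, T r (n + k) x :=
  continuous_iff_continuousAt.2 fun x => (continuousOn_tsum (s := Iio (x + 1))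
    (fun n => (T_cont (h n)).continuousOn) (sm (4 * exp (4 * (x + 1))) k) fun n y hy =>
      (T_bound (h n) (by
        have : (k : ℝ) ≤ (n + k : ℕ) := by simp
        rcases hk with hk | hk
        · linarith [k.cast_nonneg (α := ℝ)]
        · have : (1 : ℝ) ≤ k := by exact_mod_cast hk
          linarith) y).trans (by gcongr; exact le_of_lt hy)).continuousAt
    (Iio_mem_nhds (lt_add_one x))

lemma S_deriv {r : ℝ} (hr : r ≤ 1) (x : ℝ) :
    HasDerivAt (fun x => ∑' n, T r (n + 1) x) (∑' n, T (r + 1) (n + 1) x) x := by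
  have n0 : ∀ n : ℕ, (1 : ℝ) ≤ (n + 1 : ℕ) := fun n => by simp
  refine hasDerivAt_tsum_of_isPreconnected (sm (4 * exp (4 * (x + 1))) 1) isOpen_Iio
    isPreconnected_Iio (fun n y _ => T_deriv (by linarith [n0 n]) y) (fun n y hy =>
      (T_bound (by linarith [n0 n]) (by linarith [n0 n]) y).trans (by gcongr; exact le_of_lt hy))
    (lt_add_one x) (.of_norm_bounded (sm _ 1) fun n =>
      T_bound (by linarith [n0 n]) (by linarith [n0 n]) x) (lt_add_one x)

noncomputable def W (x : ℝ) : ℝ := ∑' n, T 0 n x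

lemma p0 (n : ℕ) : 0 < 7 / 4 * (n + 1 : ℝ) - 1 - 0 := by linarith [n.cast_nonneg (α := ℝ)]

lemma T0 (n : ℕ) (x : ℝ) : ‖T 0 n x‖ ≤ 4 * exp (4 * x) * (1 / 2) ^ n :=
  T_bound (p0 n) (by linarith [n.cast_nonneg (α := ℝ)]) x

lemma W_cont : Continuous W := S_cont (k := 0) p0 (by norm_num) (.inl (by norm_num))

lemma W_smooth : ContDiffOn ℝ 2 W (Ioi 0) := by
  have : ContDiff ℝ 2 fun x => ∑' n, T 0 (n + 1) x := by
    rw [show (2 : WithTop ℕ∞) = 1 + 1 from rfl, contDiff_succ_iff_deriv,
      funext fun x => (S_deriv zero_le_one x).deriv, contDiff_one_iff_deriv,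
      show deriv _ = _ from funext fun x => (S_deriv (r := 0 + 1) (by norm_num) x).deriv]
    exact ⟨fun x => (S_deriv zero_le_one x).differentiableAt, by simp, fun x => (S_deriv
      (by norm_num) x).differentiableAt, S_cont (fun n => by
        push_cast; linarith [n.cast_nonneg (α := ℝ)]) (by norm_num) (.inr le_rfl)⟩
  refine ((((contDiffOn_id.rpow_const_of_ne (p := 3 / 4) fun x hx => ne_of_gt hx).div_const
    (Gamma (3 / 4 + 1)))).add this.contDiffOn).congr fun x hx => ?_
  rw [W, (Summable.of_norm_bounded (sm _ 0) (T0 · x)).tsum_eq_zero_add]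
  norm_num [T, g, max_eq_left (show 0 < x from hx).le]

lemma W_lap {β : ℝ} (hβ : 4 < β) : IntegrableOn (fun x => exp (-β * x) * W x) (Ioi 0) ∧
    ∫ x in Ioi 0, exp (-β * x) * W x = 1 / (β ^ (7 / 4 : ℝ) + (exp (-β) - 1)) := by
  have I : IntegrableOn (fun x => exp (-(β - 4) * x)) (Ioi 0) := exp_neg_integrableOn_Ioi 0 (by linarith)
  have e : ∀ x c : ℝ, exp (-β * x) * (exp (4 * x) * c) = exp (-(β - 4) * x) * c := fun x c => by
    rw [← mul_assoc, ← exp_add]; ring_nf
  have b : ∀ n x, ‖exp (-β * x) * T 0 n x‖ ≤ exp (-(β - 4) * x) * 4 * (1 / 2) ^ n := fun n x => by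
    rw [norm_mul, norm_of_nonneg (exp_pos _).le, mul_assoc, ← e]
    exact mul_le_mul_of_nonneg_left ((T0 n x).trans_eq (by ring)) (exp_pos _).le
  have s : ∀ x, HasSum (fun n => exp (-β * x) * T 0 n x) (exp (-β * x) * W x) := fun x =>
    (Summable.of_norm_bounded (sm _ 0) (T0 · x)).hasSum.mul_left _
  have i2 : Integrable (fun x => ∑' n : ℕ, exp (-(β - 4) * x) * 4 * (1 / 2) ^ n)
      (volume.restrict (Ioi 0)) := by
    simp only [tsum_mul_left]
    exact (I.mul_const _).mul_const _
  refine ⟨i2.mono' (by have := W_cont; fun_prop) (.of_forall fun x => (s x).tsum_eq ▸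
    tsum_of_norm_bounded (sm _ 0).hasSum (b · x)), ?_⟩
  have H := hasSum_integral_of_dominated_convergence (μ := volume.restrict (Ioi 0)) _
    (fun n => by have := T_cont (p0 n); fun_prop) (fun n => .of_forall (b n))
    (.of_forall fun x => sm _ 0) i2 (.of_forall s)
  have t : ∀ n, ∫ x in Ioi 0, exp (-β * x) * T 0 n x =
      (β ^ (7 / 4 : ℝ))⁻¹ * ((1 - exp (-β)) * (β ^ (7 / 4 : ℝ))⁻¹) ^ n := fun n => by
    simp only [T, Finset.mul_sum, mul_left_comm (exp _)]
    rw [integral_finsetSum _ fun j _ => Integrable.const_mul ((I.mul_const _).mono'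
      (by have := g_cont (p0 n); fun_prop) (.of_forall fun x => by
        rw [norm_mul, norm_of_nonneg (exp_pos _).le, ← e]
        exact mul_le_mul_of_nonneg_left ((g_bound (p0 n) _).trans (mul_le_mul_of_nonneg_right
          (exp_le_exp.2 (by linarith [j.cast_nonneg (α := ℝ)])) (by positivity)))
          (exp_pos _).le)) _]
    simp only [integral_const_mul, lap (p0 n) (by linarith : 0 < β) (Nat.cast_nonneg _)]
    rw [mul_pow, mul_left_comm, ← pow_succ', sub_eq_neg_add 1, add_pow, Finset.sum_mul, sub_zero,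
      sub_add_cancel, rpow_mul (by positivity), one_div, inv_rpow (by linarith), ← Nat.cast_succ,
      rpow_natCast]
    refine Finset.sum_congr rfl fun j _ => ?_
    rw [neg_pow (exp _), ← exp_nat_mul, mul_comm (j : ℝ), Nat.succ_eq_add_one]
    ring
  simp only [t] at H
  have h1 : 1 < β ^ (7 / 4 : ℝ) := one_lt_rpow (by linarith) (by norm_num)
  have h2 := exp_pos (-β)
  have h3 : exp (-β) ≤ 1 := exp_le_one_iff.2 (by linarith)
  rw [H.unique ((hasSum_geometric_of_lt_one (mul_nonneg (by linarith) (by positivity))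
    (by rw [← div_eq_mul_inv, div_lt_one (by linarith)]; linarith)).mul_left _), ← mul_inv, one_div]
  congr 1
  field_simp
  ring

noncomputable def ρ : Measure ℝ :=
  (volume.restrict (Ioi 0)).withDensity fun y => ENNReal.ofReal (y ^ (-11 / 4 : ℝ))

lemma ρ_int {f : ℝ → ℝ} (hf : Measurable f) (C : ℝ) (h1 : ∀ y, 0 < y → |f y| ≤ C * y)
    (h2 : ∀ y, 0 < y → |f y| ≤ C * y ^ 2) : Integrable f ρ := by
  rw [ρ, integrable_withDensity_iff (by fun_prop) (by simp), ← IntegrableOn,
    ← Ioo_union_Ici_eq_Ioi zero_lt_one, integrableOn_union, integrableOn_Ici_iff_integrableOn_Ioi]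
  have k : ∀ (y a : ℝ), 0 < y → |f y| ≤ C * y ^ a →
      ‖f y * (ENNReal.ofReal (y ^ (-11 / 4 : ℝ))).toReal‖ ≤ C * y ^ (a + -11 / 4) :=
    fun y a hy h => by
      rw [ENNReal.toReal_ofReal (by positivity), norm_mul, norm_of_nonneg (r := y ^ _)
        (by positivity), rpow_add hy, ← mul_assoc]
      exact mul_le_mul_of_nonneg_right h (by positivity)
  exact ⟨(((intervalIntegral.integrableOn_Ioo_rpow_iff zero_lt_one).2 (by norm_num)).const_mul
      C).mono' (by fun_prop) ((ae_restrict_iff' measurableSet_Ioo).2 (.of_forall fun y hy =>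
        k y 2 hy.1 (by simpa using h2 y hy.1))),
    ((integrableOn_Ioi_rpow_of_lt (by norm_num) zero_lt_one).const_mul C).mono' (by fun_prop)
      ((ae_restrict_iff' measurableSet_Ioi).2 (.of_forall fun y hy =>
        k y 1 (zero_lt_one.trans hy) (by simpa using h1 y (zero_lt_one.trans hy))))⟩

lemma ρ_pos : ∀ᵐ y ∂ρ, 0 < y :=
  withDensity_absolutelyContinuous _ _ ((ae_restrict_iff' measurableSet_Ioi).2 (.of_forall fun _ => id))

lemma ρ_exp {β : ℝ} (hβ : 1 ≤ β) : Integrable (fun y => exp (-(β * y)) - 1 + β * y) ρ := by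
  have k : ∀ t : ℝ, 0 < t → |exp (-t) - 1 + t| ≤ t := fun t ht => abs_le.2
    ⟨by linarith [add_one_le_exp (-t)], by linarith [exp_le_one_iff.2 (neg_nonpos.2 ht.le)]⟩
  refine ρ_int (by fun_prop) (β ^ 2) (fun y hy => (k _ (by positivity)).trans
    (mul_le_mul_of_nonneg_right (by nlinarith) hy.le)) fun y hy => ?_
  rw [← mul_pow]
  have : 0 < β * y := by positivity
  rcases le_total (β * y) 1 with h | h
  · simpa using abs_exp_sub_one_sub_id_le (x := -(β * y)) (by rwa [abs_neg, abs_of_pos this])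
  · exact (k _ this).trans (by nlinarith)

lemma ρ_scale {β : ℝ} (hβ : 0 < β) : ∫ y, exp (-(β * y)) - 1 + β * y ∂ρ =
    β ^ (7 / 4 : ℝ) * ∫ y, exp (-(1 * y)) - 1 + 1 * y ∂ρ := by
  simp only [ρ, one_mul]
  rw [integral_withDensity_eq_integral_toReal_smul (by fun_prop) (by simp),
    integral_withDensity_eq_integral_toReal_smul (by fun_prop) (by simp)]
  have := integral_comp_mul_left_Ioi' (fun y => (ENNReal.ofReal (y ^ (-11 / 4 : ℝ))).toReal •
    (exp (-y) - 1 + y)) 0 hβ
  rw [mul_zero] at this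
  rw [← this, smul_eq_mul, ← integral_const_mul, ← integral_const_mul]
  refine setIntegral_congr_fun measurableSet_Ioi fun y hy => ?_
  have : 0 < y := hy
  have e : β ^ (7 / 4 : ℝ) * (β * β ^ (-11 / 4 : ℝ)) = 1 := by
    rw [← rpow_one_add' hβ.le (by norm_num), ← rpow_add hβ]; norm_num
  simp only [smul_eq_mul]
  rw [ENNReal.toReal_ofReal (by positivity), ENNReal.toReal_ofReal (by positivity),
    mul_rpow hβ.le this.le]
  linear_combination -(y ^ (-11 / 4 : ℝ) * (exp (-(β * y)) - 1 + β * y)) * e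

lemma ρ_top : ∫⁻ y in Ioo 0 1, ENNReal.ofReal y ∂ρ = ⊤ := by
  rw [ρ, restrict_withDensity measurableSet_Ioo, lintegral_withDensity_eq_lintegral_mul _
    (by fun_prop) (by fun_prop), Measure.restrict_restrict measurableSet_Ioo,
    inter_eq_left.2 Ioo_subset_Ioi_self]
  by_contra h
  have : IntegrableOn (fun y : ℝ => y ^ (-11 / 4 + 1 : ℝ)) (Ioo 0 1) := by
    refine ⟨by fun_prop, lt_of_eq_of_lt (setLIntegral_congr_fun measurableSet_Ioo fun y hy => ?_)
      (lt_top_iff_ne_top.2 h)⟩
    have := hy.1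
    rw [Pi.mul_apply, ← ENNReal.ofReal_mul (by positivity), ← rpow_add_one this.ne',
      enorm_eq_ofReal (by positivity)]
  rw [intervalIntegral.integrableOn_Ioo_rpow_iff zero_lt_one] at this
  norm_num at this

lemma C_pos : 0 < ∫ y, exp (-(1 * y)) - 1 + 1 * y ∂ρ := by
  refine (integral_pos_iff_support_of_nonneg (fun y => by
    simp only [Pi.zero_apply]; linarith [add_one_le_exp (-(1 * y))]) (ρ_exp le_rfl)).2
    (pos_iff_ne_zero.2 fun h => ?_)
  have : ρ (Ioo 0 1) = 0 := measure_mono_null (fun y hy => Function.mem_support.2 (by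
    linarith [add_one_lt_exp (x := -(1 * y)) (by linarith [hy.1])])) h
  simpa [Measure.restrict_eq_zero.2 this] using ρ_top

end Pool.Agent.Lib.helper1.Doney
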