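import Mathlib

set_option autoImplicit false

namespace Pool.Agent.Lib.helper1.ERW

open MeasureTheory ProbabilityTheory Filter Topology

abbrev ι : Type := ℤ × Option (ℕ × ℕ)
abbrev Θ : Type := ι → unitInterval

noncomputable abbrev μ : Measure Θ := Measure.infinitePi fun _ : ι => (volume : Measure unitInterval)

lemma merge (B : ι → Prop) [DecidablePred B] :
    MeasurePreserving (fun (p : Θ × Θ) i => if B i then p.1 i else p.2 i) (μ.prod μ) μ := by
  have m : Measurable fun (p : Θ × Θ) i => if B i then p.1 i else p.2 i :=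
    measurable_pi_lambda _ fun i => by split_ifs <;> fun_prop
  refine ⟨m, Measure.eq_infinitePi _ fun s t ht => ?_⟩
  have : (fun (p : Θ × Θ) i => if B i then p.1 i else p.2 i) ⁻¹'
      Set.pi s t = Set.pi (s.filter B) t ×ˢ Set.pi (s.filter (¬ B ·)) t := by
    ext p
    simp only [Set.mem_preimage, Set.mem_pi, Set.mem_prod, Finset.mem_coe, Finset.mem_filter]
    refine ⟨fun h => ⟨fun i hi => by simpa [hi.2] using h i hi.1,
      fun i hi => by simpa [hi.2] using h i hi.1⟩, fun h i hi => ?_⟩
    split_ifs with c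
    exacts [h.1 i ⟨hi, c⟩, h.2 i ⟨hi, c⟩]
  rw [Measure.map_apply m (MeasurableSet.pi s.countable_toSet fun i _ => ht i), this,
    Measure.prod_prod, Measure.infinitePi_pi _ fun i _ => ht i,
    Measure.infinitePi_pi _ fun i _ => ht i, Finset.prod_filter_mul_prod_filter_not]

lemma upd (c : ι) : MeasurePreserving (fun p : Θ × unitInterval => Function.update p.1 c p.2)
    (μ.prod volume) μ := by
  have mu : Measurable fun p : Θ × unitInterval => Function.update p.1 c p.2 := measurable_update'
  refine ⟨mu, ?_⟩
  have e := ((MeasurePreserving.id μ).prod (measurePreserving_eval_infinitePi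
    (fun _ : ι => (volume : Measure unitInterval)) c)).map_eq
  conv_lhs => rw [← e, Measure.map_map mu (by fun_prop)]
  refine Eq.trans ?_ (merge (· ≠ c)).map_eq
  congr 1
  ext p i
  by_cases h : i = c <;> simp [h]

open Classical in
/-- Position and visit counts of the walk that follows the arrows `a`. -/
noncomputable def st (a : ℤ → ℕ → Prop) : ℕ → ℤ × (ℤ → ℕ)
  | 0 => (0, 0)
  | n + 1 => (if a (st a n).1 ((st a n).2 (st a n).1) then (st a n).1 + 1 else (st a n).1 - 1,
      Function.update (st a n).2 (st a n).1 ((st a n).2 (st a n).1 + 1))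

lemma st_cnt (a : ℤ → ℕ → Prop) (n : ℕ) (y : ℤ) :
    (st a n).2 y = ((Finset.range n).filter fun m => (st a m).1 = y).card := by
  induction n with
  | zero => rfl
  | succ n ih =>
    rw [Finset.range_add_one, Finset.filter_insert]
    by_cases h : (st a n).1 = y
    · rw [if_pos h, Finset.card_insert_of_notMem (by simp), ← ih, st]; subst h; simp
    · rw [if_neg h, ← ih, st]; exact Function.update_of_ne (Ne.symm h) _ _

lemma st_le (a : ℤ → ℕ → Prop) (n : ℕ) (y : ℤ) :
    (st a n).2 y ≤ (st a (n + 1)).2 y := by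
  rw [st]
  by_cases h : y = (st a n).1
  · subst h; simp
  · simp [Function.update_of_ne h]

lemma st_congr {a b : ℤ → ℕ → Prop} (n : ℕ)
    (h : ∀ x i, i < (st a n).2 x → (a x i ↔ b x i)) : ∀ m ≤ n, st a m = st b m := by
  induction n with
  | zero => intro m hm; rw [Nat.le_zero.1 hm]; rfl
  | succ n ih =>
    have ih := ih fun x i hi => h x i (hi.trans_le (st_le a n x))
    intro m hm
    rcases hm.eq_or_lt with rfl | l
    · have := h (st a n).1 ((st a n).2 (st a n).1) (by simp [st])
      rw [st, st, ← ih n le_rfl, propext this]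
    · exact ih m (by omega)

lemma m_ev {Ω A B : Type} [MeasurableSpace Ω] [MeasurableSpace A] [MeasurableSpace B] [Countable A]
    [MeasurableSingletonClass A] {f : Ω → A → B} {g : Ω → A} (hf : Measurable f)
    (hg : Measurable g) : Measurable fun ω => f ω (g ω) :=
  (measurable_from_prod_countable_left (f := fun p : (A → B) × A => p.1 p.2)
    fun a => measurable_pi_apply a).comp (hf.prodMk hg)

lemma m_st {Ω : Type} [MeasurableSpace Ω] {a : Ω → ℤ → ℕ → Prop} (ha : Measurable a) (n : ℕ) :
    Measurable fun ω => st (a ω) n := by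
  induction n with
  | zero => exact measurable_const
  | succ n ih =>
    have h2 := m_ev ih.snd ih.fst
    refine Measurable.prodMk (Measurable.ite (measurableSet_setOfPred.2 (m_ev (m_ev ha ih.fst) h2))
      (ih.fst.add_const 1) (ih.fst.sub_const 1)) (measurable_pi_lambda _ fun y => ?_)
    simp only [Function.update_apply]
    exact Measurable.ite (measurableSet_eq_fun measurable_const ih.fst) (h2.add_const 1)
      ((measurable_pi_apply y).comp ih.snd)

open Classical in
noncomputable def left (e : ℤ → ℕ → ℝ) (X : ℕ → ℤ) (x : ℤ) (n : ℕ) : ℝ :=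
  if Tendsto (fun m => |X m|) atTop atTop then e x (n + Nat.card {m : ℕ // X m = x}) else 1 / 2

def arr (e : ℤ → ℕ → ℝ) (j : ℕ) (θ : Θ) (x : ℤ) (i : ℕ) : Prop := (θ (x, some (j, i)) : ℝ) < e x i

variable (ck : unitInterval → ℕ → ℝ)

noncomputable def env : ℕ → Θ → ℤ → ℕ → ℝ
  | 0, θ => fun x => ck (θ (x, none))
  | j + 1, θ => left (env j θ) fun n => (st (arr (env j θ) j θ) n).1

noncomputable def XX (j : ℕ) (θ : Θ) (n : ℕ) : ℤ := (st (arr (env ck j θ) j θ) n).1

lemma m_tr : MeasurableSet {X : ℕ → ℤ | Tendsto (fun m => |X m|) atTop atTop} := by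
  simp only [tendsto_atTop_atTop]
  exact measurableSet_setOfPred.2 (Measurable.forall fun b => Measurable.exists fun N =>
    Measurable.forall fun m => measurable_const.imp
      ((Measurable.of_discrete (f := fun z : ℤ => b ≤ |z|)).comp (measurable_pi_apply m)))

lemma m_left : Measurable fun p : (ℤ → ℕ → ℝ) × (ℕ → ℤ) => left p.1 p.2 :=
  measurable_pi_lambda _ fun x => measurable_pi_lambda _ fun n =>
    Measurable.ite (measurable_snd m_tr) (m_ev (by fun_prop) (Measurable.const_add
      (measurable_ncard.comp (f := fun p : (ℤ → ℕ → ℝ) × (ℕ → ℤ) => {m | p.2 m = x})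
        (measurable_set_iff.2 fun m => (Measurable.of_discrete (f := fun z : ℤ => z = x)).comp
          (by fun_prop))) n)) measurable_const

lemma m_arr {e : Θ → ℤ → ℕ → ℝ} (he : Measurable e) (j : ℕ) : Measurable fun θ => arr (e θ) j θ :=
  measurable_pi_lambda _ fun x => measurable_pi_lambda _ fun i =>
    measurableSet_setOfPred.1 (measurableSet_lt (by fun_prop) (by fun_prop))

variable {ck}

lemma m_env (h : Measurable ck) (j : ℕ) : Measurable (env ck j) := by
  induction j with
  | zero => exact measurable_pi_lambda _ fun x => h.comp (measurable_pi_apply _)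
  | succ j ih =>
    exact m_left.comp (f := fun θ => (env ck j θ, fun n => (st (arr (env ck j θ) j θ) n).1))
      (ih.prodMk (measurable_pi_lambda _ fun n => (m_st (m_arr ih j) n).fst))

lemma m_XX (h : Measurable ck) (j : ℕ) : Measurable (XX ck j) :=
  measurable_pi_lambda _ fun n => (m_st (m_arr (m_env h j) j) n).fst

lemma env_mem (h : ∀ s i, ck s i ∈ Set.Icc (0 : ℝ) 1) (j : ℕ) (θ : Θ) (x : ℤ) (i : ℕ) :
    env ck j θ x i ∈ Set.Icc (0 : ℝ) 1 := by
  induction j generalizing i with
  | zero => exact h _ _
  | succ j ih =>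
    simp only [env, left]
    split_ifs
    exacts [ih _, by norm_num]

lemma env_upd {j l i : ℕ} (h : l ≤ j) (θ : Θ) (x : ℤ) (s : unitInterval) :
    env ck l (Function.update θ (x, some (j, i)) s) = env ck l θ := by
  induction l with
  | zero => ext y; simp [env]
  | succ l ih =>
    have : arr (env ck l θ) l (Function.update θ (x, some (j, i)) s) = arr (env ck l θ) l θ := by
      ext y k
      rw [arr, Function.update_of_ne (by simp; omega), arr]
    simp only [env, ih (by omega), this]

/-- The environment is a function of the first environment and the earlier paths. -/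
noncomputable def envG (W : ℤ → ℕ → ℝ) (Y : ℕ → ℕ → ℤ) : ℕ → ℤ → ℕ → ℝ
  | 0 => W
  | j + 1 => left (envG W Y j) (Y j)

lemma m_envG (j : ℕ) : Measurable fun p : (ℤ → ℕ → ℝ) × (ℕ → ℕ → ℤ) => envG p.1 p.2 j := by
  induction j with
  | zero => exact measurable_fst
  | succ j ih =>
    exact m_left.comp (f := fun p : (ℤ → ℕ → ℝ) × (ℕ → ℕ → ℤ) => (envG p.1 p.2 j, p.2 j))
      (ih.prodMk (by fun_prop))

lemma envG_eq (θ : Θ) (Y : ℕ → ℕ → ℤ) (j : ℕ) (h : ∀ l < j, Y l = XX ck l θ) :
    envG (env ck 0 θ) Y j = env ck j θ := by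
  induction j with
  | zero => rfl
  | succ j ih => rw [envG, ih fun l hl => h l (by omega), h j (by omega)]; rfl

lemma cond (h : Measurable ck) (h01 : ∀ s i, ck s i ∈ Set.Icc (0 : ℝ) 1) (j n : ℕ) :
    condExp (MeasurableSpace.comap (fun θ => (env ck 0 θ, (fun i : Fin j => XX ck (i : ℕ) θ),
      (fun m : Fin (n+1) => XX ck j θ (m : ℕ)))) inferInstance) μ
      (Set.indicator {θ | XX ck j θ (n+1) = XX ck j θ n + 1} (fun _ => (1:ℝ)))
      =ᵐ[μ] fun θ => env ck j θ (XX ck j θ n)
        ((Finset.range n).filter (fun m => XX ck j θ m = XX ck j θ n)).card := by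
  classical
  have mX := m_XX h
  have mE := m_env h
  set G := fun θ => (env ck 0 θ, (fun i : Fin j => XX ck (i : ℕ) θ),
    (fun m : Fin (n+1) => XX ck j θ (m : ℕ))) with hG
  have mG : Measurable G := by have := mE 0; have := mX j; fun_prop
  let c : Θ → ℤ × ℕ := fun θ => (XX ck j θ n, (st (arr (env ck j θ) j θ) n).2 (XX ck j θ n))
  have mc : Measurable c := Measurable.prodMk (by have := mX j; fun_prop)
    (m_ev (m_st (m_arr (mE j) j) n).snd (by have := mX j; fun_prop))
  have e0 : (fun θ => env ck j θ (XX ck j θ n) ((Finset.range n).filter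
      (fun m => XX ck j θ m = XX ck j θ n)).card) = fun θ => env ck j θ (c θ).1 (c θ).2 :=
    funext fun θ => by simp only [c, st_cnt]; rfl
  have me : Measurable fun θ => env ck j θ (c θ).1 (c θ).2 := m_ev (m_ev (mE j) mc.fst) mc.snd
  have mS : MeasurableSet {θ | XX ck j θ (n+1) = XX ck j θ n + 1} :=
    measurableSet_eq_fun (by have := mX j; fun_prop) (by have := mX j; fun_prop)
  have ie : Integrable (fun θ => env ck j θ (c θ).1 (c θ).2) μ := .of_bound
    me.aestronglyMeasurable 1 (.of_forall fun θ => by
      rw [Real.norm_of_nonneg (env_mem h01 _ _ _ _).1]; exact (env_mem h01 _ _ _ _).2)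
  refine (ae_eq_condExp_of_forall_setIntegral_eq mG.comap_le ((integrable_const _).indicator mS)
    (fun s _ _ => e0 ▸ ie.integrableOn) ?_ ?_).symm
  · rintro _ ⟨B, hB, rfl⟩ -
    rw [e0, setIntegral_indicator mS, setIntegral_const, smul_eq_mul, mul_one,
      integral_eq_lintegral_of_nonneg_ae (.of_forall fun θ => (env_mem h01 _ _ _ _).1)
        me.aestronglyMeasurable, Measure.real]
    congr 1
    let A := fun p : ℤ × ℕ => G ⁻¹' B ∩ c ⁻¹' {p}
    have mA : ∀ p, MeasurableSet (A p) := fun p => (mG hB).inter (mc (.singleton p))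
    have dA : Pairwise (Function.onFun Disjoint A) := fun p q hpq =>
      Set.disjoint_left.2 fun θ h1 h2 => hpq (h1.2.symm.trans h2.2)
    have uA : G ⁻¹' B = ⋃ p, A p := by ext θ; simp [A]
    rw [uA, lintegral_iUnion mA dA, Set.iUnion_inter, measure_iUnion (fun p q hpq =>
      (dA hpq).mono Set.inter_subset_left Set.inter_subset_left) fun p => (mA p).inter mS]
    refine tsum_congr fun p => ?_
    have key : ∀ θ s, c θ = p → c (Function.update θ (p.1, some (j, p.2)) s) = p ∧
        G (Function.update θ (p.1, some (j, p.2)) s) = G θ := fun θ s hc => by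
      have := st_congr (a := arr (env ck j θ) j θ) (b := arr (env ck j θ) j
        (Function.update θ (p.1, some (j, p.2)) s)) n fun x i hi => by
          rw [arr, arr, Function.update_of_ne]
          rintro ⟨⟩
          rw [← hc] at hi
          exact hi.ne rfl
      have e : ∀ m ≤ n, XX ck j (Function.update θ (p.1, some (j, p.2)) s) m = XX ck j θ m :=
        fun m hm => by rw [XX, env_upd le_rfl, ← this m hm, XX]
      refine ⟨by simp only [c, e n le_rfl, env_upd le_rfl, ← this n le_rfl]; exact hc, ?_⟩
      simp only [G, env_upd j.zero_le, fun m : Fin (n + 1) => e m (by omega)]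
      congr 2
      ext l m
      have : arr (env ck l θ) l (Function.update θ (p.1, some (j, p.2)) s)
          = arr (env ck l θ) l θ := by
        ext y k
        rw [arr, Function.update_of_ne (by simp; omega), arr]
      simp only [XX, env_upd l.2.le, this]
    have iv : ∀ θ s, Function.update θ (p.1, some (j, p.2)) s ∈ A p ↔ θ ∈ A p := fun θ s => by
      refine ⟨fun h => ?_, fun h => ⟨by rw [Set.mem_preimage, (key θ s h.2).2]; exact h.1,
        (key θ s h.2).1⟩⟩
      have := key _ (θ (p.1, some (j, p.2))) h.2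
      rw [Function.update_idem, Function.update_eq_self] at this
      exact ⟨by rw [Set.mem_preimage, this.2]; exact h.1, this.1⟩
    have U := upd (p.1, some (j, p.2))
    rw [← U.measure_preimage ((mA p).inter mS).nullMeasurableSet, Measure.prod_apply
      (U.measurable ((mA p).inter mS)), ← lintegral_indicator (mA p)]
    refine lintegral_congr fun θ => ?_
    by_cases hθ : θ ∈ A p
    · have hc : c θ = p := hθ.2
      have : Prod.mk θ ⁻¹' ((fun q : Θ × unitInterval => Function.update q.1 (p.1, some (j, p.2))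
          q.2) ⁻¹' (A p ∩ {θ | XX ck j θ (n+1) = XX ck j θ n + 1}))
          = Set.Iio ⟨_, env_mem h01 j θ p.1 p.2⟩ := by
        ext s
        have k := (key θ s hc).1
        simp only [c, XX, Prod.ext_iff] at k
        simp only [Set.mem_preimage, Set.mem_inter_iff, (iv θ s).2 hθ, true_and, Set.mem_ofPred_eq,
          XX, st, k.2, Set.mem_Iio]
        rw [k.1, arr, Function.update_self, env_upd le_rfl, ← Subtype.coe_lt_coe]
        split_ifs with l <;> simp [l]
        omega
      rw [this, Set.indicator_of_mem hθ, unitInterval.volume_Iio, hc]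
    · rw [Set.indicator_of_notMem hθ, show Prod.mk θ ⁻¹' _ = ∅ from
        Set.eq_empty_of_forall_notMem fun s hs => hθ ((iv θ s).1 hs.1), measure_empty]
  · let Φ : (ℤ → ℕ → ℝ) × (Fin j → ℕ → ℤ) × (Fin (n + 1) → ℤ) → ℝ := fun q =>
      envG q.1 (fun l => if h : l < j then q.2.1 ⟨l, h⟩ else 0) j (q.2.2 (Fin.last n))
        ((Finset.range n).filter fun m => q.2.2 (Fin.ofNat _ m) = q.2.2 (Fin.last n)).card
    have mY : Measurable fun (q : (ℤ → ℕ → ℝ) × (Fin j → ℕ → ℤ) × (Fin (n + 1) → ℤ)) (l : ℕ) =>
        if h : l < j then q.2.1 ⟨l, h⟩ else 0 :=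
      measurable_pi_lambda _ fun l => by split_ifs <;> fun_prop
    have mΦ : Measurable Φ := m_ev (m_ev ((m_envG j).comp (measurable_fst.prodMk mY)) (by fun_prop))
      ((Measurable.of_discrete (f := fun z : Fin (n + 1) → ℤ => ((Finset.range n).filter fun m =>
        z (Fin.ofNat _ m) = z (Fin.last n)).card)).comp (by fun_prop))
    refine ((mΦ.comp (comap_measurable G)).stronglyMeasurable.aestronglyMeasurable).congr
      (.of_forall fun θ => ?_)
    simp only [Function.comp, Φ, G, Fin.val_last]
    rw [envG_eq θ _ j fun l hl => dif_pos hl]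
    congr 2
    refine Finset.filter_congr fun m hm => ?_
    rw [Fin.val_ofNat, Nat.mod_eq_of_lt (by have := Finset.mem_range.1 hm; omega)]

lemma law (h : Measurable ck) : μ.map (env ck 0) = Measure.infinitePi fun _ : ℤ => volume.map ck := by
  rw [← Measure.infinitePi_map_pi _ (f := fun _ => ck) fun _ => h,
    ← Measure.map_infinitePi_infinitePi_of_inj (P := fun _ : ι => (volume : Measure unitInterval))
      (f := fun x : ℤ => (x, none)) fun x y e => (Prod.ext_iff.1 e).1,
    Measure.map_map (by fun_prop) (by fun_prop)]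
  rfl

end Pool.Agent.Lib.helper1.ERW
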