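import Pool.Agent.Lib.helper1.ERW1

set_option autoImplicit false

namespace Pool.Agent.Lib.helper1.ERW

open MeasureTheory ProbabilityTheory Filter Topology

open Classical in
noncomputable def cn (p : ℕ → Prop) (i : ℕ) : ℕ := Nat.count p i

lemma cn_pos {p : ℕ → Prop} {i : ℕ} (h : p i) : cn p (i + 1) = cn p i + 1 := by
  classical simp [cn, Nat.count_succ, h]

lemma cn_neg {p : ℕ → Prop} {i : ℕ} (h : ¬ p i) : cn p (i + 1) = cn p i := by
  classical simp [cn, Nat.count_succ, h]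

lemma cn_mono (p : ℕ → Prop) : Monotone (cn p) := by classical exact Nat.count_monotone p

lemma cn_all {p : ℕ → Prop} {i : ℕ} (h : ∀ k < i, p k) : cn p i = i := by
  classical exact Nat.count_of_forall h

lemma cn_inj {p : ℕ → Prop} {i j : ℕ} (hi : p i) (hj : p j) (h : cn p i = cn p j) : i = j := by
  classical exact Nat.count_injective hi hj h

lemma cn_add (p : ℕ → Prop) (i : ℕ) : cn p i + cn (¬ p ·) i = i := by
  induction i with
  | zero => rfl
  | succ i ih =>
    by_cases h : p i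
    · rw [cn_pos h, cn_neg (not_not.2 h)]; omega
    · rw [cn_neg h, cn_pos (p := (¬ p ·)) h]; omega

lemma cn_enc (p : ℕ → Prop) (i : ℕ) : (cn p i : ℕ∞) = {k | k < i ∧ p k}.encard := by
  classical
  rw [cn, Nat.count_eq_card_filter_range, ← Set.encard_coe_eq_coe_finsetCard]
  congr 1; ext; simp

lemma st_pos {a : ℤ → ℕ → Prop} {n : ℕ} (h : a (st a n).1 ((st a n).2 (st a n).1)) :
    (st a (n + 1)).1 = (st a n).1 + 1 := by rw [st, if_pos h]

lemma st_neg {a : ℤ → ℕ → Prop} {n : ℕ} (h : ¬ a (st a n).1 ((st a n).2 (st a n).1)) :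
    (st a (n + 1)).1 = (st a n).1 - 1 := by rw [st, if_neg h]

lemma st_self (a : ℤ → ℕ → Prop) (n : ℕ) :
    (st a (n + 1)).2 (st a n).1 = (st a n).2 (st a n).1 + 1 := by rw [st]; simp

lemma st_ne (a : ℤ → ℕ → Prop) (n : ℕ) {x : ℤ} (h : x ≠ (st a n).1) :
    (st a (n + 1)).2 x = (st a n).2 x := by rw [st]; exact Function.update_of_ne h _ _

lemma cross (a : ℤ → ℕ → Prop) (n : ℕ) (x : ℤ) : cn (¬ a x ·) ((st a n).2 x) +
    (if x ≤ (st a n).1 then 1 else 0) ≤ cn (a (x - 1)) ((st a n).2 (x - 1)) + 1 := by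
  induction n with
  | zero => change 0 + _ ≤ 0 + 1; split_ifs <;> omega
  | succ n ih =>
    have m := cn_mono (a (x - 1)) (st_le a n (x - 1))
    by_cases h : a (st a n).1 ((st a n).2 (st a n).1)
    · rw [st_pos h]
      by_cases e : x = (st a n).1
      · subst e
        rw [st_self, cn_neg (not_not.2 h)]
        split_ifs at ih ⊢ <;> omega
      · rw [st_ne a n e]
        by_cases e' : x - 1 = (st a n).1
        · rw [e'] at ih ⊢
          rw [st_self, cn_pos h]
          split_ifs at ih ⊢ <;> omega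
        · split_ifs at ih ⊢ <;> omega
    · rw [st_neg h]
      by_cases e : x = (st a n).1
      · subst e
        rw [st_self, cn_pos (p := (¬ a (st a n).1 ·)) h]
        split_ifs at ih ⊢ <;> omega
      · rw [st_ne a n e]
        split_ifs at ih ⊢ <;> omega

/-- The number of right arrows before the left arrow number `m + 1`. -/
noncomputable def F (a : ℕ → Prop) (m : ℕ∞) : ℕ∞ := {i | a i ∧ (cn (¬ a ·) i : ℕ∞) ≤ m}.encard

lemma F_mono (a : ℕ → Prop) : Monotone (F a) := fun _ _ h =>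
  Set.encard_le_encard fun _ hi => ⟨hi.1, hi.2.trans h⟩

lemma bound (a : ℤ → ℕ → Prop) (u : ℤ → ℕ∞) (hu : ∀ x, F (a x) (u (x - 1)) ≤ u x) (n : ℕ) (x : ℤ) :
    (cn (a x) ((st a n).2 x) : ℕ∞) ≤ u x := by
  induction n generalizing x with
  | zero => simp [st, cn]
  | succ n ih =>
    by_cases e : x = (st a n).1
    · have c := cross a n x
      rw [if_pos e.le] at c
      refine le_trans ?_ (hu x)
      rw [cn_enc]
      refine Set.encard_le_encard fun k hk => ⟨hk.2, le_trans ?_ (ih (x - 1))⟩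
      have := hk.1
      rw [e, st_self, ← e] at this
      exact Nat.cast_le.2 ((cn_mono _ (by omega)).trans (Nat.le_of_add_le_add_right c))
    · rw [st_ne a n e]; exact ih x

lemma trans (a : ℤ → ℕ → Prop) (u : ℤ → ℕ∞) (hu : ∀ x, F (a x) (u (x - 1)) ≤ u x)
    (hf : ∀ x, u x ≠ ⊤) : Tendsto (fun m => |(st a m).1|) atTop atTop := by
  have fin : ∀ x, {m | (st a m).1 = x}.Finite := fun x => by
    by_contra hi
    obtain ⟨p, hp⟩ := ENat.ne_top_iff_exists.1 (hf x)
    obtain ⟨q, hq⟩ := ENat.ne_top_iff_exists.1 (hf (x - 1))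
    obtain ⟨t, ht, ct⟩ := Set.Infinite.exists_subset_card_eq hi (p + q + 2)
    have h1 := bound a u hu (t.sup id + 1) x
    have h2 := bound a u hu (t.sup id + 1) (x - 1)
    rw [← hp, Nat.cast_le] at h1
    rw [← hq, Nat.cast_le] at h2
    have h3 := cross a (t.sup id + 1) x
    have h4 := cn_add (a x) ((st a (t.sup id + 1)).2 x)
    have h5 : t.card ≤ (st a (t.sup id + 1)).2 x := by
      rw [st_cnt]
      exact Finset.card_le_card fun m hm => Finset.mem_filter.2
        ⟨Finset.mem_range.2 (Nat.lt_succ_of_le (Finset.le_sup (f := id) hm)), ht hm⟩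
    omega
  rw [← Nat.cofinite_eq_atTop]
  refine tendsto_atTop.2 fun b => eventually_cofinite.2
    (((Set.finite_Ioo (-b) b).biUnion fun x _ => fin x).subset fun m hm => ?_)
  simpa [abs_lt] using hm

lemma P1 {a : ℕ → Prop} {N : ℕ} (h : ∀ i < N, ¬ a i) (m : ℕ∞) : F a m ≤ (if (N : ℕ∞) ≤ m then N
    else 0) + {i | a i ∧ (cn (¬ a ·) i : ℕ∞) ≤ m ∧ 2 * N ≤ i}.encard := by
  have hN : cn (¬ a ·) N = N := cn_all h
  have l : ∀ i, a i → N ≤ i := fun i hi => not_lt.1 fun l => h i l hi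
  split_ifs with c
  · have : (N : ℕ∞) = (Set.Ico N (2 * N)).encard := by
      rw [← Finset.coe_Ico, Set.encard_coe_eq_coe_finsetCard, Nat.card_Ico]; congr 1; omega
    rw [this]
    refine le_trans (Set.encard_le_encard fun i hi => ?_) (Set.encard_union_le _ _)
    by_cases k : i < 2 * N
    exacts [.inl ⟨l i hi.1, k⟩, .inr ⟨hi.1, hi.2, not_lt.1 k⟩]
  · rw [F, Set.eq_empty_of_forall_notMem (s := {i | a i ∧ _}) fun i hi =>
      c ((Nat.cast_le.2 (hN.ge.trans (cn_mono _ (l i hi.1)))).trans hi.2)]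
    simp

lemma P2 {a : ℕ → Prop} {N : ℕ} (h : ∀ i < N, ¬ a i) (m : ℕ∞) : (if (N : ℕ∞) ≤ m then N else 0) +
    {i | ¬ a i ∧ (cn (¬ a ·) i : ℕ∞) ≤ m ∧ 2 * N ≤ i}.encard + (if m + 1 ≤ N then m + 1 else 0)
    ≤ m + 1 := by
  have hN : cn (¬ a ·) N = N := cn_all h
  have l : ∀ i, 2 * N ≤ i → N ≤ cn (¬ a ·) i := fun i hi => hN.ge.trans (cn_mono _ (by omega))
  induction m using ENat.recTopCoe with
  | top => simp
  | coe k =>
    by_cases c : N ≤ k
    · rw [if_pos (Nat.cast_le.2 c), if_neg (by norm_cast; omega), add_zero,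
        ← Set.InjOn.encard_image (f := cn (¬ a ·)) fun i hi j hj e =>
          cn_inj (p := (¬ a ·)) hi.1 hj.1 e]
      refine (add_le_add_right (Set.encard_le_encard (t := Set.Icc N k) ?_) _).trans ?_
      · rintro _ ⟨i, hi, rfl⟩
        exact ⟨l i hi.2.2, Nat.cast_le.1 hi.2.1⟩
      · rw [← Finset.coe_Icc, Set.encard_coe_eq_coe_finsetCard, Nat.card_Icc]
        norm_cast; omega
    · rw [if_neg (by norm_cast), Set.eq_empty_of_forall_notMem (s := {i | ¬ a i ∧ _}) fun i hi =>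
        c ((l i hi.2.2).trans (Nat.cast_le.1 hi.2.1))]
      split_ifs <;> simp

end Pool.Agent.Lib.helper1.ERW
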