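import Pool.Agent.Lib.helper1.ERW2

set_option autoImplicit false

namespace Pool.Agent.Lib.helper1.ERW

open MeasureTheory ProbabilityTheory Filter Topology
open scoped ENNReal

lemma upd_ind (c : ι) {A : Set Θ} (mA : MeasurableSet A)
    (iv : ∀ θ s, Function.update θ c s ∈ A ↔ θ ∈ A) {B : Set unitInterval} (mB : MeasurableSet B) :
    μ (A ∩ {θ | θ c ∈ B}) = μ A * volume B := by
  rw [← (upd c).measure_preimage (s := A ∩ {θ | θ c ∈ B})
    (mA.inter (measurable_pi_apply c mB)).nullMeasurableSet, ← Measure.prod_prod]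
  congr 1; ext p; simp [iv]

noncomputable def Nf (s : unitInterval) : ℕ := ⌊1 / (4 * (s : ℝ) ^ 2)⌋₊

lemma m_Nf : Measurable Nf := Measurable.nat_floor (by fun_prop)

lemma Nf_tail {t y : ℕ} (ht : 1 ≤ t) (h : t ^ 2 ≤ y) :
    ENNReal.ofReal (t / 2) ≤ y * volume {s | y ≤ Nf s ∧ (s : ℝ) ≤ 1 / 2} := by
  have t1 : (1 : ℝ) ≤ t := by exact_mod_cast ht
  have h' : (t : ℝ) ^ 2 ≤ y := by exact_mod_cast h
  have y0 : (0 : ℝ) < y := by nlinarith
  have b : (t : ℝ) / (2 * y) ≤ 1 / 2 := by rw [div_le_iff₀ (by positivity)]; nlinarith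
  refine le_trans (le_of_eq ?_) (mul_le_mul_right (measure_mono (s := Set.Ioc 0
    ⟨t / (2 * y), by positivity, by linarith⟩) fun s hs => ?_) _)
  · rw [unitInterval.volume_Ioc, ← ENNReal.ofReal_natCast, ← ENNReal.ofReal_mul y0.le]
    congr 1; simp; field_simp
  · have s0 : (0 : ℝ) < s := hs.1
    have s1 : (s : ℝ) ≤ t / (2 * y) := hs.2
    refine ⟨Nat.le_floor ?_, s1.trans b⟩
    rw [le_div_iff₀ (by positivity)] at s1 ⊢
    have : ((s : ℝ) * (2 * y)) ^ 2 ≤ y := le_trans (by gcongr) h'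
    exact le_of_mul_le_mul_right (a := (y : ℝ)) (by nlinarith) y0

noncomputable def sh (N i : ℕ) : ℝ := if i < N then 0 else if i < 2 * N then 1 else 1 / 2

noncomputable def ck1 (s : unitInterval) : ℕ → ℝ := sh (Nf s)

lemma m_ck1 : Measurable ck1 := (Measurable.of_discrete (f := sh)).comp m_Nf

def A (θ : Θ) : ℤ → ℕ → Prop := arr (env ck1 0 θ) 0 θ

lemma m_A : Measurable A := m_arr (m_env m_ck1 0) 0

lemma A_lt (θ : Θ) (x : ℤ) : ∀ i < Nf (θ (x, none)), ¬ A θ x i := fun i hi => by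
  simp [A, arr, env, ck1, sh, hi, (θ (x, some (0, i))).2.1]

noncomputable def Z (θ : Θ) : ℕ → ℤ → ℕ∞
  | 0, _ => 0
  | n + 1, x => F (A θ x) (Z θ n (x - 1))

lemma m_cn (i : ℕ) : Measurable fun p : ℕ → Prop => (cn (¬ p ·) i : ℕ∞) := by
  simp only [cn_enc]
  exact measurable_encard.comp (measurable_set_iff.2 fun k =>
    measurable_const.and (measurable_pi_apply k).not)

lemma m_le {Ω : Type} [MeasurableSpace Ω] {f g : Ω → ℕ∞} (hf : Measurable f) (hg : Measurable g) :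
    Measurable fun ω => f ω ≤ g ω :=
  (Measurable.of_discrete (f := fun p : ℕ∞ × ℕ∞ => p.1 ≤ p.2)).comp (hf.prodMk hg)

lemma m_F {a : Θ → ℕ → Prop} {Y : Θ → ℕ∞} (ha : Measurable a) (hY : Measurable Y) :
    Measurable fun θ => F (a θ) (Y θ) :=
  measurable_encard.comp (measurable_set_iff.2 fun i =>
    ((measurable_pi_apply i).comp ha).and (m_le ((m_cn i).comp ha) hY))

lemma m_Z (n : ℕ) (x : ℤ) : Measurable fun θ => Z θ n x := by
  induction n generalizing x with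
  | zero => exact measurable_const
  | succ n ih => exact m_F ((measurable_pi_apply x).comp m_A) (ih _)

lemma Z_upd (θ : Θ) {x y : ℤ} (h : x < y) (o : Option (ℕ × ℕ)) (s : unitInterval) (n : ℕ) :
    Z (Function.update θ (y, o) s) n x = Z θ n x := by
  induction n generalizing x with
  | zero => rfl
  | succ n ih =>
    have : A (Function.update θ (y, o) s) x = A θ x := by ext i; simp [A, arr, env, h.ne]
    rw [Z, Z, ih (by omega), this]

lemma Z_mono (θ : Θ) (n : ℕ) (x : ℤ) : Z θ n x ≤ Z θ (n + 1) x := by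
  induction n generalizing x with
  | zero => exact zero_le
  | succ n ih => exact F_mono _ (ih _)

lemma Z_shift (n : ℕ) (x : ℤ) : ∫⁻ θ, Z θ n (x - 1) ∂μ = ∫⁻ θ, Z θ n x ∂μ := by
  have e : ∀ (θ : Θ) (x : ℤ), Z (fun i => θ (i.1 - 1, i.2)) n x = Z θ n (x - 1) := fun θ => by
    induction n with
    | zero => exact fun _ => rfl
    | succ n ih => intro x; rw [Z, Z, ih]; rfl
  have S : MeasurePreserving (fun (θ : Θ) (i : ι) => θ (i.1 - 1, i.2)) μ μ :=
    ⟨by fun_prop, Measure.map_infinitePi_infinitePi_of_inj (f := fun i : ι => (i.1 - 1, i.2))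
      fun i j h => by simpa [Prod.ext_iff] using h⟩
  rw [← S.lintegral_comp (f := fun θ => (Z θ n x : ℝ≥0∞))
    (Measurable.of_discrete.comp (m_Z n x))]
  simp only [e]

lemma lint_enc {p : Θ → ℕ → Prop} (hp : Measurable p) :
    ∫⁻ θ, ({i | p θ i}.encard : ℝ≥0∞) ∂μ = ∑' i, μ {θ | p θ i} := by
  have m : ∀ i, MeasurableSet {θ | p θ i} := fun i =>
    measurableSet_setOfPred.2 ((measurable_pi_apply i).comp hp)
  simp only [← lintegral_indicator_one (m _)]
  rw [← lintegral_tsum fun i => (measurable_one.indicator (m i)).aemeasurable]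
  refine lintegral_congr fun θ => ?_
  rw [← ENNReal.tsum_set_one, tsum_subtype _ fun _ => (1 : ℝ≥0∞)]
  rfl

lemma key (x : ℤ) {Y : Θ → ℕ∞} (mY : Measurable Y)
    (iv : ∀ θ o s, Y (Function.update θ (x, o) s) = Y θ) {t : ℕ} (ht : 1 ≤ t) :
    ∫⁻ θ, F (A θ x) (Y θ) ∂μ + ENNReal.ofReal (t / 2) * μ {θ | (t ^ 2 : ℕ) ≤ Y θ ∧ Y θ ≠ ⊤}
      ≤ ∫⁻ θ, Y θ ∂μ + 1 := by
  have mA : Measurable fun θ => A θ x := (measurable_pi_apply x).comp m_A
  have mN : Measurable fun θ : Θ => Nf (θ (x, none)) := m_Nf.comp (measurable_pi_apply _)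
  let B := fun θ i => (cn (¬ A θ x ·) i : ℕ∞) ≤ Y θ ∧ 2 * Nf (θ (x, none)) ≤ i
  have mB : ∀ i, Measurable fun θ => B θ i := fun i => (m_le ((m_cn i).comp mA) mY).and
    ((Measurable.of_discrete (f := fun n : ℕ => 2 * n ≤ i)).comp mN)
  have m1 : Measurable fun θ i => A θ x i ∧ B θ i :=
    measurable_pi_lambda _ fun i => ((measurable_pi_apply i).comp mA).and (mB i)
  have m2 : Measurable fun θ i => ¬ A θ x i ∧ B θ i :=
    measurable_pi_lambda _ fun i => ((measurable_pi_apply i).comp mA).not.and (mB i)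
  have h12 : ∫⁻ θ, ({i | A θ x i ∧ B θ i}.encard : ℝ≥0∞) ∂μ ≤
      ∫⁻ θ, ({i | ¬ A θ x i ∧ B θ i}.encard : ℝ≥0∞) ∂μ := by
    rw [lint_enc m1, lint_enc m2]
    refine ENNReal.tsum_le_tsum fun i => ?_
    let h : unitInterval := ⟨1 / 2, by norm_num, by norm_num⟩
    have e : ∀ θ, B θ i → (A θ x i ↔ θ (x, some (0, i)) < h) := fun θ hb => by
      have := hb.2
      change _ < sh _ _ ↔ _
      rw [sh, if_neg (by omega), if_neg (by omega)]; rfl
    have ivB : ∀ θ s, Function.update θ (x, some (0, i)) s ∈ {θ | B θ i} ↔ θ ∈ {θ | B θ i} :=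
      fun θ s => by
        have : (cn (¬ A (Function.update θ (x, some (0, i)) s) x ·) i : ℕ∞)
            = cn (¬ A θ x ·) i := by
          rw [cn_enc, cn_enc]
          congr 1; ext k
          exact and_congr_right fun hk => by simp [A, arr, env, hk.ne]
        simp [B, iv, this]
    have u := fun S => upd_ind (x, some (0, i)) (measurableSet_setOfPred.2 (mB i)) ivB (B := S)
    calc _ = μ ({θ | B θ i} ∩ {θ | θ (x, some (0, i)) ∈ Set.Iio h}) := by
          congr 1; ext θ; exact ⟨fun k => ⟨k.2, (e θ k.2).1 k.1⟩, fun k => ⟨(e θ k.1).2 k.2, k.1⟩⟩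
      _ = μ ({θ | B θ i} ∩ {θ | θ (x, some (0, i)) ∈ Set.Ici h}) := by
          rw [u _ measurableSet_Iio, u _ measurableSet_Ici]; norm_num [h]
      _ ≤ _ := measure_mono fun θ k => And.intro (fun l => ((e θ k.1).1 l).not_ge k.2) k.1
  let D := fun θ : Θ => ((if (Nf (θ (x, none)) : ℕ∞) ≤ Y θ then Nf (θ (x, none)) else 0 : ℕ) : ℕ∞)
  let H := fun θ : Θ => if Y θ + 1 ≤ Nf (θ (x, none)) then Y θ + 1 else 0
  have mD : Measurable fun θ => (D θ : ℝ≥0∞) := (Measurable.of_discrete (f := fun p : ℕ × ℕ∞ =>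
    (((if (p.1 : ℕ∞) ≤ p.2 then p.1 else 0 : ℕ) : ℕ∞) : ℝ≥0∞))).comp (mN.prodMk mY)
  have mH : Measurable fun θ => (H θ : ℝ≥0∞) := (Measurable.of_discrete (f := fun p : ℕ × ℕ∞ =>
    ((if p.2 + 1 ≤ p.1 then p.2 + 1 else 0 : ℕ∞) : ℝ≥0∞))).comp (mN.prodMk mY)
  have hH : ENNReal.ofReal (t / 2) * μ {θ | (t ^ 2 : ℕ) ≤ Y θ ∧ Y θ ≠ ⊤} ≤ ∫⁻ θ, H θ ∂μ := by
    have U := upd (x, none)
    rw [← U.lintegral_comp mH, lintegral_prod (fun a : Θ × unitInterval =>
      (H (Function.update a.1 (x, none) a.2) : ℝ≥0∞)) (mH.comp U.measurable).aemeasurable,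
      ← lintegral_indicator_const (s := {θ | (t ^ 2 : ℕ) ≤ Y θ ∧ Y θ ≠ ⊤})
        (mY (t := {m | (t ^ 2 : ℕ) ≤ m ∧ m ≠ ⊤}) .of_discrete)]
    refine lintegral_mono fun θ => Set.indicator_apply_le' (fun hθ => ?_) fun _ => zero_le
    obtain ⟨k, hk⟩ := ENat.ne_top_iff_exists.1 hθ.2
    have := hθ.1
    rw [← hk, Nat.cast_le] at this
    refine (Nf_tail ht (this.trans k.le_succ)).trans ?_
    rw [← lintegral_indicator_const (s := {s | k.succ ≤ Nf s ∧ (s : ℝ) ≤ 1 / 2}) ((m_Nf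
      (t := Set.Ici _) .of_discrete).inter (measurableSet_le measurable_subtype_coe
        measurable_const))]
    refine lintegral_mono fun s => Set.indicator_apply_le' (fun hs => ?_) fun _ => zero_le
    simp only [H, iv, Function.update_self, ← hk]
    rw [if_pos (by exact_mod_cast hs.1)]
    simp
  calc _ ≤ ∫⁻ θ, D θ + ({i | A θ x i ∧ B θ i}.encard : ℝ≥0∞) ∂μ + ∫⁻ θ, H θ ∂μ :=
        add_le_add (lintegral_mono fun θ => (ENat.toENNReal_le.2 (P1 (A_lt θ x) (Y θ))).trans_eq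
          (ENat.toENNReal_add _ _)) hH
    _ ≤ ∫⁻ θ, D θ + ({i | ¬ A θ x i ∧ B θ i}.encard : ℝ≥0∞) + H θ ∂μ := by
        rw [lintegral_add_right _ mH, lintegral_add_left mD, lintegral_add_left mD]
        gcongr
    _ ≤ ∫⁻ θ, Y θ + 1 ∂μ := lintegral_mono fun θ => by
        simpa only [ENat.toENNReal_add, ENat.toENNReal_one] using
          ENat.toENNReal_le.2 (P2 (A_lt θ x) (Y θ))
    _ = _ := by rw [lintegral_add_right _ measurable_const]; simp

theorem transient : ∀ᵐ θ ∂μ, Tendsto (fun m => |XX ck1 0 θ m|) atTop atTop := by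
  have K := fun n x t => key x (m_Z n (x - 1)) (fun θ o s => Z_upd θ (sub_one_lt x) o s n) (t := t)
  have fin : ∀ n x, ∫⁻ θ, Z θ n x ∂μ ≠ ∞ := fun n => by
    induction n with
    | zero => simp [Z]
    | succ n ih =>
      exact fun x => ne_top_of_le_ne_top (by simp [ih]) (le_self_add.trans (K n x 1 le_rfl))
  have tl : ∀ n x (t : ℕ), 1 ≤ t → ENNReal.ofReal (t / 2) * μ {θ | (t ^ 2 : ℕ) ≤ Z θ n (x - 1)} ≤ 1 :=
    fun n x t ht => by
      have k := K n x t ht
      rw [Z_shift] at k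
      have := (ENNReal.add_le_add_iff_left (fin (n + 1) x)).1 (k.trans (add_le_add_left
        (lintegral_mono fun θ => ENat.toENNReal_le.2 (Z_mono θ n x)) _))
      refine le_trans (mul_le_mul_right (measure_mono_ae ?_) _) this
      filter_upwards [ae_lt_top (Measurable.of_discrete.comp (m_Z n (x - 1))) (fin n (x - 1))]
        with θ h1 h2 using ⟨h2, by simpa using h1.ne⟩
  have top : ∀ x, ∀ᵐ θ ∂μ, ⨆ n, Z θ n x ≠ ⊤ := fun x => by
    have : ∀ t : ℕ, 1 ≤ t → ENNReal.ofReal (t / 2) * μ {θ | ⨆ n, Z θ n x = ⊤} ≤ 1 := fun t ht => by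
      refine le_trans (mul_le_mul_right (measure_mono (t := ⋃ n, {θ | (t ^ 2 : ℕ) ≤ Z θ n x})
        fun θ h => ?_) _) ?_
      · obtain ⟨n, hn⟩ := lt_iSup_iff.1 ((ENat.natCast_lt_top (t ^ 2)).trans_eq h.symm)
        exact Set.mem_iUnion.2 ⟨n, hn.le⟩
      · rw [Monotone.measure_iUnion (monotone_nat_of_le_succ fun n θ h => h.trans (Z_mono θ n x)),
          ENNReal.mul_iSup]
        exact iSup_le fun n => by simpa using tl n (x + 1) t ht
    rw [ae_iff]
    simp only [not_not]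
    by_contra h
    obtain ⟨t, ht⟩ := ENNReal.exists_nat_gt (ENNReal.inv_ne_top.2 h)
    have := this (2 * (t + 1)) (by omega)
    rw [show ((2 * (t + 1) : ℕ) : ℝ) / 2 = (t + 1 : ℕ) by push_cast; ring, ENNReal.ofReal_natCast,
      mul_comm, ← ENNReal.le_inv_iff_mul_le, ENNReal.le_inv_iff_le_inv] at this
    exact (ht.trans_le (by simp)).not_ge this
  filter_upwards [ae_all_iff.2 top] with θ h
  refine trans (A θ) (fun x => ⨆ n, Z θ n x) (fun x => ?_) h
  obtain ⟨n, hn⟩ := ENat.exists_eq_iSup_of_lt_top (h (x - 1)).lt_top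
  rw [← hn]
  exact le_iSup (fun n => Z θ n x) (n + 1)

variable {ck : unitInterval → ℕ → ℝ}

lemma ev (h : Measurable ck) (x : ℤ) :
    MeasurePreserving (fun ω : ℤ → ℕ → ℝ => ω x) (μ.map (env ck 0)) (volume.map ck) := by
  have := Measure.isProbabilityMeasure_map (μ := volume) h.aemeasurable
  rw [law h]
  exact measurePreserving_eval_infinitePi (fun _ : ℤ => volume.map ck) x

lemma iid (h : Measurable ck) : iIndepFun (fun (x : ℤ) (ω : ℤ → ℕ → ℝ) => ω x) (μ.map (env ck 0)) ∧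
    ∀ x : ℤ, IdentDistrib (fun ω : ℤ → ℕ → ℝ => ω x) (fun ω => ω 0) (μ.map (env ck 0))
      (μ.map (env ck 0)) := by
  refine ⟨?_, fun x => ⟨(ev h x).aemeasurable, (ev h 0).aemeasurable,
    (ev h x).map_eq.trans (ev h 0).map_eq.symm⟩⟩
  have := Measure.isProbabilityMeasure_map (μ := volume) h.aemeasurable
  rw [law h]
  exact iIndepFun_infinitePi (X := fun _ ω => ω) (by fun_prop)

lemma pr (h : Measurable ck) (x : ℤ) {S : Set (ℕ → ℝ)} (hS : MeasurableSet S) :
    μ.map (env ck 0) {ω | ω x ∈ S} = volume (ck ⁻¹' S) :=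
  ((ev h x).measure_preimage hS.nullMeasurableSet).trans (Measure.map_apply h hS)

lemma ae01 (h : Measurable ck) (h01 : ∀ s i, ck s i ∈ Set.Icc (0 : ℝ) 1) :
    ∀ᵐ ω ∂μ.map (env ck 0), ∀ (x : ℤ) (n : ℕ), ω x n ∈ Set.Icc (0 : ℝ) 1 :=
  ae_all_iff.2 fun x => ae_all_iff.2 fun n => (ae_map_iff (m_env h 0).aemeasurable
    (measurableSet_Icc.preimage (f := fun ω : ℤ → ℕ → ℝ => ω x n) (by fun_prop))).2
      (.of_forall fun _ => h01 _ _)

lemma wel (h : Measurable ck) (hf : 0 < volume {s | ∀ i, ck s i = 1 / 2}) (x : ℤ) :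
    0 < μ.map (env ck 0) {ω | ∀ n, 0 < ω x n} ∧ 0 < μ.map (env ck 0) {ω | ∀ n, ω x n < 1} := by
  have m := pr h x (S := {f | ∀ i, f i = 1 / 2}) (measurableSet_setOfPred.2 (.forall fun i =>
    measurableSet_setOfPred.1 (measurableSet_eq_fun (by fun_prop) measurable_const)))
  exact ⟨(hf.trans_eq m.symm).trans_le (measure_mono fun ω k n => by rw [k n]; norm_num),
    (hf.trans_eq m.symm).trans_le (measure_mono fun ω k n => by rw [k n]; norm_num)⟩

lemma XX_step (j : ℕ) (θ : Θ) (n : ℕ) :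
    XX ck j θ (n + 1) = XX ck j θ n + 1 ∨ XX ck j θ (n + 1) = XX ck j θ n - 1 :=
  (em _).imp st_pos st_neg

lemma sh_sum (N : ℕ) : ∀ᶠ n in atTop, ∑ i ∈ Finset.range n, (2 * sh N i - 1) = 0 := by
  filter_upwards [eventually_ge_atTop (N + N)] with n hn
  obtain ⟨k, rfl⟩ := Nat.exists_eq_add_of_le hn
  rw [Finset.sum_range_add, Finset.sum_range_add,
    Finset.sum_congr rfl (g := fun _ => -1) fun i hi => by simp [sh, Finset.mem_range.1 hi],
    Finset.sum_congr rfl (f := fun i => 2 * sh N (N + i) - 1) (g := fun _ => 1) fun i hi => by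
      rw [sh, if_neg (by omega), if_pos (by have := Finset.mem_range.1 hi; omega)]; norm_num,
    Finset.sum_eq_zero (f := fun i => 2 * sh N (N + N + i) - 1) fun i _ => by
      rw [sh, if_neg (by omega), if_neg (by omega)]; norm_num]
  simp

end Pool.Agent.Lib.helper1.ERW
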