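import Pool.Agent.Lib.helper1.ERW3

set_option autoImplicit false

namespace Pool.Agent.Lib.helper1.ERW

open MeasureTheory ProbabilityTheory Filter Topology
open scoped ENNReal

def vis (X : ℕ → ℤ) (n : ℕ) (x : ℤ) : ℕ := ((Finset.range n).filter fun m => X m = x).card

lemma vis_succ (X : ℕ → ℤ) (n : ℕ) (x : ℤ) :
    vis X (n + 1) x = vis X n x + if X n = x then 1 else 0 := by
  rw [vis, Finset.range_add_one, Finset.filter_insert]
  split_ifs
  exacts [Finset.card_insert_of_notMem (by simp), rfl]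

lemma pass {X : ℕ → ℤ} (h0 : X 0 = 0) (h1 : ∀ n, X (n + 1) ≤ X n + 1) {c : ℤ → ℕ}
    (hc : ∀ n, X (n + 1) = X n + 1 → c (X n) ≤ vis X n (X n) + 1) (n k : ℕ) (h : k < X n) :
    c k ≤ vis X n k := by
  induction n with
  | zero => omega
  | succ n ih =>
    have := h1 n
    rw [vis_succ]
    split_ifs with e
    · rw [← e]; exact hc n (by omega)
    · exact ih (by omega)

lemma cost (X : ℕ → ℤ) (n K : ℕ) : ∑ k ∈ Finset.range K, vis X n k ≤ n := by
  induction n with
  | zero => simp [vis]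
  | succ n ih =>
    simp only [vis_succ, Finset.sum_add_distrib]
    refine add_le_add ih ?_
    rw [Finset.sum_boole, Nat.cast_id, Finset.card_le_one]
    intro a ha b hb
    exact_mod_cast (Finset.mem_filter.1 ha).2.symm.trans (Finset.mem_filter.1 hb).2

lemma slow {X : ℕ → ℤ} (h0 : X 0 = 0) (h1 : ∀ n, X (n + 1) ≤ X n + 1) {c : ℤ → ℕ}
    (hc : ∀ n, X (n + 1) = X n + 1 → c (X n) ≤ vis X n (X n) + 1) {M : ℕ}
    (g : ∀ᶠ K : ℕ in atTop, M * K ≤ ∑ k ∈ Finset.range K, c k) : ∀ᶠ n : ℕ in atTop, M * X n ≤ n := by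
  obtain ⟨K, hK⟩ := eventually_atTop.1 g
  filter_upwards [eventually_ge_atTop (M * K)] with n hn
  by_cases h : X n ≤ K
  · exact (mul_le_mul_of_nonneg_left h (by positivity)).trans (by exact_mod_cast hn)
  · obtain ⟨k, hk⟩ := Int.eq_ofNat_of_zero_le (a := X n) (by omega)
    rw [hk]
    exact_mod_cast (hK k (by omega)).trans ((Finset.sum_le_sum fun j hj => pass h0 h1 hc n j
      (by have := Finset.mem_range.1 hj; omega)).trans (cost X n k))

open Classical in
lemma grow {P : Measure (ℤ → ℕ → ℝ)} [IsProbabilityMeasure P]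
    (i1 : iIndepFun (fun (x : ℤ) (ω : ℤ → ℕ → ℝ) => ω x) P)
    (i2 : ∀ x : ℤ, IdentDistrib (fun ω : ℤ → ℕ → ℝ => ω x) (fun ω => ω 0) P P) {e : ℕ → ℤ}
    (he : e.Injective) (v : ℝ) {M y : ℕ}
    (h : (M + 1 : ℝ) ≤ (y + 1) * P.real {ω | ∀ i < y, ω (e 0) i = v}) : ∀ᵐ ω ∂P, ∀ᶠ K : ℕ in atTop,
      M * K ≤ ∑ k ∈ Finset.range K, if ∀ i < y, ω (e k) i = v then y + 1 else 0 := by
  let B := {f : ℕ → ℝ | ∀ i < y, f i = v}
  have mB : MeasurableSet B := measurableSet_setOfPred.2 (.forall fun i => measurable_const.imp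
    (measurableSet_setOfPred.1 (measurableSet_eq_fun (by fun_prop) measurable_const)))
  let φ := B.indicator fun _ => (y + 1 : ℝ)
  have mφ : Measurable φ := measurable_const.indicator mB
  have m0 : MeasurableSet {ω : ℤ → ℕ → ℝ | ∀ i < y, ω (e 0) i = v} :=
    mB.preimage (f := fun ω : ℤ → ℕ → ℝ => ω (e 0)) (measurable_pi_apply _)
  have e0 : (fun ω : ℤ → ℕ → ℝ => φ (ω (e 0))) = {ω : ℤ → ℕ → ℝ | ∀ i < y, ω (e 0) i = v}.indicator
    fun _ => (y + 1 : ℝ) := rfl
  filter_upwards [strong_law_ae_real (μ := P) (fun k ω => φ (ω (e k)))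
    (e0 ▸ (integrable_const _).indicator m0) (fun i j hij => (i1.indepFun (he.ne hij)).comp mφ mφ)
    fun i => ((i2 _).trans (i2 _).symm).comp mφ] with ω hω
  rw [e0, integral_indicator_const _ m0, smul_eq_mul, mul_comm] at hω
  filter_upwards [hω.eventually (lt_mem_nhds ((lt_add_one (M : ℝ)).trans_le h)),
    eventually_gt_atTop 0] with K hK K0
  rw [lt_div_iff₀ (by positivity)] at hK
  rw [← Nat.cast_le (α := ℝ)]
  push_cast
  exact hK.le.trans_eq (Finset.sum_congr rfl fun k _ => by simp [φ, B, Set.indicator_apply])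

theorem zero_speed {P : Measure (ℤ → ℕ → ℝ)}
    (i1 : iIndepFun (fun (x : ℤ) (ω : ℤ → ℕ → ℝ) => ω x) P)
    (i2 : ∀ x : ℤ, IdentDistrib (fun ω : ℤ → ℕ → ℝ => ω x) (fun ω => ω 0) P P)
    (hv : ∀ M : ℕ, ∃ y : ℕ, ∀ v ∈ ({0, 1} : Set ℝ),
      (M + 1 : ℝ) ≤ (y + 1) * P.real {ω | ∀ i < y, ω 0 i = v})
    {Ω : Type} [MeasurableSpace Ω] {ν : Measure Ω} [IsProbabilityMeasure ν] {W : Ω → ℤ → ℕ → ℝ}
    {X : Ω → ℕ → ℤ} (mW : Measurable W) (hP : ν.map W = P) (mX : Measurable X)
    (h0 : ∀ θ, X θ 0 = 0) (h1 : ∀ θ n, X θ (n + 1) = X θ n + 1 ∨ X θ (n + 1) = X θ n - 1)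
    (hc : ∀ n, condExp (MeasurableSpace.comap (fun θ => (W θ, fun m : Fin (n + 1) => X θ m))
      inferInstance) ν (Set.indicator {θ | X θ (n + 1) = X θ n + 1} fun _ => (1 : ℝ)) =ᵐ[ν]
      fun θ => W θ (X θ n) ((Finset.range n).filter fun m => X θ m = X θ n).card) :
    ∀ᵐ θ ∂ν, Tendsto (fun n : ℕ => (X θ n : ℝ) / n) atTop (𝓝 0) := by
  classical
  have : IsProbabilityMeasure P := hP ▸ Measure.isProbabilityMeasure_map mW.aemeasurable
  have fc : ∀ n, ∀ᵐ θ ∂ν, (W θ (X θ n) (vis (X θ) n (X θ n)) = 0 → X θ (n + 1) ≠ X θ n + 1) ∧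
      (W θ (X θ n) (vis (X θ) n (X θ n)) = 1 → X θ (n + 1) = X θ n + 1) := fun n => by
    let G := fun θ => (W θ, fun m : Fin (n + 1) => X θ m)
    have mG : Measurable G := by fun_prop
    let Φ : (ℤ → ℕ → ℝ) × (Fin (n + 1) → ℤ) → ℝ := fun q => q.1 (q.2 (Fin.last n))
      ((Finset.range n).filter fun m => q.2 (Fin.ofNat _ m) = q.2 (Fin.last n)).card
    have mΦ : Measurable Φ := m_ev (m_ev measurable_fst (by fun_prop))
      ((Measurable.of_discrete (f := fun z : Fin (n + 1) → ℤ => ((Finset.range n).filter fun m =>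
        z (Fin.ofNat _ m) = z (Fin.last n)).card)).comp measurable_snd)
    have e : ∀ θ, W θ (X θ n) (vis (X θ) n (X θ n)) = Φ (G θ) := fun θ => by
      simp only [Φ, G, Fin.val_last, vis]
      congr 2
      refine Finset.filter_congr fun m hm => ?_
      rw [Fin.val_ofNat, Nat.mod_eq_of_lt (by have := Finset.mem_range.1 hm; omega)]
    have mS : MeasurableSet {θ | X θ (n + 1) = X θ n + 1} :=
      measurableSet_eq_fun (by fun_prop) (by fun_prop)
    have mA : ∀ v : ℝ, MeasurableSet (G ⁻¹' (Φ ⁻¹' {v})) := fun v => mG (mΦ (.singleton v))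
    have k : ∀ v : ℝ, ν.real (G ⁻¹' (Φ ⁻¹' {v}) ∩ {θ | X θ (n + 1) = X θ n + 1})
        = ν.real (G ⁻¹' (Φ ⁻¹' {v})) * v := fun v => by
      have := setIntegral_condExp mG.comap_le ((integrable_const (μ := ν) (1 : ℝ)).indicator mS)
        (s := G ⁻¹' (Φ ⁻¹' {v})) ⟨_, mΦ (.singleton v), rfl⟩
      rw [setIntegral_indicator mS, setIntegral_const, smul_eq_mul, mul_one] at this
      rw [← this, setIntegral_congr_ae (mA v) (g := fun _ => v)
        ((hc n).mono fun θ h l => h.trans ((e θ).trans l)), setIntegral_const, smul_eq_mul]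
    have k0 := k 0
    have k1 := measureReal_inter_add_sdiff (μ := ν) (s := G ⁻¹' (Φ ⁻¹' {1})) mS
    rw [k 1, mul_one, add_eq_left, measureReal_eq_zero_iff] at k1
    rw [mul_zero, measureReal_eq_zero_iff] at k0
    filter_upwards [measure_eq_zero_iff_ae_notMem.1 k0, measure_eq_zero_iff_ae_notMem.1 k1]
      with θ a b
    rw [e]
    exact ⟨fun l s => a ⟨l, s⟩, fun l => not_not.1 fun s => b ⟨l, s⟩⟩
  choose y hy using hv
  have g1 := ae_all_iff.2 fun M => grow i1 i2 (e := fun k => k) Nat.cast_injective 0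
    (hy M 0 (by simp))
  have g2 := ae_all_iff.2 fun M => grow i1 i2 (e := fun k => -k)
    (neg_injective.comp Nat.cast_injective) 1 (by simpa using hy M 1 (by simp))
  rw [← hP] at g1 g2
  filter_upwards [ae_of_ae_map mW.aemeasurable g1, ae_of_ae_map mW.aemeasurable g2,
    ae_all_iff.2 fc] with θ g1 g2 fc
  have b : ∀ M : ℕ, ∀ᶠ n : ℕ in atTop, M * |X θ n| ≤ n := fun M => by
    filter_upwards [slow (h0 θ) (fun n => by have := h1 θ n; omega)
      (c := fun x => if ∀ i < y M, W θ x i = 0 then y M + 1 else 0) (fun n h => by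
        split_ifs with l
        exacts [Nat.succ_le_succ (not_lt.1 fun t => (fc n).1 (l _ t) h), zero_le]) (g1 M),
      slow (X := fun n => -X θ n) (by simp [h0]) (fun n => by have := h1 θ n; omega)
      (c := fun x => if ∀ i < y M, W θ (-x) i = 1 then y M + 1 else 0) (fun n h => by
        simp only [neg_neg, vis, neg_inj]
        split_ifs with l
        exacts [Nat.succ_le_succ (not_lt.1 fun t => by have := (fc n).2 (l _ t); omega), zero_le])
        (g2 M)] with n a b
    rcases abs_choice (X θ n) with h | h <;> rwa [h]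
  refine Metric.tendsto_nhds.2 fun ε hε => ?_
  obtain ⟨M, hM⟩ := exists_nat_one_div_lt hε
  filter_upwards [b (M + 1), eventually_gt_atTop 0] with n hn n0
  have hn : (M + 1 : ℝ) * |(X θ n : ℝ)| ≤ n := by exact_mod_cast hn
  rw [Real.dist_0_eq_abs, abs_div, Nat.abs_cast]
  refine lt_of_le_of_lt ?_ hM
  rw [div_le_div_iff₀ (by positivity) (by positivity)]
  linarith

noncomputable def sh2 (p : Bool × ℕ) (i : ℕ) : ℝ :=
  if i < p.2 then (if p.1 then 0 else 1) else if i < 2 * p.2 then (if p.1 then 1 else 0)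
  else if i < 2 * p.2 + 6 then 3 / 4 else 1 / 2

noncomputable def ty (s : unitInterval) : Bool × ℕ :=
  if (s : ℝ) ≤ 1 / 2 then (true, Nf s - 1) else (false, Nf (unitInterval.symm s) - 1)

noncomputable def ck2 (s : unitInterval) : ℕ → ℝ := sh2 (ty s)

lemma m_ck2 : Measurable ck2 := (Measurable.of_discrete (f := sh2)).comp
  (Measurable.ite (measurableSet_le measurable_subtype_coe measurable_const)
    (measurable_const.prodMk (m_Nf.sub_const 1))
    (measurable_const.prodMk ((m_Nf.comp unitInterval.measurable_symm).sub_const 1)))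

lemma sh2_sum (p : Bool × ℕ) : ∀ᶠ n in atTop, ∑ i ∈ Finset.range n, (2 * sh2 p i - 1) = 3 := by
  obtain ⟨b, N⟩ := p
  filter_upwards [eventually_ge_atTop (N + N + 6)] with n hn
  obtain ⟨k, rfl⟩ := Nat.exists_eq_add_of_le hn
  rw [Finset.sum_range_add, Finset.sum_range_add, Finset.sum_range_add,
    Finset.sum_congr rfl (g := fun _ => 2 * (if b then 0 else 1) - 1) fun i hi => by
      rw [sh2, if_pos (Finset.mem_range.1 hi)],
    Finset.sum_congr rfl (f := fun i => 2 * sh2 (b, N) (N + i) - 1)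
      (g := fun _ => 2 * (if b then 1 else 0) - 1) fun i hi => by
      rw [sh2, if_neg (by omega), if_pos (by have := Finset.mem_range.1 hi; omega)],
    Finset.sum_congr rfl (f := fun i => 2 * sh2 (b, N) (N + N + i) - 1)
      (g := fun _ => 1 / 2) fun i hi => by
      rw [sh2, if_neg (by omega), if_neg (by omega),
        if_pos (by have := Finset.mem_range.1 hi; omega)]; norm_num,
    Finset.sum_eq_zero (f := fun i => 2 * sh2 (b, N) (N + N + 6 + i) - 1) fun i _ => by
      rw [sh2, if_neg (by omega), if_neg (by omega), if_neg (by omega)]; norm_num]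
  cases b <;> simp <;> ring

lemma Nf_le {s : unitInterval} (h : (2 / 5 : ℝ) < s) : Nf s ≤ 1 :=
  Nat.lt_succ_iff.1 ((Nat.floor_lt (by positivity)).2
    (by rw [div_lt_iff₀ (by nlinarith)]; push_cast; nlinarith))

lemma heavy (M : ℕ) : ∃ y : ℕ, ∀ v ∈ ({0, 1} : Set ℝ),
    (M + 1 : ℝ) ≤ (y + 1) * (μ.map (env ck2 0)).real {ω | ∀ i < y, ω 0 i = v} := by
  refine ⟨(2 * M + 2) ^ 2, fun v hv => ?_⟩
  have t := Nf_tail (t := 2 * M + 2) (by omega) (Nat.le_succ _)
  generalize (2 * M + 2) ^ 2 = y at t ⊢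
  have : volume {s | y.succ ≤ Nf s ∧ (s : ℝ) ≤ 1 / 2} ≤ μ.map (env ck2 0) {ω | ∀ i < y, ω 0 i = v} := by
    refine le_trans ?_ (pr m_ck2 0 (S := {f | ∀ i < y, f i = v}) (measurableSet_setOfPred.2
      (.forall fun i => measurable_const.imp (measurableSet_setOfPred.1
        (measurableSet_eq_fun (by fun_prop) measurable_const))))).ge
    rcases hv with rfl | rfl
    · refine measure_mono fun s hs i hi => ?_
      have := hs.1
      rw [ck2, ty, if_pos hs.2, sh2, if_pos (by omega)]; rfl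
    · rw [← unitInterval.measurePreserving_symm.measure_preimage
        (s := {s | y.succ ≤ Nf s ∧ (s : ℝ) ≤ 1 / 2}) ((m_Nf (t := Set.Ici _) .of_discrete).inter (measurableSet_le measurable_subtype_coe
          measurable_const)).nullMeasurableSet]
      refine measure_mono fun s hs i hi => ?_
      have h1 : y.succ ≤ Nf (unitInterval.symm s) := hs.1
      rw [ck2, ty, if_neg fun l => by
        have := Nf_le (s := unitInterval.symm s) (by simp; linarith); omega, sh2, if_pos (by omega)]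
      rfl
  have := Measure.isProbabilityMeasure_map (μ := μ) (m_env m_ck2 0).aemeasurable
  have := ENNReal.toReal_mono (ENNReal.mul_ne_top (by simp) (measure_ne_top _ _))
    (t.trans (mul_le_mul_right ‹_› _))
  rw [ENNReal.toReal_ofReal (by positivity), ENNReal.toReal_mul, ENNReal.toReal_natCast] at this
  push_cast at this
  exact le_trans (le_of_eq (by ring)) this

end Pool.Agent.Lib.helper1.ERW
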