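import Mathlib

set_option autoImplicit false

namespace Pool.Agent.Lib.helper1.FT

open FreeGroup

abbrev Γ : Type := FreeGroup Bool

def ℓ (x : Bool × Bool) : Γ := mk [x]

lemma ℓ_inv (x : Bool × Bool) : ℓ (x.1, !x.2) = (ℓ x)⁻¹ := by
  simp [ℓ, inv_mk, invRev]

lemma toWord_ℓ (x : Bool × Bool) : (ℓ x).toWord = [x] := rfl

lemma ℓ_inj : Function.Injective ℓ := fun x y h => by
  simpa [toWord_ℓ] using congrArg toWord h

lemma ℓ_ne (x : Bool × Bool) : ℓ x ≠ 1 := fun h => by
  simpa [toWord_ℓ] using congrArg toWord h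

/-- `v` is a child of `u`. -/
def Ch (u v : Γ) : Prop := ∃ x, v.toWord = x :: u.toWord

lemma Ch.eq {u v : Γ} {x : Bool × Bool} (h : v.toWord = x :: u.toWord) : v = ℓ x * u := by
  conv_lhs => rw [← mk_toWord (x := v), h]
  conv_rhs => rw [← mk_toWord (x := u), ℓ, mul_mk]
  rfl

lemma key (x : Bool × Bool) (v : Γ) : (ℓ x * v).toWord = x :: v.toWord ∨
    v.toWord = (x.1, !x.2) :: (ℓ x * v).toWord := by
  rw [toWord_mul, toWord_ℓ, List.singleton_append, reduce.cons, reduce_toWord]
  cases h : v.toWord with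
  | nil => simp
  | cons hd tl =>
    by_cases c : x.1 = hd.1 ∧ x.2 = !hd.2
    · right; simp only [if_pos c]; congr 1; ext <;> simp [c.1, c.2]
    · left; simp only [if_neg c]

def G : SimpleGraph Γ where
  Adj u v := ∃ x, v = ℓ x * u
  symm := ⟨fun u v ⟨x, h⟩ => ⟨(x.1, !x.2), by rw [ℓ_inv, h]; simp⟩⟩
  loopless := ⟨fun u ⟨x, h⟩ => ℓ_ne x (by simpa using h.symm)⟩

lemma adj_iff {u v : Γ} : G.Adj u v ↔ Ch u v ∨ Ch v u := by
  constructor
  · rintro ⟨x, rfl⟩
    exact (key x u).imp (fun h => ⟨_, h⟩) fun h => ⟨_, h⟩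
  · rintro (⟨x, h⟩ | ⟨x, h⟩)
    · exact ⟨x, Ch.eq h⟩
    · exact G.adj_symm ⟨x, Ch.eq h⟩

lemma Ch.uniq {u u' v : Γ} (h : Ch u v) (h' : Ch u' v) : u = u' := by
  obtain ⟨x, h⟩ := h
  obtain ⟨y, h'⟩ := h'
  exact toWord_injective (List.cons.inj (h.symm.trans h')).2

lemma Ch.norm {u v : Γ} (h : Ch u v) : v.norm = u.norm + 1 := by
  obtain ⟨x, h⟩ := h
  simp [FreeGroup.norm, h]

lemma exists_par {v : Γ} (h : v ≠ 1) : ∃ u, Ch u v := by
  cases e : v.toWord with
  | nil => exact absurd (toWord_eq_nil_iff.1 e) h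
  | cons x tl =>
    refine ⟨mk tl, x, ?_⟩
    have := isReduced_toWord (x := v)
    rw [e] at this
    rw [toWord_mk, FreeGroup.IsReduced.reduce_eq (L := tl) (List.IsChain.tail this), e]

lemma ind {P : Γ → Prop} (h1 : P 1) (h : ∀ u v, Ch u v → P u → P v) (v : Γ) : P v := by
  induction e : v.norm generalizing v with
  | zero => rwa [norm_eq_zero.1 e]
  | succ n ih =>
    obtain ⟨u, hu⟩ := exists_par (v := v) (by rintro rfl; simp at e)
    exact h u v hu (ih u (by have := hu.norm; omega))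

lemma bridge {u v : Γ} (h : Ch u v) : ¬ (G.deleteEdges {s(v, u)}).Reachable v u := by
  rintro ⟨p⟩
  have : ∀ (a b : Γ) (_ : (G.deleteEdges {s(v, u)}).Walk a b), v.toWord <:+ a.toWord →
      v.toWord <:+ b.toWord := by
    intro a b q
    induction q with
    | nil => exact id
    | @cons a c b hac _ ih =>
      intro ha
      rw [SimpleGraph.deleteEdges_adj, adj_iff] at hac
      refine ih ?_
      rcases hac.1 with ⟨x, e⟩ | ⟨x, e⟩
      · rw [e]; exact ha.trans (List.suffix_cons _ _)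
      · rw [e, List.suffix_cons_iff, ← e] at ha
        refine ha.resolve_left fun e' => hac.2 ?_
        have e1 : v = a := toWord_injective e'
        subst e1
        rw [h.uniq ⟨x, e⟩]
        rfl
  have := (this _ _ p List.suffix_rfl).length_le
  have e := h.norm
  simp only [FreeGroup.norm] at e
  omega

lemma tree : G.IsTree := by
  refine ⟨(SimpleGraph.connected_iff_exists_forall_reachable _).2 ⟨1, ind .rfl fun u v h hu =>
    hu.trans (adj_iff.2 (.inl h)).reachable⟩, ?_⟩
  rw [SimpleGraph.isAcyclic_iff_forall_adj_isBridge]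
  intro u v h
  rcases adj_iff.1 h with h | h
  · rw [Sym2.eq_swap]; exact bridge h
  · exact bridge h

lemma deg (v : Γ) : (G.neighborSet v).ncard = 4 := by
  have : G.neighborSet v = Set.range fun x => ℓ x * v := by
    ext u; simp [G, eq_comm]
  rw [this, Set.ncard_range_of_injective fun x y h => ℓ_inj (mul_right_cancel h)]
  simp

lemma norm_le_dist (u : Γ) : u.norm ≤ G.dist 1 u := by
  obtain ⟨p, hp⟩ := tree.connected.exists_walk_length_eq_dist 1 u
  have : ∀ (a b : Γ) (q : G.Walk a b), b.norm ≤ a.norm + q.length := by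
    intro a b q
    induction q with
    | nil => simp
    | cons h _ ih =>
      rcases adj_iff.1 h with h | h <;> have := h.norm <;> simp only [SimpleGraph.Walk.length_cons] <;>
        omega
  simpa [hp] using this _ _ p

lemma ball_fin (n : ℕ) : {w : Γ | w.norm ≤ n}.Finite :=
  (List.finite_length_le (Bool × Bool) n).preimage toWord_injective.injOn

def rmul (g : Γ) : G ≃g G where
  toEquiv := Equiv.mulRight g
  map_rel_iff' := by
    intro a b
    simp only [G, Equiv.coe_mulRight, ← mul_assoc, mul_left_inj]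

lemma quot (D : Finset Γ) : ∃ (Q : Type) (_ : Group Q) (_ : Fintype Q) (π : Γ →* Q),
    Set.InjOn π D := by
  classical
  obtain ⟨n, hn⟩ := (D.image FreeGroup.norm).bddAbove
  let B := {w : Γ // w.norm ≤ n}
  have : Finite B := ball_fin n
  have : ∀ a : Bool, ∃ σ : Equiv.Perm B, ∀ w : {w : B // (of a * w.1).norm ≤ n},
      σ w.1 = ⟨_, w.2⟩ := fun a => Equiv.Perm.exists_extending_pair _ _ Subtype.val_injective
    fun w w' h => Subtype.ext (Subtype.ext (mul_left_cancel (congrArg Subtype.val h)))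
  choose σ hσ using this
  obtain ⟨o, ho⟩ : ∃ o : B, o.1 = 1 := ⟨⟨1, by rw [FreeGroup.norm_one]; exact n.zero_le⟩, rfl⟩
  have k : ∀ w : Γ, w.norm ≤ n → (lift σ w o).1 = w := by
    refine ind (by simp [ho]) fun u v h ih hv => ?_
    have hu : u.norm ≤ n := by have := h.norm; omega
    obtain ⟨⟨a, b⟩, h⟩ := h
    have e := Ch.eq h
    have e1 : lift σ u o = ⟨u, hu⟩ := Subtype.ext (ih hu)
    conv_lhs => rw [e, _root_.map_mul, Equiv.Perm.mul_apply, e1]
    cases b
    · have e2 : ℓ (a, false) = (of a)⁻¹ := ℓ_inv (a, true)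
      rw [e2] at e ⊢
      have e3 : of a * v = u := by rw [e]; simp
      have := hσ a ⟨⟨v, hv⟩, by rwa [e3]⟩
      simp only [e3] at this
      rw [_root_.map_inv, lift_apply_of, ← this]
      simp
    · have e2 : ℓ (a, true) = of a := rfl
      rw [e2] at e ⊢
      rw [lift_apply_of, hσ a ⟨⟨u, hu⟩, by rwa [← e]⟩]
      exact e.symm
  refine ⟨Equiv.Perm B, inferInstance, Fintype.ofFinite _, lift σ, fun x hx y hy h => ?_⟩
  rw [← k x (hn (Finset.mem_image_of_mem _ hx)), h, k y (hn (Finset.mem_image_of_mem _ hy))]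

end Pool.Agent.Lib.helper1.FT
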