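import Mathlib

set_option autoImplicit false

namespace Pool.Agent.Lib.helper1.FT

open MeasureTheory ProbabilityTheory Filter Topology

noncomputable abbrev ν (A : Type) : Measure (A → unitInterval) :=
  Measure.infinitePi fun _ : A => (volume : Measure unitInterval)

lemma mp {A B : Type} {ψ : A → B} (h : Function.Injective ψ) :
    MeasurePreserving (fun y : B → unitInterval => fun a => y (ψ a)) (ν B) (ν A) :=
  ⟨by fun_prop, Measure.map_infinitePi_infinitePi_of_inj h⟩

lemma cov_mp {Ω Ω' : Type} [MeasurableSpace Ω] [MeasurableSpace Ω'] {P : Measure Ω}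
    {P' : Measure Ω'} {T : Ω → Ω'} (h : MeasurePreserving T P P') {f g : Ω' → ℝ}
    (hf : Measurable f) (hg : Measurable g) :
    cov[fun ω => f (T ω), fun ω => g (T ω); P] = cov[f, g; P'] := by
  rw [← h.map_eq, covariance_map_fun hf.aestronglyMeasurable hg.aestronglyMeasurable
    h.measurable.aemeasurable]

/-- The covariance of two reindexed copies of `f`. -/
noncomputable def cv {B A : Type} (f : (B → unitInterval) → ℝ) (a b : B → A) : ℝ :=
  cov[fun y => f fun i => y (a i), fun y => f fun i => y (b i); ν A]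

lemma cv_inj {B A A' : Type} {f : (B → unitInterval) → ℝ} (hf : Measurable f) (a b : B → A)
    {ψ : A → A'} (h : Function.Injective ψ) : cv f (ψ ∘ a) (ψ ∘ b) = cv f a b :=
  cov_mp (mp h) (f := fun y => f fun i => y (a i)) (g := fun y => f fun i => y (b i))
    (by fun_prop) (by fun_prop)

lemma cv_zero {B A : Type} [Fintype B] {f : (B → unitInterval) → ℝ} (hf : Measurable f)
    (h2 : MemLp f 2 (ν B)) {a b : B → A} (ha : Function.Injective a) (hb : Function.Injective b)
    (h : ∀ i j, a i ≠ b j) : cv f a b = 0 := by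
  classical
  refine IndepFun.covariance_eq_zero ?_ (h2.comp_measurePreserving (mp ha))
    (h2.comp_measurePreserving (mp hb))
  have := (iIndepFun_infinitePi (P := fun _ : A => (volume : Measure unitInterval))
    (X := fun _ x => x) fun _ => measurable_id).indepFun_finset (Finset.univ.image a)
    (Finset.univ.image b) (Finset.disjoint_left.2 fun x hx hy => by
      obtain ⟨i, -, rfl⟩ := Finset.mem_image.1 hx
      obtain ⟨j, -, e⟩ := Finset.mem_image.1 hy
      exact h i j e.symm) (by fun_prop)
  exact this.comp (φ := fun z => f fun i => z ⟨a i, by simp⟩)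
    (ψ := fun z => f fun i => z ⟨b i, by simp⟩)
    (hf.comp (measurable_pi_lambda _ fun _ => measurable_pi_apply _))
    (hf.comp (measurable_pi_lambda _ fun _ => measurable_pi_apply _))

lemma block {H : Type} [Group H]
    (hq : ∀ D : Finset H, ∃ (Q : Type) (_ : Group Q) (_ : Fintype Q) (π : H →* Q), Set.InjOn π D)
    (B D : Finset H) (hD : ∀ b ∈ B, ∀ b' ∈ B, b'⁻¹ * b ∈ D) {f : (B → unitInterval) → ℝ}
    (hf : Measurable f) (h2 : MemLp f 2 (ν B)) :
    0 ≤ ∑ g ∈ D, cv f (fun i : B => i.1) fun i => i.1 * g := by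
  classical
  obtain ⟨Q, _, _, π, hπ⟩ := hq (D ∪ B ∪ (B ×ˢ D).image fun p => p.1 * p.2)
  have iB : ∀ q : Q, Function.Injective fun i : B => π i.1 * q := fun q i j h =>
    Subtype.ext (hπ (by simp) (by simp) (mul_right_cancel h))
  have h0 : 0 ≤ ∑ q : Q, ∑ q' : Q, cv f (fun i : B => π i.1 * q) fun i => π i.1 * q' := by
    have hm : ∀ q : Q, MemLp (fun y : Q → unitInterval => f fun i => y (π i.1 * q)) 2 (ν Q) :=
      fun q => h2.comp_measurePreserving (mp (iB q))
    have := covariance_fun_sum_fun_sum hm hm
    rw [covariance_self (Measurable.aemeasurable (by fun_prop))] at this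
    exact (variance_nonneg _ _).trans_eq this
  have h1 : ∀ q : Q, ∑ q' : Q, cv f (fun i : B => π i.1 * q) (fun i => π i.1 * q')
      = ∑ q' : Q, cv f (fun i : B => π i.1 * 1) fun i => π i.1 * q' := fun q => by
    rw [← Equiv.sum_comp (Equiv.mulRight q)]
    refine Finset.sum_congr rfl fun q' _ => ?_
    conv_rhs => rw [← cv_inj hf _ _ (mul_left_injective q)]
    simp [Function.comp_def, mul_assoc]
  simp only [h1, Finset.sum_const, nsmul_eq_mul] at h0
  replace h0 := nonneg_of_mul_nonneg_right h0 (by exact_mod_cast Finset.univ_nonempty.card_pos)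
  rw [← Finset.sum_subset (Finset.subset_univ (D.image π)) fun q _ hq => cv_zero hf h2 (iB 1)
    (iB q) fun i j e => hq (Finset.mem_image.2 ⟨_, hD _ i.2 _ j.2, by
      rw [map_mul, map_inv, inv_mul_eq_iff_eq_mul, ← e, mul_one]⟩),
    Finset.sum_image (hπ.mono fun x hx => by simp [Finset.mem_coe.1 hx])] at h0
  refine h0.trans_eq (Finset.sum_congr rfl fun g hg => ?_)
  let E := {x : H // x ∈ D ∪ B ∪ (B ×ˢ D).image fun p => p.1 * p.2}
  let a : B → E := fun i => ⟨i.1, by simp⟩
  let b : B → E := fun i => ⟨i.1 * g, Finset.mem_union_right _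
    (Finset.mem_image.2 ⟨(i.1, g), by simp [hg], rfl⟩)⟩
  have e1 := cv_inj hf a b (ψ := fun x => x.1) Subtype.val_injective
  have e2 := cv_inj hf a b (ψ := fun x => π x.1) fun x y h => Subtype.ext (hπ x.2 y.2 h)
  simp only [Function.comp_def, a, b, map_mul] at e1 e2
  simp only [mul_one]
  exact e2.trans e1.symm

lemma merge {A : Type} [DecidableEq A] (B : Finset A) :
    MeasurePreserving (fun p : (A → unitInterval) × (A → unitInterval) => B.piecewise p.1 p.2)
      ((ν A).prod (ν A)) (ν A) := by
  have m : Measurable fun p : (A → unitInterval) × (A → unitInterval) => B.piecewise p.1 p.2 :=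
    measurable_pi_lambda _ fun i => by unfold Finset.piecewise; split_ifs <;> fun_prop
  refine ⟨m, Measure.eq_infinitePi _ fun s t ht => ?_⟩
  have : (fun p : (A → unitInterval) × (A → unitInterval) => B.piecewise p.1 p.2) ⁻¹'
      Set.pi s t = Set.pi (s.filter (· ∈ B)) t ×ˢ Set.pi (s.filter (· ∉ B)) t := by
    ext p
    simp only [Set.mem_preimage, Set.mem_pi, Set.mem_prod, Finset.mem_coe, Finset.mem_filter,
      Finset.piecewise]
    refine ⟨fun h => ⟨fun i hi => by simpa [hi.2] using h i hi.1,
      fun i hi => by simpa [hi.2] using h i hi.1⟩, fun h i hi => ?_⟩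
    split_ifs with c
    exacts [h.1 i ⟨hi, c⟩, h.2 i ⟨hi, c⟩]
  rw [Measure.map_apply m (MeasurableSet.pi s.countable_toSet fun i _ => ht i), this,
    Measure.prod_prod, Measure.infinitePi_pi _ fun i _ => ht i,
    Measure.infinitePi_pi _ fun i _ => ht i, Finset.prod_filter_mul_prod_filter_not]

/-- A measurable version, read off the coordinates in `B`, of the set where `F` is determined by
the coordinates in `B`. -/
lemma good {A S : Type} [MeasurableSpace S] [MeasurableEq S] (B : Finset A)
    {F : (A → unitInterval) → S} (hF : Measurable F) :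
    ∃ (W : Set (B → unitInterval)) (f : (B → unitInterval) → S), MeasurableSet W ∧ Measurable f ∧
      (∀ y, (∀ y', (∀ u ∈ B, y' u = y u) → F y' = F y) → (fun i : B => y i) ∈ W) ∧
      ∀ᵐ y ∂ν A, (fun i : B => y i) ∈ W → F y = f fun i => y i := by
  classical
  let x : (B → unitInterval) × (A → unitInterval) → A → unitInterval := fun p i =>
    if h : i ∈ B then p.1 ⟨i, h⟩ else p.2 i
  have mx : Measurable x := measurable_pi_lambda _ fun i => by
    simp only [x]; split_ifs <;> fun_prop
  let N : Set ((B → unitInterval) × (A → unitInterval)) := {p | F (x p) = F (x (p.1, 0))}ᶜ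
  have mN : MeasurableSet N := (measurableSet_eq_fun (by fun_prop) (by fun_prop)).compl
  have mW : MeasurableSet {z | ν A (Prod.mk z ⁻¹' N) = 0} :=
    measurable_measure_prodMk_left mN (MeasurableSet.singleton 0)
  refine ⟨_, fun z => F (x (z, 0)), mW, by fun_prop, fun y h => ?_, ?_⟩
  · have : Prod.mk (fun i : B => y i) ⁻¹' N = ∅ := Set.eq_empty_of_forall_notMem fun y' h' =>
      h' ((h _ fun u hu => dif_pos hu).trans (h _ fun u hu => dif_pos hu).symm)
    simp [this]
  · have ms : MeasurableSet {y : A → unitInterval | (fun i : B => y i) ∈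
        {z | ν A (Prod.mk z ⁻¹' N) = 0} → F y = F (x (fun i => y i, 0))} :=
      (measurableSet_setOfPred.2 ((measurableSet_setOfPred.1 (mW.preimage (by fun_prop))).imp
        (measurableSet_setOfPred.1 (measurableSet_eq_fun hF (by fun_prop)))))
    refine (merge B).map_eq ▸ (ae_map_iff (merge B).measurable.aemeasurable ms).2
      ((Measure.ae_prod_iff_ae_ae ((merge B).measurable ms)).2 (.of_forall fun y => ?_))
    have e : ∀ y', (fun i : B => B.piecewise y y' i) = fun i : B => y i := fun y' =>
      funext fun i => B.piecewise_eq_of_mem _ _ i.2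
    by_cases c : ν A (Prod.mk (fun i : B => y i) ⁻¹' N) = 0
    · filter_upwards [measure_eq_zero_iff_ae_notMem.1 c] with y' h _
      have e' : B.piecewise y y' = x (fun i => y i, y') := by
        ext1 i; simp [x, Finset.piecewise]
      rw [e, e']
      simpa [N] using h
    · refine .of_forall fun y' h => (c ?_).elim
      rw [← e y']
      exact h

end Pool.Agent.Lib.helper1.FT
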