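import Pool.Agent.Lib.helper1.FT1
import Pool.Agent.Lib.helper1.FT2

set_option autoImplicit false

namespace Pool.Agent.Lib.helper1.FT

open MeasureTheory ProbabilityTheory Filter Topology

/-- Centred Gaussian process with covariance `K`. -/
structure GP {T Ω : Type} [MeasurableSpace Ω] (K : T → T → ℝ) (X : T → Ω → ℝ) (P : Measure Ω) :
    Prop where
  m : ∀ t, Measurable (X t)
  g : IsGaussianProcess X P
  z : ∀ t, ∫ ω, X t ω ∂P = 0
  c : ∀ s t, cov[X s, X t; P] = K s t

section
variable {T Ω : Type} [MeasurableSpace Ω] {K : T → T → ℝ} {X Y : T → Ω → ℝ} {P : Measure Ω}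

lemma GP.l2 (h : GP K X P) (t : T) : MemLp (X t) 2 P := (h.g.hasGaussianLaw_eval t).memLp_two

lemma GP.cf (h : GP K X P) (I : Finset T) [DecidableEq I] (L : StrongDual ℝ (I → ℝ)) :
    charFunDual (P.map fun ω => I.restrict (X · ω)) L = Complex.exp (-(∑ i : I, ∑ j : I,
      L (Pi.single i 1) * (L (Pi.single j 1) * K i j) : ℝ) / 2) := by
  have := h.g.isProbabilityMeasure
  have e : (fun ω => L (I.restrict (X · ω))) = fun ω => ∑ i : I, L (Pi.single i 1) * X i ω := by
    ext ω
    rw [← L.sum_comp_single]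
    refine Finset.sum_congr rfl fun i _ => ?_
    rw [mul_comm, ← smul_eq_mul, ← map_smul, ← Pi.single_smul]
    simp
  have l2 : ∀ i : I, MemLp (fun ω => L (Pi.single i 1) * X i ω) 2 P := fun i => (h.l2 i).const_mul _
  rw [(h.g.hasGaussianLaw I).charFunDual_map_eq_fun, e, integral_finsetSum _ fun i _ =>
    (l2 i).integrable one_le_two, ← covariance_self (Measurable.aemeasurable
      (Finset.measurable_sum _ fun i _ => (h.m _).const_mul _)), covariance_fun_sum_fun_sum l2 l2]
  simp only [integral_const_mul, h.z, covariance_const_mul_left, covariance_const_mul_right, h.c]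
  simp [neg_div, mul_left_comm]

lemma GP.ext (h : GP K X P) (h' : GP K Y P) :
    P.map (fun ω t => X t ω) = P.map fun ω t => Y t ω := by
  classical
  have := h.g.isProbabilityMeasure
  rw [map_eq_iff_forall_finset_map_restrict_eq (measurable_pi_lambda _ h.m).aemeasurable
    (measurable_pi_lambda _ h'.m).aemeasurable]
  refine fun I => Measure.ext_of_charFunDual (funext fun L => ?_)
  rw [h.cf, h'.cf]

lemma GP.re (h : GP K X P) {T' : Type} (ψ : T' → T) :
    GP (fun s t => K (ψ s) (ψ t)) (fun s => X (ψ s)) P :=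
  ⟨fun _ => h.m _, h.g.comp_right ψ, fun _ => h.z _, fun _ _ => h.c _ _⟩

lemma GP.iff {Ω' : Type} [MeasurableSpace Ω'] {P' : Measure Ω'} {f : Ω' → Ω}
    (hf : MeasurePreserving f P' P) (m : ∀ t, Measurable (X t)) :
    GP K X P ↔ GP K (fun t ω => X t (f ω)) P' := by
  have e1 : ∀ I : Finset T, P.map (fun ω => I.restrict (X · ω))
      = P'.map fun ω => I.restrict (X · (f ω)) := fun I => by
    rw [← hf.map_eq]
    exact Measure.map_map (measurable_pi_lambda _ fun _ => m _) hf.measurable
  have e2 : ∀ t, ∫ ω, X t ω ∂P = ∫ ω, X t (f ω) ∂P' := fun t => by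
    rw [← hf.map_eq, integral_map hf.measurable.aemeasurable (m t).aestronglyMeasurable]
  exact ⟨fun h => ⟨fun t => (m t).comp hf.measurable, ⟨fun I => ⟨e1 I ▸ (h.g.1 I).1⟩⟩,
    fun t => e2 t ▸ h.z t, fun s t => (cov_mp hf (m s) (m t)).trans (h.c s t)⟩,
    fun h => ⟨m, ⟨fun I => ⟨e1 I ▸ (h.g.1 I).1⟩⟩, fun t => (e2 t).trans (h.z t),
      fun s t => (cov_mp hf (m s) (m t)).symm.trans (h.c s t)⟩⟩

lemma GP.indep (h : GP K X P) {S S' : Type} (a : S → T) (b : S' → T)
    (h0 : ∀ s s', K (a s) (b s') = 0) :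
    IndepFun (fun ω s => X (a s) ω) (fun ω s => X (b s) ω) P := by
  refine IsGaussianProcess.indepFun_of_covariance_eq_zero (X := fun s => X (a s))
    (Y := fun s => X (b s)) ?_ (fun _ => (h.m _).aemeasurable) (fun _ => (h.m _).aemeasurable)
    fun s t => (h.c _ _).trans (h0 s t)
  have : Sum.elim (fun s => X (a s)) (fun s => X (b s)) = X ∘ Sum.elim a b := by
    ext1 s; cases s <;> rfl
  exact this ▸ h.g.comp_right _

end

lemma lln {V Ω : Type} [MeasurableSpace Ω] {c : V → V → ℝ} {X : V × ℕ → Ω → ℝ} {P : Measure Ω}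
    (h : GP (fun s t => if s.2 = t.2 then c s.1 t.1 else 0) X P) (u v : V) (A : Set Ω) :
    Tendsto (fun n : ℕ => (n : ℝ)⁻¹ * ∑ j ∈ Finset.range n, ∫ ω in A, X (u, j) ω * X (v, j) ω ∂P)
      atTop (𝓝 (P.real A * c u v)) := by
  have := h.g.isProbabilityMeasure
  have hi : ∀ j, Integrable (fun ω => X (u, j) ω * X (v, j) ω) P := fun j =>
    (h.l2 _).integrable_mul (h.l2 _)
  have e : ∫ ω, X (u, 0) ω * X (v, 0) ω ∂P = c u v := by
    have := h.c (u, 0) (v, 0)
    rw [covariance_eq_sub (h.l2 _) (h.l2 _), h.z] at this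
    simpa using this
  have := strong_law_Lp (p := 1) le_rfl (by simp) (fun j ω => X (u, j) ω * X (v, j) ω)
    (memLp_one_iff_integrable.2 (hi 0)) (fun i j hij => ((h.indep (fun s => (s, i)) (fun s => (s, j))
      fun _ _ => if_neg hij).comp (φ := fun x : V → ℝ => x u * x v) (ψ := fun x : V → ℝ => x u * x v)
      (by fun_prop) (by fun_prop))) fun i => by
    have e := GP.ext (K := c) (X := fun s => X (s, i)) (Y := fun s => X (s, 0))
      (by simpa using h.re fun s => (s, i)) (by simpa using h.re fun s => (s, 0))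
    exact (IdentDistrib.mk (measurable_pi_lambda _ fun _ => h.m _).aemeasurable
      (measurable_pi_lambda _ fun _ => h.m _).aemeasurable e).comp
      (u := fun x : V → ℝ => x u * x v) (by fun_prop)
  rw [e] at this
  have := tendsto_setIntegral_of_L1' (fun _ => c u v) aestronglyMeasurable_const
    (F := fun (n : ℕ) ω => (n : ℝ)⁻¹ • ∑ j ∈ Finset.range n, X (u, j) ω * X (v, j) ω)
    (.of_forall fun n => (integrable_finsetSum _ fun j _ => hi j).const_mul _) this A
  simp only [smul_eq_mul, integral_const_mul, setIntegral_const] at this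
  refine this.congr fun n => ?_
  rw [integral_finsetSum _ fun j _ => (hi j).integrableOn]

open Classical in
noncomputable def cc (u v : Γ) : ℝ := if u = v then 52 else if G.Adj u v then -15 else 0

open Classical in
noncomputable def bb (v w : Γ) : ℝ :=
  if w = v then (if v = 1 then 4 else 5) else if Ch v w then -3 else 0

open Classical in
noncomputable def NN (v : Γ) : Finset Γ := insert v (Finset.univ.image fun x => ℓ x * v)

lemma Ch.ne {u v : Γ} (h : Ch u v) : v ≠ u := fun e => by have := h.norm; rw [e] at this; omega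

lemma Ch.ne_one {u v : Γ} (h : Ch u v) : v ≠ 1 := fun e => by have := h.norm; simp [e] at this

lemma bb_off {v w : Γ} (h : w ∉ NN v) : bb v w = 0 := by
  simp only [NN, Finset.mem_insert, Finset.mem_image, not_or, Finset.mem_univ, true_and] at h
  rw [bb, if_neg h.1, if_neg fun ⟨x, e⟩ => h.2 ⟨x, (Ch.eq e).symm⟩]

lemma bb_sum (u v : Γ) : ∑ w ∈ NN u, bb u w * bb v w = cc u v := by
  classical
  have ne : ∀ x, ℓ x * u ≠ u := fun x h => ℓ_ne x (by simpa using h)
  rw [NN, Finset.sum_insert (by simpa using ne), Finset.sum_image fun x _ y _ h =>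
    ℓ_inj (mul_right_cancel h)]
  by_cases e : u = v
  · subst e
    simp only [bb, cc, if_true, if_neg (ne _)]
    by_cases o : u = 1
    · have : ∀ x, Ch u (ℓ x * u) := fun x => ⟨x, by simp [o, toWord_ℓ]⟩
      simp only [if_pos o, if_pos (this _)]
      norm_num
    · obtain ⟨p, y, hp⟩ := exists_par o
      have e : ℓ (y.1, !y.2) * u = p := by rw [ℓ_inv, Ch.eq hp]; simp
      have : ∀ x, Ch u (ℓ x * u) ↔ ¬ x = (y.1, !y.2) := fun x => ⟨fun h h' => by
        have := h.norm; have := Ch.norm ⟨y, hp⟩; rw [h', e] at *; omega, fun h =>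
        (adj_iff.1 ⟨x, rfl⟩).resolve_right fun h' => h (ℓ_inj (mul_right_cancel
          ((h'.uniq ⟨y, hp⟩).trans e.symm)))⟩
      simp only [if_neg o, this, ite_not, ite_mul, mul_ite, zero_mul, mul_zero]
      obtain ⟨a, b⟩ := y
      cases a <;> cases b <;> simp [Fintype.sum_prod_type] <;> norm_num
  · have s : ∑ x, bb u (ℓ x * u) * bb v (ℓ x * u) = if Ch u v then -15 else 0 := by
      have t : ∀ x, bb u (ℓ x * u) * bb v (ℓ x * u)
          = if ℓ x * u = v then (if Ch u v then -15 else 0) else 0 := fun x => by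
        simp only [bb, if_neg (ne x)]
        by_cases h : ℓ x * u = v
        · rw [h]
          by_cases h' : Ch u v
          · simp only [if_pos h', if_true, if_neg h'.ne_one]; norm_num
          · simp [h']
        · by_cases h' : Ch u (ℓ x * u)
          · simp only [if_neg h, if_neg fun h'' => e (h'.uniq h''), mul_zero]
          · simp [h, h']
      simp only [t]
      by_cases h' : Ch u v
      · obtain ⟨y, hy⟩ := id h'
        rw [Finset.sum_eq_single y (fun x _ hx => if_neg fun h => hx (ℓ_inj (mul_right_cancel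
          (h.trans (Ch.eq hy))))) (by simp), if_pos (Ch.eq hy).symm]
      · simp [h']
    rw [s]
    simp only [bb, cc, if_true, if_neg e, adj_iff]
    by_cases h : Ch v u
    · have : ¬ Ch u v := fun h' => by have := h.norm; have := h'.norm; omega
      simp only [h, this, if_neg h.ne_one]
      norm_num
    · simp [h]

noncomputable abbrev KK (s t : Γ × ℕ) : ℝ := if s.2 = t.2 then cc s.1 t.1 else 0

lemma exists_gp : ∃ μ : Measure (Γ → ℕ → ℝ), GP KK (fun t x => x t.1 t.2) μ := by
  classical
  let P : Measure (Γ × ℕ → ℝ) := Measure.infinitePi fun _ => gaussianReal 0 1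
  have hi : iIndepFun (fun t (ω : Γ × ℕ → ℝ) => ω t) P :=
    iIndepFun_infinitePi (X := fun _ x => x) fun _ => measurable_id
  have hl : ∀ t, HasLaw (fun ω : Γ × ℕ → ℝ => ω t) (gaussianReal 0 1) P := fun t =>
    (measurePreserving_eval_infinitePi (fun _ => gaussianReal 0 1) t).hasLaw
  have l2 : ∀ t, MemLp (fun ω : Γ × ℕ → ℝ => ω t) 2 P := fun t => (hl t).hasGaussianLaw.memLp_two
  have g : IsGaussianProcess (fun t (ω : Γ × ℕ → ℝ) => ω t) P := ⟨fun I =>
    (hi.precomp (g := fun i : I => i.1) Subtype.val_injective).hasGaussianLaw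
      fun i => (hl i).hasGaussianLaw⟩
  have c : ∀ s t, cov[fun ω : Γ × ℕ → ℝ => ω s, fun ω => ω t; P] = if s = t then 1 else 0 := by
    intro s t
    split_ifs with e
    · rw [e, covariance_self (hl t).aemeasurable, (hl t).variance_eq]; simp
    · exact (hi.indepFun e).covariance_eq_zero (l2 s) (l2 t)
  let Φ : (Γ × ℕ → ℝ) → Γ → ℕ → ℝ := fun ω v j => ∑ w ∈ NN v, bb v w * ω (w, j)
  have mΦ : Measurable Φ := by fun_prop
  refine ⟨P.map Φ, (GP.iff ⟨mΦ, rfl⟩ (by fun_prop)).2 ⟨by fun_prop, ?_, fun t => ?_, fun s t => ?_⟩⟩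
  · refine g.of_isGaussianProcess fun s => ⟨(NN s.1).image fun w => (w, s.2),
      ∑ w : NN s.1, bb s.1 w • ContinuousLinearMap.proj ⟨(w.1, s.2), by simp⟩, fun ω => ?_⟩
    simp [Φ, Finset.sum_attach (NN s.1) fun w => bb s.1 w * ω (w, s.2)]
  · simp only [Φ]
    rw [integral_finsetSum _ fun w _ => ((l2 _).integrable one_le_two).const_mul _]
    simp [integral_const_mul, (hl _).integral_eq]
  · simp only [Φ]
    rw [covariance_fun_sum_fun_sum' (fun w _ => (l2 _).const_mul _) fun w _ => (l2 _).const_mul _]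
    simp only [covariance_const_mul_left, covariance_const_mul_right, c, Prod.mk.injEq, KK]
    split_ifs with e
    · rw [← bb_sum]
      refine Finset.sum_congr rfl fun w _ => ?_
      simp only [e, and_true, mul_ite, mul_one, mul_zero, Finset.sum_ite_eq]
      split_ifs with h
      exacts [mul_comm _ _, by rw [bb_off h, mul_zero]]
    · simp [e]

end Pool.Agent.Lib.helper1.FT
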