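import Mathlib

set_option autoImplicit false

open MeasureTheory ProbabilityTheory

namespace Pool.Agent.Lib.helper1.GC

noncomputable abbrev G : Measure ℝ := gaussianReal 0 1
noncomputable abbrev g (x : ℝ) : ℝ := gaussianPDFReal 0 1 x

lemma g_pos (x : ℝ) : 0 < g x := gaussianPDFReal_pos 0 1 x one_ne_zero

lemma int_G (F : ℝ → ℝ) : ∫ x, F x ∂G = ∫ x, g x * F x := by
  rw [integral_gaussianReal_eq_integral_smul one_ne_zero]; rfl

lemma log_g (x : ℝ) : Real.log (g x) = -(Real.log (Real.sqrt (2 * Real.pi))) - x ^ 2 / 2 := by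
  have h : (0:ℝ) < Real.sqrt (2 * Real.pi) := Real.sqrt_pos.2 (by positivity)
  have : g x = (Real.sqrt (2 * Real.pi))⁻¹ * Real.exp (-(x ^ 2 / 2)) := by
    simp only [g, gaussianPDFReal, NNReal.coe_one, mul_one, sub_zero, neg_div]
  rw [this, Real.log_mul (by positivity) (by positivity), Real.log_inv, Real.log_exp]; ring

lemma cexp_int (t : ℝ) :
    ∫ x, Complex.exp (t * x * Complex.I) ∂G = ((Real.exp (-(t ^ 2 / 2)) : ℝ) : ℂ) := by
  rw [← charFun_apply_real, charFun_gaussianReal]; simp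

lemma cexp_integrable (t : ℝ) : Integrable (fun x : ℝ => Complex.exp (t * x * Complex.I)) G := by
  refine Integrable.of_bound (by fun_prop) 1 (Filter.Eventually.of_forall fun x => ?_)
  rw [← Complex.ofReal_mul, Complex.norm_exp_ofReal_mul_I]

lemma cos_int (v : ℝ) : ∫ x, Real.cos (v * x) ∂G = Real.exp (-(v ^ 2 / 2)) := by
  have h := cexp_int v
  have h2 := integral_re (𝕜 := ℂ) (cexp_integrable v)
  rw [h] at h2
  simp only [RCLike.re_to_complex, Complex.ofReal_re] at h2
  rw [← h2]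
  refine integral_congr_ae (Filter.Eventually.of_forall fun x => ?_)
  simp only
  rw [← Complex.ofReal_mul, Complex.exp_ofReal_mul_I_re]

lemma sq_integrable : Integrable (fun x : ℝ => x ^ 2) G := by
  have := (memLp_id_gaussianReal (μ := 0) (v := 1) 2).integrable_sq
  simpa using this

lemma cos_sq_int (v : ℝ) :
    ∫ x, x ^ 2 * Real.cos (v * x) ∂G = (1 - v ^ 2) * Real.exp (-(v ^ 2 / 2)) := by
  have h := iteratedDeriv_complexMGF (X := id) (μ := G) (z := v * Complex.I)
    (by rw [integrableExpSet_id_gaussianReal]; simp) 2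
  have hf : complexMGF id G = fun z => Complex.exp (z ^ 2 / 2) := by
    ext z; rw [complexMGF_id_gaussianReal]; simp
  have d1 : ∀ z : ℂ, HasDerivAt (fun z : ℂ => Complex.exp (z ^ 2 / 2))
      (Complex.exp (z ^ 2 / 2) * z) z := fun z => by
    have := ((hasDerivAt_pow 2 z).div_const 2).cexp
    refine this.congr_deriv ?_
    simp
  have d2 : ∀ z : ℂ, HasDerivAt (fun z : ℂ => Complex.exp (z ^ 2 / 2) * z)
      (Complex.exp (z ^ 2 / 2) * z * z + Complex.exp (z ^ 2 / 2) * 1) z := fun z =>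
    (d1 z).mul (hasDerivAt_id z)
  have e1 : deriv (fun z : ℂ => Complex.exp (z ^ 2 / 2)) = fun z => Complex.exp (z ^ 2 / 2) * z :=
    funext fun z => (d1 z).deriv
  rw [hf, iteratedDeriv_succ, iteratedDeriv_one, e1, (d2 _).deriv] at h
  have hI : Integrable (fun x : ℝ => ((x : ℂ)) ^ 2 * Complex.exp (v * Complex.I * x)) G := by
    refine sq_integrable.mono' (by fun_prop) (Filter.Eventually.of_forall fun x => ?_)
    have : (v : ℂ) * Complex.I * x = ((v * x : ℝ) : ℂ) * Complex.I := by push_cast; ring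
    rw [norm_mul, this, Complex.norm_exp_ofReal_mul_I]; simp
  have h2 := integral_re (𝕜 := ℂ) hI
  simp only [id] at h
  rw [← h] at h2
  have e2 : ((v : ℂ) * Complex.I) ^ 2 / 2 = ((-(v ^ 2 / 2) : ℝ) : ℂ) := by
    push_cast; rw [mul_pow, Complex.I_sq]; ring
  have e3 : Complex.exp (((v : ℂ) * Complex.I) ^ 2 / 2) * (v * Complex.I) * (v * Complex.I)
      + Complex.exp (((v : ℂ) * Complex.I) ^ 2 / 2) * 1
      = (((1 - v ^ 2) * Real.exp (-(v ^ 2 / 2)) : ℝ) : ℂ) := by
    rw [e2, ← Complex.ofReal_exp]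
    have : (v : ℂ) * Complex.I * (v * Complex.I) = -(v : ℂ) ^ 2 := by
      rw [← sq, mul_pow, Complex.I_sq]; ring
    rw [mul_assoc, this]
    simp only [Complex.ofReal_mul, Complex.ofReal_sub, Complex.ofReal_one, Complex.ofReal_pow]
    ring
  rw [e3] at h2
  simp only [RCLike.re_to_complex, Complex.ofReal_re] at h2
  rw [← h2]
  refine integral_congr_ae (Filter.Eventually.of_forall fun x => ?_)
  have : (v : ℂ) * Complex.I * x = ((v * x : ℝ) : ℂ) * Complex.I := by push_cast; ring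
  simp only
  rw [this, ← Complex.ofReal_pow, Complex.re_ofReal_mul, Complex.exp_ofReal_mul_I_re]

lemma cos_cexp (v t x : ℝ) : ((Real.cos (v * x) : ℝ) : ℂ) * Complex.exp (t * x * Complex.I)
    = (Complex.exp (((t + v : ℝ) : ℂ) * x * Complex.I)
      + Complex.exp (((t - v : ℝ) : ℂ) * x * Complex.I)) / 2 := by
  rw [Complex.ofReal_cos, Complex.cos, div_mul_eq_mul_div, add_mul, ← Complex.exp_add,
    ← Complex.exp_add]
  push_cast
  congr 3 <;> ring

lemma cos_cexp_integrable (v t : ℝ) : Integrable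
    (fun x : ℝ => ((Real.cos (v * x) : ℝ) : ℂ) * Complex.exp (t * x * Complex.I)) G := by
  simp_rw [cos_cexp]
  exact ((cexp_integrable _).add (cexp_integrable _)).div_const _

lemma cos_cexp_int (v t : ℝ) :
    ∫ x, ((Real.cos (v * x) : ℝ) : ℂ) * Complex.exp (t * x * Complex.I) ∂G
      = (((Real.exp (-((t + v) ^ 2 / 2)) + Real.exp (-((t - v) ^ 2 / 2))) / 2 : ℝ) : ℂ) := by
  simp_rw [cos_cexp]
  rw [integral_div, integral_add (cexp_integrable _) (cexp_integrable _), cexp_int, cexp_int]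
  push_cast; ring

/-- a finite cosine sum -/
noncomputable def tp {n : ℕ} (c v : Fin n → ℝ) (x : ℝ) : ℝ := ∑ i, c i * Real.cos (v i * x)

lemma tp_cont {n : ℕ} (c v : Fin n → ℝ) : Continuous (tp c v) := by
  unfold tp; fun_prop

lemma cos_integrable (v : ℝ) : Integrable (fun x : ℝ => Real.cos (v * x)) G :=
  Integrable.of_bound (by fun_prop) 1 (Filter.Eventually.of_forall fun x => by
    simpa using Real.abs_cos_le_one _)

lemma sqcos_integrable (v : ℝ) : Integrable (fun x : ℝ => x ^ 2 * Real.cos (v * x)) G := by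
  refine sq_integrable.mono' (by fun_prop) (Filter.Eventually.of_forall fun x => ?_)
  rw [norm_mul, Real.norm_eq_abs, Real.norm_eq_abs, abs_of_nonneg (sq_nonneg x)]
  exact mul_le_of_le_one_right (sq_nonneg x) (Real.abs_cos_le_one _)

lemma tp_integrable {n : ℕ} (c v : Fin n → ℝ) : Integrable (tp c v) G :=
  integrable_finsetSum _ fun i _ => (cos_integrable (v i)).const_mul (c i)

lemma tp_int {n : ℕ} (c v : Fin n → ℝ) :
    ∫ x, tp c v x ∂G = ∑ i, c i * Real.exp (-(v i ^ 2 / 2)) := by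
  unfold tp
  rw [integral_finsetSum _ fun i _ => (cos_integrable (v i)).const_mul (c i)]
  simp_rw [integral_const_mul, cos_int]

lemma sqtp {n : ℕ} (c v : Fin n → ℝ) (x : ℝ) :
    x ^ 2 * tp c v x = ∑ i, c i * (x ^ 2 * Real.cos (v i * x)) := by
  unfold tp; rw [Finset.mul_sum]; exact Finset.sum_congr rfl fun i _ => by ring

lemma sqtp_integrable {n : ℕ} (c v : Fin n → ℝ) : Integrable (fun x => x ^ 2 * tp c v x) G := by
  simp_rw [sqtp]
  exact integrable_finsetSum _ fun i _ => (sqcos_integrable (v i)).const_mul (c i)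

lemma sqtp_int {n : ℕ} (c v : Fin n → ℝ) :
    ∫ x, x ^ 2 * tp c v x ∂G = ∑ i, c i * ((1 - v i ^ 2) * Real.exp (-(v i ^ 2 / 2))) := by
  simp_rw [sqtp]
  rw [integral_finsetSum _ fun i _ => (sqcos_integrable (v i)).const_mul (c i)]
  simp_rw [integral_const_mul, cos_sq_int]

/-- measure with density `g * r` -/
noncomputable def mu (r : ℝ → ℝ) : Measure ℝ :=
  volume.withDensity (fun x => ENNReal.ofReal (g x * r x))

lemma integrable_g_mul {F : ℝ → ℝ} (h : Integrable F G) : Integrable (fun x => g x * F x) := by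
  rw [G, gaussianReal_of_var_ne_zero 0 one_ne_zero,
    integrable_withDensity_iff_integrable_smul' (measurable_gaussianPDF _ _)
      (Filter.Eventually.of_forall fun _ => gaussianPDF_lt_top)] at h
  simpa [toReal_gaussianPDF] using h

lemma mu_prob {r : ℝ → ℝ} (h0 : ∀ x, 0 ≤ r x) (hi : Integrable r G) (h1 : ∫ x, r x ∂G = 1) :
    IsProbabilityMeasure (mu r) := by
  refine ⟨?_⟩
  rw [mu, withDensity_apply _ MeasurableSet.univ, Measure.restrict_univ,
    ← ofReal_integral_eq_lintegral_ofReal (integrable_g_mul hi)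
      (Filter.Eventually.of_forall fun x => mul_nonneg (g_pos x).le (h0 x)), ← int_G, h1]
  simp

lemma charFun_mu {n : ℕ} (c v : Fin n → ℝ) (h0 : ∀ x, 0 ≤ tp c v x) (t : ℝ) :
    charFun (mu (tp c v)) t = ((∑ i, c i *
      ((Real.exp (-((t + v i) ^ 2 / 2)) + Real.exp (-((t - v i) ^ 2 / 2))) / 2) : ℝ) : ℂ) := by
  have hm : Measurable (fun x => ENNReal.ofReal (g x * tp c v x)) :=
    ((measurable_gaussianPDFReal 0 1).mul (tp_cont c v).measurable).ennreal_ofReal
  rw [charFun_apply_real, mu, integral_withDensity_eq_integral_toReal_smul hm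
    (Filter.Eventually.of_forall fun _ => ENNReal.ofReal_lt_top)]
  have e : ∀ x : ℝ, (ENNReal.ofReal (g x * tp c v x)).toReal • Complex.exp (t * x * Complex.I)
      = g x • ∑ i, (c i : ℂ) * (((Real.cos (v i * x) : ℝ) : ℂ) * Complex.exp (t * x * Complex.I)) := by
    intro x
    rw [ENNReal.toReal_ofReal (mul_nonneg (g_pos x).le (h0 x)), mul_smul]
    congr 1
    rw [tp, Finset.sum_smul]
    refine Finset.sum_congr rfl fun i _ => ?_
    rw [Complex.real_smul, Complex.ofReal_mul, mul_assoc]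
  simp_rw [e]
  rw [← integral_gaussianReal_eq_integral_smul one_ne_zero,
    integral_finsetSum _ fun i _ => (cos_cexp_integrable (v i) t).const_mul _]
  simp_rw [integral_const_mul, cos_cexp_int]
  rw [Complex.ofReal_sum]
  exact Finset.sum_congr rfl fun i _ => by rw [Complex.ofReal_mul]

lemma rlog_integrable {r : ℝ → ℝ} (hc : Continuous r) (hl : ∀ x, 1 / 2 ≤ r x) (hu : ∀ x, r x ≤ 2) :
    Integrable (fun x => r x * Real.log (r x)) G := by
  refine Integrable.of_bound (hc.measurable.mul hc.measurable.log).aestronglyMeasurable 2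
    (Filter.Eventually.of_forall fun x => ?_)
  have h1 := hl x
  have h2 := hu x
  have hp : 0 < r x := by linarith
  have a1 := Real.log_le_sub_one_of_pos hp
  have a2 := Real.one_sub_inv_le_log_of_pos hp
  have a3 : (r x)⁻¹ ≤ 2 := by rw [inv_le_comm₀ hp (by norm_num)]; linarith
  rw [Real.norm_eq_abs, abs_le]
  constructor <;> nlinarith

/-- the entropy of `g * r` -/
lemma ent_mu {n : ℕ} (c v : Fin n → ℝ) (hl : ∀ x, 1 / 2 ≤ tp c v x) (hu : ∀ x, tp c v x ≤ 2) :
    ∫ x, Real.negMulLog (((mu (tp c v)).rnDeriv volume x).toReal)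
      = Real.log (Real.sqrt (2 * Real.pi)) * (∫ x, tp c v x ∂G)
        + (∫ x, x ^ 2 * tp c v x ∂G) / 2 - ∫ x, tp c v x * Real.log (tp c v x) ∂G := by
  have hm : Measurable (fun x => ENNReal.ofReal (g x * tp c v x)) :=
    ((measurable_gaussianPDFReal 0 1).mul (tp_cont c v).measurable).ennreal_ofReal
  have h1 := Measure.rnDeriv_withDensity (volume : Measure ℝ) hm
  have e1 : ∫ x, Real.negMulLog (((mu (tp c v)).rnDeriv volume x).toReal)
      = ∫ x, g x * (Real.log (Real.sqrt (2 * Real.pi)) * tp c v x + x ^ 2 * tp c v x / 2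
        - tp c v x * Real.log (tp c v x)) := by
    refine integral_congr_ae ?_
    filter_upwards [h1] with x hx
    have hp : 0 < tp c v x := by linarith [hl x]
    rw [mu, hx, ENNReal.toReal_ofReal (mul_nonneg (g_pos x).le hp.le), Real.negMulLog,
      Real.log_mul (g_pos x).ne' hp.ne', log_g]
    ring
  rw [e1, ← int_G, integral_sub, integral_add, integral_const_mul, integral_div]
  · exact (tp_integrable c v).const_mul _
  · exact (sqtp_integrable c v).div_const _
  · exact ((tp_integrable c v).const_mul _).add ((sqtp_integrable c v).div_const _)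
  · exact rlog_integrable (tp_cont c v) hl hu

lemma rlog_up {r : ℝ} (h : 0 < r) : r * Real.log r ≤ (r - 1) + (r - 1) ^ 2 := by
  have := Real.log_le_sub_one_of_pos h
  nlinarith

lemma rlog_low {r : ℝ} (h : 0 < r) (h2 : r ≤ 2) : (r - 1) + (r - 1) ^ 2 / 9 ≤ r * Real.log r := by
  obtain ⟨s, hs, rfl⟩ : ∃ s : ℝ, 0 < s ∧ r = s ^ 2 :=
    ⟨Real.sqrt r, Real.sqrt_pos.2 h, (Real.sq_sqrt h.le).symm⟩
  have a2 := Real.one_sub_inv_le_log_of_pos hs
  have a3 : s ≤ 2 := by nlinarith
  rw [Real.log_pow]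
  have a4 : s ^ 2 * (1 - s⁻¹) = s ^ 2 - s := by field_simp
  have a5 : s ^ 2 * (1 - s⁻¹) ≤ s ^ 2 * Real.log s := mul_le_mul_of_nonneg_left a2 (sq_nonneg s)
  have a6 : (s ^ 2 - 1) ^ 2 ≤ 9 * (s - 1) ^ 2 := by
    have : (s ^ 2 - 1) ^ 2 = (s + 1) ^ 2 * (s - 1) ^ 2 := by ring
    rw [this]
    exact mul_le_mul_of_nonneg_right (by nlinarith) (sq_nonneg _)
  push_cast
  nlinarith

end Pool.Agent.Lib.helper1.GC
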