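import Pool.Agent.Lib.helper1.Uq3

set_option autoImplicit false

namespace Pool.Agent.Lib.helper1.Hc
open Pool.Agent.Lib.helper1.Uq

def edgesOf : Z2 → List (Bool × Bool) → Finset (Z2 × Bool)
  | _, [] => ∅
  | a, k :: l => insert (can a k) (edgesOf (stp a k) l)

def vertsOf : Z2 → List (Bool × Bool) → Finset Z2
  | a, [] => {a}
  | a, k :: l => insert a (vertsOf (stp a k) l)

lemma self_mem_verts (a : Z2) (l : List (Bool × Bool)) : a ∈ vertsOf a l := by
  cases l <;> simp [vertsOf]

lemma can_ends (u : Z2) (k : Bool × Bool) :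
    ((can u k).1 = u ∧ (can u k).1 + ee (can u k).2 = stp u k) ∨
    ((can u k).1 = stp u k ∧ (can u k).1 + ee (can u k).2 = u) := by
  obtain ⟨s, d⟩ := k
  cases s <;> simp [can, stp]

lemma ends_mem {l : List (Bool × Bool)} : ∀ {a : Z2} {c : Z2 × Bool}, c ∈ edgesOf a l →
    c.1 ∈ vertsOf a l ∧ c.1 + ee c.2 ∈ vertsOf a l := by
  induction l with
  | nil => intro a c h; simp [edgesOf] at h
  | cons k l ih =>
    intro a c h
    simp only [edgesOf, vertsOf, Finset.mem_insert] at h ⊢
    rcases h with rfl | h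
    · have := self_mem_verts (stp a k) l
      rcases can_ends a k with ⟨h1, h2⟩ | ⟨h1, h2⟩
      · exact ⟨Or.inl h1, Or.inr (h2 ▸ this)⟩
      · exact ⟨Or.inr (h1 ▸ this), Or.inl h2⟩
    · exact ⟨Or.inr (ih h).1, Or.inr (ih h).2⟩

lemma l1_verts {l : List (Bool × Bool)} : ∀ {a v : Z2}, v ∈ vertsOf a l → l1 a v ≤ l.length := by
  induction l with
  | nil => intro a v h; simp only [vertsOf, Finset.mem_singleton] at h; simp [h, l1_self]
  | cons k l ih =>
    intro a v h
    simp only [vertsOf, Finset.mem_insert] at h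
    rw [List.length_cons]
    push_cast
    rcases h with rfl | h
    · rw [l1_self]; positivity
    · have := l1_stp a v k
      have := ih h
      omega

lemma detour {l : List (Bool × Bool)} : ∀ {a v : Z2} (k : Bool × Bool), v ∈ vertsOf a l →
    ∃ l' : List (Bool × Bool), l'.length = l.length + 2 ∧
      edgesOf a l' = insert (can v k) (edgesOf a l) := by
  have base : ∀ (a : Z2) (k : Bool × Bool) (l : List (Bool × Bool)),
      edgesOf a (k :: (!k.1, k.2) :: l) = insert (can a k) (edgesOf a l) := by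
    intro a k l
    obtain ⟨s, d⟩ := k
    cases s <;> simp [edgesOf, can, stp]
  induction l with
  | nil =>
    intro a v k h
    simp only [vertsOf, Finset.mem_singleton] at h
    subst h
    exact ⟨_, rfl, base v k []⟩
  | cons k' l ih =>
    intro a v k h
    simp only [vertsOf, Finset.mem_insert] at h
    rcases h with rfl | h
    · exact ⟨_, rfl, base v k _⟩
    · obtain ⟨l', h1, h2⟩ := ih k h
      refine ⟨k' :: l', by simp [h1], ?_⟩
      simp only [edgesOf, h2]
      exact Finset.insert_comm _ _ _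

lemma cover (good : Z2 × Bool → Prop) (a : Z2) (K : Finset (Z2 × Bool))
    (hK : ∀ c, c ∈ K ↔ good c ∧ (Lat good).Reachable a c.1) :
    ∃ l : List (Bool × Bool), l.length = 2 * K.card ∧ edgesOf a l = K := by
  have step : ∀ m, m ≤ K.card → ∃ l : List (Bool × Bool), l.length = 2 * m ∧
      edgesOf a l ⊆ K ∧ (edgesOf a l).card = m := by
    intro m
    induction m with
    | zero => intro _; exact ⟨[], rfl, by simp [edgesOf], by simp [edgesOf]⟩
    | succ m ih =>
      intro hm
      obtain ⟨l, h1, h2, h3⟩ := ih (by omega)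
      have : ∃ v ∈ vertsOf a l, ∃ k, can v k ∈ K ∧ can v k ∉ edgesOf a l := by
        by_contra hc
        push Not at hc
        have hw : ∀ u v : Z2, (Lat good).Walk u v → (Lat good).Reachable a u →
            u ∈ vertsOf a l → v ∈ vertsOf a l := by
          intro u v p
          induction p with
          | nil => exact fun _ h => h
          | @cons u v w h p ih =>
            intro hr hu
            refine ih (hr.trans h.reachable) ?_
            obtain ⟨k, hk, hg⟩ := adj_step h
            have hin : can u k ∈ K := by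
              refine (hK _).2 ⟨hg, ?_⟩
              rcases can_ends u k with ⟨e, -⟩ | ⟨e, -⟩
              · rw [e]; exact hr
              · rw [e, ← hk]; exact hr.trans h.reachable
            have := ends_mem (hc u hu k hin)
            rcases can_ends u k with ⟨-, e⟩ | ⟨e, -⟩
            · rw [hk, ← e]; exact this.2
            · rw [hk, ← e]; exact this.1
        have : K ⊆ edgesOf a l := by
          intro c hcK
          obtain ⟨p⟩ := ((hK c).1 hcK).2
          have := hc c.1 (hw _ _ p (SimpleGraph.Reachable.refl _) (self_mem_verts a l))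
            (true, c.2) (by simpa [can] using hcK)
          simpa [can] using this
        have := Finset.card_le_card this
        omega
      obtain ⟨v, hv, k, hk1, hk2⟩ := this
      obtain ⟨l', e1, e2⟩ := detour k hv
      refine ⟨l', by omega, ?_, ?_⟩
      · rw [e2]; exact Finset.insert_subset hk1 h2
      · rw [e2, Finset.card_insert_of_notMem hk2, h3]
  obtain ⟨l, h1, h2, h3⟩ := step K.card le_rfl
  exact ⟨l, h1, Finset.eq_of_subset_of_card_le h2 h3.ge⟩

noncomputable def box (n : ℕ) : Finset Z2 := Finset.Icc (-(n : ℤ)) n ×ˢ Finset.Icc (-(n : ℤ)) n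

lemma mem_box {n : ℕ} {x : Z2} :
    x ∈ box n ↔ (-(n : ℤ) ≤ x.1 ∧ x.1 ≤ n) ∧ (-(n : ℤ) ≤ x.2 ∧ x.2 ≤ n) := by
  simp [box]

/-- the two endpoints of the primal edge crossed by the dual edge `c` -/
def e1 (c : Z2 × Bool) : Z2 := c.1 + ee c.2
def e2 (c : Z2 × Bool) : Z2 := c.1 + (1, 1)

lemma exit_ray (W : Finset Z2) (o : Z2) (ho : o ∈ W) (σ : ℤ) (hσ : σ ≠ 0) :
    ∃ j : ℕ, (o.1 + σ * j, o.2) ∈ W ∧ (o.1 + σ * (j + 1 : ℕ), o.2) ∉ W := by
  by_contra hc
  push Not at hc
  have : ∀ j : ℕ, (o.1 + σ * j, o.2) ∈ W := by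
    intro j
    induction j with
    | zero => simpa using ho
    | succ j ih => exact hc j ih
  refine Set.infinite_of_injective_forall_mem (s := (W : Set Z2))
    (f := fun j : ℕ => (o.1 + σ * j, o.2)) (fun i j h => ?_) this W.finite_toSet
  simp only [Prod.mk.injEq, and_true, add_right_inj] at h
  exact_mod_cast mul_left_cancel₀ hσ h

lemma contour (n : ℕ) (A : Z2 → Prop) (hA : ∀ x, A x → x ∈ box n) (o : Z2) (ho : A o) :
    ∃ (m j : ℕ) (l : List (Bool × Bool)) (W : Finset Z2), j < 2 * (m + 1) ∧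
      l.length = 2 * (m + 1) ∧ (edgesOf (o.1 + j, o.2 - 1) l).card = m + 1 ∧ W ⊆ box n ∧
      (∀ c, c ∈ edgesOf (o.1 + j, o.2 - 1) l ↔ ¬ (e1 c ∈ W ↔ e2 c ∈ W)) ∧
      ∀ c ∈ edgesOf (o.1 + j, o.2 - 1) l, ¬ (A (e1 c) ↔ A (e2 c)) := by
  classical
  let good : Z2 × Bool → Prop := fun c => ¬ (A (e1 c) ↔ A (e2 c))
  let χ : ℤ → ℤ → ZMod 2 := fun x y => if A (x, y) then 1 else 0
  have hχ : ∀ x y x' y', χ x y ≠ χ x' y' ↔ ¬ (A (x, y) ↔ A (x', y')) := by
    intro x y x' y'
    by_cases h : A (x, y) <;> by_cases h' : A (x', y') <;> simp [χ, h, h']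
  have hout : ∀ x y, (x, y) ∉ box n → χ x y = 0 := fun x y h => if_neg (fun h' => h (hA _ h'))
  let cm := (Lat good).connectedComponentMk
  let N : ℤ → ℕ := fun x => ((n : ℤ) + 1 - x).toNat
  obtain ⟨o1, o2⟩ := o
  have hob := mem_box.1 (hA _ ho)
  simp only at hob ⊢
  obtain ⟨C, hC⟩ : ∃ C, ∑ i ∈ Finset.range (N o1),
      (χ (o1 + i) o2 - χ (o1 + i + 1) o2) * (if cm (o1 + i, o2 - 1) = C then 1 else 0) ≠ 0 := by
    by_contra hc
    push Not at hc
    have h1 : ∑ i ∈ Finset.range (N o1), (χ (o1 + i) o2 - χ (o1 + i + 1) o2) = 1 := by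
      have := Finset.sum_range_sub' (fun i : ℕ => χ (o1 + i) o2) (N o1)
      simp only [Nat.cast_add, Nat.cast_one, ← add_assoc] at this
      rw [this, hout (o1 + N o1) o2 (by rw [mem_box]; simp only [N]; omega)]
      simp [χ, ho]
    have h2 := Finset.sum_fiberwise_of_maps_to (s := Finset.range (N o1))
      (t := (Finset.range (N o1)).image (fun i : ℕ => cm (o1 + i, o2 - 1)))
      (g := fun i : ℕ => cm (o1 + i, o2 - 1)) (fun i hi => Finset.mem_image_of_mem _ hi)
      (fun i : ℕ => χ (o1 + i) o2 - χ (o1 + i + 1) o2)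
    rw [h1, Finset.sum_eq_zero] at h2
    · exact absurd h2 (by decide)
    · intro C _
      rw [Finset.sum_filter]
      refine Eq.trans ?_ (hc C)
      exact Finset.sum_congr rfl (fun i _ => by split_ifs <;> simp)
  let ρ : ℤ → ℤ → ZMod 2 := fun x y => if cm (x, y) = C then 1 else 0
  let kh : ℤ → ℤ → ZMod 2 := fun x y => (χ x y - χ (x + 1) y) * ρ x (y - 1)
  let kv : ℤ → ℤ → ZMod 2 := fun x y => (χ x y - χ x (y + 1)) * ρ (x - 1) y
  have hkh : ∀ x y, kh x y = (χ x y - χ (x + 1) y) * ρ x y := by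
    intro x y
    by_cases h : χ x y = χ (x + 1) y
    · simp [kh, h]
    · have ha := lat_adj (good := good) (u := (x, y - 1)) (d := true)
        (by simpa [good, e1, e2, ee] using (hχ _ _ _ _).1 h)
      have : cm (x, y - 1) = cm (x, y) := by
        refine SimpleGraph.ConnectedComponent.eq.2 ?_
        simpa [ee] using ha.reachable
      simp only [kh, ρ, this]
  have hkv : ∀ x y, kv x y = (χ x y - χ x (y + 1)) * ρ x y := by
    intro x y
    by_cases h : χ x y = χ x (y + 1)
    · simp [kv, h]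
    · have ha := lat_adj (good := good) (u := (x - 1, y)) (d := false)
        (by simpa [good, e1, e2, ee] using (hχ _ _ _ _).1 h)
      have : cm (x - 1, y) = cm (x, y) := by
        refine SimpleGraph.ConnectedComponent.eq.2 ?_
        simpa [ee] using ha.reachable
      simp only [kv, ρ, this]
  have face : ∀ x y, kh x y - kh x (y + 1) + kv (x + 1) y = kv x y := by
    intro x y
    rw [hkh x y, hkv x y]
    simp only [kh, kv, add_sub_cancel_right]
    ring
  let ψ : ℤ → ℤ → ZMod 2 := fun x y => ∑ i ∈ Finset.range (N x), kh (x + i) y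
  have kh0 : ∀ x y, (x, y) ∉ box n → (x + 1, y) ∉ box n → kh x y = 0 := by
    intro x y h h'; simp [kh, hout _ _ h, hout _ _ h']
  have kv0 : ∀ x y, (x, y) ∉ box n → (x, y + 1) ∉ box n → kv x y = 0 := by
    intro x y h h'; simp [kv, hout _ _ h, hout _ _ h']
  have ψ0 : ∀ x y, (n : ℤ) + 1 ≤ x → ψ x y = 0 := by
    intro x y h
    have : N x = 0 := by simp only [N]; omega
    simp [ψ, this]
  have ψh : ∀ x y, ψ x y - ψ (x + 1) y = kh x y := by
    intro x y
    by_cases h : (n : ℤ) + 1 ≤ x
    · rw [ψ0 x y h, ψ0 (x + 1) y (by omega), kh0 x y (by rw [mem_box]; omega)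
        (by rw [mem_box]; simp only; omega), sub_zero]
    · have : N x = N (x + 1) + 1 := by simp only [N]; omega
      simp only [ψ]
      rw [this, Finset.sum_range_succ']
      have e : ∀ i : ℕ, x + ((i + 1 : ℕ) : ℤ) = x + 1 + i := by intro i; push_cast; ring
      simp only [e]
      simp
  have ψv : ∀ (k : ℕ) x y, (n : ℤ) + 1 ≤ x + k → ψ x y - ψ x (y + 1) = kv x y := by
    intro k
    induction k with
    | zero =>
      intro x y h
      rw [ψ0 x y (by omega), ψ0 x (y + 1) (by omega), kv0 x y (by rw [mem_box]; omega)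
        (by rw [mem_box]; simp only; omega), sub_zero]
    | succ k ih =>
      intro x y h
      rw [← face, ← ih (x + 1) y (by omega), ← ψh, ← ψh]
      ring
  have ψv' : ∀ x y, ψ x y - ψ x (y + 1) = kv x y := fun x y => ψv (N x) x y (by simp only [N]; omega)
  have ψrow : ∀ x y, (y < -(n : ℤ) ∨ (n : ℤ) < y) → ψ x y = 0 := by
    intro x y h
    exact Finset.sum_eq_zero (fun i _ => kh0 _ _ (by rw [mem_box]; simp only; omega)
      (by rw [mem_box]; simp only; omega))
  have ψleft : ∀ (k : ℕ) x y, x < -(n : ℤ) → (n : ℤ) < y + k → ψ x y = 0 := by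
    intro k
    induction k with
    | zero => intro x y _ h; exact ψrow x y (by omega)
    | succ k ih =>
      intro x y hx h
      have := ψv' x y
      rw [ih x (y + 1) hx (by omega), kv0 x y (by rw [mem_box]; omega)
        (by rw [mem_box]; simp only; omega), sub_zero] at this
      exact this
  have ψout : ∀ x y, (x, y) ∉ box n → ψ x y = 0 := by
    intro x y h
    rw [mem_box] at h
    simp only at h
    by_cases h1 : (n : ℤ) + 1 ≤ x
    · exact ψ0 x y h1
    by_cases h2 : x < -(n : ℤ)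
    · exact ψleft ((n : ℤ) + 1 - y).toNat x y h2 (by omega)
    · exact ψrow x y (by omega)
  let W : Finset Z2 := (box n).filter (fun z => ψ z.1 z.2 ≠ 0)
  have hW : ∀ x y, (x, y) ∈ W ↔ ψ x y ≠ 0 := by
    intro x y
    simp only [W, Finset.mem_filter]
    exact ⟨fun h => h.2, fun h => ⟨by by_contra h'; exact h (ψout _ _ h'), h⟩⟩
  have z2 : ∀ a b : ZMod 2, ¬ (a ≠ 0 ↔ b ≠ 0) ↔ a - b ≠ 0 := by decide
  have z3 : ∀ (a b : ZMod 2) (P : Prop) [Decidable P],
      (a - b) * (if P then 1 else 0) ≠ 0 ↔ a ≠ b ∧ P := by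
    intro a b P _
    by_cases h : P <;> simp [h, sub_eq_zero]
  have hbd : ∀ c, ¬ (e1 c ∈ W ↔ e2 c ∈ W) ↔ good c ∧ cm c.1 = C := by
    rintro ⟨⟨x, y⟩, d⟩
    cases d
    · have h1 : e1 ((x, y), false) = (x + 1, y) := by simp [e1, ee]
      have h2 : e2 ((x, y), false) = (x + 1, y + 1) := by simp [e2]
      simp only [good]
      rw [h1, h2, hW, hW, z2, ψv', ← hχ]
      simp only [kv, ρ, add_sub_cancel_right]
      exact z3 _ _ _
    · have h1 : e1 ((x, y), true) = (x, y + 1) := by simp [e1, ee]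
      have h2 : e2 ((x, y), true) = (x + 1, y + 1) := by simp [e2]
      simp only [good]
      rw [h1, h2, hW, hW, z2, ψh, ← hχ]
      simp only [kh, ρ, add_sub_cancel_right]
      exact z3 _ _ _
  have hoW : (o1, o2) ∈ W := (hW _ _).2 hC
  obtain ⟨j, hj1, hj2⟩ := exit_ray W _ hoW 1 one_ne_zero
  obtain ⟨i, hi1, hi2⟩ := exit_ray W _ hoW (-1) (by norm_num)
  simp only at hj1 hj2 hi1 hi2
  have cj : good ((o1 + j, o2 - 1), true) ∧ cm (o1 + j, o2 - 1) = C := by
    refine (hbd ((o1 + j, o2 - 1), true)).1 (fun h => hj2 ?_)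
    have := h.1 (by simpa [e1, ee] using hj1)
    simpa [e2, add_assoc] using this
  have ci : good ((o1 - i - 1, o2 - 1), true) ∧ cm (o1 - i - 1, o2 - 1) = C := by
    refine (hbd ((o1 - i - 1, o2 - 1), true)).1 (fun h => hi2 ?_)
    have := h.2 (by simpa [e2, sub_eq_add_neg, add_assoc] using hi1)
    have e : (o1 + -1 * ((i + 1 : ℕ) : ℤ), o2) = e1 ((o1 - i - 1, o2 - 1), true) := by
      simp only [e1, ee, if_true, Prod.mk_add_mk, Prod.mk.injEq]
      omega
    rw [e]; exact this
  let K : Finset (Z2 × Bool) := (box (n + 1) ×ˢ Finset.univ).filter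
    (fun c => good c ∧ cm c.1 = C)
  have hKm : ∀ c, c ∈ K ↔ good c ∧ cm c.1 = C := by
    intro c
    simp only [K, Finset.mem_filter, Finset.mem_product, Finset.mem_univ, and_true]
    refine ⟨fun h => h.2, fun h => ⟨?_, h⟩⟩
    have : A (e1 c) ∨ A (e2 c) := by
      have := h.1
      simp only [good] at this
      tauto
    obtain ⟨⟨x, y⟩, d⟩ := c
    rw [mem_box]
    rcases this with h | h <;> have := mem_box.1 (hA _ h) <;> cases d <;>
      simp only [e1, e2, ee, Bool.false_eq_true, if_false, if_true, Prod.mk_add_mk] at this ⊢ <;>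
      omega
  obtain ⟨l, hl1, hl2⟩ := cover good (o1 + j, o2 - 1) K (fun c => by
    rw [hKm, ← cj.2]
    exact and_congr_right (fun _ => by
      simp only [cm, SimpleGraph.ConnectedComponent.eq]
      exact ⟨fun h => h.symm, fun h => h.symm⟩))
  have hiK : ((o1 - i - 1, o2 - 1), true) ∈ K := (hKm _).2 ci
  have hpos : 0 < K.card := Finset.card_pos.2 ⟨_, hiK⟩
  have hd := l1_verts (ends_mem (hl2 ▸ hiK : _ ∈ edgesOf (o1 + j, o2 - 1) l)).1
  simp only [l1, abs_eq_max_neg] at hd
  refine ⟨K.card - 1, j, l, W, by omega, by omega, by rw [hl2]; omega,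
    Finset.filter_subset _ _, fun c => ?_, fun c hc => ?_⟩
  · rw [hl2, hKm, hbd]
  · rw [hl2, hKm] at hc
    exact hc.1

end Pool.Agent.Lib.helper1.Hc
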