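import Pool.Agent.Lib.helper1.Hc1

set_option autoImplicit false
open MeasureTheory
open scoped ENNReal

namespace Pool.Agent.Lib.helper1.Hc
open Pool.Agent.Lib.helper1.Uq

abbrev Cfg := Z2 → Bool

def par (x : Z2) : ℤ := (x.1 + x.2) % 2
def rev (k : Bool × Bool) : Bool × Bool := (!k.1, k.2)

lemma stp_comm (x : Z2) (k k' : Bool × Bool) : stp (stp x k) k' = stp (stp x k') k := by
  unfold stp; split_ifs <;> abel

lemma stp_rev (x : Z2) (k : Bool × Bool) : stp (stp x k) (rev k) = x := by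
  obtain ⟨s, d⟩ := k
  cases s <;> simp [stp, rev]

lemma rev_stp (x : Z2) (k : Bool × Bool) : stp (stp x (rev k)) k = x := by
  rw [stp_comm, stp_rev]

lemma par_stp (x : Z2) (k : Bool × Bool) : par (stp x k) = 1 - par x := by
  obtain ⟨s, d⟩ := k
  obtain ⟨a, b⟩ := x
  cases s <;> cases d <;> simp only [par, stp, ee, Bool.false_eq_true, if_false, if_true,
    Prod.mk_add_mk, Prod.mk_sub_mk] <;> omega

lemma par_01 (x : Z2) : par x = 0 ∨ par x = 1 := by unfold par; omega

def HC (η : Cfg) : Prop := ∀ x k, η x = true → η (stp x k) = false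

def Om (n : ℕ) (s : ℤ) : Set Cfg := {η | HC η ∧ ∀ x, x ∉ box n → η x = decide (par x = s)}

noncomputable def fil (n : ℕ) (η : Cfg) : Finset Z2 := (box n).filter (fun x => η x = true)

lemma mem_fil {n : ℕ} {η : Cfg} {x : Z2} : x ∈ fil n η ↔ x ∈ box n ∧ η x = true :=
  Finset.mem_filter

lemma Om_finite (n : ℕ) (s : ℤ) : (Om n s).Finite := by
  refine Set.Finite.of_injOn (f := fil n) (t := ((box n).powerset : Set (Finset Z2)))
    (fun η _ => Finset.mem_coe.2 (Finset.mem_powerset.2 (Finset.filter_subset _ _))) (fun η h η' h' e => ?_) (Finset.finite_toSet _)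
  funext x
  by_cases hx : x ∈ box n
  · have : x ∈ fil n η ↔ x ∈ fil n η' := by rw [e]
    simp only [fil, Finset.mem_filter, hx, true_and] at this
    exact Bool.eq_iff_iff.2 this
  · rw [h.2 x hx, h'.2 x hx]

noncomputable def OmF (n : ℕ) (s : ℤ) : Finset Cfg := (Om_finite n s).toFinset

lemma mem_OmF {n : ℕ} {s : ℤ} {η : Cfg} :
    η ∈ OmF n s ↔ HC η ∧ ∀ x, x ∉ box n → η x = decide (par x = s) := by
  simp [OmF, Om]

noncomputable def lam : ℝ := 512 ^ 8
noncomputable def wt (n : ℕ) (η : Cfg) : ℝ := lam ^ (fil n η).card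
noncomputable def ZZ (n : ℕ) (s : ℤ) : ℝ := ∑ η ∈ OmF n s, wt n η

lemma lam_ge : (1 : ℝ) ≤ lam := by unfold lam; norm_num
lemma wt_pos (n : ℕ) (η : Cfg) : 0 < wt n η := pow_pos (by linarith [lam_ge]) _

lemma ZZ_pos (n : ℕ) (s : ℤ) : 0 < ZZ n s := by
  refine Finset.sum_pos (fun η _ => wt_pos n η) ⟨fun x => decide (par x = s), ?_⟩
  refine mem_OmF.2 ⟨fun x k h => ?_, fun _ _ => rfl⟩
  have := par_stp x k
  have := par_01 x
  simp only [decide_eq_true_eq, decide_eq_false_iff_not] at h ⊢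
  omega

def BadW (W : Finset Z2) (η : Cfg) : Prop :=
  ∀ u ∈ W, ∀ k, stp u k ∉ W → η u = false ∧ η (stp u k) = false

def FF (W : Finset Z2) (k : Bool × Bool) (b : ℤ) : Finset Z2 :=
  W.filter (fun w => stp w k ∉ W ∧ par w = b)

def Phi (W : Finset Z2) (k : Bool × Bool) (b : ℤ) (η : Cfg) : Cfg := fun x =>
  if x ∈ W then (if stp x k ∈ W then η (stp x k) else decide (par x = b)) else η x

lemma Phi_HC {W : Finset Z2} {k : Bool × Bool} {b : ℤ} {η : Cfg} (h : HC η) (hb : BadW W η) :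
    HC (Phi W k b η) := by
  intro x k' hx
  unfold Phi at hx ⊢
  by_cases h1 : x ∈ W
  · rw [if_pos h1] at hx
    by_cases h2 : stp x k' ∈ W
    · rw [if_pos h2]
      by_cases h3 : stp x k ∈ W
      · rw [if_pos h3] at hx
        by_cases h4 : stp (stp x k') k ∈ W
        · rw [if_pos h4, stp_comm]; exact h _ _ hx
        · rw [stp_comm] at h4
          rw [(hb _ h3 _ h4).1] at hx
          exact absurd hx (by simp)
      · rw [if_neg h3] at hx
        by_cases h4 : stp (stp x k') k ∈ W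
        · rw [if_pos h4]
          exact (hb _ h4 (rev k') (by rw [stp_comm x, stp_rev]; exact h3)).1
        · rw [if_neg h4]
          have := par_stp x k'
          have := par_01 x
          simp only [decide_eq_true_eq, decide_eq_false_iff_not] at hx ⊢
          omega
    · rw [if_neg h2]; exact (hb _ h1 _ h2).2
  · rw [if_neg h1] at hx
    by_cases h2 : stp x k' ∈ W
    · have := (hb _ h2 (rev k') (by rw [stp_rev]; exact h1)).2
      rw [stp_rev, hx] at this
      exact absurd this (by simp)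
    · rw [if_neg h2]; exact h _ _ hx

lemma Phi_card {n : ℕ} {W : Finset Z2} (hW : W ⊆ box n) {k : Bool × Bool} {b : ℤ} {η : Cfg}
    (hb : BadW W η) : (FF W k b).card + (fil n η).card ≤ (fil n (Phi W k b η)).card := by
  have hin : ∀ u ∈ W, η u = true → stp u (rev k) ∈ W := by
    intro u hu h
    by_contra hc
    rw [(hb u hu _ hc).1] at h
    exact absurd h (by simp)
  have hF : FF W k b ⊆ fil n (Phi W k b η) := by
    intro x hx
    obtain ⟨h1, h2, h3⟩ := Finset.mem_filter.1 hx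
    refine mem_fil.2 ⟨hW h1, ?_⟩
    rw [Phi, if_pos h1, if_neg h2, decide_eq_true h3]
  have h1 : (fil n η).card ≤ (fil n (Phi W k b η) \ FF W k b).card := by
    refine Finset.card_le_card_of_injOn (fun u => if u ∈ W then stp u (rev k) else u)
      (fun u hu => ?_) (fun u hu v hv e => ?_)
    · have hu := mem_fil.1 hu
      refine Finset.mem_coe.2 (Finset.mem_sdiff.2 ?_)
      by_cases h : u ∈ W
      · have h' := hin u h hu.2
        simp only [if_pos h]
        refine ⟨mem_fil.2 ⟨hW h', ?_⟩, fun hc => (Finset.mem_filter.1 hc).2.1 ?_⟩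
        · rw [Phi, if_pos h', rev_stp, if_pos h, hu.2]
        · rw [rev_stp]; exact h
      · simp only [if_neg h]
        refine ⟨mem_fil.2 ⟨hu.1, ?_⟩, fun hc => h (Finset.mem_filter.1 hc).1⟩
        rw [Phi, if_neg h, hu.2]
    · have hu := mem_fil.1 hu
      have hv := mem_fil.1 hv
      by_cases h : u ∈ W <;> by_cases h' : v ∈ W <;> simp only [h, h', if_true, if_false] at e
      · rw [← rev_stp u k, e, rev_stp]
      · exact absurd (e ▸ hin u h hu.2) h'
      · exact absurd (e ▸ hin v h' hv.2) h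
      · exact e
  rw [Finset.card_sdiff_of_subset hF] at h1
  have := Finset.card_le_card hF
  omega

lemma Phi_inj {W : Finset Z2} {k : Bool × Bool} {b : ℤ} {η η' : Cfg}
    (hb : BadW W η) (hb' : BadW W η') (e : Phi W k b η = Phi W k b η') : η = η' := by
  funext x
  by_cases h : x ∈ W
  · by_cases h' : stp x (rev k) ∈ W
    · have := congrFun e (stp x (rev k))
      simpa only [Phi, if_pos h', rev_stp, if_pos h] using this
    · rw [(hb x h _ h').1, (hb' x h _ h').1]
  · have := congrFun e x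
    simpa only [Phi, if_neg h] using this

open Classical in
lemma energy (n : ℕ) (s : ℤ) {W : Finset Z2} (hW : W ⊆ box n) (k : Bool × Bool) (b : ℤ) :
    lam ^ (FF W k b).card * ∑ η ∈ (OmF n s).filter (BadW W), wt n η ≤ ZZ n s := by
  rw [Finset.mul_sum]
  calc _ ≤ ∑ η ∈ (OmF n s).filter (BadW W), wt n (Phi W k b η) := by
        refine Finset.sum_le_sum (fun η hη => ?_)
        rw [wt, wt, ← pow_add]
        exact pow_le_pow_right₀ lam_ge (Phi_card hW (Finset.mem_filter.1 hη).2)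
    _ = ∑ η ∈ ((OmF n s).filter (BadW W)).image (Phi W k b), wt n η := by
        rw [Finset.sum_image]
        exact fun η h η' h' e => Phi_inj (Finset.mem_filter.1 h).2 (Finset.mem_filter.1 h').2 e
    _ ≤ ZZ n s := by
        refine Finset.sum_le_sum_of_subset_of_nonneg (fun ζ hζ => ?_) (fun η _ _ => (wt_pos n η).le)
        obtain ⟨η, hη, rfl⟩ := Finset.mem_image.1 hζ
        obtain ⟨h1, h2⟩ := Finset.mem_filter.1 hη
        rw [mem_OmF] at h1 ⊢
        refine ⟨Phi_HC h1.1 h2, fun x hx => ?_⟩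
        rw [Phi, if_neg (fun h => hx (hW h)), h1.2 x hx]

lemma e2_eq (c : Z2 × Bool) : e2 c = stp (e1 c) (true, !c.2) := by
  obtain ⟨⟨x, y⟩, d⟩ := c
  cases d <;> simp [e1, e2, stp, ee]

lemma exists_FF (W : Finset Z2) (K : Finset (Z2 × Bool))
    (hK : ∀ c, c ∈ K → ¬ (e1 c ∈ W ↔ e2 c ∈ W)) :
    ∃ k b, K.card ≤ 8 * (FF W k b).card := by
  let g : Bool × Bool → Z2 → Z2 × Bool := fun k w =>
    ((can w k).1 - ee (!(can w k).2), !(can w k).2)
  have hsub : K ⊆ (Finset.univ : Finset ((Bool × Bool) × Fin 2)).biUnion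
      (fun z => (FF W z.1 (z.2 : ℕ)).image (g z.1)) := by
    intro c hc
    have h := hK c hc
    have hp : ∀ x : Z2, ∃ b : Fin 2, par x = (b : ℕ) := by
      intro x
      rcases par_01 x with h | h
      · exact ⟨0, h⟩
      · exact ⟨1, h⟩
    simp only [Finset.mem_biUnion, Finset.mem_univ, true_and, Finset.mem_image, FF,
      Finset.mem_filter]
    by_cases h1 : e1 c ∈ W
    · obtain ⟨b, hb⟩ := hp (e1 c)
      refine ⟨((true, !c.2), b), e1 c, ⟨h1, ?_, hb⟩, ?_⟩
      · rw [← e2_eq]; tauto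
      · simp [g, can, e1]
    · obtain ⟨b, hb⟩ := hp (e2 c)
      have e : stp (e2 c) (false, !c.2) = e1 c := by rw [e2_eq]; exact stp_rev _ (true, !c.2)
      refine ⟨((false, !c.2), b), e2 c, ⟨by tauto, ?_, hb⟩, ?_⟩
      · rw [e]; exact h1
      · simp only [stp, Bool.false_eq_true, if_false] at e
        simp only [g, can, Bool.false_eq_true, if_false, e]
        simp [e1]
  have h1 := (Finset.card_le_card hsub).trans (Finset.card_biUnion_le.trans
    (Finset.sum_le_sum (fun z _ => Finset.card_image_le)))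
  obtain ⟨z, -, hz⟩ := Finset.exists_le_of_sum_le (s := (Finset.univ :
    Finset ((Bool × Bool) × Fin 2))) (f := fun _ => K.card)
    (g := fun z => 8 * (FF W z.1 (z.2 : ℕ)).card) Finset.univ_nonempty (by
      rw [← Finset.mul_sum]
      simp only [Finset.sum_const, Finset.card_univ, Fintype.card_prod, Fintype.card_bool,
        Fintype.card_fin, smul_eq_mul]
      omega)
  exact ⟨z.1, _, hz⟩

noncomputable def PP (n : ℕ) (s : ℤ) : Measure Cfg :=
  ∑ η ∈ OmF n s, ENNReal.ofReal (wt n η / ZZ n s) • Measure.dirac η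

open Classical in
lemma PP_apply (n : ℕ) (s : ℤ) (S : Set Cfg) :
    PP n s S = ENNReal.ofReal ((∑ η ∈ (OmF n s).filter (· ∈ S), wt n η) / ZZ n s) := by
  rw [PP, Measure.finsetSum_apply, Finset.sum_div, ENNReal.ofReal_sum_of_nonneg
    (fun η _ => div_nonneg (wt_pos n η).le (ZZ_pos n s).le), Finset.sum_filter]
  refine Finset.sum_congr rfl (fun η _ => ?_)
  rw [Measure.smul_apply, Measure.dirac_apply, Set.indicator_apply]
  split_ifs <;> simp

instance PP_prob (n : ℕ) (s : ℤ) : IsProbabilityMeasure (PP n s) := by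
  constructor
  rw [PP_apply]
  simp only [Set.mem_univ, Finset.filter_true]
  rw [← ZZ, div_self (ZZ_pos n s).ne', ENNReal.ofReal_one]

lemma PP_integral (n : ℕ) (s : ℤ) (f : Cfg → ℝ) :
    ∫ η, f η ∂(PP n s) = (∑ η ∈ OmF n s, wt n η * f η) / ZZ n s := by
  rw [PP, integral_finsetSum_measure, Finset.sum_div]
  · refine Finset.sum_congr rfl (fun η _ => ?_)
    rw [integral_smul_measure, integral_dirac, ENNReal.toReal_ofReal
      (div_nonneg (wt_pos n η).le (ZZ_pos n s).le), smul_eq_mul]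
    ring
  · intro η _
    exact (integrable_dirac (by simp)).smul_measure (by simp)

def Ev (n : ℕ) (s : ℤ) (m : ℕ) (K : Finset (Z2 × Bool)) : Set Cfg :=
  {η | η ∈ OmF n s ∧ K.card = m + 1 ∧ (∃ W, W ⊆ box n ∧ ∀ c, c ∈ K ↔ ¬ (e1 c ∈ W ↔ e2 c ∈ W)) ∧
    ∀ c ∈ K, η (e1 c) = false ∧ η (e2 c) = false}

lemma exists_dual (u : Z2) (k : Bool × Bool) :
    ∃ c, (e1 c = u ∧ e2 c = stp u k) ∨ (e1 c = stp u k ∧ e2 c = u) := by
  obtain ⟨s, d⟩ := k
  obtain ⟨x, y⟩ := u
  refine ⟨((can (x, y) (s, d)).1 - ee (!d), !d), ?_⟩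
  cases s <;> cases d <;> simp [e1, e2, can, stp, ee]

lemma Ev_le (n : ℕ) (s : ℤ) (m : ℕ) (K : Finset (Z2 × Bool)) :
    PP n s (Ev n s m K) ≤ (512⁻¹ : ℝ≥0∞) ^ (m + 1) := by
  classical
  rcases (Ev n s m K).eq_empty_or_nonempty with h | ⟨η0, -, hc, ⟨W, hW, hK⟩, -⟩
  · rw [h]; simp
  obtain ⟨k, b, hkb⟩ := exists_FF W K (fun c hc => (hK c).1 hc)
  have hE := energy n s hW k b
  have hsub : (OmF n s).filter (· ∈ Ev n s m K) ⊆ (OmF n s).filter (BadW W) := by
    intro η hη
    obtain ⟨h1, -, -, -, h2⟩ := Finset.mem_filter.1 hη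
    refine Finset.mem_filter.2 ⟨h1, fun u hu k' hk' => ?_⟩
    obtain ⟨c, ⟨a1, a2⟩ | ⟨a1, a2⟩⟩ := exists_dual u k'
    · have := h2 c ((hK c).2 (by rw [a1, a2]; tauto))
      rwa [a1, a2] at this
    · have := h2 c ((hK c).2 (by rw [a1, a2]; tauto))
      rw [a1, a2] at this
      exact this.symm
  have h1 := Finset.sum_le_sum_of_subset_of_nonneg hsub (f := wt n) (fun η _ _ => (wt_pos n η).le)
  have h2 : (512 : ℝ) ^ (m + 1) ≤ lam ^ (FF W k b).card := by
    rw [lam, ← pow_mul]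
    exact pow_le_pow_right₀ (by norm_num) (by omega)
  have h0 : 0 ≤ ∑ η ∈ (OmF n s).filter (BadW W), wt n η :=
    Finset.sum_nonneg (fun η _ => (wt_pos n η).le)
  have e : (512⁻¹ : ℝ≥0∞) ^ (m + 1) = ENNReal.ofReal ((512⁻¹ : ℝ) ^ (m + 1)) := by
    rw [ENNReal.ofReal_pow (by norm_num), ENNReal.ofReal_inv_of_pos (by norm_num)]
    simp
  rw [PP_apply, e]
  refine ENNReal.ofReal_le_ofReal ?_
  rw [div_le_iff₀ (ZZ_pos n s), inv_pow, ← div_eq_inv_mul, le_div_iff₀ (by positivity)]
  refine le_trans ?_ hE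
  rw [mul_comm]
  convert mul_le_mul h2 h1 (Finset.sum_nonneg (fun η _ => (wt_pos n η).le))
    (pow_pos (by linarith [lam_ge]) _).le

lemma peierls (n : ℕ) (s : ℤ) (hs : s = 0 ∨ s = 1) (o : Z2) (ho : par o ≠ s) :
    PP n s {η | η o = true} ≤ 8⁻¹ := by
  classical
  have hsub : {η : Cfg | η o = true} ⊆ {η | η ∉ OmF n s} ∪ ⋃ m : ℕ, ⋃ j : Fin (2 * (m + 1)),
      ⋃ w : Fin (2 * (m + 1)) → Bool × Bool,
      Ev n s m (edgesOf (o.1 + (j : ℕ), o.2 - 1) (List.ofFn w)) := by
    intro η hη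
    by_cases hO : η ∈ OmF n s
    swap
    · exact Or.inl hO
    right
    obtain ⟨hc, hout⟩ := mem_OmF.1 hO
    let A : Z2 → Prop := fun x => (par x ≠ s ∧ η x = true) ∨
      ∃ k, par (stp x k) ≠ s ∧ η (stp x k) = true
    have hemp : ∀ x k, η (stp x k) = true → η x = false := by
      intro x k h
      have := hc _ (rev k) h
      rwa [stp_rev] at this
    have hA : ∀ x, A x → x ∈ box n := by
      intro x hx
      by_contra hb
      have := hout x hb
      rcases hx with ⟨h1, h2⟩ | ⟨k, h1, h2⟩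
      · rw [h2] at this; exact h1 (by simpa using this)
      · rw [hemp x k h2] at this
        have h3 := par_stp x k
        have h4 := par_01 x
        have : par x ≠ s := by simpa using this
        omega
    have hbd : ∀ u k, A u → ¬ A (stp u k) → η u = false ∧ η (stp u k) = false := by
      intro u k hu hv
      rcases hu with ⟨h1, h2⟩ | ⟨k', h1, h2⟩
      · exact absurd (Or.inr ⟨rev k, by rw [stp_rev]; exact ⟨h1, h2⟩⟩) hv
      · refine ⟨hemp u k' h2, ?_⟩
        by_contra h3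
        refine hv (Or.inl ⟨?_, by simpa using h3⟩)
        rw [par_stp] at h1 ⊢
        exact h1
    obtain ⟨m, j, l, W, h1, h2, h3, h4, h5, h6⟩ := contour n A hA o (Or.inl ⟨ho, hη⟩)
    refine Set.mem_iUnion.2 ⟨m, Set.mem_iUnion.2 ⟨⟨j, h1⟩, Set.mem_iUnion.2
      ⟨fun i => l.get (i.cast h2.symm), ?_⟩⟩⟩
    have e : List.ofFn (fun i : Fin (2 * (m + 1)) => l.get (i.cast h2.symm)) = l := by
      apply List.ext_get
      · rw [List.length_ofFn, h2]
      · intro i _ _; rw [List.get_ofFn]; rfl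
    rw [e]
    refine ⟨hO, h3, ⟨W, h4, h5⟩, fun c hc' => ?_⟩
    have h7 := h6 c hc'
    by_cases ha : A (e1 c)
    · have := hbd (e1 c) (true, !c.2) ha (by
        rw [← e2_eq]; exact fun h => h7 (iff_of_true ha h))
      rwa [← e2_eq] at this
    · have e : stp (e2 c) (false, !c.2) = e1 c := by rw [e2_eq]; exact stp_rev _ (true, !c.2)
      have := hbd (e2 c) (false, !c.2) (by
        by_contra h; exact h7 (iff_of_false ha h)) (by rw [e]; exact ha)
      rw [e] at this
      exact this.symm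
  have h0 : PP n s {η | η ∉ OmF n s} = 0 := by
    rw [PP_apply, Finset.sum_eq_zero]
    · simp
    · intro η hη
      simp only [Finset.mem_filter, Set.mem_ofPred_eq] at hη
      exact absurd hη.1 hη.2
  refine (measure_mono hsub).trans ((measure_union_le _ _).trans ?_)
  rw [h0, zero_add]
  refine (measure_iUnion_le _).trans ?_
  have hm : ∀ m : ℕ, PP n s (⋃ j : Fin (2 * (m + 1)), ⋃ w : Fin (2 * (m + 1)) → Bool × Bool,
      Ev n s m (edgesOf (o.1 + (j : ℕ), o.2 - 1) (List.ofFn w))) ≤ 16⁻¹ * 2⁻¹ ^ m := by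
    intro m
    refine (measure_iUnion_fintype_le _ _).trans ((Finset.sum_le_sum (fun j _ =>
      (measure_iUnion_fintype_le _ _).trans (Finset.sum_le_sum (fun w _ => Ev_le n s m _)))).trans ?_)
    simp only [Finset.sum_const, Finset.card_univ, Fintype.card_fin, Fintype.card_fun,
      Fintype.card_prod, Fintype.card_bool, nsmul_eq_mul]
    have a1 : ((2 * (m + 1) : ℕ) : ℝ≥0∞) ≤ 2 ^ (m + 1) := by
      have : 2 * (m + 1) ≤ 2 ^ (m + 1) := by
        rw [pow_succ']
        exact Nat.mul_le_mul_left 2 (Nat.lt_two_pow_self)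
      exact_mod_cast this
    have a2 : (((2 * 2) ^ (2 * (m + 1)) : ℕ) : ℝ≥0∞) = 16 ^ (m + 1) := by
      rw [pow_mul]; norm_num
    have a3 : (2 * (16 * 512⁻¹) : ℝ≥0∞) = 16⁻¹ := by
      rw [← mul_assoc, show (512 : ℝ≥0∞) = (2 * 16) * 16 by norm_num,
        ENNReal.mul_inv (by simp) (by simp), ← mul_assoc,
        ENNReal.mul_inv_cancel (by simp) (by simp [ENNReal.mul_ne_top]), one_mul]
    rw [a2]
    calc _ ≤ (2 : ℝ≥0∞) ^ (m + 1) * (16 ^ (m + 1) * 512⁻¹ ^ (m + 1)) := by gcongr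
      _ = 16⁻¹ * 16⁻¹ ^ m := by rw [← mul_pow, ← mul_pow, a3, pow_succ']
      _ ≤ _ := by
        gcongr
        norm_num
  refine (ENNReal.tsum_le_tsum hm).trans ?_
  rw [ENNReal.tsum_mul_left, ENNReal.tsum_geometric_two, show (16 : ℝ≥0∞) = 8 * 2 by norm_num,
    ENNReal.mul_inv (by simp) (by simp), mul_assoc, ENNReal.inv_mul_cancel (by simp) (by simp),
    mul_one]

end Pool.Agent.Lib.helper1.Hc
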