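import Pool.Agent.Lib.helper1.Hc2

set_option autoImplicit false
open MeasureTheory Filter Topology
open scoped ENNReal

namespace Pool.Agent.Lib.helper1.Hc
open Pool.Agent.Lib.helper1.Uq

noncomputable def qq : ℝ := 1 / (1 + lam)

lemma qq_pos : 0 < qq := by unfold qq; have := lam_ge; positivity
lemma qq_le : qq ≤ 1 / 2 := by
  unfold qq; have := lam_ge
  exact one_div_le_one_div_of_le (by norm_num) (by linarith)
lemma lam_qq : lam * qq = 1 - qq := by
  unfold qq; have := lam_ge; field_simp; ring

noncomputable def cc (x : Z2) (η : Cfg) : ℝ := if ∀ k, η (stp x k) = false then 1 else 0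
def flp (x : Z2) (η : Cfg) : Cfg := Function.update η x (!η x)
noncomputable def term (x : Z2) (f : Cfg → ℝ) (η : Cfg) : ℝ :=
  cc x η * (if η x = true then qq else 1 - qq) * (f (flp x η) - f η)

lemma stp_ne (x : Z2) (k : Bool × Bool) : stp x k ≠ x := by
  intro h
  have := par_stp x k
  rw [h] at this
  have := par_01 x
  omega

lemma flp_self (x : Z2) (η : Cfg) : flp x η x = !η x := by simp [flp]
lemma flp_ne {x y : Z2} (h : y ≠ x) (η : Cfg) : flp x η y = η y := by simp [flp, h]
lemma flp_flp (x : Z2) (η : Cfg) : flp x (flp x η) = η := by simp [flp]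

lemma wt_flp {n : ℕ} {x : Z2} (hx : x ∈ box n) {η : Cfg} (h : η x = false) :
    wt n (flp x η) = lam * wt n η := by
  have : fil n (flp x η) = insert x (fil n η) := by
    ext y
    rw [Finset.mem_insert, mem_fil, mem_fil]
    by_cases e : y = x
    · subst e; simp [flp_self, h, hx]
    · simp [flp_ne e, e]
  rw [wt, wt, this, Finset.card_insert_of_notMem (fun h' => by simp [mem_fil, h] at h'), pow_succ']

lemma db_fin (n : ℕ) (s : ℤ) (x : Z2) (hx : x ∈ box n) (f : Cfg → ℝ) :
    ∑ η ∈ OmF n s, wt n η * term x f η = 0 := by
  classical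
  have hc : ∀ η : Cfg, (∀ k, flp x η (stp x k) = false) ↔ ∀ k, η (stp x k) = false := by
    intro η; simp only [flp_ne (stp_ne x _)]
  refine Finset.sum_involution
    (fun η _ => if ∀ k, η (stp x k) = false then flp x η else η) ?_ ?_ ?_ ?_
  · intro η _
    by_cases h : ∀ k, η (stp x k) = false
    · simp only [if_pos h, term, cc, if_pos ((hc η).2 h), flp_flp, flp_self]
      cases hη : η x
      · rw [wt_flp hx hη]
        simp only [Bool.not_false, if_true, Bool.false_eq_true, if_false, ← lam_qq]
        ring
      · have := wt_flp hx (η := flp x η) (by simp [flp_self, hη])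
        rw [flp_flp] at this
        rw [this]
        simp only [Bool.not_true, if_true, Bool.false_eq_true, if_false, ← lam_qq]
        ring
    · simp only [term, cc, if_neg h, zero_mul, mul_zero, add_zero]
  · intro η _ hne
    by_cases h : ∀ k, η (stp x k) = false
    · rw [if_pos h]
      intro e
      have := congrFun e x
      simp [flp_self] at this
    · simp only [term, cc, if_neg h, zero_mul, mul_zero] at hne
      exact absurd rfl hne
  · intro η hη
    by_cases h : ∀ k, η (stp x k) = false
    · rw [if_pos h]
      rw [mem_OmF] at hη ⊢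
      refine ⟨fun y k hy => ?_, fun y hy => ?_⟩
      · by_cases e : y = x
        · subst e; rw [flp_ne (stp_ne _ _)]; exact h k
        · rw [flp_ne e] at hy
          by_cases e' : stp y k = x
          · have := h (rev k)
            rw [← e', stp_rev, hy] at this
            exact absurd this (by simp)
          · rw [flp_ne e']; exact hη.1 _ _ hy
      · rw [flp_ne (fun e : y = x => hy (e ▸ hx)), hη.2 y hy]
    · rw [if_neg h]; exact hη
  · intro η _
    by_cases h : ∀ k, η (stp x k) = false
    · simp only [if_pos h, if_pos ((hc η).2 h), flp_flp]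
    · simp only [if_neg h]

lemma cont_of_dep {f : Cfg → ℝ} (S : Finset Z2) (h : DependsOn f (S : Set Z2)) : Continuous f := by
  refine IsLocallyConstant.continuous ((IsLocallyConstant.iff_eventually_eq f).2 (fun η => ?_))
  have : ∀ᶠ ζ in 𝓝 η, ∀ i ∈ S, ζ i = η i := (S.eventually_all).2 (fun i _ =>
    ((continuous_apply i).tendsto η).eventually (p := fun b => b = η i)
      ((isOpen_discrete {η i}).mem_nhds rfl))
  exact this.mono (fun ζ hζ => h hζ)

lemma cont_flp (x : Z2) : Continuous (flp x) :=
  continuous_id.update x ((continuous_of_discreteTopology (f := fun b : Bool => !b)).comp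
    (continuous_apply x))

lemma cont_cc (x : Z2) : Continuous (cc x) :=
  cont_of_dep (Finset.univ.image (stp x)) (fun η ζ h => by
    have : ∀ k, η (stp x k) = ζ (stp x k) := fun k => h _ (by simp)
    simp only [cc, this])

lemma cont_term (x : Z2) {f : Cfg → ℝ} (hf : Continuous f) : Continuous (term x f) := by
  refine ((cont_cc x).mul ?_).mul ((hf.comp (cont_flp x)).sub hf)
  exact (continuous_of_discreteTopology (f := fun b : Bool => if b = true then qq else 1 - qq)).comp
    (continuous_apply x)

def ind (x : Z2) (η : Cfg) : ℝ := if η x = true then 1 else 0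

lemma cont_ind (x : Z2) : Continuous (ind x) :=
  (continuous_of_discreteTopology (f := fun b : Bool => if b = true then (1 : ℝ) else 0)).comp
    (continuous_apply x)

lemma meas_occ (x : Z2) : MeasurableSet {η : Cfg | η x = true} :=
  measurable_pi_apply (X := fun _ : Z2 => Bool) x (MeasurableSet.singleton true)

lemma int_ind (μ : Measure Cfg) (x : Z2) : ∫ η, ind x η ∂μ = μ.real {η | η x = true} := by
  rw [← integral_indicator_one (meas_occ x)]
  congr 1
  funext η
  simp [Set.indicator, ind]

lemma int_cont (μ : Measure Cfg) [IsFiniteMeasure μ] {f : Cfg → ℝ} (hf : Continuous f) :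
    Integrable f μ :=
  hf.integrable_of_hasCompactSupport (HasCompactSupport.of_compactSpace f)

theorem exists_mu (s : ℤ) (hs : s = 0 ∨ s = 1) : ∃ μ : Measure Cfg, IsProbabilityMeasure μ ∧
    (∀ x f, Continuous f → ∫ η, term x f η ∂μ = 0) ∧
    (∀ x k, μ {η | η x = true ∧ η (stp x k) = true} = 0) ∧
    (∀ o, par o ≠ s → μ.real {η | η o = true} ≤ 1 / 8) ∧
    (∀ o, par o = s → 1 / 4 ≤ μ.real {η | η o = true}) := by
  let P : ℕ → ProbabilityMeasure Cfg := fun n => ⟨PP n s, PP_prob n s⟩
  let U : Ultrafilter ℕ := Ultrafilter.of atTop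
  obtain ⟨μ, -, hμ⟩ := isCompact_univ.ultrafilter_le_nhds (U.map P) (by simp)
  have hlim : ∀ (f : Cfg → ℝ) (C : Set ℝ), Continuous f → IsClosed C →
      (∀ᶠ n in atTop, ∫ η, f η ∂(PP n s) ∈ C) → ∫ η, f η ∂(μ : Measure Cfg) ∈ C := by
    intro f C hf hC h
    have ht : Tendsto P U (𝓝 μ) := hμ
    have := ProbabilityMeasure.tendsto_iff_forall_integral_tendsto.1 ht
      (BoundedContinuousFunction.mkOfCompact ⟨f, hf⟩)
    exact hC.mem_of_tendsto this (h.filter_mono (Ultrafilter.of_le atTop))
  have h1 : ∀ x f, Continuous f → ∫ η, term x f η ∂(μ : Measure Cfg) = 0 := by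
    intro x f hf
    refine hlim _ {0} (cont_term x hf) isClosed_singleton ?_
    filter_upwards [eventually_ge_atTop (x.1.natAbs + x.2.natAbs)] with n hn
    rw [Set.mem_singleton_iff, PP_integral, db_fin n s x (by rw [mem_box]; omega), zero_div]
  have h3 : ∀ o, par o ≠ s → (μ : Measure Cfg).real {η | η o = true} ≤ 1 / 8 := by
    intro o ho
    rw [← int_ind]
    refine hlim _ (Set.Iic (1 / 8)) (cont_ind o) isClosed_Iic (Eventually.of_forall fun n => ?_)
    rw [Set.mem_Iic, int_ind]
    have := ENNReal.toReal_mono (by simp) (peierls n s hs o ho)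
    simpa [Measure.real] using this
  refine ⟨μ, inferInstance, h1, fun x k => ?_, h3, fun o ho => ?_⟩
  · have := hlim (fun η => ind x η * ind (stp x k) η) {0} ((cont_ind _).mul (cont_ind _))
      isClosed_singleton (Eventually.of_forall fun n => by
        rw [Set.mem_singleton_iff, PP_integral, Finset.sum_eq_zero, zero_div]
        intro η hη
        have := (mem_OmF.1 hη).1 x k
        cases h : η x
        · simp [ind, h]
        · simp [ind, this h])
    have hm : MeasurableSet {η : Cfg | η x = true ∧ η (stp x k) = true} :=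
      (meas_occ x).inter (meas_occ _)
    rw [← measureReal_eq_zero_iff, ← integral_indicator_one hm, ← Set.mem_singleton_iff.1 this]
    congr 1
    funext η
    simp only [Set.indicator, ind, Set.mem_ofPred_eq]
    by_cases a : η x = true <;> by_cases b : η (stp x k) = true <;> simp [a, b]
  · have hp : ∀ η, (1 - qq) - (1 - qq) * (∑ k, ind (stp o k) η) - term o (ind o) η ≤ ind o η := by
      intro η
      have hq := qq_le
      have hq0 := qq_pos
      have hn : ∀ k, 0 ≤ ind (stp o k) η := fun k => by unfold ind; split_ifs <;> norm_num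
      by_cases h : ∀ k, η (stp o k) = false
      · simp only [term, cc, ind, h, flp_self]
        cases η o <;> simp
      · obtain ⟨k, hk⟩ := not_forall.1 h
        have := Finset.single_le_sum (f := fun k => ind (stp o k) η) (fun k _ => hn k)
          (Finset.mem_univ k)
        have e : ind (stp o k) η = 1 := by simp only [ind]; rw [if_pos (by simpa using hk)]
        have e' : 0 ≤ ind o η := by unfold ind; split_ifs <;> norm_num
        simp only [term, cc, if_neg h] at this ⊢
        nlinarith
    have hsum : Continuous (fun η => ∑ k, ind (stp o k) η) :=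
      continuous_finsetSum _ (fun k _ => cont_ind _)
    have c1 : Continuous (fun η => (1 - qq) * ∑ k, ind (stp o k) η) := continuous_const.mul hsum
    have c2 : Continuous (fun η => (1 - qq) - (1 - qq) * ∑ k, ind (stp o k) η) :=
      continuous_const.sub c1
    have c3 : Continuous (fun η => (1 - qq) - (1 - qq) * (∑ k, ind (stp o k) η) -
      term o (ind o) η) := c2.sub (cont_term o (cont_ind o))
    have := integral_mono (μ := (μ : Measure Cfg)) (int_cont _ c3) (int_cont _ (cont_ind o)) hp
    rw [integral_sub (int_cont _ c2)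
      (int_cont _ (cont_term o (cont_ind o))), h1 o _ (cont_ind o), integral_sub
      (int_cont _ continuous_const) (int_cont _ c1), integral_const_mul,
      integral_finsetSum _ (fun k _ => int_cont _ (cont_ind _)), int_ind] at this
    have hb : ∑ k, ∫ η, ind (stp o k) η ∂(μ : Measure Cfg) ≤ 1 / 2 := by
      refine (Finset.sum_le_sum (g := fun _ => (1 / 8 : ℝ)) (fun k _ => ?_)).trans (by simp; norm_num)
      rw [int_ind]
      refine h3 _ ?_
      rw [par_stp]; omega
    simp only [integral_const, probReal_univ, smul_eq_mul, one_mul] at this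
    have hq := qq_le
    nlinarith

end Pool.Agent.Lib.helper1.Hc
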