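import Pool.Agent.Lib.helper1.Hc3

set_option autoImplicit false
open MeasureTheory Filter Topology Set

namespace Pool.Agent.Lib.helper1.Hc
open Pool.Agent.Lib.helper1.Uq

noncomputable def TT (x : Z2) (g : C(Cfg, ℝ)) : C(Cfg, ℝ) := ⟨term x g, cont_term x g.continuous⟩

lemma TT_norm (x : Z2) (g : C(Cfg, ℝ)) : ‖TT x g‖ ≤ 2 * ‖g‖ := by
  refine (ContinuousMap.norm_le _ (by positivity)).2 (fun η => ?_)
  have h1 := g.norm_coe_le_norm η
  have h2 := g.norm_coe_le_norm (flp x η)
  have h3 : ‖g (flp x η) - g η‖ ≤ 2 * ‖g‖ := (norm_sub_le _ _).trans (by linarith)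
  have h4 : ‖cc x η * (if η x = true then qq else 1 - qq)‖ ≤ 1 := by
    have := qq_le
    have := qq_pos
    unfold cc
    rw [Real.norm_eq_abs, abs_le]
    split_ifs <;> constructor <;> linarith
  show ‖cc x η * (if η x = true then qq else 1 - qq) * (g (flp x η) - g η)‖ ≤ _
  rw [norm_mul]
  nlinarith [norm_nonneg (g (flp x η) - g η)]

lemma term_dep {S : Finset Z2} {g : Cfg → ℝ} (h : DependsOn g (S : Set Z2)) {x : Z2}
    (hx : x ∈ S) : DependsOn (term x g) ((S ∪ Finset.univ.image (stp x) : Finset Z2) : Set Z2) := by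
  intro η ζ e
  have e1 : ∀ k, η (stp x k) = ζ (stp x k) := fun k => e _ (by simp)
  have e2 : ∀ y ∈ S, η y = ζ y := fun y hy => e _ (by simp [hy])
  have e3 : g (flp x η) = g (flp x ζ) := h (fun y hy => by
    by_cases e' : y = x
    · subst e'; rw [flp_self, flp_self, e2 y hy]
    · rw [flp_ne e', flp_ne e', e2 y hy])
  simp only [term, cc, e1, e2 x hx, e3, h e2]

lemma term_out {S : Finset Z2} {g : Cfg → ℝ} (h : DependsOn g (S : Set Z2)) {x : Z2}
    (hx : x ∉ S) (η : Cfg) : term x g η = 0 := by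
  have : g (flp x η) = g η := h (fun y hy => flp_ne (fun e : y = x => hx (e ▸ hy)) η)
  simp [term, this]

lemma fin_term {S : Finset Z2} {g : Cfg → ℝ} (h : DependsOn g (S : Set Z2)) (η : Cfg) :
    ∑ᶠ x, term x g η = ∑ x ∈ S, term x g η :=
  finsum_eq_sum_of_support_subset _ (fun x hx => by
    by_contra hc; exact hx (term_out h hc η))

section
variable (φ : C(Cfg, ℝ) →L[ℝ] ℝ) (hφ : ∀ x g, φ (TT x g) = 0)
  (P : ℝ → C(Cfg, ℝ) →L[ℝ] C(Cfg, ℝ)) (h0 : P 0 = 1)
  (hadd : ∀ s t, 0 ≤ s → 0 ≤ t → P (s + t) = P s * P t) (hn : ∀ t, 0 ≤ t → ‖P t‖ ≤ 1)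
  (hc : ∀ f, ContinuousOn (fun t => P t f) (Ici 0))
  (hd : ∀ f g : C(Cfg, ℝ), (∃ S : Finset Z2, DependsOn f (S : Set Z2)) →
    (∀ η, g η = ∑ᶠ x, term x f η) → HasDerivWithinAt (fun t => P t f) g (Ici 0) 0)
include hφ h0 hadd hn hc hd

lemma nelson (k : ℕ) : ∀ (M : ℕ) (S : Finset Z2) (g : C(Cfg, ℝ)), S.card ≤ 4 * M →
    DependsOn g (S : Set Z2) → ∀ t, 0 ≤ t →
    ‖φ (P t g) - φ g‖ ≤ 2 * ‖φ‖ * ‖g‖ * (M + k).choose k * (8 * t) ^ k := by
  induction k with
  | zero =>
    intro M S g _ _ t ht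
    have a1 := φ.le_opNorm (P t g)
    have a2 := φ.le_opNorm g
    have a3 := (P t).le_opNorm g
    have a4 := hn t ht
    have a5 := norm_sub_le (φ (P t g)) (φ g)
    have a6 : ‖P t g‖ ≤ ‖g‖ := by nlinarith [norm_nonneg g]
    simp only [Nat.choose_zero_right, Nat.cast_one, pow_zero, mul_one]
    nlinarith [norm_nonneg φ]
  | succ k ih =>
    intro M S g hS hg t ht
    let Lg : C(Cfg, ℝ) := ∑ x ∈ S, TT x g
    have hL : HasDerivWithinAt (fun t => P t g) Lg (Ici 0) 0 :=
      hd g Lg ⟨S, hg⟩ (fun η => by rw [fin_term hg]; simp [Lg, TT])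
    have hder : ∀ u, 0 ≤ u → HasDerivWithinAt (fun t => φ (P t g) - φ g) (φ (P u Lg)) (Ici u) u := by
      intro u hu
      have a1 : HasDerivWithinAt (fun t : ℝ => t - u) 1 (Ici u) u :=
        (hasDerivWithinAt_id u _).sub_const u
      have a2 : HasDerivWithinAt (fun t => P t g) Lg (Ici 0) (u - u) := by rwa [sub_self]
      have a3 := HasDerivWithinAt.scomp (h := fun t : ℝ => t - u) u a2 a1
        (fun t ht => mem_Ici.2 (sub_nonneg.2 (mem_Ici.1 ht)))
      have a4 := (φ.comp (P u)).hasFDerivAt.comp_hasDerivWithinAt u a3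
      refine HasDerivWithinAt.sub_const _ ?_
      have a5 : ∀ t ∈ Ici u, φ (P t g) = ((φ.comp (P u)) ∘ (fun t => P t g) ∘ fun t => t - u) t := by
        intro t ht
        have := hadd u (t - u) hu (by simpa using ht)
        rw [add_sub_cancel] at this
        simp [this]
      simpa using a4.congr a5 (a5 u (by simp))
    let K : ℝ := 2 * ‖φ‖ * ‖g‖ * (M + (k + 1)).choose (k + 1)
    have hB : ∀ u : ℝ, HasDerivAt (fun t => K * (8 * t) ^ (k + 1))
        (K * (((k + 1 : ℕ) : ℝ) * (8 * u) ^ k * 8)) u := by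
      intro u
      have := (((hasDerivAt_id u).const_mul 8).pow (k + 1)).const_mul K
      simpa using this
    refine image_norm_le_of_norm_deriv_right_le_deriv_boundary (a := 0) (b := t)
      (f := fun t => φ (P t g) - φ g) (f' := fun u => φ (P u Lg)) ?_ (fun u hu => hder u hu.1)
      (by simp [h0]) hB (fun u hu => ?_) ⟨ht, le_rfl⟩
    · exact ((φ.continuous.comp_continuousOn (hc g)).mono Icc_subset_Ici_self).sub
        continuousOn_const
    · have b1 : φ (P u Lg) = ∑ x ∈ S, (φ (P u (TT x g)) - φ (TT x g)) := by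
        simp [Lg, hφ]
      have b2 : ∀ x ∈ S, ‖φ (P u (TT x g)) - φ (TT x g)‖ ≤
          2 * ‖φ‖ * (2 * ‖g‖) * (M + 1 + k).choose k * (8 * u) ^ k := by
        intro x hx
        refine (ih (M + 1) _ (TT x g) ?_ (term_dep hg hx) u hu.1).trans ?_
        · refine (Finset.card_union_le _ _).trans ?_
          have := Finset.card_image_le (s := (Finset.univ : Finset (Bool × Bool))) (f := stp x)
          simp only [Finset.card_univ, Fintype.card_prod, Fintype.card_bool] at this
          omega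
        · have := hu.1
          have := TT_norm x g
          gcongr
      have b3 : ((M + (k + 1)).choose (k + 1) : ℝ) * ((k + 1 : ℕ) : ℝ) =
          (M + 1 + k).choose k * (M + 1) := by
        have := Nat.choose_succ_right_eq (M + 1 + k) k
        rw [show M + 1 + k - k = M + 1 by omega] at this
        rw [show M + (k + 1) = M + 1 + k by omega]
        exact_mod_cast this
      have b4 : (S.card : ℝ) ≤ 4 * M := by exact_mod_cast hS
      show ‖φ (P u Lg)‖ ≤ _
      rw [b1]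
      refine (norm_sum_le _ _).trans ((Finset.sum_le_card_nsmul _ _ _ b2).trans ?_)
      have b5 : 0 ≤ ‖φ‖ * ‖g‖ * (M + 1 + k).choose k * (8 * u) ^ k := by
        have := hu.1
        positivity
      have b6 : K * (((k + 1 : ℕ) : ℝ) * (8 * u) ^ k * 8) =
          16 * (M + 1) * (‖φ‖ * ‖g‖ * (M + 1 + k).choose k * (8 * u) ^ k) := by
        calc _ = 16 * ‖φ‖ * ‖g‖ * (8 * u) ^ k *
            (((M + (k + 1)).choose (k + 1) : ℝ) * ((k + 1 : ℕ) : ℝ)) := by simp only [K]; ring
          _ = _ := by rw [b3]; ring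
      rw [b6, nsmul_eq_mul]
      nlinarith

lemma inv_small (t : ℝ) (ht : 0 ≤ t) (ht' : t ≤ 1 / 32) (f : C(Cfg, ℝ)) : φ (P t f) = φ f := by
  let A : Subalgebra ℝ C(Cfg, ℝ) :=
    { carrier := {g | ∃ S : Finset Z2, DependsOn g (S : Set Z2)}
      mul_mem' := by
        rintro a b ⟨S, hS⟩ ⟨T, hT⟩
        refine ⟨S ∪ T, fun η ζ e => ?_⟩
        rw [ContinuousMap.mul_apply, ContinuousMap.mul_apply,
          hS (fun i hi => e i (by simp [Finset.mem_coe.1 hi])),
          hT (fun i hi => e i (by simp [Finset.mem_coe.1 hi]))]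
      add_mem' := by
        rintro a b ⟨S, hS⟩ ⟨T, hT⟩
        refine ⟨S ∪ T, fun η ζ e => ?_⟩
        rw [ContinuousMap.add_apply, ContinuousMap.add_apply,
          hS (fun i hi => e i (by simp [Finset.mem_coe.1 hi])),
          hT (fun i hi => e i (by simp [Finset.mem_coe.1 hi]))]
      algebraMap_mem' := fun r => ⟨∅, fun _ _ _ => rfl⟩ }
  have hA : A.SeparatesPoints := by
    intro η ζ hne
    obtain ⟨x, hx⟩ := Function.ne_iff.1 hne
    refine ⟨ind x, ⟨⟨ind x, cont_ind x⟩, ⟨{x}, fun a b e => ?_⟩, rfl⟩, ?_⟩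
    · simp only [ContinuousMap.coe_mk, ind, e x (by simp)]
    · unfold ind
      cases h : η x <;> cases h' : ζ x <;> simp_all
  have hcl := ContinuousMap.subalgebra_topologicalClosure_eq_top_of_separatesPoints A hA
  have hf : f ∈ closure (A : Set C(Cfg, ℝ)) := by
    rw [← Subalgebra.topologicalClosure_coe, hcl]; trivial
  refine closure_minimal (t := {f | φ (P t f) = φ f}) ?_
    (isClosed_eq (φ.continuous.comp (P t).continuous) φ.continuous) hf
  rintro g ⟨S, hS⟩
  have hb : ∀ k, ‖φ (P t g) - φ g‖ ≤ 2 * ‖φ‖ * ‖g‖ * 2 ^ S.card * (1 / 2) ^ k := by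
    intro k
    refine (nelson φ hφ P h0 hadd hn hc hd k S.card S g (by omega) hS t ht).trans ?_
    have a1 : ((S.card + k).choose k : ℝ) ≤ 2 ^ S.card * 2 ^ k := by
      rw [← pow_add]; exact_mod_cast Nat.choose_le_two_pow _ _
    have a2 : (8 * t) ^ k ≤ (1 / 4) ^ k := pow_le_pow_left₀ (by positivity) (by linarith) k
    calc _ ≤ 2 * ‖φ‖ * ‖g‖ * (2 ^ S.card * 2 ^ k) * (1 / 4) ^ k := by gcongr
      _ = 2 * ‖φ‖ * ‖g‖ * 2 ^ S.card * (2 * (1 / 4)) ^ k := by rw [mul_pow]; ring
      _ = _ := by norm_num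
  have hl := (tendsto_pow_atTop_nhds_zero_of_lt_one (r := (1 / 2 : ℝ)) (by norm_num)
    (by norm_num)).const_mul (2 * ‖φ‖ * ‖g‖ * 2 ^ S.card)
  rw [mul_zero] at hl
  exact sub_eq_zero.1 (norm_le_zero_iff.1 (ge_of_tendsto' hl hb))

lemma inv_all (t : ℝ) (ht : 0 ≤ t) (f : C(Cfg, ℝ)) : φ (P t f) = φ f := by
  have key : ∀ (n : ℕ) (t : ℝ), 0 ≤ t → t ≤ n / 32 → ∀ f, φ (P t f) = φ f := by
    intro n
    induction n with
    | zero => exact fun t h h' => inv_small φ hφ P h0 hadd hn hc hd t h (by simp at h'; linarith)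
    | succ n ih =>
      intro t h h' f
      by_cases h1 : t ≤ 1 / 32
      · exact inv_small φ hφ P h0 hadd hn hc hd t h h1 f
      · have := hadd (1 / 32) (t - 1 / 32) (by norm_num) (by linarith)
        rw [add_sub_cancel] at this
        rw [this, mul_apply_eq_comp,
          inv_small φ hφ P h0 hadd hn hc hd _ (by norm_num) le_rfl,
          ih _ (by linarith) (by push_cast at h'; linarith)]
  obtain ⟨n, hn'⟩ := exists_nat_ge (32 * t)
  exact key n t ht (by linarith) f

end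

noncomputable def intL (μ : Measure Cfg) [IsProbabilityMeasure μ] : C(Cfg, ℝ) →L[ℝ] ℝ :=
  LinearMap.mkContinuous
    { toFun := fun f => ∫ η, f η ∂μ
      map_add' := fun f g => integral_add (int_cont μ f.continuous) (int_cont μ g.continuous)
      map_smul' := fun r f => integral_const_mul r f } 1 (fun f => by
    have := norm_integral_le_of_norm_le_const (μ := μ) (f := f) (C := ‖f‖)
      (Eventually.of_forall f.norm_coe_le_norm)
    simpa using this)

end Pool.Agent.Lib.helper1.Hc
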