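import Mathlib

set_option autoImplicit false
open MeasureTheory Finset Set
open scoped Nat

namespace Pool.Agent.Lib.helper1.Km

variable {ι : Type} [DecidableEq ι]

noncomputable def hh (θ : ι → ℝ) (B : Finset ι) (l : ℕ) : ℝ :=
  ∑ g ∈ B.piAntidiag l, ∏ i ∈ B, θ i ^ g i

lemma hh_cons (θ : ι → ℝ) {i : ι} {s : Finset ι} (hi : i ∉ s) (l : ℕ) :
    hh θ (cons i s hi) l = ∑ p ∈ antidiagonal l, θ i ^ p.1 * hh θ s p.2 := by
  rw [hh, piAntidiag_cons, sum_disjiUnion]
  refine sum_congr rfl (fun p _ => ?_)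
  rw [sum_map, hh, mul_sum]
  refine sum_congr rfl (fun g hg => ?_)
  have h0 : g i = 0 := by
    by_contra h
    exact hi ((mem_piAntidiag.1 hg).2 i h)
  rw [prod_cons]
  congr 1
  · simp [h0]
  · refine prod_congr rfl (fun j hj => ?_)
    have : j ≠ i := fun e => hi (e ▸ hj)
    simp [this]

lemma hh_zero (θ : ι → ℝ) (B : Finset ι) : hh θ B 0 = 1 := by simp [hh]

lemma hh_single (θ : ι → ℝ) (a : ι) (l : ℕ) : hh θ {a} l = θ a ^ l := by
  have := hh_cons θ (i := a) (s := ∅) (by simp) l
  rw [cons_empty] at this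
  rw [this, sum_eq_single (l, 0)]
  · simp [hh_zero]
  · intro p hp hne
    have : p.2 ≠ 0 := by
      intro h
      apply hne
      have := mem_antidiagonal.1 hp
      ext <;> simp <;> omega
    simp [hh, piAntidiag_empty_of_ne_zero this]
  · simp

lemma beta (c : ℕ) : ∀ a : ℕ,
    ∫ v in (0 : ℝ)..1, v ^ a * (1 - v) ^ c = (a ! * c ! : ℝ) / (a + c + 1)! := by
  induction c with
  | zero =>
    intro a
    have : (a ! : ℝ) ≠ 0 := by positivity
    simp only [pow_zero, mul_one, integral_pow, Nat.factorial_zero, Nat.cast_one, add_zero,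
      Nat.factorial_succ]
    push_cast
    field_simp
    simp
  | succ c ih =>
    intro a
    have e : ∀ v : ℝ, v ^ a * (1 - v) ^ (c + 1) = v ^ a * (1 - v) ^ c - v ^ (a + 1) * (1 - v) ^ c :=
      fun v => by ring
    simp only [e]
    rw [intervalIntegral.integral_sub (by apply Continuous.intervalIntegrable; fun_prop)
      (by apply Continuous.intervalIntegrable; fun_prop), ih, ih,
      show a + 1 + c + 1 = (a + c + 1) + 1 by ring, show a + (c + 1) + 1 = (a + c + 1) + 1 by ring,
      Nat.factorial_succ (a + c + 1), Nat.factorial_succ a, Nat.factorial_succ c]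
    have : ((a + c + 1)! : ℝ) ≠ 0 := by positivity
    push_cast
    field_simp
    ring

lemma exists_beta (b : ℕ) : ∃ β : Measure ℝ, IsFiniteMeasure β ∧ (∀ᵐ v ∂β, v ∈ Icc (0 : ℝ) 1) ∧
    ∀ a c : ℕ, ∫ v, v ^ a * (1 - v) ^ c ∂β = (b + 1) * ((a ! * (c + b)! : ℝ) / (a + (c + b) + 1)!) := by
  let d : ℝ → ℝ := fun v => (b + 1) * (1 - v) ^ b
  have hd : Continuous d := by fun_prop
  refine ⟨(volume.restrict (Ioc 0 1)).withDensity (fun v => ENNReal.ofReal (d v)), ?_, ?_, ?_⟩
  · exact isFiniteMeasure_withDensity_ofReal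
      (hd.integrableOn_Ioc (a := 0) (b := 1)).hasFiniteIntegral
  · refine (withDensity_absolutelyContinuous _ _).ae_le ?_
    exact (ae_restrict_mem measurableSet_Ioc).mono (fun v hv => Ioc_subset_Icc_self hv)
  · intro a c
    rw [integral_withDensity_eq_integral_toReal_smul hd.measurable.ennreal_ofReal
      (by simp), ← beta, ← intervalIntegral.integral_const_mul,
      intervalIntegral.integral_of_le zero_le_one]
    refine setIntegral_congr_fun measurableSet_Ioc (fun v hv => ?_)
    have : 0 ≤ d v := mul_nonneg (by positivity) (pow_nonneg (by linarith [hv.2]) _)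
    simp only [ENNReal.toReal_ofReal this, d, smul_eq_mul]
    ring

lemma int_Icc {ν : Measure ℝ} [IsFiniteMeasure ν] {lo hi : ℝ} (h : ∀ᵐ s ∂ν, s ∈ Icc lo hi)
    {f : ℝ → ℝ} (hf : Continuous f) : Integrable f ν := by
  obtain ⟨C, hC⟩ := isCompact_Icc.exists_bound_of_continuousOn (s := Icc lo hi) hf.continuousOn
  exact Integrable.of_bound hf.aestronglyMeasurable C (h.mono hC)

lemma exists_nu (θ : ι → ℝ) (lo hi : ℝ) (B : Finset ι) (hB : B.Nonempty) :
    (∀ i ∈ B, θ i ∈ Icc lo hi) → ∃ ν : Measure ℝ, IsFiniteMeasure ν ∧ (∀ᵐ s ∂ν, s ∈ Icc lo hi) ∧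
      ∀ l : ℕ, ∫ s, s ^ l ∂ν = hh θ B l * ((l ! * (B.card - 1)! : ℝ) / (l + (B.card - 1))!) := by
  induction hB using Finset.Nonempty.cons_induction with
  | singleton a =>
    intro h
    refine ⟨Measure.dirac (θ a), inferInstance, by simpa using h a (by simp), fun l => ?_⟩
    have : (l ! : ℝ) ≠ 0 := by positivity
    simp [hh_single, this]
  | cons a s ha hs ih =>
    intro h
    obtain ⟨ν, _, h1, h2⟩ := ih (fun i hi => h i (by simp [hi]))
    obtain ⟨b, hb⟩ : ∃ b, s.card = b + 1 := ⟨s.card - 1, by have := hs.card_pos; omega⟩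
    obtain ⟨β, _, g1, g2⟩ := exists_beta b
    have hF : Continuous (fun x : ℝ × ℝ => x.1 * θ a + (1 - x.1) * x.2) := by fun_prop
    refine ⟨(β.prod ν).map (fun x => x.1 * θ a + (1 - x.1) * x.2), inferInstance, ?_, fun l => ?_⟩
    · refine (ae_map_iff hF.aemeasurable (p := fun s => s ∈ Icc lo hi) measurableSet_Icc).2 ?_
      have a1 := (Measure.quasiMeasurePreserving_fst (μ := β) (ν := ν)).ae g1
      have a2 := (Measure.quasiMeasurePreserving_snd (μ := β) (ν := ν)).ae h1
      filter_upwards [a1, a2] with x hx hy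
      have := h a (by simp)
      constructor <;> nlinarith [hx.1, hx.2, hy.1, hy.2, this.1, this.2]
    · rw [integral_map hF.aemeasurable (by fun_prop)]
      have e : ∀ x : ℝ × ℝ, (x.1 * θ a + (1 - x.1) * x.2) ^ l = ∑ p ∈ antidiagonal l,
          (l.choose p.1 * θ a ^ p.1) * ((x.1 ^ p.1 * (1 - x.1) ^ p.2) * x.2 ^ p.2) := by
        intro x
        rw [(Commute.all _ _).add_pow']
        refine sum_congr rfl (fun p _ => ?_)
        rw [nsmul_eq_mul, mul_pow, mul_pow]
        ring
      simp only [e]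
      rw [integral_finsetSum, hh_cons, sum_mul]
      · refine sum_congr rfl (fun p hp => ?_)
        rw [integral_const_mul, integral_prod_mul (fun v : ℝ => v ^ p.1 * (1 - v) ^ p.2)
          (fun s : ℝ => s ^ p.2), g2, h2, card_cons, hb]
        have hl := mem_antidiagonal.1 hp
        have c1 := Nat.add_choose_mul_factorial_mul_factorial p.2 p.1
        rw [add_comm p.2, hl] at c1
        have c2 : (l ! : ℝ) = l.choose p.1 * p.2 ! * p.1 ! := by exact_mod_cast c1.symm
        simp only [Nat.add_sub_cancel]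
        rw [show p.1 + (p.2 + b) + 1 = l + (b + 1) by omega, c2, Nat.factorial_succ b]
        have : ((p.2 + b)! : ℝ) ≠ 0 := by positivity
        have : ((l + (b + 1))! : ℝ) ≠ 0 := by positivity
        push_cast
        field_simp
      · intro p _
        exact ((int_Icc g1 (f := fun v => v ^ p.1 * (1 - v) ^ p.2) (by fun_prop)).mul_prod
          (int_Icc h1 (f := fun s => s ^ p.2) (by fun_prop))).const_mul _

lemma hh_one (B : Finset ι) (hB : B.Nonempty) (l : ℕ) :
    hh (fun _ => (1 : ℝ)) B l * ((l ! * (B.card - 1)! : ℝ) / (l + (B.card - 1))!) = 1 := by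
  obtain ⟨ν, _, h1, h2⟩ := exists_nu (fun _ => (1 : ℝ)) 1 1 B hB (fun _ _ => ⟨le_rfl, le_rfl⟩)
  have : ∫ s, s ^ l ∂ν = ∫ s, s ^ 0 ∂ν :=
    integral_congr_ae (h1.mono fun s hs => by simp [le_antisymm hs.2 hs.1])
  rw [← h2, this, h2, hh_zero]
  have : ((B.card - 1)! : ℝ) ≠ 0 := by positivity
  simp [this]

end Pool.Agent.Lib.helper1.Km
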