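import Pool.Agent.Lib.helper1.Km1

set_option autoImplicit false
open MeasureTheory Finset Matrix
open scoped Nat

namespace Pool.Agent.Lib.helper1.Km

abbrev Cf (n k : ℕ) := ↥((univ : Finset (Fin n)).piAntidiag k)

noncomputable def NB (n k : ℕ) (B : Finset (Fin n)) : Matrix (Cf n k) (Cf n k) ℝ := fun g f =>
  if ∀ j, j ∉ B → g.1 j = f.1 j then
    1 / ((univ.filter (fun u : Cf n k => ∀ j, j ∉ B → u.1 j = f.1 j)).card : ℝ) else 0

noncomputable def LL (n k : ℕ) (w : Finset (Fin n) → ℝ) : Matrix (Cf n k) (Cf n k) ℝ :=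
  ∑ B, w B • (1 - NB n k B)

variable {n k : ℕ}

lemma Cf_sum (f : Cf n k) : ∑ i, f.1 i = k := (mem_piAntidiag.1 f.2).1

lemma mem_Cf {f : Fin n → ℕ} (h : ∑ i, f i = k) : f ∈ (univ : Finset (Fin n)).piAntidiag k :=
  mem_piAntidiag.2 ⟨h, fun _ _ => mem_univ _⟩

lemma class_sum (B : Finset (Fin n)) (f : Cf n k) (θ : Fin n → ℝ) :
    ∑ g ∈ univ.filter (fun u : Cf n k => ∀ j, j ∉ B → u.1 j = f.1 j), ∏ i, θ i ^ g.1 i =
      (∏ i ∈ Bᶜ, θ i ^ f.1 i) * hh θ B (∑ i ∈ B, f.1 i) := by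
  rw [hh, mul_sum]
  have hf := Cf_sum f
  rw [← sum_add_sum_compl B] at hf
  refine sum_bij' (fun g _ i => if i ∈ B then g.1 i else 0)
    (fun u hu => ⟨fun i => if i ∈ B then u i else f.1 i, mem_Cf ?_⟩) ?_ ?_ ?_ ?_ ?_
  · rw [← sum_add_sum_compl B, sum_congr rfl (fun i hi => if_pos hi),
      sum_congr rfl (fun i hi => if_neg (mem_compl.1 hi)), (mem_piAntidiag.1 hu).1, hf]
  · intro g hg
    have h1 := (mem_filter.1 hg).2
    have h2 := Cf_sum g
    rw [← sum_add_sum_compl B] at h2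
    have h3 : ∑ i ∈ Bᶜ, g.1 i = ∑ i ∈ Bᶜ, f.1 i := sum_congr rfl (fun i hi => h1 i (mem_compl.1 hi))
    refine mem_piAntidiag.2 ⟨?_, fun i hi => by by_contra h; simp [h] at hi⟩
    have h4 : ∑ i ∈ B, (if i ∈ B then g.1 i else 0) = ∑ i ∈ B, g.1 i :=
      sum_congr rfl (fun i hi => if_pos hi)
    rw [h4]
    omega
  · intro u hu
    exact mem_filter.2 ⟨mem_univ _, fun j hj => if_neg hj⟩
  · intro g hg
    have h1 := (mem_filter.1 hg).2
    ext i
    by_cases h : i ∈ B <;> simp [h, h1]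
  · intro u hu
    funext i
    by_cases h : i ∈ B
    · simp [h]
    · have : u i = 0 := by by_contra h'; exact h ((mem_piAntidiag.1 hu).2 i h')
      simp [h, this]
  · intro g hg
    have h1 := (mem_filter.1 hg).2
    rw [← prod_mul_prod_compl B, mul_comm]
    congr 1
    · exact prod_congr rfl (fun i hi => by rw [h1 i (mem_compl.1 hi)])
    · exact prod_congr rfl (fun i hi => by simp only [if_pos hi])

noncomputable def Nr (B : Finset (Fin n)) (g f : Fin n → ℕ) : ℝ :=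
  if ∀ j, j ∉ B → g j = f j then 1 / hh (fun _ => (1 : ℝ)) B (∑ i ∈ B, f i) else 0

lemma NB_eq (B : Finset (Fin n)) (g f : Cf n k) : NB n k B g f = Nr B g.1 f.1 := by
  have := class_sum B f (fun _ => 1)
  simp only [one_pow, prod_const_one, sum_const, nsmul_eq_mul, mul_one, one_mul] at this
  rw [NB, Nr, this]

lemma NB_symm (B : Finset (Fin n)) (g f : Cf n k) : NB n k B g f = NB n k B f g := by
  unfold NB
  by_cases h : ∀ j, j ∉ B → g.1 j = f.1 j
  · rw [if_pos h, if_pos (fun j hj => (h j hj).symm)]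
    congr 3
    exact filter_congr (fun u _ => forall₂_congr (fun j hj => by rw [h j hj]))
  · rw [if_neg h, if_neg (fun h' => h (fun j hj => (h' j hj).symm))]

lemma LL_herm (w : Finset (Fin n) → ℝ) : (LL n k w).IsHermitian := by
  ext f g
  simp only [LL, conjTranspose_apply, star_trivial, Matrix.sum_apply, Matrix.smul_apply,
    Matrix.sub_apply, one_apply, NB_symm _ g f, eq_comm]

lemma LL_one (w : Finset (Fin n) → ℝ) : LL n k w *ᵥ (fun _ => 1) = 0 := by
  have : ∀ B, NB n k B *ᵥ (fun _ => (1 : ℝ)) = fun _ => 1 := by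
    intro B
    funext g
    simp only [mulVec, dotProduct, mul_one, NB_symm B g]
    unfold NB
    rw [← sum_filter, sum_const, nsmul_eq_mul, mul_one_div, div_self]
    exact Nat.cast_ne_zero.2 (card_pos.2 ⟨g, by simp⟩).ne'
  rw [LL, Matrix.sum_mulVec]
  refine sum_eq_zero (fun B _ => ?_)
  rw [smul_mulVec, sub_mulVec, this, one_mulVec, sub_self, smul_zero]

noncomputable def ev (v : Cf n k → ℝ) (θ : Fin n → ℝ) : ℝ := ∑ f, v f * ∏ i, θ i ^ f.1 i

def upd (B : Finset (Fin n)) (θ : Fin n → ℝ) (s : ℝ) : Fin n → ℝ := fun i => if i ∈ B then s else θ i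

lemma ev_upd_cont (v : Cf n k → ℝ) (B : Finset (Fin n)) (θ : Fin n → ℝ) :
    Continuous (fun s => ev v (upd B θ s)) := by
  unfold ev upd
  refine continuous_finsetSum _ (fun f _ => continuous_const.mul
    (continuous_finsetProd _ (fun i _ => Continuous.pow ?_ _)))
  split_ifs <;> fun_prop

lemma markov (B : Finset (Fin n)) (θ : Fin n → ℝ) (hθ : ∀ i, θ i ∈ Set.Icc (0 : ℝ) 1) :
    ∃ ν : Measure ℝ, IsFiniteMeasure ν ∧ (∀ᵐ s ∂ν, s ∈ Set.Icc (0 : ℝ) 1) ∧
      ∀ (k : ℕ) (v : Cf n k → ℝ), ev (NB n k B *ᵥ v) θ = ∫ s, ev v (upd B θ s) ∂ν := by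
  obtain ⟨ν, _, h1, h2⟩ : ∃ ν : Measure ℝ, IsFiniteMeasure ν ∧ (∀ᵐ s ∂ν, s ∈ Set.Icc (0 : ℝ) 1) ∧
      ∀ f : Fin n → ℕ, ∫ s, s ^ (∑ i ∈ B, f i) ∂ν =
        hh θ B (∑ i ∈ B, f i) * (1 / hh (fun _ => (1 : ℝ)) B (∑ i ∈ B, f i)) := by
    rcases B.eq_empty_or_nonempty with rfl | hB
    · exact ⟨Measure.dirac 0, inferInstance, by simp, fun f => by simp [hh_zero]⟩
    · obtain ⟨ν, i, h1, h2⟩ := exists_nu θ 0 1 B hB (fun i _ => hθ i)
      exact ⟨ν, i, h1, fun f => by rw [h2, eq_one_div_of_mul_eq_one_right (hh_one B hB _)]⟩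
  refine ⟨ν, inferInstance, h1, fun k v => ?_⟩
  have e : ∀ (f : Cf n k) s, ∏ i, upd B θ s i ^ f.1 i =
      (∏ i ∈ Bᶜ, θ i ^ f.1 i) * s ^ (∑ i ∈ B, f.1 i) := by
    intro f s
    rw [← prod_mul_prod_compl B, mul_comm, ← prod_pow_eq_pow_sum]
    congr 1
    · exact prod_congr rfl (fun i hi => by rw [upd, if_neg (mem_compl.1 hi)])
    · exact prod_congr rfl (fun i hi => by rw [upd, if_pos hi])
  simp only [ev, e, mulVec, dotProduct, sum_mul]
  rw [sum_comm, integral_finsetSum _ (fun f _ => int_Icc h1 (by fun_prop))]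
  refine sum_congr rfl (fun f _ => ?_)
  rw [integral_const_mul, integral_const_mul, h2, ← mul_assoc (∏ i ∈ Bᶜ, θ i ^ f.1 i),
    ← class_sum, sum_filter, sum_mul, mul_sum]
  refine sum_congr rfl (fun g _ => ?_)
  rw [NB_eq, Nr]
  split_ifs <;> ring

noncomputable def DD (n k : ℕ) : Matrix (Cf n k) (Cf n (k + 1)) ℝ := fun f g =>
  ∑ i, if g.1 = f.1 + Pi.single i 1 then (f.1 i + 1 : ℝ) else 0

lemma DR (f : Cf n k) (F : (Fin n → ℕ) → ℝ) :
    ∑ g, DD n k f g * F g.1 = ∑ i, (f.1 i + 1 : ℝ) * F (f.1 + Pi.single i 1) := by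
  simp only [DD, sum_mul]
  rw [sum_comm]
  refine sum_congr rfl (fun i _ => ?_)
  rw [sum_eq_single ⟨f.1 + Pi.single i 1, mem_Cf (by simp [sum_add_distrib, Cf_sum f])⟩]
  · simp
  · intro g _ hg
    rw [if_neg (fun h => hg (Subtype.ext h)), zero_mul]
  · simp

lemma sub_add_single {g : Fin n → ℕ} {i : Fin n} (h : g i ≠ 0) :
    g - Pi.single i 1 + Pi.single i 1 = g := by
  funext j
  by_cases e : j = i
  · subst e; simp; omega
  · simp [e]

lemma DL (g : Cf n (k + 1)) (F : (Fin n → ℕ) → ℝ) :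
    ∑ f, F f.1 * DD n k f g = ∑ i, (g.1 i : ℝ) * F (g.1 - Pi.single i 1) := by
  simp only [DD, mul_sum]
  rw [sum_comm]
  refine sum_congr rfl (fun i _ => ?_)
  by_cases h : g.1 i = 0
  · rw [h, sum_eq_zero]
    · simp
    · intro f _
      rw [if_neg, mul_zero]
      intro e
      have := congrFun e i
      simp [h] at this
  · have e := sub_add_single h
    have hs : ∑ j, (g.1 - Pi.single i 1 : Fin n → ℕ) j = k := by
      have := Cf_sum g
      rw [← e] at this
      simpa [sum_add_distrib] using this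
    rw [sum_eq_single ⟨g.1 - Pi.single i 1, mem_Cf hs⟩]
    · rw [if_pos e.symm, mul_comm]
      congr 1
      have : (g.1 - Pi.single i 1 : Fin n → ℕ) i + 1 = g.1 i := by simp; omega
      exact_mod_cast this
    · intro f _ hf
      rw [if_neg, mul_zero]
      intro e'
      exact hf (Subtype.ext (by simp [e']))
    · simp

lemma DD_NB (B : Finset (Fin n)) : DD n k * NB n (k + 1) B = NB n k B * DD n k := by
  ext f g
  simp only [mul_apply, NB_eq]
  rw [DR f (fun u => Nr B u g.1), DL g (fun u => Nr B f.1 u), ← sum_add_sum_compl B,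
    ← sum_add_sum_compl B (f := fun i => (g.1 i : ℝ) * _)]
  congr 1
  · have c1 : ∀ i ∈ B, (∀ j, j ∉ B → (f.1 + Pi.single i 1 : Fin n → ℕ) j = g.1 j) ↔
        ∀ j, j ∉ B → f.1 j = g.1 j := fun i hi => forall₂_congr (fun j hj => by
      have : j ≠ i := fun e => hj (e ▸ hi)
      simp [this])
    have c2 : ∀ i ∈ B, (∀ j, j ∉ B → f.1 j = (g.1 - Pi.single i 1 : Fin n → ℕ) j) ↔
        ∀ j, j ∉ B → f.1 j = g.1 j := fun i hi => forall₂_congr (fun j hj => by
      have : j ≠ i := fun e => hj (e ▸ hi)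
      simp [this])
    by_cases R : ∀ j, j ∉ B → f.1 j = g.1 j
    · have hf := Cf_sum f
      have hg := Cf_sum g
      rw [← sum_add_sum_compl B] at hf hg
      have h3 : ∑ i ∈ Bᶜ, f.1 i = ∑ i ∈ Bᶜ, g.1 i := sum_congr rfl (fun i hi => R i (mem_compl.1 hi))
      obtain ⟨l, hl⟩ : ∃ l, ∑ i ∈ B, f.1 i = l := ⟨_, rfl⟩
      have hl' : ∑ i ∈ B, g.1 i = l + 1 := by omega
      have hB : B.Nonempty := by
        by_contra hc
        rw [not_nonempty_iff_eq_empty.1 hc] at hl'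
        simp at hl'
      have a1 : ∀ i ∈ B, (f.1 i + 1 : ℝ) * Nr B (f.1 + Pi.single i 1) g.1 =
          (f.1 i + 1 : ℝ) * (1 / hh (fun _ => (1 : ℝ)) B (l + 1)) := fun i hi => by
        rw [Nr, if_pos ((c1 i hi).2 R), hl']
      have a2 : ∀ i ∈ B, (g.1 i : ℝ) * Nr B f.1 (g.1 - Pi.single i 1) =
          (g.1 i : ℝ) * (1 / hh (fun _ => (1 : ℝ)) B l) := fun i hi => by
        by_cases h : g.1 i = 0
        · simp [h]
        · have : ∑ j ∈ B, (g.1 - Pi.single i 1 : Fin n → ℕ) j = l := by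
            have := hl'
            rw [← sub_add_single h] at this
            simpa [sum_add_distrib, sum_pi_single', hi] using this
          rw [Nr, if_pos ((c2 i hi).2 R), this]
      rw [sum_congr rfl a1, sum_congr rfl a2, ← sum_mul, ← sum_mul, sum_add_distrib,
        ← Nat.cast_sum, ← Nat.cast_sum, hl, hl',
        ← eq_one_div_of_mul_eq_one_right (hh_one B hB (l + 1)),
        ← eq_one_div_of_mul_eq_one_right (hh_one B hB l)]
      obtain ⟨b, hb⟩ : ∃ b, B.card = b + 1 := ⟨B.card - 1, by have := hB.card_pos; omega⟩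
      simp only [sum_const, hb, Nat.add_sub_cancel, nsmul_eq_mul, mul_one]
      rw [show l + 1 + b = (l + b) + 1 by ring, Nat.factorial_succ, Nat.factorial_succ]
      have : ((l + b)! : ℝ) ≠ 0 := by positivity
      push_cast
      field_simp
      ring
    · rw [sum_eq_zero, sum_eq_zero]
      · intro i hi; rw [Nr, if_neg (fun h => R ((c2 i hi).1 h)), mul_zero]
      · intro i hi; rw [Nr, if_neg (fun h => R ((c1 i hi).1 h)), mul_zero]
  · refine sum_congr rfl (fun i hi => ?_)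
    have hi := mem_compl.1 hi
    have hs : ∑ j ∈ B, (g.1 - Pi.single i 1 : Fin n → ℕ) j = ∑ j ∈ B, g.1 j :=
      sum_congr rfl (fun j hj => by
        have : j ≠ i := fun e => hi (e ▸ hj)
        simp [this])
    rw [Nr, Nr, hs]
    by_cases h : ∀ j, j ∉ B → (f.1 + Pi.single i 1 : Fin n → ℕ) j = g.1 j
    · have := h i hi
      rw [if_pos h, if_pos (fun j hj => by rw [Pi.sub_apply, ← h j hj]; simp), ← this]
      simp
    · rw [if_neg h, mul_zero]
      by_cases h0 : g.1 i = 0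
      · simp [h0]
      · rw [if_neg, mul_zero]
        intro h'
        refine h (fun j hj => ?_)
        rw [Pi.add_apply, h' j hj]
        exact congrFun (sub_add_single h0) j

lemma DD_LL (w : Finset (Fin n) → ℝ) : DD n k * LL n (k + 1) w = LL n k w * DD n k := by
  simp only [LL, Matrix.mul_sum, Matrix.sum_mul, Matrix.mul_smul, Matrix.smul_mul, Matrix.mul_sub,
    Matrix.sub_mul, Matrix.mul_one, Matrix.one_mul, DD_NB]

end Pool.Agent.Lib.helper1.Km
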