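import Pool.Agent.Lib.helper1.Km2

set_option autoImplicit false
open MeasureTheory Finset Matrix Filter Topology

namespace Pool.Agent.Lib.helper1.Km

section spec
variable {m : Type} [Fintype m] [DecidableEq m] {A : Matrix m m ℝ}

lemma spec (hA : A.IsHermitian) : ∃ (μ : m → ℝ) (b : m → m → ℝ),
    A.charpoly.roots = Multiset.map μ univ.val ∧ (∀ i, A *ᵥ b i = μ i • b i) ∧
    (∀ i j, b i ⬝ᵥ b j = if i = j then 1 else 0) ∧ ∀ v, v = ∑ i, (b i ⬝ᵥ v) • b i := by
  refine ⟨hA.eigenvalues, fun i => ⇑(hA.eigenvectorBasis i), hA.roots_charpoly_eq_eigenvalues,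
    hA.mulVec_eigenvectorBasis, fun i j => ?_, fun v => ?_⟩
  · have := orthonormal_iff_ite.1 hA.eigenvectorBasis.orthonormal i j
    rw [EuclideanSpace.inner_eq_star_dotProduct, star_trivial, dotProduct_comm] at this
    exact this
  · have := congrArg WithLp.ofLp (hA.eigenvectorBasis.sum_repr' (WithLp.toLp 2 v))
    simp only [WithLp.ofLp_sum, WithLp.ofLp_smul, EuclideanSpace.inner_eq_star_dotProduct,
      star_trivial, dotProduct_comm v] at this
    exact this.symm

omit [DecidableEq m] in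
lemma dot_symm (hA : A.IsHermitian) (u v : m → ℝ) : u ⬝ᵥ A *ᵥ v = A *ᵥ u ⬝ᵥ v := by
  have : Aᵀ = A := hA
  rw [dotProduct_mulVec, ← mulVec_transpose, this]

omit [DecidableEq m] in
lemma sum_zero (hA : A.IsHermitian) (h1 : A *ᵥ (fun _ => 1) = 0) {x : ℝ} {v : m → ℝ}
    (h : A *ᵥ v = x • v) (hx : x ≠ 0) : ∑ i, v i = 0 := by
  have := dot_symm hA (fun _ => 1) v
  rw [h1, h, zero_dotProduct, dotProduct_smul, smul_eq_mul, mul_eq_zero] at this
  simpa [dotProduct] using this.resolve_left hx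

lemma mem_erase [Nonempty m] (hA : A.IsHermitian) (h1 : A *ᵥ (fun _ => 1) = 0) (x : ℝ) :
    x ∈ A.charpoly.roots.erase 0 ↔ ∃ v : m → ℝ, v ≠ 0 ∧ ∑ i, v i = 0 ∧ A *ᵥ v = x • v := by
  obtain ⟨μ, b, hr, hb, ho, he⟩ := spec hA
  have bne : ∀ i, b i ≠ 0 := fun i h => by
    have := ho i i
    simp [h] at this
  have co : ∀ {y : ℝ} {v : m → ℝ}, A *ᵥ v = y • v → ∀ i, μ i ≠ y → b i ⬝ᵥ v = 0 := by
    intro y v h i hi
    have := dot_symm hA (b i) v
    rw [h, hb, dotProduct_smul, smul_dotProduct, smul_eq_mul, smul_eq_mul] at this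
    by_contra hc
    exact hi (mul_right_cancel₀ hc this).symm
  rw [hr]
  by_cases hx : x = 0
  · subst hx
    rw [← Multiset.count_pos, Multiset.count_erase_self, Multiset.count_map, Nat.sub_pos_iff_lt,
      show Multiset.card (Multiset.filter (fun a => 0 = μ a) univ.val) =
        (univ.filter (fun a => 0 = μ a)).card from rfl, one_lt_card]
    constructor
    · rintro ⟨i, hi, j, hj, hij⟩
      have hi := (mem_filter.1 hi).2
      have hj := (mem_filter.1 hj).2
      by_cases hs : ∑ t, b i t = 0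
      · exact ⟨b i, bne i, hs, by rw [hb, hi]⟩
      · refine ⟨(∑ t, b j t) • b i - (∑ t, b i t) • b j, fun h => hs ?_, ?_, ?_⟩
        · have := congrArg (b j ⬝ᵥ ·) h
          simpa [dotProduct_sub, dotProduct_smul, ho, hij.symm] using this
        · simp only [Pi.sub_apply, Pi.smul_apply, smul_eq_mul, sum_sub_distrib, ← mul_sum]
          ring
        · rw [mulVec_sub, mulVec_smul, mulVec_smul, hb, hb, ← hi, ← hj]; simp
    · rintro ⟨v, hv, hs, h⟩
      by_contra hc
      push Not at hc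
      have h1' : A *ᵥ (fun _ => (1 : ℝ)) = (0 : ℝ) • fun _ => 1 := by rw [h1, zero_smul]
      obtain ⟨i, hi⟩ : ∃ i, b i ⬝ᵥ v ≠ 0 := by
        by_contra h'
        push Not at h'
        exact hv (by rw [he v]; simp [h'])
      have hi0 : μ i = 0 := by by_contra h'; exact hi (co h i h')
      have oth : ∀ j, j ≠ i → μ j ≠ 0 := fun j hj h' =>
        hj (hc j (by simp [h']) i (by simp [hi0]))
      have e1 : v = (b i ⬝ᵥ v) • b i := by
        conv_lhs => rw [he v]
        exact sum_eq_single i (fun j _ hj => by rw [co h j (oth j hj), zero_smul]) (by simp)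
      have e2 : (fun _ => (1 : ℝ)) = (b i ⬝ᵥ fun _ => 1) • b i := by
        conv_lhs => rw [he (fun _ => 1)]
        exact sum_eq_single i (fun j _ hj => by rw [co h1' j (oth j hj), zero_smul]) (by simp)
      rw [e1] at hs
      simp only [Pi.smul_apply, smul_eq_mul, ← mul_sum, mul_eq_zero, hi, false_or] at hs
      have := congrFun e2 (Classical.arbitrary m)
      simp [dotProduct, hs] at this
  · rw [Multiset.mem_erase_of_ne hx, Multiset.mem_map]
    constructor
    · rintro ⟨i, -, rfl⟩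
      exact ⟨b i, bne i, sum_zero hA h1 (hb i) hx, hb i⟩
    · rintro ⟨v, hv, -, h⟩
      by_contra hc
      push Not at hc
      exact hv (by rw [he v]; simp [fun i => co h i (hc i (by simp))])

end spec

variable {n k : ℕ}

noncomputable def evL (θ : Fin n → ℝ) : (Cf n k → ℝ) →ₗ[ℝ] ℝ where
  toFun v := ev v θ
  map_add' u v := by simp [ev, add_mul, sum_add_distrib]
  map_smul' r v := by simp [ev, mul_sum, mul_assoc]

lemma ev_deriv (v : Cf n (k + 1) → ℝ) (θ : Fin n → ℝ) (c : ℝ) :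
    HasDerivAt (fun c => ev v (fun i => θ i + c)) (ev (DD n k *ᵥ v) (fun i => θ i + c)) c := by
  have e : ev (DD n k *ᵥ v) (fun i => θ i + c) = ∑ g, v g * ∑ i,
      (∏ j ∈ univ.erase i, (θ j + c) ^ g.1 j) • ((g.1 i : ℝ) * (θ i + c) ^ (g.1 i - 1) * 1) := by
    simp only [ev, mulVec, dotProduct, sum_mul]
    rw [sum_comm]
    refine sum_congr rfl (fun g _ => ?_)
    have := DL g (fun u => ∏ j, (θ j + c) ^ u j)
    rw [show ∑ f : Cf n k, DD n k f g * v g * ∏ i, (θ i + c) ^ f.1 i =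
      v g * ∑ f : Cf n k, (∏ j, (θ j + c) ^ f.1 j) * DD n k f g by
        rw [mul_sum]; exact sum_congr rfl (fun f _ => by ring), this]
    congr 1
    refine sum_congr rfl (fun i _ => ?_)
    rw [← mul_prod_erase univ _ (mem_univ i), prod_congr rfl (g := fun j => (θ j + c) ^ g.1 j)
      (fun j hj => by simp [ne_of_mem_erase hj])]
    simp
    ring
  rw [e]
  refine HasDerivAt.fun_sum (fun g _ => HasDerivAt.const_mul _ ?_)
  exact HasDerivAt.fun_finsetProd (fun i _ => ((hasDerivAt_id c).const_add (θ i)).pow (g.1 i))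

lemma ev_inv {v : Cf n (k + 1) → ℝ} (h : DD n k *ᵥ v = 0) (θ : Fin n → ℝ) (c : ℝ) :
    ev v θ = ev v (fun i => θ i + c) := by
  have := is_const_of_deriv_eq_zero (f := fun c => ev v (fun i => θ i + c))
    (fun c => (ev_deriv v θ c).differentiableAt)
    (fun c => by rw [(ev_deriv v θ c).deriv, h]; simp [ev]) 0 c
  simpa using this

lemma ev_inj {v : Cf n k → ℝ} (h : ∀ θ, (∀ i, θ i ∈ Set.Icc (0 : ℝ) 1) → ev v θ = 0) : v = 0 := by
  have : (∑ f : Cf n k, MvPolynomial.monomial (Finsupp.equivFunOnFinite.symm f.1) (v f)) = 0 := by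
    refine MvPolynomial.funext_set (fun _ => Set.Icc (0 : ℝ) 1)
      (fun _ => Set.Icc_infinite zero_lt_one) (fun θ hθ => ?_)
    rw [map_zero, ← h θ (fun i => hθ i trivial), map_sum]
    refine sum_congr rfl (fun f _ => ?_)
    rw [MvPolynomial.eval_monomial, Finsupp.prod_fintype _ _ (by simp)]
    simp
  funext f
  have := congrArg (MvPolynomial.coeff (Finsupp.equivFunOnFinite.symm f.1)) this
  rw [MvPolynomial.coeff_sum, sum_eq_single f] at this
  · simpa using this
  · intro g _ hg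
    rw [MvPolynomial.coeff_monomial, if_neg]
    exact fun e => hg (Subtype.ext (Finsupp.equivFunOnFinite.symm.injective e))
  · simp

lemma exists_q (a : Fin n) : ∃ q : Cf n 2 → ℝ, ∀ θ, ev q θ = ∑ i, (θ i - θ a) ^ 2 := by
  let δ : Fin n → Fin n → Cf n 2 → ℝ := fun i j => Pi.single
    ⟨Pi.single i 1 + Pi.single j 1, mem_Cf (by simp [sum_add_distrib])⟩ 1
  have hδ : ∀ i j θ, evL θ (δ i j) = θ i * θ j := by
    intro i j θ
    simp only [evL, ev, δ, LinearMap.coe_mk, AddHom.coe_mk, Pi.single_apply, ite_mul, one_mul,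
      zero_mul, sum_ite_eq', mem_univ, if_true, Pi.add_apply, pow_add, prod_mul_distrib]
    simp
  refine ⟨∑ i, (δ i i - (2 : ℝ) • δ i a + δ a a), fun θ => ?_⟩
  show evL θ _ = _
  rw [map_sum]
  refine sum_congr rfl (fun i _ => ?_)
  rw [map_add, map_sub, map_smul, hδ, hδ, hδ, smul_eq_mul]
  ring

lemma ev_bound {v : Cf n (k + 2 + 1) → ℝ} (h : DD n (k + 2) *ᵥ v = 0) (a : Fin n)
    (θ : Fin n → ℝ) (hθ : ∀ i, θ i ∈ Set.Icc (0 : ℝ) 1) :
    |ev v θ| ≤ (∑ f, |v f|) * ∑ i, (θ i - θ a) ^ 2 := by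
  rw [ev_inv h θ (-θ a), ev, sum_mul]
  refine (abs_sum_le_sum_abs _ _).trans (sum_le_sum (fun f _ => ?_))
  rw [abs_mul]
  refine mul_le_mul_of_nonneg_left ?_ (abs_nonneg _)
  set Q := ∑ i, (θ i - θ a) ^ 2
  have hQ : 0 ≤ Q := sum_nonneg (fun i _ => sq_nonneg _)
  have h0 : 0 ≤ min 1 √Q := le_min zero_le_one (Real.sqrt_nonneg _)
  have hr : ∀ i, |θ i + -θ a| ≤ min 1 √Q := fun i => le_min
    (abs_le.2 ⟨by linarith [(hθ i).1, (hθ a).2], by linarith [(hθ i).2, (hθ a).1]⟩)
    (Real.abs_le_sqrt (single_le_sum (f := fun i => (θ i - θ a) ^ 2) (fun i _ => sq_nonneg _)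
      (mem_univ i)))
  calc _ ≤ ∏ i, (min 1 √Q) ^ f.1 i := by
        rw [abs_prod]
        exact prod_le_prod (fun i _ => abs_nonneg _)
          (fun i _ => by rw [abs_pow]; exact pow_le_pow_left₀ (abs_nonneg _) (hr i) _)
    _ = (min 1 √Q) ^ (k + 2 + 1) := by rw [prod_pow_eq_pow_sum, Cf_sum]
    _ ≤ (min 1 √Q) ^ 2 := pow_le_pow_of_le_one h0 (min_le_left _ _) (by omega)
    _ ≤ √Q ^ 2 := pow_le_pow_left₀ h0 (min_le_right _ _) 2
    _ = Q := Real.sq_sqrt hQ

lemma ev_step {w : Finset (Fin n) → ℝ} (ε : ℝ) (v : Cf n k → ℝ) (θ : Fin n → ℝ) :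
    ev ((1 - ε • LL n k w) *ᵥ v) θ =
      (1 - ε * ∑ B, w B) * ev v θ + ∑ B, ε * w B * ev (NB n k B *ᵥ v) θ := by
  show evL θ _ = _ * evL θ v + ∑ B, ε * w B * evL θ (NB n k B *ᵥ v)
  simp only [LL, sub_mulVec, smul_mulVec, Matrix.sum_mulVec, one_mulVec, map_sub, map_smul, map_sum,
    smul_eq_mul, mul_sub, sum_sub_distrib, mul_sum, sub_mul, sum_mul, mul_assoc, one_mul]
  ring

lemma mono_step {l : ℕ} {w : Finset (Fin n) → ℝ} (hw : ∀ B, 0 ≤ w B) {ε : ℝ} (h0 : 0 ≤ ε)
    (h1 : ε * ∑ B, w B ≤ 1) {v : Cf n k → ℝ} {u : Cf n l → ℝ}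
    (h : ∀ θ, (∀ i, θ i ∈ Set.Icc (0 : ℝ) 1) → |ev v θ| ≤ ev u θ) (θ : Fin n → ℝ)
    (hθ : ∀ i, θ i ∈ Set.Icc (0 : ℝ) 1) :
    |ev ((1 - ε • LL n k w) *ᵥ v) θ| ≤ ev ((1 - ε • LL n l w) *ᵥ u) θ := by
  rw [ev_step, ev_step]
  refine (abs_add_le _ _).trans (add_le_add ?_ ((abs_sum_le_sum_abs _ _).trans
    (sum_le_sum (fun B _ => ?_))))
  · rw [abs_mul, abs_of_nonneg (by linarith)]
    exact mul_le_mul_of_nonneg_left (h θ hθ) (by linarith)
  · rw [abs_mul, abs_of_nonneg (mul_nonneg h0 (hw B))]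
    refine mul_le_mul_of_nonneg_left ?_ (mul_nonneg h0 (hw B))
    obtain ⟨ν, _, a1, a2⟩ := markov B θ hθ
    rw [a2, a2]
    refine abs_integral_le_integral_abs.trans (integral_mono_ae
      (int_Icc a1 (ev_upd_cont v B θ).abs) (int_Icc a1 (ev_upd_cont u B θ))
      (a1.mono fun s hs => h _ (fun i => ?_)))
    unfold upd
    split_ifs
    · exact hs
    · exact hθ i

/-- eigenvalues with an eigenvector of zero sum -/
def SS (n k : ℕ) (w : Finset (Fin n) → ℝ) : Set ℝ :=
  {x | ∃ v : Cf n k → ℝ, v ≠ 0 ∧ ∑ i, v i = 0 ∧ LL n k w *ᵥ v = x • v}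

lemma key {w : Finset (Fin n) → ℝ} (hw : ∀ B, 0 ≤ w B) (a : Fin n) {x : ℝ}
    {v : Cf n (k + 2 + 1) → ℝ} (hv : v ≠ 0) (h : LL n _ w *ᵥ v = x • v)
    (hD : DD n (k + 2) *ᵥ v = 0) : ∃ y ∈ SS n 2 w, y ≤ x := by
  by_contra hc
  push Not at hc
  obtain ⟨μ, b, -, hb, -, he⟩ := spec (LL_herm (n := n) (k := 2) w)
  obtain ⟨q0, hq0⟩ := exists_q a
  let q := (∑ f, |v f|) • q0
  have hq : ∀ θ, ev q θ = (∑ f, |v f|) * ∑ i, (θ i - θ a) ^ 2 := fun θ => by
    rw [← hq0]; exact (evL θ).map_smul _ _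
  have hN : (Fintype.card (Cf n 2) : ℝ) ≠ 0 := Nat.cast_ne_zero.2 (Fintype.card_pos_iff.2
    ⟨⟨Pi.single a 2, mem_Cf (by simp)⟩⟩).ne'
  let b' : Cf n 2 → Cf n 2 → ℝ := fun i => b i - ((∑ t, b i t) / Fintype.card (Cf n 2)) • fun _ => 1
  have s1 : ∀ i, ∑ t, b' i t = 0 := fun i => by
    simp only [b', Pi.sub_apply, Pi.smul_apply, smul_eq_mul, mul_one, sum_sub_distrib, sum_const,
      card_univ, nsmul_eq_mul]
    field_simp
    ring
  have s2 : ∀ i, LL n 2 w *ᵥ b' i = μ i • b' i := fun i => by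
    rw [mulVec_sub, mulVec_smul, LL_one, smul_zero, sub_zero, hb]
    by_cases h0 : μ i = 0
    · simp [h0]
    · simp only [b', sum_zero (LL_herm w) (LL_one w) (hb i) h0, zero_div, zero_smul, sub_zero]
  have s3 : q = ∑ i, (b i ⬝ᵥ q) • b' i := by
    have h1 : ∑ t, q t = 0 := by simpa [ev] using hq (fun _ => 1)
    have h2 : ∑ i, (b i ⬝ᵥ q) * ∑ t, b i t = 0 := by
      rw [← h1]
      conv_rhs => rw [he q]
      simp only [Finset.sum_apply, Pi.smul_apply, smul_eq_mul, mul_sum]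
      exact sum_comm
    simp only [b', smul_sub, sum_sub_distrib, smul_smul, ← sum_smul, ← mul_div_assoc, ← sum_div, h2,
      ← he q]
    simp
  have hW : 0 ≤ ∑ B, w B := sum_nonneg (fun B _ => hw B)
  have hM : 0 ≤ ∑ i, |μ i| := sum_nonneg (fun i _ => abs_nonneg _)
  set T := 1 + ∑ B, w B + ∑ i, |μ i| + |x| with hT
  have hT0 : 0 < T := by positivity
  have e0 : 0 < 1 / T := by positivity
  have lt : ∀ y, y < T → 0 < 1 - 1 / T * y := fun y hy => by
    rw [sub_pos, one_div, inv_mul_lt_iff₀ hT0]; simpa using hy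
  have hρ := lt x (by linarith [le_abs_self x])
  have it : ∀ (j : ℕ) θ, (∀ i, θ i ∈ Set.Icc (0 : ℝ) 1) → |ev ((1 - 1 / T * x) ^ j • v) θ| ≤
      ev (∑ i, ((1 - 1 / T * μ i) ^ j * (b i ⬝ᵥ q)) • b' i) θ := by
    intro j
    induction j with
    | zero =>
      intro θ hθ
      simp only [pow_zero, one_smul, one_mul, ← s3, hq]
      exact ev_bound hD a θ hθ
    | succ j ih =>
      intro θ hθ
      have := mono_step hw e0.le (by linarith [lt (∑ B, w B) (by linarith [abs_nonneg x])]) ih θ hθ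
      convert this using 3
      · rw [mulVec_smul, sub_mulVec, one_mulVec, smul_mulVec, h, pow_succ, mul_smul, sub_smul,
          one_smul, mul_smul]
      · rw [mulVec_sum]
        refine sum_congr rfl (fun i _ => ?_)
        rw [mulVec_smul, sub_mulVec, one_mulVec, smul_mulVec, s2]
        generalize b' i = z
        module
  refine hv (ev_inj (fun θ hθ => abs_nonpos_iff.1 ?_))
  have lim : Tendsto (fun j : ℕ => ∑ i, ((1 - 1 / T * μ i) / (1 - 1 / T * x)) ^ j *
      ((b i ⬝ᵥ q) * ev (b' i) θ)) atTop (𝓝 (∑ i : Cf n 2, 0)) := by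
    refine tendsto_finsetSum _ (fun i _ => ?_)
    by_cases h0 : b' i = 0
    · simp [h0, ev]
    · have h1 := hc (μ i) ⟨b' i, h0, s1 i, s2 i⟩
      have h2 := lt (μ i) (by
        have := single_le_sum (f := fun i => |μ i|) (fun i _ => abs_nonneg _) (mem_univ i)
        linarith [le_abs_self (μ i), abs_nonneg x])
      have := (tendsto_pow_atTop_nhds_zero_of_lt_one (div_pos h2 hρ).le
        ((div_lt_one hρ).2 (by nlinarith))).mul_const ((b i ⬝ᵥ q) * ev (b' i) θ)
      rwa [zero_mul] at this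
  rw [sum_const_zero] at lim
  refine ge_of_tendsto' lim (fun j => ?_)
  have := it j θ hθ
  change |evL θ _| ≤ evL θ _ at this
  rw [map_smul, map_sum, smul_eq_mul, abs_mul, abs_of_pos (pow_pos hρ j),
    ← le_div_iff₀' (pow_pos hρ j), sum_div] at this
  refine this.trans (le_of_eq (sum_congr rfl (fun i _ => ?_)))
  rw [map_smul, smul_eq_mul, div_pow]
  show _ * ev (b' i) θ / _ = _
  ring

lemma SS_up {w : Finset (Fin n) → ℝ} (a : Fin n) : SS n k w ⊆ SS n (k + 1) w := by
  rintro x ⟨v, hv, hs, h⟩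
  have e : ∀ g : Cf n (k + 1), ((DD n k)ᵀ *ᵥ v) g = ∑ f, v f * DD n k f g := fun g => by
    simp [mulVec, dotProduct, mul_comm]
  refine ⟨(DD n k)ᵀ *ᵥ v, fun h0 => ?_, ?_, ?_⟩
  · obtain ⟨f, hf, hmax⟩ := exists_max_image (univ.filter (fun f => v f ≠ 0)) (fun f => f.1 a)
      (by by_contra hc; exact hv (funext fun f => by
        by_contra h'; exact hc ⟨f, by simpa using h'⟩))
    have := congrFun h0 ⟨f.1 + Pi.single a 1, mem_Cf (by simp [sum_add_distrib, Cf_sum f])⟩
    rw [e, sum_eq_single f, DD, sum_eq_single a] at this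
    · simp only [if_true, Pi.zero_apply, mul_eq_zero] at this
      rcases this with h | h
      · exact (mem_filter.1 hf).2 h
      · exact absurd h (by positivity)
    · intro i _ hi
      rw [if_neg]
      intro h
      have := congrFun h a
      simp [hi.symm] at this
    · simp
    · intro g _ hg
      by_cases h' : v g = 0
      · rw [h', zero_mul]
      · rw [DD, sum_eq_zero, mul_zero]
        intro i _
        rw [if_neg]
        intro h
        by_cases hi : i = a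
        · subst hi; exact hg (Subtype.ext (add_right_cancel h).symm)
        · have h1 := congrFun h a
          have h2 := hmax g (by simpa using h')
          simp [Ne.symm hi] at h1
          omega
    · simp
  · simp only [e]
    rw [sum_comm]
    have : ∀ f : Cf n k, ∑ g, v f * DD n k f g = v f * (k + n) := fun f => by
      have := DR f (fun _ => 1)
      simp only [mul_one, sum_add_distrib, ← Nat.cast_sum, Cf_sum f] at this
      rw [← mul_sum, this]
      simp
    simp only [this, ← sum_mul, hs, zero_mul]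
  · have h1 : (LL n (k + 1) w)ᵀ = LL n (k + 1) w := LL_herm w
    have h2 : (LL n k w)ᵀ = LL n k w := LL_herm w
    rw [mulVec_mulVec, ← h1, ← transpose_mul, DD_LL, transpose_mul, h2, ← mulVec_mulVec, h,
      mulVec_smul]

lemma SS_down {w : Finset (Fin n) → ℝ} (hw : ∀ B, 0 ≤ w B) (a : Fin n) (k : ℕ) :
    ∀ x ∈ SS n (k + 2) w, ∃ y ∈ SS n 2 w, y ≤ x := by
  induction k with
  | zero => exact fun x hx => ⟨x, hx, le_rfl⟩
  | succ k ih =>
    rintro x ⟨v, hv, hs, h⟩
    by_cases hD : DD n (k + 2) *ᵥ v = 0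
    · exact key hw a hv h hD
    · refine ih x ⟨_, hD, ?_, ?_⟩
      · simp only [mulVec, dotProduct]
        rw [sum_comm]
        have : ∀ g : Cf n (k + 2 + 1), ∑ f, DD n (k + 2) f g * v g = (k + 2 + 1 : ℕ) * v g :=
          fun g => by
          have := DL g (fun _ => 1)
          simp only [mul_one, one_mul, ← Nat.cast_sum, Cf_sum g] at this
          rw [← sum_mul, this]
        simp only [this, ← mul_sum]
        exact mul_eq_zero_of_right _ hs
      · rw [mulVec_mulVec, ← DD_LL, ← mulVec_mulVec]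
        exact (congrArg _ h).trans (mulVec_smul _ _ _)

theorem main {w : Finset (Fin n) → ℝ} (hw : ∀ B, 0 ≤ w B) (a : Fin n) (k : ℕ) :
    sInf {x | x ∈ (LL n (k + 2) w).charpoly.roots.erase 0} =
      sInf {x | x ∈ (LL n 2 w).charpoly.roots.erase 0} := by
  have e : ∀ k, {x | x ∈ (LL n k w).charpoly.roots.erase 0} = SS n k w := fun k => by
    have : Nonempty (Cf n k) := ⟨⟨Pi.single a k, mem_Cf (by simp)⟩⟩
    ext x
    exact mem_erase (LL_herm w) (LL_one w) x
  rw [e, e]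
  refine csInf_eq_csInf_of_forall_exists_le (SS_down hw a k) (fun y hy => ⟨y, ?_, le_rfl⟩)
  induction k with
  | zero => exact hy
  | succ k ih => exact SS_up a ih

end Pool.Agent.Lib.helper1.Km
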