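import Mathlib

namespace Pool.Agent.Lib.helper1.MM

/-- `x` is an earlier result, an input or a constant -/
def Avail (K : Type) {E : Type} [Field K] [Field E] [Algebra K E] (B : Set E) (l : List E) (x : E) : Prop :=
  x ∈ l ∨ x ∈ B ∨ ∃ c : K, x = algebraMap K E c

/-- lists of results of straight-line programs, newest result first -/
inductive Prog (K : Type) {E : Type} [Field K] [Field E] [Algebra K E] (B : Set E) : List E → Prop
  | nil : Prog K B []
  | step (l : List E) (x y g : E) : Prog K B l → Avail K B l x → Avail K B l y →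
      (g = x + y ∨ g = x - y ∨ g = x * y ∨ (y ≠ 0 ∧ g = x / y)) → Prog K B (g :: l)

variable {K E : Type} [Field K] [Field E] [Algebra K E] {B : Set E}

lemma Avail.cons {l : List E} {x : E} (g : E) (h : Avail K B l x) : Avail K B (g :: l) x :=
  h.imp_left (List.mem_cons_of_mem _)

lemma avail_head (l : List E) (g : E) : Avail K B (g :: l) g := Or.inl List.mem_cons_self

lemma avail_const (l : List E) (c : K) : Avail K B l (algebraMap K E c) := Or.inr (Or.inr ⟨c, rfl⟩)

lemma avail_zero (l : List E) : Avail K B l 0 := by simpa using avail_const (B := B) l (0 : K)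

variable (K B) in
def Comp (S T : Set E) (k : ℕ) : Prop :=
  ∀ l, Prog K B l → (∀ s ∈ S, Avail K B l s) → ∃ l', Prog K B l' ∧
    (∀ x, Avail K B l x → Avail K B l' x) ∧ l'.length ≤ l.length + k ∧ ∀ t ∈ T, Avail K B l' t

lemma Comp.mono {S S' T T' : Set E} {k k' : ℕ} (h : Comp K B S T k) (hS : S ⊆ S' ∪ {0}) (hT : T' ⊆ T)
    (hk : k ≤ k') : Comp K B S' T' k' := by
  intro l hl hs
  obtain ⟨l', a, b, c, d⟩ := h l hl (fun s h1 => by
    rcases hS h1 with h2 | h2
    · exact hs s h2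
    · rw [h2]; exact avail_zero l)
  exact ⟨l', a, b, by omega, fun t ht => d t (hT ht)⟩

lemma Comp.trans {S T U : Set E} {k k' : ℕ} (h : Comp K B S T k) (h' : Comp K B (S ∪ T) U k') :
    Comp K B S (T ∪ U) (k + k') := by
  intro l hl hs
  obtain ⟨l1, a, b, c, d⟩ := h l hl hs
  obtain ⟨l2, a', b', c', d'⟩ := h' l1 a (fun s h1 => h1.elim (fun h2 => b _ (hs s h2)) (d s))
  exact ⟨l2, a', fun x hx => b' _ (b _ hx), by omega, fun t ht => ht.elim (fun h2 => b' _ (d t h2)) (d' t)⟩

lemma Comp.nil (S : Set E) : Comp K B S ∅ 0 := fun l hl _ => ⟨l, hl, fun _ h => h, le_rfl, by simp⟩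

lemma Comp.biUnion {ι : Type} {S : Set E} (T : ι → Set E) {k : ℕ} (s : Finset ι)
    (h : ∀ i, Comp K B S (T i) k) : Comp K B S (⋃ i ∈ s, T i) (s.card * k) := by
  classical
  induction s using Finset.induction_on with
  | empty => simpa using Comp.nil S
  | insert i s hi ih =>
    refine (ih.trans ((h i).mono (fun x hx => Or.inl (Or.inl hx)) le_rfl le_rfl)).mono
      (fun x hx => Or.inl hx) ?_ ?_
    · rw [Finset.set_biUnion_insert, Set.union_comm]
    · rw [Finset.card_insert_of_notMem hi]; nlinarith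

lemma Comp.iUnion {ι : Type} [Fintype ι] {S : Set E} (T : ι → Set E) {k : ℕ}
    (h : ∀ i, Comp K B S (T i) k) : Comp K B S (⋃ i, T i) (Fintype.card ι * k) := by
  simpa using Comp.biUnion T Finset.univ h

lemma Comp.range {ι : Type} [Fintype ι] {S : Set E} (f : ι → E) {k : ℕ}
    (h : ∀ i, Comp K B S {f i} k) : Comp K B S (Set.range f) (Fintype.card ι * k) := by
  simpa using Comp.iUnion (fun i => {f i}) h

lemma Comp.mul {S : Set E} {x y : E} (hx : x ∈ S) (hy : y ∈ S) : Comp K B S {x * y} 1 := by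
  intro l hl hs
  refine ⟨x * y :: l, Prog.step l x y _ hl (hs x hx) (hs y hy) (by simp), fun z hz => hz.cons _, by simp, ?_⟩
  rintro _ rfl
  exact avail_head _ _

lemma Comp.lin {ι : Type} {S : Set E} (c : ι → K) (x : ι → E) (s : Finset ι) (hx : ∀ i, x i ∈ S) :
    Comp K B S {∑ i ∈ s, c i • x i} (2 * s.card) := by
  classical
  induction s using Finset.induction_on with
  | empty =>
    intro l hl _
    refine ⟨l, hl, fun _ h => h, by simp, ?_⟩
    rintro _ rfl
    simpa using avail_zero l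
  | insert i s hi ih =>
    intro l hl hs
    obtain ⟨l1, a, b, c1, d⟩ := ih l hl hs
    have p1 := Prog.step l1 (algebraMap K E (c i)) (x i) _ a (avail_const _ _) (b _ (hs _ (hx i)))
      (Or.inr (Or.inr (Or.inl rfl)))
    have p2 := Prog.step _ _ _ _ p1 (avail_head _ _) ((d _ rfl).cons _) (Or.inl rfl)
    refine ⟨_, p2, fun z hz => ((b z hz).cons _).cons _, ?_, ?_⟩
    · rw [Finset.card_insert_of_notMem hi]; simp only [List.length_cons]; omega
    · rintro _ rfl
      rw [Finset.sum_insert hi, Algebra.smul_def]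
      exact avail_head _ _

lemma materialise {ι : Type} (f : ι → E) (s : Finset ι) (l : List E) (hl : Prog K B l)
    (h : ∀ i, Avail K B l (f i)) : ∃ l', Prog K B l' ∧ (∀ x, Avail K B l x → Avail K B l' x) ∧
      l'.length = l.length + s.card ∧ ∀ i ∈ s, f i ∈ l' := by
  classical
  induction s using Finset.induction_on with
  | empty => exact ⟨l, hl, fun _ h => h, by simp, by simp⟩
  | insert i s hi ih =>
    obtain ⟨l1, a, b, c, d⟩ := ih
    refine ⟨f i :: l1, Prog.step l1 (f i) 0 _ a (b _ (h i)) (avail_zero _) (by simp),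
      fun x hx => (b x hx).cons _, ?_, ?_⟩
    · rw [Finset.card_insert_of_notMem hi, List.length_cons, c]; omega
    · intro j hj
      rcases Finset.mem_insert.1 hj with rfl | hj
      · simp
      · exact List.mem_cons_of_mem _ (d j hj)

def ent {I : Type} (A : Matrix I I E) : Set E := Set.range fun p : I × I => A p.1 p.2

variable (K B) in
def MMc (I : Type) [Fintype I] (k : ℕ) : Prop :=
  ∀ A C : Matrix I I E, Comp K B (ent A ∪ ent C) (ent (A * C)) k

lemma MMc.naive (I : Type) [Fintype I] : ∃ k, MMc K B I k := by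
  refine ⟨_, fun A C => ((Comp.range (fun p : I × I × I => A p.1 p.2.1 * C p.2.1 p.2.2) (k := 1)
    (fun p => Comp.mul (Or.inl ⟨(p.1, p.2.1), rfl⟩) (Or.inr ⟨(p.2.1, p.2.2), rfl⟩))).trans
    (Comp.range (fun p : I × I => ∑ t, (1 : K) • (A p.1 t * C t p.2)) (fun p => Comp.lin _ _ _
      (fun t => Or.inr ⟨(p.1, t, p.2), rfl⟩)))).mono (fun x hx => Or.inl hx) ?_ le_rfl⟩
  rintro _ ⟨p, rfl⟩
  exact Or.inr ⟨p, by simp [Matrix.mul_apply]⟩

lemma MMc.one : MMc K B (Fin 1) 1 := by
  intro A C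
  refine (Comp.mul (x := A 0 0) (y := C 0 0) (Or.inl ⟨(0, 0), rfl⟩) (Or.inr ⟨(0, 0), rfl⟩)).mono
    (fun x hx => Or.inl hx) ?_ le_rfl
  rintro _ ⟨⟨p, q⟩, rfl⟩
  simp [Matrix.mul_apply, Subsingleton.elim p 0, Subsingleton.elim q 0]

lemma MMc.emb {I I' : Type} [Fintype I] [Fintype I'] {k : ℕ} (h : MMc K B I k)
    (hc : Fintype.card I' ≤ Fintype.card I) : MMc K B I' k := by
  obtain ⟨e⟩ := Function.Embedding.nonempty_of_card_le hc
  have he : Function.Injective (Prod.map e e) := e.injective.prodMap e.injective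
  let ex : Matrix I' I' E → Matrix I I E := fun A x y =>
    Function.extend (Prod.map e e) (fun p => A p.1 p.2) 0 (x, y)
  have e1 : ∀ A a b, ex A (e a) (e b) = A a b := fun A a b => he.extend_apply _ _ (a, b)
  have e2 : ∀ A, ent (ex A) ⊆ ent A ∪ {0} := by
    rintro A _ ⟨⟨x, y⟩, rfl⟩
    by_cases hp : ∃ p, Prod.map e e p = (x, y)
    · obtain ⟨⟨a, b⟩, hp⟩ := hp
      obtain ⟨rfl, rfl⟩ := Prod.mk.inj hp
      exact Or.inl ⟨(a, b), (e1 A a b).symm⟩
    · exact Or.inr (Function.extend_apply' _ _ _ hp)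
  intro A C
  refine (h (ex A) (ex C)).mono ?_ ?_ le_rfl
  · rintro x (hx | hx)
    · exact (e2 A hx).elim (fun h1 => Or.inl (Or.inl h1)) Or.inr
    · exact (e2 C hx).elim (fun h1 => Or.inl (Or.inr h1)) Or.inr
  · rintro _ ⟨⟨a, b⟩, rfl⟩
    refine ⟨(e a, e b), ?_⟩
    simp only [Matrix.mul_apply]
    symm
    refine Fintype.sum_of_injective e e.injective _ _ (fun z hz => ?_) (fun c => by rw [e1, e1])
    have : ex A (e a) z = 0 := Function.extend_apply' _ _ _ (by
      rintro ⟨p, hp⟩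
      exact hz ⟨p.2, (Prod.mk.inj hp).2⟩)
    rw [this, zero_mul]

def Dec (R : Type) [CommRing R] (J : Type) [DecidableEq J] (r : ℕ) : Prop :=
  ∃ (T : Type) (_ : Fintype T) (u v w : T → J → J → R), Fintype.card T = r ∧
    ∀ i j k l p q, ∑ t, u t i j * v t k l * w t p q = if j = k ∧ p = i ∧ q = l then 1 else 0

lemma MMc.step {I J : Type} [Fintype I] [Fintype J] [DecidableEq J] {r c : ℕ} (hd : Dec K J r)
    (h : MMc K B I c) :
    MMc K B (J × I) (r * c + 6 * r * Fintype.card J ^ 2 * Fintype.card I ^ 2) := by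
  obtain ⟨T, _, u, v, w, rfl, hd⟩ := hd
  intro A C
  let A' : T → Matrix I I E := fun t x y => ∑ p : J × J, u t p.1 p.2 • A (p.1, x) (p.2, y)
  let C' : T → Matrix I I E := fun t x y => ∑ p : J × J, v t p.1 p.2 • C (p.1, x) (p.2, y)
  have s1 : Comp K B (ent A ∪ ent C) _ _ := Comp.range (fun z : T × I × I => A' z.1 z.2.1 z.2.2)
    (fun z => Comp.lin _ _ _ (fun p => Or.inl ⟨((p.1, z.2.1), (p.2, z.2.2)), rfl⟩))
  have s2 := s1.trans (Comp.range (fun z : T × I × I => C' z.1 z.2.1 z.2.2)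
    (fun z => Comp.lin _ _ _ (fun p => Or.inl (Or.inr ⟨((p.1, z.2.1), (p.2, z.2.2)), rfl⟩))))
  have s3 := s2.trans (Comp.iUnion (fun t => ent (A' t * C' t)) (fun t => (h (A' t) (C' t)).mono (by
    rintro _ (⟨p, rfl⟩ | ⟨p, rfl⟩)
    · exact Or.inl (Or.inr (Or.inl ⟨(t, p), rfl⟩))
    · exact Or.inl (Or.inr (Or.inr ⟨(t, p), rfl⟩))) le_rfl le_rfl))
  have s4 := s3.trans (Comp.range
    (fun z : (J × I) × J × I => ∑ t, w t z.1.1 z.2.1 • (A' t * C' t) z.1.2 z.2.2)
    (fun z => Comp.lin _ _ _ (fun t => Or.inr (Or.inr (Set.mem_iUnion.2 ⟨t, (z.1.2, z.2.2), rfl⟩)))))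
  refine s4.mono (fun x hx => Or.inl hx) ?_ (le_of_eq ?_)
  · rintro _ ⟨⟨⟨p, x⟩, ⟨q, y⟩⟩, rfl⟩
    refine Or.inr ⟨((p, x), (q, y)), ?_⟩
    simp only [Matrix.mul_apply, A', C']
    have : ∀ z, ∑ t, w t p q • ((∑ a : J × J, u t a.1 a.2 • A (a.1, x) (a.2, z)) *
        ∑ b : J × J, v t b.1 b.2 • C (b.1, z) (b.2, y)) = ∑ j, A (p, x) (j, z) * C (j, z) (q, y) := by
      intro z
      calc _ = ∑ a : J × J, ∑ b : J × J, (∑ t, u t a.1 a.2 * v t b.1 b.2 * w t p q) •
            (A (a.1, x) (a.2, z) * C (b.1, z) (b.2, y)) := by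
            simp only [Finset.sum_mul_sum, Finset.smul_sum, Finset.sum_smul]
            rw [Finset.sum_comm]
            refine Finset.sum_congr rfl fun a _ => ?_
            rw [Finset.sum_comm]
            refine Finset.sum_congr rfl fun b _ => Finset.sum_congr rfl fun t _ => ?_
            simp only [Algebra.smul_def, map_mul]; ring
        _ = _ := by
            simp only [hd, Fintype.sum_prod_type, ite_and, ite_smul, one_smul, zero_smul]
            simp
    calc _ = ∑ t, ∑ z, w t p q • ((∑ a : J × J, u t a.1 a.2 • A (a.1, x) (a.2, z)) *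
          ∑ b : J × J, v t b.1 b.2 • C (b.1, z) (b.2, y)) :=
          Finset.sum_congr rfl fun t _ => Finset.smul_sum
      _ = ∑ z, ∑ j, A (p, x) (j, z) * C (j, z) (q, y) := by
          rw [Finset.sum_comm]; exact Finset.sum_congr rfl fun z _ => this z
      _ = _ := by rw [Fintype.sum_prod_type, Finset.sum_comm]
  · simp only [Fintype.card_prod, Finset.card_univ]; ring

lemma MMc.iter {n r : ℕ} (hd : Dec K (Fin n) r) (hr : n ^ 2 ≤ r) (j : ℕ) :
    MMc K B (Fin (n ^ j)) ((1 + 6 * n ^ 2 * j) * r ^ j) := by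
  induction j with
  | zero =>
    have := (MMc.one (K := K) (B := B)).emb (I' := Fin (n ^ 0)) (by simp)
    intro A C
    exact (this A C).mono (fun x hx => Or.inl hx) le_rfl (by simp)
  | succ j ih =>
    intro A C
    refine (((MMc.step hd ih).emb (I' := Fin (n ^ (j + 1))) (by simp [pow_succ'])) A C).mono
      (fun x hx => Or.inl hx) le_rfl ?_
    simp only [Fintype.card_fin]
    have : (n ^ j) ^ 2 ≤ r ^ j := by
      rw [← pow_mul, mul_comm, pow_mul]; exact Nat.pow_le_pow_left hr j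
    have h2 := Nat.mul_le_mul_left (6 * r * n ^ 2) this
    calc _ ≤ r * ((1 + 6 * n ^ 2 * j) * r ^ j) + 6 * r * n ^ 2 * r ^ j := by omega
      _ = _ := by ring

lemma Dec.emb {R J J' : Type} [CommRing R] [Fintype J] [Fintype J'] [DecidableEq J] [DecidableEq J']
    {r : ℕ} (h : Dec R J r) (hc : Fintype.card J' ≤ Fintype.card J) : Dec R J' r := by
  obtain ⟨e⟩ := Function.Embedding.nonempty_of_card_le hc
  obtain ⟨T, _, u, v, w, hT, hd⟩ := h
  exact ⟨T, inferInstance, fun t a b => u t (e a) (e b), fun t a b => v t (e a) (e b),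
    fun t a b => w t (e a) (e b), hT, fun i j k l p q => by simp [hd]⟩

lemma Dec.prod {R J J' : Type} [CommRing R] [DecidableEq J] [DecidableEq J']
    {r r' : ℕ} (h : Dec R J r) (h' : Dec R J' r') : Dec R (J × J') (r * r') := by
  obtain ⟨T, _, u, v, w, rfl, hd⟩ := h
  obtain ⟨T', _, u', v', w', rfl, hd'⟩ := h'
  refine ⟨T × T', inferInstance, fun t a b => u t.1 a.1 b.1 * u' t.2 a.2 b.2,
    fun t a b => v t.1 a.1 b.1 * v' t.2 a.2 b.2, fun t a b => w t.1 a.1 b.1 * w' t.2 a.2 b.2,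
    by simp, fun i j k l p q => ?_⟩
  calc _ = (∑ t, u t i.1 j.1 * v t k.1 l.1 * w t p.1 q.1) *
        ∑ t, u' t i.2 j.2 * v' t k.2 l.2 * w' t p.2 q.2 := by
        rw [Finset.sum_mul_sum, Fintype.sum_prod_type]
        exact Finset.sum_congr rfl fun _ _ => Finset.sum_congr rfl fun _ _ => by ring
    _ = _ := by
        rw [hd, hd']
        simp only [Prod.ext_iff]
        split_ifs <;> simp_all

lemma Dec.pow {R : Type} [CommRing R] {n r : ℕ} (h : Dec R (Fin n) r) (j : ℕ) :
    Dec R (Fin (n ^ j)) (r ^ j) := by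
  induction j with
  | zero =>
    refine Dec.emb (J := Unit) ⟨Unit, inferInstance, 1, 1, 1, by simp, by simp⟩ (by simp)
  | succ j ih =>
    rw [pow_succ r]
    exact (ih.prod h).emb (by simp [pow_succ])

lemma Dec.down {R J : Type} [Field R] [Algebra K R] [Module.Finite K R] [DecidableEq J] {r : ℕ}
    (h : Dec R J r) : Dec K J (r * Module.finrank K R ^ 2) := by
  obtain ⟨T, _, u, v, w, rfl, hd⟩ := h
  let b := Module.finBasis K R
  obtain ⟨g, hg⟩ := (Algebra.linearMap K R).exists_leftInverse_of_injective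
    (LinearMap.ker_eq_bot.2 (algebraMap K R).injective)
  have g1 : g 1 = 1 := by simpa using LinearMap.congr_fun hg 1
  refine ⟨T × Fin (Module.finrank K R) × Fin (Module.finrank K R), inferInstance,
    fun t i j => b.repr (u t.1 i j) t.2.1, fun t i j => b.repr (v t.1 i j) t.2.2,
    fun t i j => g (b t.2.1 * b t.2.2 * w t.1 i j), by simp [pow_two], fun i j k l p q => ?_⟩
  calc _ = g (∑ t, u t i j * v t k l * w t p q) := by
        rw [map_sum, Fintype.sum_prod_type]
        refine Finset.sum_congr rfl fun t _ => ?_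
        conv_rhs => rw [← b.sum_repr (u t i j), ← b.sum_repr (v t k l)]
        rw [Finset.sum_mul_sum, Fintype.sum_prod_type]
        simp only [Finset.sum_mul, map_sum]
        refine Finset.sum_congr rfl fun _ _ => Finset.sum_congr rfl fun _ _ => ?_
        rw [smul_mul_smul_comm, smul_mul_assoc, map_smul, smul_eq_mul]
    _ = _ := by rw [hd]; split_ifs <;> simp [g1]

variable (K) in
lemma Dec.spec {J : Type} [Fintype J] [DecidableEq J] {r : ℕ} (h : Dec E J r) :
    ∃ k, ∀ n, Fintype.card J = n → ∀ j, Dec K (Fin (n ^ j)) (r ^ j * (k + 1) ^ 2) := by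
  obtain ⟨T, _, u, v, w, rfl, hd⟩ := h
  let ψ : MvPolynomial (Fin 3 × T × J × J) K →ₐ[K] E :=
    MvPolynomial.aeval fun z => ![u, v, w] z.1 z.2.1 z.2.2.1 z.2.2.2
  obtain ⟨m, hm, hle⟩ := Ideal.exists_le_maximal (RingHom.ker ψ) (RingHom.ker_ne_top ψ)
  let := Ideal.Quotient.field m
  have : Module.Finite K (MvPolynomial (Fin 3 × T × J × J) K ⧸ m) :=
    finite_of_finite_type_of_isJacobsonRing _ _
  have h1 : Dec (MvPolynomial (Fin 3 × T × J × J) K ⧸ m) J (Fintype.card T) := by
    refine ⟨T, inferInstance, fun t i j => Ideal.Quotient.mk m (MvPolynomial.X (0, t, i, j)),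
      fun t i j => Ideal.Quotient.mk m (MvPolynomial.X (1, t, i, j)),
      fun t i j => Ideal.Quotient.mk m (MvPolynomial.X (2, t, i, j)), rfl, fun i j k l p q => ?_⟩
    have : (∑ t, MvPolynomial.X (0, t, i, j) * MvPolynomial.X (1, t, k, l) * MvPolynomial.X (2, t, p, q) -
        if j = k ∧ p = i ∧ q = l then 1 else 0 : MvPolynomial (Fin 3 × T × J × J) K) ∈ m := by
      apply hle
      rw [RingHom.mem_ker]
      simp only [map_sub, map_sum, map_mul, ψ, MvPolynomial.aeval_X, apply_ite, map_one, map_zero]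
      have := hd i j k l p q
      simp only [Matrix.cons_val_zero, Matrix.cons_val_one, Matrix.cons_val]
      split_ifs at this ⊢ <;> simp [this]
    have h2 := Ideal.Quotient.eq.2 this
    simpa [apply_ite] using h2
  obtain ⟨k, hk⟩ : ∃ k, Module.finrank K (MvPolynomial (Fin 3 × T × J × J) K ⧸ m) = k + 1 :=
    Nat.exists_eq_succ_of_ne_zero Module.finrank_pos.ne'
  refine ⟨k, fun n hn j => ?_⟩
  rw [← hk]
  exact ((h1.emb (J' := Fin n) (by simp [hn])).pow j).down

end Pool.Agent.Lib.helper1.MM
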