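import Mathlib

set_option autoImplicit false

open MeasureTheory ProbabilityTheory
open scoped ENNReal

namespace Pool.Agent.Lib.helper1.MkZ

variable {T : Type}

abbrev Om (T : Type) : Type := Option (ℤ × T) → T

def fw (ω : Om T) : ℕ → T
  | 0 => ω none
  | n + 1 => ω (some (n, fw ω n))

def bw (ω : Om T) : ℕ → T
  | 0 => ω none
  | n + 1 => ω (some (-(n + 1 : ℕ), bw ω n))

def X (i : ℤ) (ω : Om T) : T := if 0 ≤ i then fw ω i.toNat else bw ω (-i).toNat

lemma X_zero (ω : Om T) : X 0 ω = ω none := rfl

lemma X_pos {i : ℤ} (hi : 0 ≤ i) (ω : Om T) : X (i + 1) ω = ω (some (i, X i ω)) := by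
  obtain ⟨n, rfl⟩ := Int.eq_ofNat_of_zero_le hi
  simp only [X, if_pos hi, if_pos (show (0 : ℤ) ≤ n + 1 by omega), Int.toNat_natCast]
  rw [show ((n : ℤ) + 1).toNat = n + 1 by omega, fw]

lemma X_neg {i : ℤ} (hi : i < 0) (ω : Om T) : X i ω = ω (some (i, X (i + 1) ω)) := by
  obtain ⟨n, rfl⟩ : ∃ n : ℕ, i = -(n + 1 : ℕ) := ⟨(-i - 1).toNat, by omega⟩
  have h : X (-((n + 1 : ℕ) : ℤ) + 1) ω = bw ω n := by
    rcases n with _ | n
    · rfl
    · rw [X, if_neg (by omega)]; congr 1
  rw [h, X, if_neg hi.not_ge, neg_neg, Int.toNat_natCast, bw]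

variable [Countable T] [MeasurableSpace T] [DiscreteMeasurableSpace T]

lemma meas_step (i : ℤ) {f : Om T → T} (hf : Measurable f) :
    Measurable fun ω : Om T => ω (some (i, f ω)) :=
  (measurable_from_prod_countable_left (f := fun p : Om T × T => p.1 (some (i, p.2)))
    fun t => measurable_pi_apply (some (i, t))).comp (measurable_id.prodMk hf)

lemma meas_X (i : ℤ) : Measurable (X i : Om T → T) := by
  have h1 : ∀ n, Measurable fun ω : Om T => fw ω n := fun n => by
    induction n with
    | zero => exact measurable_pi_apply _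
    | succ n ih => exact meas_step _ ih
  have h2 : ∀ n, Measurable fun ω : Om T => bw ω n := fun n => by
    induction n with
    | zero => exact measurable_pi_apply _
    | succ n ih => exact meas_step _ ih
  unfold X
  split_ifs
  exacts [h1 _, h2 _]

def Cyl (a b : ℤ) (x : ℤ → T) : Set (Om T) := {ω | ∀ i ∈ Finset.Icc a b, X i ω = x i}

lemma meas_Cyl (a b : ℤ) (x : ℤ → T) : MeasurableSet (Cyl a b x) := by
  have : Cyl a b x = ⋂ i ∈ Finset.Icc a b, X i ⁻¹' {x i} := by ext; simp [Cyl]
  rw [this]
  exact Finset.measurableSet_biInter _ fun i _ => meas_X i (MeasurableSet.singleton _)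

noncomputable def wt (π : PMF T) (P : T → PMF T) (a b : ℤ) (x : ℤ → T) : ℝ≥0∞ :=
  π (x a) * ∏ i ∈ Finset.Ico a b, P (x i) (x (i + 1))

noncomputable def nu (π : PMF T) (P Q : T → PMF T) : Option (ℤ × T) → Measure T
  | none => π.toMeasure
  | some p => if 0 ≤ p.1 then (P p.2).toMeasure else (Q p.2).toMeasure

instance (π : PMF T) (P Q : T → PMF T) (j : Option (ℤ × T)) : IsProbabilityMeasure (nu π P Q j) := by
  rcases j with _ | p
  · exact inferInstanceAs (IsProbabilityMeasure π.toMeasure)
  · simp only [nu]; split_ifs <;> infer_instance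

noncomputable def mu (π : PMF T) (P Q : T → PMF T) : Measure (Om T) :=
  Measure.infinitePi (nu π P Q)

instance (π : PMF T) (P Q : T → PMF T) : IsProbabilityMeasure (mu π P Q) := by
  unfold mu; infer_instance

lemma base {π : PMF T} {P Q : T → PMF T} (hQ : ∀ x y, π y * Q y x = π x * P x y) {a b : ℤ}
    (ha : a ≤ 0) (hb : 0 ≤ b) (x : ℤ → T) : mu π P Q (Cyl a b x) = wt π P a b x := by
  classical
  let k : ℤ → Option (ℤ × T) := fun i => some (i, if 0 ≤ i then x i else x (i + 1))
  let v : Option (ℤ × T) → T := fun j => match j with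
    | none => x 0
    | some p => if 0 ≤ p.1 then x (p.1 + 1) else x p.1
  have kinj : Function.Injective k := fun i j h => by
    simp only [k, Option.some.injEq, Prod.mk.injEq] at h; exact h.1
  have e : Cyl a b x = Set.pi ↑(insert none ((Finset.Ico a b).image k)) fun j => {v j} := by
    ext ω
    simp only [Cyl, Set.mem_ofPred_eq, Finset.mem_Icc, Finset.coe_insert, Finset.coe_image,
      Set.mem_pi, Set.mem_insert_iff, Set.mem_image, Finset.mem_coe, Finset.mem_Ico,
      Set.mem_singleton_iff, forall_eq_or_imp, forall_exists_index, and_imp]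
    constructor
    · intro h
      refine ⟨h 0 ha hb, ?_⟩
      rintro _ i h1 h2 rfl
      by_cases hi : 0 ≤ i
      · simp only [k, v, if_pos hi]
        rw [← h i h1 h2.le, ← X_pos hi ω, h _ (by omega) (by omega)]
      · simp only [k, v, if_neg hi]
        rw [← h (i + 1) (by omega) (by omega), ← X_neg (show i < 0 by omega) ω, h i h1 h2.le]
    · rintro ⟨h0, h⟩ i h1 h2
      rcases le_total 0 i with hi | hi
      · induction i, hi using Int.leInduction with
        | base => exact h0
        | succ i hi ih =>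
          have := h _ i (by omega) (by omega) rfl
          simp only [k, v, if_pos hi] at this
          rw [X_pos hi, ih (by omega) (by omega), this]
      · induction i, hi using Int.leInductionDown with
        | base => exact h0
        | pred i hi ih =>
          have := h _ (i - 1) (by omega) (by omega) rfl
          simp only [k, v, if_neg (show ¬ 0 ≤ i - 1 by omega), sub_add_cancel] at this
          rw [X_neg (by omega), sub_add_cancel, ih (by omega) (by omega), this]
  rw [e, mu, Measure.infinitePi_pi _ fun _ _ => MeasurableSet.singleton _,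
    Finset.prod_insert (by simp [k]), Finset.prod_image kinj.injOn]
  have e1 : ∀ i, nu π P Q (k i) {v (k i)}
      = if 0 ≤ i then P (x i) (x (i + 1)) else Q (x (i + 1)) (x i) := fun i => by
    simp only [k, v, nu]
    split_ifs <;> exact PMF.toMeasure_apply_singleton _ _ (MeasurableSet.singleton _)
  have e2 : nu π P Q none {v none} = π (x 0) :=
    PMF.toMeasure_apply_singleton _ _ (MeasurableSet.singleton _)
  simp only [e1, e2, wt]
  clear e
  induction a, ha using Int.leInductionDown with
  | base =>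
    congr 1
    exact Finset.prod_congr rfl fun i hi => if_pos (Finset.mem_Ico.1 hi).1
  | pred a ha ih =>
    have s : Finset.Ico (a - 1) b = insert (a - 1) (Finset.Ico a b) := by
      ext; simp only [Finset.mem_Ico, Finset.mem_insert]; omega
    rw [s, Finset.prod_insert (by simp), Finset.prod_insert (by simp), if_neg (by omega),
      sub_add_cancel, mul_left_comm, ih, ← mul_assoc, mul_comm (Q _ _), hQ, mul_assoc]

lemma split (μ : Measure (Om T)) (s : Set (Om T)) (hs : MeasurableSet s) (i : ℤ) (B : Set T) :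
    μ (s ∩ X i ⁻¹' B) = ∑' y, B.indicator (fun y => μ (s ∩ X i ⁻¹' {y})) y := by
  classical
  have : s ∩ X i ⁻¹' B = ⋃ y : B, s ∩ X i ⁻¹' {y.1} := by ext; simp
  rw [this, measure_iUnion, ← tsum_subtype]
  · intro y z h
    refine Set.disjoint_left.2 fun ω h1 h2 => h (Subtype.ext ?_)
    exact (h1.2 : X i ω = y.1).symm.trans h2.2
  · exact fun y => hs.inter (meas_X i (MeasurableSet.singleton _))

omit [Countable T] [MeasurableSpace T] [DiscreteMeasurableSpace T] in
lemma cyl_right {a b : ℤ} (h : a ≤ b) (x : ℤ → T) (y : T) :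
    Cyl a b x ∩ X (b + 1) ⁻¹' {y} = Cyl a (b + 1) (Function.update x (b + 1) y) := by
  ext ω
  simp only [Cyl, Finset.mem_Icc, Set.mem_inter_iff, Set.mem_ofPred_eq, Set.mem_preimage,
    Set.mem_singleton_iff, and_imp]
  constructor
  · rintro ⟨h1, h2⟩ i l1 l2
    rcases l2.eq_or_lt with rfl | l
    · simpa using h2
    · rw [Function.update_of_ne l.ne, h1 i l1 (by omega)]
  · intro h1
    refine ⟨fun i l1 l2 => ?_, by simpa using h1 (b + 1) (by omega) le_rfl⟩
    rw [h1 i l1 (by omega), Function.update_of_ne (by omega)]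

omit [Countable T] [MeasurableSpace T] [DiscreteMeasurableSpace T] in
lemma cyl_left {a b : ℤ} (h : a + 1 ≤ b) (x : ℤ → T) (y : T) :
    Cyl (a + 1) b x ∩ X a ⁻¹' {y} = Cyl a b (Function.update x a y) := by
  ext ω
  simp only [Cyl, Finset.mem_Icc, Set.mem_inter_iff, Set.mem_ofPred_eq, Set.mem_preimage,
    Set.mem_singleton_iff, and_imp]
  constructor
  · rintro ⟨h1, h2⟩ i l1 l2
    rcases l1.eq_or_lt with rfl | l
    · simpa using h2
    · rw [Function.update_of_ne l.ne', h1 i (by omega) l2]
  · intro h1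
    refine ⟨fun i l1 l2 => ?_, by simpa using h1 a le_rfl (by omega)⟩
    rw [h1 i (by omega) l2, Function.update_of_ne (by omega)]

omit [Countable T] [MeasurableSpace T] [DiscreteMeasurableSpace T] in
lemma wt_right (π : PMF T) (P : T → PMF T) {a b : ℤ} (h : a ≤ b) (x : ℤ → T) (y : T) :
    wt π P a (b + 1) (Function.update x (b + 1) y) = wt π P a b x * P (x b) y := by
  have s : Finset.Ico a (b + 1) = insert b (Finset.Ico a b) := by
    ext; simp only [Finset.mem_Ico, Finset.mem_insert]; omega
  rw [wt, wt, s, Finset.prod_insert (by simp), Function.update_of_ne (by omega),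
    Function.update_of_ne (by omega), Function.update_self, mul_assoc, mul_comm (P _ _)]
  congr 2
  refine Finset.prod_congr rfl fun i hi => ?_
  have := Finset.mem_Ico.1 hi
  rw [Function.update_of_ne (by omega), Function.update_of_ne (by omega)]

omit [Countable T] [MeasurableSpace T] [DiscreteMeasurableSpace T] in
lemma wt_left (π : PMF T) (P : T → PMF T) {a b : ℤ} (h : a + 1 ≤ b) (x : ℤ → T) (y : T) :
    wt π P a b (Function.update x a y)
      = π y * P y (x (a + 1)) * ∏ i ∈ Finset.Ico (a + 1) b, P (x i) (x (i + 1)) := by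
  have s : Finset.Ico a b = insert a (Finset.Ico (a + 1) b) := by
    ext; simp only [Finset.mem_Ico, Finset.mem_insert]; omega
  rw [wt, s, Finset.prod_insert (by simp), Function.update_self,
    Function.update_of_ne (by omega), mul_assoc]
  congr 2
  refine Finset.prod_congr rfl fun i hi => ?_
  have := Finset.mem_Ico.1 hi
  rw [Function.update_of_ne (by omega), Function.update_of_ne (by omega)]

lemma cyl {π : PMF T} {P Q : T → PMF T} (hQ : ∀ x y, π y * Q y x = π x * P x y)
    (hπ : ∀ y, ∑' x, π x * P x y = π y) {a b : ℤ} (hab : a ≤ b) (x : ℤ → T) :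
    mu π P Q (Cyl a b x) = wt π P a b x := by
  have h1 : ∀ b, 0 ≤ b → ∀ a, a ≤ b → ∀ x, mu π P Q (Cyl a b x) = wt π P a b x := by
    intro b hb a hab
    rcases le_total a 0 with ha | ha
    · exact base hQ ha hb
    induction a, ha using Int.leInduction with
    | base => exact base hQ le_rfl hb
    | succ a ha ih =>
      intro x
      have := split (mu π P Q) _ (meas_Cyl (a + 1) b x) a Set.univ
      simp only [Set.preimage_univ, Set.inter_univ, Set.indicator_univ, cyl_left hab,
        ih (by omega), wt_left π P hab] at this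
      rw [this, ENNReal.tsum_mul_right, hπ, wt]
  rcases le_total 0 b with hb | hb
  · exact h1 b hb a hab x
  induction b, hb using Int.leInductionDown generalizing x with
  | base => exact h1 0 le_rfl a hab x
  | pred b hb ih =>
    have := split (mu π P Q) _ (meas_Cyl a (b - 1) x) (b - 1 + 1) Set.univ
    simp only [Set.preimage_univ, Set.inter_univ, Set.indicator_univ, cyl_right hab] at this
    rw [this]
    have e : ∀ y, mu π P Q (Cyl a (b - 1 + 1) (Function.update x (b - 1 + 1) y))
        = wt π P a (b - 1) x * P (x (b - 1)) y := fun y => by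
      rw [← wt_right π P hab, sub_add_cancel, ih (by omega)]
    simp only [e]
    rw [ENNReal.tsum_mul_left, PMF.tsum_coe, mul_one]

lemma stat {π : PMF T} {P Q : T → PMF T} (hQ : ∀ x y, π y * Q y x = π x * P x y)
    (hπ : ∀ y, ∑' x, π x * P x y = π y) (n : ℤ) :
    (mu π P Q).map (fun ω (i : ℤ) => X (i + n) ω) = (mu π P Q).map (fun ω (i : ℤ) => X i ω) := by
  classical
  rw [map_eq_iff_forall_finset_map_restrict_eq (X := fun i ω => X (i + n) ω) (Y := fun i ω => X i ω)
    (measurable_pi_lambda _ fun i => meas_X _).aemeasurable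
    (measurable_pi_lambda _ fun i => meas_X _).aemeasurable]
  intro I
  obtain ⟨a, ha⟩ := I.bddBelow
  obtain ⟨b, hb⟩ := (insert a I).bddAbove
  have hab : a ≤ b := hb (by simp)
  have hI : I ⊆ Finset.Icc a b := fun i hi =>
    Finset.mem_Icc.2 ⟨ha hi, hb (by simp [hi])⟩
  have hm : ∀ n : ℤ, Measurable fun ω : Om T => (Finset.Icc a b).restrict fun i => X (i + n) ω :=
    fun n => measurable_pi_lambda _ fun i => meas_X _
  have key : ∀ n : ℤ, ∀ z : (Finset.Icc a b → T), (mu π P Q).map
      (fun ω => (Finset.Icc a b).restrict fun i => X (i + n) ω) {z}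
        = wt π P a b fun i => if h : i ∈ Finset.Icc a b then z ⟨i, h⟩ else z ⟨a, by simpa⟩ := by
    intro n z
    obtain ⟨x, hx⟩ : ∃ x : ℤ → T, x = fun i =>
      if h : i ∈ Finset.Icc a b then z ⟨i, h⟩ else z ⟨a, by simpa⟩ := ⟨_, rfl⟩
    rw [← hx, Measure.map_apply (hm n) (MeasurableSet.singleton _)]
    have : (fun ω => (Finset.Icc a b).restrict fun i => X (i + n) ω) ⁻¹' {z}
        = Cyl (a + n) (b + n) fun i => x (i - n) := by
      ext ω
      simp only [Set.mem_preimage, Set.mem_singleton_iff, Cyl, Set.mem_ofPred_eq, funext_iff,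
        Finset.restrict, Subtype.forall]
      constructor
      · intro h i hi
        have hi' : i - n ∈ Finset.Icc a b := by
          simp only [Finset.mem_Icc] at hi ⊢; omega
        have := h _ hi'
        rw [sub_add_cancel] at this
        rw [this, hx]; simp only [dif_pos hi']
      · intro h i hi
        rw [h (i + n) (by simp only [Finset.mem_Icc] at hi ⊢; omega), add_sub_cancel_right, hx]
        simp only [dif_pos hi]
    rw [this, cyl hQ hπ (by omega), wt, wt, add_sub_cancel_right,
      ← Finset.image_add_right_Ico, Finset.prod_image (add_left_injective n).injOn]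
    congr 1
    refine Finset.prod_congr rfl fun i _ => ?_
    rw [add_sub_cancel_right, show i + n + 1 - n = i + 1 by ring]
  have e : (mu π P Q).map (fun ω => (Finset.Icc a b).restrict fun i => X (i + n) ω)
      = (mu π P Q).map (fun ω => (Finset.Icc a b).restrict fun i => X (i + 0) ω) :=
    Measure.ext_of_singleton fun z => by rw [key, key]
  have e2 := congrArg (Measure.map (Finset.restrict₂ (π := fun _ => T) hI)) e
  have hr : Measurable (Finset.restrict₂ (π := fun _ => T) hI) :=
    Finset.measurable_restrict₂ (X := fun _ => T) hI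
  rw [Measure.map_map hr (hm n), Measure.map_map hr (hm 0)] at e2
  simpa [Function.comp_def, Finset.restrict₂_def, Finset.restrict_def] using e2

abbrev past (T : Type) [MeasurableSpace T] (n : ℤ) : MeasurableSpace (Om T) :=
  ⨆ (m : ℤ) (_ : m ≤ n), MeasurableSpace.comap (X m : Om T → T) inferInstance

lemma past_le (n : ℤ) : past T n ≤ MeasurableSpace.pi :=
  iSup₂_le fun m _ => (meas_X m).comap_le

lemma past_gen (n : ℤ) :
    past T n = MeasurableSpace.generateFrom {s | ∃ a ≤ n, ∃ x, s = Cyl a n x} := by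
  classical
  apply le_antisymm
  · refine iSup₂_le fun m hm => ?_
    rintro _ ⟨B, -, rfl⟩
    have : (X m ⁻¹' B : Set (Om T)) = ⋃ z : {z : Finset.Icc m n → T // z ⟨m, by simpa⟩ ∈ B},
        Cyl m n fun i => if h : i ∈ Finset.Icc m n then z.1 ⟨i, h⟩ else z.1 ⟨m, by simpa⟩ := by
      ext ω
      simp only [Set.mem_preimage, Set.mem_iUnion, Cyl, Set.mem_ofPred_eq]
      constructor
      · exact fun h => ⟨⟨fun i => X i ω, h⟩, fun i hi => by simp only [dif_pos hi]⟩
      · rintro ⟨z, h⟩
        have hm' : m ∈ Finset.Icc m n := by simpa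
        rw [h m hm', dif_pos hm']
        exact z.2
    rw [this]
    exact MeasurableSet.iUnion fun z => MeasurableSpace.measurableSet_generateFrom ⟨m, hm, _, rfl⟩
  · refine MeasurableSpace.generateFrom_le ?_
    rintro _ ⟨a, -, x, rfl⟩
    have : Cyl a n x = ⋂ i ∈ Finset.Icc a n, X i ⁻¹' {x i} := by ext; simp [Cyl]
    rw [this]
    refine Finset.measurableSet_biInter _ fun i hi => ?_
    exact le_iSup₂ (f := fun (m : ℤ) (_ : m ≤ n) =>
      MeasurableSpace.comap (X m : Om T → T) inferInstance) i (Finset.mem_Icc.1 hi).2 _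
        ⟨{x i}, MeasurableSet.singleton _, rfl⟩

omit [Countable T] [MeasurableSpace T] [DiscreteMeasurableSpace T] in
lemma pisys (n : ℤ) : IsPiSystem {s : Set (Om T) | ∃ a ≤ n, ∃ x, s = Cyl a n x} := by
  have : ∀ a a' : ℤ, ∀ x x' : ℤ → T, a ≤ a' → (Cyl a n x ∩ Cyl a' n x').Nonempty →
      Cyl a n x ∩ Cyl a' n x' = Cyl a n x := by
    rintro a a' x x' h ⟨ω, h1, h2⟩
    refine Set.inter_eq_left.2 fun ω' h3 i hi => ?_
    have hi' : i ∈ Finset.Icc a n := by simp only [Finset.mem_Icc] at hi ⊢; omega
    rw [h3 i hi', ← h1 i hi', h2 i hi]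
  rintro _ ⟨a, ha, x, rfl⟩ _ ⟨a', ha', x', rfl⟩ hne
  rcases le_total a a' with h | h
  · exact ⟨a, ha, x, this a a' x x' h hne⟩
  · rw [Set.inter_comm] at hne ⊢
    exact ⟨a', ha', x', this a' a x' x h hne⟩

lemma markov {π : PMF T} {P Q : T → PMF T} (hQ : ∀ x y, π y * Q y x = π x * P x y)
    (hπ : ∀ y, ∑' x, π x * P x y = π y) (n : ℤ) (B : Set T) :
    condExp (past T n) (mu π P Q) (Set.indicator (X (n + 1) ⁻¹' B) fun _ => (1 : ℝ))
      =ᵐ[mu π P Q] condExp (MeasurableSpace.comap (X n) inferInstance) (mu π P Q)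
        (Set.indicator (X (n + 1) ⁻¹' B) fun _ => (1 : ℝ)) := by
  obtain ⟨μ, hμ⟩ : ∃ μ, μ = mu π P Q := ⟨_, rfl⟩
  have : IsProbabilityMeasure μ := by rw [hμ]; infer_instance
  rw [← hμ]
  let G : T → ℝ := fun x => (P x).toMeasure.real B
  have hB : MeasurableSet (X (n + 1) ⁻¹' B : Set (Om T)) := meas_X _ .of_discrete
  have hf : Integrable (Set.indicator (X (n + 1) ⁻¹' B : Set (Om T)) fun _ => (1 : ℝ)) μ :=
    (integrable_const _).indicator hB
  have hle : MeasurableSpace.comap (X n : Om T → T) inferInstance ≤ past T n :=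
    le_iSup₂ (f := fun (m : ℤ) (_ : m ≤ n) =>
      MeasurableSpace.comap (X m : Om T → T) inferInstance) n le_rfl
  have hg0 : StronglyMeasurable[MeasurableSpace.comap (X n : Om T → T) inferInstance]
      fun ω => G (X n ω) :=
    ((Measurable.of_discrete (f := G)).comp (comap_measurable (X n))).stronglyMeasurable
  have hg : Integrable (fun ω => G (X n ω)) μ :=
    Integrable.of_bound ((hg0.mono (meas_X n).comap_le).aestronglyMeasurable) 1
      (.of_forall fun ω => by
        rw [Real.norm_of_nonneg measureReal_nonneg]; exact measureReal_le_one)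
  have tot : ∀ s, MeasurableSet[past T n] s → ∫ ω in s, G (X n ω) ∂μ
      = ∫ ω in s, Set.indicator (X (n + 1) ⁻¹' B : Set (Om T)) (fun _ => (1 : ℝ)) ω ∂μ := by
    have cy : ∀ a ≤ n, ∀ x, ∫ ω in Cyl a n x, G (X n ω) ∂μ = ∫ ω in Cyl a n x,
        Set.indicator (X (n + 1) ⁻¹' B : Set (Om T)) (fun _ => (1 : ℝ)) ω ∂μ := by
      intro a ha x
      rw [setIntegral_congr_fun (meas_Cyl a n x) (g := fun _ => G (x n))
        fun ω h => by simp only [h n (by simpa)], setIntegral_indicator hB]
      simp only [integral_const, MeasurableSet.univ, measureReal_restrict_apply, Set.univ_inter,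
        smul_eq_mul, mul_one, G]
      rw [measureReal_def, measureReal_def, measureReal_def, ← ENNReal.toReal_mul,
        split μ _ (meas_Cyl a n x), PMF.toMeasure_apply _ .of_discrete, ← ENNReal.tsum_mul_left]
      congr 1
      refine tsum_congr fun y => ?_
      by_cases hy : y ∈ B
      · simp only [Set.indicator_of_mem hy, cyl_right ha, hμ]
        rw [cyl hQ hπ ha, cyl hQ hπ (by omega), wt_right π P ha]
      · simp [hy]
    have un : ∀ f : ℕ → Set (Om T), Pairwise (Function.onFun Disjoint f) →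
        (∀ i, MeasurableSet (f i)) → (∀ i, ∫ ω in f i, G (X n ω) ∂μ = ∫ ω in f i,
        Set.indicator (X (n + 1) ⁻¹' B : Set (Om T)) (fun _ => (1 : ℝ)) ω ∂μ) →
        ∫ ω in ⋃ i, f i, G (X n ω) ∂μ = ∫ ω in ⋃ i, f i,
        Set.indicator (X (n + 1) ⁻¹' B : Set (Om T)) (fun _ => (1 : ℝ)) ω ∂μ := by
      intro f hd hm h
      rw [integral_iUnion hm hd hg.integrableOn, integral_iUnion hm hd hf.integrableOn]
      exact tsum_congr h
    have whole : ∫ ω, G (X n ω) ∂μ = ∫ ω,
        Set.indicator (X (n + 1) ⁻¹' B : Set (Om T)) (fun _ => (1 : ℝ)) ω ∂μ := by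
      have e : (Set.univ : Set (Om T)) = ⋃ y : T, Cyl n n fun _ => y := by ext; simp [Cyl]
      have hd : Pairwise (Function.onFun Disjoint fun y : T => Cyl n n fun _ => y) :=
        fun y z h => Set.disjoint_left.2 fun ω h1 h2 =>
          h ((h1 n (by simp)).symm.trans (h2 n (by simp)))
      rw [← setIntegral_univ, ← setIntegral_univ (μ := μ), e,
        integral_iUnion (fun _ => meas_Cyl _ _ _) hd hg.integrableOn,
        integral_iUnion (fun _ => meas_Cyl _ _ _) hd hf.integrableOn]
      exact tsum_congr fun y => cy n le_rfl _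
    refine @MeasurableSpace.induction_on_inter _ (past T n) (fun s _ => ∫ ω in s, G (X n ω) ∂μ
      = ∫ ω in s, Set.indicator (X (n + 1) ⁻¹' B : Set (Om T)) (fun _ => (1 : ℝ)) ω ∂μ) _
      (past_gen n) (pisys n) (by simp) ?_ (fun s hs ih => ?_)
      fun f hd hm ih => un f hd (fun i => past_le n _ (hm i)) ih
    · rintro _ ⟨a, ha, x, rfl⟩
      exact cy a ha x
    · have h1 := integral_add_compl (past_le n s hs) hg
      have h2 := integral_add_compl (past_le n s hs) hf
      linarith
  have e1 := ae_eq_condExp_of_forall_setIntegral_eq (past_le n) hf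
    (fun s _ _ => hg.integrableOn) (fun s hs _ => tot s hs) (hg0.mono hle).aestronglyMeasurable
  have e2 := ae_eq_condExp_of_forall_setIntegral_eq (meas_X n).comap_le hf
    (fun s _ _ => hg.integrableOn) (fun s hs _ => tot s (hle s hs)) hg0.aestronglyMeasurable
  exact e1.symm.trans e2

lemma two {π : PMF T} {P Q : T → PMF T} (hQ : ∀ x y, π y * Q y x = π x * P x y)
    (hπ : ∀ y, ∑' x, π x * P x y = π y) (h2 : ∀ x z, ∑' y, P x y * P y z = π z) :
    IndepFun (X 0) (X 2) (mu π P Q) := by
  have one : ∀ i y, mu π P Q (X i ⁻¹' {y}) = π y := fun i y => by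
    have := cyl hQ hπ (le_refl i) fun _ => y
    rw [wt] at this
    simp only [Finset.Ico_self, Finset.prod_empty, mul_one] at this
    rw [← this]; congr 1; ext; simp [Cyl]
  rw [indepFun_iff_map_prod_eq_prod_map_map (meas_X 0).aemeasurable (meas_X 2).aemeasurable]
  refine Measure.ext_of_singleton ?_
  rintro ⟨x, z⟩
  rw [← Set.singleton_prod_singleton, Measure.prod_prod,
    Measure.map_apply ((meas_X 0).prodMk (meas_X 2)) .of_discrete,
    Measure.map_apply (meas_X 0) .of_discrete, Measure.map_apply (meas_X 2) .of_discrete, one, one,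
    Set.mk_preimage_prod]
  have := split (mu π P Q) _ ((meas_X 0 (.singleton x)).inter (meas_X 2 (.singleton z))) 1 Set.univ
  simp only [Set.preimage_univ, Set.inter_univ, Set.indicator_univ] at this
  rw [this, ← h2 x z, ← ENNReal.tsum_mul_left]
  refine tsum_congr fun y => ?_
  have e := cyl hQ hπ (show (0 : ℤ) ≤ 2 by norm_num)
    fun i => if i = 0 then x else if i = 1 then y else z
  rw [wt, show Finset.Ico (0 : ℤ) 2 = {0, 1} by decide, Finset.prod_pair (by norm_num)] at e
  norm_num at e
  rw [← e]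
  congr 1
  ext ω
  simp only [Cyl, show Finset.Icc (0 : ℤ) 2 = {0, 1, 2} by decide]
  simp
  tauto

lemma proper {π : PMF T} {P Q : T → PMF T} (hQ : ∀ x y, π y * Q y x = π x * P x y)
    (hπ : ∀ y, ∑' x, π x * P x y = π y) : ∀ᵐ ω ∂(mu π P Q), P (X 0 ω) (X 1 ω) ≠ 0 := by
  rw [ae_iff]
  have : {ω : Om T | ¬ P (X 0 ω) (X 1 ω) ≠ 0} = ⋃ p : {p : T × T // P p.1 p.2 = 0},
      Cyl 0 1 fun i => if i = 0 then p.1.1 else p.1.2 := by
    ext ω
    simp only [Cyl, show Finset.Icc (0 : ℤ) 1 = {0, 1} by decide]
    simp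
  rw [this, measure_iUnion_null_iff]
  intro p
  rw [cyl hQ hπ (by norm_num), wt, show Finset.Ico (0 : ℤ) 1 = {0} by decide]
  simp [p.2]

omit [MeasurableSpace T] [DiscreteMeasurableSpace T] in
theorem chain (π : PMF T) (P : T → PMF T) (h2 : ∀ x z, ∑' y, P x y * P y z = π z) (q : ℕ)
    (c : T → ℕ) (hq : ∀ x, c x ≤ q) (hc : ∀ x y, c x = c y → P x y = 0) :
    ∃ (S : Type) (_ : MetricSpace S) (_ : CompactSpace S) (_ : MeasurableSpace S)
      (_ : BorelSpace S) (Ω : Type) (_ : MeasurableSpace Ω) (μ : MeasureTheory.Measure Ω)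
      (X : ℤ → Ω → S) (k : ℤ) (ε : ℝ),
      MeasureTheory.IsProbabilityMeasure μ ∧
      (∀ i, Measurable (X i)) ∧
      (∀ n : ℤ, μ.map (fun ω (i : ℤ) => X (i + n) ω) = μ.map (fun ω (i : ℤ) => X i ω)) ∧
      (∀ (n : ℤ) (A : Set S), MeasurableSet A →
        MeasureTheory.condExp (⨆ (m : ℤ) (_ : m ≤ n), MeasurableSpace.comap (X m) inferInstance) μ
          (Set.indicator (X (n + 1) ⁻¹' A) (fun _ => (1 : ℝ)))
        =ᵐ[μ] MeasureTheory.condExp (MeasurableSpace.comap (X n) inferInstance) μ
          (Set.indicator (X (n + 1) ⁻¹' A) (fun _ => (1 : ℝ)))) ∧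
      0 < k ∧ 0 < ε ∧
      ProbabilityTheory.IndepFun (X 0) (X k) μ ∧
      ∀ᵐ ω ∂μ, ε ≤ dist (X 0 ω) (X 1 ω) := by
  classical
  let : MeasurableSpace T := ⊤
  have hπ : ∀ y, ∑' x, π x * P x y = π y := fun y => by
    obtain ⟨x0, -⟩ := π.support_nonempty
    simp only [← h2 x0, ← ENNReal.tsum_mul_right]
    rw [ENNReal.tsum_comm]
    simp only [mul_assoc, ENNReal.tsum_mul_left, h2]
    rw [ENNReal.tsum_mul_right, PMF.tsum_coe, one_mul]
  obtain ⟨Q, hQ⟩ : ∃ Q : T → PMF T, ∀ x y, π y * Q y x = π x * P x y := by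
    refine ⟨fun y => if h : π y = 0 then π else
      PMF.normalize (fun x => π x * P x y) (by rwa [hπ]) (by rw [hπ]; exact π.apply_ne_top y),
      fun x y => ?_⟩
    by_cases h : π y = 0
    · rw [h, zero_mul]
      exact (ENNReal.tsum_eq_zero.1 ((hπ y).trans h) x).symm
    · simp only [dif_neg h, PMF.normalize_apply, hπ]
      rw [mul_left_comm, ENNReal.mul_inv_cancel h (π.apply_ne_top y), mul_one]
  obtain ⟨enc, henc⟩ := exists_injective_nat T
  have b0 : ∀ x, (0 : ℝ) < 1 / (enc x + 1) := fun x => by positivity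
  have b1 : ∀ x, (1 : ℝ) / (enc x + 1) ≤ 1 := fun x => by
    rw [div_le_one (by positivity)]; simp
  let ι : T → Set.Icc (0 : ℝ) (2 * q + 1) := fun x => ⟨2 * c x + 1 / (enc x + 1), by positivity, by
    have : (c x : ℝ) ≤ q := by exact_mod_cast hq x
    linarith [b1 x]⟩
  have far : ∀ x y, c x ≠ c y → 1 ≤ dist (ι x) (ι y) := fun x y h => by
    rw [Subtype.dist_eq, Real.dist_eq, le_abs]
    have := b0 x; have := b0 y; have := b1 x; have := b1 y
    rcases lt_or_gt_of_ne h with h | h
    · have : (c x : ℝ) + 1 ≤ c y := by exact_mod_cast h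
      right; simp only [ι]; linarith
    · have : (c y : ℝ) + 1 ≤ c x := by exact_mod_cast h
      left; simp only [ι]; linarith
  have inj : Function.Injective ι := fun x y h => by
    have e : c x = c y := by
      by_contra hne
      have := far x y hne
      rw [h, dist_self] at this
      linarith
    have := congrArg Subtype.val h
    simp only [ι, e, add_right_inj, one_div, inv_inj, add_left_inj, Nat.cast_inj] at this
    exact henc this
  have mι : Measurable ι := measurable_from_top
  have com : ∀ m, MeasurableSpace.comap (fun ω : Om T => ι (X m ω)) inferInstance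
      = MeasurableSpace.comap (X m) inferInstance := fun m => by
    have : MeasurableSpace.comap ι inferInstance = ⊤ := by
      refine top_unique fun B _ => ⟨ι '' B, (Set.to_countable B).image ι |>.measurableSet, ?_⟩
      exact Set.preimage_image_eq B inj
    rw [show (fun ω : Om T => ι (X m ω)) = ι ∘ X m from rfl, ← MeasurableSpace.comap_comp, this]
  refine ⟨Set.Icc (0 : ℝ) (2 * q + 1), inferInstance, inferInstance, inferInstance, inferInstance,
    Om T, inferInstance, mu π P Q, fun i ω => ι (X i ω), 2, 1, inferInstance,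
    fun i => mι.comp (meas_X i), fun n => ?_, fun n A _ => ?_, two_pos, one_pos,
    (two hQ hπ h2).comp mι mι, ?_⟩
  · have hm : Measurable fun (x : ℤ → T) (i : ℤ) => ι (x i) :=
      measurable_pi_lambda _ fun i => mι.comp (measurable_pi_apply i)
    have := congrArg (Measure.map fun (x : ℤ → T) (i : ℤ) => ι (x i)) (stat hQ hπ n)
    rwa [Measure.map_map hm (measurable_pi_lambda _ fun i => meas_X (i + n)),
      Measure.map_map hm (measurable_pi_lambda _ fun i => meas_X i)] at this
  · simp only [com]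
    exact markov hQ hπ n (ι ⁻¹' A)
  · filter_upwards [proper hQ hπ] with ω h
    exact far _ _ fun e => h (hc _ _ e)

end Pool.Agent.Lib.helper1.MkZ
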