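import Mathlib

set_option autoImplicit false

open Real

namespace Pool.Agent.Lib.helper1.RotW

noncomputable def θ : ℝ := cos (π / 16)

lemma θ_pos : 0 < θ := cos_pos_of_mem_Ioo ⟨by linarith [pi_pos], by linarith [pi_pos]⟩

lemma θ_lt : θ < 1 := by
  rw [← cos_zero]
  exact cos_lt_cos_of_nonneg_of_le_pi le_rfl (by linarith [pi_pos]) (by positivity)

lemma cos_le (k : ℤ) (h1 : 1 ≤ k) (h2 : k ≤ 15) : |cos (k * (π / 16))| ≤ θ := by
  have a1 : (1 : ℝ) ≤ k := by exact_mod_cast h1
  have a2 : (k : ℝ) ≤ 15 := by exact_mod_cast h2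
  have p := pi_pos
  rw [abs_le]
  constructor
  · rw [θ, ← cos_pi_sub]
    exact cos_le_cos_of_nonneg_of_le_pi (by positivity) (by linarith) (by nlinarith)
  · exact cos_le_cos_of_nonneg_of_le_pi (by positivity) (by nlinarith) (by nlinarith)

noncomputable def ρ (k : ℤ) (a b : Fin 2) : ℝ :=
  !![cos (k * (π / 16)), -sin (k * (π / 16)); sin (k * (π / 16)), cos (k * (π / 16))] a b

def Gd (n : ℤ) : Prop := n ≠ 0 ∧ -7 ≤ n ∧ n ≤ 7

lemma ρ_mul (k l : ℤ) (a c : Fin 2) : ∑ b, ρ k a b * ρ l b c = ρ (k + l) a c := by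
  fin_cases a <;> fin_cases c <;> simp [ρ, add_mul, cos_add, sin_add] <;> ring

lemma ρ_neg (k : ℤ) (a b : Fin 2) : ρ (-k) a b = ρ k b a := by
  fin_cases a <;> fin_cases b <;> simp [ρ]

lemma ρ_zero (a b : Fin 2) : ρ 0 a b = if a = b then 1 else 0 := by
  fin_cases a <;> fin_cases b <;> simp [ρ]

lemma ρ_le1 (k : ℤ) (a b : Fin 2) : |ρ k a b| ≤ 1 := by
  fin_cases a <;> fin_cases b <;> simp [ρ, abs_cos_le_one, abs_sin_le_one]

lemma ρ_le {k : ℤ} (h : Gd k) (a b : Fin 2) : |ρ k a b| ≤ θ := by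
  obtain ⟨h0, h1, h2⟩ := h
  have c : |cos (k * (π / 16))| ≤ θ := by
    rcases lt_or_gt_of_ne h0 with h | h
    · have := cos_le (-k) (by omega) (by omega)
      rwa [Int.cast_neg, neg_mul, cos_neg] at this
    · exact cos_le k (by omega) (by omega)
  have s : |sin (k * (π / 16))| ≤ θ := by
    have := cos_le (8 - k) (by omega) (by omega)
    rwa [show ((8 - k : ℤ) : ℝ) * (π / 16) = π / 2 - k * (π / 16) by push_cast; ring,
      cos_pi_div_two_sub] at this
  fin_cases a <;> fin_cases b <;> simp [ρ, c, s]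

abbrev J (r : ℕ) : Type := Fin r → Fin 2
abbrev W (r : ℕ) : Type := List (J r)
abbrev Op (r : ℕ) : Type := Module.End ℝ (W r → ℝ)

variable {r : ℕ}

noncomputable def Rt (k : Fin r → ℤ) (a b : J r) : ℝ := ∏ i, ρ (k i) (a i) (b i)

lemma Rt_mul (k l : Fin r → ℤ) (a c : J r) : ∑ b, Rt k a b * Rt l b c = Rt (k + l) a c := by
  simp only [Rt, ← Finset.prod_mul_distrib, Pi.add_apply, ← ρ_mul]
  rw [Finset.prod_univ_sum, Fintype.piFinset_univ]

lemma Rt_neg (k : Fin r → ℤ) (a b : J r) : Rt (-k) a b = Rt k b a := by simp [Rt, ρ_neg]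

lemma Rt_zero (a b : J r) : Rt 0 a b = if a = b then 1 else 0 := by
  simp only [Rt, Pi.zero_apply, ρ_zero, Finset.prod_ite_zero, Finset.mem_univ, forall_const,
    Finset.prod_const_one, funext_iff]

lemma Rt_le {k : Fin r → ℤ} (h : ∃ i, Gd (k i)) (a b : J r) : |Rt k a b| ≤ θ := by
  obtain ⟨i, hi⟩ := h
  rw [Rt, Finset.abs_prod, ← Finset.mul_prod_erase _ _ (Finset.mem_univ i)]
  have : ∏ x ∈ Finset.univ.erase i, |ρ (k x) (a x) (b x)| ≤ 1 :=
    Finset.prod_le_one (fun _ _ => abs_nonneg _) fun _ _ => ρ_le1 _ _ _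
  exact (mul_le_of_le_one_right (abs_nonneg _) this).trans (ρ_le hi _ _)

lemma Rt_le' {k : Fin r → ℤ} (h : ∀ i, Gd (k i)) (a b : J r) : |Rt k a b| ≤ θ ^ r := by
  rw [Rt, Finset.abs_prod]
  refine (Finset.prod_le_prod (fun _ _ => abs_nonneg _) fun i _ => ρ_le (h i) _ _).trans ?_
  simp

noncomputable def Tf (k : Fin r → ℤ) : W r → (W r → ℝ) →ₗ[ℝ] ℝ
  | [] => LinearMap.proj []
  | a :: s => ∑ b, Rt k a b • (Tf k s ∘ₗ LinearMap.funLeft ℝ ℝ (List.cons b))

noncomputable def T (k : Fin r → ℤ) : Op r := LinearMap.pi (Tf k)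

@[simp] lemma T_nil (k : Fin r → ℤ) (f : W r → ℝ) : T k f [] = f [] := rfl

lemma T_cons (k : Fin r → ℤ) (f : W r → ℝ) (a : J r) (s : W r) :
    T k f (a :: s) = ∑ b, Rt k a b * T k (fun t => f (b :: t)) s := by
  simp only [T, LinearMap.pi_apply, Tf, LinearMap.sum_apply, LinearMap.smul_apply, smul_eq_mul]
  rfl

lemma lin (O : Op r) (x : J r → ℝ) (g : J r → W r → ℝ) (s : W r) :
    O (fun t => ∑ c, x c * g c t) s = ∑ c, x c * O (g c) s := by
  have : (fun t => ∑ c, x c * g c t) = ∑ c, x c • g c := by ext; simp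
  rw [this, map_sum]; simp

lemma lin1 (O : Op r) (x : ℝ) (g : W r → ℝ) (s : W r) : O (fun t => x * g t) s = x * O g s := by
  have : (fun t => x * g t) = x • g := rfl
  rw [this, map_smul]; rfl

noncomputable def μ (r : ℕ) : ℝ := (Fintype.card (J r) : ℝ)⁻¹
noncomputable def α (r : ℕ) : ℝ := √(μ r)

lemma μ_pos : 0 < μ r := by unfold μ; positivity
lemma α_pos : 0 < α r := sqrt_pos.2 μ_pos
lemma α_sq : α r * α r = μ r := mul_self_sqrt μ_pos.le
lemma card_μ : (Fintype.card (J r) : ℝ) * μ r = 1 := mul_inv_cancel₀ (by positivity)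

noncomputable def C (l : Fin r → ℤ) (j : J r) : Op r where
  toFun f s := match s with
    | [] => 0
    | a :: s => α r * Rt l a j * f s
  map_add' f g := by ext s; cases s <;> simp [mul_add]
  map_smul' c f := by ext s; cases s <;> simp [mul_left_comm]

noncomputable def D (l : Fin r → ℤ) (j : J r) : Op r where
  toFun f t := ∑ a, α r * Rt l a j * f (a :: t)
  map_add' f g := by ext s; simp [mul_add, Finset.sum_add_distrib]
  map_smul' c f := by ext s; simp [Finset.mul_sum, mul_left_comm]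

noncomputable def X (r : ℕ) : Op r where
  toFun f s := μ r ^ s.length * f s
  map_add' f g := by ext s; simp [mul_add]
  map_smul' c f := by ext s; simp [mul_left_comm]

noncomputable def E (r : ℕ) : Op r where
  toFun f s := match s with
    | [] => f []
    | _ :: _ => 0
  map_add' f g := by ext s; cases s <;> simp
  map_smul' c f := by ext s; cases s <;> simp

@[simp] lemma C_nil (l : Fin r → ℤ) (j : J r) (f : W r → ℝ) : C l j f [] = 0 := rfl
@[simp] lemma C_cons (l : Fin r → ℤ) (j : J r) (f : W r → ℝ) (a : J r) (s : W r) :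
    C l j f (a :: s) = α r * Rt l a j * f s := rfl
lemma D_app (l : Fin r → ℤ) (j : J r) (f : W r → ℝ) (t : W r) :
    D l j f t = ∑ a, α r * Rt l a j * f (a :: t) := rfl
lemma X_app (f : W r → ℝ) (s : W r) : X r f s = μ r ^ s.length * f s := rfl
@[simp] lemma E_nil (f : W r → ℝ) : E r f [] = f [] := rfl
@[simp] lemma E_cons (f : W r → ℝ) (a : J r) (s : W r) : E r f (a :: s) = 0 := rfl

lemma opext {O O' : Op r} (h : ∀ s f, O f s = O' f s) : O = O' :=
  LinearMap.ext fun f => funext fun s => h s f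

lemma TT (k l : Fin r → ℤ) : T k * T l = T (k + l) := by
  refine opext fun s => ?_
  induction s with
  | nil => intro f; rfl
  | cons a s ih =>
    intro f
    simp only [Module.End.mul_apply] at ih ⊢
    simp only [T_cons, lin, Finset.mul_sum, ← Rt_mul, Finset.sum_mul]
    rw [Finset.sum_comm]
    refine Finset.sum_congr rfl fun c _ => Finset.sum_congr rfl fun b _ => ?_
    rw [← ih, mul_assoc]

lemma T0 : T (0 : Fin r → ℤ) = 1 := by
  refine opext fun s => ?_
  induction s with
  | nil => intro f; rfl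
  | cons a s ih => intro f; simp [T_cons, Rt_zero, ih]

lemma TC (k l : Fin r → ℤ) (j : J r) : T k * C l j = C (k + l) j * T k := by
  refine opext fun s f => ?_
  cases s with
  | nil => rfl
  | cons a s =>
    simp only [Module.End.mul_apply, T_cons, C_cons, lin1, ← Rt_mul, Finset.mul_sum,
      Finset.sum_mul]
    exact Finset.sum_congr rfl fun b _ => by ring

lemma DT (k l : Fin r → ℤ) (j : J r) : D l j * T k = T k * D (-k + l) j := by
  refine opext fun s f => ?_
  simp only [Module.End.mul_apply, D_app, T_cons]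
  rw [show D (-k + l) j f = fun t => ∑ a, α r * Rt (-k + l) a j * f (a :: t) from rfl, lin]
  simp only [← Rt_mul, Finset.mul_sum, Finset.sum_mul, Rt_neg]
  rw [Finset.sum_comm]
  exact Finset.sum_congr rfl fun b _ => Finset.sum_congr rfl fun a _ => by ring

lemma XT (k : Fin r → ℤ) : X r * T k = T k * X r := by
  refine opext fun s => ?_
  induction s with
  | nil => intro f; simp [X_app]
  | cons a s ih =>
    intro f
    simp only [Module.End.mul_apply, X_app] at ih ⊢
    simp only [T_cons, Finset.mul_sum, X_app, List.length_cons, pow_succ']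
    refine Finset.sum_congr rfl fun b _ => ?_
    have := ih fun t => f (b :: t)
    simp only [mul_assoc, lin1]
    rw [show (fun t => μ r ^ t.length * f (b :: t)) = X r fun t => f (b :: t) from rfl, ← this]
    ring

lemma DX (l : Fin r → ℤ) (j : J r) : D l j * X r = μ r • (X r * D l j) := by
  refine opext fun s f => ?_
  simp only [Module.End.mul_apply, D_app, X_app, LinearMap.smul_apply, Pi.smul_apply,
    smul_eq_mul, Finset.mul_sum, List.length_cons, pow_succ']
  exact Finset.sum_congr rfl fun b _ => by ring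

lemma TE (k : Fin r → ℤ) : T k * E r = E r := by
  refine opext fun s f => ?_
  cases s with
  | nil => rfl
  | cons a s =>
    simp only [Module.End.mul_apply, T_cons, E_cons]
    rw [show (fun _ : W r => (0 : ℝ)) = 0 from rfl, map_zero]; simp

lemma ET (k : Fin r → ℤ) : E r * T k = E r := opext fun s f => by cases s <;> rfl
lemma XE : X r * E r = E r := opext fun s f => by cases s <;> simp [X_app]
lemma EX : E r * X r = E r := opext fun s f => by cases s <;> simp [X_app]
lemma EE : E r * E r = E r := opext fun s f => by cases s <;> rfl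
lemma EC (l : Fin r → ℤ) (j : J r) : E r * C l j = 0 := opext fun s f => by cases s <;> rfl
lemma DE (l : Fin r → ℤ) (j : J r) : D l j * E r = 0 := opext fun s f => by simp [D_app]

lemma DC (l : Fin r → ℤ) (j j' : J r) : D l j * C l j' = if j = j' then μ r • 1 else 0 := by
  refine opext fun s f => ?_
  have := Rt_mul (-l) l j j'
  simp only [Rt_neg, neg_add_cancel, Rt_zero] at this
  have e : (D l j * C l j') f s = μ r * (∑ b, Rt l b j * Rt l b j') * f s := by
    simp only [Module.End.mul_apply, D_app, C_cons, Finset.mul_sum, Finset.sum_mul, ← α_sq]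
    exact Finset.sum_congr rfl fun b _ => by ring
  rw [e, this]
  split_ifs <;> simp

lemma CXD (l : Fin r → ℤ) : ∑ j, C l j * (X r * D l j) = X r - E r := by
  refine opext fun s f => ?_
  cases s with
  | nil => simp [LinearMap.sum_apply, X_app]
  | cons a s =>
    have e : ∀ b, ∑ j, Rt l a j * Rt l b j = if a = b then 1 else 0 := fun b => by
      have := Rt_mul l (-l) a b
      simpa only [Rt_neg, add_neg_cancel, Rt_zero] using this
    simp only [LinearMap.sum_apply, Finset.sum_apply, Module.End.mul_apply, C_cons, X_app, D_app,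
      Finset.mul_sum, LinearMap.sub_apply, Pi.sub_apply, E_cons, sub_zero]
    rw [Finset.sum_comm]
    have : ∀ b, ∑ j, α r * Rt l a j * (μ r ^ s.length * (α r * Rt l b j * f (b :: s)))
        = (if a = b then 1 else 0) * (μ r ^ (s.length + 1) * f (b :: s)) := fun b => by
      rw [← e, Finset.sum_mul, pow_succ, ← α_sq]
      exact Finset.sum_congr rfl fun j _ => by ring
    simp [this]

/-! Entry bounds -/

noncomputable def η (r : ℕ) : ℝ := α r * √θ
noncomputable def τ (r : ℕ) : ℝ := θ ^ r / √θ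

lemma η_pos : 0 < η r := mul_pos α_pos (sqrt_pos.2 θ_pos)
lemma τ_pos : 0 < τ r := div_pos (pow_pos θ_pos _) (sqrt_pos.2 θ_pos)
lemma η_sq : η r * η r = μ r * θ := by
  rw [η, mul_mul_mul_comm, α_sq, mul_self_sqrt θ_pos.le]
lemma τη : τ r * η r = α r * θ ^ r := by
  have := sqrt_pos.2 θ_pos
  rw [τ, η]; field_simp

noncomputable def δ {A : Type} (a : A) : A → ℝ := by classical exact fun b => if b = a then 1 else 0

@[simp] lemma δ_self {A : Type} (a : A) : δ a a = 1 := by simp [δ]
lemma δ_ne {A : Type} {a b : A} (h : b ≠ a) : δ a b = 0 := by simp [δ, h]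

def B (O : Op r) (K : ℝ) : Prop := ∀ s t, |O (δ t) s| ≤ K * η r ^ s.length * η r ^ t.length

lemma T_δ {k : Fin r → ℤ} {p : ℝ} (hp : ∀ a b, |Rt k a b| ≤ p) (s t : W r) :
    |T k (δ t) s| ≤ if s.length = t.length then p ^ s.length else 0 := by
  induction s generalizing t with
  | nil => cases t <;> simp [δ]
  | cons a s ih =>
    cases t with
    | nil =>
      have : ∀ b : J r, (fun t => δ ([] : W r) (b :: t)) = 0 := fun b => by ext; simp [δ]
      simp [T_cons, this]
    | cons c t =>
      have : ∀ b : J r, (fun t' => δ (c :: t) (b :: t')) = if b = c then δ t else 0 := fun b => by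
        ext; split_ifs with h <;> simp [δ, h]
      have e : T k (δ (c :: t)) (a :: s) = Rt k a c * T k (δ t) s := by
        rw [T_cons, Finset.sum_eq_single c (fun b _ h => by simp [this, h]) (by simp), this,
          if_pos rfl]
      rw [e, abs_mul]
      refine (mul_le_mul (hp a c) (ih t) (abs_nonneg _) ((abs_nonneg _).trans (hp a c))).trans ?_
      simp only [List.length_cons, Nat.add_right_cancel_iff]
      split_ifs <;> simp [pow_succ']

lemma X_δ (t : W r) : X r (δ t) = μ r ^ t.length • δ t := by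
  ext s
  by_cases h : s = t
  · simp [X_app, h]
  · simp [X_app, δ_ne h]

lemma bTX {k : Fin r → ℤ} (h : ∃ i, Gd (k i)) : B (T k * X r) 1 := by
  intro s t
  have := μ_pos (r := r)
  have := η_pos (r := r)
  rw [Module.End.mul_apply, X_δ, map_smul, Pi.smul_apply, smul_eq_mul, abs_mul,
    abs_of_pos (by positivity)]
  refine (mul_le_mul_of_nonneg_left (T_δ (Rt_le h) s t) (by positivity)).trans ?_
  split_ifs with e
  · rw [e, one_mul, ← mul_pow, ← mul_pow, η_sq]
  · rw [mul_zero]; positivity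

lemma bTXE {k : Fin r → ℤ} (h : ∀ i, Gd (k i)) (hr : 0 < r) : B (T k * (X r - E r)) (θ ^ r / θ) := by
  intro s t
  have := μ_pos (r := r)
  have := η_pos (r := r)
  have := θ_pos
  cases t with
  | nil =>
    have : (X r - E r) (δ []) = 0 := by ext s; cases s <;> simp [X_app, δ]
    rw [Module.End.mul_apply, this, map_zero]
    simp only [Pi.zero_apply, abs_zero]
    positivity
  | cons c t =>
    have : (X r - E r) (δ (c :: t)) = μ r ^ (c :: t).length • δ (c :: t) := by
      rw [← X_δ]; ext s; cases s <;> simp [δ]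
    rw [Module.End.mul_apply, this, map_smul, Pi.smul_apply, smul_eq_mul, abs_mul,
      abs_of_pos (by positivity)]
    refine (mul_le_mul_of_nonneg_left (T_δ (Rt_le' h) s _) (by positivity)).trans ?_
    split_ifs with e
    · rw [e, mul_assoc, ← mul_pow (η r), η_sq, mul_pow, mul_left_comm, List.length_cons]
      refine mul_le_mul_of_nonneg_left ?_ (by positivity)
      have h1 : θ ^ r ≤ θ := pow_le_of_le_one θ_pos.le θ_lt.le hr.ne'
      have h2 := pow_le_pow_left₀ (by positivity) h1 t.length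
      rw [pow_succ' (θ ^ r), pow_succ' θ, ← mul_assoc, div_mul_cancel₀ _ θ_pos.ne']
      exact mul_le_mul_of_nonneg_left h2 (by positivity)
    · rw [mul_zero]; positivity

lemma bE : B (E r) 1 := by
  intro s t
  have := η_pos (r := r)
  cases s with
  | nil => cases t <;> simp [δ]; positivity
  | cons a s => simp only [E_cons, abs_zero]; positivity

lemma B.nn {O : Op r} {K : ℝ} (h : B O K) : 0 ≤ K := by
  simpa using (abs_nonneg _).trans (h [] [])

lemma B.C {O : Op r} {K : ℝ} (h : B O K) {l : Fin r → ℤ} (hl : ∀ i, Gd (l i)) (j : J r) :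
    B (C l j * O) (τ r * K) := by
  intro s t
  have := η_pos (r := r)
  have := τ_pos (r := r)
  have := α_pos (r := r)
  have := h.nn
  cases s with
  | nil => simp only [Module.End.mul_apply, C_nil, abs_zero]; positivity
  | cons a s =>
    rw [Module.End.mul_apply, C_cons, abs_mul, abs_mul, abs_of_pos α_pos]
    refine (mul_le_mul (mul_le_mul_of_nonneg_left (Rt_le' hl a j) α_pos.le) (h s t) (abs_nonneg _)
      (by have := θ_pos; positivity)).trans_eq ?_
    rw [← τη, List.length_cons]; ring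

lemma B.D {O : Op r} {K : ℝ} (h : B O K) {l : Fin r → ℤ} (hl : ∀ i, Gd (l i)) (j : J r) :
    B (O * D l j) (τ r * K) := by
  intro s t
  have := η_pos (r := r)
  have := τ_pos (r := r)
  have := α_pos (r := r)
  have := h.nn
  cases t with
  | nil =>
    have : RotW.D l j (δ []) = 0 := by ext; simp [D_app, δ]
    rw [Module.End.mul_apply, this, map_zero]
    simp only [Pi.zero_apply, abs_zero]
    positivity
  | cons c t =>
    have : RotW.D l j (δ (c :: t)) = (α r * Rt l c j) • δ t := by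
      ext s
      rw [D_app, Finset.sum_eq_single c (fun b _ h => by simp [δ, h]) (by simp)]
      simp [δ]
    rw [Module.End.mul_apply, this, map_smul, Pi.smul_apply, smul_eq_mul, abs_mul, abs_mul,
      abs_of_pos α_pos]
    refine (mul_le_mul (mul_le_mul_of_nonneg_left (Rt_le' hl c j) α_pos.le) (h s t) (abs_nonneg _)
      (by have := θ_pos; positivity)).trans_eq ?_
    rw [← τη, List.length_cons]; ring

lemma B.μ {O : Op r} {K : ℝ} (h : B O K) : B (μ r • O) (μ r * K) := by
  intro s t
  rw [LinearMap.smul_apply, Pi.smul_apply, smul_eq_mul, abs_mul, abs_of_pos μ_pos, mul_assoc,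
    mul_assoc, ← mul_assoc K]
  exact mul_le_mul_of_nonneg_left (h s t) μ_pos.le

/-! Row finiteness -/

def RF {A A' : Type} (O : (A → ℝ) →ₗ[ℝ] (A' → ℝ)) : Prop :=
  ∀ a', ∃ S : Finset A, ∀ F, (∀ a ∈ S, F a = 0) → O F a' = 0

lemma RF.comp {A A' A'' : Type} {O : (A' → ℝ) →ₗ[ℝ] (A'' → ℝ)} {O' : (A → ℝ) →ₗ[ℝ] (A' → ℝ)}
    (h : RF O) (h' : RF O') : RF (O ∘ₗ O') := by
  classical
  intro a
  obtain ⟨S, hS⟩ := h a
  choose S' hS' using h'
  exact ⟨S.biUnion S', fun F hF => hS _ fun b hb => hS' b F fun c hc =>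
    hF c (Finset.mem_biUnion.2 ⟨b, hb, hc⟩)⟩

lemma RF.mul {A : Type} {O O' : Module.End ℝ (A → ℝ)} (h : RF O) (h' : RF O') : RF (O * O') :=
  h.comp h'

lemma RF.add {A A' : Type} {O O' : (A → ℝ) →ₗ[ℝ] (A' → ℝ)} (h : RF O) (h' : RF O') :
    RF (O + O') := by
  classical
  intro a
  obtain ⟨S, hS⟩ := h a
  obtain ⟨S', hS'⟩ := h' a
  refine ⟨S ∪ S', fun F hF => ?_⟩
  simp [hS F fun b hb => hF b (by simp [hb]), hS' F fun b hb => hF b (by simp [hb])]

lemma RF.smul {A A' : Type} {O : (A → ℝ) →ₗ[ℝ] (A' → ℝ)} (h : RF O) (c : ℝ) : RF (c • O) :=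
  fun a => (h a).imp fun S hS F hF => by simp [hS F hF]

lemma RF.sub {A A' : Type} {O O' : (A → ℝ) →ₗ[ℝ] (A' → ℝ)} (h : RF O) (h' : RF O') :
    RF (O - O') := by
  rw [sub_eq_add_neg, ← neg_one_smul ℝ O']; exact h.add (h'.smul _)

lemma RF.sum {A A' I : Type} (s : Finset I) {O : I → (A → ℝ) →ₗ[ℝ] (A' → ℝ)}
    (h : ∀ i, RF (O i)) : RF (∑ i ∈ s, O i) :=
  Finset.sum_induction _ _ (fun _ _ => RF.add) (fun _ => ⟨∅, fun _ _ => rfl⟩) fun i _ => h i

lemma RF.left {A A' : Type} (g : A' → A) : RF (LinearMap.funLeft ℝ ℝ g) :=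
  fun a => ⟨{g a}, fun _ h => h _ (by simp)⟩

lemma RF.one {A : Type} : RF (1 : Module.End ℝ (A → ℝ)) := RF.left id

lemma RF.repr {A A' : Type} {O : (A → ℝ) →ₗ[ℝ] (A' → ℝ)} (h : RF O) (a' : A') (F : A → ℝ) :
    HasSum (fun a => O (δ a) a' * F a) (O F a') := by
  classical
  obtain ⟨S, hS⟩ := h a'
  have h1 := hS (F - ∑ a ∈ S, F a • δ a) fun a ha => by
    rw [Pi.sub_apply, Finset.sum_apply, Finset.sum_eq_single a (fun b _ h => by simp [δ, h.symm])
      (fun h => absurd ha h)]
    simp
  rw [map_sub, map_sum, Pi.sub_apply, sub_eq_zero] at h1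
  rw [h1]
  simp only [map_smul, Finset.sum_apply, Pi.smul_apply, smul_eq_mul, mul_comm (F _)]
  refine hasSum_sum_of_ne_finset_zero fun b hb => ?_
  rw [hS _ fun a ha => δ_ne (by rintro rfl; exact hb ha), zero_mul]

lemma rfT (k : Fin r → ℤ) : RF (T k) := by
  classical
  intro s
  induction s with
  | nil => exact ⟨{[]}, fun F h => h _ (by simp)⟩
  | cons a s ih =>
    obtain ⟨S, hS⟩ := ih
    refine ⟨Finset.univ.biUnion fun b => S.image (List.cons b), fun F h => ?_⟩
    rw [T_cons]
    refine Finset.sum_eq_zero fun b _ => ?_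
    rw [hS _ fun t ht => h _ (by simp only [Finset.mem_biUnion, Finset.mem_image]; exact
      ⟨b, by simp, t, ht, rfl⟩), mul_zero]

lemma rfC (l : Fin r → ℤ) (j : J r) : RF (C l j) := fun s => by
  cases s with
  | nil => exact ⟨∅, fun _ _ => rfl⟩
  | cons a s => exact ⟨{s}, fun F h => by simp [h s (by simp)]⟩

lemma rfD (l : Fin r → ℤ) (j : J r) : RF (D l j) := fun s =>
  ⟨Finset.univ.image (· :: s), fun F h => Finset.sum_eq_zero fun b _ => by
    rw [h _ (by simp), mul_zero]⟩

lemma rfX : RF (X r) := fun s => ⟨{s}, fun F h => by simp [X_app, h s (by simp)]⟩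

lemma rfE : RF (E r) := fun s => ⟨{[]}, fun F h => by cases s <;> simp [h [] (by simp)]⟩

lemma sum_η : HasSum (fun s : W r => η r ^ s.length * η r ^ s.length) (1 - θ)⁻¹ := by
  rw [← List.equivSigmaTuple.symm.hasSum_iff]
  have e : ∀ n, HasSum (fun x : Fin n → J r => (μ r * θ) ^ n) (θ ^ n) := fun n => by
    have := hasSum_fintype fun x : Fin n → J r => (μ r * θ) ^ n
    rwa [Finset.sum_const, Finset.card_univ, Fintype.card_fun, Fintype.card_fin, nsmul_eq_mul,
      Nat.cast_pow, ← mul_pow, ← mul_assoc, card_μ, one_mul] at this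
  have e2 : (fun s : W r => η r ^ s.length * η r ^ s.length) ∘ List.equivSigmaTuple.symm
      = fun p : Σ n, Fin n → J r => (μ r * θ) ^ p.1 := by
    ext p; simp [← mul_pow, η_sq]
  rw [e2]
  have g := hasSum_geometric_of_lt_one θ_pos.le θ_lt
  refine HasSum.of_sigma e g ?_
  have : Summable fun p : Σ n, Fin n → J r => (μ r * θ) ^ p.1 := by
    rw [summable_sigma_of_nonneg fun p => pow_nonneg (mul_pos μ_pos θ_pos).le _]
    exact ⟨fun n => (e n).summable, by simpa only [fun n => (e n).tsum_eq] using g.summable⟩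
  exact this.hasSum.cauchySeq

end Pool.Agent.Lib.helper1.RotW
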