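import Mathlib
import Pool.Agent.Lib.helper1.RotW

set_option autoImplicit false

namespace Pool.Agent.Lib.helper1.RotW

variable {r : ℕ}

abbrev G (r : ℕ) : Type := (J r → ZMod 3) × (J r → ZMod 3) × ZMod 3
abbrev Y (r : ℕ) : Type := Module.End ℝ (G r × W r → ℝ)

noncomputable def Sh (g : G r) : Op r →ₗ[ℝ] Y r where
  toFun O :=
    { toFun := fun F p => O (fun t => F (p.1 - g, t)) p.2
      map_add' := fun _ _ => funext fun _ => congrFun (O.map_add _ _) _
      map_smul' := fun c _ => funext fun _ => congrFun (O.map_smul c _) _ }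
  map_add' _ _ := rfl
  map_smul' _ _ := rfl

lemma Sh_app (g : G r) (O : Op r) (F : G r × W r → ℝ) (c : G r) (s : W r) :
    Sh g O F (c, s) = O (fun t => F (c - g, t)) s := rfl

lemma Sh_mul (g g' : G r) (O O' : Op r) : Sh g O * Sh g' O' = Sh (g + g') (O * O') :=
  LinearMap.ext fun F => funext fun p => by
    obtain ⟨c, s⟩ := p
    simp only [Module.End.mul_apply, Sh_app, sub_sub]

lemma Sh_one : Sh (0 : G r) 1 = 1 := LinearMap.ext fun F => funext fun p => by
  obtain ⟨c, s⟩ := p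
  simp [Sh_app]

lemma Sh_T0 : Sh (0 : G r) (T 0) = 1 := by rw [T0, Sh_one]

lemma rfSh (g : G r) {O : Op r} (h : RF O) : RF (Sh g O) := by
  classical
  rintro ⟨c, s⟩
  obtain ⟨S, hS⟩ := h s
  exact ⟨S.image fun t => (c - g, t), fun F hF => hS _ fun t ht =>
    hF _ (Finset.mem_image_of_mem _ ht)⟩

lemma Sh_δ (g : G r) (O : Op r) (c c' : G r) (s t : W r) :
    Sh g O (δ (c', t)) (c, s) = if g = c - c' then O (δ t) s else 0 := by
  rw [Sh_app]
  split_ifs with h
  · have : (fun t' => δ (c', t) (c - g, t')) = δ t := by ext; simp [δ, h]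
    rw [this]
  · have : (fun t' => δ (c', t) (c - g, t')) = 0 := funext fun t' => δ_ne fun e => h (by
      rw [← show c - g = c' from (Prod.ext_iff.1 e).1]; simp)
    rw [this, map_zero]; rfl

def Good (O : Y r) (K : ℝ) : Prop := ∀ c s c' t,
  |O (δ (c', t)) (c, s)| ≤ K * η r ^ s.length * η r ^ t.length ∧ (c = c' → O (δ (c', t)) (c, s) = 0)

lemma Good.add {O O' : Y r} {K K' : ℝ} (h : Good O K) (h' : Good O' K') :
    Good (O + O') (K + K') := fun c s c' t =>
  ⟨(abs_add_le _ _).trans (by linarith [(h c s c' t).1, (h' c s c' t).1]), fun e => by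
    simp [(h c s c' t).2 e, (h' c s c' t).2 e]⟩

lemma Good.smul {O : Y r} {K : ℝ} (h : Good O K) (a : ℝ) : Good (a • O) (|a| * K) :=
  fun c s c' t => ⟨by
    rw [LinearMap.smul_apply, Pi.smul_apply, smul_eq_mul, abs_mul, mul_assoc, mul_assoc,
      ← mul_assoc K]
    exact mul_le_mul_of_nonneg_left (h c s c' t).1 (abs_nonneg _), fun e => by
    simp [(h c s c' t).2 e]⟩

lemma Good.neg {O : Y r} {K : ℝ} (h : Good O K) : Good (-O) K := fun c s c' t =>
  ⟨(abs_neg _).trans_le (h c s c' t).1, fun e => neg_eq_zero.2 ((h c s c' t).2 e)⟩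

lemma Good.sub {O O' : Y r} {K K' : ℝ} (h : Good O K) (h' : Good O' K') :
    Good (O - O') (K + K') := by rw [sub_eq_add_neg]; exact h.add h'.neg

lemma Good.mono {O : Y r} {K K' : ℝ} (h : Good O K) (hK : K ≤ K') : Good O K' := fun c s c' t =>
  ⟨(h c s c' t).1.trans (by have := η_pos (r := r); gcongr), (h c s c' t).2⟩

lemma good_sum {I : Type} (S : Finset I) (d : I → G r) (O : I → Op r) {K : ℝ} (hK : 0 ≤ K)
    (inj : ∀ i ∈ S, ∀ j ∈ S, d i = d j → i = j) (hne : ∀ i ∈ S, d i ≠ 0) (hB : ∀ i ∈ S, B (O i) K) :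
    Good (∑ i ∈ S, Sh (d i) (O i)) K := by
  intro c s c' t
  simp only [LinearMap.sum_apply, Finset.sum_apply, Sh_δ]
  refine ⟨?_, fun e => Finset.sum_eq_zero fun i hi => if_neg (by simpa [e] using hne i hi)⟩
  by_cases h : ∃ i ∈ S, d i = c - c'
  · obtain ⟨i, hi, e⟩ := h
    rw [Finset.sum_eq_single i (fun j hj hne => if_neg fun e' => hne (inj j hj i hi (e'.trans e.symm)))
      (fun h => absurd hi h), if_pos e]
    exact hB i hi s t
  · rw [Finset.sum_eq_zero fun i hi => if_neg fun e => h ⟨i, hi, e⟩, abs_zero]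
    have := η_pos (r := r)
    positivity

lemma good_one {d : G r} {O : Op r} {K : ℝ} (hne : d ≠ 0) (hB : B O K) : Good (Sh d O) K := by
  simpa using good_sum ({()} : Finset Unit) (fun _ => d) (fun _ => O) hB.nn (by simp)
    (fun _ _ => hne) fun _ _ => hB

lemma good_crude {O : J r → Y r} {K : ℝ} (h : ∀ j, Good (O j) (μ r * K)) : Good (∑ j, O j) K := by
  intro c s c' t
  simp only [LinearMap.sum_apply, Finset.sum_apply]
  refine ⟨(Finset.abs_sum_le_sum_abs _ _).trans ((Finset.sum_le_sum fun j _ =>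
    (h j c s c' t).1).trans_eq ?_), fun e => Finset.sum_eq_zero fun j _ => (h j c s c' t).2 e⟩
  rw [Finset.sum_const, Finset.card_univ, nsmul_eq_mul]
  simp only [← mul_assoc, card_μ, one_mul]

def e (j : J r) : J r → ZMod 3 := Pi.single j 1
def g (j : J r) : G r := (e j, 0, 0)
def f (j : J r) : G r := (0, e j, 0)
def dd (r : ℕ) : G r := (0, 0, 1)
def κ (j : J r) : Fin r → ℤ := fun i => 1 + (j i : ℕ)
def k (r : ℕ) (p : ℤ) : Fin r → ℤ := fun _ => p

lemma e_ne (j : J r) : e j ≠ 0 := fun h => by simpa [e] using congrFun h j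

lemma e_inj {j j' : J r} (h : e j = e j') : j = j' := by
  by_contra hc
  simpa [e, Pi.single_apply, hc] using congrFun h j

lemma sidon {a b c d : J r} (hab : a ≠ b) (h : e a + -e b = e c + -e d) : a = c ∧ b = d := by
  have h1 : a = c := by
    by_contra hc
    have := congrFun h a
    simp only [e, Pi.add_apply, Pi.neg_apply, Pi.single_apply, if_true, hab, hc, if_false] at this
    split_ifs at this <;> exact absurd this (by decide)
  subst h1
  exact ⟨rfl, e_inj (by simpa using h)⟩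

lemma TT' (k l : Fin r → ℤ) (O : Op r) : T k * (T l * O) = T (k + l) * O := by
  rw [← mul_assoc, TT]
lemma TC' (k l : Fin r → ℤ) (j : J r) (O : Op r) :
    T k * (C l j * O) = C (k + l) j * (T k * O) := by rw [← mul_assoc, TC, mul_assoc]
lemma DT' (k l : Fin r → ℤ) (j : J r) (O : Op r) :
    D l j * (T k * O) = T k * (D (-k + l) j * O) := by rw [← mul_assoc, DT, mul_assoc]
lemma XT' (k : Fin r → ℤ) (O : Op r) : X r * (T k * O) = T k * (X r * O) := by
  rw [← mul_assoc, XT, mul_assoc]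
lemma DX' (l : Fin r → ℤ) (j : J r) (O : Op r) :
    D l j * (X r * O) = μ r • (X r * (D l j * O)) := by
  rw [← mul_assoc, DX, smul_mul_assoc, mul_assoc]
lemma TE' (k : Fin r → ℤ) (O : Op r) : T k * (E r * O) = E r * O := by rw [← mul_assoc, TE]
lemma ET' (k : Fin r → ℤ) (O : Op r) : E r * (T k * O) = E r * O := by rw [← mul_assoc, ET]

noncomputable def P1 (r : ℕ) : Y r := ∑ j, Sh (g j) (C (k r 1) j * T (κ j))
noncomputable def P2 (r : ℕ) : Y r := ∑ j, Sh (-g j) (T (-κ j) * D (k r 1) j)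
noncomputable def P3 (r : ℕ) : Y r := ∑ j, Sh (-f j) (μ r • E r)
noncomputable def XX (r : ℕ) : Y r := Sh 0 (X r)
noncomputable def EE0 (r : ℕ) : Y r := Sh 0 (E r)
noncomputable def Wd (r : ℕ) : Y r := Sh (dd r) (T (k r 5))
noncomputable def Wi (r : ℕ) : Y r := Sh (-dd r) (T (-k r 5))
noncomputable def Q (r : ℕ) : Y r := ∑ p ∈ (Finset.univ : Finset (J r)).offDiag,
  Sh (g p.1 + -g p.2) (C (k r 1) p.1 * (T (κ p.1 + -κ p.2) * (X r * D (k r 1) p.2)))

lemma WW : Wi r * Wd r = 1 := by rw [Wi, Wd, Sh_mul, TT, neg_add_cancel, neg_add_cancel, Sh_T0]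

lemma P21 : P2 r * P1 r = 1 := by
  simp only [P1, P2, Finset.sum_mul_sum, Sh_mul]
  have : ∀ j j' : J r, Sh (-g j + g j') (T (-κ j) * D (k r 1) j * (C (k r 1) j' * T (κ j')))
      = if j = j' then μ r • 1 else 0 := fun j j' => by
    rw [mul_assoc, ← mul_assoc (D _ _), DC]
    split_ifs with h
    · rw [h, smul_mul_assoc, one_mul, mul_smul_comm, TT, neg_add_cancel, neg_add_cancel, map_smul,
        Sh_T0]
    · simp
  simp only [this, Finset.sum_ite_eq, Finset.mem_univ, if_true, Finset.sum_const,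
    Finset.card_univ]
  rw [← Nat.cast_smul_eq_nsmul ℝ, smul_smul, card_μ, one_smul]

lemma P31 : P3 r * P1 r = 0 := by
  simp [P1, P3, Finset.sum_mul_sum, Sh_mul, ← mul_assoc, EC]

lemma P23 : P2 r * P3 r = 0 := by
  simp [P2, P3, Finset.sum_mul_sum, Sh_mul, mul_assoc, DE]

lemma XP3 : XX r * P3 r = P3 r := by
  simp only [XX, P3, Finset.mul_sum, Sh_mul, mul_smul_comm, XE, zero_add]

lemma P3X : P3 r * XX r = P3 r := by
  simp only [XX, P3, Finset.sum_mul, Sh_mul, smul_mul_assoc, EX, add_zero]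

lemma P1X2 : P1 r * (XX r * P2 r) = Q r + (XX r - EE0 r) := by
  simp only [P1, P2, XX, Finset.mul_sum, Finset.sum_mul, Sh_mul, zero_add, mul_assoc, XT', TT']
  rw [Finset.sum_comm, ← Finset.sum_product', ← Finset.diag_union_offDiag,
    Finset.sum_union (Finset.disjoint_diag_offDiag _), add_comm, Finset.sum_diag, Q, EE0,
    ← map_sub, ← CXD (k r 1), map_sum]
  simp only [add_neg_cancel, T0, one_mul]

lemma gd_κ (j : J r) (i : Fin r) : κ j i = 1 ∨ κ j i = 2 := by
  have := (j i).2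
  simp only [κ]; omega

lemma bTXD {k l : Fin r → ℤ} (h : ∃ i, Gd (k i)) (hl : ∀ i, Gd (l i)) (j : J r) :
    B (T k * (X r * D l j)) (τ r * 1) := by
  rw [← mul_assoc]; exact (bTX h).D hl j

section terms

variable (i0 : Fin r) {x y : G r} (hx : x.1 = 0 ∧ x.2.1 = 0) (hy : y.1 = 0 ∧ y.2.1 = 0)
include i0 hx hy

lemma t1 {p q : ℤ} (h1 : Gd (p + 1)) (h2 : Gd (p + 1 + q)) (h3 : Gd (p + 2 + q)) :
    Good (Sh x (T (k r p)) * (P1 r * XX r) * Sh y (T (k r q))) (τ r * 1) := by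
  simp only [P1, XX, Finset.mul_sum, Finset.sum_mul, Sh_mul, mul_assoc, XT, TT', TC']
  refine good_sum _ _ _ (by have := τ_pos (r := r); positivity)
    (fun j _ j' _ h => e_inj (by simpa [g] using congrArg Prod.fst h))
    (fun j _ h => e_ne j (by simpa [g, hx.1, hy.1] using congrArg Prod.fst h)) fun j _ =>
      (bTX ⟨i0, ?_⟩).C (fun _ => h1) j
  simp only [Pi.add_apply, k]
  rcases gd_κ j i0 with h | h <;> rw [h] <;> assumption

lemma t3 {p q : ℤ} (h1 : Gd (-q + 1)) (h2 : Gd (p + -1 + q)) (h3 : Gd (p + -2 + q)) :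
    Good (Sh x (T (k r p)) * (P2 r * XX r) * Sh y (T (k r q))) (μ r * (τ r * 1)) := by
  simp only [P2, XX, Finset.mul_sum, Finset.sum_mul, Sh_mul, mul_assoc, DX', DT, XT', TT',
    mul_smul_comm]
  refine good_sum _ _ _ (by have := τ_pos (r := r); have := μ_pos (r := r); positivity)
    (fun j _ j' _ h => e_inj (by simpa [g] using congrArg Prod.fst h))
    (fun j _ h => e_ne j (by simpa [g, hx.1, hy.1] using congrArg Prod.fst h)) fun j _ =>
      (bTXD ⟨i0, ?_⟩ (fun _ => h1) j).μ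
  simp only [Pi.add_apply, Pi.neg_apply, k]
  rcases gd_κ j i0 with h | h <;> rw [h] <;> assumption

omit i0 in
lemma t4 (p q : Fin r → ℤ) : Good (Sh x (T p) * P3 r * Sh y (T q)) (μ r * 1) := by
  simp only [P3, Finset.mul_sum, Finset.sum_mul, Sh_mul, mul_smul_comm, smul_mul_assoc, TE, ET]
  exact good_sum _ _ _ (by have := μ_pos (r := r); positivity)
    (fun j _ j' _ h => e_inj (by simpa [f] using congrArg (·.2.1) h))
    (fun j _ h => e_ne j (by simpa [f, hx.2, hy.2] using congrArg (·.2.1) h)) fun j _ => bE.μ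

omit i0 hy in
lemma t5 {p : ℤ} (h1 : Gd (p + 1)) (h2 : Gd (p + -1)) :
    Good (Sh x (T (k r p)) * Q r) (τ r * (τ r * 1)) := by
  simp only [Q, Finset.mul_sum, Sh_mul, TT', TC']
  refine good_sum _ _ _ (by have := τ_pos (r := r); positivity)
    (fun j hj j' _ h => Prod.ext_iff.2 (sidon (Finset.mem_offDiag.1 hj).2.2
      (by simpa [g] using congrArg Prod.fst h)))
    (fun j hj h => (Finset.mem_offDiag.1 hj).2.2 (e_inj (by
      simpa [g, hx.1, add_neg_eq_zero] using congrArg Prod.fst h))) fun j hj =>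
      (bTXD ?_ (fun _ => by simp [k, Gd]) _).C (fun _ => h1) _
  obtain ⟨i, hi⟩ := Function.ne_iff.1 (Finset.mem_offDiag.1 hj).2.2
  refine ⟨i, ?_⟩
  have h3 : κ j.1 i + -κ j.2 i = 1 ∨ κ j.1 i + -κ j.2 i = -1 := by
    have := (j.1 i).2
    have := (j.2 i).2
    have : (j.1 i : ℕ) ≠ j.2 i := fun h => hi (Fin.ext h)
    simp only [κ]; omega
  simp only [Pi.add_apply, Pi.neg_apply, k]
  rcases h3 with h | h <;> rw [h] <;> assumption

omit i0 hy in
lemma t6 {p : ℤ} (h1 : Gd (p + 1)) : Good (Sh x (T (k r p)) * (P1 r * P3 r)) (τ r * 1) := by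
  simp only [P1, P3, Finset.mul_sum, Finset.sum_mul, Sh_mul, mul_assoc, mul_smul_comm, TE, TC']
  exact good_crude fun j' => good_sum _ _ _
    (by have := τ_pos (r := r); have := μ_pos (r := r); positivity)
    (fun j _ j' _ h => e_inj (by simpa [g] using congrArg Prod.fst h))
    (fun j _ h => e_ne j (by simpa [g, f, hx.1] using congrArg Prod.fst h)) fun j _ =>
      (bE.C (fun _ => h1) j).μ

end terms

lemma t2 (i0 : Fin r) : Good (XX r * P2 r) (τ r * 1) := by
  simp only [P2, XX, Finset.mul_sum, Sh_mul, XT']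
  refine good_sum _ _ _ (by have := τ_pos (r := r); positivity)
    (fun j _ j' _ h => e_inj (by simpa [g] using congrArg Prod.fst h))
    (fun j _ h => e_ne j (by simpa [g] using congrArg Prod.fst h)) fun j _ =>
      bTXD ⟨i0, ?_⟩ (fun _ => by simp [k, Gd]) j
  rcases gd_κ j i0 with h | h <;> simp [h, Gd]

lemma t7 (i0 : Fin r) : Good (Wd r * (P2 r * (XX r * P2 r))) (τ r * (τ r * 1)) := by
  simp only [Wd, P2, XX, Finset.mul_sum, Finset.sum_mul, Sh_mul, mul_assoc, DX', DT', XT', TT',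
    mul_smul_comm]
  refine good_crude fun j' => good_sum _ _ _
    (by have := τ_pos (r := r); have := μ_pos (r := r); positivity)
    (fun j _ j' _ h => e_inj (by simpa [g] using congrArg Prod.fst h))
    (fun j _ h => by simpa [g, dd] using congrArg (·.2.2) h) fun j _ => B.μ ?_
  rw [← mul_assoc (X r), ← mul_assoc]
  refine (bTXD ⟨i0, ?_⟩ (fun i => ?_) j).D (fun _ => by simp [k, Gd]) j'
  · rcases gd_κ j i0 with h | h <;> rcases gd_κ j' i0 with h' | h' <;> simp [h, h', Gd, k]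
  · rcases gd_κ j' i with h | h <;> simp [h, Gd, k]

lemma t8 : Good (Wd r * (P3 r * P2 r)) (τ r * 1) := by
  simp only [Wd, P2, P3, Finset.mul_sum, Finset.sum_mul, Sh_mul, smul_mul_assoc, ET', TE',
    mul_smul_comm]
  rw [Finset.sum_comm]
  exact good_crude fun j' => good_sum _ _ _
    (by have := τ_pos (r := r); have := μ_pos (r := r); positivity)
    (fun j _ j' _ h => e_inj (by simpa [g] using congrArg Prod.fst h))
    (fun j _ h => by simpa [g, f, dd] using congrArg (·.2.2) h) fun j _ =>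
      (bE.D (fun _ => by simp [k, Gd]) j).μ

lemma t9 : Good (Wd r * (P3 r * P3 r)) (μ r * 1) := by
  simp only [Wd, P3, Finset.mul_sum, Finset.sum_mul, Sh_mul, smul_mul_assoc, EE, TE,
    mul_smul_comm]
  exact good_crude fun j' => good_sum _ _ _ (by have := μ_pos (r := r); positivity)
    (fun j _ j' _ h => e_inj (by simpa [f] using congrArg (·.2.1) h))
    (fun j _ h => by simpa [f, dd] using congrArg (·.2.2) h) fun j _ => bE.μ.μ

lemma id1 {R : Type} [Ring R] (a b c : R) :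
    (1 - b - c) * (1 + a) = 1 + a - b - b * a - c - c * a := by noncomm_ring

lemma id2 {R : Type} [Ring R] (a b c x e : R) : -((1 + a) * (x * (1 - b - c))) + e
    = x * b + x * c - a * x + (a * (x * b) - (x - e)) + a * (x * c) := by noncomm_ring

lemma id3 {R : Type} [Ring R] (a b c x v w : R) : v * ((a - b - c) * (x * w))
    = v * (a * x) * w - v * (b * x) * w - v * (c * x) * w := by noncomm_ring

lemma id4 {R : Type} [Ring R] (a b c x v : R) : v * ((a - b - c) * (x * (1 - b - c)))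
    = v * (a * x) * 1 - v * (a * (x * b)) - v * (a * (x * c))
      - v * (b * x) * 1 + v * (b * (x * b)) + v * (b * (x * c))
      - v * (c * x) * 1 + v * (c * x * b) + v * (c * (x * c)) := by noncomm_ring

lemma id5 {R : Type} [Ring R] (a b x : R) : a * -(b * x) + a * b * x = 0 := by noncomm_ring

noncomputable def R0 (r : ℕ) : Y r := 1 + P1 r
noncomputable def L0 (r : ℕ) : Y r := 1 - P2 r - P3 r

lemma LR : L0 r * R0 r = P1 r - P2 r - P3 r := by
  have : L0 r * R0 r = 1 + P1 r - P2 r - P2 r * P1 r - P3 r - P3 r * P1 r := id1 _ _ _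
  rw [this, P21, P31]; abel

section blocks

variable (i0 : Fin r) {u : ℝ} (h1 : τ r ≤ u) (h2 : μ r ≤ u) (h3 : θ ^ r / θ ≤ u) (u1 : u ≤ 1)
include i0 h1 h2 u1

lemma mm : Good (-(R0 r * (XX r * L0 r)) + EE0 r) (9 * u) := by
  have e : -(R0 r * (XX r * L0 r)) + EE0 r = XX r * P2 r + XX r * P3 r - P1 r * XX r
      + (P1 r * (XX r * P2 r) - (XX r - EE0 r)) + P1 r * (XX r * P3 r) := id2 _ _ _ _ _
  rw [e, P1X2, XP3, add_sub_cancel_right]
  have z : (0 : G r).1 = 0 ∧ (0 : G r).2.1 = 0 := ⟨rfl, rfl⟩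
  have a1 := t1 i0 z z (p := 0) (q := 0) (by simp [Gd]) (by simp [Gd]) (by simp [Gd])
  have a4 := t4 z z (0 : Fin r → ℤ) 0
  have a5 := t5 z (p := 0) (by simp [Gd]) (by simp [Gd])
  have a6 := t6 z (p := 0) (by simp [Gd])
  rw [show k r 0 = 0 from rfl] at a1 a5 a6
  simp only [Sh_T0, one_mul, mul_one] at a1 a4 a5 a6
  have := τ_pos (r := r)
  exact (((((t2 i0).add a4).sub a1).add a5).add a6).mono (by nlinarith)

omit h2 in
lemma ma : Good (R0 r * (XX r * Wi r)) 2 := by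
  have e : R0 r * (XX r * Wi r) = XX r * Wi r + 1 * (P1 r * XX r) * Wi r := by
    rw [R0]; noncomm_ring
  have a1 := t1 i0 (x := 0) (y := -dd r) ⟨rfl, rfl⟩ (by simp [dd]) (p := 0) (q := -5)
    (by simp [Gd]) (by simp [Gd]) (by simp [Gd])
  rw [show k r 0 = 0 from rfl, Sh_T0] at a1
  have a0 : Good (XX r * Wi r) 1 := by
    rw [XX, Wi, Sh_mul, XT]
    exact good_one (by simp [dd]) (bTX ⟨i0, by simp [k, Gd]⟩)
  rw [e]
  exact (a0.add a1).mono (by linarith)

lemma aa : Good (Wd r * (L0 r * R0 r * (XX r * Wi r))) (9 * u) := by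
  have e : Wd r * (L0 r * R0 r * (XX r * Wi r)) = Wd r * (P1 r * XX r) * Wi r
      - Wd r * (P2 r * XX r) * Wi r - Wd r * (P3 r * XX r) * Wi r := by
    rw [LR]; exact id3 _ _ _ _ _ _
  have zx : (dd r).1 = 0 ∧ (dd r).2.1 = 0 := ⟨rfl, rfl⟩
  have zy : (-dd r).1 = 0 ∧ (-dd r).2.1 = 0 := by simp [dd]
  have a1 := t1 i0 zx zy (p := 5) (q := -5) (by simp [Gd]) (by simp [Gd]) (by simp [Gd])
  have a3 := t3 i0 zx zy (p := 5) (q := -5) (by simp [Gd]) (by simp [Gd]) (by simp [Gd])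
  have a4 := t4 zx zy (k r 5) (-k r 5)
  rw [e, P3X]
  have := τ_pos (r := r)
  have := μ_pos (r := r)
  exact ((a1.sub a3).sub a4).mono (by nlinarith)

include h3 in
lemma am : Good (Wd r * (L0 r * R0 r * (XX r * L0 r))) (9 * u) := by
  have e : Wd r * (L0 r * R0 r * (XX r * L0 r)) = Wd r * (P1 r * XX r) * 1
      - Wd r * (P1 r * (XX r * P2 r)) - Wd r * (P1 r * (XX r * P3 r))
      - Wd r * (P2 r * XX r) * 1 + Wd r * (P2 r * (XX r * P2 r)) + Wd r * (P2 r * (XX r * P3 r))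
      - Wd r * (P3 r * XX r) * 1 + Wd r * (P3 r * XX r * P2 r) + Wd r * (P3 r * (XX r * P3 r)) := by
    rw [LR]; exact id4 _ _ _ _ _
  have zx : (dd r).1 = 0 ∧ (dd r).2.1 = 0 := ⟨rfl, rfl⟩
  have z : (0 : G r).1 = 0 ∧ (0 : G r).2.1 = 0 := ⟨rfl, rfl⟩
  have a1 := t1 i0 zx z (p := 5) (q := 0) (by simp [Gd]) (by simp [Gd]) (by simp [Gd])
  have a3 := t3 i0 zx z (p := 5) (q := 0) (by simp [Gd]) (by simp [Gd]) (by simp [Gd])
  have a4 := t4 zx z (k r 5) 0
  have a5 := t5 zx (p := 5) (by simp [Gd]) (by simp [Gd])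
  have a6 := t6 zx (p := 5) (by simp [Gd])
  rw [show k r 0 = 0 from rfl] at a1 a3
  rw [Sh_T0] at a1 a3 a4
  have a0 : Good (Wd r * (XX r - EE0 r)) (θ ^ r / θ) := by
    rw [XX, EE0, ← map_sub, Wd, Sh_mul]
    exact good_one (by simp [dd]) (bTXE (fun _ => by simp [k, Gd]) i0.pos)
  rw [e, P1X2, XP3, P3X, P23, mul_zero, add_zero, mul_add]
  have := τ_pos (r := r)
  have := μ_pos (r := r)
  exact (((((((a1.sub (a5.add a0)).sub a6).sub a3).add (t7 i0)).sub a4).add t8).add t9).mono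
    (by nlinarith)

end blocks

lemma rfP1 : RF (P1 r) := RF.sum _ fun _ => rfSh _ ((rfC _ _).mul (rfT _))
lemma rfP2 : RF (P2 r) := RF.sum _ fun _ => rfSh _ ((rfT _).mul (rfD _ _))
lemma rfP3 : RF (P3 r) := RF.sum _ fun _ => rfSh _ (rfE.smul _)
lemma rfR : RF (R0 r) := RF.one.add rfP1
lemma rfL : RF (L0 r) := (RF.one.sub rfP2).sub rfP3

abbrev M (r : ℕ) : Type := Bool × G r × W r

noncomputable def res (r : ℕ) (b : Bool) : (M r → ℝ) →ₗ[ℝ] (G r × W r → ℝ) :=
  LinearMap.funLeft ℝ ℝ (Prod.mk b)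

noncomputable def Z (r : ℕ) (γ : ℝ) : (M r → ℝ) →ₗ[ℝ] (G r × W r → ℝ) :=
  L0 r ∘ₗ res r false + γ • Wi r ∘ₗ res r true

noncomputable def Hb (r : ℕ) (γ : ℝ) : Bool → Y r
  | false => -(R0 r * XX r)
  | true => γ⁻¹ • (Wd r * (L0 r * R0 r * XX r))

noncomputable def H (r : ℕ) (γ : ℝ) : Module.End ℝ (M r → ℝ) :=
  LinearMap.pi fun m => LinearMap.proj m.2 ∘ₗ (Hb r γ m.1 ∘ₗ Z r γ)

lemma H_app (γ : ℝ) (F : M r → ℝ) (b : Bool) (p : G r × W r) :
    H r γ F (b, p) = Hb r γ b (Z r γ F) p := rfl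

lemma rfH (γ : ℝ) : RF (H r γ) := by
  have hZ : RF (Z r γ) := (rfL.comp (RF.left _)).add (((rfSh _ (rfT _)).comp (RF.left _)).smul γ)
  have hX : RF (XX r) := rfSh _ rfX
  rintro ⟨b, p⟩
  have : RF (Hb r γ b) := by
    cases b
    · exact fun a => ((rfR.mul hX) a).imp fun S hS F hF => neg_eq_zero.2 (hS F hF)
    · exact ((rfSh _ (rfT _)).mul ((rfL.mul rfR).mul hX)).smul _
  exact (this.comp hZ) p

lemma HZ {γ : ℝ} {F : M r → ℝ} (h : Z r γ F = 0) : H r γ F = 0 := by
  ext ⟨b, p⟩; simp [H_app, h]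

lemma HH {γ : ℝ} (hγ : γ ≠ 0) (F : M r → ℝ) : H r γ (H r γ F) = 0 := by
  refine HZ ?_
  have e1 : res r false (H r γ F) = Hb r γ false (Z r γ F) := rfl
  have e2 : res r true (H r γ F) = Hb r γ true (Z r γ F) := rfl
  have : L0 r * Hb r γ false + γ • (Wi r * Hb r γ true) = 0 := by
    simp only [Hb, mul_smul_comm, smul_smul, mul_inv_cancel₀ hγ, one_smul, ← mul_assoc, WW,
      one_mul]
    exact id5 _ _ _
  have := congrArg (· (Z r γ F)) this
  simpa [Z, e1, e2] using this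

def isB (m : M r) : Prop := m.1 = false ∧ m.2.2 = []

noncomputable def one (r : ℕ) : M r → ℝ := by classical exact fun m => if isB m then 1 else 0

lemma H1 (γ : ℝ) : H r γ (one r) = 0 := by
  refine HZ ?_
  have e2 : res r true (one r) = 0 := by ext; simp [res, one, isB]
  have e1 : ∀ c, (fun t => res r false (one r) (c, t)) = δ [] := fun c => by
    ext; simp [res, one, isB, δ]
  have d0 : ∀ j, D (k r 1) j (δ []) = 0 := fun j => by ext; simp [D_app, δ]
  ext ⟨c, s⟩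
  simp only [Z, LinearMap.add_apply, LinearMap.comp_apply, LinearMap.smul_apply, e2, map_zero,
    smul_zero, add_zero, L0, P2, P3, LinearMap.sub_apply, LinearMap.sum_apply, Pi.sub_apply,
    Finset.sum_apply, Sh_app, e1, Module.End.mul_apply, d0, Pi.zero_apply, Finset.sum_const,
    Module.End.one_apply, Pi.smul_apply, Finset.card_univ, nsmul_eq_mul, smul_eq_mul, ← mul_assoc,
    card_μ, congrFun (e1 c) s]
  cases s <;> simp [δ]

lemma entries (i0 : Fin r) {γ : ℝ} (g0 : 0 < γ) (g1 : γ ≤ 1) (h1 : τ r ≤ γ ^ 2)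
    (h2 : μ r ≤ γ ^ 2) (h3 : θ ^ r / θ ≤ γ ^ 2) (m n : M r) :
    (m.2.1 ≠ n.2.1 → |H r γ (δ n) m| ≤ 9 * γ * η r ^ m.2.2.length * η r ^ n.2.2.length) ∧
    (m.2.1 = n.2.1 → H r γ (δ n) m = -(one r m * one r n)) := by
  obtain ⟨b, c, s⟩ := m
  obtain ⟨b', c', t⟩ := n
  have u1 : γ ^ 2 ≤ 1 := pow_le_one₀ g0.le g1
  have r1 : ∀ b b' : Bool, res r b (δ (b', c', t)) = if b = b' then δ (c', t) else 0 :=
    fun b b' => by ext; split_ifs with h <;> simp [res, δ, h]
  have fin : ∀ O : Y r, Good O (9 * γ) → ∀ v w : ℝ, v = O (δ (c', t)) (c, s) → w = 0 →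
      (c ≠ c' → |v| ≤ 9 * γ * η r ^ s.length * η r ^ t.length) ∧ (c = c' → v = -w) :=
    fun O hO v w hv hw => ⟨fun _ => hv ▸ (hO c s c' t).1, fun e => by
      rw [hv, hw, neg_zero]; exact (hO c s c' t).2 e⟩
  cases b <;> cases b'
  · have := (mm i0 h1 h2 u1).mono (show 9 * γ ^ 2 ≤ 9 * γ by nlinarith) c s c' t
    have e : H r γ (δ (false, c', t)) (false, c, s) = (-(R0 r * (XX r * L0 r)) + EE0 r)
        (δ (c', t)) (c, s) - if 0 = c - c' then E r (δ t) s else 0 := by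
      simp [H_app, Hb, Z, r1, EE0, Sh_δ]
    rw [e]
    refine ⟨fun h => ?_, fun h => ?_⟩
    · rw [if_neg fun e => h (sub_eq_zero.1 e.symm), sub_zero]; exact this.1
    · rw [this.2 h, if_pos (sub_eq_zero.2 h).symm]
      cases s <;> cases t <;> simp [one, isB, δ]
  · refine fin _ (((ma i0 h1 u1).smul (-γ)).mono (by rw [abs_neg, abs_of_pos g0]; linarith)) _ _
      ?_ (by simp [one, isB])
    simp [H_app, Hb, Z, r1]
  · refine fin _ (((am i0 h1 h2 h3 u1).smul γ⁻¹).mono (by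
      rw [abs_of_pos (inv_pos.2 g0)]; field_simp; rfl)) _ _ ?_ (by simp [one, isB])
    simp [H_app, Hb, Z, r1]
  · refine fin _ ((aa i0 h1 h2 u1).mono (show 9 * γ ^ 2 ≤ 9 * γ by nlinarith)) _ _ ?_
      (by simp [one, isB])
    simp [H_app, Hb, Z, r1, ← mul_assoc, mul_inv_cancel₀ g0.ne']

end Pool.Agent.Lib.helper1.RotW
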