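import Mathlib
import Pool.Agent.S19375

set_option autoImplicit false

open MeasureTheory ProbabilityTheory
open scoped ENNReal

namespace Pool.Agent.Lib.helper1.Net

open Pool.Agent.Lib.helper1 Pool.Agent.Lib.helper1.RotW Pool.Agent.S19375 MkZ

lemma exists_chain : ∃ (T : Type) (_ : Countable T) (π : PMF T) (P : T → PMF T) (q : ℕ)
    (c : T → ℕ), (∀ x z, ∑' y, P x y * P y z = π z) ∧ (∀ x, c x < q) ∧
      ∀ x y, c x = c y → P x y = 0 := by
  obtain ⟨r, γ, g0, hk⟩ := kernel
  obtain ⟨h, hh⟩ : ∃ h : M r × Bool → M r × Bool → ℝ, h = fun x y => hat (kx γ x) y := ⟨_, rfl⟩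
  have hb : ∀ x y, |h x y| ≤ 1 := fun x y => by rw [hh]; exact (hk x y).1
  have one1 : ∀ y, hat (one r) y = 1 := fun y => by rw [hat, one_base, ψ_one, add_zero]
  have s1 : ∀ x, HasSum (fun y => p0 y * h x y) 0 := fun x => by
    have := kx_sum γ x (one r)
    rw [H1, show hat (0 : M r → ℝ) x = 0 by simp [hat]] at this
    simpa only [one1, mul_one, hh] using
      key (fun y => (hk x y).1) (fun y => by rw [one1]; simp) this
  have s3 : ∀ x z, HasSum (fun y => p0 y * (h x y * h y z)) 0 := fun x z => by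
    have := kx_sum γ x (H r γ (δ (S19375.base z.1.2.1) + ψ z • δ z.1))
    rw [HH g0, show hat (0 : M r → ℝ) x = 0 by simp [hat]] at this
    simpa only [← swap, hh] using
      key (fun y => (hk x y).1) (fun y => by rw [← swap]; exact (hk y z).1) this
  have nn : ∀ x y, 0 ≤ p0 y * (1 + h x y) := fun x y =>
    mul_nonneg (p0_pos y).le (by linarith [(abs_le.1 (hb x y)).1])
  have row : ∀ x, HasSum (fun y => p0 y * (1 + h x y)) 1 := fun x => by
    simpa only [mul_add, mul_one, add_zero] using sum0.add (s1 x)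
  have two : ∀ x z, HasSum (fun y => p0 y * (1 + h x y) * (p0 z * (1 + h y z)))
      (p0 z * (1 + 0 + ∑' y, p0 y * h y z + 0)) := fun x z =>
    ((((sum0.add (s1 x)).add (summ fun y => hb y z).hasSum).add (s3 x z)).mul_left
      (p0 z)).congr_fun fun y => by ring
  let P : M r × Bool → PMF (M r × Bool) := fun x => ⟨fun y => ENNReal.ofReal (p0 y * (1 + h x y)),
    ENNReal.summable.hasSum_iff.2 (by
      rw [← ENNReal.ofReal_tsum_of_nonneg (nn x) (row x).summable, (row x).tsum_eq,
        ENNReal.ofReal_one])⟩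
  have hP : ∀ x y, P x y = ENNReal.ofReal (p0 y * (1 + h x y)) := fun _ _ => rfl
  have h2 : ∀ x z, ∑' y, P x y * P y z
      = ENNReal.ofReal (p0 z * (1 + 0 + ∑' y, p0 y * h y z + 0)) := fun x z => by
    simp only [hP, ← ENNReal.ofReal_mul (nn _ _)]
    rw [← ENNReal.ofReal_tsum_of_nonneg (fun y => mul_nonneg (nn _ _) (nn _ _))
      (two x z).summable, (two x z).tsum_eq]
  refine ⟨M r × Bool, inferInstance, (P (S19375.base 0, true)).bind P, P, Fintype.card (G r),
    fun x => Fintype.equivFin (G r) x.1.2.1, fun x z => by rw [PMF.bind_apply, h2, h2],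
    fun x => Fin.is_lt _, fun x y e => ?_⟩
  have := (hk x y).2 ((Fintype.equivFin (G r)).injective (Fin.ext e))
  rw [hP, hh]
  simp [this]

section chain

variable {T : Type} [Countable T] [MeasurableSpace T] [DiscreteMeasurableSpace T]

abbrev fut (T : Type) [MeasurableSpace T] (n : ℤ) : MeasurableSpace (Om T) :=
  ⨆ (m : ℤ) (_ : n ≤ m), MeasurableSpace.comap (MkZ.X m : Om T → T) inferInstance

lemma fut_gen (n : ℤ) :
    fut T n = MeasurableSpace.generateFrom {s | ∃ a, n ≤ a ∧ ∃ x, s = Cyl n a x} := by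
  classical
  apply le_antisymm
  · refine iSup₂_le fun m hm => ?_
    rintro _ ⟨B, -, rfl⟩
    have : (MkZ.X m ⁻¹' B : Set (Om T)) = ⋃ z : {z : Finset.Icc n m → T // z ⟨m, by simpa⟩ ∈ B},
        Cyl n m fun i => if h : i ∈ Finset.Icc n m then z.1 ⟨i, h⟩ else z.1 ⟨m, by simpa⟩ := by
      ext ω
      simp only [Set.mem_preimage, Set.mem_iUnion, Cyl, Set.mem_ofPred_eq]
      constructor
      · exact fun h => ⟨⟨fun i => MkZ.X i ω, h⟩, fun i hi => by simp only [dif_pos hi]⟩
      · rintro ⟨z, h⟩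
        have hm' : m ∈ Finset.Icc n m := by simpa
        rw [h m hm', dif_pos hm']
        exact z.2
    rw [this]
    exact MeasurableSet.iUnion fun z => MeasurableSpace.measurableSet_generateFrom ⟨m, hm, _, rfl⟩
  · refine MeasurableSpace.generateFrom_le ?_
    rintro _ ⟨a, -, x, rfl⟩
    have : Cyl n a x = ⋂ i ∈ Finset.Icc n a, MkZ.X i ⁻¹' {x i} := by ext; simp [Cyl]
    rw [this]
    refine Finset.measurableSet_biInter _ fun i hi => ?_
    exact le_iSup₂ (f := fun (m : ℤ) (_ : n ≤ m) =>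
      MeasurableSpace.comap (MkZ.X m : Om T → T) inferInstance) i (Finset.mem_Icc.1 hi).1 _
        ⟨{x i}, MeasurableSet.singleton _, rfl⟩

omit [Countable T] [MeasurableSpace T] [DiscreteMeasurableSpace T] in
lemma pisys' (n : ℤ) : IsPiSystem {s : Set (Om T) | ∃ a, n ≤ a ∧ ∃ x, s = Cyl n a x} := by
  have : ∀ a a' : ℤ, ∀ x x' : ℤ → T, a' ≤ a → (Cyl n a x ∩ Cyl n a' x').Nonempty →
      Cyl n a x ∩ Cyl n a' x' = Cyl n a x := by
    rintro a a' x x' h ⟨ω, h1, h2⟩
    refine Set.inter_eq_left.2 fun ω' h3 i hi => ?_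
    have hi' : i ∈ Finset.Icc n a := by simp only [Finset.mem_Icc] at hi ⊢; omega
    rw [h3 i hi', ← h1 i hi', h2 i hi]
  rintro _ ⟨a, ha, x, rfl⟩ _ ⟨a', ha', x', rfl⟩ hne
  rcases le_total a' a with h | h
  · exact ⟨a, ha, x, this a a' x x' h hne⟩
  · rw [Set.inter_comm] at hne ⊢
    exact ⟨a', ha', x', this a' a x' x h hne⟩

lemma past_fut {π : PMF T} {P Q : T → PMF T} (hQ : ∀ x y, π y * Q y x = π x * P x y)
    (hπ : ∀ y, ∑' x, π x * P x y = π y) (h2 : ∀ x z, ∑' y, P x y * P y z = π z) :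
    Indep (past T 0) (fut T 2) (mu π P Q) := by
  refine IndepSets.indep (past_le 0) (iSup₂_le fun m _ => (meas_X m).comap_le) (pisys 0)
    (pisys' 2) (past_gen 0) (fut_gen 2) ((IndepSets_iff _ _ _).2 ?_)
  rintro _ _ ⟨a, ha, x, rfl⟩ ⟨b, hb, z, rfl⟩
  have := split (mu π P Q) _ ((meas_Cyl a 0 x).inter (meas_Cyl 2 b z)) 1 Set.univ
  simp only [Set.preimage_univ, Set.inter_univ, Set.indicator_univ] at this
  rw [this, cyl hQ hπ ha, cyl hQ hπ hb, wt, wt, ← h2 (x 0) (z 2), ← ENNReal.tsum_mul_right,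
    ← ENNReal.tsum_mul_left]
  refine tsum_congr fun y => ?_
  have e : Cyl a 0 x ∩ Cyl 2 b z ∩ MkZ.X 1 ⁻¹' {y}
      = Cyl a b fun i => if i ≤ 0 then x i else if i = 1 then y else z i := by
    ext ω
    simp only [Cyl, Finset.mem_Icc, Set.mem_inter_iff, Set.mem_ofPred_eq, Set.mem_preimage,
      Set.mem_singleton_iff, and_imp]
    constructor
    · rintro ⟨⟨h1, h3⟩, h4⟩ i l1 l2
      split_ifs with c1 c2
      · exact h1 i l1 c1
      · rw [c2, h4]
      · exact h3 i (by omega) l2
    · intro h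
      refine ⟨⟨fun i l1 l2 => ?_, fun i l1 l2 => ?_⟩, ?_⟩
      · rw [h i l1 (by omega), if_pos l2]
      · rw [h i (by omega) l2, if_neg (by omega), if_neg (by omega)]
      · simpa using h 1 (by omega) (by omega)
  have s : Finset.Ico a b = insert 0 (insert 1 (Finset.Ico a 0 ∪ Finset.Ico 2 b)) := by
    ext; simp only [Finset.mem_Ico, Finset.mem_insert, Finset.mem_union]; omega
  rw [e, cyl hQ hπ (by omega), wt, s, Finset.prod_insert (by simp), Finset.prod_insert (by simp),
    Finset.prod_union (Finset.disjoint_left.2 fun i h1 h2 => by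
      simp only [Finset.mem_Ico] at h1 h2; omega), if_pos ha,
    Finset.prod_congr rfl (g := fun i => P (x i) (x (i + 1))) fun i hi => by
      have := Finset.mem_Ico.1 hi
      rw [if_pos (by omega), if_pos (by omega)],
    Finset.prod_congr (s₂ := Finset.Ico 2 b) rfl (g := fun i => P (z i) (z (i + 1))) fun i hi => by
      have := Finset.mem_Ico.1 hi
      rw [if_neg (by omega), if_neg (by omega), if_neg (by omega), if_neg (by omega)]]
  norm_num
  ring

end chain

variable {A B : Type}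

def sh (k : ℤ) (ω : ℤ → A) : ℤ → A := fun n => ω (n + k)
def pL [Inhabited A] (t : ℤ) (ω : ℤ → A) : ℤ → A := fun n => if n ≤ t then ω n else default
def pR [Inhabited A] (t : ℤ) (ω : ℤ → A) : ℤ → A := fun n => if t ≤ n then ω n else default

variable [MeasurableSpace A]

lemma m_sh (k : ℤ) : Measurable (sh k : (ℤ → A) → _) :=
  measurable_pi_lambda _ fun _ => measurable_pi_apply _

def Stat (ν : Measure (ℤ → A)) : Prop := ∀ k, MeasurePreserving (sh k) ν ν

variable [Inhabited A]

lemma m_pL (t : ℤ) : Measurable (pL t : (ℤ → A) → _) := measurable_pi_lambda _ fun n => by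
  unfold pL; split_ifs; exacts [measurable_pi_apply _, measurable_const]

lemma m_pR (t : ℤ) : Measurable (pR t : (ℤ → A) → _) := measurable_pi_lambda _ fun n => by
  unfold pR; split_ifs; exacts [measurable_pi_apply _, measurable_const]

def Dep (ν : Measure (ℤ → A)) (r : ℤ) : Prop := ∀ t, IndepFun (pL t) (pR (t + r)) ν

lemma indep_comp {Ω Ω' C D : Type} [MeasurableSpace Ω] [MeasurableSpace Ω'] [MeasurableSpace C]
    [MeasurableSpace D] {μ : Measure Ω} {μ' : Measure Ω'} {T : Ω → Ω'}
    (hT : MeasurePreserving T μ μ') {f : Ω' → C} {g : Ω' → D} (hf : Measurable f)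
    (hg : Measurable g) : IndepFun f g μ' ↔ IndepFun (f ∘ T) (g ∘ T) μ := by
  simp only [indepFun_iff_measure_inter_preimage_eq_mul]
  refine forall₄_congr fun s t hs ht => ?_
  rw [Set.preimage_comp, Set.preimage_comp, ← Set.preimage_inter,
    hT.measure_preimage ((hf hs).inter (hg ht)).nullMeasurableSet,
    hT.measure_preimage (hf hs).nullMeasurableSet, hT.measure_preimage (hg ht).nullMeasurableSet]

lemma dep_of_zero {ν : Measure (ℤ → A)} {r : ℤ} (hs : Stat ν) (h : IndepFun (pL 0) (pR r) ν) :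
    Dep ν r := by
  intro t
  have := ((indep_comp (hs t) (m_pL 0) (m_pR r)).1 h).comp (m_sh (-t)) (m_sh (-t))
  have e1 : sh (-t) ∘ pL 0 ∘ sh t = (pL t : (ℤ → A) → _) := by
    ext ω n; simp [sh, pL]
  have e2 : sh (-t) ∘ pR r ∘ sh t = (pR (t + r) : (ℤ → A) → _) := by
    ext ω n
    simp only [sh, pR, Function.comp, neg_add_cancel_right]
    congr 1
    exact propext (by omega)
  rwa [e1, e2] at this

lemma Dep.mono {ν : Measure (ℤ → A)} {r r' : ℤ} (h : Dep ν r) (hr : r ≤ r') : Dep ν r' := by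
  intro t
  have := (h t).comp measurable_id (m_pR (t + r'))
  have e : pR (t + r') ∘ pR (t + r) = (pR (t + r') : (ℤ → A) → _) := by
    ext ω n
    simp only [pR, Function.comp]
    split_ifs <;> first | rfl | omega
  rwa [e] at this

theorem colouring : ∃ (q : ℕ) (κ : Measure (ℤ → ℕ)), IsProbabilityMeasure κ ∧ Stat κ ∧ Dep κ 2 ∧
    ∀ᵐ y ∂κ, ∀ i, y i < q ∧ y i ≠ y (i + 1) := by
  classical
  obtain ⟨T, _, π, P, q, c, h2, hq, hc⟩ := exists_chain
  let : MeasurableSpace T := ⊤
  have hπ : ∀ y, ∑' x, π x * P x y = π y := fun y => by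
    obtain ⟨x0, -⟩ := π.support_nonempty
    simp only [← h2 x0, ← ENNReal.tsum_mul_right]
    rw [ENNReal.tsum_comm]
    simp only [mul_assoc, ENNReal.tsum_mul_left, h2]
    rw [ENNReal.tsum_mul_right, PMF.tsum_coe, one_mul]
  obtain ⟨Q, hQ⟩ : ∃ Q : T → PMF T, ∀ x y, π y * Q y x = π x * P x y := by
    refine ⟨fun y => if h : π y = 0 then π else
      PMF.normalize (fun x => π x * P x y) (by rwa [hπ]) (by rw [hπ]; exact π.apply_ne_top y),
      fun x y => ?_⟩
    by_cases h : π y = 0
    · rw [h, zero_mul]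
      exact (ENNReal.tsum_eq_zero.1 ((hπ y).trans h) x).symm
    · simp only [dif_neg h, PMF.normalize_apply, hπ]
      rw [mul_left_comm, ENNReal.mul_inv_cancel h (π.apply_ne_top y), mul_one]
  have mc : Measurable c := measurable_from_top
  let Φ : Om T → ℤ → ℕ := fun ω i => c (MkZ.X i ω)
  have mΦ : Measurable Φ := measurable_pi_lambda _ fun i => mc.comp (meas_X i)
  have hΦ : MeasurePreserving Φ (mu π P Q) ((mu π P Q).map Φ) := ⟨mΦ, rfl⟩
  have st : Stat ((mu π P Q).map Φ) := fun n => ⟨m_sh n, by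
    have hm : Measurable fun (x : ℤ → T) (i : ℤ) => c (x i) :=
      measurable_pi_lambda _ fun i => mc.comp (measurable_pi_apply i)
    have := congrArg (Measure.map fun (x : ℤ → T) (i : ℤ) => c (x i)) (stat hQ hπ n)
    rw [Measure.map_map hm (measurable_pi_lambda _ fun i => meas_X (i + n)),
      Measure.map_map hm (measurable_pi_lambda _ fun i => meas_X i)] at this
    rw [Measure.map_map (m_sh n) mΦ]
    exact this⟩
  refine ⟨q, (mu π P Q).map Φ, Measure.isProbabilityMeasure_map mΦ.aemeasurable, st,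
    dep_of_zero st ((indep_comp hΦ (m_pL 0) (m_pR 2)).2 ?_), ?_⟩
  · rw [IndepFun_iff_Indep]
    refine indep_of_indep_of_le (past_fut hQ hπ h2) (Measurable.comap_le ?_)
      (Measurable.comap_le ?_)
    · refine @measurable_pi_lambda _ _ _ (past T 0) _ _ fun n => ?_
      simp only [Function.comp, pL]
      split_ifs with h
      · exact mc.comp (Measurable.of_comap_le (le_iSup₂ (f := fun (m : ℤ) (_ : m ≤ 0) =>
          MeasurableSpace.comap (MkZ.X m : Om T → T) inferInstance) n h))
      · exact measurable_const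
    · refine @measurable_pi_lambda _ _ _ (fut T 2) _ _ fun n => ?_
      simp only [Function.comp, pR]
      split_ifs with h
      · exact mc.comp (Measurable.of_comap_le (le_iSup₂ (f := fun (m : ℤ) (_ : 2 ≤ m) =>
          MeasurableSpace.comap (MkZ.X m : Om T → T) inferInstance) n h))
      · exact measurable_const
  · rw [ae_all_iff]
    intro i
    have h0 : ∀ᵐ y ∂((mu π P Q).map Φ), y 0 < q ∧ y 0 ≠ y 1 := by
      rw [ae_map_iff mΦ.aemeasurable (by measurability)]
      filter_upwards [proper hQ hπ] with ω h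
      exact ⟨hq _, fun e => h (hc _ _ e)⟩
    simpa [sh, add_comm] using (st i).quasiMeasurePreserving.ae h0

end Pool.Agent.Lib.helper1.Net
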