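import Mathlib
import Pool.Agent.Lib.helper1.Net1

set_option autoImplicit false

open MeasureTheory ProbabilityTheory
open scoped ENNReal

namespace Pool.Agent.Lib.helper1.Net

noncomputable def idx (η : ℤ → Bool) (n : ℤ) : ℤ :=
  ∑ i ∈ Finset.Ico 0 n, (if η i then 1 else 0) - ∑ i ∈ Finset.Ico n 0, (if η i then 1 else 0)

lemma idx_zero (η : ℤ → Bool) : idx η 0 = 0 := by simp [idx]

lemma idx_succ (η : ℤ → Bool) (n : ℤ) : idx η (n + 1) = idx η n + if η n then 1 else 0 := by
  rcases le_or_gt 0 n with h | h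
  · have s : Finset.Ico 0 (n + 1) = insert n (Finset.Ico 0 n) := by
      ext; simp only [Finset.mem_Ico, Finset.mem_insert]; omega
    rw [idx, idx, s, Finset.sum_insert (by simp), Finset.Ico_eq_empty_of_le h,
      Finset.Ico_eq_empty_of_le (show 0 ≤ n + 1 by omega)]
    ring
  · have s : Finset.Ico n 0 = insert n (Finset.Ico (n + 1) 0) := by
      ext; simp only [Finset.mem_Ico, Finset.mem_insert]; omega
    rw [idx, idx, s, Finset.sum_insert (by simp), Finset.Ico_eq_empty_of_le h.le,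
      Finset.Ico_eq_empty_of_le (show n + 1 ≤ 0 by omega)]
    ring

lemma idx_sh (η : ℤ → Bool) (k n : ℤ) : idx (sh k η) n = idx η (n + k) - idx η k := by
  induction n using Int.induction_on with
  | zero => simp [idx_zero]
  | succ n ih => rw [idx_succ, ih, add_right_comm, idx_succ, sh]; ring
  | pred n ih =>
    have h1 := idx_succ (sh k η) (-n - 1)
    have h2 := idx_succ η (-n - 1 + k)
    rw [sub_add_cancel, ih, sh] at h1
    rw [show -(n : ℤ) - 1 + k + 1 = -n + k by ring] at h2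
    linarith

lemma idx_mono (η : ℤ → Bool) {m n : ℤ} (h : m ≤ n) : idx η m ≤ idx η n := by
  induction n, h using Int.leInduction with
  | base => exact le_rfl
  | succ n _ ih => rw [idx_succ]; split_ifs <;> omega

lemma idx_lt (η : ℤ → Bool) {m n : ℤ} (h : m < n) (hm : η m) : idx η m + 1 ≤ idx η n := by
  have := idx_mono η (show m + 1 ≤ n from h)
  rwa [idx_succ, if_pos hm] at this

lemma idx_next (η : ℤ → Bool) {n m : ℤ} (h : n + 1 ≤ m) (hn : η n)
    (hb : ∀ i, n < i → i < m → ¬ η i) : idx η m = idx η n + 1 := by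
  induction m, h using Int.leInduction with
  | base => rw [idx_succ, if_pos hn]
  | succ m hm ih =>
    rw [idx_succ, if_neg (hb m (by omega) (by omega)), ih fun i h1 h2 => hb i h1 (by omega),
      add_zero]

lemma idx_pL (η : ℤ → Bool) {n : ℤ} (h : n ≤ 0) : idx (pL 0 η) n = idx η n := by
  rw [idx, idx, Finset.Ico_eq_empty_of_le h]
  congr 1
  exact Finset.sum_congr rfl fun i hi => by rw [pL, if_pos (Finset.mem_Ico.1 hi).2.le]

lemma idx_pR (η : ℤ → Bool) {n : ℤ} (h : 0 ≤ n) : idx (pR 0 η) n = idx η n := by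
  rw [idx, idx, Finset.Ico_eq_empty_of_le h]
  congr 1
  exact Finset.sum_congr rfl fun i hi => by rw [pR, if_pos (Finset.mem_Ico.1 hi).1]

lemma m_idx (n : ℤ) : Measurable fun η => idx η n := by
  have : ∀ i : ℤ, Measurable fun η : ℤ → Bool => if η i then (1 : ℤ) else 0 := fun i =>
    (Measurable.of_discrete (f := fun b : Bool => if b then (1 : ℤ) else 0)).comp
      (measurable_pi_apply i)
  exact (Finset.measurable_sum _ fun i _ => this i).sub (Finset.measurable_sum _ fun i _ => this i)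

lemma m_at {Ω : Type} [MeasurableSpace Ω] {f : Ω → ℤ} {g : Ω → ℤ → ℕ} (hf : Measurable f)
    (hg : Measurable g) : Measurable fun ω => g ω (f ω) :=
  (measurable_from_prod_countable_left (f := fun p : (ℤ → ℕ) × ℤ => p.1 p.2)
    fun t => measurable_pi_apply t).comp (hg.prodMk hf)

noncomputable def Zc (p : (ℤ → Bool) × (ℤ → ℕ)) : ℤ → Bool × ℕ := fun n => (p.1 n, p.2 (idx p.1 n))

lemma m_Zc : Measurable Zc := measurable_pi_lambda _ fun n =>
  ((measurable_pi_apply n).comp measurable_fst).prodMk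
    (m_at ((m_idx n).comp measurable_fst) measurable_snd)

lemma sh_Zc (k : ℤ) (η : ℤ → Bool) (y : ℤ → ℕ) :
    sh k (Zc (η, y)) = Zc (sh k η, sh (idx η k) y) := by
  ext n : 1
  simp only [Zc, idx_sh]
  simp [sh, Zc]

def Nt (a : ℤ) (η : ℤ → Bool) : Prop :=
  (∀ n m, η n → η m → n < m → n + a ≤ m) ∧ ∀ t, ∃ n, η n ∧ t ≤ n ∧ n < t + 4 * a

section step

variable {ν : Measure (ℤ → Bool)} {κ : Measure (ℤ → ℕ)} [IsProbabilityMeasure ν]
  [IsProbabilityMeasure κ]

lemma stat_Zc (hν : Stat ν) (hκ : Stat κ) : Stat ((ν.prod κ).map Zc) := fun k => by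
  have := (hν k).skew_product (g := fun η y => sh (idx η k) y) (μc := κ) (μd := κ)
    (measurable_pi_lambda _ fun n => m_at (g := Prod.snd)
      (f := fun p : (ℤ → Bool) × (ℤ → ℕ) => n + idx p.1 k)
      (measurable_const.add ((m_idx k).comp measurable_fst)) measurable_snd)
    (.of_forall fun η => (hκ _).map_eq)
  refine ⟨m_sh k, ?_⟩
  rw [Measure.map_map (m_sh k) m_Zc]
  conv_rhs => rw [← this.map_eq, Measure.map_map m_Zc this.measurable]
  congr 1
  ext p : 1
  exact sh_Zc k p.1 p.2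

lemma dep_Zc (hν : Stat ν) (hκ : Stat κ) {a R : ℤ} (dν : Dep ν R) (dκ : Dep κ 2) (hR : 8 * a ≤ R)
    (hN : ∀ᵐ η ∂ν, Nt a η) : Dep ((ν.prod κ).map Zc) R := by
  refine dep_of_zero (stat_Zc hν hκ) ((indep_comp ⟨m_Zc, rfl⟩ (m_pL 0) (m_pR R)).2 ?_)
  let FL : (ℤ → Bool) × (ℤ → ℕ) → ℤ → Bool × ℕ := pL 0 ∘ Zc
  let FR : (ℤ → Bool) × (ℤ → ℕ) → ℤ → Bool × ℕ := sh (-R) ∘ pR 0 ∘ Zc
  have mL : Measurable FL := (m_pL 0).comp m_Zc
  have mR : Measurable FR := (m_sh _).comp ((m_pR 0).comp m_Zc)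
  have eL : ∀ η y, FL (η, y) = FL (pL 0 η, pL 0 y) := fun η y => by
    ext n : 1
    simp only [FL, Function.comp, pL, Zc]
    split_ifs with h1 h2
    · rw [idx_pL η h1]
    · exact absurd (by rw [idx_pL η h1]; simpa [idx_zero] using idx_mono η h1) h2
    · rfl
  have eR : ∀ η y, FR (η, y) = FR (pR 0 η, pR 0 y) := fun η y => by
    simp only [FR, Function.comp]
    congr 1
    ext n : 1
    simp only [pR, Zc]
    split_ifs with h1 h2
    · rw [idx_pR η h1]
    · exact absurd (by rw [idx_pR η h1]; simpa [idx_zero] using idx_mono η h1) h2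
    · rfl
  have pRsh : ∀ {A : Type} [Inhabited A] (d : ℤ) (y : ℤ → A), pR 0 (sh d y) = sh d (pR d y) := by
    intro A _ d y
    ext n
    simp [pR, sh]
  have eZ : ∀ η y, pR R (Zc (η, y)) = FR (sh R η, sh (idx η R) y) := fun η y => by
    simp only [FR, Function.comp, ← sh_Zc, pRsh]
    ext n : 1
    simp [sh]
  have key : ∀ s t, MeasurableSet s → MeasurableSet t →
      (ν.prod κ) ((pL 0 ∘ Zc) ⁻¹' s ∩ (pR R ∘ Zc) ⁻¹' t)
        = (∫⁻ η, κ (Prod.mk η ⁻¹' (FL ⁻¹' s)) ∂ν) * ∫⁻ η, κ (Prod.mk (sh R η) ⁻¹' (FR ⁻¹' t)) ∂ν := by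
    intro s t hs ht
    have mα := measurable_measure_prodMk_left (ν := κ) (mL hs)
    have mβ := (measurable_measure_prodMk_left (ν := κ) (mR ht)).comp (m_sh R)
    have ind := (dν 0).comp mα mβ
    have kL : ∀ η, κ (Prod.mk (pL 0 η) ⁻¹' (FL ⁻¹' s)) = κ (Prod.mk η ⁻¹' (FL ⁻¹' s)) := fun η => by
      congr 1; ext y
      simp only [Set.mem_preimage]
      rw [eL, eL η, show pL 0 (pL 0 η) = pL 0 η by ext; simp only [pL]; split_ifs <;> rfl]
    have kR : ∀ η, κ (Prod.mk (sh R (pR (0 + R) η)) ⁻¹' (FR ⁻¹' t))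
        = κ (Prod.mk (sh R η) ⁻¹' (FR ⁻¹' t)) := fun η => by
      congr 1; ext y
      simp only [Set.mem_preimage]
      rw [zero_add, ← pRsh, eR, eR (sh R η),
        show pR 0 (pR 0 (sh R η)) = pR 0 (sh R η) by ext; simp only [pR]; split_ifs <;> rfl]
    simp only [Function.comp_def, kL, kR] at ind mβ
    rw [← lintegral_mul_eq_lintegral_mul_lintegral_of_indepFun'' mα.aemeasurable mβ.aemeasurable ind,
      Measure.prod_apply ((mL hs).inter (((m_pR R).comp m_Zc) ht))]
    refine lintegral_congr_ae ?_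
    filter_upwards [hN] with η hη
    obtain ⟨n1, p1, l1, u1⟩ := hη.2 0
    obtain ⟨n2, p2, l2, u2⟩ := hη.2 (4 * a)
    have d2 : 2 ≤ idx η R := by
      have h0 := idx_mono η l1
      have h1 := idx_lt η (show n1 < n2 by omega) p1
      have h2 := idx_lt η (show n2 < R by omega) p2
      rw [idx_zero] at h0
      omega
    have i2 := indepFun_iff_measure_inter_preimage_eq_mul.1 (((dκ.mono d2) 0).comp
      (mL.comp measurable_prodMk_left (g := FL) (f := Prod.mk η))
      ((mR.comp (measurable_prodMk_left (x := sh R η))).comp (m_sh (idx η R)))) s t hs ht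
    have e1 : (FL ∘ Prod.mk η) ∘ pL 0 = FL ∘ Prod.mk η := by
      ext y : 1
      simp only [Function.comp]
      rw [eL, eL η y, show pL 0 (pL 0 y) = pL 0 y by ext; simp only [pL]; split_ifs <;> rfl]
    have e2 : ((FR ∘ Prod.mk (sh R η)) ∘ sh (idx η R)) ∘ pR (0 + idx η R)
        = (FR ∘ Prod.mk (sh R η)) ∘ sh (idx η R) := by
      ext y : 1
      simp only [Function.comp]
      rw [zero_add, ← pRsh, eR, eR _ (sh _ y), show pR 0 (pR 0 (sh (idx η R) y))
        = pR 0 (sh (idx η R) y) by ext; simp only [pR]; split_ifs <;> rfl]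
    rw [e1, e2, Set.preimage_comp (g := FR ∘ Prod.mk (sh R η)), (hκ _).measure_preimage
      ((mR.comp measurable_prodMk_left) ht).nullMeasurableSet] at i2
    refine Eq.trans ?_ i2
    congr 1
    ext y
    simp only [Set.mem_preimage, Set.mem_inter_iff, Function.comp, eZ, FL]
  rw [indepFun_iff_measure_inter_preimage_eq_mul]
  intro s t hs ht
  have k1 := key s Set.univ hs .univ
  have k2 := key Set.univ t .univ ht
  simp only [Set.preimage_univ, Set.inter_univ, Set.univ_inter, measure_univ, lintegral_const,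
    mul_one, one_mul] at k1 k2
  rw [key s t hs ht, k1, k2]

end step

/-- Greedy selection, colour by colour. -/
def K (a : ℤ) : ℕ → (ℤ → Bool × ℕ) → ℤ → Prop
  | 0, _, _ => False
  | c + 1, ζ, n => K a c ζ n ∨
      ((ζ n).1 ∧ (ζ n).2 = c ∧ ∀ m, n - 2 * a < m → m < n + 2 * a → ¬ K a c ζ m)

lemma K_sh (a k : ℤ) (c : ℕ) (ζ : ℤ → Bool × ℕ) (n : ℤ) : K a c (sh k ζ) n ↔ K a c ζ (n + k) := by
  induction c generalizing n with
  | zero => rfl
  | succ c ih =>
    simp only [K, ih, sh]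
    refine or_congr_right (and_congr_right fun _ => and_congr_right fun _ =>
      ⟨fun h m h1 h2 => ?_, fun h m h1 h2 => h _ (by omega) (by omega)⟩)
    simpa using h (m - k) (by omega) (by omega)

lemma K_loc {a : ℤ} (ha : 0 ≤ a) (c : ℕ) (ζ ζ' : ℤ → Bool × ℕ) (n : ℤ)
    (h : ∀ m, n - 2 * a * c ≤ m → m ≤ n + 2 * a * c → ζ m = ζ' m) : K a c ζ n ↔ K a c ζ' n := by
  induction c generalizing n with
  | zero => rfl
  | succ c ih =>
    have p : 0 ≤ a * c := by positivity
    push_cast at h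
    simp only [K]
    rw [ih n fun m h1 h2 => h m (by linarith) (by linarith), h n (by linarith) (by linarith)]
    refine or_congr_right (and_congr_right fun _ => and_congr_right fun _ =>
      forall₃_congr fun m h1 h2 => not_congr (ih m fun i l1 l2 => h i (by linarith) (by linarith)))

lemma K_meas (a : ℤ) (c : ℕ) (n : ℤ) : MeasurableSet {ζ | K a c ζ n} := by
  induction c generalizing n with
  | zero => simp [K]
  | succ c ih =>
    have := fun n => measurableSet_setOfPred.1 (ih n)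
    refine measurableSet_setOfPred.2 ((this n).or (Measurable.and ?_ (Measurable.and ?_ ?_)))
    · exact (Measurable.of_discrete (f := fun p : Bool × ℕ => p.1 = true)).comp
        (measurable_pi_apply n)
    · exact (Measurable.of_discrete (f := fun p : Bool × ℕ => p.2 = c)).comp
        (measurable_pi_apply n)
    · exact Measurable.forall fun m => measurable_const.imp (measurable_const.imp (this m).not)

lemma K_mono (a : ℤ) {c c' : ℕ} (h : c ≤ c') {ζ : ℤ → Bool × ℕ} {n : ℤ} (hK : K a c ζ n) :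
    K a c' ζ n := by
  induction c', h using Nat.le_induction with
  | base => exact hK
  | succ c' _ ih => exact Or.inl ih

lemma K_spec (a : ℤ) (c : ℕ) {ζ : ℤ → Bool × ℕ} {n : ℤ} (hK : K a c ζ n) :
    (ζ n).1 ∧ K a ((ζ n).2 + 1) ζ n ∧ (ζ n).2 < c ∧
      ∀ m, n - 2 * a < m → m < n + 2 * a → ¬ K a (ζ n).2 ζ m := by
  induction c with
  | zero => exact hK.elim
  | succ c ih =>
    rcases hK with h | ⟨h1, rfl, h3⟩
    · exact ⟨(ih h).1, (ih h).2.1, (ih h).2.2.1.trans c.lt_succ_self, (ih h).2.2.2⟩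
    · exact ⟨h1, Or.inr ⟨h1, rfl, h3⟩, Nat.lt_succ_self _, h3⟩

open Classical in
noncomputable def Φ (a : ℤ) (q : ℕ) (ζ : ℤ → Bool × ℕ) : ℤ → Bool := fun n => decide (K a q ζ n)

lemma m_Φ (a : ℤ) (q : ℕ) : Measurable (Φ a q) := measurable_pi_lambda _ fun n => by
  refine measurable_to_bool ?_
  simpa [Φ, Set.preimage] using K_meas a q n

lemma nt_Φ {a : ℤ} {q : ℕ} {η : ℤ → Bool} {y : ℤ → ℕ} (hη : Nt a η)
    (hy : ∀ i, y i < q ∧ y i ≠ y (i + 1)) : Nt (2 * a) (Φ a q (Zc (η, y))) := by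
  simp only [Nt, Φ, decide_eq_true_eq]
  constructor
  · intro n m hn hm hnm
    by_contra hc
    obtain ⟨n1, n2, -, n4⟩ := K_spec a q hn
    obtain ⟨m1, m2, -, m4⟩ := K_spec a q hm
    have e : idx η m = idx η n + 1 := idx_next η hnm n1 fun i h1 h2 hi => by
      have := hη.1 n i n1 hi h1
      have := hη.1 i m hi m1 h2
      omega
    have ne : (Zc (η, y) n).2 ≠ (Zc (η, y) m).2 := by
      simp only [Zc, e]; exact (hy _).2
    rcases lt_or_gt_of_ne ne with h | h
    · exact m4 n (by omega) (by omega) (K_mono a h n2)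
    · exact n4 m (by omega) (by omega) (K_mono a h m2)
  · intro t
    obtain ⟨n, h1, h2, h3⟩ := hη.2 (t + 2 * a)
    by_cases h : ∀ m, n - 2 * a < m → m < n + 2 * a → ¬ K a (Zc (η, y) n).2 (Zc (η, y)) m
    · exact ⟨n, K_mono a (c := (Zc (η, y) n).2 + 1) (hy _).1 (Or.inr ⟨h1, rfl, h⟩), by omega,
        by omega⟩
    · push Not at h
      obtain ⟨m, l1, l2, hm⟩ := h
      exact ⟨m, K_mono a (hy _).1.le hm, by omega, by omega⟩

theorem nets : ∃ C : ℕ, ∀ j : ℕ, ∃ ν : Measure (ℤ → Bool), IsProbabilityMeasure ν ∧ Stat ν ∧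
    Dep ν (C * 2 ^ j) ∧ ∀ᵐ η ∂ν, Nt (2 ^ j) η := by
  obtain ⟨q, κ, _, sκ, dκ, pκ⟩ := colouring
  refine ⟨8 + 4 * q, fun j => ?_⟩
  induction j with
  | zero =>
    refine ⟨Measure.dirac fun _ => true, inferInstance, fun k => ⟨m_sh k, ?_⟩, fun t => ?_, ?_⟩
    · rw [Measure.map_dirac' (m_sh k)]; rfl
    · exact (indepFun_const_left (pL t fun _ => true) _).congr
        (ae_eq_dirac' (m_pL t)).symm (ae_eq_refl _)
    · rw [ae_dirac_eq]
      exact ⟨fun n m _ _ h => by simpa using h, fun t => ⟨t, rfl, le_rfl, by simp⟩⟩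
  | succ j ih =>
    obtain ⟨ν, _, sν, dν, nν⟩ := ih
    obtain ⟨a, ha⟩ : ∃ a : ℤ, a = 2 ^ j := ⟨_, rfl⟩
    have a0 : 0 < a := by rw [ha]; positivity
    have q0 : 0 ≤ a * q := by positivity
    rw [pow_succ', ← ha]
    rw [← ha] at dν nν
    push_cast at dν ⊢
    have s1 := stat_Zc sν sκ
    have d1 := dep_Zc sν sκ dν dκ (by nlinarith) nν
    have : IsProbabilityMeasure ((ν.prod κ).map Zc) :=
      Measure.isProbabilityMeasure_map m_Zc.aemeasurable
    have hΦ : MeasurePreserving (Φ a q) _ (((ν.prod κ).map Zc).map (Φ a q)) := ⟨m_Φ a q, rfl⟩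
    refine ⟨((ν.prod κ).map Zc).map (Φ a q), Measure.isProbabilityMeasure_map
      (m_Φ a q).aemeasurable, fun k => ⟨m_sh k, ?_⟩, fun t => ?_, ?_⟩
    · conv_rhs => rw [← (s1 k).map_eq]
      rw [Measure.map_map (m_sh k) (m_Φ a q), Measure.map_map (m_Φ a q) (m_sh k)]
      congr 1
      ext ζ n
      simp [Φ, sh, K_sh]
    · rw [indep_comp hΦ (m_pL _) (m_pR _)]
      have := (d1 (t + 2 * a * q)).comp ((m_pL t).comp (m_Φ a q))
        ((m_pR (t + (8 + 4 * q) * (2 * a))).comp (m_Φ a q))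
      have e1 : (pL t ∘ Φ a q) ∘ pL (t + 2 * a * q) = pL t ∘ Φ a q := by
        ext ζ n
        simp only [Function.comp, pL, Φ]
        split_ifs with h
        · exact decide_eq_decide.2 (K_loc a0.le q _ ζ n fun m _ h2 => if_pos (by linarith))
        · rfl
      have e2 : (pR (t + (8 + 4 * q) * (2 * a)) ∘ Φ a q) ∘ pR (t + 2 * a * q + (8 + 4 * q) * a)
          = pR (t + (8 + 4 * q) * (2 * a)) ∘ Φ a q := by
        ext ζ n
        simp only [Function.comp, pR, Φ]
        split_ifs with h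
        · exact decide_eq_decide.2 (K_loc a0.le q _ ζ n fun m h1 _ => if_pos (by linarith))
        · rfl
      rwa [e1, e2] at this
    · have mN : MeasurableSet {η | Nt (2 * a) η} := by
        have : ∀ n : ℤ, Measurable fun η : ℤ → Bool => η n = true := fun n =>
          (Measurable.of_discrete (f := fun b : Bool => b = true)).comp (measurable_pi_apply n)
        exact measurableSet_setOfPred.2 ((Measurable.forall fun n => Measurable.forall fun m =>
          (this n).imp ((this m).imp measurable_const)).and (Measurable.forall fun t =>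
            Measurable.exists fun n => (this n).and measurable_const))
      rw [Measure.map_map (m_Φ a q) m_Zc, ae_map_iff ((m_Φ a q).comp m_Zc).aemeasurable mN]
      filter_upwards [Measure.quasiMeasurePreserving_fst.ae nν,
        Measure.quasiMeasurePreserving_snd.ae pκ] with p h1 h2
      exact nt_Φ h1 h2

end Pool.Agent.Lib.helper1.Net
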