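import Mathlib

set_option autoImplicit false

namespace Pool.Agent.Lib.Helper1.Nil

open Finset

abbrev Wd := List Bool

variable {F : Type} [Field F]

def R (w : Wd) : Module.End F (Wd → F) where
  toFun f := fun u => f (u ++ w)
  map_add' _ _ := rfl
  map_smul' _ _ := rfl

@[simp] lemma R_apply (w : Wd) (f : Wd → F) (u : Wd) : R w f u = f (u ++ w) := rfl

lemma R_append (w w' : Wd) : (R (w ++ w') : Module.End F (Wd → F)) = R w * R w' := by
  ext f u; simp

noncomputable def U (j : ℕ) : Finset Wd := (List.finite_length_le Bool j).toFinset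

lemma mem_U {j : ℕ} {w : Wd} : w ∈ U j ↔ w.length ≤ j := by simp [U]

noncomputable def D (j : ℕ) : Finset Wd := (U j).filter (· ≠ [])

lemma mem_D {j : ℕ} {w : Wd} : w ∈ D j ↔ 1 ≤ w.length ∧ w.length ≤ j := by
  simp only [D, mem_filter, mem_U]
  cases w <;> simp

noncomputable def P (c : Wd → F) (j : ℕ) : Module.End F (Wd → F) := ∑ w ∈ D j, c w • R w

noncomputable def ev (c : Wd → F) (j : ℕ) (u : Wd) (e : ℕ) (v : Wd) : (Wd → F) →ₗ[F] F :=
  (LinearMap.proj u) ∘ₗ (P c j ^ e * R v)

lemma ev_def (c : Wd → F) (j : ℕ) (u : Wd) (e : ℕ) (v : Wd) (f : Wd → F) :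
    ev c j u e v f = (P c j ^ e) (R v f) u := rfl

lemma ev_zero (c : Wd → F) (j : ℕ) (u v : Wd) (f : Wd → F) : ev c j u 0 v f = f (u ++ v) := by
  simp [ev_def]

lemma ev_left (c : Wd → F) (j : ℕ) (u : Wd) (e : ℕ) (v : Wd) (f : Wd → F) :
    ev c j u (e + 1) v f = ∑ w ∈ D j, c w * ev c j (u ++ w) e v f := by
  simp only [ev_def]
  rw [pow_succ', Module.End.mul_apply]
  generalize (P c j ^ e) (R v f) = g
  simp [P, LinearMap.sum_apply, Finset.sum_apply]

lemma ev_right (c : Wd → F) (j : ℕ) (u : Wd) (e : ℕ) (v : Wd) (f : Wd → F) :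
    ev c j u (e + 1) v f = ∑ w ∈ D j, c w * ev c j u e (w ++ v) f := by
  simp only [ev_def]
  rw [pow_succ, Module.End.mul_apply]
  have : P c j (R v f) = ∑ w ∈ D j, c w • R (w ++ v) f := by
    simp only [P, LinearMap.sum_apply, LinearMap.smul_apply, R_append, Module.End.mul_apply]
  rw [this, map_sum, Finset.sum_apply]
  simp

def Supp (f : Wd → F) (N : ℕ) : Prop := ∀ W : Wd, W.length ≠ N → f W = 0

lemma ev_len {f : Wd → F} {N : ℕ} (h : Supp f N) (c : Wd → F) (j : ℕ) (e : ℕ) (v : Wd) :
    ∀ u : Wd, N < u.length + e + v.length → ev c j u e v f = 0 := by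
  induction e with
  | zero => intro u hu; rw [ev_zero]; apply h; simp; omega
  | succ e ih =>
    intro u hu
    rw [ev_left]
    refine Finset.sum_eq_zero fun w hw => ?_
    rw [ih, mul_zero]
    have := mem_D.1 hw
    simp; omega

def star (a : ℕ) (f1 f2 : Wd → F) : Wd → F := fun W => f1 (W.take a) * f2 (W.drop a)

lemma star_supp {a b : ℕ} {f1 f2 : Wd → F} (h1 : Supp f1 a) (h2 : Supp f2 b) :
    Supp (star a f1 f2) (a + b) := by
  intro W hW
  unfold star
  by_cases h : W.length < a
  · rw [h1 _ (by simp; omega), zero_mul]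
  · rw [h2 _ (by simp; omega), mul_zero]

lemma star_append {a : ℕ} (f1 f2 : Wd → F) (A X : Wd) (hA : A.length = a) :
    star a f1 f2 (A ++ X) = f1 A * f2 X := by
  subst hA; simp [star]

lemma star_left {a : ℕ} (f1 f2 : Wd → F) (c : Wd → F) (j : ℕ) (A : Wd) (hA : A.length = a)
    (e : ℕ) (v : Wd) : ∀ u, ev c j (A ++ u) e v (star a f1 f2) = f1 A * ev c j u e v f2 := by
  induction e with
  | zero => intro u; rw [ev_zero, ev_zero, List.append_assoc, star_append _ _ _ _ hA]
  | succ e ih =>
    intro u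
    rw [ev_left, ev_left, Finset.mul_sum]
    refine Finset.sum_congr rfl fun w _ => ?_
    rw [List.append_assoc, ih]; ring

lemma star_right {a b : ℕ} {f1 f2 : Wd → F} (h1 : Supp f1 a) (h2 : Supp f2 b) (c : Wd → F)
    (j : ℕ) (C : Wd) (hC : C.length = b) (e : ℕ) (v : Wd) :
    ∀ u, ev c j u e (v ++ C) (star a f1 f2) = ev c j u e v f1 * f2 C := by
  induction e with
  | zero =>
    intro u
    rw [ev_zero, ev_zero, ← List.append_assoc]
    by_cases h : (u ++ v).length = a
    · rw [star_append _ _ _ _ h]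
    · rw [h1 _ h, zero_mul]
      apply star_supp h1 h2
      rw [List.length_append]; omega
  | succ e ih =>
    intro u
    rw [ev_left, ev_left, Finset.sum_mul]
    refine Finset.sum_congr rfl fun w _ => ?_
    rw [ih]; ring

def Good (F : Type) [Field F] (L j N : ℕ) : Submodule F (Wd → F) where
  carrier := {f | Supp f N ∧ ∀ (c : Wd → F) (A C u v : Wd) (t : ℕ), L ∣ A.length →
    A.length + L + C.length = N → u.length ≤ j → v.length ≤ j →
      ev c j (A ++ u) t (v ++ C) f = 0}
  add_mem' := by
    rintro f g ⟨h1, h2⟩ ⟨h3, h4⟩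
    refine ⟨fun W hW => by simp [h1 W hW, h3 W hW], fun c A C u v t a b d e => ?_⟩
    rw [map_add, h2 c A C u v t a b d e, h4 c A C u v t a b d e, add_zero]
  zero_mem' := ⟨fun _ _ => rfl, fun _ _ _ _ _ _ _ _ _ _ => map_zero _⟩
  smul_mem' := by
    rintro r f ⟨h1, h2⟩
    refine ⟨fun W hW => by simp [h1 W hW], fun c A C u v t a b d e => ?_⟩
    rw [map_smul, h2 c A C u v t a b d e, smul_zero]

lemma split_left (W : Wd) (a : ℕ) (h : a ≤ W.length) :
    ∃ A X : Wd, W = A ++ X ∧ A.length = a ∧ a + X.length = W.length :=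
  ⟨W.take a, W.drop a, by simp, by simp; omega, by simp; omega⟩

lemma split_right (W : Wd) (b : ℕ) (h : b ≤ W.length) :
    ∃ X C : Wd, W = X ++ C ∧ C.length = b ∧ X.length + b = W.length :=
  ⟨W.take (W.length - b), W.drop (W.length - b), by simp, by simp; omega, by simp; omega⟩

lemma good_star {L j a b : ℕ} {f1 f2 : Wd → F} (ha : L ∣ a)
    (h1 : f1 ∈ Good F L j a) (h2 : f2 ∈ Good F L j b) : star a f1 f2 ∈ Good F L j (a + b) := by
  refine ⟨star_supp h1.1 h2.1, fun c A C u v t hA hN hu hv => ?_⟩
  by_cases h : a ≤ A.length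
  · obtain ⟨A1, A2, rfl, e1, e2⟩ := split_left A a h
    rw [List.append_assoc, star_left _ _ _ _ _ e1, h2.2 c A2 C u v t ?_ (by omega) hu hv, mul_zero]
    rw [← e2] at hA
    exact (Nat.dvd_add_right ha).1 hA
  · have : A.length + L ≤ a := by
      obtain ⟨x, hx⟩ := ha
      obtain ⟨y, hy⟩ := hA
      have : y < x := by
        by_contra hc
        have := Nat.mul_le_mul_left L (show x ≤ y by omega)
        omega
      have := Nat.mul_le_mul_left L (show y + 1 ≤ x by omega)
      rw [mul_add] at this; omega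
    obtain ⟨C1, C2, rfl, e1, e2⟩ := split_right C b (by omega)
    rw [← List.append_assoc, star_right h1.1 h2.1 _ _ _ e1,
      h1.2 c A C1 u v t hA (by omega) hu hv, zero_mul]

lemma good_main {L j N : ℕ} {f : Wd → F} (hL : 1 ≤ L) (hj : j ≤ L) (hN : L ∣ N)
    (h : f ∈ Good F L j N) (c : Wd → F) (u v : Wd) (e : ℕ) (he : 2 * L ≤ e) :
    ev c j u e v f = 0 := by
  obtain ⟨a, ha, ha1, ha2⟩ : ∃ a, L ∣ a ∧ u.length ≤ a ∧ a < u.length + L := by
    refine ⟨L * ((u.length + L - 1) / L), dvd_mul_right _ _, ?_, ?_⟩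
    · have := Nat.div_add_mod (u.length + L - 1) L
      have := Nat.mod_lt (u.length + L - 1) (show L > 0 by omega)
      omega
    · have := Nat.div_add_mod (u.length + L - 1) L
      omega
  by_cases hb : N < a + L
  · have : N ≤ a := by
      obtain ⟨x, hx⟩ := ha
      obtain ⟨y, hy⟩ := hN
      have : y < x + 1 := by
        by_contra hc
        have := Nat.mul_le_mul_left L (show x + 1 ≤ y by omega)
        rw [mul_add] at this; omega
      have := Nat.mul_le_mul_left L (show y ≤ x by omega)
      omega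
    exact ev_len h.1 c j e v u (by omega)
  obtain ⟨b, hb⟩ : ∃ b, a + L + b = N := ⟨N - (a + L), by omega⟩
  have right : ∀ u' : Wd, a ≤ u'.length → u'.length ≤ a + j → ∀ (t : ℕ) (v' : Wd),
      v'.length ≤ b + j → ev c j u' t v' f = 0 := by
    intro u' h1 h2 t
    obtain ⟨A, u2, rfl, e1, e2⟩ := split_left u' a h1
    have big : ∀ (t : ℕ) (v' : Wd), b ≤ v'.length → v'.length ≤ b + j →
        ev c j (A ++ u2) t v' f = 0 := by
      intro t v' h3 h4
      obtain ⟨v1, C, rfl, e3, e4⟩ := split_right v' b h3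
      exact h.2 c A C u2 v1 t (e1 ▸ ha) (by omega) (by omega) (by omega)
    induction t with
    | zero =>
      intro v' hv
      by_cases h3 : b ≤ v'.length
      · exact big 0 v' h3 hv
      · rw [ev_zero]; apply h.1; rw [List.length_append]; omega
    | succ t ih =>
      intro v' hv
      by_cases h3 : b ≤ v'.length
      · exact big _ v' h3 hv
      · rw [ev_right]
        refine Finset.sum_eq_zero fun w hw => ?_
        have := mem_D.1 hw
        rw [ih, mul_zero]
        rw [List.length_append]; omega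
  have left : ∀ (t : ℕ) (u' : Wd), u'.length ≤ a + j → L + a ≤ t + u'.length → L ≤ t →
      ev c j u' t v f = 0 := by
    intro t
    induction t with
    | zero => intro u' _ _ h3; omega
    | succ t ih =>
      intro u' h1 h2 h3
      by_cases h4 : a ≤ u'.length
      · by_cases h5 : v.length ≤ b + j
        · exact right u' h4 h1 _ v h5
        · exact ev_len h.1 c j _ v u' (by omega)
      · rw [ev_left]
        refine Finset.sum_eq_zero fun w hw => ?_
        have := mem_D.1 hw
        rw [ih, mul_zero]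
        · rw [List.length_append]; omega
        · rw [List.length_append]; omega
        · omega
  exact left e u (by omega) (by omega) (by omega)

def tp (L : ℕ) (g : Bool → Wd → F) : List Bool → Wd → F
  | [] => fun W => if W = [] then 1 else 0
  | s :: σ => star L (g s) (tp L g σ)

lemma tp_supp {L : ℕ} {g : Bool → Wd → F} (h : ∀ s, Supp (g s) L) (σ : List Bool) :
    Supp (tp L g σ) (σ.length * L) := by
  induction σ with
  | nil => intro W hW; cases W <;> simp_all [tp]
  | cons s σ ih =>
    have := star_supp (h s) ih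
    rwa [show L + σ.length * L = (s :: σ).length * L by simp; ring] at this

lemma tp_good {L0 j L : ℕ} {g : Bool → Wd → F} (h0 : 1 ≤ L0) (hd : L0 ∣ L)
    (h : ∀ s, g s ∈ Good F L0 j L) (σ : List Bool) : tp L g σ ∈ Good F L0 j (σ.length * L) := by
  induction σ with
  | nil =>
    refine ⟨tp_supp (fun s => (h s).1) [], fun c A C u v t _ hN _ _ => ?_⟩
    simp at hN; omega
  | cons s σ ih =>
    have := good_star hd (h s) ih
    rwa [show L + σ.length * L = (s :: σ).length * L by simp; ring] at this

lemma tp_dual {L : ℕ} {g : Bool → Wd → F} {a : Bool → Wd} (ha : ∀ s, (a s).length = L)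
    (hd : ∀ s s', g s (a s') = if s = s' then 1 else 0) (σ : List Bool) :
    ∀ τ : List Bool, τ.length = σ.length → tp L g σ (τ.flatMap a) = if σ = τ then 1 else 0 := by
  induction σ with
  | nil => intro τ h; cases τ <;> simp_all [tp]
  | cons s σ ih =>
    intro τ h
    cases τ with
    | nil => simp at h
    | cons s' τ =>
      rw [List.flatMap_cons, tp, star_append _ _ _ _ (ha s'), hd, ih τ (by simpa using h)]
      by_cases h1 : s = s' <;> by_cases h2 : σ = τ <;> simp [h1, h2]

lemma len_flatMap {L : ℕ} {a : Bool → Wd} (ha : ∀ s, (a s).length = L) (τ : List Bool) :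
    (τ.flatMap a).length = τ.length * L := by
  induction τ with
  | nil => simp
  | cons s τ ih => rw [List.flatMap_cons, List.length_append, ih, ha]; simp; ring

end Pool.Agent.Lib.Helper1.Nil
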