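import Pool.Agent.Lib.helper1.NilA

set_option autoImplicit false

namespace Pool.Agent.Lib.Helper1.Nil

open Finset

variable {F : Type} [Field F]

noncomputable def mono (j : ℕ) (μ : D j → ℕ) : (Wd → F) → F := fun c => ∏ w : D j, c w ^ μ w

def Mon (F : Type) [Field F] (j n : ℕ) : Submodule F ((Wd → F) → F) :=
  Submodule.span F (Set.range fun μ : D j → Fin (n + 1) => mono (F := F) j (fun w => μ w))

lemma mono_mem (j n : ℕ) (μ : D j → ℕ) (h : ∀ w, μ w ≤ n) : mono j μ ∈ Mon F j n :=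
  Submodule.subset_span ⟨fun w => ⟨μ w, Nat.lt_succ_of_le (h w)⟩, rfl⟩

lemma Mon_mono (j : ℕ) {n m : ℕ} (h : n ≤ m) : Mon F j n ≤ Mon F j m := by
  rw [Mon, Submodule.span_le]
  rintro _ ⟨μ, rfl⟩
  exact mono_mem j m _ fun w => by have := (μ w).2; omega

lemma Mon_mul (j n : ℕ) (w : D j) (g : (Wd → F) → F) (hg : g ∈ Mon F j n) :
    (fun c => c w * g c) ∈ Mon F j (n + 1) := by
  classical
  induction hg using Submodule.span_induction with
  | mem x hx =>
    obtain ⟨μ, rfl⟩ := hx
    have : (fun c : Wd → F => c w * mono j (fun w => μ w) c)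
        = mono j (fun w' => μ w' + if w' = w then 1 else 0) := by
      funext c
      simp only [mono, pow_add, Finset.prod_mul_distrib, pow_ite, pow_one, pow_zero,
        Finset.prod_ite_eq', mem_univ, if_true]
      ring
    rw [this]
    refine mono_mem j _ _ fun w' => ?_
    have := (μ w').2
    split_ifs <;> omega
  | zero => simp only [Pi.zero_apply, mul_zero]; exact (Mon F j (n + 1)).zero_mem
  | add x y _ _ hx hy =>
    have := (Mon F j (n + 1)).add_mem hx hy
    convert this using 1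
    funext c; simp [mul_add]
  | smul r x _ hx =>
    have := (Mon F j (n + 1)).smul_mem r hx
    convert this using 1
    funext c; simp; ring

lemma ev_mem (j : ℕ) (f : Wd → F) (v : Wd) (t : ℕ) :
    ∀ u, (fun c => ev c j u t v f) ∈ Mon F j t := by
  induction t with
  | zero =>
    intro u
    have := (Mon F j 0).smul_mem (f (u ++ v)) (mono_mem j 0 (fun _ => 0) (fun _ => le_rfl))
    convert this using 1
    funext c; simp [ev_zero, mono]
  | succ t ih =>
    intro u
    have := (Mon F j (t + 1)).sum_mem (t := (univ : Finset (D j)))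
      (fun w _ => Mon_mul j t w _ (ih (u ++ w)))
    convert this using 1
    funext c
    rw [ev_left, Finset.sum_apply, ← Finset.sum_coe_sort]

instance (j n : ℕ) : Module.Finite F (Mon F j n) :=
  Module.Finite.span_of_finite F (Set.finite_range _)

lemma Mon_rank (j n : ℕ) : Module.finrank F (Mon F j n) ≤ (n + 1) ^ (D j).card := by
  classical
  refine (finrank_range_le_card _).trans ?_
  simp

lemma two_in_ker {S W : Type} [Fintype S] [AddCommGroup W] [Module F W] [Module.Finite F W]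
    (Ψ : (S → F) →ₗ[F] W) (h : Module.finrank F W + 2 ≤ Fintype.card S) :
    ∃ (x : Bool → S → F) (σ : Bool → S), (∀ s, Ψ (x s) = 0) ∧
      ∀ s s', x s (σ s') = if s = s' then 1 else 0 := by
  have h1 : LinearMap.ker Ψ ≠ ⊥ := LinearMap.ker_ne_bot_of_finrank_lt (by simp; omega)
  obtain ⟨x, hx, hx0⟩ := Submodule.exists_mem_ne_zero_of_ne_bot h1
  obtain ⟨σ, hσ⟩ := Function.ne_iff.1 hx0
  have h2 : LinearMap.ker (Ψ.prod (LinearMap.proj σ : (S → F) →ₗ[F] F)) ≠ ⊥ :=
    LinearMap.ker_ne_bot_of_finrank_lt (by simp; omega)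
  obtain ⟨y, hy, hy0⟩ := Submodule.exists_mem_ne_zero_of_ne_bot h2
  obtain ⟨τ, hτ⟩ := Function.ne_iff.1 hy0
  simp only [LinearMap.mem_ker, Pi.zero_apply] at hx hy hσ hτ
  replace hy : Ψ y = 0 ∧ y σ = 0 := ⟨congrArg Prod.fst hy, congrArg Prod.snd hy⟩
  refine ⟨fun s => if s then (y τ)⁻¹ • y else (x σ)⁻¹ • (x - (x τ / y τ) • y),
    fun s => if s then τ else σ, ?_, ?_⟩
  · intro s; cases s <;> simp [hx, hy.1]
  · intro s s'
    cases s <;> cases s' <;> simp [hy.2, hσ, hτ]

lemma growth (K L J t : ℕ) : ∃ q, t ≤ q ∧ 1 ≤ q ∧ K * (q * L + 1) ^ J + 2 ≤ 2 ^ q := by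
  have h := (isLittleO_pow_const_const_pow_of_one_lt (R := ℝ) J (r := 2) (by norm_num)).bound
    (c := 1 / ((K * (L + 1) ^ J + 2 : ℕ) : ℝ)) (by positivity)
  obtain ⟨q, hq, h1, h2⟩ := (h.and ((Filter.eventually_ge_atTop t).and
    (Filter.eventually_ge_atTop 1))).exists
  refine ⟨q, h1, h2, ?_⟩
  rw [Real.norm_of_nonneg (by positivity), Real.norm_of_nonneg (by positivity),
    one_div, inv_mul_eq_div, le_div_iff₀ (by positivity)] at hq
  have h3 : q ^ J * (K * (L + 1) ^ J + 2) ≤ 2 ^ q := by exact_mod_cast hq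
  refine le_trans ?_ h3
  have h4 : (q * L + 1) ^ J ≤ q ^ J * (L + 1) ^ J := by
    rw [← mul_pow]; exact Nat.pow_le_pow_left (by nlinarith) J
  have h5 : 1 ≤ q ^ J := Nat.one_le_pow _ _ h2
  nlinarith [Nat.mul_le_mul_left K h4]

structure Lev (F : Type) [Field F] where
  L : ℕ
  g : Bool → Wd → F
  a : Bool → Wd
  pos : 1 ≤ L
  len : ∀ s, (a s).length = L
  supp : ∀ s, Supp (g s) L
  dual : ∀ s s', g s (a s') = if s = s' then 1 else 0

lemma step (l : Lev F) (j t : ℕ) : ∃ l' : Lev F, t * l.L ≤ l'.L ∧ l.L ∣ l'.L ∧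
    (∀ s, l'.g s ∈ Good F l'.L j l'.L) ∧
    ∀ L0 j0, 1 ≤ L0 → L0 ∣ l.L → (∀ s, l.g s ∈ Good F L0 j0 l.L) →
      ∀ s, l'.g s ∈ Good F L0 j0 l'.L := by
  classical
  obtain ⟨q, hq1, hq2, hq3⟩ := growth ((U j).card * (U j).card) l.L ((D j).card + 1) t
  let comb : ((Fin q → Bool) → F) →ₗ[F] (Wd → F) :=
    Fintype.linearCombination F (fun σ : Fin q → Bool => tp l.L l.g (List.ofFn σ))
  have hcomb : ∀ x, comb x = ∑ σ, x σ • tp l.L l.g (List.ofFn σ) := fun x => by
    simp [comb, Fintype.linearCombination_apply]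
  let Ψ : ((Fin q → Bool) → F) →ₗ[F] (U j × U j × Fin (q * l.L + 1) → Mon F j (q * l.L)) :=
    { toFun := fun x i => ⟨fun c => ev c j i.1 i.2.2 i.2.1 (comb x),
        Mon_mono j (Nat.le_of_lt_succ i.2.2.2) (ev_mem j _ _ _ _)⟩
      map_add' := by intro x y; ext i c; simp
      map_smul' := by intro r x; ext i c; simp }
  obtain ⟨x, σ, hx, hσ⟩ := two_in_ker Ψ (by
    have := Mon_rank (F := F) j (q * l.L)
    simp only [Module.finrank_pi_fintype, Finset.sum_const, card_univ, Fintype.card_prod,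
      Fintype.card_coe, Fintype.card_fin, smul_eq_mul, Fintype.card_fun, Fintype.card_bool]
    refine le_trans (Nat.add_le_add_right ?_ 2) hq3
    rw [pow_succ']
    calc _ ≤ (U j).card * ((U j).card * (q * l.L + 1)) * (q * l.L + 1) ^ (D j).card :=
          Nat.mul_le_mul_left _ this
      _ = _ := by ring)
  have hsupp : ∀ s, Supp (comb (x s)) (q * l.L) := by
    intro s W hW
    rw [hcomb, Finset.sum_apply]
    refine Finset.sum_eq_zero fun σ _ => ?_
    rw [Pi.smul_apply, tp_supp l.supp _ W (by simpa using hW), smul_zero]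
  refine ⟨⟨q * l.L, fun s => comb (x s), fun s => (List.ofFn (σ s)).flatMap l.a,
    Nat.mul_pos hq2 l.pos, fun s => by rw [len_flatMap l.len]; simp, hsupp, ?_⟩,
    Nat.mul_le_mul_right _ hq1, dvd_mul_left _ _, ?_, ?_⟩
  · intro s s'
    rw [hcomb, Finset.sum_apply, ← hσ s s']
    rw [Finset.sum_eq_single (σ s')]
    · rw [Pi.smul_apply, tp_dual l.len l.dual _ _ rfl]; simp
    · intro τ _ hτ
      rw [Pi.smul_apply, tp_dual l.len l.dual _ _ (by simp), if_neg, smul_zero]
      exact fun h => hτ (List.ofFn_injective h)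
    · simp
  · intro s
    refine ⟨hsupp s, fun c A C u v t' _ hN hu hv => ?_⟩
    simp only at hN
    obtain rfl : A = [] := List.length_eq_zero_iff.1 (by omega)
    obtain rfl : C = [] := List.length_eq_zero_iff.1 (by omega)
    rw [List.nil_append, List.append_nil]
    by_cases ht : t' ≤ q * l.L
    · have := congrFun (hx s) (⟨u, mem_U.2 hu⟩, ⟨v, mem_U.2 hv⟩, ⟨t', by omega⟩)
      exact congrFun (congrArg Subtype.val this) c
    · exact ev_len (hsupp s) c j t' v u (by omega)
  · intro L0 j0 h0 hd h s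
    show comb (x s) ∈ Good F L0 j0 (q * l.L)
    rw [hcomb]
    refine Submodule.sum_mem _ fun σ _ => Submodule.smul_mem _ _ ?_
    simpa using tp_good h0 hd h (List.ofFn σ)

def lev0 (F : Type) [Field F] : Lev F where
  L := 1
  g := fun s W => if W = [s] then 1 else 0
  a := fun s => [s]
  pos := le_rfl
  len := fun _ => rfl
  supp := fun s W hW => by
    have : W ≠ [s] := by rintro rfl; simp at hW
    simp [this]
  dual := fun s s' => by simp [eq_comm]

theorem tower (F : Type) [Field F] (ν : ℕ → Wd → ℕ) : ∃ γ : ℕ → Wd → F,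
    (∀ j, ∃ e, ∀ c n v, (P c j ^ e) (R v (γ n)) = 0) ∧
    ∀ n, ∃ w : Wd, w ≠ [] ∧ γ n ((List.replicate (ν n w + 1) w).flatten) ≠ 0 := by
  choose nx h1 h2 h3 h4 using step (F := F)
  let lv : ℕ → Lev F := fun n => Nat.rec (lev0 F)
    (fun n l => nx l n (ν n (l.a false) + 1 + n)) n
  have hs : ∀ n, lv (n + 1) = nx (lv n) n (ν n ((lv n).a false) + 1 + n) := fun n => rfl
  have a1 : ∀ n, (ν n ((lv n).a false) + 1 + n) * (lv n).L ≤ (lv (n + 1)).L := fun n => h1 _ _ _
  have a2 : ∀ n, (lv n).L ∣ (lv (n + 1)).L := fun n => h2 _ _ _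
  have hmono : Monotone fun n => (lv n).L :=
    monotone_nat_of_le_succ fun n => Nat.le_of_dvd (lv (n + 1)).pos (a2 n)
  have inh : ∀ j n, j + 1 ≤ n → (lv (j + 1)).L ∣ (lv n).L ∧
      ∀ s, (lv n).g s ∈ Good F (lv (j + 1)).L j (lv n).L := by
    intro j n hn
    induction n, hn using Nat.le_induction with
    | base => exact ⟨dvd_rfl, h3 _ _ _⟩
    | succ n _ ih => exact ⟨ih.1.trans (a2 n), h4 _ _ _ _ _ (lv (j + 1)).pos ih.1 ih.2⟩
  refine ⟨fun n => tp (lv n).L (lv n).g (List.replicate (ν n ((lv n).a false) + 1) false),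
    fun j => ⟨2 * (lv (j + 1)).L, fun c n v => ?_⟩, fun n => ⟨(lv n).a false, ?_, ?_⟩⟩
  · funext u
    rw [← ev_def]
    by_cases hn : j + 1 ≤ n
    · obtain ⟨b1, b2⟩ := inh j n hn
      refine good_main (lv (j + 1)).pos ?_ (b1.mul_left _) (tp_good (lv (j + 1)).pos b1 b2 _)
        c u v _ le_rfl
      have := a1 j
      have := (lv j).pos
      nlinarith
    · refine ev_len (tp_supp (lv n).supp _) c j _ v u ?_
      have b1 := a1 n
      have b2 : (lv (n + 1)).L ≤ (lv (j + 1)).L := hmono (show n + 1 ≤ j + 1 by omega)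
      have b3 := (lv (j + 1)).pos
      rw [List.length_replicate]
      rw [add_mul] at b1
      omega
  · intro h
    have := (lv n).len false
    have := (lv n).pos
    rw [h] at *; simp at *; omega
  · have := tp_dual (lv n).len (lv n).dual (List.replicate (ν n ((lv n).a false) + 1) false) _ rfl
    rw [List.flatMap_replicate] at this
    simp only
    rw [this]; simp

theorem core (F : Type) [Field F] (ν : ℕ → Wd → ℕ) :
    ∃ (E : Type) (_ : Ring E) (_ : Algebra F E) (ρ : Wd → E) (B : NonUnitalSubalgebra F E),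
      (∀ w w', ρ (w ++ w') = ρ w * ρ w') ∧ (∀ w, w ≠ [] → ρ w ∈ B) ∧
      (∀ b ∈ B, IsNilpotent b) ∧ Module.rank F B ≤ Cardinal.aleph0 ∧
      ∀ n, ∃ w : Wd, w ≠ [] ∧ ρ w ^ (ν n w + 1) ≠ 0 := by
  classical
  obtain ⟨γ, hγ1, hγ2⟩ := tower F ν
  let M : Submodule F (Wd → F) := Submodule.span F (Set.range fun p : ℕ × Wd => R p.2 (γ p.1))
  have hM : ∀ w, ∀ x ∈ M, R w x ∈ M := by
    intro w x hx
    refine (Submodule.map_le_iff_le_comap.1 (?_ : M.map (R w) ≤ M)) hx
    rw [Submodule.map_span, Submodule.span_le]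
    rintro _ ⟨_, ⟨p, rfl⟩, rfl⟩
    refine Submodule.subset_span ⟨(p.1, w ++ p.2), ?_⟩
    simp [R_append]
  let ρ : Wd → Module.End F M := fun w => (R w).restrict (hM w)
  have hρ : ∀ w (x : M), (ρ w x : Wd → F) = R w x := fun w x => rfl
  have hmul : ∀ w w', ρ (w ++ w') = ρ w * ρ w' := by
    intro w w'; ext x u; simp [hρ]
  let S : Submodule F (Module.End F M) := Submodule.span F (ρ '' {w | w ≠ []})
  have hS : ∀ x y, x ∈ S → y ∈ S → x * y ∈ S := by
    intro x y hx hy
    have : S * S ≤ S := by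
      rw [Submodule.span_mul_span, Submodule.span_le]
      rintro _ ⟨_, ⟨w, hw, rfl⟩, _, ⟨w', hw', rfl⟩, rfl⟩
      exact Submodule.subset_span ⟨w ++ w', by simp_all, hmul w w'⟩
    exact this (Submodule.mul_mem_mul hx hy)
  refine ⟨Module.End F M, inferInstance, inferInstance, ρ, S.toNonUnitalSubalgebra hS, hmul,
    fun w hw => Submodule.subset_span ⟨w, hw, rfl⟩, ?_, ?_, ?_⟩
  · intro b hb
    have hb' : b ∈ S := hb
    obtain ⟨l, hl, rfl⟩ := (Finsupp.mem_span_image_iff_linearCombination F).1 hb'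
    obtain ⟨j, hj⟩ : ∃ j, l.support ⊆ D j := by
      refine ⟨l.support.sup List.length, fun w hw => mem_D.2 ⟨?_, Finset.le_sup hw⟩⟩
      have : w ≠ [] := hl hw
      exact List.length_pos_iff.2 this
    obtain ⟨e, he⟩ := hγ1 j
    have hP : ∀ x : M, ((Finsupp.linearCombination F ρ l x : M) : Wd → F) = P l j x := by
      intro x
      rw [Finsupp.linearCombination_apply, Finsupp.sum_of_support_subset _ hj _ (by simp)]
      simp [P, LinearMap.sum_apply, hρ]
    have hPe : ∀ (k : ℕ) (x : M), (((Finsupp.linearCombination F ρ l ^ k) x : M) : Wd → F)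
        = (P l j ^ k) x := by
      intro k
      induction k with
      | zero => simp
      | succ k ih => intro x; rw [pow_succ', pow_succ', Module.End.mul_apply, hP, ih]; rfl
    refine ⟨e, LinearMap.ext fun x => Subtype.ext ?_⟩
    rw [hPe]
    have : M ≤ LinearMap.ker (P (⇑l) j ^ e) := by
      rw [Submodule.span_le]
      rintro _ ⟨p, rfl⟩
      exact he l p.1 p.2
    exact this x.2
  · refine (rank_span_le (R := F) (ρ '' {w | w ≠ []})).trans ?_
    exact Cardinal.mk_le_aleph0_iff.2 (Set.Countable.image (Set.to_countable _) ρ).to_subtype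
  · intro n
    obtain ⟨w, hw, h⟩ := hγ2 n
    refine ⟨w, hw, fun h0 => h ?_⟩
    have hx : γ n ∈ M := Submodule.subset_span ⟨(n, []), by funext u; simp⟩
    have hk : ∀ (k : ℕ) (x : M) (u : Wd), (((ρ w ^ k) x : M) : Wd → F) u
        = (x : Wd → F) (u ++ (List.replicate k w).flatten) := by
      intro k
      induction k with
      | zero => simp
      | succ k ih =>
        intro x u
        rw [pow_succ', Module.End.mul_apply, hρ, R_apply, ih, List.replicate_succ,
          List.flatten_cons, List.append_assoc]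
    have := hk (ν n w + 1) ⟨γ n, hx⟩ []
    rw [h0] at this
    simpa using this.symm

end Pool.Agent.Lib.Helper1.Nil
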