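import Pool.Agent.Lib.helper1.NilB

set_option autoImplicit false

namespace Pool.Agent.Lib.Helper1.Nil

open Finset Polynomial

variable {F : Type} [Field F]

def evA {A : Type} [Mul A] (X : Bool → A) : Bool → List Bool → A
  | s, [] => X s
  | s, s' :: l => X s * evA X s' l

lemma nil_of_alg {E : Type} [Ring E] [Algebra F E] (b : E) (hb : IsNilpotent b) (p : F[X])
    (hp : p ≠ 0) (h : aeval b (p * X) = 0) : b ^ (p.natDegree + 1) = 0 := by
  obtain ⟨e, he⟩ := hb
  have h1 : minpoly F b ∣ X ^ e := minpoly.dvd F b (by simpa using he)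
  have h2 : minpoly F b ∣ p * X := minpoly.dvd F b h
  obtain ⟨i, -, hi⟩ := (dvd_prime_pow Polynomial.prime_X e).1 h1
  have h3 : (X : F[X]) ^ i ∣ p * X := hi.symm.dvd.trans h2
  have h4 := natDegree_le_of_dvd h3 (mul_ne_zero hp X_ne_zero)
  rw [natDegree_X_pow, natDegree_mul_X hp] at h4
  have h5 : b ^ i = 0 := by
    obtain ⟨q, hq⟩ := hi.dvd
    have := congrArg (aeval b) hq
    simpa using this
  exact pow_eq_zero_of_le h4 h5

section
variable {A : Type} [NonUnitalRing A] [Module F A] [IsScalarTower F A A] [SMulCommClass F A A]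

theorem diag (ν : ℕ → Wd → ℕ)
    (h : ∀ X : Bool → A, ∃ n, ∀ s l, ∃ p : F[X], p ≠ 0 ∧ p.natDegree ≤ ν n (s :: l) ∧
      p.sum (fun i c => c • (fun x : A => evA X s l * x)^[i] (evA X s l)) = 0) :
    ∃ (B : Type) (_ : NonUnitalRing B) (_ : Module F B) (_ : IsScalarTower F B B)
      (_ : SMulCommClass F B B), (∀ b : B, ∃ n : ℕ, (fun x : B => b * x)^[n] b = 0) ∧
      Module.rank F B ≤ Cardinal.aleph0 ∧ ¬ ∃ f : A →ₙₐ[F] B, Function.Surjective f := by
  obtain ⟨E, _, _, ρ, B, hmul, hmem, hnil, hrank, hν⟩ := core F ν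
  have hit : ∀ (b : B) (n : ℕ), (((fun x : B => b * x)^[n] b : B) : E) = (b : E) ^ (n + 1) := by
    intro b n
    induction n with
    | zero => simp
    | succ n ih => rw [Function.iterate_succ_apply', pow_succ', ← ih]; rfl
  refine ⟨B, inferInstance, inferInstance, inferInstance, inferInstance, ?_, hrank, ?_⟩
  · intro b
    obtain ⟨e, he⟩ := hnil b b.2
    exact ⟨e, Subtype.ext (by rw [hit, pow_succ, he, zero_mul]; rfl)⟩
  · rintro ⟨f, hf⟩
    choose X hX using fun s : Bool => hf ⟨ρ [s], hmem _ (by simp)⟩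
    obtain ⟨n, hn⟩ := h X
    obtain ⟨w, hw, hw2⟩ := hν n
    obtain ⟨s, l, rfl⟩ := List.exists_cons_of_ne_nil hw
    obtain ⟨p, hp, hd, hs⟩ := hn s l
    have h1 : ∀ (l : List Bool) (s : Bool), ((f (evA X s l) : B) : E) = ρ (s :: l) := by
      intro l
      induction l with
      | nil => intro s; rw [evA, hX]
      | cons s' l ih =>
        intro s
        rw [evA, map_mul, MulMemClass.coe_mul, ih, hX, ← hmul]; rfl
    have h2 : ∀ (a : A) (i : ℕ), f ((fun x : A => a * x)^[i] a)
        = (fun x : B => f a * x)^[i] (f a) := by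
      intro a i
      induction i with
      | zero => rfl
      | succ i ih => rw [Function.iterate_succ_apply', Function.iterate_succ_apply', map_mul, ih]
    have h3 : aeval (ρ (s :: l)) (p * Polynomial.X) = 0 := by
      have := congrArg (fun a => ((f a : B) : E)) hs
      simp only [Polynomial.sum, map_sum, map_smul, h2, AddSubmonoidClass.coe_finsetSum,
        SetLike.val_smul, hit, h1, map_zero, ZeroMemClass.coe_zero] at this
      rw [map_mul, aeval_X, aeval_eq_sum_range, Finset.sum_mul, ← this]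
      symm
      refine (Finset.sum_subset supp_subset_range_natDegree_succ ?_).trans ?_
      · intro i _ hi
        rw [notMem_support_iff.1 hi, zero_smul]
      · exact Finset.sum_congr rfl fun i _ => by rw [smul_mul_assoc, pow_succ]
    exact hw2 (pow_eq_zero_of_le (by omega)
      (nil_of_alg _ (hnil _ (hmem _ hw)) p hp h3))

theorem countable_case [Countable F] (hr : Module.rank F A ≤ Cardinal.aleph0)
    (h : ∀ a : A, ∃ p : F[X], p ≠ 0 ∧ p.sum (fun i c => c • (fun x : A => a * x)^[i] a) = 0) :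
    ∃ (B : Type) (_ : NonUnitalRing B) (_ : Module F B) (_ : IsScalarTower F B B)
      (_ : SMulCommClass F B B), (∀ b : B, ∃ n : ℕ, (fun x : B => b * x)^[n] b = 0) ∧
      Module.rank F B ≤ Cardinal.aleph0 ∧ ¬ ∃ f : A →ₙₐ[F] B, Function.Surjective f := by
  have hA : Countable A := by
    let b := Module.Basis.ofVectorSpace F A
    have : Countable (Module.Basis.ofVectorSpaceIndex F A) := by
      rw [← Cardinal.mk_le_aleph0_iff, b.mk_eq_rank'']; exact hr
    exact b.repr.injective.countable
  obtain ⟨e, he⟩ := exists_surjective_nat (Bool → A)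
  choose p hp1 hp2 using h
  refine diag (fun n w => match w with
    | [] => 0
    | s :: l => (p (evA (e n) s l)).natDegree) fun X => ?_
  obtain ⟨n, rfl⟩ := he X
  exact ⟨n, fun s l => ⟨p _, hp1 _, le_rfl, hp2 _⟩⟩

lemma avoid_fin (hF : Uncountable F) (m : ℕ) : ∀ f : ℕ → MvPolynomial (Fin m) F,
    (∀ d, f d ≠ 0) → ∃ c, ∀ d, MvPolynomial.eval c (f d) ≠ 0 := by
  induction m with
  | zero =>
    intro f hf
    refine ⟨Fin.elim0, fun d h => hf d ?_⟩
    rw [MvPolynomial.eq_C_of_isEmpty (f d)] at h ⊢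
    rw [MvPolynomial.eval_C] at h
    rw [h, map_zero]
  | succ m ih =>
    intro f hf
    obtain ⟨c, hc⟩ := ih (fun d => (MvPolynomial.finSuccEquiv F m (f d)).leadingCoeff)
      (fun d => leadingCoeff_ne_zero.2 (by simpa using hf d))
    have h1 : ∀ d, (MvPolynomial.finSuccEquiv F m (f d)).map (MvPolynomial.eval c) ≠ 0 := by
      intro d h
      have := congrArg (fun q => q.coeff (MvPolynomial.finSuccEquiv F m (f d)).natDegree) h
      simp only [coeff_map, coeff_zero] at this
      exact hc d this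
    have h2 : (⋃ d, {y | IsRoot ((MvPolynomial.finSuccEquiv F m (f d)).map
        (MvPolynomial.eval c)) y}).Countable :=
      Set.countable_iUnion fun d => (finite_setOfPred_isRoot (h1 d)).countable
    obtain ⟨y, hy⟩ : ∃ y, y ∉ ⋃ d, {y | IsRoot ((MvPolynomial.finSuccEquiv F m (f d)).map
        (MvPolynomial.eval c)) y} := by
      by_contra hc
      push Not at hc
      exact Set.not_countable_univ (Set.eq_univ_of_forall hc ▸ h2)
    refine ⟨Fin.cons y c, fun d h => hy (Set.mem_iUnion.2 ⟨d, ?_⟩)⟩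
    rw [MvPolynomial.eval_eq_eval_mv_eval'] at h
    exact h

lemma avoid (hF : Uncountable F) {ι : Type} [Fintype ι] (f : ℕ → MvPolynomial ι F)
    (hf : ∀ d, f d ≠ 0) : ∃ c, ∀ d, MvPolynomial.eval c (f d) ≠ 0 := by
  let e := Fintype.equivFin ι
  obtain ⟨c, hc⟩ := avoid_fin hF _ (fun d => MvPolynomial.rename e (f d))
    (fun d h => hf d (MvPolynomial.rename_injective e e.injective (by simpa using h)))
  exact ⟨c ∘ e, fun d => by simpa [MvPolynomial.eval_rename] using hc d⟩

def PF (F : Type) [Field F] (A : Type) [AddCommGroup A] [Module F A] (ι : Type) :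
    Submodule F ((ι → F) → A) :=
  Submodule.span F {g | ∃ (f : MvPolynomial ι F) (a : A), g = fun c => MvPolynomial.eval c f • a}

lemma PF_mul {ι : Type} (g g' : (ι → F) → A) (h : g ∈ PF F A ι) (h' : g' ∈ PF F A ι) :
    g * g' ∈ PF F A ι := by
  induction h using Submodule.span_induction with
  | mem x hx =>
    induction h' using Submodule.span_induction with
    | mem y hy =>
      obtain ⟨f, a, rfl⟩ := hx
      obtain ⟨f', a', rfl⟩ := hy
      refine Submodule.subset_span ⟨f * f', a * a', ?_⟩
      funext c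
      simp [smul_mul_smul_comm]
    | zero => rw [mul_zero]; exact Submodule.zero_mem _
    | add y z _ _ hy hz => rw [mul_add]; exact Submodule.add_mem _ hy hz
    | smul r y _ hy => rw [mul_smul_comm]; exact Submodule.smul_mem _ _ hy
  | zero => rw [zero_mul]; exact Submodule.zero_mem _
  | add y z _ _ hy hz => rw [add_mul]; exact Submodule.add_mem _ hy hz
  | smul r y _ hy => rw [smul_mul_assoc]; exact Submodule.smul_mem _ _ hy

omit [IsScalarTower F A A] [SMulCommClass F A A] in
lemma PF_poly {ι : Type} (ψ : A →ₗ[F] F) (g : (ι → F) → A) (h : g ∈ PF F A ι) :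
    ∃ f : MvPolynomial ι F, ∀ c, MvPolynomial.eval c f = ψ (g c) := by
  induction h using Submodule.span_induction with
  | mem x hx =>
    obtain ⟨f, a, rfl⟩ := hx
    exact ⟨f * MvPolynomial.C (ψ a), fun c => by simp⟩
  | zero => exact ⟨0, fun c => by simp⟩
  | add y z _ _ hy hz =>
    obtain ⟨f, hf⟩ := hy
    obtain ⟨f', hf'⟩ := hz
    exact ⟨f + f', fun c => by simp [hf, hf']⟩
  | smul r y _ hy =>
    obtain ⟨f, hf⟩ := hy
    exact ⟨MvPolynomial.C r * f, fun c => by simp [hf]⟩

omit [IsScalarTower F A A] [SMulCommClass F A A] in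
lemma iter_zero (a : A) {d d' : ℕ} (h : (fun x : A => a * x)^[d] a = 0) (hd : d ≤ d') :
    (fun x : A => a * x)^[d'] a = 0 := by
  induction d', hd using Nat.le_induction with
  | base => exact h
  | succ k _ ih => rw [Function.iterate_succ_apply', ih, mul_zero]

lemma bounded_index (hF : Uncountable F) {ι : Type} [Fintype ι]
    (h : ∀ a : A, ∃ n : ℕ, (fun x : A => a * x)^[n] a = 0) (g : (ι → F) → A)
    (hg : g ∈ PF F A ι) : ∃ d, ∀ c, (fun x : A => g c * x)^[d] (g c) = 0 := by
  by_contra hc
  push Not at hc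
  have h1 : ∀ d, (fun c => (fun x : A => g c * x)^[d] (g c)) ∈ PF F A ι := by
    intro d
    induction d with
    | zero => exact hg
    | succ d ih =>
      have := PF_mul _ _ hg ih
      convert this using 1
      funext c
      rw [Function.iterate_succ_apply']; rfl
  have h2 : ∀ d, ∃ f : MvPolynomial ι F, f ≠ 0 ∧
      ∀ c, (fun x : A => g c * x)^[d] (g c) = 0 → MvPolynomial.eval c f = 0 := by
    intro d
    obtain ⟨c, hc⟩ := hc d
    obtain ⟨ψ, hψ⟩ := not_forall.1 (fun h => hc ((Module.forall_dual_apply_eq_zero_iff F _).1 h))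
    obtain ⟨f, hf⟩ := PF_poly ψ _ (h1 d)
    refine ⟨f, fun h0 => hψ ?_, fun c' h' => by rw [hf, h', map_zero]⟩
    rw [← hf c, h0, map_zero]
  choose f hf1 hf2 using h2
  obtain ⟨c, hc'⟩ := avoid hF f hf1
  obtain ⟨d, hd⟩ := h (g c)
  exact hc' d (hf2 d c hd)

theorem nil_case (hr : Module.rank F A ≤ Cardinal.aleph0)
    (h : ∀ a : A, ∃ n : ℕ, (fun x : A => a * x)^[n] a = 0) :
    ∃ (B : Type) (_ : NonUnitalRing B) (_ : Module F B) (_ : IsScalarTower F B B)
      (_ : SMulCommClass F B B), (∀ b : B, ∃ n : ℕ, (fun x : B => b * x)^[n] b = 0) ∧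
      Module.rank F B ≤ Cardinal.aleph0 ∧ ¬ ∃ f : A →ₙₐ[F] B, Function.Surjective f := by
  have hX : ∀ (a : A) (d : ℕ), (fun x : A => a * x)^[d] a = 0 →
      ((X : F[X]) ^ d).sum (fun i c => c • (fun x : A => a * x)^[i] a) = 0 := by
    intro a d hd
    rw [← monomial_one_right_eq_X_pow, sum_monomial_index _ _ (by simp), hd, smul_zero]
  by_cases hF : Countable F
  · refine countable_case hr fun a => ?_
    obtain ⟨d, hd⟩ := h a
    exact ⟨X ^ d, pow_ne_zero _ X_ne_zero, hX a d hd⟩
  replace hF : Uncountable F := not_countable_iff.1 hF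
  obtain ⟨b, hb⟩ : ∃ b : ℕ → A, Submodule.span F (Set.range b) = ⊤ := by
    let b := Module.Basis.ofVectorSpace F A
    have : Countable (Module.Basis.ofVectorSpaceIndex F A) := by
      rw [← Cardinal.mk_le_aleph0_iff, b.mk_eq_rank'']; exact hr
    obtain ⟨e, he⟩ := ((Set.countable_range b).insert 0).exists_eq_range (by simp)
    exact ⟨e, by rw [← he, Submodule.span_insert_zero, b.span_eq]⟩
  let Y : (n : ℕ) → (Bool × Fin n → F) → Bool → A := fun n c s => ∑ i : Fin n, c (s, i) • b i
  have hY : ∀ n (l : List Bool) (s : Bool),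
      (fun c => evA (Y n c) s l) ∈ PF F A (Bool × Fin n) := by
    intro n
    have h0 : ∀ s, (fun c => Y n c s) ∈ PF F A (Bool × Fin n) := by
      intro s
      have := (PF F A (Bool × Fin n)).sum_mem (t := univ)
        (f := fun i : Fin n => fun c : Bool × Fin n → F => c (s, i) • b i)
        (fun i _ => Submodule.subset_span ⟨MvPolynomial.X (s, i), b i, by simp⟩)
      convert this using 1
      funext c; simp [Y, Finset.sum_apply]
    intro l
    induction l with
    | nil => exact h0
    | cons s' l ih => exact fun s => PF_mul _ _ (h0 s) (ih s')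
  choose d hd using fun n l s => bounded_index hF h _ (hY n l s)
  refine diag (fun n w => match w with
    | [] => 0
    | s :: l => d n l s) fun X' => ?_
  have h1 : ∀ s, ∃ l : ℕ →₀ F, Finsupp.linearCombination F b l = X' s := fun s => by
    have : X' s ∈ Submodule.span F (Set.range b) := hb ▸ Submodule.mem_top
    rwa [← Finsupp.range_linearCombination, LinearMap.mem_range] at this
  choose l hl using h1
  obtain ⟨n, hn⟩ : ∃ n, ∀ s, (l s).support ⊆ range n := by
    refine ⟨((l true).support ∪ (l false).support).sup id + 1, fun s i hi => ?_⟩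
    have : i ≤ ((l true).support ∪ (l false).support).sup id :=
      Finset.le_sup (f := id) (by cases s <;> simp_all)
    simp only [mem_range]; omega
  have h2 : X' = Y n (fun p => l p.1 p.2) := by
    funext s
    rw [← hl s, Finsupp.linearCombination_apply, Finsupp.sum_of_support_subset _ (hn s) _ (by simp),
      ← Fin.sum_univ_eq_sum_range (fun i => l s i • b i)]
  refine ⟨n, fun s w => ⟨X ^ d n w s, pow_ne_zero _ X_ne_zero, by simp, hX _ _ ?_⟩⟩
  rw [h2]; exact hd n w s (fun p => l p.1 p.2)

end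

end Pool.Agent.Lib.Helper1.Nil
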