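import Mathlib

set_option autoImplicit false

namespace Pool.Agent.Lib.helper1.Pa

open MeasureTheory ProbabilityTheory Set Filter Topology
open scoped ENNReal NNReal

variable {X : Type*} [MeasurableSpace X]

lemma pi_mono {ι : Type*} [Fintype ι] {μ ν : Measure X} (h : μ ≤ ν) :
    Measure.pi (fun _ : ι => μ) ≤ Measure.pi fun _ : ι => ν := by
  refine Measure.le_iff.2 fun s hs => ?_
  rw [Measure.pi_def, Measure.pi_def, toMeasure_apply _ _ hs, toMeasure_apply _ _ hs]
  refine OuterMeasure.le_pi.2 (fun t _ => (OuterMeasure.pi_pi_le _ t).trans ?_) s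
  exact Finset.prod_le_prod' fun i _ => Measure.le_iff'.1 h _

lemma pi_smul (m : ℕ) (c : ℝ≥0) (Q : Measure X) [IsProbabilityMeasure Q] :
    Measure.pi (fun _ : Fin m => c • Q) = c ^ m • Measure.pi fun _ : Fin m => Q :=
  Measure.pi_eq fun s _ => by
    simp [Measure.pi_pi, Finset.prod_mul_distrib]; rw [ENNReal.smul_def, ENNReal.coe_pow, smul_eq_mul]

lemma block_lower {m : ℕ} {P Q : Measure X} [IsProbabilityMeasure P] [IsProbabilityMeasure Q]
    {c : ℝ≥0} {η : ℝ} (h : ∀ E, MeasurableSet E → c * (Q.real E - η) ≤ P.real E)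
    (hη : η ≤ 1) (hm : m * η ≤ 1 / 2) {G : Set (Fin m → X)} (mG : MeasurableSet G)
    (hG : (Measure.pi fun _ : Fin m => Q).real Gᶜ ≤ 1 / 4) :
    (c : ℝ) ^ m / 4 ≤ (Measure.pi fun _ : Fin m => P).real G := by
  obtain ⟨s, hs, h1, h2⟩ := hahn_decomposition P (c • Q)
  set M := (c • Q).restrict s + P.restrict sᶜ with hM
  have m1 : M ≤ P := Measure.le_iff.2 fun t ht => by
    rw [hM, Measure.add_apply, Measure.restrict_apply ht, Measure.restrict_apply ht,
      ← measure_inter_add_sdiff (μ := P) t hs]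
    exact add_le_add (h1 _ (ht.inter hs) inter_subset_right) le_rfl
  have m2 : M ≤ c • Q := Measure.le_iff.2 fun t ht => by
    rw [hM, Measure.add_apply, Measure.restrict_apply ht, Measure.restrict_apply ht,
      ← measure_inter_add_sdiff (μ := c • Q) t hs]
    exact add_le_add le_rfl (h2 _ (ht.inter hs.compl) inter_subset_right)
  have m3 : c * (1 - η) ≤ M.real univ := by
    have := h sᶜ hs.compl
    have e := probReal_add_probReal_compl (μ := Q) hs
    rw [hM, measureReal_add_apply, measureReal_restrict_apply_univ, measureReal_restrict_apply_univ,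
      measureReal_nnreal_smul_apply]
    rw [← e]; linarith
  have a1 : (Measure.pi fun _ : Fin m => M).real G ≤ (Measure.pi fun _ : Fin m => P).real G :=
    ENNReal.toReal_mono (measure_ne_top _ _) (Measure.le_iff'.1 (pi_mono m1) _)
  have a2 : (Measure.pi fun _ : Fin m => M).real Gᶜ ≤
      (c : ℝ) ^ m * (Measure.pi fun _ : Fin m => Q).real Gᶜ := by
    have := ENNReal.toReal_mono (measure_ne_top _ _) (Measure.le_iff'.1 (pi_mono (ι := Fin m) m2) Gᶜ)
    rw [pi_smul] at this
    simpa [Measure.real] using this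
  have a3 := measureReal_add_measureReal_compl (μ := Measure.pi fun _ : Fin m => M) mG
  have a4 : (Measure.pi fun _ : Fin m => M).real univ = M.real univ ^ m := by
    simp [Measure.real, Measure.pi_univ]
  have a5 : ((c : ℝ) * (1 - η)) ^ m ≤ M.real univ ^ m :=
    pow_le_pow_left₀ (mul_nonneg c.2 (by linarith)) m3 m
  have a6 : 1 + m * (-η) ≤ (1 + -η) ^ m := one_add_mul_le_pow (by linarith) m
  have c0 : (0 : ℝ) ≤ (c : ℝ) ^ m := by positivity
  rw [mul_pow, sub_eq_add_neg] at a5
  nlinarith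

lemma int01 {Z : X → ℝ} (mZ : Measurable Z) (h : ∀ x, 0 ≤ Z x ∧ Z x ≤ 1) (P : Measure X)
    [IsFiniteMeasure P] : Integrable Z P :=
  Integrable.of_bound mZ.aestronglyMeasurable 1 (ae_of_all _ fun x => by
    rw [Real.norm_eq_abs, abs_le]; constructor <;> linarith [h x])

lemma val_good {n : ℕ} (hn : 0 < n) {P : Measure X} [IsProbabilityMeasure P] {Z : X → ℝ}
    (mZ : Measurable Z) (h : ∀ x, 0 ≤ Z x ∧ Z x ≤ 1) {a : ℝ} (ha : 0 < a) :
    (Measure.pi fun _ : Fin n => P).real {y | n * a ≤ ∑ i, Z (y i)} ≤ (∫ x, Z x ∂P) / a := by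
  have i1 : ∀ i : Fin n, Integrable (fun y : Fin n → X => Z (y i)) (Measure.pi fun _ => P) :=
    fun i => int01 (mZ.comp (measurable_pi_apply i)) (fun _ => h _) _
  have := mul_meas_ge_le_integral_of_nonneg (μ := Measure.pi fun _ : Fin n => P)
    (f := fun y => ∑ i, Z (y i)) (ae_of_all _ fun y => Finset.sum_nonneg fun i _ => (h _).1)
    (integrable_finsetSum _ fun i _ => i1 i) (n * a)
  rw [integral_finsetSum _ fun i _ => i1 i] at this
  have e : ∀ i : Fin n, ∫ y, Z (y i) ∂(Measure.pi fun _ : Fin n => P) = ∫ x, Z x ∂P := fun i => by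
    have := (measurePreserving_eval (fun _ : Fin n => P) i).map_eq
    conv_rhs => rw [← this]
    rw [integral_map (measurable_pi_apply i).aemeasurable mZ.aestronglyMeasurable]
  simp only [e, Finset.sum_const, Finset.card_univ, Fintype.card_fin, nsmul_eq_mul] at this
  rw [le_div_iff₀ ha]
  have hn' : (0 : ℝ) < n := by exact_mod_cast hn
  nlinarith

lemma val_bad {n : ℕ} {P : Measure X} [IsProbabilityMeasure P] {Z : X → ℝ}
    (mZ : Measurable Z) (h : ∀ x, 0 ≤ Z x ∧ Z x ≤ 1) {a : ℝ} (hd : 4 * a ≤ ∫ x, Z x ∂P) :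
    (Measure.pi fun _ : Fin n => P).real {y | ∑ i, Z (y i) < n * a} ≤ Real.exp (-(n * a)) := by
  have b : ∀ x, 0 ≤ Real.exp (-Z x) ∧ Real.exp (-Z x) ≤ 1 := fun x =>
    ⟨(Real.exp_pos _).le, Real.exp_le_one_iff.2 (by linarith [h x])⟩
  have := mul_meas_ge_le_integral_of_nonneg (μ := Measure.pi fun _ : Fin n => P)
    (f := fun y => ∏ i, Real.exp (-Z (y i)))
    (ae_of_all _ fun y => Finset.prod_nonneg fun i _ => (b _).1)
    (int01 (by fun_prop) (fun y => ⟨Finset.prod_nonneg fun i _ => (b _).1,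
      Finset.prod_le_one (fun i _ => (b _).1) fun i _ => (b _).2⟩) _) (Real.exp (-(n * a)))
  rw [integral_fintype_prod_eq_pow (fun x => Real.exp (-Z x)), Fintype.card_fin] at this
  have e1 : ∫ x, Real.exp (-Z x) ∂P ≤ Real.exp (-(2 * a)) := by
    calc _ ≤ ∫ x, (1 - Z x / 2) ∂P := by
          refine integral_mono (int01 (by fun_prop) b _)
            ((integrable_const 1).sub ((int01 mZ h _).div_const 2)) fun x => ?_
          obtain ⟨h0, h1⟩ := h x
          dsimp only
          rw [Real.exp_neg, inv_le_comm₀ (Real.exp_pos _) (by linarith), inv_eq_one_div,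
            div_le_iff₀ (by linarith)]
          nlinarith [Real.add_one_le_exp (Z x)]
      _ ≤ _ := by
          rw [integral_sub (integrable_const 1) ((int01 mZ h _).div_const 2), integral_div]
          simp only [integral_const, probReal_univ, smul_eq_mul, mul_one]
          linarith [Real.add_one_le_exp (-(2 * a))]
  have e2 : (∫ x, Real.exp (-Z x) ∂P) ^ n ≤ Real.exp (-(n * a)) * Real.exp (-(n * a)) := by
    refine (pow_le_pow_left₀ (integral_nonneg fun x => (b x).1) e1 n).trans_eq ?_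
    rw [← Real.exp_nat_mul, ← Real.exp_add]; congr 1; ring
  refine le_trans (measureReal_mono fun y hy => ?_)
    (le_of_mul_le_mul_left (this.trans e2) (Real.exp_pos _))
  show Real.exp _ ≤ ∏ i, Real.exp (-Z (y i))
  rw [← Real.exp_sum, Finset.sum_neg_distrib]
  exact Real.exp_le_exp.2 (neg_le_neg (le_of_lt hy))

lemma split {L k n m : ℕ} (h : L * k + n ≤ m) :
    ∃ (α : Fin L → Fin k → Fin m) (β : Fin n → Fin m), ∀ (P : Measure X) [IsProbabilityMeasure P],
      MeasurePreserving (fun x : Fin m → X => (fun l i => x (α l i), fun i => x (β i)))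
        (Measure.pi fun _ => P)
        ((Measure.pi fun _ : Fin L => Measure.pi fun _ : Fin k => P).prod
          (Measure.pi fun _ : Fin n => P)) := by
  obtain ⟨e⟩ : Nonempty ((Fin L × Fin k) ⊕ Fin n ↪ Fin m) :=
    Function.Embedding.nonempty_of_card_le (by simpa using h)
  refine ⟨fun l i => e (.inl (l, i)), fun i => e (.inr i), fun P _ => ?_⟩
  have h1 : MeasurePreserving (fun (x : Fin m → X) i => x (e i)) (Measure.pi fun _ => P)
      (Measure.pi fun _ => P) := ⟨by fun_prop, by
    simpa only [Measure.infinitePi_eq_pi] using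
      Measure.map_infinitePi_infinitePi_of_inj (P := fun _ : Fin m => P) e.injective⟩
  have h2 := measurePreserving_sumPiEquivProdPi (X := fun _ : (Fin L × Fin k) ⊕ Fin n => X)
    fun _ => P
  have h3 : MeasurePreserving (MeasurableEquiv.curry (Fin L) (Fin k) X) (Measure.pi fun _ => P)
      (Measure.pi fun _ : Fin L => Measure.pi fun _ : Fin k => P) :=
    ⟨(MeasurableEquiv.measurable _), by
      simpa only [Measure.infinitePi_eq_pi] using
        Measure.infinitePi_map_curry (fun (_ : Fin L) (_ : Fin k) => P)⟩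
  exact ((h3.prod (MeasurePreserving.id _)).comp h2).comp h1

lemma ctbl {Y : Type*} {A : Set (Set Y)} {E : Set Y}
    (h : MeasurableSet[MeasurableSpace.generateFrom A] E) :
    ∃ B ⊆ A, B.Countable ∧ MeasurableSet[MeasurableSpace.generateFrom B] E := by
  induction h with
  | basic u hu => exact ⟨{u}, by simpa, countable_singleton _, .basic _ rfl⟩
  | empty => exact ⟨∅, empty_subset _, countable_empty, @MeasurableSet.empty _ (_)⟩
  | compl u _ ih => obtain ⟨B, h1, h2, h3⟩ := ih; exact ⟨B, h1, h2, h3.compl⟩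
  | iUnion f _ ih =>
    choose B h1 h2 h3 using ih
    exact ⟨⋃ i, B i, iUnion_subset h1, countable_iUnion h2, .iUnion fun i =>
      MeasurableSpace.generateFrom_mono (subset_iUnion B i) _ (h3 i)⟩

lemma sections {Y : Type*} [MeasurableSpace Y] {Φ : Y × X → ℝ} (hΦ : Measurable Φ) :
    ∃ D : Set (Set X), D.Countable ∧ (∀ t ∈ D, MeasurableSet t) ∧
      ∀ y, Measurable[MeasurableSpace.generateFrom D] fun x => Φ (y, x) := by
  have h1 : ∀ q : ℚ, MeasurableSet[MeasurableSpace.generateFrom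
      (image2 (· ×ˢ ·) {s : Set Y | MeasurableSet s} {t : Set X | MeasurableSet t})]
      (Φ ⁻¹' Iio q) := fun q => by
    rw [generateFrom_prod]; exact hΦ measurableSet_Iio
  choose B b1 b2 b3 using fun q => ctbl (h1 q)
  have h2 : ∀ u ∈ ⋃ q, B q, ∃ s t, MeasurableSet t ∧ s ×ˢ t = u := fun u hu => by
    obtain ⟨q, hq⟩ := mem_iUnion.1 hu
    obtain ⟨s, -, t, ht, rfl⟩ := b1 q hq
    exact ⟨s, t, ht, rfl⟩
  choose! s t ht hst using h2
  refine ⟨t '' ⋃ q, B q, (countable_iUnion b2).image _, ?_, fun y => ?_⟩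
  · rintro _ ⟨u, hu, rfl⟩; exact ht u hu
  have h3 : ∀ q, @Measurable X (Y × X) (MeasurableSpace.generateFrom (t '' ⋃ q, B q))
      (MeasurableSpace.generateFrom (B q)) (Prod.mk y) := fun q =>
    @measurable_generateFrom _ _ (_) _ _ fun u hu => by
      classical
      have hu' : u ∈ ⋃ q, B q := mem_iUnion.2 ⟨q, hu⟩
      rw [← hst u hu', mk_preimage_prod_right_eq_if]
      split_ifs
      · exact .basic _ ⟨u, hu', rfl⟩
      · exact @MeasurableSet.empty _ (_)
  have h4 : (inferInstance : MeasurableSpace ℝ) =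
      MeasurableSpace.generateFrom (⋃ q : ℚ, {Iio (q : ℝ)}) :=
    BorelSpace.measurable_eq.trans Real.borel_eq_generateFrom_Iio_rat
  have : @Measurable X ℝ (MeasurableSpace.generateFrom (t '' ⋃ q, B q))
      (MeasurableSpace.generateFrom (⋃ q : ℚ, {Iio (q : ℝ)})) fun x => Φ (y, x) :=
    @measurable_generateFrom _ _ (_) _ _ fun u hu => by
      obtain ⟨q, rfl⟩ : ∃ q : ℚ, Iio (q : ℝ) = u := by simpa using hu
      exact h3 q (b3 q)
  rwa [← h4] at this

lemma net_sections {Y : Type*} [MeasurableSpace Y] {Φ : Y × X → ℝ} (hΦ : Measurable Φ)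
    (h : ∀ p, 0 ≤ Φ p ∧ Φ p ≤ 1) (Q : Measure X) [IsProbabilityMeasure Q] {ε : ℝ} (hε : 0 < ε) :
    ∃ c : Y → ℕ, ∀ y y', c y = c y' → ∫ x, |Φ (y, x) - Φ (y', x)| ∂Q < ε := by
  obtain ⟨D, hD, mD, hs⟩ := sections hΦ
  have hle : MeasurableSpace.generateFrom D ≤ ‹MeasurableSpace X› :=
    MeasurableSpace.generateFrom_le mD
  have key : ∃ c : Y → ℕ, ∀ y y', c y = c y' → ∫ x, |Φ (y, x) - Φ (y', x)| ∂(Q.trim hle) < ε := by
    have hp : IsFiniteMeasure (Q.trim hle) := isFiniteMeasure_trim hle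
    generalize Q.trim hle = R at *
    letI : MeasurableSpace X := MeasurableSpace.generateFrom D
    haveI : MeasurableSpace.CountablyGenerated X := ⟨D, hD, rfl⟩
    have i1 : ∀ y, Integrable (fun x => Φ (y, x)) R := fun y => int01 (hs y) (fun _ => h _) R
    haveI : Fact ((1 : ℝ≥0∞) ≠ ∞) := ⟨ENNReal.one_ne_top⟩
    obtain ⟨u, hu⟩ := TopologicalSpace.exists_dense_seq (Lp ℝ 1 R)
    choose c hc using fun y => Metric.denseRange_iff.1 hu ((i1 y).toL1 _) _ (half_pos hε)
    refine ⟨c, fun y y' e => ?_⟩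
    have := dist_triangle_right ((i1 y).toL1 _) ((i1 y').toL1 _) (u (c y))
    have h2 := hc y'
    rw [← e] at h2
    rw [dist_eq_norm, ← Integrable.toL1_sub, L1.norm_of_fun_eq_integral_norm] at this
    exact lt_of_le_of_lt this (by linarith [hc y])
  obtain ⟨c, hc⟩ := key
  refine ⟨c, fun y y' e => ?_⟩
  have sm : StronglyMeasurable[MeasurableSpace.generateFrom D] fun x => |Φ (y, x) - Φ (y', x)| := by
    let _ : MeasurableSpace X := MeasurableSpace.generateFrom D
    exact ((hs y).sub (hs y')).abs.stronglyMeasurable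
  rw [integral_trim hle sm]
  exact hc y y' e

end Pool.Agent.Lib.helper1.Pa
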