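import Pool.Agent.Lib.helper1.Pa1

set_option autoImplicit false

namespace Pool.Agent.Lib.helper1.Pa

open MeasureTheory ProbabilityTheory Set Filter Topology
open scoped ENNReal NNReal unitInterval

variable {X : Type*} [MeasurableSpace X]

noncomputable def rho (P Q : ProbabilityMeasure X) : ℝ :=
  ⨆ A : {A : Set X // MeasurableSet A}, |(P : Measure X).real A - (Q : Measure X).real A|

def TB (S : Set (ProbabilityMeasure X)) : Prop :=
  ∀ ε > 0, ∃ T : Finset (ProbabilityMeasure X), ∀ P ∈ S, ∃ Q ∈ T, rho P Q < ε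

def clos (S : Set (ProbabilityMeasure X)) : Set (ProbabilityMeasure X) :=
  {P | ∀ ε > 0, ∃ Q ∈ S, rho P Q < ε}

def hull (S : Set (ProbabilityMeasure X)) : Set (ProbabilityMeasure X) :=
  {P | ∃ (l : ℕ) (w : Fin l → ℝ≥0) (R : Fin l → ProbabilityMeasure X), (∀ i, R i ∈ S) ∧
    ∑ i, w i = 1 ∧ (P : Measure X) = ∑ i, w i • (R i : Measure X)}

noncomputable def dd (P : ProbabilityMeasure X) (f g : X → I) : ℝ :=
  ∫ x, |(f x : ℝ) - g x| ∂(P : Measure X)

lemma rho_le (P Q : ProbabilityMeasure X) {A : Set X} (hA : MeasurableSet A) :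
    |(P : Measure X).real A - (Q : Measure X).real A| ≤ rho P Q :=
  le_ciSup (f := fun A : {A : Set X // MeasurableSet A} =>
    |(P : Measure X).real A - (Q : Measure X).real A|) ⟨1, by
      rintro _ ⟨A, rfl⟩
      have := measureReal_le_one (μ := (P : Measure X)) (s := A)
      have := measureReal_le_one (μ := (Q : Measure X)) (s := A)
      have := measureReal_nonneg (μ := (P : Measure X)) (s := A)
      have := measureReal_nonneg (μ := (Q : Measure X)) (s := A)
      dsimp only
      rw [abs_le]; constructor <;> linarith⟩ ⟨A, hA⟩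

lemma net {S : Set (ProbabilityMeasure X)} (h : TB S) {η : ℝ} (hη : 0 < η) :
    ∃ (k : ℕ) (Q : Fin k → ProbabilityMeasure X), (∀ j, Q j ∈ S) ∧ ∀ P ∈ S, ∃ j,
      ∀ E, MeasurableSet E → |(P : Measure X).real E - (Q j : Measure X).real E| ≤ η := by
  classical
  obtain ⟨T, hT⟩ := h _ (half_pos hη)
  set T' := T.filter fun Q => ∃ P ∈ S, rho P Q < η / 2 with hT'
  choose r h1 h2 using fun Q : T' => (Finset.mem_filter.1 Q.2).2
  refine ⟨T'.card, fun j => r (T'.equivFin.symm j), fun j => h1 _, fun P hP => ?_⟩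
  obtain ⟨Q, hQ, h3⟩ := hT P hP
  refine ⟨T'.equivFin ⟨Q, Finset.mem_filter.2 ⟨hQ, P, hP, h3⟩⟩, fun E hE => ?_⟩
  simp only [Equiv.symm_apply_apply]
  have a := abs_le.1 ((rho_le P Q hE).trans h3.le)
  have b := abs_le.1 ((rho_le _ _ hE).trans (h2 ⟨Q, Finset.mem_filter.2 ⟨hQ, P, hP, h3⟩⟩).le)
  rw [abs_le]; constructor <;> linarith [a.1, a.2, b.1, b.2]

lemma struct {S : Set (ProbabilityMeasure X)} {η : ℝ} (hη : 0 < η) (hη1 : η ≤ 1) {k : ℕ}
    {Q : Fin k → ProbabilityMeasure X} (hQ : ∀ P ∈ S, ∃ j,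
      ∀ E, MeasurableSet E → |(P : Measure X).real E - (Q j : Measure X).real E| ≤ η)
    {P : ProbabilityMeasure X} (hP : P ∈ clos (hull S)) : ∃ J : Finset (Fin k),
      (∀ j ∈ J, ∀ E, MeasurableSet E →
        η / (k + 1) * ((Q j : Measure X).real E - 2 * η) ≤ (P : Measure X).real E) ∧
      ∀ E, MeasurableSet E → ∀ t, 0 ≤ t → (∀ j ∈ J, (Q j : Measure X).real E ≤ t) →
        (P : Measure X).real E ≤ t + 3 * η := by
  classical
  set c := η / (k + 1) with hc
  have c0 : 0 < c := by positivity
  have ck : c * (k + 1) = η := by rw [hc]; field_simp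
  have k0 : (0 : ℝ) ≤ k := Nat.cast_nonneg k
  obtain ⟨P', ⟨l, w, R, hR, hw, e⟩, h1⟩ := hP (c * η) (by positivity)
  choose idx hidx using fun i => hQ (R i) (hR i)
  have hw' : ∑ i, (w i : ℝ) = 1 := by exact_mod_cast hw
  have ev : ∀ E, (P' : Measure X).real E = ∑ i, (w i : ℝ) * (R i : Measure X).real E := fun E => by
    rw [e, Measure.real, Measure.finsetSum_apply, ENNReal.toReal_sum fun i _ => measure_ne_top _ _]
    simp [Measure.real]
  set μ : Fin k → ℝ := fun j => ∑ i with idx i = j, (w i : ℝ) with hμ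
  refine ⟨Finset.univ.filter fun j => c ≤ μ j, fun j hj E hE => ?_, fun E hE t ht h => ?_⟩
  · have a := (abs_le.1 ((rho_le P P' hE).trans h1.le)).1
    have b : μ j * max ((Q j : Measure X).real E - η) 0 ≤ (P' : Measure X).real E := by
      rw [ev, hμ, Finset.sum_mul]
      refine le_trans (Finset.sum_le_sum fun i hi => ?_) (Finset.sum_le_sum_of_subset_of_nonneg
        (Finset.subset_univ (Finset.univ.filter fun i => idx i = j)) fun i _ _ => by positivity)
      refine mul_le_mul_of_nonneg_left (max_le ?_ measureReal_nonneg) (w i).2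
      have := (abs_le.1 (hidx i E hE)).1
      rw [(Finset.mem_filter.1 hi).2] at this; linarith
    have d := mul_le_mul (Finset.mem_filter.1 hj).2 (le_refl (max ((Q j : Measure X).real E - η) 0))
      (le_max_right _ _) (c0.le.trans (Finset.mem_filter.1 hj).2)
    have := mul_le_mul_of_nonneg_left (le_max_left ((Q j : Measure X).real E - η) 0) c0.le
    linarith
  · have a := (abs_le.1 ((rho_le P P' hE).trans h1.le)).2
    have b : (P' : Measure X).real E ≤
        ∑ i, ((w i : ℝ) * (t + η) + if c ≤ μ (idx i) then 0 else (w i : ℝ)) := by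
      rw [ev]
      refine Finset.sum_le_sum fun i _ => ?_
      have w0 : (0 : ℝ) ≤ w i := (w i).2
      split_ifs with hi
      · have := (abs_le.1 (hidx i E hE)).2
        have := h (idx i) (by simpa using hi)
        nlinarith
      · have := measureReal_le_one (μ := (R i : Measure X)) (s := E)
        nlinarith
    have d : ∑ i, (if c ≤ μ (idx i) then 0 else (w i : ℝ)) ≤ ∑ _j : Fin k, c := by
      rw [← Finset.sum_fiberwise Finset.univ idx]
      refine Finset.sum_le_sum fun j _ => ?_
      rw [Finset.sum_congr rfl (g := fun i => if c ≤ μ j then 0 else (w i : ℝ))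
        fun i hi => by rw [(Finset.mem_filter.1 hi).2]]
      split_ifs with hj
      · simpa using c0.le
      · exact (not_le.1 hj).le
    rw [Finset.sum_add_distrib, ← Finset.sum_mul, hw'] at b
    simp only [Finset.sum_const, Finset.card_univ, Fintype.card_fin, nsmul_eq_mul] at d
    nlinarith

lemma b01 (a b : I) : 0 ≤ |(a : ℝ) - b| ∧ |(a : ℝ) - b| ≤ 1 :=
  ⟨abs_nonneg _, by rw [abs_le]; constructor <;> linarith [a.2.1, a.2.2, b.2.1, b.2.2]⟩

lemma mz {f g : X → I} (hf : Measurable f) (hg : Measurable g) :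
    Measurable fun x => |(f x : ℝ) - g x| := (hf.subtype_val.sub hg.subtype_val).abs

lemma dd_tri (P : ProbabilityMeasure X) {f g h : X → I} (hf : Measurable f) (hg : Measurable g)
    (hh : Measurable h) : dd P f h ≤ dd P f g + dd P g h := by
  unfold dd
  rw [← integral_add (int01 (mz hf hg) (fun _ => b01 _ _) _) (int01 (mz hg hh) (fun _ => b01 _ _) _)]
  exact integral_mono (int01 (mz hf hh) (fun _ => b01 _ _) _)
    ((int01 (mz hf hg) (fun _ => b01 _ _) _).add (int01 (mz hg hh) (fun _ => b01 _ _) _))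
    fun x => abs_sub_le _ _ _

lemma dd_comm (P : ProbabilityMeasure X) (f g : X → I) : dd P f g = dd P g f := by
  simp only [dd, abs_sub_comm]

lemma dd_markov (P : ProbabilityMeasure X) {f g : X → I} (hf : Measurable f) (hg : Measurable g)
    {τ : ℝ} (hτ : 0 ≤ τ) : τ * (P : Measure X).real {x | τ ≤ |(f x : ℝ) - g x|} ≤ dd P f g ∧
      dd P f g ≤ τ + (P : Measure X).real {x | τ ≤ |(f x : ℝ) - g x|} := by
  have i := int01 (mz hf hg) (fun _ => b01 _ _) (P : Measure X)
  have mE : MeasurableSet {x | τ ≤ |(f x : ℝ) - g x|} := measurableSet_le measurable_const (mz hf hg)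
  refine ⟨mul_meas_ge_le_integral_of_nonneg (ae_of_all _ fun _ => abs_nonneg _) i τ, ?_⟩
  calc _ ≤ ∫ x, (τ + indicator {x | τ ≤ |(f x : ℝ) - g x|} 1 x) ∂(P : Measure X) := by
        refine integral_mono i ((integrable_const _).add ((integrable_const 1).indicator mE))
          fun x => ?_
        by_cases h : τ ≤ |(f x : ℝ) - g x|
        · simp only [indicator, mem_ofPred_eq, h, if_true, Pi.one_apply]
          linarith [(b01 (f x) (g x)).2]
        · simp only [indicator, mem_ofPred_eq, h, if_false]; linarith [not_le.1 h]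
    _ = _ := by
        rw [integral_add (integrable_const _) ((integrable_const 1).indicator mE),
          integral_indicator_one mE]; simp

lemma meas_dd {Y : Type*} [MeasurableSpace Y] (P : ProbabilityMeasure X) {a b : Y → X → I}
    (ha : Measurable fun p : Y × X => a p.1 p.2) (hb : Measurable fun p : Y × X => b p.1 p.2) :
    Measurable fun y => dd P (a y) (b y) :=
  ((mz ha hb).stronglyMeasurable.integral_prod_right' (ν := (P : Measure X))).measurable

lemma meas_sInf {Y : Type*} [MeasurableSpace Y] {p : ℕ → Y → Prop}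
    (hp : ∀ n, MeasurableSet {y | p n y}) : Measurable fun y => sInf {n | p n y} := by
  classical
  have h : ∀ y, ∃ n, p n y ∨ ∀ m, ¬ p m y := fun y => by
    by_cases h : ∃ n, p n y
    · exact h.imp fun _ => Or.inl
    · exact ⟨0, Or.inr (not_exists.1 h)⟩
  have : (fun y => sInf {n | p n y}) = fun y => Nat.find (h y) := by
    funext y
    by_cases h' : ∃ n, p n y
    · rw [Nat.sInf_def (s := {n | p n y}) h']
      have : ∀ n, (p n y ∨ ∀ m, ¬ p m y) ↔ p n y := fun n =>
        or_iff_left fun h'' => h'.elim fun m hm => h'' m hm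
      simp only [this]
    · rw [(Nat.find_eq_zero _).2 (Or.inr (not_exists.1 h'))]
      exact Nat.sInf_eq_zero.2 (Or.inr (eq_empty_of_forall_notMem (not_exists.1 h')))
  rw [this]
  refine measurable_find h fun k => (hp k).union ?_
  show MeasurableSet {y | ∀ m, ¬ p m y}
  rw [ofPred_forall]
  exact .iInter fun m => (hp m).compl

lemma sec {Y Z : Type*} [MeasurableSpace Y] [MeasurableSpace Z] (μ : Measure Y) (ν : Measure Z)
    [IsProbabilityMeasure μ] [IsProbabilityMeasure ν] {N : Y → ℕ} (hN : Measurable N)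
    {V : ℕ → Set Z} (mV : ∀ n, MeasurableSet (V n)) {b : ℝ} (hb : ∀ n, ν.real (V n) ≤ b) :
    (μ.prod ν).real {p | p.2 ∈ V (N p.1)} ≤ b := by
  have m : MeasurableSet {p : Y × Z | p.2 ∈ V (N p.1)} := by
    have : {p : Y × Z | p.2 ∈ V (N p.1)} = ⋃ n, (N ⁻¹' {n}) ×ˢ V n := by ext; simp
    rw [this]
    exact .iUnion fun n => (hN (measurableSet_singleton n)).prod (mV n)
  refine ENNReal.toReal_le_of_le_ofReal (measureReal_nonneg.trans (hb 0)) ?_
  rw [Measure.prod_apply m]
  refine le_trans (lintegral_mono fun y => ?_) (le_of_eq (by simp : ∫⁻ _, ENNReal.ofReal b ∂μ = _))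
  exact (ofReal_measureReal (measure_ne_top _ _)).symm.trans_le (ENNReal.ofReal_le_ofReal (hb (N y)))

end Pool.Agent.Lib.helper1.Pa
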