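import Pool.Agent.Lib.helper1.Pa2

set_option autoImplicit false

namespace Pool.Agent.Lib.helper1.Pa

open MeasureTheory ProbabilityTheory Set Filter Topology
open scoped ENNReal NNReal unitInterval

variable {X : Type*} [MeasurableSpace X]

def Learn (F : Set (X → I)) (S : Set (ProbabilityMeasure X)) : Prop :=
  ∃ A : (m : ℕ) → (Fin m → X × I) → X → I, (∀ m s, A m s ∈ F) ∧
    (∀ m, Measurable fun p : (Fin m → X × I) × X => A m p.1 p.2) ∧
    ∀ ε > 0, Tendsto (fun m => ⨆ P ∈ S, ⨆ f ∈ F, Measure.pi (fun _ : Fin m => (P : Measure X))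
      {x | ε < dd P f (A m fun i => (x i, f (x i)))}) atTop (𝓝 0)

lemma pac {F : Set (X → I)} {S : Set (ProbabilityMeasure X)}
    {A : (m : ℕ) → (Fin m → X × I) → X → I}
    (h : ∀ ε > 0, Tendsto (fun m => ⨆ P ∈ S, ⨆ f ∈ F, Measure.pi (fun _ : Fin m => (P : Measure X))
      {x | ε < dd P f (A m fun i => (x i, f (x i)))}) atTop (𝓝 0)) {ε : ℝ} (hε : 0 < ε) :
    ∃ m, ∀ P ∈ S, ∀ f ∈ F, (Measure.pi fun _ : Fin m => (P : Measure X)).real
      {x | ε < dd P f (A m fun i => (x i, f (x i)))} ≤ 1 / 4 := by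
  obtain ⟨m, hm⟩ := ((h ε hε).eventually (gt_mem_nhds
    (show (0 : ℝ≥0∞) < ENNReal.ofReal (1 / 4) by simp))).exists
  refine ⟨m, fun P hP f hf => ENNReal.toReal_le_of_le_ofReal (by norm_num)
    (le_trans (le_iSup₂_of_le P hP ?_) hm.le)⟩
  exact le_iSup₂ (f := fun f (_ : f ∈ F) => Measure.pi (fun _ : Fin m => (P : Measure X))
    {x | ε < dd P f (A m fun i => (x i, f (x i)))}) f hf

lemma sep {F : Set (X → I)} (hF : ∀ f ∈ F, Measurable f) {S : Set (ProbabilityMeasure X)}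
    (h : Learn F S) {k : ℕ} {Q : Fin k → ProbabilityMeasure X} (hQ : ∀ j, Q j ∈ S) {ε : ℝ}
    (hε : 0 < ε) : ∃ g : ℕ → X → I, (∀ n, g n ∈ F) ∧ ∀ f ∈ F, ∃ n, ∀ j, dd (Q j) (g n) f < ε := by
  classical
  obtain ⟨A, hA, mA, h⟩ := h
  obtain ⟨m, hm⟩ := pac h (show 0 < ε / 3 by positivity)
  have h1 : ∀ j f, ∃ s, f ∈ F → dd (Q j) f (A m s) ≤ ε / 3 := fun j f => by
    by_contra hc
    push Not at hc
    obtain ⟨x⟩ := (Q j).nonempty
    have := hm _ (hQ j) f (hc fun _ => (x, 0)).1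
    have e : {x : Fin m → X | ε / 3 < dd (Q j) f (A m fun i => (x i, f (x i)))} = univ :=
      eq_univ_of_forall fun x => (hc _).2
    rw [e] at this
    norm_num at this
  choose s hs using h1
  choose c hc using fun j => net_sections (mA m).subtype_val
    (fun p => (A m p.1 p.2).2) (Q j : Measure X) (show 0 < ε / 3 by positivity)
  obtain ⟨e, he⟩ := exists_surjective_nat (Fin k → ℕ)
  refine ⟨fun n => if h : ∃ f ∈ F, (fun j => c j (s j f)) = e n then h.choose else A 0 default,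
    fun n => ?_, fun f hf => ?_⟩
  · dsimp only; split_ifs with h; exacts [h.choose_spec.1, hA _ _]
  · obtain ⟨n, hn⟩ := he fun j => c j (s j f)
    have h : ∃ f ∈ F, (fun j => c j (s j f)) = e n := ⟨f, hf, hn.symm⟩
    refine ⟨n, fun j => ?_⟩
    dsimp only
    rw [dif_pos h]
    obtain ⟨h2, h3⟩ := h.choose_spec
    have h4 : dd (Q j) (A m (s j h.choose)) (A m (s j f)) < ε / 3 :=
      hc j _ _ (congrFun (h3.trans hn) j)
    have t1 := dd_tri (Q j) (hF _ h2) (hF _ (hA m (s j h.choose))) (hF f hf)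
    have t2 := dd_tri (Q j) (hF _ (hA m (s j h.choose))) (hF _ (hA m (s j f))) (hF f hf)
    rw [dd_comm (Q j) (A m (s j f)) f] at t2
    linarith [hs j _ h2, hs j f hf]

lemma oneshot {F : Set (X → I)} (hF : ∀ f ∈ F, Measurable f) {S : Set (ProbabilityMeasure X)}
    (hS : TB S) (h : Learn F S) {ε δ : ℝ} (hε : 0 < ε) (hδ : 0 < δ) :
    ∃ m1, ∀ m, m1 ≤ m → ∃ B : (Fin m → X × I) → X → I, (∀ s, B s ∈ F) ∧
      (Measurable fun p : (Fin m → X × I) × X => B p.1 p.2) ∧ ∀ P ∈ clos (hull S), ∀ f ∈ F,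
      (Measure.pi fun _ : Fin m => (P : Measure X)).real
        {x | ε < dd P f (B fun i => (x i, f (x i)))} ≤ δ := by
  classical
  obtain ⟨A, hA, mA, h'⟩ := id h
  set a := ε / 4 with ha
  set τ := a * δ / 9 with hτ
  have a0 : 0 < a := by positivity
  have τ0 : 0 < τ := by positivity
  obtain ⟨m0, hm0⟩ := pac h' (show 0 < τ ^ 2 / 3 by positivity)
  set η := min (τ / 3) (1 / (4 * (m0 + 1))) with hη
  have η0 : 0 < η := lt_min (by positivity) (by positivity)
  have η1 : η ≤ τ / 3 := min_le_left _ _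
  have η2 : η * (4 * (m0 + 1)) ≤ 1 := (le_div_iff₀ (by positivity)).1 (min_le_right _ _)
  have n0 : (0 : ℝ) ≤ m0 := Nat.cast_nonneg _
  obtain ⟨k, Q, hQ, hnet⟩ := net hS η0
  obtain ⟨g, hg, hd⟩ := sep hF h hQ (show 0 < τ ^ 2 / 3 by positivity)
  have mg : Measurable fun p : ℕ × X => g p.1 p.2 :=
    measurable_from_prod_countable_right fun n => hF _ (hg n)
  set c : ℝ≥0 := ⟨η / (k + 1), by positivity⟩ with hc
  have c0 : (0 : ℝ) < c := by show 0 < η / (k + 1); positivity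
  have c1 : (c : ℝ) ≤ 1 := by
    show η / (k + 1) ≤ 1
    rw [div_le_one (by positivity)]; nlinarith [Nat.cast_nonneg (α := ℝ) k]
  have p0 : 0 < (c : ℝ) ^ m0 / 4 := by positivity
  have p1 : (c : ℝ) ^ m0 ≤ 1 := pow_le_one₀ c0.le c1
  obtain ⟨L, hL, L0⟩ : ∃ L : ℕ, k * (1 - (c : ℝ) ^ m0 / 4) ^ L < δ / 3 ∧ 0 < L := by
    have := (tendsto_pow_atTop_nhds_zero_of_lt_one (r := 1 - (c : ℝ) ^ m0 / 4) (by linarith)
      (by linarith)).const_mul (k : ℝ)
    rw [mul_zero] at this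
    exact ((this.eventually (gt_mem_nhds (by positivity))).and (eventually_gt_atTop 0)).exists
  obtain ⟨n, hn, n1⟩ : ∃ n : ℕ, (Fintype.card (Finset (Fin k) × (Fin k → Fin L)) : ℝ) *
      Real.exp (-(n * a)) < δ / 3 ∧ 0 < n := by
    have := (Real.tendsto_exp_neg_atTop_nhds_zero.comp
      (tendsto_natCast_atTop_atTop.atTop_mul_const a0)).const_mul
      (Fintype.card (Finset (Fin k) × (Fin k → Fin L)) : ℝ)
    rw [mul_zero] at this
    exact ((this.eventually (gt_mem_nhds (by positivity))).and (eventually_gt_atTop 0)).exists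
  refine ⟨L * m0 + n, fun m hm => ?_⟩
  obtain ⟨α, β, hsp⟩ := split (X := X) hm
  set cand : (Fin L → Fin m0 → X × I) → Finset (Fin k) × (Fin k → Fin L) → ℕ := fun u κ =>
    sInf {r | ∀ j ∈ κ.1, dd (Q j) (g r) (A m0 (u (κ.2 j))) < 2 * (τ ^ 2 / 3)} with hcand
  have mc : ∀ κ, Measurable fun u => cand u κ := fun κ => meas_sInf fun r => by
    simp only [ofPred_forall]
    exact .iInter fun j => .iInter fun _ => measurableSet_lt (meas_dd (Q j) (a := fun _ => g r)
      (b := fun u : Fin L → Fin m0 → X × I => A m0 (u (κ.2 j)))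
      ((hF _ (hg r)).comp measurable_snd) ((mA m0).comp
        (f := fun p : (Fin L → Fin m0 → X × I) × X => (p.1 (κ.2 j), p.2))
        (by fun_prop))) measurable_const
  set out : (Fin L → Fin m0 → X × I) × (Fin n → X × I) → ℕ := fun w =>
    sInf {r | ∃ κ, cand w.1 κ = r ∧ ∑ i, |((w.2 i).2 : ℝ) - g r (w.2 i).1| < n * a} with hout
  have mo : Measurable out := meas_sInf fun r => by
    simp only [ofPred_exists]
    refine .iUnion fun κ => MeasurableSet.inter
      (((mc κ).comp measurable_fst) (measurableSet_singleton r)) (measurableSet_lt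
        (Finset.measurable_sum _ fun i _ => mz ?_ ((hF _ (hg r)).comp ?_)) measurable_const) <;>
    fun_prop
  refine ⟨fun s => g (out (fun l i => s (α l i), fun i => s (β i))), fun s => hg _,
    mg.comp ((mo.comp (by fun_prop)).prodMk measurable_snd), fun P hP f hf => ?_⟩
  obtain ⟨J, J1, J2⟩ := struct η0 (by nlinarith) hnet hP
  have mf := hF f hf
  set lab : (Fin L → Fin m0 → X) → Fin L → Fin m0 → X × I := fun x l i => (x l i, f (x l i))
    with hlab
  have ml : Measurable lab := by simp only [hlab]; fun_prop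
  set G : Fin k → Set (Fin m0 → X) := fun j =>
    {z | τ ^ 2 / 3 < dd (Q j) f (A m0 fun i => (z i, f (z i)))}ᶜ with hG
  have mG : ∀ j, MeasurableSet (G j) := fun j => (measurableSet_lt measurable_const
    (meas_dd (Q j) (a := fun _ => f) (b := fun z : Fin m0 → X => A m0 fun i => (z i, f (z i)))
      (mf.comp measurable_snd) ((mA m0).comp
      (f := fun p : (Fin m0 → X) × X => (fun i => (p.1 i, f (p.1 i)), p.2)) (by fun_prop)))).compl
  set best : (Fin L → Fin m0 → X) → ℕ := fun x =>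
    sInf {r | (∃ κ, cand (lab x) κ = r) ∧ dd P f (g r) ≤ 3 * τ} with hbest
  have mb : Measurable best := meas_sInf fun r => by
    refine MeasurableSet.inter ?_ (MeasurableSet.const _)
    show MeasurableSet {x | ∃ κ, cand (lab x) κ = r}
    simp only [ofPred_exists]
    exact .iUnion fun κ => ((mc κ).comp ml) (measurableSet_singleton r)
  have mS : ∀ r, Measurable fun y : Fin n → X => ∑ i, |(f (y i) : ℝ) - g r (y i)| := fun r =>
    Finset.measurable_sum _ fun i _ => (mz mf (hF _ (hg r))).comp (measurable_pi_apply i)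
  set V : ℕ → Set (Fin n → X) := fun r =>
    {y | dd P f (g r) ≤ 3 * τ ∧ n * a ≤ ∑ i, |(f (y i) : ℝ) - g r (y i)|} with hV
  set V' : ℕ → Set (Fin n → X) := fun r =>
    {y | 4 * a ≤ dd P f (g r) ∧ ∑ i, |(f (y i) : ℝ) - g r (y i)| < n * a} with hV'
  set μ := Measure.pi fun _ : Fin L => Measure.pi fun _ : Fin m0 => (P : Measure X) with hμ
  set ν := Measure.pi fun _ : Fin n => (P : Measure X) with hν
  have e1 : (μ.prod ν).real (⋃ j ∈ J, (univ.pi fun _ => (G j)ᶜ) ×ˢ univ) ≤ δ / 3 := by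
    refine (measureReal_biUnion_finset_le _ _).trans (le_trans (Finset.sum_le_card_nsmul _ _
      ((1 - (c : ℝ) ^ m0 / 4) ^ L) fun j hj => ?_) (le_trans ?_ hL.le))
    · have := block_lower (c := c) (J1 j hj) (by nlinarith) (by nlinarith) (mG j)
        (by simp only [hG, compl_compl]; exact hm0 _ (hQ j) f hf)
      have e := probReal_add_probReal_compl (μ := Measure.pi fun _ : Fin m0 => (P : Measure X)) (mG j)
      rw [measureReal_prod_prod, probReal_univ, mul_one, hμ, Measure.real, Measure.pi_pi,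
        ENNReal.toReal_prod, Finset.prod_const, Finset.card_univ, Fintype.card_fin]
      exact pow_le_pow_left₀ ENNReal.toReal_nonneg (by rw [← Measure.real]; linarith) L
    · rw [nsmul_eq_mul]
      refine mul_le_mul_of_nonneg_right ?_ (pow_nonneg (by linarith) _)
      exact_mod_cast (Finset.card_le_univ J).trans_eq (Fintype.card_fin k)
  have e2 : (μ.prod ν).real {p | p.2 ∈ V (best p.1)} ≤ δ / 3 := by
    refine sec μ ν (V := V) mb (fun r => (MeasurableSet.const _).inter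
      (measurableSet_le measurable_const (mS r))) fun r => ?_
    by_cases hr : dd P f (g r) ≤ 3 * τ
    · simp only [hV, hr, true_and]
      refine (val_good n1 (mz mf (hF _ (hg r))) (fun _ => b01 _ _) a0).trans ?_
      rw [div_le_iff₀ a0]
      exact hr.trans (by rw [hτ]; linarith)
    · simp only [hV, hr, false_and]; simp; positivity
  have e3 : (μ.prod ν).real (⋃ κ, {p | p.2 ∈ V' (cand (lab p.1) κ)}) ≤ δ / 3 := by
    refine (measureReal_iUnion_fintype_le _).trans (le_trans (Finset.sum_le_card_nsmul _ _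
      (Real.exp (-(n * a))) fun κ _ => ?_) (by rw [nsmul_eq_mul]; exact hn.le))
    refine sec μ ν (V := V') (N := fun u => cand (lab u) κ) ((mc κ).comp ml) (fun r => (MeasurableSet.const _).inter
      (measurableSet_lt (mS r) measurable_const)) fun r => ?_
    by_cases hr : 4 * a ≤ dd P f (g r)
    · simp only [hV', hr, true_and]
      exact val_bad (mz mf (hF _ (hg r))) (fun _ => b01 _ _) hr
    · simp only [hV', hr, false_and]; simp; positivity
  have key : ∀ p : (Fin L → Fin m0 → X) × (Fin n → X),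
      ε < dd P f (g (out (lab p.1, fun i => (p.2 i, f (p.2 i))))) →
      p ∈ (⋃ j ∈ J, (univ.pi fun _ => (G j)ᶜ) ×ˢ univ) ∪ {p | p.2 ∈ V (best p.1)} ∪
        ⋃ κ, {p | p.2 ∈ V' (cand (lab p.1) κ)} := by
    rintro ⟨x, y⟩ hbad
    by_contra hc
    simp only [mem_union, not_or, mem_iUnion, not_exists, mem_prod, mem_univ, and_true, Set.mem_pi,
      true_imp_iff, not_forall, mem_compl_iff, not_not, mem_ofPred_eq] at hc
    obtain ⟨⟨c1, c2⟩, c3⟩ := hc
    have : Nonempty (Fin L) := ⟨⟨0, L0⟩⟩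
    choose! b hb using c1
    have hb' : ∀ j ∈ J, dd (Q j) f (A m0 (lab x (b j))) ≤ τ ^ 2 / 3 := fun j hj =>
      not_lt.1 (hb j hj)
    obtain ⟨r0, hr0⟩ := hd f hf
    have s1 : ∀ j ∈ J, dd (Q j) (g (cand (lab x) (J, b))) (A m0 (lab x (b j))) < 2 * (τ ^ 2 / 3) :=
      Nat.sInf_mem (s := {r | ∀ j ∈ J, dd (Q j) (g r) (A m0 (lab x (b j))) < 2 * (τ ^ 2 / 3)})
        ⟨r0, fun j hj => by
          linarith [dd_tri (Q j) (hF _ (hg r0)) mf (hF _ (hA m0 (lab x (b j)))), hr0 j, hb' j hj]⟩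
    set r1 := cand (lab x) (J, b) with hr1
    have s2 : dd P f (g r1) ≤ 3 * τ := by
      have := J2 _ (measurableSet_le measurable_const (mz mf (hF _ (hg r1)))) τ τ0.le fun j hj => by
        have t1 := dd_tri (Q j) mf (hF _ (hA m0 (lab x (b j)))) (hF _ (hg r1))
        rw [dd_comm (Q j) (A m0 _) (g r1)] at t1
        have t2 := (dd_markov (Q j) mf (hF _ (hg r1)) τ0.le).1
        exact le_of_mul_le_mul_left (by linarith [s1 j hj, hb' j hj]) τ0
      linarith [(dd_markov P mf (hF _ (hg r1)) τ0.le).2]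
    obtain ⟨⟨κ, hκ⟩, s3⟩ : (∃ κ, cand (lab x) κ = best x) ∧ dd P f (g (best x)) ≤ 3 * τ :=
      Nat.sInf_mem (s := {r | (∃ κ, cand (lab x) κ = r) ∧ dd P f (g r) ≤ 3 * τ}) ⟨r1, ⟨_, rfl⟩, s2⟩
    obtain ⟨κ', h1, h2⟩ := Nat.sInf_mem (s := {r | ∃ κ, cand (lab x) κ = r ∧
      ∑ i, |(f (y i) : ℝ) - g r (y i)| < n * a}) ⟨best x, κ, hκ, not_le.1 fun h => c2 ⟨s3, h⟩⟩
    refine c3 κ' ?_
    rw [h1]
    exact ⟨by rw [ha]; linarith [hbad], h2⟩
  calc _ ≤ (μ.prod ν).real ((⋃ j ∈ J, (univ.pi fun _ => (G j)ᶜ) ×ˢ univ) ∪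
        {p | p.2 ∈ V (best p.1)} ∪ ⋃ κ, {p | p.2 ∈ V' (cand (lab p.1) κ)}) := by
        refine ENNReal.toReal_mono (measure_ne_top _ _)
          (le_trans (measure_mono fun x hx => ?_) ((hsp (P : Measure X)).measure_preimage_le _))
        exact key _ hx
    _ ≤ δ := by
        linarith [measureReal_union_le (μ := μ.prod ν) ((⋃ j ∈ J, (univ.pi fun _ => (G j)ᶜ) ×ˢ univ) ∪
          {p | p.2 ∈ V (best p.1)}) (⋃ κ, {p | p.2 ∈ V' (cand (lab p.1) κ)}),
          measureReal_union_le (μ := μ.prod ν) (⋃ j ∈ J, (univ.pi fun _ => (G j)ᶜ) ×ˢ univ)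
          {p | p.2 ∈ V (best p.1)}]

theorem main {F : Set (X → I)} (hF : ∀ f ∈ F, Measurable f) {S : Set (ProbabilityMeasure X)}
    (hS : TB S) (h : Learn F S) : Learn F (clos (hull S)) := by
  classical
  choose m1 B h1 h2 h3 using fun n : ℕ => oneshot hF hS h (ε := 1 / (n + 1)) (δ := 1 / (n + 1))
    Nat.one_div_pos_of_nat Nat.one_div_pos_of_nat
  obtain ⟨A, hA, mA, -⟩ := h
  refine ⟨fun m => if h : m1 (Nat.findGreatest (fun n => m1 n ≤ m) m) ≤ m then B _ m h else A m,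
    fun m s => ?_, fun m => ?_, fun ε hε => ENNReal.tendsto_atTop_zero.2 fun δ hδ => ?_⟩
  · dsimp only; split_ifs; exacts [h1 _ _ _ _, hA _ _]
  · dsimp only; split_ifs; exacts [h2 _ _ _, mA _]
  obtain ⟨n, n1, n2⟩ : ∃ n : ℕ, 1 / ((n : ℝ) + 1) < ε ∧ ENNReal.ofReal (1 / ((n : ℝ) + 1)) < δ := by
    have := tendsto_one_div_add_atTop_nhds_zero_nat (𝕜 := ℝ)
    have h2 := ENNReal.tendsto_ofReal this
    rw [ENNReal.ofReal_zero] at h2
    exact ((this.eventually (gt_mem_nhds hε)).and (h2.eventually (gt_mem_nhds hδ))).exists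
  refine ⟨max n (m1 n), fun m hm => iSup₂_le fun P hP => iSup₂_le fun f hf => ?_⟩
  have a1 : n ≤ m := (le_max_left _ _).trans hm
  have a2 : m1 n ≤ m := (le_max_right _ _).trans hm
  have a3 := Nat.findGreatest_spec (P := fun n => m1 n ≤ m) a1 a2
  have a4 := Nat.le_findGreatest (P := fun n => m1 n ≤ m) a1 a2
  have a5 : 1 / ((Nat.findGreatest (fun n => m1 n ≤ m) m : ℝ) + 1) ≤ 1 / ((n : ℝ) + 1) :=
    Nat.one_div_le_one_div a4
  simp only [dif_pos a3]
  refine le_trans (measure_mono fun x hx => ?_) (le_trans (ofReal_measureReal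
    (measure_ne_top _ _)).symm.le (le_trans (ENNReal.ofReal_le_ofReal
      ((h3 _ m a3 P hP f hf).trans a5)) n2.le))
  exact lt_of_le_of_lt a5 (n1.trans hx)

lemma Learn.mono {F : Set (X → I)} {S T : Set (ProbabilityMeasure X)} (h : Learn F T)
    (hST : S ⊆ T) : Learn F S := by
  obtain ⟨A, h1, h2, h3⟩ := h
  exact ⟨A, h1, h2, fun ε hε => tendsto_of_tendsto_of_tendsto_of_le_of_le tendsto_const_nhds
    (h3 ε hε) (fun _ => zero_le) fun m => biSup_mono hST⟩

lemma sub_clos (S : Set (ProbabilityMeasure X)) : S ⊆ clos S := fun P hP ε hε =>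
  ⟨P, hP, by simpa [rho] using hε⟩

lemma sub_hull (S : Set (ProbabilityMeasure X)) : S ⊆ hull S := fun P hP =>
  ⟨1, fun _ => 1, fun _ => P, fun _ => hP, by simp, by simp⟩

theorem final {F : Set (X → I)} (hF : ∀ f ∈ F, Measurable f) {S : Set (ProbabilityMeasure X)}
    (hS : TB S) (h : Learn F S) :
    Learn F (clos S) ∧ Learn F (hull S) ∧ Learn F (clos (hull S)) :=
  ⟨(main hF hS h).mono fun _ hP ε hε => (hP ε hε).imp fun _ hQ => ⟨sub_hull S hQ.1, hQ.2⟩,
    (main hF hS h).mono (sub_clos _), main hF hS h⟩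

end Pool.Agent.Lib.helper1.Pa
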