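import Mathlib

set_option autoImplicit false
set_option linter.unusedSectionVars false

open Finset Filter Topology Matrix

namespace Pool.Agent.Lib.helper1.Pak

section DSsec
variable {V : Type} [Fintype V] [DecidableEq V]

/-- doubly stochastic -/
structure DS (P : Matrix V V ℝ) : Prop where
  nn : ∀ x y, 0 ≤ P x y
  row : ∀ x, ∑ y, P x y = 1
  col : ∀ y, ∑ x, P x y = 1

lemma DS.pow {P : Matrix V V ℝ} (h : DS P) (t : ℕ) : DS (P ^ t) := by
  induction t with
  | zero =>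
    refine ⟨fun x y => ?_, fun x => ?_, fun y => ?_⟩
    · simp [Matrix.one_apply]; split_ifs <;> norm_num
    · simp [Matrix.one_apply]
    · simp [Matrix.one_apply]
  | succ t ih =>
    refine ⟨fun x y => ?_, fun x => ?_, fun y => ?_⟩
    · rw [pow_succ, Matrix.mul_apply]
      exact Finset.sum_nonneg fun w _ => mul_nonneg (ih.nn _ _) (h.nn _ _)
    · simp only [pow_succ, Matrix.mul_apply]
      rw [Finset.sum_comm]
      simp only [← Finset.mul_sum, h.row, mul_one, ih.row]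
    · simp only [pow_succ', Matrix.mul_apply]
      rw [Finset.sum_comm]
      simp only [← Finset.sum_mul, h.col, one_mul, ih.col]

lemma test_le [Nonempty V] (f : V → ℝ) (hf : ∑ y, f y = 1) (W : Finset V) :
    ∑ y ∈ W, f y - (W.card : ℝ) / (Fintype.card V : ℝ) ≤
      (1 / 2) * ∑ y, |f y - 1 / (Fintype.card V : ℝ)| := by
  have hc : (0 : ℝ) < Fintype.card V := by exact_mod_cast Fintype.card_pos
  set g : V → ℝ := fun y => f y - 1 / (Fintype.card V : ℝ) with hg
  have h0 : ∑ y, g y = 0 := by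
    simp only [hg, Finset.sum_sub_distrib, hf, sum_const, card_univ, nsmul_eq_mul]
    field_simp; ring
  have h1 : ∑ y ∈ W, f y - (W.card : ℝ) / (Fintype.card V : ℝ) = ∑ y ∈ W, g y := by
    simp only [hg, Finset.sum_sub_distrib, sum_const, nsmul_eq_mul]; ring
  rw [h1]
  have h2 := Finset.sum_add_sum_compl W g
  have h3 := Finset.sum_add_sum_compl W (fun y => |g y|)
  have h4 : ∑ y ∈ W, g y ≤ ∑ y ∈ W, |g y| := Finset.sum_le_sum fun y _ => le_abs_self _
  have h5 : -∑ y ∈ Wᶜ, g y ≤ ∑ y ∈ Wᶜ, |g y| := by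
    rw [← Finset.sum_neg_distrib]; exact Finset.sum_le_sum fun y _ => neg_le_abs _
  change ∑ y ∈ W, g y ≤ (1 / 2) * ∑ y, |g y|
  linarith

lemma tv_le_sep [Nonempty V] (f : V → ℝ) (hf : ∑ y, f y = 1) (s : ℝ) (hs : 0 ≤ s)
    (h : ∀ y, (1 - s) / (Fintype.card V : ℝ) ≤ f y) :
    (1 / 2) * ∑ y, |f y - 1 / (Fintype.card V : ℝ)| ≤ s := by
  have hc : (0 : ℝ) < Fintype.card V := by exact_mod_cast Fintype.card_pos
  have h1 : ∑ y, |f y - 1 / (Fintype.card V : ℝ)| ≤
      ∑ y, (f y - 1 / (Fintype.card V : ℝ) + 2 * (s / (Fintype.card V : ℝ))) := by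
    refine Finset.sum_le_sum fun y _ => ?_
    have h2 := h y
    have h3 : 0 ≤ s / (Fintype.card V : ℝ) := by positivity
    rw [sub_div] at h2
    rw [abs_le]; constructor <;> linarith
  have h2 : ∑ y, (f y - 1 / (Fintype.card V : ℝ) + 2 * (s / (Fintype.card V : ℝ))) = 2 * s := by
    simp only [Finset.sum_add_distrib, Finset.sum_sub_distrib, hf, sum_const, card_univ,
      nsmul_eq_mul]
    field_simp; ring
  linarith

lemma mass_ge {P : Matrix V V ℝ} (h : DS P) (a : ℝ) (ha : 0 ≤ a) (W : ℕ → Finset V) (x : V)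
    (h0 : x ∈ W 0) (hW : ∀ t, ∀ w ∈ W t, a ≤ ∑ y ∈ W (t + 1), P w y) (t : ℕ) :
    a ^ t ≤ ∑ y ∈ W t, (P ^ t) x y := by
  induction t with
  | zero => simp [Matrix.one_apply, h0]
  | succ t ih =>
    simp only [pow_succ, Matrix.mul_apply]
    rw [Finset.sum_comm]
    simp only [← Finset.mul_sum]
    calc a ^ t * a ≤ (∑ y ∈ W t, (P ^ t) x y) * a := by gcongr
      _ = ∑ w ∈ W t, (P ^ t) x w * a := by rw [Finset.sum_mul]
      _ ≤ ∑ w ∈ W t, (P ^ t) x w * ∑ y ∈ W (t + 1), P w y :=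
          Finset.sum_le_sum fun w hw => mul_le_mul_of_nonneg_left (hW t w hw) ((h.pow t).nn _ _)
      _ ≤ _ := Finset.sum_le_sum_of_subset_of_nonneg (Finset.subset_univ _) fun w _ _ =>
          mul_nonneg ((h.pow t).nn _ _) (Finset.sum_nonneg fun _ _ => h.nn _ _)

lemma doeblin [Nonempty V] {Q : Matrix V V ℝ} (h : DS Q) (θ : ℝ)
    (hθ : ∀ x y, θ / (Fintype.card V : ℝ) ≤ Q x y) (s : ℕ) (x y : V) :
    (1 - (1 - θ) ^ s) / (Fintype.card V : ℝ) ≤ (Q ^ s) x y := by
  have hc : (0 : ℝ) < Fintype.card V := by exact_mod_cast Fintype.card_pos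
  induction s generalizing y with
  | zero => simpa using (h.pow 0).nn x y
  | succ s ih =>
    rw [pow_succ Q, Matrix.mul_apply]
    set c : ℝ := (1 - (1 - θ) ^ s) / (Fintype.card V : ℝ) with hcdef
    have h1 : ∑ w, (Q ^ s) x w * Q w y = c + ∑ w, ((Q ^ s) x w - c) * Q w y := by
      simp only [sub_mul, Finset.sum_sub_distrib, ← Finset.mul_sum, h.col, mul_one]; ring
    have h2 : ∑ w, ((Q ^ s) x w - c) * (θ / (Fintype.card V : ℝ)) ≤
        ∑ w, ((Q ^ s) x w - c) * Q w y :=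
      Finset.sum_le_sum fun w _ => mul_le_mul_of_nonneg_left (hθ w y) (sub_nonneg.2 (ih w))
    have h3 : ∑ w, ((Q ^ s) x w - c) * (θ / (Fintype.card V : ℝ)) =
        (1 - θ) ^ s * (θ / (Fintype.card V : ℝ)) := by
      rw [← Finset.sum_mul, Finset.sum_sub_distrib, (h.pow s).row]
      simp only [sum_const, card_univ, nsmul_eq_mul, hcdef]
      field_simp; ring
    have h4 : (1 - (1 - θ) ^ (s + 1)) / (Fintype.card V : ℝ) =
        c + (1 - θ) ^ s * (θ / (Fintype.card V : ℝ)) := by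
      rw [hcdef]; field_simp; ring
    linarith

lemma step_ge {P : Matrix V V ℝ} (h : DS P) (c : ℝ) (k : ℕ) (x : V)
    (hk : ∀ y, c ≤ (P ^ k) x y) (y : V) : c ≤ (P ^ (k + 1)) x y := by
  rw [pow_succ, Matrix.mul_apply]
  calc c = ∑ w, c * P w y := by rw [← Finset.mul_sum, h.col, mul_one]
    _ ≤ _ := Finset.sum_le_sum fun w _ => mul_le_mul_of_nonneg_right (hk w) (h.nn _ _)

lemma sum_eq_zero_of_eig {P : Matrix V V ℝ} (h : DS P) (f : V → ℝ) (l : ℝ) (hl : l ≠ 1)
    (hf : P *ᵥ f = l • f) : ∑ x, f x = 0 := by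
  have h1 : ∑ x, (P *ᵥ f) x = ∑ x, f x := by
    simp only [Matrix.mulVec, dotProduct]
    rw [Finset.sum_comm]
    simp only [← Finset.sum_mul, h.col, one_mul]
  rw [hf] at h1
  simp only [Pi.smul_apply, smul_eq_mul, ← Finset.mul_sum] at h1
  have : (l - 1) * ∑ x, f x = 0 := by linarith
  rcases mul_eq_zero.1 this with h2 | h2
  · exact absurd (by linarith) hl
  · exact h2

end DSsec

section General
variable {G : Type} [AddCommGroup G] [Fintype G] [DecidableEq G]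

noncomputable def trans (Z : Finset G) : Matrix G G ℝ := fun x y =>
  ((if y - x ∈ Z then 1 else 0) + (if x - y ∈ Z then 1 else 0)) / (2 * (Z.card : ℝ))

lemma trans_eq {Z : Finset G} (hs : ∀ z ∈ Z, -z ∈ Z) (x y : G) :
    trans Z x y = (if y - x ∈ Z then 1 else 0) / (Z.card : ℝ) := by
  have : x - y ∈ Z ↔ y - x ∈ Z := by
    constructor
    · intro h; simpa using hs _ h
    · intro h; simpa using hs _ h
  unfold trans
  by_cases h : y - x ∈ Z
  · simp only [this, h, if_true]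
    rcases eq_or_ne (Z.card : ℝ) 0 with h0 | h0
    · simp [h0]
    · field_simp; norm_num
  · simp [this, h]

lemma trans_nonneg (Z : Finset G) (x y : G) : 0 ≤ trans Z x y := by
  unfold trans; positivity

lemma sum_trans_mul {Z : Finset G} (hs : ∀ z ∈ Z, -z ∈ Z) (x : G) (f : G → ℝ) :
    ∑ y, trans Z x y * f y = (∑ z ∈ Z, f (x + z)) / (Z.card : ℝ) := by
  simp only [trans_eq hs]
  rw [← Equiv.sum_comp (Equiv.addLeft x)]
  simp only [Equiv.coe_addLeft, add_sub_cancel_left]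
  rw [Finset.sum_div]
  rw [← Finset.sum_subset (Finset.subset_univ Z)]
  · exact Finset.sum_congr rfl fun z hz => by simp [hz]; ring
  · intro z _ hz; simp [hz]

lemma row_sum {Z : Finset G} (hs : ∀ z ∈ Z, -z ∈ Z) (hZ : Z.Nonempty) (x : G) :
    ∑ y, trans Z x y = 1 := by
  have := sum_trans_mul hs x (fun _ => 1)
  simp only [mul_one, sum_const, nsmul_eq_mul] at this
  rw [this]
  have : (Z.card : ℝ) ≠ 0 := by exact_mod_cast hZ.card_pos.ne'
  field_simp

lemma trans_symm (Z : Finset G) (x y : G) : trans Z x y = trans Z y x := by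
  simp [trans, add_comm]

lemma col_sum {Z : Finset G} (hs : ∀ z ∈ Z, -z ∈ Z) (hZ : Z.Nonempty) (y : G) :
    ∑ x, trans Z x y = 1 := by
  simp only [trans_symm Z _ y]; exact row_sum hs hZ y

/-- Eigenvalues on mean-zero eigenvectors are character sums. -/
lemma eig_le {Z : Finset G} (hs : ∀ z ∈ Z, -z ∈ Z) (hZ : Z.Nonempty) (c : ℝ)
    (hc : ∀ χ : AddChar G ℂ, χ ≠ 0 → (∑ z ∈ Z, χ z).re ≤ c * Z.card)
    (f : G → ℝ) (hf : f ≠ 0) (hsum : ∑ x, f x = 0) (l : ℝ) (hl : trans Z *ᵥ f = l • f) :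
    l ≤ c := by
  have hZc : (0 : ℝ) < Z.card := by exact_mod_cast hZ.card_pos
  obtain ⟨χ, hχ⟩ : ∃ χ : AddChar G ℂ, ∑ x, (f x : ℂ) * χ x ≠ 0 := by
    by_contra! h
    apply hf
    funext a
    let L : (G → ℂ) →ₗ[ℂ] ℂ :=
      { toFun := fun g => ∑ x, (f x : ℂ) * g x
        map_add' := fun g₁ g₂ => by simp [mul_add, Finset.sum_add_distrib]
        map_smul' := fun r g => by simp [Finset.mul_sum, mul_left_comm] }
    have hL : L = 0 := (AddChar.complexBasis G).ext fun χ => by simpa [L] using h χ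
    have := congrArg (fun T : (G → ℂ) →ₗ[ℂ] ℂ => T (Pi.single a 1)) hL
    simp [L, Pi.single_apply] at this
    simpa using this
  have hχ0 : χ ≠ 0 := by
    rintro rfl
    apply hχ
    simp only [AddChar.zero_apply, mul_one]
    exact_mod_cast hsum
  have h1 : ∀ x, l * f x = (∑ z ∈ Z, f (x + z)) / (Z.card : ℝ) := by
    intro x
    have := congrFun hl x
    simp only [Matrix.mulVec, dotProduct, Pi.smul_apply, smul_eq_mul] at this
    rw [← this, sum_trans_mul hs]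
  have h2 : (l : ℂ) * (Z.card : ℂ) * ∑ x, (f x : ℂ) * χ x =
      (∑ z ∈ Z, χ (-z)) * ∑ x, (f x : ℂ) * χ x := by
    rw [Finset.mul_sum, Finset.sum_mul]
    have : ∀ x, (l : ℂ) * (Z.card : ℂ) * ((f x : ℂ) * χ x) = ∑ z ∈ Z, (f (x + z) : ℂ) * χ x := by
      intro x
      have h3 : l * Z.card * f x = ∑ z ∈ Z, f (x + z) := by
        have := h1 x; field_simp at this; linarith
      have h4 : (l : ℂ) * (Z.card : ℂ) * (f x : ℂ) = ∑ z ∈ Z, (f (x + z) : ℂ) := by
        exact_mod_cast h3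
      rw [← mul_assoc, h4, Finset.sum_mul]
    simp only [this]
    rw [Finset.sum_comm]
    refine Finset.sum_congr rfl fun z _ => ?_
    rw [Finset.mul_sum, ← Equiv.sum_comp (Equiv.addRight z) (fun x => χ (-z) * ((f x : ℂ) * χ x))]
    refine Finset.sum_congr rfl fun x _ => ?_
    simp only [Equiv.coe_addRight]
    have : χ x = χ (-z) * χ (x + z) := by
      rw [← AddChar.map_add_eq_mul]; congr 1; abel
    rw [this]; ring
  have h3 : (l : ℂ) * (Z.card : ℂ) = ∑ z ∈ Z, χ z := by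
    rw [mul_right_cancel₀ hχ h2]
    refine Finset.sum_bij (fun z _ => -z) (fun z hz => hs z hz) (fun a _ b _ h => neg_injective h)
      (fun b hb => ⟨-b, hs b hb, neg_neg b⟩) (fun _ _ => rfl)
  have h4 := hc χ hχ0
  rw [← h3] at h4
  have h5 : ((l : ℂ) * (Z.card : ℂ)).re = l * Z.card := by
    rw [show (l : ℂ) * (Z.card : ℂ) = ((l * Z.card : ℝ) : ℂ) by push_cast; ring, Complex.ofReal_re]
  rw [h5] at h4
  exact le_of_mul_le_mul_right h4 hZc

lemma trans_DS {Z : Finset G} (hs : ∀ z ∈ Z, -z ∈ Z) (hZ : Z.Nonempty) : DS (trans Z) :=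
  ⟨trans_nonneg Z, row_sum hs hZ, col_sum hs hZ⟩

lemma trans_step {Z A : Finset G} (hs : ∀ z ∈ Z, -z ∈ Z) (hA : A ⊆ Z) (W : Finset G) (w : G)
    (hW : ∀ a ∈ A, w + a ∈ W) : (A.card : ℝ) / Z.card ≤ ∑ y ∈ W, trans Z w y := by
  have h1 := sum_trans_mul hs w (fun y => if y ∈ W then 1 else 0)
  have h2 : ∑ y, trans Z w y * (if y ∈ W then 1 else 0) = ∑ y ∈ W, trans Z w y := by
    simp [Finset.sum_ite_mem]
  rw [← h2, h1]
  gcongr
  calc (A.card : ℝ) = ∑ z ∈ A, (if w + z ∈ W then (1 : ℝ) else 0) := by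
        rw [Finset.sum_congr rfl (g := fun _ => (1 : ℝ)) fun z hz => by simp [hW z hz]]
        simp
    _ ≤ _ := Finset.sum_le_sum_of_subset_of_nonneg hA fun z _ _ => by positivity

lemma pow_transl (P : Matrix G G ℝ) (hP : ∀ a x y, P (x + a) (y + a) = P x y) (t : ℕ)
    (a x y : G) : (P ^ t) (x + a) (y + a) = (P ^ t) x y := by
  induction t generalizing y with
  | zero => simp [Matrix.one_apply]
  | succ t ih =>
    simp only [pow_succ, Matrix.mul_apply]
    rw [← Equiv.sum_comp (Equiv.addRight a)]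
    simp only [Equiv.coe_addRight, ih, hP]

end General

section Concrete
open Pointwise
variable (p n L : ℕ) [Fact p.Prime] [NeZero L]

/-- moment curve -/
def mom (x : ZMod p) : Fin n → ZMod p := fun i => x ^ (i : ℕ)

/-- punctured lines through the moment curve -/
def Z0 : Finset (Fin n → ZMod p) :=
  ((univ.erase (0 : ZMod p)) ×ˢ (univ : Finset (ZMod p))).image fun q => q.1 • mom p n q.2

abbrev GG := (Fin n → ZMod p) × ((Fin n → ZMod p) × ZMod L)

def AA : Finset (GG p n L) := Z0 p n ×ˢ univ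
def BB : Finset (GG p n L) := univ ×ˢ (Z0 p n ×ˢ {0})
def ZZ : Finset (GG p n L) := AA p n L ∪ BB p n L

lemma Z0_neg (z : Fin n → ZMod p) (hz : z ∈ Z0 p n) : -z ∈ Z0 p n := by
  simp only [Z0, mem_image, mem_product, mem_erase, mem_univ, and_true, Prod.exists] at hz ⊢
  obtain ⟨a, x, ha, rfl⟩ := hz
  exact ⟨-a, x, by simpa using ha, by simp⟩

lemma ZZ_neg (z : GG p n L) (hz : z ∈ ZZ p n L) : -z ∈ ZZ p n L := by
  obtain ⟨a, b, c⟩ := z
  simp only [ZZ, AA, BB, mem_union, mem_product, mem_univ, and_true, true_and, mem_singleton,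
    Prod.neg_mk, neg_eq_zero] at hz ⊢
  rcases hz with h | ⟨h, h'⟩
  · exact Or.inl (Z0_neg p n _ h)
  · exact Or.inr ⟨Z0_neg p n _ h, h'⟩

lemma Z0_injOn (hn : 2 ≤ n) : Set.InjOn (fun q : ZMod p × ZMod p => q.1 • mom p n q.2)
    (((univ.erase (0 : ZMod p)) ×ˢ (univ : Finset (ZMod p)) : Finset _) : Set _) := by
  rintro ⟨a, x⟩ ha ⟨b, y⟩ _ h
  simp only [coe_product, coe_erase, coe_univ, Set.mem_prod, Set.mem_sdiff, Set.mem_univ,
    Set.mem_singleton_iff, true_and, and_true] at ha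
  have h0 := congrFun h ⟨0, by omega⟩
  have h1 := congrFun h ⟨1, by omega⟩
  simp only [mom, Pi.smul_apply, smul_eq_mul, pow_zero, mul_one, pow_one] at h0 h1
  subst h0
  rw [mul_left_cancel₀ ha h1]

lemma Z0_card (hn : 2 ≤ n) : (Z0 p n).card = (p - 1) * p := by
  rw [Z0, Finset.card_image_of_injOn (Z0_injOn p n hn)]
  simp [ZMod.card]

lemma Z0_char (hn : 2 ≤ n) (χ : AddChar (Fin n → ZMod p) ℂ) (hχ : χ ≠ 0) :
    (∑ z ∈ Z0 p n, χ z).re ≤ n * p := by
  classical
  rw [Z0, Finset.sum_image (Z0_injOn p n hn), Finset.sum_product_right]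
  let ψ : ZMod p → AddChar (ZMod p) ℂ := fun x =>
    χ.compAddMonoidHom ((LinearMap.toSpanSingleton (ZMod p) _ (mom p n x)).toAddMonoidHom)
  have hψ : ∀ x a, ψ x a = χ (a • mom p n x) := fun x a => by simp [ψ]
  have h1 : ∀ x, (∑ a ∈ univ.erase (0 : ZMod p), χ (a • mom p n x)).re ≤
      if ψ x = 0 then (p : ℝ) else 0 := by
    intro x
    have h2 := Finset.add_sum_erase univ (fun a => χ (a • mom p n x)) (mem_univ (0 : ZMod p))
    have h3 := AddChar.sum_eq_ite (ψ x)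
    simp only [hψ] at h3
    simp only [zero_smul, AddChar.map_zero_eq_one] at h2
    rw [h3] at h2
    have h4 := congrArg Complex.re h2
    split_ifs at h4 ⊢ with h
    · simp [ZMod.card] at h4 ⊢; linarith
    · simp at h4 ⊢; linarith
  have h5 : (univ.filter fun x => ψ x = 0).card ≤ n := by
    by_contra! hlt
    obtain ⟨T, hT, hTc⟩ := Finset.exists_subset_card_eq hlt.le
    let w : Fin n → ZMod p := fun i => (T.equivFinOfCardEq hTc).symm i
    have hw : Function.Injective w := Subtype.val_injective.comp (Equiv.injective _)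
    have hw0 : ∀ i, ψ (w i) = 0 := fun i => by
      have := hT ((T.equivFinOfCardEq hTc).symm i).2
      simpa using this
    have hdet : (Matrix.vandermonde w).det ≠ 0 := Matrix.det_vandermonde_ne_zero_iff.2 hw
    apply hχ
    ext y
    have hy : y = ∑ i, (y ᵥ* (Matrix.vandermonde w)⁻¹) i • mom p n (w i) := by
      have h6 : (y ᵥ* (Matrix.vandermonde w)⁻¹) ᵥ* Matrix.vandermonde w = y := by
        rw [Matrix.vecMul_vecMul, Matrix.nonsing_inv_mul _ (isUnit_iff_ne_zero.2 hdet),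
          Matrix.vecMul_one]
      conv_lhs => rw [← h6]
      funext j
      simp [Matrix.vecMul, dotProduct, mom, Matrix.vandermonde_apply, Finset.sum_apply]
    rw [hy]
    have h7 : ∀ (s : Finset (Fin n)) (c : Fin n → ZMod p),
        χ (∑ i ∈ s, c i • mom p n (w i)) = 1 := by
      intro s c
      induction s using Finset.induction_on with
      | empty => simp
      | insert i s hi ih =>
        rw [Finset.sum_insert hi, AddChar.map_add_eq_mul, ih, ← hψ, hw0]; simp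
    rw [h7]; simp
  rw [Complex.re_sum]
  calc _ ≤ ∑ x : ZMod p, (if ψ x = 0 then (p : ℝ) else 0) := Finset.sum_le_sum fun x _ => h1 x
    _ = (univ.filter fun x => ψ x = 0).card * (p : ℝ) := by
        rw [Finset.sum_ite]; simp
    _ ≤ n * p := by gcongr

lemma AA_card (hn : 2 ≤ n) : ((AA p n L).card : ℝ) = ((p : ℝ) - 1) * p * (p ^ n * L) := by
  have hp := (Fact.out : p.Prime).one_le
  simp [AA, Z0_card p n hn, ZMod.card, Nat.cast_sub hp]

lemma BB_card (hn : 2 ≤ n) : ((BB p n L).card : ℝ) = ((p : ℝ) - 1) * p * p ^ n := by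
  have hp := (Fact.out : p.Prime).one_le
  simp [BB, Z0_card p n hn, ZMod.card, Nat.cast_sub hp]; ring

lemma GG_card : (Fintype.card (GG p n L) : ℝ) = p ^ n * (p ^ n * L) := by
  simp [ZMod.card]

lemma ZZ_card_le (hn : 2 ≤ n) :
    ((ZZ p n L).card : ℝ) ≤ ((p : ℝ) - 1) * p * (p ^ n * (L + 1)) := by
  have h : ((ZZ p n L).card : ℝ) ≤ (AA p n L).card + (BB p n L).card := by
    exact_mod_cast Finset.card_union_le _ _
  rw [AA_card p n L hn, BB_card p n L hn] at h
  linarith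

lemma ZZ_card_ge (hn : 2 ≤ n) :
    ((p : ℝ) - 1) * p * (p ^ n * L) ≤ ((ZZ p n L).card : ℝ) := by
  rw [← AA_card p n L hn]
  exact_mod_cast Finset.card_le_card Finset.subset_union_left

lemma ZZ_pos (hn : 2 ≤ n) : (0 : ℝ) < (ZZ p n L).card := by
  have hp : (2 : ℝ) ≤ p := by exact_mod_cast (Fact.out : p.Prime).two_le
  have hL : (0 : ℝ) < L := by exact_mod_cast Nat.pos_of_ne_zero (NeZero.ne L)
  refine lt_of_lt_of_le ?_ (ZZ_card_ge p n L hn)
  have : (0 : ℝ) < p - 1 := by linarith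
  positivity

lemma ZZ_nonempty (hn : 2 ≤ n) : (ZZ p n L).Nonempty := by
  have := ZZ_pos p n L hn
  exact Finset.card_pos.1 (by exact_mod_cast this)

lemma ZZ_char (hn : 2 ≤ n) (hp : 4 * n + 1 ≤ p) (hL : 4 ≤ L) (χ : AddChar (GG p n L) ℂ)
    (hχ : χ ≠ 0) : (∑ z ∈ ZZ p n L, χ z).re ≤ (1 / 2) * (ZZ p n L).card := by
  classical
  have hp' : (4 : ℝ) * n + 1 ≤ p := by exact_mod_cast hp
  have hL' : (4 : ℝ) ≤ L := by exact_mod_cast hL
  have hn' : (2 : ℝ) ≤ n := by exact_mod_cast hn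
  have hA : (∑ z ∈ AA p n L, χ z).re ≤ n * p * (p ^ n * L) := by
    let χ₁ := χ.compAddMonoidHom (AddMonoidHom.inl (Fin n → ZMod p) ((Fin n → ZMod p) × ZMod L))
    let χ₂ := χ.compAddMonoidHom (AddMonoidHom.inr (Fin n → ZMod p) ((Fin n → ZMod p) × ZMod L))
    have hχ' : ∀ a b, χ (a, b) = χ₁ a * χ₂ b := fun a b => by
      simp [χ₁, χ₂, ← AddChar.map_add_eq_mul]
    rw [AA, Finset.sum_product]
    simp only [hχ', ← Finset.mul_sum, ← Finset.sum_mul]
    rw [AddChar.sum_eq_ite]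
    split_ifs with h
    · have h1 : χ₁ ≠ 0 := by
        intro h1; apply hχ; ext ⟨a, b⟩; rw [hχ', h, h1]; simp
      have h2 := Z0_char p n hn χ₁ h1
      have h3 : ((Fintype.card ((Fin n → ZMod p) × ZMod L) : ℕ) : ℂ) =
          (((p : ℝ) ^ n * L : ℝ) : ℂ) := by
        simp [ZMod.card]
      rw [h3, Complex.re_mul_ofReal]
      gcongr
    · simp; positivity
  have hsplit : ∑ z ∈ ZZ p n L, χ z = ∑ z ∈ AA p n L, χ z + ∑ z ∈ ZZ p n L \ AA p n L, χ z := by
    rw [add_comm, Finset.sum_sdiff (show AA p n L ⊆ ZZ p n L from Finset.subset_union_left)]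
  have hB : (∑ z ∈ ZZ p n L \ AA p n L, χ z).re ≤ ((p : ℝ) - 1) * p * p ^ n := by
    rw [Complex.re_sum, ← BB_card p n L hn]
    calc _ ≤ ∑ z ∈ ZZ p n L \ AA p n L, (1 : ℝ) := Finset.sum_le_sum fun z _ => by
          have := Complex.re_le_norm (χ z)
          rwa [AddChar.norm_apply] at this
      _ = (ZZ p n L \ AA p n L).card := by simp
      _ ≤ _ := by
          have : ZZ p n L \ AA p n L ⊆ BB p n L := by
            intro z hz
            simp only [ZZ, Finset.mem_sdiff, mem_union] at hz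
            tauto
          exact_mod_cast Finset.card_le_card this
  rw [hsplit, Complex.add_re]
  have hge := ZZ_card_ge p n L hn
  have hK : (0 : ℝ) < (p : ℝ) * p ^ n := by
    have : (0 : ℝ) < p := by linarith
    positivity
  have e1 : (n : ℝ) * L ≤ (1 / 4) * ((p - 1) * L) := by nlinarith
  have e2 : ((p : ℝ) - 1) ≤ (1 / 4) * ((p - 1) * L) := by nlinarith
  have e3 : (n : ℝ) * p * (p ^ n * L) + ((p : ℝ) - 1) * p * p ^ n ≤
      (1 / 2) * (((p : ℝ) - 1) * p * (p ^ n * L)) := by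
    have := mul_le_mul_of_nonneg_right (add_le_add e1 e2) hK.le
    nlinarith
  linarith

lemma sq_ge (hn : 2 ≤ n) (x y : GG p n L) :
    ((L : ℝ) / (L + 1) ^ 2) / (Fintype.card (GG p n L) : ℝ) ≤ (trans (ZZ p n L) ^ 2) x y := by
  have hp : (2 : ℝ) ≤ p := by exact_mod_cast (Fact.out : p.Prime).two_le
  have hp1 := (Fact.out : p.Prime).one_le
  have hL : (0 : ℝ) < L := by exact_mod_cast Nat.pos_of_ne_zero (NeZero.ne L)
  have hZ := ZZ_pos p n L hn
  rw [pow_two (trans (ZZ p n L)), Matrix.mul_apply, sum_trans_mul (ZZ_neg p n L)]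
  simp only [trans_eq (ZZ_neg p n L)]
  let T : Finset (GG p n L) := (Z0 p n ×ˢ Z0 p n).image
    fun q => (q.1, (y.2.1 - x.2.1 - q.2, y.2.2 - x.2.2))
  have hTc : (T.card : ℝ) = (((p : ℝ) - 1) * p) ^ 2 := by
    rw [Finset.card_image_of_injective]
    · simp [Z0_card p n hn, Nat.cast_sub hp1]; ring
    · rintro ⟨a, b⟩ ⟨c, d⟩ h
      simp only [Prod.mk.injEq, sub_right_inj, and_true] at h
      exact Prod.ext h.1 h.2
  have hTZ : T ⊆ ZZ p n L := by
    intro z hz
    simp only [T, mem_image, mem_product, Prod.exists] at hz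
    obtain ⟨a, b, ⟨ha, _⟩, rfl⟩ := hz
    simp [ZZ, AA, ha]
  have hT2 : ∀ z ∈ T, y - (x + z) ∈ ZZ p n L := by
    intro z hz
    simp only [T, mem_image, mem_product, Prod.exists] at hz
    obtain ⟨a, b, ⟨_, hb⟩, rfl⟩ := hz
    obtain ⟨x1, x2, x3⟩ := x
    obtain ⟨y1, y2, y3⟩ := y
    have e : y2 - (x2 + (y2 - x2 - b)) = b := by abel
    simp [ZZ, BB, e, hb]
  have h1 : (T.card : ℝ) / (ZZ p n L).card ≤
      ∑ z ∈ ZZ p n L, (if y - (x + z) ∈ ZZ p n L then (1 : ℝ) else 0) / (ZZ p n L).card := by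
    rw [← Finset.sum_div]
    gcongr
    calc (T.card : ℝ) = ∑ z ∈ T, (if y - (x + z) ∈ ZZ p n L then (1 : ℝ) else 0) := by
          rw [Finset.sum_congr rfl (g := fun _ => (1 : ℝ)) fun z hz => by simp [hT2 z hz]]
          simp
      _ ≤ _ := Finset.sum_le_sum_of_subset_of_nonneg hTZ fun z _ _ => by positivity
  have h2 := ZZ_card_le p n L hn
  have hp0 : (0 : ℝ) < p - 1 := by linarith
  calc ((L : ℝ) / (L + 1) ^ 2) / (Fintype.card (GG p n L) : ℝ)
      = (((p : ℝ) - 1) * p) ^ 2 / (((p : ℝ) - 1) * p * (p ^ n * (L + 1))) /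
          (((p : ℝ) - 1) * p * (p ^ n * (L + 1))) := by
        rw [GG_card]; field_simp
    _ ≤ (T.card : ℝ) / (ZZ p n L).card / (ZZ p n L).card := by
        rw [hTc]; gcongr
    _ ≤ _ := by gcongr

lemma zero_notMem_Z0 (hn : 2 ≤ n) : (0 : Fin n → ZMod p) ∉ Z0 p n := by
  simp only [Z0, mem_image, mem_product, mem_erase, mem_univ, and_true, Prod.exists, not_exists,
    not_and]
  intro a x ha h
  have := congrFun h ⟨0, by omega⟩
  simp [mom] at this
  exact ha this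

lemma zero_notMem_ZZ (hn : 2 ≤ n) : (0 : GG p n L) ∉ ZZ p n L := by
  have := zero_notMem_Z0 p n hn
  simp only [ZZ, AA, BB, mem_union, mem_product, mem_univ, and_true, true_and, Prod.fst_zero,
    Prod.snd_zero]
  tauto

lemma ratio_ge (hn : 2 ≤ n) (hp : 10 ≤ p) :
    1 - 1 / ((L : ℝ) + 1) ≤ ((AA p n L).card : ℝ) / (ZZ p n L).card := by
  have hp' : (10 : ℝ) ≤ p := by exact_mod_cast hp
  have hL : (0 : ℝ) < L := by exact_mod_cast Nat.pos_of_ne_zero (NeZero.ne L)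
  have hZ := ZZ_pos p n L hn
  have h4 := ZZ_card_le p n L hn
  have hp0 : (0 : ℝ) < p - 1 := by linarith
  calc 1 - 1 / ((L : ℝ) + 1) = ((AA p n L).card : ℝ) /
        (((p : ℝ) - 1) * p * (p ^ n * (L + 1))) := by
        rw [AA_card p n L hn]; field_simp; ring
    _ ≤ _ := by gcongr

def WW (t : ℕ) : Finset (GG p n L) := (t • insert 0 (Z0 p n)) ×ˢ univ

lemma WW_zero : (0 : GG p n L) ∈ WW p n L 0 := by simp [WW]

lemma WW_step (t : ℕ) (w a : GG p n L) (hw : w ∈ WW p n L t) (ha : a.1 ∈ insert 0 (Z0 p n)) :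
    w + a ∈ WW p n L (t + 1) := by
  obtain ⟨w1, w2⟩ := w
  obtain ⟨a1, a2⟩ := a
  simp only [WW, mem_product, mem_univ, and_true] at hw ha
  simp only [WW, mem_product, mem_univ, and_true, succ_nsmul, Prod.mk_add_mk]
  exact Finset.add_mem_add hw ha

lemma WW_card (hn : n = 2 * L + 2) (hp : 10 ≤ p) (t : ℕ) (ht : t ≤ L) :
    ((WW p n L t).card : ℝ) / (Fintype.card (GG p n L) : ℝ) ≤ 1 / 100 := by
  have hn2 : 2 ≤ n := by omega
  have hp' : (10 : ℝ) ≤ p := by exact_mod_cast hp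
  have hL : (0 : ℝ) < L := by exact_mod_cast Nat.pos_of_ne_zero (NeZero.ne L)
  have h8 : (t • insert 0 (Z0 p n)).card ≤ p ^ (2 * L) := by
    calc (t • insert 0 (Z0 p n)).card ≤ (insert 0 (Z0 p n)).card ^ t := Finset.card_nsmul_le
      _ ≤ (p ^ 2) ^ t := by
          gcongr
          refine (Finset.card_insert_le _ _).trans ?_
          rw [Z0_card p n hn2, pow_two]
          obtain ⟨q, rfl⟩ : ∃ q, p = q + 1 := ⟨p - 1, by omega⟩
          simp only [add_tsub_cancel_right]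
          nlinarith
      _ = p ^ (2 * t) := by rw [← pow_mul]
      _ ≤ p ^ (2 * L) := by gcongr; omega
  have h9 : ((t • insert 0 (Z0 p n)).card : ℝ) ≤ (p : ℝ) ^ (2 * L) := by exact_mod_cast h8
  have h10 : ((WW p n L t).card : ℝ) = (t • insert 0 (Z0 p n)).card * (p ^ n * L) := by
    simp [WW, ZMod.card]
  rw [h10, GG_card, mul_div_mul_right _ _ (by positivity), div_le_iff₀ (by positivity)]
  calc _ ≤ (p : ℝ) ^ (2 * L) := h9
    _ = (1 / 100) * (p ^ (2 * L) * 10 ^ 2) := by ring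
    _ ≤ (1 / 100) * (p ^ (2 * L) * p ^ 2) := by gcongr
    _ = _ := by rw [hn, pow_add]

end Concrete

lemma pow_le_inv (θ : ℝ) (h0 : 0 ≤ θ) (h1 : θ ≤ 1) (s : ℕ) : (1 - θ) ^ s ≤ 1 / (1 + s * θ) := by
  rw [le_div_iff₀ (by positivity)]
  calc (1 - θ) ^ s * (1 + s * θ) ≤ (1 - θ) ^ s * (1 + θ) ^ s := by
        gcongr; exact one_add_mul_le_pow (by linarith) s
    _ = (1 - θ ^ 2) ^ s := by rw [← mul_pow]; ring
    _ ≤ 1 := pow_le_one₀ (by nlinarith) (by nlinarith)

/-- the combinatorial data -/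
structure Good {G : Type} [AddCommGroup G] [Fintype G] [DecidableEq G] (N : ℕ) (Z : Finset G) :
    Prop where
  symm : ∀ z ∈ Z, -z ∈ Z
  ne : Z.Nonempty
  zero : (0 : G) ∉ Z
  big : N + 2 ≤ Fintype.card G
  chr : ∀ χ : AddChar G ℂ, χ ≠ 0 → (∑ z ∈ Z, χ z).re ≤ (1 / 2) * Z.card
  sq : ∀ x y, (19 / (400 * ((N : ℝ) + 1))) / (Fintype.card G : ℝ) ≤ (trans Z ^ 2) x y
  nest : ∃ W : ℕ → Finset G, (0 : G) ∈ W 0 ∧ (∀ t, W t ⊆ W (t + 1)) ∧
    (∀ t, ∀ w ∈ W t, 1 - 1 / (20 * ((N : ℝ) + 1)) ≤ ∑ y ∈ W (t + 1), trans Z w y) ∧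
    ∀ t < 20 * (N + 1), ((W t).card : ℝ) / (Fintype.card G : ℝ) ≤ 1 / 100

theorem package (N : ℕ) : ∃ (G : Type) (_ : AddCommGroup G) (_ : Fintype G) (_ : DecidableEq G)
    (Z : Finset G), Good N Z := by
  obtain ⟨p, hp, hpp⟩ := Nat.exists_infinite_primes (4 * (40 * N + 40) + 1)
  have : Fact p.Prime := ⟨hpp⟩
  set L := 20 * N + 19 with hL
  set n := 40 * N + 40 with hn
  have : NeZero L := ⟨by omega⟩
  have hn2 : 2 ≤ n := by omega
  have hLr : (L : ℝ) = 20 * N + 19 := by rw [hL]; push_cast; ring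
  have hN : (0 : ℝ) ≤ N := by positivity
  have hθ0 : 19 / (400 * ((N : ℝ) + 1)) ≤ (L : ℝ) / (L + 1) ^ 2 := by
    rw [hLr, div_le_div_iff₀ (by positivity) (by positivity)]; nlinarith
  have hc : (0 : ℝ) < Fintype.card (GG p n L) := by exact_mod_cast Fintype.card_pos
  refine ⟨GG p n L, inferInstance, inferInstance, inferInstance, ZZ p n L, ZZ_neg p n L,
    ZZ_nonempty p n L hn2, zero_notMem_ZZ p n L hn2, ?_, ZZ_char p n L hn2 hp (by omega), ?_,
    WW p n L, WW_zero p n L, ?_, ?_, ?_⟩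
  · have h1 : (L : ℝ) ≤ Fintype.card (GG p n L) := by
      rw [GG_card]
      have h2 : (1 : ℝ) ≤ (p : ℝ) ^ n := one_le_pow₀ (by exact_mod_cast hpp.one_le)
      have h3 : (0 : ℝ) ≤ L := by positivity
      nlinarith [mul_le_mul h2 h2 zero_le_one (by linarith)]
    have h2 : L ≤ Fintype.card (GG p n L) := by exact_mod_cast h1
    omega
  · intro x y
    refine le_trans ?_ (sq_ge p n L hn2 x y)
    gcongr
  · intro t w hw
    simpa using WW_step p n L t w 0 hw (Finset.mem_insert_self _ _)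
  · intro t w hw
    have h1 := ratio_ge p n L hn2 (by omega)
    rw [hLr, show (20 * (N : ℝ) + 19 + 1) = 20 * (N + 1) by ring] at h1
    refine h1.trans (trans_step (ZZ_neg p n L) Finset.subset_union_left _ _ ?_)
    intro a ha
    simp only [AA, mem_product, mem_univ, and_true] at ha
    exact WW_step p n L t w a hw (Finset.mem_insert_of_mem ha)
  · intro t ht
    exact WW_card p n L (by omega) (by omega) t (by omega)

section Lazy
variable {G : Type} [AddCommGroup G] [Fintype G] [DecidableEq G] {N : ℕ} {Z : Finset G}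

/-- lazy version -/
noncomputable def lz (Z : Finset G) : Matrix G G ℝ := fun x y =>
  (1 / 2) * ((if x = y then 1 else 0) + trans Z x y)

lemma lz_DS (h : Good N Z) : DS (lz Z) := by
  have h1 := trans_DS h.symm h.ne
  refine ⟨fun x y => ?_, fun x => ?_, fun y => ?_⟩
  · have := h1.nn x y
    unfold lz; positivity
  · simp only [lz, ← Finset.mul_sum, Finset.sum_add_distrib, h1.row]; simp; norm_num
  · simp only [lz, ← Finset.mul_sum, Finset.sum_add_distrib, h1.col]; simp; norm_num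

lemma Good.eig (h : Good N Z) (f : G → ℝ) (hf : f ≠ 0) (l : ℝ) (hl : l ≠ 1)
    (he : trans Z *ᵥ f = l • f) : l ≤ 1 / 2 :=
  eig_le h.symm h.ne (1 / 2) h.chr f hf
    (sum_eq_zero_of_eig (trans_DS h.symm h.ne) f l hl he) l he

lemma lz_eig (h : Good N Z) (f : G → ℝ) (hf : f ≠ 0) (l : ℝ) (hl : l ≠ 1)
    (he : lz Z *ᵥ f = l • f) : l ≤ 3 / 4 := by
  have h1 : trans Z *ᵥ f = (2 * l - 1) • f := by
    funext x
    have := congrFun he x
    simp only [Matrix.mulVec, dotProduct, lz, Pi.smul_apply, smul_eq_mul, mul_assoc,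
      ← Finset.mul_sum, add_mul, Finset.sum_add_distrib, ite_mul, one_mul, zero_mul,
      Finset.sum_ite_eq, mem_univ, if_true] at this ⊢
    linarith
  have := h.eig f hf (2 * l - 1) (fun h2 => hl (by linarith)) h1
  linarith

lemma lz_sq (h : Good N Z) (x y : G) :
    (19 / (1600 * ((N : ℝ) + 1))) / (Fintype.card G : ℝ) ≤ (lz Z ^ 2) x y := by
  have h1 := h.sq x y
  rw [pow_two (trans Z), Matrix.mul_apply] at h1
  rw [pow_two (lz Z), Matrix.mul_apply]
  have h2 : ∑ j, (1 / 4) * (trans Z x j * trans Z j y) ≤ ∑ j, lz Z x j * lz Z j y := by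
    refine Finset.sum_le_sum fun j _ => ?_
    have a := trans_nonneg Z x j
    have b := trans_nonneg Z j y
    have c : (1 / 2) * trans Z x j ≤ lz Z x j := by unfold lz; split_ifs <;> linarith
    have d : (1 / 2) * trans Z j y ≤ lz Z j y := by unfold lz; split_ifs <;> linarith
    calc (1 / 4) * (trans Z x j * trans Z j y)
        = ((1 / 2) * trans Z x j) * ((1 / 2) * trans Z j y) := by ring
      _ ≤ _ := mul_le_mul c d (by positivity) (le_trans (by positivity) c)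
  rw [← Finset.mul_sum] at h2
  have h3 : (19 / (1600 * ((N : ℝ) + 1))) / (Fintype.card G : ℝ) =
      (1 / 4) * ((19 / (400 * ((N : ℝ) + 1))) / (Fintype.card G : ℝ)) := by
    field_simp; ring
  rw [h3]; linarith

lemma lz_up (h : Good N Z) (k : ℕ) (x y : G) :
    (1 - 1 / (1 + 19 * (k : ℝ) / 1600)) / (Fintype.card G : ℝ) ≤
      (lz Z ^ (2 * (k * (N + 1)))) x y := by
  have hN : (0 : ℝ) ≤ N := by positivity
  have hc : (0 : ℝ) < Fintype.card G := by exact_mod_cast Fintype.card_pos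
  set θ : ℝ := 19 / (1600 * ((N : ℝ) + 1)) with hθ
  have hθ0 : 0 ≤ θ := by positivity
  have hθ1 : θ ≤ 1 := by rw [hθ, div_le_one (by positivity)]; linarith
  have h1 := doeblin ((lz_DS h).pow 2) θ (lz_sq h) (k * (N + 1)) x y
  rw [← pow_mul] at h1
  refine le_trans ?_ h1
  have h2 := pow_le_inv θ hθ0 hθ1 (k * (N + 1))
  have h3 : ((k * (N + 1) : ℕ) : ℝ) * θ = 19 * (k : ℝ) / 1600 := by
    rw [hθ]; push_cast; field_simp
  rw [h3] at h2
  gcongr

lemma lz_low (h : Good N Z) (t : ℕ) (ht : t < 20 * (N + 1)) :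
    99 / 100 - (t : ℝ) / (40 * ((N : ℝ) + 1)) ≤
      (1 / 2) * ∑ y, |(lz Z ^ t) 0 y - 1 / (Fintype.card G : ℝ)| := by
  obtain ⟨W, h0, h1, h2, h3⟩ := h.nest
  have hN : (0 : ℝ) ≤ N := by positivity
  have ha : (0 : ℝ) ≤ 1 - 1 / (40 * ((N : ℝ) + 1)) := by
    rw [sub_nonneg, div_le_one (by positivity)]; linarith
  have h4 := mass_ge (lz_DS h) (1 - 1 / (40 * ((N : ℝ) + 1))) ha W 0 h0 (fun t w hw => by
    have h5 := h2 t w hw
    have h6 : ∑ y ∈ W (t + 1), (if w = y then (1 : ℝ) else 0) = 1 := by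
      simp [h1 t hw]
    simp only [lz, ← Finset.mul_sum, Finset.sum_add_distrib, h6]
    have h7 : 1 / (40 * ((N : ℝ) + 1)) = (1 / 2) * (1 / (20 * ((N : ℝ) + 1))) := by
      field_simp; ring
    rw [h7]; linarith) t
  have h5 := test_le (fun y => (lz Z ^ t) 0 y) (((lz_DS h).pow t).row 0) (W t)
  have h6 := h3 t ht
  have h7 : 1 - (t : ℝ) / (40 * ((N : ℝ) + 1)) ≤ (1 - 1 / (40 * ((N : ℝ) + 1))) ^ t := by
    calc 1 - (t : ℝ) / (40 * ((N : ℝ) + 1)) = 1 + t * (-(1 / (40 * ((N : ℝ) + 1)))) := by ring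
      _ ≤ (1 + -(1 / (40 * ((N : ℝ) + 1)))) ^ t := one_add_mul_le_pow (by linarith) t
      _ = _ := by rw [← sub_eq_add_neg]
  linarith

lemma Good.two_step (h : Good N Z) (y : G) : ∃ a ∈ Z, ∃ b ∈ Z, y = a + b := by
  by_contra hcon
  push Not at hcon
  have h1 := h.sq 0 y
  have hc : (0 : ℝ) < Fintype.card G := by exact_mod_cast Fintype.card_pos
  have h2 : (trans Z ^ 2) 0 y = 0 := by
    rw [pow_two (trans Z), Matrix.mul_apply]
    refine Finset.sum_eq_zero fun j _ => ?_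
    simp only [trans_eq h.symm, sub_zero]
    by_cases hj : j ∈ Z
    · by_cases hj2 : y - j ∈ Z
      · exact absurd (by abel) (hcon j hj _ hj2)
      · simp [hj2]
    · simp [hj]
  have h3 : (0 : ℝ) < (19 / (400 * ((N : ℝ) + 1))) / (Fintype.card G : ℝ) := by positivity
  linarith

/-- Cayley graph -/
def cay (Z : Finset G) (hs : ∀ z ∈ Z, -z ∈ Z) (h0 : (0 : G) ∉ Z) : SimpleGraph G where
  Adj x y := y - x ∈ Z
  symm := ⟨fun x y hxy => by simpa using hs _ hxy⟩
  loopless := ⟨fun x hx => h0 (by simpa using hx)⟩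

instance (Z : Finset G) (hs : ∀ z ∈ Z, -z ∈ Z) (h0 : (0 : G) ∉ Z) :
    DecidableRel (cay Z hs h0).Adj := fun x y => inferInstanceAs (Decidable (y - x ∈ Z))

lemma cay_adj (hs : ∀ z ∈ Z, -z ∈ Z) (h0 : (0 : G) ∉ Z) (x y : G) :
    (cay Z hs h0).Adj x y ↔ y - x ∈ Z := Iff.rfl

lemma cay_degree (hs : ∀ z ∈ Z, -z ∈ Z) (h0 : (0 : G) ∉ Z) (x : G) :
    (cay Z hs h0).degree x = Z.card := by
  rw [← SimpleGraph.card_neighborFinset_eq_degree]
  refine Finset.card_bij (fun y _ => y - x) (fun y hy => ?_) (fun a _ b _ hab => ?_)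
    (fun z hz => ⟨x + z, ?_, by simp⟩)
  · simpa [cay_adj] using hy
  · simpa using hab
  · simpa [cay_adj] using hz

lemma cay_connected (h : Good N Z) : (cay Z h.symm h.zero).Connected := by
  refine ⟨fun x y => ?_⟩
  obtain ⟨a, ha, b, hb, hab⟩ := h.two_step (y - x)
  have h1 : (cay Z h.symm h.zero).Adj x (x + a) := by simpa [cay_adj] using ha
  have h2 : (cay Z h.symm h.zero).Adj (x + a) y := by
    rw [cay_adj, show y - (x + a) = b by rw [← sub_sub, hab]; abel]; exact hb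
  exact h1.reachable.trans h2.reachable

lemma cay_transitive (hs : ∀ z ∈ Z, -z ∈ Z) (h0 : (0 : G) ∉ Z) (x y : G) :
    ∃ φ : cay Z hs h0 ≃g cay Z hs h0, φ x = y :=
  ⟨⟨Equiv.addRight (y - x), by intro a b; simp [cay_adj]⟩, by simp⟩

end Lazy

lemma le_sInf_nat (d : ℕ → ℝ) (ε : ℝ) (T : ℕ) (hne : ∃ t, d t ≤ ε) (h : ∀ t < T, ε < d t) :
    T ≤ sInf {t : ℕ | d t ≤ ε} := by
  by_contra! hlt
  have := Nat.sInf_mem (s := {t : ℕ | d t ≤ ε}) hne
  exact absurd this (not_le.2 (h _ hlt))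

/-- abstract no-cutoff numerics -/
lemma numerics (d : ℕ → ℝ) (N : ℕ)
    (hlow : ∀ t < 20 * (N + 1), 99 / 100 - (t : ℝ) / (40 * ((N : ℝ) + 1)) ≤ d t)
    (hup : ∀ k : ℕ, d (2 * (k * (N + 1))) ≤ 1 / (1 + 19 * (k : ℝ) / 1600)) :
    20 * (N + 1) ≤ sInf {t : ℕ | d t ≤ 1 / 4} ∧
      (2 : ℝ) ≤ (sInf {t : ℕ | d t ≤ 1 / 20} : ℕ) / (sInf {t : ℕ | d t ≤ 1 - 1 / 20} : ℕ) := by
  have hN : (0 : ℝ) ≤ N := by positivity
  have hex : ∀ ε : ℝ, 1 / 20 ≤ ε → ∃ t, d t ≤ ε := fun ε hε =>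
    ⟨_, (hup 1600).trans (by norm_num; linarith)⟩
  have hl : ∀ t < 20 * (N + 1), 49 / 100 ≤ d t := by
    intro t ht
    have h1 : (t : ℝ) ≤ 20 * (N + 1) := by exact_mod_cast ht.le
    have h2 : (t : ℝ) / (40 * ((N : ℝ) + 1)) ≤ 1 / 2 := by
      rw [div_le_iff₀ (by positivity)]; linarith
    linarith [hlow t ht]
  have a1 := le_sInf_nat d (1 / 4) _ (hex _ (by norm_num)) fun t ht => by linarith [hl t ht]
  have a2 := le_sInf_nat d (1 / 20) _ (hex _ (by norm_num)) fun t ht => by linarith [hl t ht]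
  have a3 := le_sInf_nat d (1 - 1 / 20) 1 (hex _ (by norm_num)) fun t ht => by
    have h0 : t = 0 := by omega
    subst h0
    have := hlow 0 (by omega)
    simp only [Nat.cast_zero, zero_div, sub_zero] at this
    linarith
  have a4 : sInf {t : ℕ | d t ≤ 1 - 1 / 20} ≤ 2 * (5 * (N + 1)) :=
    Nat.sInf_le ((hup 5).trans (by norm_num))
  refine ⟨a1, ?_⟩
  have b2 : 20 * ((N : ℝ) + 1) ≤ (sInf {t : ℕ | d t ≤ 1 / 20} : ℕ) := by exact_mod_cast a2
  have b3 : (1 : ℝ) ≤ (sInf {t : ℕ | d t ≤ 1 - 1 / 20} : ℕ) := by exact_mod_cast a3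
  have b4 : ((sInf {t : ℕ | d t ≤ 1 - 1 / 20} : ℕ) : ℝ) ≤ 2 * (5 * ((N : ℝ) + 1)) := by
    exact_mod_cast a4
  rw [le_div_iff₀ (by linarith)]; linarith

end Pool.Agent.Lib.helper1.Pak
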