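import Mathlib
import Pool.Agent.Lib.helper1.Pak

set_option autoImplicit false
set_option linter.unusedSectionVars false

open Finset Filter Topology Matrix

namespace Pool.Agent.Lib.helper1.PakCyc

open Pool.Agent.Lib.helper1.Pak

structure GoodW {G : Type} [AddCommGroup G] [Fintype G] [DecidableEq G] (N : ℕ) (μ : G → ℝ) :
    Prop where
  symm : ∀ x, μ (-x) = μ x
  pos : ∀ x, (1 / (40 * ((N : ℝ) + 1))) / (Fintype.card G : ℝ) ≤ μ x
  sum : ∑ x, μ x = 1
  big : N + 2 ≤ Fintype.card G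
  chr : ∀ χ : AddChar G ℂ, χ ≠ 0 → ‖∑ x, (μ x : ℂ) * χ x‖ ≤ 1 / 2
  nest : ∃ W : ℕ → Finset G, (0 : G) ∈ W 0 ∧
    (∀ t, ∀ w ∈ W t, 1 - 1 / (40 * ((N : ℝ) + 1)) ≤ ∑ y ∈ W (t + 1), μ (y - w)) ∧
    ∀ t < 20 * (N + 1), ((W t).card : ℝ) / (Fintype.card G : ℝ) ≤ 1 / 100

lemma GoodW.transfer {G G' : Type} [AddCommGroup G] [Fintype G] [DecidableEq G]
    [AddCommGroup G'] [Fintype G'] [DecidableEq G'] {N : ℕ} {μ : G' → ℝ} (h : GoodW N μ)
    (e : G ≃+ G') : GoodW N (fun x => μ (e x)) := by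
  have hc : Fintype.card G = Fintype.card G' := Fintype.card_congr e.toEquiv
  refine ⟨fun x => by simp [h.symm], fun x => by rw [hc]; exact h.pos _, ?_, hc ▸ h.big, ?_, ?_⟩
  · rw [← h.sum]; exact Equiv.sum_comp e.toEquiv μ
  · intro χ hχ
    have h1 := h.chr (χ.compAddMonoidHom e.symm.toAddMonoidHom) (by
      intro h0; apply hχ; ext x
      have := congrArg (fun ψ : AddChar G' ℂ => ψ (e x)) h0
      simpa using this)
    rw [← Equiv.sum_comp e.toEquiv] at h1
    simpa using h1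
  · obtain ⟨W, h0, h1, h2⟩ := h.nest
    refine ⟨fun t => (W t).map e.symm.toEquiv.toEmbedding, ?_, ?_, ?_⟩
    · simp only [Finset.mem_map_equiv]; simpa using h0
    · intro t w hw
      simp only [Finset.mem_map_equiv] at hw
      have := h1 t (e w) (by simpa using hw)
      rw [Finset.sum_map]
      simpa using this
    · intro t ht
      rw [Finset.card_map, hc]; exact h2 t ht

section Concrete
variable {D : ℕ} {I : Type} [Fintype I] [DecidableEq I] (S : I → Finset (Fin D)) (q : I → ℕ)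
  [∀ i, NeZero (q i)]

def H (j : Fin D) : Finset (∀ i, ZMod (q i)) := univ.filter fun x => ∀ i, j ∉ S i → x i = 0

lemma mem_H (j : Fin D) (x : ∀ i, ZMod (q i)) : x ∈ H S q j ↔ ∀ i, j ∉ S i → x i = 0 := by
  simp [H]

lemma H_pos (j : Fin D) : (0 : ℝ) < (H S q j).card := by
  have : (H S q j).Nonempty := ⟨0, by simp [mem_H]⟩
  exact_mod_cast this.card_pos

noncomputable def nu (x : ∀ i, ZMod (q i)) : ℝ :=
  (1 / (D : ℝ)) * ∑ j, if x ∈ H S q j then 1 / ((H S q j).card : ℝ) else 0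

lemma nu_nonneg (x : ∀ i, ZMod (q i)) : 0 ≤ nu S q x := by
  unfold nu; positivity

lemma nu_sum_c (f : (∀ i, ZMod (q i)) → ℂ) : ∑ x, (nu S q x : ℂ) * f x =
    (1 / (D : ℂ)) * ∑ j, (∑ x ∈ H S q j, f x) / ((H S q j).card : ℂ) := by
  simp only [nu, Complex.ofReal_mul, Complex.ofReal_sum, mul_assoc, ← Finset.mul_sum,
    Finset.sum_mul]
  congr 1
  · simp
  rw [Finset.sum_comm]
  refine Finset.sum_congr rfl fun j _ => ?_
  rw [Finset.sum_div, ← Finset.sum_subset (Finset.subset_univ (H S q j))]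
  · exact Finset.sum_congr rfl fun x hx => by simp [hx]; ring
  · intro x _ hx; simp [hx]

lemma nu_sum_r (f : (∀ i, ZMod (q i)) → ℝ) : ∑ x, nu S q x * f x =
    (1 / (D : ℝ)) * ∑ j, (∑ x ∈ H S q j, f x) / ((H S q j).card : ℝ) := by
  have := nu_sum_c S q (fun x => (f x : ℂ))
  apply Complex.ofReal_injective
  push_cast
  exact this

lemma nu_total (hD : 0 < D) : ∑ x, nu S q x = 1 := by
  have := nu_sum_r S q (fun _ => 1)
  simp only [mul_one, sum_const, nsmul_eq_mul] at this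
  rw [this, Finset.sum_congr rfl (g := fun _ => (1 : ℝ)) fun j _ => div_self (H_pos S q j).ne']
  have : (D : ℝ) ≠ 0 := by positivity
  simp [this]

lemma nu_symm (x : ∀ i, ZMod (q i)) : nu S q (-x) = nu S q x := by
  simp [nu, mem_H]

lemma nu_chr (hD : 0 < D) (hS : ∀ i, D ≤ 2 * (S i).card) (χ : AddChar (∀ i, ZMod (q i)) ℂ)
    (hχ : χ ≠ 0) : ‖∑ x, (nu S q x : ℂ) * χ x‖ ≤ 1 / 2 := by
  obtain ⟨i, a, hia⟩ : ∃ i, ∃ a : ZMod (q i), χ (Pi.single i a) ≠ 1 := by
    by_contra! hc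
    apply hχ
    ext x
    rw [← Finset.univ_sum_single x]
    have h7 : ∀ s : Finset I, χ (∑ i ∈ s, Pi.single i (x i)) = 1 := by
      intro s
      induction s using Finset.induction_on with
      | empty => simp
      | insert i s hi ih => rw [Finset.sum_insert hi, AddChar.map_add_eq_mul, ih, hc]; simp
    rw [h7]; simp
  have h1 : ∀ j ∈ S i, ∑ x ∈ H S q j, χ x = 0 := by
    intro j hj
    have h2 : ∑ x ∈ H S q j, χ x = ∑ x ∈ H S q j, χ (x + Pi.single i a) := by
      have hne : ∀ k, j ∉ S k → k ≠ i := fun k hk hki => hk (hki ▸ hj)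
      symm
      refine Finset.sum_bij (fun x _ => x + Pi.single i a) (fun x hx => ?_)
        (fun x _ y _ hxy => add_right_cancel hxy)
        (fun y hy => ⟨y - Pi.single i a, ?_, by simp⟩) (fun _ _ => rfl)
      · rw [mem_H] at hx ⊢
        intro k hk
        simp [hx k hk, Pi.single_eq_of_ne (hne k hk)]
      · rw [mem_H] at hy ⊢
        intro k hk
        simp [hy k hk, Pi.single_eq_of_ne (hne k hk)]
    simp only [AddChar.map_add_eq_mul, ← Finset.sum_mul] at h2
    have h3 : (∑ x ∈ H S q j, χ x) * (1 - χ (Pi.single i a)) = 0 := by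
      rw [mul_sub, mul_one, ← h2, sub_self]
    rcases mul_eq_zero.1 h3 with h4 | h4
    · exact h4
    · exact absurd (by linear_combination -h4) hia
  have h2 : ∀ j, ‖(∑ x ∈ H S q j, χ x) / ((H S q j).card : ℂ)‖ ≤ if j ∈ S i then 0 else 1 := by
    intro j
    split_ifs with hj
    · simp [h1 j hj]
    · rw [norm_div, Complex.norm_natCast, div_le_one (H_pos S q j)]
      refine (norm_sum_le _ _).trans ?_
      simp [AddChar.norm_apply]
  rw [nu_sum_c, norm_mul]
  have h3 := (norm_sum_le _ _).trans (Finset.sum_le_sum fun j (_ : j ∈ univ) => h2 j)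
  have h4 : ∑ j : Fin D, (if j ∈ S i then (0 : ℝ) else 1) = D - (S i).card := by
    have : ∀ j : Fin D, (if j ∈ S i then (0 : ℝ) else 1) = 1 - if j ∈ S i then 1 else 0 := by
      intro j; split_ifs <;> simp
    simp [this, Finset.sum_sub_distrib]
  rw [h4] at h3
  have h5 : (D : ℝ) ≤ 2 * (S i).card := by exact_mod_cast hS i
  have h6 : (0 : ℝ) < D := by exact_mod_cast hD
  have h7 : ‖(1 / (D : ℂ))‖ = 1 / (D : ℝ) := by simp
  rw [h7]
  calc _ ≤ 1 / (D : ℝ) * (D / 2) := by gcongr; linarith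
    _ = 1 / 2 := by field_simp

def W (t : ℕ) : Finset (∀ i, ZMod (q i)) :=
  univ.filter fun x => ∃ J : Finset (Fin D), J.card ≤ t ∧ ∀ i, Disjoint (S i) J → x i = 0

lemma W_step (hD : 0 < D) (t : ℕ) (w : ∀ i, ZMod (q i)) (hw : w ∈ W S q t) :
    ∑ y ∈ W S q (t + 1), nu S q (y - w) = 1 := by
  have h1 := nu_sum_r S q (fun x => if w + x ∈ W S q (t + 1) then 1 else 0)
  have h2 : ∀ j, ∀ x ∈ H S q j, w + x ∈ W S q (t + 1) := by
    intro j x hx
    simp only [W, mem_filter, mem_univ, true_and] at hw ⊢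
    obtain ⟨J, hJ, hJ2⟩ := hw
    refine ⟨insert j J, (Finset.card_insert_le _ _).trans (by omega), fun i hi => ?_⟩
    rw [Finset.disjoint_insert_right] at hi
    simp [hJ2 i hi.2, (mem_H S q j x).1 hx i hi.1]
  have h3 : ∀ j, (∑ x ∈ H S q j, if w + x ∈ W S q (t + 1) then (1 : ℝ) else 0) /
      ((H S q j).card : ℝ) = 1 := by
    intro j
    rw [Finset.sum_congr rfl (g := fun _ => (1 : ℝ)) fun x hx => by simp [h2 j x hx]]
    simp [(H_pos S q j).ne']
  simp only [h3] at h1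
  have h4 : (D : ℝ) ≠ 0 := by positivity
  have h5 : ∑ y ∈ W S q (t + 1), nu S q (y - w) =
      ∑ x, nu S q x * if w + x ∈ W S q (t + 1) then 1 else 0 := by
    rw [← Equiv.sum_comp (Equiv.subRight w)]
    simp [Finset.sum_ite_mem]
  rw [h5, h1]; simp [h4]

lemma fiber_card (i : I) :
    (univ.filter fun x : (∀ i, ZMod (q i)) => x i = 0).card * q i ≤
      Fintype.card (∀ i, ZMod (q i)) := by
  have := Finset.card_le_card_of_injOn
    (s := (univ.filter fun x : (∀ i, ZMod (q i)) => x i = 0) ×ˢ (univ : Finset (ZMod (q i))))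
    (t := (univ : Finset (∀ i, ZMod (q i)))) (fun p => p.1 + Pi.single i p.2)
    (fun _ _ => by simp) (by
      rintro ⟨x, a⟩ hx ⟨y, b⟩ hy hxy
      simp only [coe_product, coe_filter, mem_univ, true_and, coe_univ, Set.mem_prod,
        Set.mem_ofPred_eq, Set.mem_univ, and_true] at hx hy
      have h1 := congrFun hxy i
      simp only [Pi.add_apply, hx, hy, Pi.single_eq_same, zero_add] at h1
      subst h1
      simp only [add_left_inj] at hxy
      rw [hxy])
  simpa [ZMod.card] using this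

lemma W_card [Nonempty I] (t : ℕ)
    (hS : ∀ J : Finset (Fin D), J.card ≤ t → ∃ i, Disjoint (S i) J)
    (hq : ∀ i, 100 * Fintype.card I ≤ q i) :
    ((W S q t).card : ℝ) / (Fintype.card (∀ i, ZMod (q i)) : ℝ) ≤ 1 / 100 := by
  have hc : (0 : ℝ) < Fintype.card (∀ i, ZMod (q i)) := by exact_mod_cast Fintype.card_pos
  have hI : (0 : ℝ) < Fintype.card I := by exact_mod_cast Fintype.card_pos
  have h1 : W S q t ⊆ univ.biUnion fun i => univ.filter fun x : (∀ i, ZMod (q i)) => x i = 0 := by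
    intro x hx
    simp only [W, mem_filter, mem_univ, true_and] at hx
    obtain ⟨J, hJ, hJ2⟩ := hx
    obtain ⟨i, hi⟩ := hS J hJ
    simp only [mem_biUnion, mem_univ, mem_filter, true_and]
    exact ⟨i, hJ2 i hi⟩
  have h2 := (Finset.card_le_card h1).trans Finset.card_biUnion_le
  have h3 : ((W S q t).card : ℝ) ≤
      ∑ i, ((univ.filter fun x : (∀ i, ZMod (q i)) => x i = 0).card : ℝ) := by exact_mod_cast h2
  have h4 : ∀ i, ((univ.filter fun x : (∀ i, ZMod (q i)) => x i = 0).card : ℝ) ≤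
      (Fintype.card (∀ i, ZMod (q i)) : ℝ) / (100 * Fintype.card I) := by
    intro i
    rw [le_div_iff₀ (by positivity)]
    have := (Nat.mul_le_mul_left _ (hq i)).trans (fiber_card q i)
    exact_mod_cast this
  have h5 := h3.trans (Finset.sum_le_sum fun i _ => h4 i)
  simp only [sum_const, card_univ, nsmul_eq_mul] at h5
  rw [div_le_iff₀ hc]
  refine h5.trans (le_of_eq ?_)
  field_simp

end Concrete

theorem packageW (N : ℕ) : ∃ (n : ℕ) (_ : NeZero n) (μ : ZMod n → ℝ), GoodW N μ := by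
  classical
  set D := 40 * (N + 1) with hD
  let I := {ω : Finset (Fin D) // D ≤ 2 * ω.card}
  have hI : Nonempty I := ⟨⟨univ, by simp; omega⟩⟩
  let ι : I ≃ Fin (Fintype.card I) := Fintype.equivFin I
  let q : I → ℕ := fun i => Nat.fermatNumber ((ι i : ℕ) + (100 * Fintype.card I + N + 2))
  have hq : ∀ i, 100 * Fintype.card I + N + 2 ≤ q i := by
    intro i
    have h1 : ∀ m : ℕ, m ≤ Nat.fermatNumber m := fun m => by
      have a := Nat.lt_two_pow_self (n := m)
      have b := Nat.lt_two_pow_self (n := 2 ^ m)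
      unfold Nat.fermatNumber; omega
    exact le_trans (Nat.le_add_left _ _) (h1 _)
  have hq0 : ∀ i, NeZero (q i) := fun i => ⟨by have := hq i; omega⟩
  have hcop : Pairwise (Function.onFun Nat.Coprime q) := by
    intro i j hij
    refine Nat.coprime_fermatNumber_fermatNumber fun h => hij ?_
    apply ι.injective
    ext; omega
  have hn0 : NeZero (∏ i, q i) := ⟨Finset.prod_ne_zero_iff.2 fun i _ => (hq0 i).ne⟩
  let S : I → Finset (Fin D) := fun i => i.1
  have hDpos : 0 < D := by omega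
  have hN : (0 : ℝ) ≤ N := by positivity
  have hc : (0 : ℝ) < Fintype.card (∀ i, ZMod (q i)) := by exact_mod_cast Fintype.card_pos
  set δ : ℝ := 1 / (40 * ((N : ℝ) + 1)) with hδ
  have hδ0 : 0 ≤ δ := by positivity
  have hδ1 : δ ≤ 1 := by rw [hδ, div_le_one (by positivity)]; linarith
  have hG : GoodW N (fun x : (∀ i, ZMod (q i)) =>
      (1 - δ) * nu S q x + δ / (Fintype.card (∀ i, ZMod (q i)) : ℝ)) := by
    refine ⟨fun x => by simp only [nu_symm], fun x => ?_, ?_, ?_, fun χ hχ => ?_,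
      W S q, by simp [W], fun t w hw => ?_, fun t ht => ?_⟩
    · have := mul_nonneg (sub_nonneg.2 hδ1) (nu_nonneg S q x)
      rw [← hδ]; linarith
    · simp only [Finset.sum_add_distrib, ← Finset.mul_sum, nu_total S q hDpos, sum_const,
        card_univ, nsmul_eq_mul]
      field_simp; ring
    · obtain ⟨i⟩ := hI
      have h1 := fiber_card q i
      have h2 : 0 < (univ.filter fun x : (∀ i, ZMod (q i)) => x i = 0).card :=
        Finset.card_pos.2 ⟨0, by simp⟩
      have h3 := hq i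
      nlinarith
    · have h1 := nu_chr S q hDpos (fun i => i.2) χ hχ
      have h2 : ∑ x, χ x = 0 := by rw [AddChar.sum_eq_ite]; simp [hχ]
      simp only [Complex.ofReal_add, Complex.ofReal_mul, add_mul, Finset.sum_add_distrib,
        mul_assoc, ← Finset.mul_sum, h2, mul_zero, add_zero, norm_mul, Complex.norm_real,
        Real.norm_eq_abs]
      rw [abs_of_nonneg (sub_nonneg.2 hδ1)]
      nlinarith [norm_nonneg (∑ x, (nu S q x : ℂ) * χ x)]
    · rw [← hδ, Finset.sum_add_distrib, ← Finset.mul_sum, W_step S q hDpos t w hw]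
      have : 0 ≤ ∑ _y ∈ W S q (t + 1), δ / (Fintype.card (∀ i, ZMod (q i)) : ℝ) :=
        Finset.sum_nonneg fun _ _ => by positivity
      linarith
    · refine W_card S q t (fun J hJ => ⟨⟨Jᶜ, ?_⟩, disjoint_compl_left⟩)
        (fun i => by have := hq i; omega)
      rw [Finset.card_compl, Fintype.card_fin]; omega
  exact ⟨∏ i, q i, hn0, _, hG.transfer (ZMod.prodEquivPi q hcop).toAddEquiv⟩

section Conv
variable {G : Type} [AddCommGroup G] [Fintype G] [DecidableEq G] {N : ℕ} {μ : G → ℝ}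

def M (μ : G → ℝ) : Matrix G G ℝ := fun x y => μ (y - x)

lemma GoodW.pos' (h : GoodW N μ) (x : G) : 0 < μ x := by
  have hc : (0 : ℝ) < Fintype.card G := by exact_mod_cast Fintype.card_pos
  exact lt_of_lt_of_le (by positivity) (h.pos x)

lemma M_DS (h : GoodW N μ) : DS (M μ) := by
  refine ⟨fun x y => (h.pos' _).le, fun x => ?_, fun y => ?_⟩
  · rw [← h.sum]; exact Equiv.sum_comp (Equiv.subRight x) μ
  · rw [← h.sum]; exact Equiv.sum_comp (Equiv.subLeft y) μ

lemma M_low (h : GoodW N μ) (t : ℕ) (ht : t < 20 * (N + 1)) :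
    99 / 100 - (t : ℝ) / (40 * ((N : ℝ) + 1)) ≤
      (1 / 2) * ∑ y, |(M μ ^ t) 0 y - 1 / (Fintype.card G : ℝ)| := by
  obtain ⟨W, h0, h2, h3⟩ := h.nest
  have hN : (0 : ℝ) ≤ N := by positivity
  have ha : (0 : ℝ) ≤ 1 - 1 / (40 * ((N : ℝ) + 1)) := by
    rw [sub_nonneg, div_le_one (by positivity)]; linarith
  have h4 := mass_ge (M_DS h) (1 - 1 / (40 * ((N : ℝ) + 1))) ha W 0 h0 h2 t
  have h5 := test_le (fun y => (M μ ^ t) 0 y) (((M_DS h).pow t).row 0) (W t)
  have h6 := h3 t ht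
  have h7 : 1 - (t : ℝ) / (40 * ((N : ℝ) + 1)) ≤ (1 - 1 / (40 * ((N : ℝ) + 1))) ^ t := by
    calc 1 - (t : ℝ) / (40 * ((N : ℝ) + 1)) = 1 + t * (-(1 / (40 * ((N : ℝ) + 1)))) := by ring
      _ ≤ (1 + -(1 / (40 * ((N : ℝ) + 1)))) ^ t := one_add_mul_le_pow (by linarith) t
      _ = _ := by rw [← sub_eq_add_neg]
  linarith

lemma M_up (h : GoodW N μ) (k : ℕ) :
    (1 / 2) * ∑ y, |(M μ ^ (2 * (k * (N + 1)))) 0 y - 1 / (Fintype.card G : ℝ)| ≤
      1 / (1 + 19 * (k : ℝ) / 1600) := by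
  have hN : (0 : ℝ) ≤ N := by positivity
  have hc : (0 : ℝ) < Fintype.card G := by exact_mod_cast Fintype.card_pos
  set θ : ℝ := 1 / (40 * ((N : ℝ) + 1)) with hθ
  have hθ0 : 0 ≤ θ := by positivity
  have hθ1 : θ ≤ 1 := by rw [hθ, div_le_one (by positivity)]; linarith
  refine tv_le_sep _ (((M_DS h).pow _).row 0) _ (by positivity) fun y => ?_
  refine le_trans ?_ (doeblin (M_DS h) θ (fun x y => h.pos _) (2 * (k * (N + 1))) 0 y)
  have h2 := pow_le_inv θ hθ0 hθ1 (2 * (k * (N + 1)))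
  have h3 : ((2 * (k * (N + 1)) : ℕ) : ℝ) * θ = (k : ℝ) / 20 := by
    rw [hθ]; push_cast; field_simp; ring
  rw [h3] at h2
  have hk : (0 : ℝ) ≤ k := by positivity
  have h4 : 1 / (1 + (k : ℝ) / 20) ≤ 1 / (1 + 19 * (k : ℝ) / 1600) := by
    exact one_div_le_one_div_of_le (by positivity) (by linarith)
  gcongr; linarith

end Conv

lemma fourier_le {n : ℕ} [NeZero n] {N : ℕ} {μ : ZMod n → ℝ} (h : GoodW N μ) (j : ZMod n)
    (hj : j ≠ 0) : ‖∑ x, (μ x : ℂ) *
      Complex.exp (2 * Real.pi * Complex.I * (j.val * x.val) / n)‖ ≤ 1 / 2 := by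
  have h1 := h.chr ((ZMod.stdAddChar (N := n)).mulShift j) (ZMod.isPrimitive_stdAddChar n hj)
  have h2 : ∀ x : ZMod n, (ZMod.stdAddChar (N := n)).mulShift j x =
      Complex.exp (2 * Real.pi * Complex.I * (j.val * x.val) / n) := by
    intro x
    have := ZMod.stdAddChar_coe (N := n) ((j.val * x.val : ℕ) : ℤ)
    simp only [Nat.cast_mul, Int.cast_mul, ZMod.natCast_val] at this
    simpa using this
  simpa only [h2] using h1

end Pool.Agent.Lib.helper1.PakCyc
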