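import Mathlib

set_option autoImplicit false

open Polynomial

namespace Pool.Agent.Lib.helper1.Polya

/-- Polynomials with nonnegative coefficients. -/
def N : Subsemiring ℝ[X] where
  carrier := {h | ∀ k, 0 ≤ h.coeff k}
  mul_mem' := fun {p q} hp hq n => by
    rw [coeff_mul]; exact Finset.sum_nonneg fun a _ => mul_nonneg (hp _) (hq _)
  one_mem' := fun k => by rw [coeff_one]; split_ifs <;> norm_num
  add_mem' := fun {p q} hp hq n => by rw [coeff_add]; exact add_nonneg (hp n) (hq n)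
  zero_mem' := fun k => by simp

lemma X_mem_N : X ∈ N := fun k => by rw [coeff_X]; split_ifs <;> norm_num

lemma C_mem_N {c : ℝ} (hc : 0 ≤ c) : C c ∈ N := fun k => by
  rw [coeff_C]; split_ifs; exacts [hc, le_rfl]

lemma pw (n : ℕ) : (1 + X) ^ n ∈ N := pow_mem (add_mem (one_mem _) X_mem_N) n

def B : Subsemiring ℝ[X] where
  carrier := {p | ∃ (n : ℕ) (h : ℝ[X]), h ∈ N ∧
    ∀ t : ℝ, 0 < t → (1 + t) ^ n * p.eval (t / (1 + t)) = h.eval t}
  mul_mem' := by
    rintro p q ⟨n, h, hh, e⟩ ⟨m, k, hk, e'⟩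
    refine ⟨n + m, h * k, mul_mem hh hk, fun t ht => ?_⟩
    rw [eval_mul, eval_mul, ← e t ht, ← e' t ht]; ring
  one_mem' := ⟨0, 1, one_mem _, by simp⟩
  add_mem' := by
    rintro p q ⟨n, h, hh, e⟩ ⟨m, k, hk, e'⟩
    refine ⟨n + m, h * (1 + X) ^ m + k * (1 + X) ^ n,
      add_mem (mul_mem hh (pw m)) (mul_mem hk (pw n)), fun t ht => ?_⟩
    simp only [eval_add, eval_mul, eval_pow, eval_one, eval_X, ← e t ht, ← e' t ht]; ring
  zero_mem' := ⟨0, 0, zero_mem _, by simp⟩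

lemma C_mem {c : ℝ} (hc : 0 ≤ c) : C c ∈ B := ⟨0, C c, C_mem_N hc, by simp⟩

lemma X_mem : X ∈ B := ⟨1, X, X_mem_N, fun t ht => by simp; field_simp⟩

lemma one_sub_mem : 1 - X ∈ B := ⟨1, 1, one_mem _, fun t ht => by simp; field_simp; ring⟩

lemma bern_mem (n k : ℕ) : bernsteinPolynomial ℝ n k ∈ B :=
  mul_mem (mul_mem (natCast_mem _ _) (pow_mem X_mem _)) (pow_mem one_sub_mem _)

lemma quad (p : ℝ[X]) (hd : p.natDegree ≤ 2) (hp : ∀ x ∈ Set.Icc (0 : ℝ) 1, 0 < p.eval x) :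
    p ∈ B := by
  obtain ⟨x0, hx0, hmin⟩ := (isCompact_Icc (a := (0 : ℝ)) (b := 1)).exists_isMinOn
    ⟨0, by simp⟩ p.continuous.continuousOn
  obtain ⟨δ, hδ⟩ : ∃ δ, δ = p.eval x0 := ⟨_, rfl⟩
  have d0 : 0 < δ := hδ ▸ hp x0 hx0
  have ev : ∀ x, p.eval x = p.coeff 2 * x ^ 2 + p.coeff 1 * x + p.coeff 0 := fun x => by
    rw [eval_eq_sum_range' (n := 3) (by omega)]
    simp [Finset.sum_range_succ]; ring
  obtain ⟨m, hm⟩ := exists_nat_ge (|p.coeff 2| / δ)
  obtain ⟨n, hn⟩ : ∃ n, n = m + 1 := ⟨_, rfl⟩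
  have n0 : (0 : ℝ) < n := by rw [hn]; positivity
  have hb : |p.coeff 2| / n ≤ δ := by
    rw [div_le_iff₀ d0] at hm
    rw [div_le_iff₀ n0, hn]
    push_cast
    nlinarith
  have key : p = ∑ k ∈ Finset.range (n + 1), C (p.eval (k / n : ℝ) - δ) * bernsteinPolynomial ℝ n k
      + (C (δ - |p.coeff 2| / n) + C (|p.coeff 2| / n) * (1 - X + X * X)
        + C ((|p.coeff 2| - p.coeff 2) / n) * (X * (1 - X))) := by
    refine Polynomial.funext fun x => ?_
    have s0 := congrArg (eval x) (bernsteinPolynomial.sum ℝ n)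
    have s1 := congrArg (eval x) (bernsteinPolynomial.sum_smul ℝ n)
    have s2 := congrArg (eval x) (bernsteinPolynomial.sum_mul_smul ℝ n)
    have cs : ∀ k : ℕ, ((k * (k - 1) : ℕ) : ℝ) = k * k - k := fun k => by
      cases k with
      | zero => simp
      | succ k => simp; ring
    simp only [eval_finsetSum, nsmul_eq_mul, eval_mul, eval_natCast, eval_one, eval_X, eval_pow,
      cs] at s0 s1 s2
    have : ∀ k ∈ Finset.range (n + 1), (C (p.eval (k / n : ℝ) - δ) * bernsteinPolynomial ℝ n k).eval x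
        = p.coeff 2 / n ^ 2 * (((k : ℝ) * k - k) * (bernsteinPolynomial ℝ n k).eval x)
          + (p.coeff 2 / n ^ 2 + p.coeff 1 / n) * ((k : ℝ) * (bernsteinPolynomial ℝ n k).eval x)
          + (p.coeff 0 - δ) * (bernsteinPolynomial ℝ n k).eval x := fun k _ => by
      rw [eval_mul, eval_C, ev]; field_simp; ring
    rw [eval_add, eval_finsetSum, Finset.sum_congr rfl this, Finset.sum_add_distrib,
      Finset.sum_add_distrib, ← Finset.mul_sum, ← Finset.mul_sum, ← Finset.mul_sum, s0, s1, s2, ev]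
    simp only [eval_add, eval_mul, eval_C, eval_sub, eval_one, eval_X]
    field_simp
    ring
  rw [key]
  refine add_mem (sum_mem fun k hk => mul_mem (C_mem ?_) (bern_mem n k))
    (add_mem (add_mem (C_mem (by linarith)) (mul_mem (C_mem (by positivity))
      (add_mem one_sub_mem (mul_mem X_mem X_mem))))
      (mul_mem (C_mem (div_nonneg (sub_nonneg.2 (le_abs_self _)) n0.le))
        (mul_mem X_mem one_sub_mem)))
  have hk' : (k : ℝ) ≤ n := by exact_mod_cast Nat.lt_succ_iff.1 (Finset.mem_range.1 hk)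
  have : p.eval x0 ≤ p.eval (k / n : ℝ) :=
    hmin (⟨by positivity, (div_le_one n0).2 hk'⟩ : (k / n : ℝ) ∈ Set.Icc (0 : ℝ) 1)
  linarith

lemma sign (p : ℝ[X]) (hp : ∀ x ∈ Set.Icc (0 : ℝ) 1, p.eval x ≠ 0) :
    (∀ x ∈ Set.Icc (0 : ℝ) 1, 0 < p.eval x) ∨ ∀ x ∈ Set.Icc (0 : ℝ) 1, 0 < (-p).eval x := by
  by_contra h
  push Not at h
  obtain ⟨⟨x, hx, h1⟩, y, hy, h2⟩ := h
  rw [eval_neg] at h2
  obtain ⟨z, hz, e⟩ := isPreconnected_Icc.intermediate_value hx hy p.continuous.continuousOn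
    (⟨h1, by linarith⟩ : (0 : ℝ) ∈ Set.Icc _ _)
  exact hp z hz e

lemma real (p : ℝ[X]) (hp : ∀ x ∈ Set.Icc (0 : ℝ) 1, 0 < p.eval x) : p ∈ B := by
  have : ∀ p : ℝ[X], (∀ x ∈ Set.Icc (0 : ℝ) 1, p.eval x ≠ 0) → p ∈ B ∨ -p ∈ B := by
    intro p
    have small : ∀ q : ℝ[X], q.natDegree ≤ 2 → (∀ x ∈ Set.Icc (0 : ℝ) 1, q.eval x ≠ 0) →
        q ∈ B ∨ -q ∈ B := fun q hd hq =>
      (sign q hq).imp (quad q hd) (quad (-q) (by rwa [natDegree_neg]))
    induction p using WfDvdMonoid.induction_on_irreducible with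
    | zero => exact fun _ => Or.inl (zero_mem _)
    | unit u hu => exact small u (by rw [natDegree_eq_zero_of_isUnit hu]; omega)
    | mul a i _ hi ih =>
      intro h
      simp only [eval_mul, mul_ne_zero_iff] at h
      rcases small i hi.natDegree_le_two fun x hx => (h x hx).1 with h1 | h1 <;>
        rcases ih fun x hx => (h x hx).2 with h2 | h2
      · exact Or.inl (mul_mem h1 h2)
      · exact Or.inr (by simpa using mul_mem h1 h2)
      · exact Or.inr (by simpa using mul_mem h1 h2)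
      · exact Or.inl (by simpa using mul_mem h1 h2)
  rcases this p fun x hx => (hp x hx).ne' with h | ⟨n, h, hh, e⟩
  · exact h
  · exfalso
    have h1 := e 1 one_pos
    have h2 : 0 ≤ h.eval 1 := by
      rw [eval_eq_sum_range]
      exact Finset.sum_nonneg fun k _ => by simpa using hh k
    have h3 := hp (1 / (1 + 1)) ⟨by norm_num, by norm_num⟩
    rw [eval_neg] at h1
    have : (0 : ℝ) < (1 + 1) ^ n := by positivity
    have h4 := mul_pos this h3
    rw [mul_neg] at h1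
    linarith

noncomputable def H {K : Type} [Field K] (n : ℕ) (s : K) (p : K[X]) : K[X] :=
  ∑ i ∈ Finset.range (n + 1), C (p.coeff i) * X ^ i * (1 + C s * X) ^ (n - i)

lemma H_eval {K : Type} [Field K] {n : ℕ} (s : K) {p : K[X]} (hp : p.natDegree ≤ n) {t : K}
    (ht : 1 + s * t ≠ 0) : (H n s p).eval t = (1 + s * t) ^ n * p.eval (t / (1 + s * t)) := by
  rw [H, eval_finsetSum, eval_eq_sum_range' (Nat.lt_succ_of_le hp), Finset.mul_sum]
  refine Finset.sum_congr rfl fun i hi => ?_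
  obtain ⟨j, rfl⟩ := Nat.exists_eq_add_of_le (Nat.lt_succ_iff.1 (Finset.mem_range.1 hi))
  simp only [eval_mul, eval_C, eval_pow, eval_X, eval_add, eval_one, Nat.add_sub_cancel_left,
    div_pow, pow_add]
  field_simp

lemma H_deg {K : Type} [Field K] (n : ℕ) (s : K) (p : K[X]) : (H n s p).natDegree ≤ n := by
  refine natDegree_sum_le_of_forall_le _ _ fun i hi => ?_
  have hi' := Nat.lt_succ_iff.1 (Finset.mem_range.1 hi)
  have h1 : (1 + C s * X : K[X]).natDegree ≤ 1 := by compute_degree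
  refine natDegree_mul_le.trans ?_
  have h2 := (natDegree_C_mul_X_pow_le (p.coeff i) i)
  have h3 := natDegree_pow_le_of_le (n - i) h1
  omega

/-- A rational polynomial positive on `[0,1]` is a nonnegative rational combination of the
products `X ^ i * (1 - X) ^ j`. -/
lemma rat (g : ℚ[X]) (hg : ∀ x ∈ Set.Icc (0 : ℝ) 1, 0 < aeval x g) (T : Subsemiring ℚ[X])
    (hC : ∀ c : ℚ, 0 ≤ c → C c ∈ T) (y : ℚ[X]) (h0 : y ∈ T) (h1 : 1 - y ∈ T) : g.comp y ∈ T := by
  obtain ⟨m, h, hh, e⟩ := real (g.map (algebraMap ℚ ℝ)) fun x hx => by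
    rw [eval_map_algebraMap]; exact hg x hx
  obtain ⟨n, hn⟩ : ∃ n, n = m + g.natDegree := ⟨_, rfl⟩
  have hd : g.natDegree ≤ n := by omega
  have e1 : (H n 1 g).map (algebraMap ℚ ℝ) = h * (1 + X) ^ g.natDegree := by
    have : (H n 1 g).map (algebraMap ℚ ℝ) = H n 1 (g.map (algebraMap ℚ ℝ)) := by
      simp [H, Polynomial.map_sum]
    rw [this]
    refine eq_of_infinite_eval_eq _ _ ((Set.Ioi_infinite (0 : ℝ)).mono fun t (ht : 0 < t) => ?_)
    show eval t _ = eval t _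
    rw [H_eval 1 (natDegree_map_le.trans hd) (by positivity), eval_mul, ← e t ht, hn]
    simp only [one_mul, eval_pow, eval_add, eval_one, eval_X]
    ring
  have e2 : ∀ k, 0 ≤ (H n 1 g).coeff k := fun k => by
    have := (mul_mem hh (pw g.natDegree)) k
    rw [← e1, coeff_map] at this
    exact_mod_cast (show (0 : ℝ) ≤ ((H n 1 g).coeff k : ℚ) from this)
  have e3 : g = H n (-1) (H n 1 g) := by
    refine eq_of_infinite_eval_eq _ _ ((Set.Iio_infinite (1 : ℚ)).mono fun x (hx : x < 1) => ?_)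
    show eval x _ = eval x _
    have hx' : 1 + -1 * x ≠ 0 := by linarith
    have e4 : 1 + 1 * (x / (1 + -1 * x)) = (1 + -1 * x)⁻¹ := by
      refine eq_inv_of_mul_eq_one_left ?_
      rw [add_mul, one_mul, one_mul, div_mul_cancel₀ _ hx']; ring
    rw [H_eval _ (H_deg _ _ _) hx', H_eval _ hd (by rw [e4]; exact inv_ne_zero hx'), e4,
      ← mul_assoc, ← mul_pow, mul_inv_cancel₀ hx', one_pow, one_mul]
    congr 1
    rw [div_inv_eq_mul, div_mul_cancel₀ _ hx']
  rw [e3, H, Polynomial.sum_comp]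
  refine sum_mem fun k _ => ?_
  simp only [mul_comp, C_comp, pow_comp, X_comp, add_comp, one_comp]
  refine mul_mem (mul_mem (hC _ (e2 k)) (pow_mem h0 _)) (pow_mem ?_ _)
  simpa [← sub_eq_add_neg] using h1

/-- Strictly positive polynomials on `[a,b]`. -/
lemma strict (a b : ℝ) (hab : a < b) (T : Subsemiring ℚ[X]) (hC : ∀ c : ℚ, 0 ≤ c → C c ∈ T)
    (ha : ∀ c : ℚ, (c : ℝ) < a → X - C c ∈ T) (hb : ∀ c : ℚ, b < (c : ℝ) → C c - X ∈ T)
    (g : ℚ[X]) (hg : ∀ x ∈ Set.Icc a b, 0 < aeval x g) : g ∈ T := by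
  have ho : IsOpen {x : ℝ | 0 < aeval x g} := isOpen_lt continuous_const g.continuous_aeval
  obtain ⟨ε, ε0, hε⟩ := Metric.isOpen_iff.1 ho a (hg a ⟨le_rfl, hab.le⟩)
  obtain ⟨ε', ε0', hε'⟩ := Metric.isOpen_iff.1 ho b (hg b ⟨hab.le, le_rfl⟩)
  obtain ⟨c, hc1, hc2⟩ := exists_rat_btwn (show a - ε < a by linarith)
  obtain ⟨d, hd1, hd2⟩ := exists_rat_btwn (show b < b + ε' by linarith)
  have cd' : (c : ℝ) < d := by linarith
  have cd : 0 < d - c := by exact_mod_cast sub_pos.2 cd'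
  have := rat (g.comp (C c + C (d - c) * X)) (fun x hx => by
    rw [aeval_comp]
    simp only [map_add, aeval_C, map_mul, aeval_X, eq_ratCast]
    push_cast
    have l1 : (c : ℝ) ≤ c + (d - c) * x := by nlinarith [hx.1]
    have l2 : (c : ℝ) + (d - c) * x ≤ d := by nlinarith [hx.2]
    generalize (c : ℝ) + (d - c) * x = z at l1 l2
    rcases lt_or_ge z a with h | h
    · exact hε (by rw [Metric.mem_ball, Real.dist_eq, abs_lt]; constructor <;> linarith)
    rcases le_or_gt z b with h' | h'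
    · exact hg z ⟨h, h'⟩
    · exact hε' (by rw [Metric.mem_ball, Real.dist_eq, abs_lt]; constructor <;> linarith))
    T hC (C (d - c)⁻¹ * (X - C c)) (mul_mem (hC _ (by positivity)) (ha c hc2)) (by
      have : 1 - C (d - c)⁻¹ * (X - C c) = C (d - c)⁻¹ * (C d - X) := by
        have : (1 : ℚ[X]) = C (d - c)⁻¹ * (C d - C c) := by
          rw [← C_sub, ← C_mul, inv_mul_cancel₀ cd.ne', C_1]
        rw [this]; ring
      rw [this]
      exact mul_mem (hC _ (by positivity)) (hb d hd1))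
  have e : (C c + C (d - c) * X : ℚ[X]).comp (C (d - c)⁻¹ * (X - C c)) = X := by
    simp only [add_comp, C_comp, mul_comp, X_comp]
    rw [← mul_assoc, ← C_mul, mul_inv_cancel₀ cd.ne', C_1]; ring
  rwa [comp_assoc, e, comp_X] at this

lemma closed {a b : ℝ} (hab : a < b) (h p : ℚ[X]) (hp : p ≠ 0)
    (hh : ∀ x ∈ Set.Ioo a b, aeval x p ≠ 0 → 0 ≤ aeval x h) :
    ∀ x ∈ Set.Icc a b, 0 ≤ aeval x h := by
  have hc : IsClosed {x : ℝ | 0 ≤ aeval x h} := isClosed_le continuous_const h.continuous_aeval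
  have hf : ({x : ℝ | aeval x p = 0}).Finite := by
    refine (p.rootSet_finite ℝ).subset fun x hx => ?_
    exact mem_rootSet.2 ⟨hp, hx⟩
  have hd : Dense ({x : ℝ | aeval x p = 0}ᶜ) := by
    simpa [Set.sdiff_eq] using dense_univ.sdiff_finite hf
  have h1 : Set.Ioo a b ⊆ {x : ℝ | 0 ≤ aeval x h} :=
    (hd.open_subset_closure_inter isOpen_Ioo).trans
      (hc.closure_subset_iff.2 fun x hx => hh x hx.1 hx.2)
  have h2 := hc.closure_subset_iff.2 h1
  rwa [closure_Ioo hab.ne] at h2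

lemma irr_dvd {s f : ℚ[X]} (hs : Irreducible s) {r : ℝ} (h1 : aeval r s = 0)
    (h2 : aeval r f = 0) : s ∣ f := by
  refine (dvd_or_isCoprime s f hs).resolve_right ?_
  rintro ⟨u, v, e⟩
  have := congrArg (aeval r) e
  simp [h1, h2] at this

/-- Nonnegative polynomials on `[a,b]`. -/
lemma main (a b : ℝ) (hab : a < b) (T : Subsemiring ℚ[X]) (hC : ∀ c : ℚ, 0 ≤ c → C c ∈ T)
    (hsq : ∀ p : ℚ[X], p ^ 2 ∈ T)
    (ha : ∀ c : ℚ, (c : ℝ) < a → X - C c ∈ T) (hb : ∀ c : ℚ, b < (c : ℝ) → C c - X ∈ T)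
    (hs : ∀ r, r = a ∨ r = b → ∃ s ∈ T, Irreducible s ∧ aeval r s = 0 ∧
      ∀ x ∈ Set.Ioo a b, 0 < aeval x s)
    (f : ℚ[X]) (hf : ∀ x ∈ Set.Icc a b, 0 ≤ aeval x f) : f ∈ T := by
  induction' hn : f.natDegree using Nat.strong_induction_on with n ih generalizing f
  by_cases f0 : f = 0
  · rw [f0]; exact zero_mem _
  by_cases hr : ∀ x ∈ Set.Icc a b, aeval x f ≠ 0
  · exact strict a b hab T hC ha hb f fun x hx => (hf x hx).lt_of_ne' (hr x hx)
  push Not at hr
  obtain ⟨r, hr, fr⟩ := hr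
  have step : ∀ s h : ℚ[X], f = s * h → s ∈ T → 0 < s.natDegree →
      (∀ x ∈ Set.Ioo a b, 0 ≤ aeval x s) → f ∈ T := by
    intro s h e hT hd hpos
    have s0 : s ≠ 0 := by rintro rfl; simp at hd
    have h0 : h ≠ 0 := by rintro rfl; simp [f0] at e
    rw [e]
    refine mul_mem hT (ih h.natDegree ?_ h (closed hab h s s0 fun x hx hne => ?_) rfl)
    · rw [← hn, e, natDegree_mul s0 h0]; omega
    · have := hf x (Set.Ioo_subset_Icc_self hx)
      rw [e, map_mul] at this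
      exact nonneg_of_mul_nonneg_right this ((hpos x hx).lt_of_ne' hne)
  by_cases hend : r = a ∨ r = b
  · obtain ⟨s, hT, hi, hz, hpos⟩ := hs r hend
    obtain ⟨h, e⟩ := irr_dvd hi hz fr
    exact step s h e hT hi.natDegree_pos fun x hx => (hpos x hx).le
  push Not at hend
  have hri : r ∈ Set.Ioo a b := ⟨hr.1.lt_of_ne' hend.1, hr.2.lt_of_ne hend.2⟩
  have hint : IsIntegral ℚ r := (IsAlgebraic.isIntegral ⟨f, f0, fr⟩)
  have hi := minpoly.irreducible hint
  have hz := minpoly.aeval ℚ r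
  obtain ⟨h, e⟩ := irr_dvd hi hz fr
  have hmin : IsLocalMin (fun x : ℝ => aeval x f) r := by
    filter_upwards [Icc_mem_nhds hri.1 hri.2] with x hx
    rw [fr]; exact hf x hx
  have hder := hmin.hasDerivAt_eq_zero (f.hasDerivAt_aeval r)
  rw [e, derivative_mul, map_add, map_mul, map_mul, hz, zero_mul, add_zero] at hder
  have hne := hi.separable.aeval_derivative_ne_zero hz
  obtain ⟨k, e'⟩ := irr_dvd hi hz ((mul_eq_zero.1 hder).resolve_left hne)
  refine step (minpoly ℚ r ^ 2) k (by rw [pow_two, mul_assoc, ← e', ← e]) (hsq _) ?_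
    fun x _ => by rw [map_pow]; positivity
  rw [natDegree_pow]
  have := hi.natDegree_pos
  omega

/-- Archimedean division. -/
lemma divide (T : Subsemiring ℚ[X]) (hC : ∀ c : ℚ, 0 ≤ c → C c ∈ T) (g u : ℚ[X]) (δ : ℚ)
    (d0 : 0 < δ) (h0 : u ∈ T) (h1 : 1 - u ∈ T) (h2 : g * u - C δ ∈ T) (c : ℚ)
    (h3 : g + C c ∈ T) : g ∈ T := by
  have : ∀ n : ℕ, ∀ c : ℚ, c ≤ n * δ → g + C c ∈ T → g ∈ T := by
    have neg : ∀ c : ℚ, c ≤ 0 → g + C c ∈ T → g ∈ T := fun c hc h => by
      simpa using add_mem h (hC (-c) (by linarith))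
    intro n
    induction n with
    | zero => exact fun c hc => neg c (by simpa using hc)
    | succ n ih =>
      intro c hc h
      rcases le_or_gt c 0 with c0 | c0
      · exact neg c c0 h
      refine ih (c - δ) (by push_cast at hc; linarith) ?_
      have := add_mem (add_mem (mul_mem h h1) h2) (mul_mem (hC c c0.le) h0)
      rwa [show (g + C c) * (1 - u) + (g * u - C δ) + C c * u = g + C (c - δ) by
        rw [C_sub]; ring] at this
  obtain ⟨n, hn⟩ := exists_nat_ge (c / δ)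
  exact this n c ((div_le_iff₀ d0).1 hn) h3

end Pool.Agent.Lib.helper1.Polya
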