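import Mathlib

set_option autoImplicit false

namespace Pool.Agent.Lib.Helper1.SidCore

open Finset

lemma jensen_log {ι : Type*} (s : Finset ι) (hs : s.Nonempty) (h : ι → ℝ)
    (hp : ∀ y ∈ s, 0 < h y) (M : ℝ) (hM : 0 < M) (hsum : ∑ y ∈ s, h y ≤ s.card * M) :
    (∑ y ∈ s, Real.log (h y)) / s.card ≤ Real.log M := by
  have hc : (0 : ℝ) < s.card := by exact_mod_cast hs.card_pos
  rw [div_le_iff₀ hc]
  have h1 : ∀ y ∈ s, Real.log (h y) ≤ h y / M + (Real.log M - 1) := by
    intro y hy
    have := Real.log_le_sub_one_of_pos (div_pos (hp y hy) hM)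
    rw [Real.log_div (hp y hy).ne' hM.ne'] at this
    linarith
  have h2 := sum_le_sum h1
  rw [sum_add_distrib, ← sum_div, sum_const, nsmul_eq_mul] at h2
  have h3 : (∑ y ∈ s, h y) / M ≤ s.card := by rw [div_le_iff₀ hM]; exact hsum
  nlinarith

lemma sum_update {I X : Type*} [Fintype I] [DecidableEq I] [Fintype X] (w : I)
    (g : (I → X) → ℝ) :
    ∑ φ : I → X, ∑ y : X, g (Function.update φ w y) = Fintype.card X * ∑ φ, g φ := by
  have hinv : Function.Involutive
      (fun p : (I → X) × X => (Function.update p.1 w p.2, p.1 w)) := by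
    rintro ⟨φ, y⟩
    simp
  rw [← Fintype.sum_prod_type']
  rw [Fintype.sum_equiv hinv.toPerm (fun p => g (Function.update p.1 w p.2)) (fun p => g p.1)
    (fun p => rfl)]
  rw [Fintype.sum_prod_type]
  simp [mul_sum]

section core
variable {r : ℕ} {X V E : Type*} [Fintype X] [Fintype V] [DecidableEq V] [Fintype E]
  [DecidableEq X]

def Dep (U : Finset V) (h : (Fin r → X) × (V → X) → ℝ) : Prop :=
  ∀ a φ φ', (∀ u ∈ U, φ u = φ' u) → h (a, φ) = h (a, φ')

def Good (G : (Fin r → X) → Prop) (ε : E → Fin r → V) (S : Finset V)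
    (ω : (Fin r → X) × (V → X)) : Prop :=
  G ω.1 ∧ ∀ e i, ε e i ∈ S → G (fun i' => if i' ≤ i then ω.2 (ε e i') else ω.1 i')

def Inv (G : (Fin r → X) → Prop) (ε : E → Fin r → V) (c : V → Fin r) (k : ℕ → ℝ) (L : ℝ)
    (S : Finset V) (Ex : ((Fin r → X) × (V → X) → ℝ) → ℝ) : Prop :=
  (∀ ψ₁ ψ₂, (∀ ω, Good G ε S ω → ψ₁ ω ≤ ψ₂ ω) → Ex ψ₁ ≤ Ex ψ₂) ∧
  (∀ ψ₁ ψ₂, Ex (fun ω => ψ₁ ω + ψ₂ ω) = Ex ψ₁ + Ex ψ₂) ∧
  (∀ b, Ex (fun _ => b) = b) ∧
  (∀ (U : Finset V) (h : (Fin r → X) × (V → X) → ℝ), Dep U h → (∀ ω, 0 ≤ h ω) →
    (∀ ω, Good G ε S ω → 0 < h ω) →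
    ∑ ω, h ω ≤ Fintype.card ((Fin r → X) × (V → X)) →
    Ex (fun ω => Real.log (h ω)) ≤ (1 + ∑ u ∈ U ∩ S, k (c u)) * L)

omit [Fintype E] [DecidableEq X] in
lemma base (G : (Fin r → X) → Prop) [DecidablePred G] (ε : E → Fin r → V) (c : V → Fin r)
    (k : ℕ → ℝ) (a₀ : Fin r → X) (ha₀ : G a₀) :
    ∃ Ex, Inv G ε c k
      (Real.log ((Fintype.card (Fin r → X) : ℝ) / (univ.filter G).card)) ∅ Ex := by
  let A : Finset ((Fin r → X) × (V → X)) := (univ.filter G) ×ˢ univ
  have hA : ∀ ω, ω ∈ A ↔ Good G ε ∅ ω := by
    intro ω; simp [A, Good]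
  have hne : A.Nonempty := ⟨(a₀, fun v => a₀ (c v)), by simp [A, ha₀]⟩
  have hc : (0 : ℝ) < A.card := by exact_mod_cast hne.card_pos
  have hG : (0 : ℝ) < (univ.filter G).card := by
    have : (univ.filter G).Nonempty := ⟨a₀, by simp [ha₀]⟩
    exact_mod_cast this.card_pos
  have hX : (0 : ℝ) < Fintype.card (Fin r → X) := by
    have : 0 < Fintype.card (Fin r → X) := Fintype.card_pos_iff.2 ⟨a₀⟩
    exact_mod_cast this
  refine ⟨fun ψ => (∑ ω ∈ A, ψ ω) / A.card, ?_, ?_, ?_, ?_⟩
  · intro ψ₁ ψ₂ h
    exact div_le_div_of_nonneg_right (sum_le_sum fun ω hω => h ω ((hA ω).1 hω)) hc.le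
  · intro ψ₁ ψ₂
    simp only [sum_add_distrib, add_div]
  · intro b
    simp only [sum_const, nsmul_eq_mul]
    field_simp
  · intro U h _ h0 hpos hsum
    simp only [inter_empty, sum_empty, add_zero, one_mul]
    refine jensen_log A hne h (fun ω hω => hpos ω ((hA ω).1 hω)) _ (div_pos hX hG) ?_
    have h1 : ∑ ω ∈ A, h ω ≤ ∑ ω, h ω :=
      sum_le_sum_of_subset_of_nonneg (subset_univ _) fun ω _ _ => h0 ω
    refine h1.trans (hsum.trans (le_of_eq ?_))
    rw [Fintype.card_prod]
    simp only [A, card_product, card_univ]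
    push_cast
    field_simp

lemma step (G : (Fin r → X) → Prop) [DecidablePred G] (ε : E → Fin r → V) (c : V → Fin r)
    (hε : ∀ e i, c (ε e i) = i) (k : ℕ → ℝ) (L : ℝ) (hL : 0 ≤ L)
    (S : Finset V) (w : V) (hw : w ∉ S) (hmax : ∀ x ∈ S, c x ≤ c w)
    (hlow : ∀ u, c u < c w → u ∈ S)
    (Uw : Finset V) (hUw : ∀ e i, ε e (c w) = w → i < c w → ε e i ∈ Uw)
    (hk : 1 + ∑ u ∈ Uw ∩ S, k (c u) ≤ k (c w))
    (Ex : ((Fin r → X) × (V → X) → ℝ) → ℝ) (hI : Inv G ε c k L S Ex) :
    ∃ Ex', Inv G ε c k L (insert w S) Ex' := by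
  classical
  obtain ⟨mono, add, const, main⟩ := hI
  let N : (Fin r → X) × (V → X) → Finset X := fun ω =>
    univ.filter (fun y => ∀ e, ε e (c w) = w →
      G (fun i => if i < c w then ω.2 (ε e i) else if i = c w then y else ω.1 i))
  have N1 : ∀ ω, Good G ε S ω → ω.1 (c w) ∈ N ω := by
    rintro ⟨a, φ⟩ ⟨hg0, hg⟩
    simp only [N, mem_filter, mem_univ, true_and]
    intro e _
    by_cases h0 : (c w).val = 0
    · convert hg0 using 1
      funext i
      have : ¬ i < c w := by rw [Fin.lt_def]; omega
      rw [if_neg this]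
      split_ifs with h
      · rw [h]
      · rfl
    · have hlt : (c w).val - 1 < r := by have := (c w).isLt; omega
      have := hg e ⟨(c w).val - 1, hlt⟩ (hlow _ (by rw [hε, Fin.lt_def]; simp; omega))
      convert this using 1
      funext i
      by_cases h1 : i < c w
      · have h2 : i ≤ ⟨(c w).val - 1, hlt⟩ := by
          rw [Fin.lt_def] at h1; rw [Fin.le_def]; simp; omega
        rw [if_pos h1, if_pos h2]
      · have h2 : ¬ i ≤ ⟨(c w).val - 1, hlt⟩ := by
          rw [Fin.lt_def] at h1; rw [Fin.le_def]; simp; omega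
        rw [if_neg h1, if_neg h2]
        split_ifs with h
        · rw [h]
        · rfl
  have N2 : ∀ ω, Good G ε S ω → ∀ y ∈ N ω,
      Good G ε (insert w S) (ω.1, Function.update ω.2 w y) := by
    rintro ⟨a, φ⟩ ⟨hg0, hg⟩ y hy
    simp only [N, mem_filter, mem_univ, true_and] at hy
    refine ⟨hg0, fun e i hi => ?_⟩
    by_cases hiw : ε e i = w
    · have hic : i = c w := by rw [← hiw, hε]
      subst hic
      convert hy e hiw using 1
      funext i'
      dsimp only
      rcases lt_trichotomy i' (c w) with h | h | h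
      · rw [if_pos h.le, if_pos h, Function.update_of_ne]
        intro h'
        have : c (ε e i') = c w := by rw [h']
        rw [hε] at this
        exact h.ne this
      · subst h
        rw [if_pos le_rfl, if_neg (lt_irrefl _), if_pos rfl, hiw, Function.update_self]
      · rw [if_neg (not_le.2 h), if_neg (not_lt.2 h.le), if_neg h.ne']
    · have hiS : ε e i ∈ S := by
        rcases mem_insert.1 hi with h | h
        · exact absurd h hiw
        · exact h
      convert hg e i hiS using 1
      funext i'
      dsimp only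
      split_ifs with h
      · rw [Function.update_of_ne]
        intro h'
        have h1 : c (ε e i') = c w := by rw [h']
        rw [hε] at h1
        have h2 := hmax _ hiS
        rw [hε] at h2
        have h3 : i' = i := le_antisymm h (h1 ▸ h2)
        exact hiw (h3 ▸ h')
      · rfl
  have Ncard : ∀ ω, Good G ε S ω → (0 : ℝ) < (N ω).card := fun ω hω => by
    exact_mod_cast card_pos.2 ⟨_, N1 ω hω⟩
  refine ⟨fun ψ => Ex (fun ω => (∑ y ∈ N ω, ψ (ω.1, Function.update ω.2 w y)) / (N ω).card),
    ?_, ?_, ?_, ?_⟩
  · intro ψ₁ ψ₂ h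
    refine mono _ _ fun ω hω => ?_
    exact div_le_div_of_nonneg_right (sum_le_sum fun y hy => h _ (N2 ω hω y hy)) (Ncard ω hω).le
  · intro ψ₁ ψ₂
    simp only [sum_add_distrib, add_div]
    exact add _ _
  · intro b
    have hb : ∀ ω, Good G ε S ω → (∑ _y ∈ N ω, b) / (N ω).card = b := by
      intro ω hω
      have := Ncard ω hω
      simp only [sum_const, nsmul_eq_mul]
      field_simp
    refine le_antisymm ?_ ?_
    · exact (mono _ _ fun ω hω => (hb ω hω).le).trans (const b).le
    · exact (const b).ge.trans (mono _ _ fun ω hω => (hb ω hω).ge)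
  · intro U h hdep h0 hpos hsum
    by_cases hwU : w ∈ U
    · have hXpos : ∀ ω : (Fin r → X) × (V → X), (0 : ℝ) < Fintype.card X := fun ω => by
        have : 0 < Fintype.card X := Fintype.card_pos_iff.2 ⟨ω.2 w⟩
        exact_mod_cast this
      let h' : (Fin r → X) × (V → X) → ℝ := fun ω =>
        (∑ y, h (ω.1, Function.update ω.2 w y)) / Fintype.card X
      let h'' : (Fin r → X) × (V → X) → ℝ := fun ω =>
        if ω.1 (c w) ∈ N ω then (Fintype.card X : ℝ) / (N ω).card else 0
      have h'0 : ∀ ω, 0 ≤ h' ω := fun ω =>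
        div_nonneg (sum_nonneg fun y _ => h0 _) (Nat.cast_nonneg _)
      have h''0 : ∀ ω, 0 ≤ h'' ω := fun ω => by
        simp only [h'']; split_ifs
        · positivity
        · exact le_rfl
      have h'pos : ∀ ω, Good G ε S ω → 0 < h' ω := fun ω hω =>
        div_pos (sum_pos' (fun y _ => h0 _) ⟨_, mem_univ _, hpos _ (N2 ω hω _ (N1 ω hω))⟩)
          (hXpos ω)
      have h''eq : ∀ ω, Good G ε S ω → h'' ω = (Fintype.card X : ℝ) / (N ω).card :=
        fun ω hω => by simp only [h'']; rw [if_pos (N1 ω hω)]
      have h''pos : ∀ ω, Good G ε S ω → 0 < h'' ω := fun ω hω => by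
        rw [h''eq ω hω]; exact div_pos (hXpos ω) (Ncard ω hω)
      have dep' : Dep (U.erase w) h' := by
        intro a φ φ' hφ
        simp only [h']
        congr 1
        refine sum_congr rfl fun y _ => hdep _ _ _ fun u hu => ?_
        by_cases huw : u = w
        · subst huw; simp
        · rw [Function.update_of_ne huw, Function.update_of_ne huw]
          exact hφ u (mem_erase.2 ⟨huw, hu⟩)
      have dep'' : Dep Uw h'' := by
        intro a φ φ' hφ
        have : N (a, φ) = N (a, φ') := by
          simp only [N]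
          refine filter_congr fun y _ => forall_congr' fun e => forall_congr' fun he => ?_
          have : (fun i => if i < c w then φ (ε e i) else if i = c w then y else a i) =
              (fun i => if i < c w then φ' (ε e i) else if i = c w then y else a i) := by
            funext i
            split_ifs with h1
            · exact hφ _ (hUw e i he h1)
            · rfl
            · rfl
          rw [this]
        simp only [h'', this]
      have sum' : ∑ ω, h' ω ≤ Fintype.card ((Fin r → X) × (V → X)) := by
        refine le_trans (le_of_eq ?_) hsum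
        rw [Fintype.sum_prod_type, Fintype.sum_prod_type]
        refine sum_congr rfl fun a _ => ?_
        simp only [h']
        rw [← sum_div, sum_update w (fun φ => h (a, φ))]
        have : (0 : ℝ) < Fintype.card X := hXpos (a, fun v => a (c v))
        field_simp
      have sum'' : ∑ ω, h'' ω ≤ Fintype.card ((Fin r → X) × (V → X)) := by
        rw [Fintype.sum_prod_type_right, Fintype.card_prod]
        have hφ : ∀ φ : V → X, ∑ a, h'' (a, φ) ≤ Fintype.card (Fin r → X) := by
          intro φ
          have hXp : (0 : ℝ) < Fintype.card X := by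
            have : 0 < Fintype.card X := Fintype.card_pos_iff.2 ⟨φ w⟩
            exact_mod_cast this
          have e1 := sum_update (c w) (fun a => h'' (a, φ))
          have e2 : ∀ a : Fin r → X,
              ∑ y, h'' (Function.update a (c w) y, φ) ≤ Fintype.card X := by
            intro a
            have hN : ∀ y, N (Function.update a (c w) y, φ) = N (a, φ) := by
              intro y
              simp only [N]
              refine filter_congr fun y' _ => forall_congr' fun e => forall_congr' fun he => ?_
              have : (fun i => if i < c w then φ (ε e i) else if i = c w then y' else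
                  Function.update a (c w) y i) =
                  (fun i => if i < c w then φ (ε e i) else if i = c w then y' else a i) := by
                funext i
                split_ifs with h1 h2
                · rfl
                · rfl
                · exact Function.update_of_ne h2 _ _
              rw [this]
            simp only [h'', hN, Function.update_self]
            rw [← sum_filter, filter_mem_eq_inter, univ_inter, sum_const, nsmul_eq_mul]
            rcases (N (a, φ)).eq_empty_or_nonempty with hE | hE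
            · rw [hE]; simp
            · have : (0 : ℝ) < (N (a, φ)).card := by exact_mod_cast hE.card_pos
              apply le_of_eq
              field_simp
          have e3 := sum_le_sum (s := univ) fun a _ => e2 a
          rw [e1, sum_const, nsmul_eq_mul, card_univ, mul_comm] at e3
          exact le_of_mul_le_mul_right e3 hXp
        have := sum_le_sum (s := univ) fun φ _ => hφ φ
        rw [sum_const, nsmul_eq_mul, card_univ] at this
        push_cast
        linarith [mul_comm (Fintype.card (Fin r → X) : ℝ) (Fintype.card (V → X) : ℝ)]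
      have m1 := main _ h' dep' h'0 h'pos sum'
      have m2 := main _ h'' dep'' h''0 h''pos sum''
      have m3 : Ex (fun ω => (∑ y ∈ N ω, Real.log (h (ω.1, Function.update ω.2 w y))) /
          (N ω).card) ≤ Ex (fun ω => Real.log (h' ω) + Real.log (h'' ω)) := by
        refine mono _ _ fun ω hω => ?_
        rw [← Real.log_mul (h'pos ω hω).ne' (h''pos ω hω).ne']
        refine jensen_log (N ω) ⟨_, N1 ω hω⟩ _ (fun y hy => hpos _ (N2 ω hω y hy)) _
          (mul_pos (h'pos ω hω) (h''pos ω hω)) ?_
        have e1 : ∑ y ∈ N ω, h (ω.1, Function.update ω.2 w y) ≤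
            ∑ y, h (ω.1, Function.update ω.2 w y) :=
          sum_le_sum_of_subset_of_nonneg (subset_univ _) fun y _ _ => h0 _
        refine e1.trans (le_of_eq ?_)
        rw [h''eq ω hω]
        simp only [h']
        have := Ncard ω hω
        have := hXpos ω
        field_simp
      rw [add] at m3
      have e1 : U ∩ insert w S = insert w (U.erase w ∩ S) := by
        ext u
        simp only [mem_inter, mem_insert, mem_erase]
        constructor
        · rintro ⟨h1, h2 | h2⟩
          · exact Or.inl h2
          · exact Or.inr ⟨⟨fun h3 => hw (h3 ▸ h2), h1⟩, h2⟩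
        · rintro (h1 | ⟨⟨_, h1⟩, h2⟩)
          · exact ⟨h1 ▸ hwU, Or.inl h1⟩
          · exact ⟨h1, Or.inr h2⟩
      rw [e1, sum_insert (by simp)]
      have m4 := mul_le_mul_of_nonneg_right hk hL
      nlinarith
    · have hh : ∀ ω y, h (ω.1, Function.update ω.2 w y) = h ω := by
        rintro ⟨a, φ⟩ y
        refine hdep _ _ _ fun u hu => ?_
        rw [Function.update_of_ne]
        rintro rfl
        exact hwU hu
      have e1 : U ∩ insert w S = U ∩ S := by
        ext u
        simp only [mem_inter, mem_insert]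
        constructor
        · rintro ⟨h1, h2 | h2⟩
          · exact absurd (h2 ▸ h1) hwU
          · exact ⟨h1, h2⟩
        · rintro ⟨h1, h2⟩
          exact ⟨h1, Or.inr h2⟩
      rw [e1]
      refine le_trans (mono _ (fun ω => Real.log (h ω)) fun ω hω => ?_) (main U h hdep h0 ?_ hsum)
      · simp only [hh, sum_const, nsmul_eq_mul]
        have := Ncard ω hω
        apply le_of_eq
        field_simp
      · intro ω hω
        rw [← hh ω (ω.1 (c w))]
        exact hpos _ (N2 ω hω _ (N1 ω hω))

theorem core (hr : 0 < r) (G : (Fin r → X) → Prop) [DecidablePred G] (ε : E → Fin r → V)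
    (c : V → Fin r) (hε : ∀ e i, c (ε e i) = i) (Δ : ℕ)
    (hΔ : ∀ v, (univ.filter (fun e => ε e (c v) = v)).card ≤ Δ)
    (a₀ : Fin r → X) (ha₀ : G a₀) :
    (((univ.filter G).card : ℝ) / Fintype.card (Fin r → X)) ^
        (1 + r * (r * Δ + 1) ^ r * Fintype.card E) ≤
      ((univ.filter (fun φ : V → X => ∀ e, G (fun i => φ (ε e i)))).card : ℝ) /
        Fintype.card (V → X) := by
  classical
  have hG : (0 : ℝ) < (univ.filter G).card := by
    have : (univ.filter G).Nonempty := ⟨a₀, by simp [ha₀]⟩
    exact_mod_cast this.card_pos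
  have hX : (0 : ℝ) < Fintype.card (Fin r → X) := by
    have : 0 < Fintype.card (Fin r → X) := Fintype.card_pos_iff.2 ⟨a₀⟩
    exact_mod_cast this
  have hV : (0 : ℝ) < Fintype.card (V → X) := by
    have : 0 < Fintype.card (V → X) := Fintype.card_pos_iff.2 ⟨fun v => a₀ (c v)⟩
    exact_mod_cast this
  set L := Real.log ((Fintype.card (Fin r → X) : ℝ) / (univ.filter G).card) with hLdef
  have hL : 0 ≤ L := by
    apply Real.log_nonneg
    rw [le_div_iff₀ hG, one_mul]
    exact_mod_cast card_le_univ _
  let k : ℕ → ℝ := fun j => ((r * Δ + 1 : ℕ) : ℝ) ^ j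
  have hb : (1 : ℝ) ≤ ((r * Δ + 1 : ℕ) : ℝ) := by exact_mod_cast Nat.le_add_left 1 _
  have all : ∀ S : Finset V, (∀ v ∈ S, ∀ u, c u < c v → u ∈ S) → ∃ Ex, Inv G ε c k L S Ex := by
    intro S
    induction S using Finset.induction_on_max_value c with
    | empty => intro _; exact base G ε c k a₀ ha₀
    | insert w S hw hmax ih =>
      intro hcl
      have hlow : ∀ u, c u < c w → u ∈ S := by
        intro u hu
        rcases mem_insert.1 (hcl w (mem_insert_self _ _) u hu) with h | h
        · rw [h] at hu; exact absurd hu (lt_irrefl _)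
        · exact h
      obtain ⟨Ex, hI⟩ := ih fun v hv u hu => hlow u (lt_of_lt_of_le hu (hmax v hv))
      let Uw : Finset V := ((univ.filter (fun e => ε e (c w) = w)) ×ˢ
        (univ.filter (fun i : Fin r => i < c w))).image (fun p => ε p.1 p.2)
      refine step G ε c hε k L hL S w hw hmax hlow Uw ?_ ?_ Ex hI
      · intro e i he hi
        exact mem_image.2 ⟨(e, i), by simp [he, hi], rfl⟩
      · have hUc : ∀ u ∈ Uw, c u < c w := by
          intro u hu
          obtain ⟨p, hp, rfl⟩ := mem_image.1 hu
          rw [hε]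
          simp at hp
          exact hp.2
        have hcard : (Uw ∩ S).card ≤ r * Δ := by
          calc (Uw ∩ S).card ≤ Uw.card := card_le_card inter_subset_left
            _ ≤ _ := card_image_le
            _ = _ := card_product _ _
            _ ≤ Δ * r := Nat.mul_le_mul (hΔ w) (by simpa using card_le_univ (univ.filter (fun i : Fin r => i < c w)))
            _ = r * Δ := mul_comm _ _
        by_cases h0 : (c w).val = 0
        · have : Uw ∩ S = ∅ := by
            rw [eq_empty_iff_forall_notMem]
            intro u hu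
            have := hUc u (mem_inter.1 hu).1
            rw [Fin.lt_def] at this
            omega
          rw [this]; simp [k, h0]
        · obtain ⟨j, hj⟩ : ∃ j, (c w).val = j + 1 := ⟨(c w).val - 1, by omega⟩
          have h1 : ∑ u ∈ Uw ∩ S, k (c u) ≤ (Uw ∩ S).card • k j := by
            refine sum_le_card_nsmul _ _ _ fun u hu => ?_
            have := hUc u (mem_inter.1 hu).1
            rw [Fin.lt_def] at this
            exact pow_le_pow_right₀ hb (by omega)
          have h2 : (1 : ℝ) ≤ k j := one_le_pow₀ hb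
          have h3 : ((Uw ∩ S).card : ℝ) ≤ (r * Δ : ℕ) := by exact_mod_cast hcard
          rw [nsmul_eq_mul] at h1
          have h4 : k (c w) = k j * ((r * Δ : ℕ) + 1) := by
            simp only [k, hj, pow_succ]; push_cast; ring
          rw [h4]
          nlinarith
  obtain ⟨Ex, mono, _, const, main⟩ := all univ (fun _ _ _ _ => mem_univ _)
  set A := univ.filter (fun φ : V → X => ∀ e, G (fun i => φ (ε e i))) with hA
  have hApos : (0 : ℝ) < A.card := by
    have : A.Nonempty := ⟨fun v => a₀ (c v), by simp [hA, hε, ha₀]⟩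
    exact_mod_cast this.card_pos
  let h : (Fin r → X) × (V → X) → ℝ := fun ω =>
    if ω.2 ∈ A then (Fintype.card (V → X) : ℝ) / A.card else 0
  let U : Finset V := (univ : Finset (E × Fin r)).image (fun p => ε p.1 p.2)
  have hgood : ∀ ω, Good G ε univ ω → ω.2 ∈ A := by
    rintro ⟨a, φ⟩ ⟨_, hg⟩
    simp only [hA, mem_filter, mem_univ, true_and]
    intro e
    have := hg e ⟨r - 1, by omega⟩ (mem_univ _)
    convert this using 1
    funext i
    rw [if_pos]
    rw [Fin.le_def]
    have := i.isLt
    simp; omega
  have m := main U h ?_ ?_ ?_ ?_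
  rotate_left
  · intro a φ φ' hφ
    have : φ ∈ A ↔ φ' ∈ A := by
      simp only [hA, mem_filter, mem_univ, true_and]
      refine forall_congr' fun e => ?_
      have : (fun i => φ (ε e i)) = fun i => φ' (ε e i) :=
        funext fun i => hφ _ (mem_image.2 ⟨(e, i), mem_univ _, rfl⟩)
      rw [this]
    simp only [h, this]
  · intro ω
    simp only [h]; split_ifs
    · positivity
    · exact le_rfl
  · intro ω hω
    simp only [h]; rw [if_pos (hgood ω hω)]; positivity
  · rw [Fintype.sum_prod_type, Fintype.card_prod]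
    have e1 : ∀ a, ∑ φ, h (a, φ) = Fintype.card (V → X) := by
      intro a
      simp only [h]
      rw [← sum_filter, filter_mem_eq_inter, univ_inter, sum_const, nsmul_eq_mul]
      field_simp
    rw [sum_congr rfl fun a _ => e1 a, sum_const, nsmul_eq_mul, card_univ, Nat.cast_mul]
  have m2 : Real.log ((Fintype.card (V → X) : ℝ) / A.card) ≤ Ex (fun ω => Real.log (h ω)) := by
    refine (const _).ge.trans (mono _ _ fun ω hω => ?_)
    simp only [h]; rw [if_pos (hgood ω hω)]
  have m3 : ∑ u ∈ U ∩ univ, k (c u) ≤ (r * (r * Δ + 1) ^ r * Fintype.card E : ℕ) := by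
    have h1 : ∑ u ∈ U ∩ univ, k (c u) ≤ (U ∩ univ).card • k r :=
      sum_le_card_nsmul _ _ _ fun u _ => pow_le_pow_right₀ hb (c u).isLt.le
    have h2 : (U ∩ univ).card ≤ Fintype.card E * r := by
      rw [inter_univ]
      refine card_image_le.trans (le_of_eq ?_)
      simp
    have h3 : ((U ∩ univ).card : ℝ) ≤ (Fintype.card E * r : ℕ) := by exact_mod_cast h2
    rw [nsmul_eq_mul] at h1
    refine h1.trans ((mul_le_mul_of_nonneg_right h3 (by positivity)).trans (le_of_eq ?_))
    simp only [k]; push_cast; ring
  have m4 : Real.log ((Fintype.card (V → X) : ℝ) / A.card) ≤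
      ((1 + r * (r * Δ + 1) ^ r * Fintype.card E : ℕ) : ℝ) * L := by
    refine m2.trans (m.trans (mul_le_mul_of_nonneg_right ?_ hL))
    rw [Nat.cast_add, Nat.cast_one]
    linarith
  rw [hLdef, ← Real.log_pow, Real.log_le_log_iff (by positivity) (by positivity)] at m4
  rw [← inv_le_inv₀ (by positivity) (by positivity), inv_div, ← inv_pow, inv_div]
  exact m4

end core

end Pool.Agent.Lib.Helper1.SidCore
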