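import Mathlib

set_option autoImplicit false

namespace Pool.Agent.Lib.Helper1.Sid

open Finset

/-- Homomorphism density `t_F(H) = hom(F,H) / v(H)^v(F)` of hypergraphs given by their edge sets:
a homomorphism is a vertex map sending every edge of `F` onto an edge of `H`. -/
noncomputable def homDensity {V W : Type} [Fintype V] [DecidableEq V] [Fintype W] [DecidableEq W]
    (F : Finset (Finset V)) (H : Finset (Finset W)) : ℝ :=
  ((univ.filter (fun φ : V → W => ∀ e ∈ F, e.image φ ∈ H)).card : ℝ) /
    (Fintype.card W : ℝ) ^ Fintype.card V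

/-- The Sidorenko exponent `s(F)`: the supremum (in the extended reals) of all real `s ≥ 0` such
that some `r`-graph `H` has `t_F(H) = t_K(H)^s > 0`, where `K` is the single edge on `r` vertices. -/
noncomputable def sidorenkoExponent (r : ℕ) {V : Type} [Fintype V] [DecidableEq V]
    (F : Finset (Finset V)) : EReal :=
  sSup {x : EReal | ∃ s : ℝ, x = (s : EReal) ∧ 0 ≤ s ∧
    ∃ (n : ℕ) (H : Finset (Finset (Fin n))), (∀ g ∈ H, g.card = r) ∧
      homDensity F H = homDensity ({univ} : Finset (Finset (Fin r))) H ^ s ∧
      0 < homDensity F H}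

end Pool.Agent.Lib.Helper1.Sid
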