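import Pool.Agent.Lib.helper1.SidCore
import Pool.Agent.Lib.helper1.SidDefs

set_option autoImplicit false

namespace Pool.Agent.Lib.Helper1.Sid

open Finset

theorem exponent_le (r : ℕ) (hr : 2 ≤ r) (Δ : ℕ) {V : Type} [Fintype V] [DecidableEq V]
    (F : Finset (Finset V)) (c : V → Fin r)
    (hc : ∀ e ∈ F, ∀ i, (e.filter (fun v => c v = i)).card = 1)
    (hΔ : ∀ v, (F.filter (fun e => v ∈ e)).card ≤ Δ) :
    sidorenkoExponent r F ≤ (((1 + r * (r * Δ + 1) ^ r) * F.card : ℕ) : ℝ) := by
  classical
  refine sSup_le ?_
  rintro x ⟨s, rfl, hs, n, H, hH, heq, hpos⟩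
  rw [EReal.coe_le_coe_iff]
  set p := homDensity ({univ} : Finset (Finset (Fin r))) H with hp
  let G : (Fin r → Fin n) → Prop := fun a => univ.image a ∈ H
  have hpG : p = ((univ.filter G).card : ℝ) / Fintype.card (Fin r → Fin n) := by
    simp only [hp, homDensity, G, mem_singleton, forall_eq, Fintype.card_fun]
    push_cast; rfl
  by_cases hG : ∃ a₀, G a₀
  swap
  · have : univ.filter G = ∅ := by
      rw [filter_eq_empty_iff]; intro a _ ha; exact hG ⟨a, ha⟩
    rw [this] at hpG
    simp only [card_empty, Nat.cast_zero, zero_div] at hpG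
    rw [heq, hpG] at hpos
    by_cases hs0 : s = 0
    · rw [hs0]; positivity
    · rw [Real.zero_rpow hs0] at hpos; exact absurd hpos (lt_irrefl _)
  obtain ⟨a₀, ha₀⟩ := hG
  have hX : (0 : ℝ) < Fintype.card (Fin r → Fin n) := by
    have : 0 < Fintype.card (Fin r → Fin n) := Fintype.card_pos_iff.2 ⟨a₀⟩
    exact_mod_cast this
  have hp0 : 0 < p := by
    rw [hpG]
    refine div_pos ?_ hX
    have : (univ.filter G).Nonempty := ⟨a₀, by simp [ha₀]⟩
    exact_mod_cast this.card_pos
  have hp1 : p < 1 := by
    rw [hpG, div_lt_one hX]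
    have : (univ.filter G).card < (univ : Finset (Fin r → Fin n)).card := by
      apply card_lt_card
      rw [filter_ssubset]
      refine ⟨fun _ => a₀ ⟨0, by omega⟩, mem_univ _, fun h => ?_⟩
      have h1 := hH _ h
      have : Nonempty (Fin r) := ⟨⟨0, by omega⟩⟩
      rw [image_const univ_nonempty, card_singleton] at h1
      omega
    rw [card_univ] at this
    exact_mod_cast this
  have key : p ^ ((1 + r * (r * Δ + 1) ^ r) * F.card) ≤ homDensity F H := by
    rcases F.eq_empty_or_nonempty with hF | hF
    · subst hF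
      have hn : (0 : ℝ) < n := by
        have := (a₀ ⟨0, by omega⟩).pos
        exact_mod_cast this
      simp only [homDensity, card_empty, mul_zero, pow_zero, notMem_empty, false_imp_iff,
        implies_true, filter_true, card_univ, Fintype.card_fun, Fintype.card_fin]
      push_cast
      rw [div_self (by positivity)]
    have hex : ∀ (e : F) (i : Fin r), ∃ v, e.1.filter (fun v => c v = i) = {v} :=
      fun e i => card_eq_one.1 (hc e.1 e.2 i)
    choose ε hε using hex
    have hmem : ∀ e i, ε e i ∈ e.1 ∧ c (ε e i) = i := fun e i => by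
      have : ε e i ∈ e.1.filter (fun v => c v = i) := by rw [hε]; exact mem_singleton_self _
      exact mem_filter.1 this
    have huniq : ∀ (e : F) v, v ∈ e.1 → ε e (c v) = v := fun e v hv => by
      have : v ∈ e.1.filter (fun u => c u = c v) := mem_filter.2 ⟨hv, rfl⟩
      rw [hε] at this
      exact (mem_singleton.1 this).symm
    have himg : ∀ (e : F) (φ : V → Fin n), e.1.image φ = univ.image (fun i => φ (ε e i)) := by
      intro e φ
      ext y
      simp only [mem_image, mem_univ, true_and]
      constructor
      · rintro ⟨v, hv, rfl⟩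
        exact ⟨c v, by rw [huniq e v hv]⟩
      · rintro ⟨i, rfl⟩
        exact ⟨_, (hmem e i).1, rfl⟩
    have hdeg : ∀ v, (univ.filter (fun e : F => ε e (c v) = v)).card ≤ Δ := by
      intro v
      refine le_trans ?_ (hΔ v)
      refine card_le_card_of_injOn (fun e => e.1) ?_ (fun a _ b _ h => Subtype.ext h)
      intro e he
      have he' : ε e (c v) = v := by simpa using he
      have h1 : v ∈ e.1 := he' ▸ (hmem e (c v)).1
      simp [h1]
    have core := SidCore.core (by omega) G ε c (fun e i => (hmem e i).2) Δ hdeg a₀ ha₀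
    rw [← hpG, Fintype.card_coe] at core
    have e1 : homDensity F H = ((univ.filter (fun φ : V → Fin n =>
        ∀ e : F, G (fun i => φ (ε e i)))).card : ℝ) / Fintype.card (V → Fin n) := by
      simp only [homDensity, Fintype.card_fun]
      push_cast
      congr 3
      refine filter_congr fun φ _ => ?_
      simp only [G, ← himg, Subtype.forall]
    rw [e1]
    refine le_trans (pow_le_pow_of_le_one hp0.le hp1.le ?_) core
    have := hF.card_pos
    nlinarith
  rw [heq, ← Real.rpow_natCast, Real.rpow_le_rpow_left_iff_of_base_lt_one hp0 hp1] at key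
  exact key

end Pool.Agent.Lib.Helper1.Sid
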