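import Mathlib

set_option autoImplicit false

open MeasureTheory ProbabilityTheory
open scoped ENNReal NNReal

namespace Pool.Agent.Lib.helper1.Submod

abbrev E (d : ℕ) : Type := Fin d → ℝ

variable {d : ℕ}

lemma dens_conv (A B : Measure (E d)) [IsProbabilityMeasure A] [IsProbabilityMeasure B]
    (hA : A ≪ volume) (hB : B ≪ volume) :
    ∀ᵐ s ∂(volume : Measure (E d)),
      ∫⁻ x, B.rnDeriv volume (-x + s) ∂A = (A ∗ B).rnDeriv volume s := by
  filter_upwards [rnDeriv_conv hA hB] with s hs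
  rw [hs, lconvolution_def, lintegral_rnDeriv_mul hA (by fun_prop)]

lemma key (A B C : Measure (E d)) [IsProbabilityMeasure A] [IsProbabilityMeasure B]
    [IsProbabilityMeasure C] (hA : A ≪ volume) (hB : B ≪ volume) (hC : C ≪ volume) :
    ∫⁻ w : (E d × E d) × E d, (B ∗ C).rnDeriv volume (w.1.2 + w.2)
      * (A ∗ C).rnDeriv volume (w.1.1 + w.2)
      * (((A ∗ B) ∗ C).rnDeriv volume (w.1.1 + w.1.2 + w.2))⁻¹
      * (C.rnDeriv volume w.2)⁻¹ ∂((A.prod B).prod C) ≤ 1 := by
  set p := (A ∗ C).rnDeriv volume with hp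
  set r := (B ∗ C).rnDeriv volume with hr
  set q := ((A ∗ B) ∗ C).rnDeriv volume with hq
  have mp : Measurable p := Measure.measurable_rnDeriv _ _
  have mr : Measurable r := Measure.measurable_rnDeriv _ _
  have mq : Measurable q := Measure.measurable_rnDeriv _ _
  have mc : Measurable (C.rnDeriv volume) := Measure.measurable_rnDeriv _ _
  rw [lintegral_prod _ (by fun_prop)]
  have step : ∀ v : E d × E d, ∫⁻ z, r (v.2 + z) * p (v.1 + z) * (q (v.1 + v.2 + z))⁻¹
      * (C.rnDeriv volume z)⁻¹ ∂C ≤ ∫⁻ s, r (-v.1 + s) * p (-v.2 + s) * (q s)⁻¹ := by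
    intro v
    rw [← lintegral_rnDeriv_mul hC (by fun_prop),
      ← lintegral_add_left_eq_self (fun s => r (-v.1 + s) * p (-v.2 + s) * (q s)⁻¹) (v.1 + v.2)]
    refine lintegral_mono fun z => ?_
    have e1 : -v.1 + (v.1 + v.2 + z) = v.2 + z := by abel
    have e2 : -v.2 + (v.1 + v.2 + z) = v.1 + z := by abel
    simp only [e1, e2]
    rw [mul_left_comm]
    exact mul_le_of_le_one_right' (ENNReal.mul_inv_le_one _)
  refine (lintegral_mono step).trans ?_
  rw [lintegral_lintegral_swap (by fun_prop)]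
  have hAC : A ∗ C ≪ volume := Measure.conv_absolutelyContinuous hC
  have hBC : B ∗ C ≪ volume := Measure.conv_absolutelyContinuous hC
  have e1 := dens_conv A (B ∗ C) hA hBC
  have e2 := dens_conv B (A ∗ C) hB hAC
  rw [← Measure.conv_assoc] at e1 e2
  rw [Measure.conv_comm B A] at e2
  refine le_trans (lintegral_mono_ae (g := q) ?_)
    (Measure.lintegral_rnDeriv_le.trans prob_le_one)
  filter_upwards [e1, e2] with s h1 h2
  rw [lintegral_mul_const _ (by fun_prop),
    lintegral_prod_mul (f := fun x => r (-x + s)) (g := fun y => p (-y + s)) (by fun_prop)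
      (by fun_prop), h1, h2, mul_assoc]
  exact mul_le_of_le_one_right' (ENNReal.mul_inv_le_one _)

lemma pos_fin {ν : Measure (E d)} [IsProbabilityMeasure ν] (h : ν ≪ volume) :
    ∀ᵐ x ∂ν, 0 < (ν.rnDeriv volume x).toReal := by
  filter_upwards [Measure.rnDeriv_pos h, h.ae_le (Measure.rnDeriv_lt_top ν volume)] with x h1 h2
  exact ENNReal.toReal_pos h1.ne' h2.ne

/-- submodularity of the entropy of sums -/
lemma submod (A B C : Measure (E d)) [IsProbabilityMeasure A] [IsProbabilityMeasure B]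
    [IsProbabilityMeasure C] (hA : A ≪ volume) (hB : B ≪ volume) (hC : C ≪ volume)
    (i1 : Integrable (llr (A ∗ C) volume) (A ∗ C)) (i2 : Integrable (llr (B ∗ C) volume) (B ∗ C))
    (i3 : Integrable (llr ((A ∗ B) ∗ C) volume) ((A ∗ B) ∗ C)) (i4 : Integrable (llr C volume) C) :
    (∫ x, llr (A ∗ C) volume x ∂(A ∗ C)) + ∫ x, llr (B ∗ C) volume x ∂(B ∗ C)
      ≤ (∫ x, llr ((A ∗ B) ∗ C) volume x ∂((A ∗ B) ∗ C)) + ∫ x, llr C volume x ∂C := by
  have ma : ∀ (P Q : Measure (E d)), MeasurePreserving (fun w : E d × E d => w.1 + w.2)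
      (P.prod Q) (P ∗ Q) := fun P Q => ⟨measurable_add, rfl⟩
  have m1 : MeasurePreserving (fun w : (E d × E d) × E d => w.1.1 + w.2) ((A.prod B).prod C)
      (A ∗ C) := (ma A C).comp (measurePreserving_fst.prod (MeasurePreserving.id C))
  have m2 : MeasurePreserving (fun w : (E d × E d) × E d => w.1.2 + w.2) ((A.prod B).prod C)
      (B ∗ C) := (ma B C).comp (measurePreserving_snd.prod (MeasurePreserving.id C))
  have m3 : MeasurePreserving (fun w : (E d × E d) × E d => w.1.1 + w.1.2 + w.2)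
      ((A.prod B).prod C) ((A ∗ B) ∗ C) :=
    (ma (A ∗ B) C).comp ((ma A B).prod (MeasurePreserving.id C))
  have m4 : MeasurePreserving (fun w : (E d × E d) × E d => w.2) ((A.prod B).prod C) C :=
    measurePreserving_snd
  have j1 := m1.integrable_comp_of_integrable i1
  have j2 := m2.integrable_comp_of_integrable i2
  have j3 := m3.integrable_comp_of_integrable i3
  have j4 := m4.integrable_comp_of_integrable i4
  have tr : ∀ {f : (E d × E d) × E d → E d} {ν : Measure (E d)},
      MeasurePreserving f ((A.prod B).prod C) ν →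
      ∫ x, llr ν volume x ∂ν = ∫ w, (llr ν volume ∘ f) w ∂((A.prod B).prod C) := by
    intro f ν hf
    conv_lhs => rw [← hf.map_eq]
    rw [integral_map hf.measurable.aemeasurable (measurable_llr _ _).aestronglyMeasurable, hf.map_eq]
    rfl
  have hk := key A B C hA hB hC
  set R : (E d × E d) × E d → ℝ≥0∞ := fun w => (B ∗ C).rnDeriv volume (w.1.2 + w.2)
      * (A ∗ C).rnDeriv volume (w.1.1 + w.2)
      * (((A ∗ B) ∗ C).rnDeriv volume (w.1.1 + w.1.2 + w.2))⁻¹
      * (C.rnDeriv volume w.2)⁻¹ with hR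
  have mR : Measurable R := by rw [hR]; fun_prop
  have fR : ∫⁻ w, R w ∂((A.prod B).prod C) ≠ ⊤ := ne_top_of_le_ne_top ENNReal.one_ne_top hk
  have iR := integrable_toReal_of_lintegral_ne_top mR.aemeasurable fR
  have bR : ∫ w, (R w).toReal ∂((A.prod B).prod C) ≤ 1 := by
    rw [integral_toReal mR.aemeasurable (ae_lt_top mR fR)]
    exact ENNReal.toReal_le_of_le_ofReal zero_le_one (by simpa using hk)
  have p1 := m1.quasiMeasurePreserving.ae (pos_fin (Measure.conv_absolutelyContinuous hC))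
  have p2 := m2.quasiMeasurePreserving.ae (pos_fin (Measure.conv_absolutelyContinuous hC))
  have p3 := m3.quasiMeasurePreserving.ae (pos_fin (Measure.conv_absolutelyContinuous hC))
  have p4 := m4.quasiMeasurePreserving.ae (pos_fin hC)
  have hm := integral_mono_ae (j1.add j2) ((j3.add j4).add (iR.sub (integrable_const 1))) (by
    filter_upwards [p1, p2, p3, p4] with w h1 h2 h3 h4
    simp only [hR, Function.comp, llr, ENNReal.toReal_mul, ENNReal.toReal_inv, Pi.add_apply,
      Pi.sub_apply]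
    rw [← sub_le_iff_le_add']
    refine le_trans (le_of_eq ?_) (Real.log_le_sub_one_of_pos (by positivity))
    rw [Real.log_mul (by positivity) (by positivity), Real.log_mul (by positivity) (by positivity),
      Real.log_mul h2.ne' h1.ne', Real.log_inv, Real.log_inv]
    ring)
  rw [integral_add' j1 j2, integral_add' (j3.add j4) (iR.sub (integrable_const 1)),
    integral_add' j3 j4, integral_sub' iR (integrable_const 1)] at hm
  rw [tr m1, tr m2, tr m3, tr m4]
  simp only [integral_const, probReal_univ, smul_eq_mul, mul_one] at hm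
  linarith

lemma ent_int {ν : Measure (E d)} [IsProbabilityMeasure ν] (h : ν ≪ volume) :
    Integrable (fun x => Real.negMulLog (ν.rnDeriv volume x).toReal)
      ↔ Integrable (llr ν volume) ν := by
  rw [← integrable_rnDeriv_mul_log_iff h, ← integrable_neg_iff]
  refine integrable_congr (Filter.Eventually.of_forall fun x => ?_)
  simp [Real.negMulLog]

lemma ent_eq {ν : Measure (E d)} [IsProbabilityMeasure ν] (h : ν ≪ volume) :
    ∫ x, Real.negMulLog (ν.rnDeriv volume x).toReal = -∫ x, llr ν volume x ∂ν := by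
  rw [← integral_rnDeriv_mul_log h, ← integral_neg]
  refine integral_congr_ae (Filter.Eventually.of_forall fun x => ?_)
  simp [Real.negMulLog]

/-- centred Gaussian law in the plane with diagonal covariance -/
noncomputable def G2 (a b : ℝ≥0) : Measure (E 2) := Measure.pi ![gaussianReal 0 a, gaussianReal 0 b]

instance (a b : ℝ≥0) (i : Fin 2) :
    IsProbabilityMeasure (![gaussianReal 0 a, gaussianReal 0 b] i) := by
  fin_cases i <;> simp <;> infer_instance

instance (a b : ℝ≥0) : IsProbabilityMeasure (G2 a b) := by unfold G2; infer_instance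

lemma cf1 (a : ℝ≥0) (L : StrongDual ℝ ℝ) :
    charFunDual (gaussianReal 0 a) L = Complex.exp (-(((a : ℝ) : ℂ) * ((L 1 : ℝ) : ℂ) ^ 2 / 2)) := by
  rw [charFunDual_eq_charFun_map_one, gaussianReal_map_continuousLinearMap, charFun_gaussianReal,
    NNReal.coe_mul, Real.coe_toNNReal _ (sq_nonneg (L 1)), map_zero]
  congr 1
  push_cast
  ring

lemma cf2 (a b : ℝ≥0) (L : StrongDual ℝ (E 2)) :
    charFunDual (G2 a b) L = Complex.exp (-(((a : ℝ) : ℂ) * ((L (Pi.single 0 1) : ℝ) : ℂ) ^ 2 / 2)
      + -(((b : ℝ) : ℂ) * ((L (Pi.single 1 1) : ℝ) : ℂ) ^ 2 / 2)) := by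
  rw [G2, charFunDual_pi, Fin.prod_univ_two, Complex.exp_add]
  simp only [Matrix.cons_val_zero, Matrix.cons_val_one, cf1]
  rfl

lemma sum_law {n : ℕ} (a b : Fin n → ℝ≥0) (S : Finset (Fin n)) :
    (Measure.pi fun i => G2 (a i) (b i)).map (fun ω => ∑ i ∈ S, ω i)
      = G2 (∑ i ∈ S, a i) (∑ i ∈ S, b i) := by
  have hi : iIndepFun (fun (i : Fin n) (ω : Fin n → E 2) => ω i)
      (Measure.pi fun i => G2 (a i) (b i)) :=
    iIndepFun_pi (X := fun _ => id) (fun _ => aemeasurable_id)
  have : IsProbabilityMeasure ((Measure.pi fun i => G2 (a i) (b i)).map (fun ω => ∑ i ∈ S, ω i)) :=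
    Measure.isProbabilityMeasure_map (by fun_prop)
  refine Measure.ext_of_charFunDual (funext fun L => ?_)
  rw [iIndepFun.charFunDual_map_fun_finsetSum_eq_prod
    (fun i _ => (measurable_pi_apply i).aemeasurable) (hi.restrict S), Finset.prod_apply, cf2]
  have : ∀ i, (Measure.pi fun i => G2 (a i) (b i)).map (fun ω => ω i) = G2 (a i) (b i) :=
    fun i => (measurePreserving_eval (fun i => G2 (a i) (b i)) i).map_eq
  simp_rw [this, cf2]
  rw [← Complex.exp_sum]
  congr 1
  rw [Finset.sum_add_distrib, Finset.sum_neg_distrib, Finset.sum_neg_distrib, ← Finset.sum_div,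
    ← Finset.sum_div, ← Finset.sum_mul, ← Finset.sum_mul]
  push_cast
  rfl

lemma G2_dens {a b : ℝ≥0} (ha : a ≠ 0) (hb : b ≠ 0) :
    G2 a b = volume.withDensity fun x => gaussianPDF 0 a (x 0) * gaussianPDF 0 b (x 1) := by
  refine Measure.pi_eq fun s hs => ?_
  have hm : MeasurableSet (Set.univ.pi s) := MeasurableSet.univ_pi hs
  have e : Set.univ.pi s = MeasurableEquiv.finTwoArrow ⁻¹' (s 0 ×ˢ s 1) := by
    ext x; simp [Fin.forall_fin_two]
  have h := (volume_preserving_finTwoArrow ℝ).setLIntegral_comp_preimage_emb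
    MeasurableEquiv.finTwoArrow.measurableEmbedding
    (fun z => gaussianPDF 0 a z.1 * gaussianPDF 0 b z.2) (s 0 ×ˢ s 1)
  rw [withDensity_apply _ hm, e]
  refine Eq.trans h ?_
  rw [Measure.volume_eq_prod, ← Measure.prod_restrict,
    lintegral_prod_mul (by fun_prop) (by fun_prop), Fin.prod_univ_two]
  simp only [Matrix.cons_val_zero, Matrix.cons_val_one]
  rw [gaussianReal_apply _ ha, gaussianReal_apply _ hb]

lemma G2_ac {a b : ℝ≥0} (ha : a ≠ 0) (hb : b ≠ 0) : G2 a b ≪ volume := by
  rw [G2_dens ha hb]; exact withDensity_absolutelyContinuous _ _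

lemma log_pdf {a : ℝ≥0} (ha : a ≠ 0) (x : ℝ) :
    Real.log (gaussianPDFReal 0 a x) = -(Real.log (2 * Real.pi * a) / 2) - x ^ 2 / (2 * a) := by
  have h0 : (0:ℝ) < a := by positivity
  have h1 : 0 < 2 * Real.pi * a := by positivity
  rw [gaussianPDFReal, Real.log_mul (by positivity) (by positivity), Real.log_inv, Real.log_exp,
    Real.log_sqrt h1.le]
  ring

lemma G2_llr {a b : ℝ≥0} (ha : a ≠ 0) (hb : b ≠ 0) : llr (G2 a b) volume =ᵐ[G2 a b] fun x =>
    -(Real.log (2 * Real.pi * a) / 2 + Real.log (2 * Real.pi * b) / 2)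
      - ((x 0) ^ 2 / (2 * a) + (x 1) ^ 2 / (2 * b)) := by
  have h := Measure.rnDeriv_withDensity (volume : Measure (E 2))
    (f := fun x => gaussianPDF 0 a (x 0) * gaussianPDF 0 b (x 1)) (by fun_prop)
  rw [← G2_dens ha hb] at h
  filter_upwards [(G2_ac ha hb).ae_le h] with x hx
  rw [llr, hx, ENNReal.toReal_mul, toReal_gaussianPDF, toReal_gaussianPDF,
    Real.log_mul (gaussianPDFReal_pos _ _ _ ha).ne' (gaussianPDFReal_pos _ _ _ hb).ne',
    log_pdf ha, log_pdf hb]
  ring

lemma sq_int (a : ℝ≥0) : Integrable (fun x : ℝ => x ^ 2) (gaussianReal 0 a)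
    ∧ ∫ x, x ^ 2 ∂(gaussianReal 0 a) = a := by
  refine ⟨by simpa using (memLp_id_gaussianReal (μ := 0) (v := a) 2).integrable_sq, ?_⟩
  have h := variance_fun_id_gaussianReal (μ := 0) (v := a)
  rw [variance_eq_integral measurable_id'.aemeasurable] at h
  simpa using h

lemma G2_sq (a b : ℝ≥0) : (Integrable (fun x : E 2 => x 0 ^ 2) (G2 a b)
    ∧ ∫ x, x 0 ^ 2 ∂(G2 a b) = a) ∧ (Integrable (fun x : E 2 => x 1 ^ 2) (G2 a b)
    ∧ ∫ x, x 1 ^ 2 ∂(G2 a b) = b) := by
  have m0 : MeasurePreserving (fun x : E 2 => x 0) (G2 a b) (gaussianReal 0 a) :=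
    measurePreserving_eval ![gaussianReal 0 a, gaussianReal 0 b] 0
  have m1 : MeasurePreserving (fun x : E 2 => x 1) (G2 a b) (gaussianReal 0 b) :=
    measurePreserving_eval ![gaussianReal 0 a, gaussianReal 0 b] 1
  refine ⟨⟨m0.integrable_comp_of_integrable (sq_int a).1, ?_⟩,
    ⟨m1.integrable_comp_of_integrable (sq_int b).1, ?_⟩⟩
  · rw [← (sq_int a).2, ← m0.map_eq, integral_map m0.measurable.aemeasurable (by fun_prop)]
  · rw [← (sq_int b).2, ← m1.map_eq, integral_map m1.measurable.aemeasurable (by fun_prop)]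

lemma G2_ent {a b : ℝ≥0} (ha : a ≠ 0) (hb : b ≠ 0) :
    Integrable (llr (G2 a b) volume) (G2 a b) ∧ Real.exp (-∫ x, llr (G2 a b) volume x ∂(G2 a b))
      = 2 * Real.pi * Real.exp 1 * Real.sqrt (a * b) := by
  obtain ⟨⟨i0, e0⟩, ⟨i1, e1⟩⟩ := G2_sq a b
  have i2 : Integrable (fun x : E 2 => (x 0) ^ 2 / (2 * a) + (x 1) ^ 2 / (2 * b)) (G2 a b) :=
    (i0.div_const _).add (i1.div_const _)
  refine ⟨(integrable_congr (G2_llr ha hb)).2 ((integrable_const _).sub i2), ?_⟩
  have h0 : (0:ℝ) < a := by positivity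
  have h1 : (0:ℝ) < b := by positivity
  have hp := Real.pi_pos
  rw [integral_congr_ae (G2_llr ha hb), integral_sub (integrable_const _) i2,
    integral_add (i0.div_const _) (i1.div_const _), integral_div, integral_div, e0, e1]
  simp only [integral_const, probReal_univ, smul_eq_mul, one_mul]
  have e : -(-(Real.log (2 * Real.pi * a) / 2 + Real.log (2 * Real.pi * b) / 2)
      - ((a : ℝ) / (2 * a) + b / (2 * b))) = Real.log (2 * Real.pi * Real.sqrt (a * b)) + 1 := by
    rw [Real.log_mul (by positivity) h0.ne', Real.log_mul (by positivity) h1.ne',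
      Real.log_mul (by positivity) (by positivity : Real.sqrt (a * b) ≠ 0),
      Real.log_sqrt (by positivity), Real.log_mul h0.ne' h1.ne']
    field_simp; ring
  rw [e, Real.exp_add, Real.exp_log (by positivity)]
  ring

end Pool.Agent.Lib.helper1.Submod
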