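import Mathlib

namespace Pool.Agent.Lib.helper1.Symm

open Set

variable {E : Type*} [NormedAddCommGroup E] [InnerProductSpace ℝ E]

/-- support function -/
noncomputable def h (K : Set E) (v : E) : ℝ := sSup ((fun y : E => inner ℝ y v) '' K)

/-- continuous of linear growth -/
def P (f : E → ℝ) : Prop := Continuous f ∧ ∃ C, ∀ v, |f v| ≤ C * ‖v‖

/-- an abstract mean -/
structure Mean (I : (E → ℝ) → ℝ) : Prop where
  add : ∀ f g, P f → P g → I (fun v => f v + g v) = I f + I g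
  smul : ∀ (c : ℝ) (f : E → ℝ), I (fun v => c * f v) = c * I f
  mono : ∀ f g, P f → P g → (∀ v, f v ≤ g v) → I f ≤ I g
  neg : ∀ f : E → ℝ, I (fun v => f (-v)) = I f
  pos : ∀ a : E, a ≠ 0 → 0 < I (fun v => |inner ℝ a v|)

lemma h_eq {K : Set E} {v : E} {c : ℝ} (h1 : ∃ x ∈ K, inner ℝ x v = c)
    (h2 : ∀ x ∈ K, inner ℝ x v ≤ c) : h K v = c :=
  IsGreatest.csSup_eq ⟨h1, by rintro _ ⟨x, hx, rfl⟩; exact h2 x hx⟩

lemma h_spec {K : Set E} (hK : IsCompact K) (hne : K.Nonempty) (v : E) :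
    (∃ x ∈ K, inner ℝ x v = h K v) ∧ ∀ x ∈ K, inner ℝ x v ≤ h K v := by
  obtain ⟨x, hx, hm⟩ := hK.exists_isMaxOn hne (f := fun y : E => inner ℝ y v) (by fun_prop)
  rw [h_eq ⟨x, hx, rfl⟩ fun y hy => hm hy]
  exact ⟨⟨x, hx, rfl⟩, fun y hy => hm hy⟩

lemma h_mono {K L : Set E} (hK : IsCompact K) (hne : K.Nonempty) (hL : IsCompact L)
    (hKL : K ⊆ L) (v : E) : h K v ≤ h L v := by
  obtain ⟨x, hx, e⟩ := (h_spec hK hne v).1
  exact e ▸ (h_spec hL (hne.mono hKL) v).2 x (hKL hx)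

lemma h_P {K : Set E} (hK : IsCompact K) (hne : K.Nonempty) : P (h K) := by
  obtain ⟨R, hR⟩ := hK.isBounded.exists_norm_le
  have key : ∀ v w, h K v - h K w ≤ R * ‖v - w‖ := by
    intro v w
    obtain ⟨x, hx, e⟩ := (h_spec hK hne v).1
    have := (h_spec hK hne w).2 x hx
    have a := real_inner_le_norm x (v - w)
    rw [inner_sub_right] at a
    nlinarith [hR x hx, norm_nonneg (v - w)]
  have h0 : h K 0 = 0 := h_eq ⟨_, hne.some_mem, by simp⟩ (by simp)
  have key2 : ∀ v w, |h K v - h K w| ≤ R * ‖v - w‖ := fun v w =>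
    abs_sub_le_iff.mpr ⟨key v w, by rw [norm_sub_rev]; exact key w v⟩
  refine ⟨?_, R, fun v => by simpa [h0] using key2 v 0⟩
  obtain ⟨x, hx⟩ := hne
  exact (LipschitzWith.of_dist_le' (K := R) fun v w => by
    rw [Real.dist_eq, dist_eq_norm]; exact key2 v w).continuous

omit [InnerProductSpace ℝ E] in
lemma P.neg {f : E → ℝ} (hf : P f) : P fun v => f (-v) :=
  ⟨hf.1.comp continuous_neg, hf.2.imp fun C hC v => by simpa using hC (-v)⟩

omit [InnerProductSpace ℝ E] in
lemma P.add {f g : E → ℝ} (hf : P f) (hg : P g) : P fun v => f v + g v := by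
  obtain ⟨C, hC⟩ := hf.2
  obtain ⟨D, hD⟩ := hg.2
  exact ⟨hf.1.add hg.1, C + D, fun v => (abs_add_le _ _).trans (by linarith [hC v, hD v])⟩

omit [InnerProductSpace ℝ E] in
lemma P.np {f : E → ℝ} (hf : P f) : P fun v => max (-f v) 0 := by
  obtain ⟨C, hC⟩ := hf.2
  refine ⟨hf.1.neg.max continuous_const, C, fun v => le_trans ?_ (hC v)⟩
  rw [abs_of_nonneg (le_max_right _ _)]
  exact max_le (neg_le_abs _) (abs_nonneg _)

omit [InnerProductSpace ℝ E] in
lemma P.zero : P fun _ : E => (0 : ℝ) := ⟨continuous_const, 0, by simp⟩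

lemma P.abs (a : E) : P fun v : E => |inner ℝ a v| :=
  ⟨by fun_prop, ‖a‖, fun v => by rw [abs_abs]; exact abs_real_inner_le_norm a v⟩

/-- convex hull of `K` and the origin -/
def cone (K : Set E) : Set E := (fun p : ℝ × E => p.1 • p.2) '' (Icc 0 1 ×ˢ K)

/-- `β` times the Minkowski symmetral -/
def mk (β : ℝ) (K : Set E) : Set E := (fun p : E × E => (β / 2) • (p.1 - p.2)) '' (K ×ˢ K)

lemma cone_compact {K : Set E} (hK : IsCompact K) : IsCompact (cone K) :=
  (isCompact_Icc.prod hK).image (by fun_prop)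

lemma sub_cone (K : Set E) : K ⊆ cone K := fun x hx => ⟨(1, x), ⟨by simp, hx⟩, by simp⟩

lemma zero_cone {K : Set E} (hne : K.Nonempty) : (0 : E) ∈ cone K :=
  ⟨(0, hne.some), ⟨by simp, hne.some_mem⟩, by simp⟩

lemma cone_convex {K : Set E} (hK : Convex ℝ K) : Convex ℝ (cone K) := by
  have : cone K = convexJoin ℝ {0} K := by
    ext z
    simp only [mem_convexJoin, segment_eq_image, cone, mem_singleton_iff, exists_eq_left,
      smul_zero, zero_add, mem_image, mem_prod, Prod.exists]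
    constructor
    · rintro ⟨a, b, ⟨h1, h2⟩, e⟩; exact ⟨b, h2, a, h1, e⟩
    · rintro ⟨b, h2, a, h1, e⟩; exact ⟨a, b, ⟨h1, h2⟩, e⟩
  rw [this]
  exact (convex_singleton 0).convexJoin hK

lemma cone_eq {K : Set E} (hK : Convex ℝ K) (h0 : (0 : E) ∈ K) : cone K = K := by
  refine subset_antisymm ?_ (sub_cone K)
  rintro _ ⟨⟨t, x⟩, ⟨ht, hx⟩, rfl⟩
  exact hK.smul_mem_of_zero_mem h0 hx ht

lemma h_cone {K : Set E} (hK : IsCompact K) (hne : K.Nonempty) (v : E) :
    h (cone K) v = h K v + max (-h K v) 0 := by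
  obtain ⟨⟨x, hx, e⟩, h2⟩ := h_spec hK hne v
  apply h_eq
  · rcases le_total (h K v) 0 with h0 | h0
    · exact ⟨0, zero_cone hne, by rw [max_eq_left (by linarith)]; simp⟩
    · exact ⟨x, sub_cone K hx, by rw [max_eq_right (by linarith), e]; simp⟩
  · rintro _ ⟨⟨t, y⟩, ⟨ht, hy⟩, rfl⟩
    have := h2 y hy
    simp only [real_inner_smul_left]
    nlinarith [ht.1, ht.2, le_max_left (-h K v) 0, le_max_right (-h K v) 0]

lemma mk_compact {K : Set E} (hK : IsCompact K) (β : ℝ) : IsCompact (mk β K) :=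
  (hK.prod hK).image (by fun_prop)

lemma mk_convex {K : Set E} (hK : Convex ℝ K) (β : ℝ) : Convex ℝ (mk β K) :=
  (hK.prod hK).linear_image ((β / 2) • (LinearMap.fst ℝ E E - LinearMap.snd ℝ E E))

lemma mk_neg {K : Set E} {β : ℝ} {x : E} (hx : x ∈ mk β K) : -x ∈ mk β K := by
  obtain ⟨⟨a, b⟩, ⟨ha, hb⟩, rfl⟩ := hx
  exact ⟨(b, a), ⟨hb, ha⟩, by simp [← smul_neg]⟩

lemma h_mk {K : Set E} (hK : IsCompact K) (hne : K.Nonempty) {β : ℝ} (hβ : 0 ≤ β) (v : E) :
    h (mk β K) v = β / 2 * (h K v + h K (-v)) := by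
  obtain ⟨⟨x, hx, e⟩, h2⟩ := h_spec hK hne v
  obtain ⟨⟨y, hy, e'⟩, h3⟩ := h_spec hK hne (-v)
  apply h_eq
  · refine ⟨_, ⟨(x, y), ⟨hx, hy⟩, rfl⟩, ?_⟩
    simp only [real_inner_smul_left, inner_sub_left, ← e, ← e', inner_neg_right]; ring
  · rintro _ ⟨⟨a, b⟩, ⟨ha, hb⟩, rfl⟩
    have := h2 a ha
    have := h3 b hb
    simp only [real_inner_smul_left, inner_sub_left, inner_neg_right] at *
    exact mul_le_mul_of_nonneg_left (by linarith) (by linarith)

lemma mk_mono {K L : Set E} (hL : Convex ℝ L) (h0 : (0 : E) ∈ L) (hKL : K ⊆ L) {α β : ℝ}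
    (h1 : 0 ≤ α) (h2 : α ≤ β) : mk α K ⊆ mk β L := by
  rintro _ ⟨⟨a, b⟩, ⟨ha, hb⟩, rfl⟩
  rcases (h1.trans h2).eq_or_lt with e | hβ
  · obtain rfl : α = β := by linarith
    exact ⟨(a, b), ⟨hKL ha, hKL hb⟩, rfl⟩
  · have ht : α / β ∈ Icc (0 : ℝ) 1 := ⟨by positivity, (div_le_one hβ).mpr h2⟩
    refine ⟨((α / β) • a, (α / β) • b), ⟨hL.smul_mem_of_zero_mem h0 (hKL ha) ht,
      hL.smul_mem_of_zero_mem h0 (hKL hb) ht⟩, ?_⟩
    simp only [← smul_sub, smul_smul]
    congr 1; field_simp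

variable {I : (E → ℝ) → ℝ}

lemma Mean.zero (hI : Mean I) : I (fun _ => 0) = 0 := by simpa using hI.smul 0 fun _ => 0

lemma Mean.sym (hI : Mean I) {f : E → ℝ} (hf : P f) : I (fun v => f v + f (-v)) = 2 * I f := by
  rw [hI.add _ _ hf hf.neg, hI.neg]; ring

lemma Mean.ge (hI : Mean I) {K : Set E} (hK : IsCompact K) {x y : E} (hx : x ∈ K) (hy : y ∈ K) :
    I (fun v => |inner ℝ (x - y) v|) ≤ 2 * I (h K) := by
  have hP := h_P hK ⟨x, hx⟩
  rw [← hI.sym hP]
  refine hI.mono _ _ (P.abs _) (hP.add hP.neg) fun v => ?_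
  have a := (h_spec hK ⟨x, hx⟩ v).2
  have b := (h_spec hK ⟨x, hx⟩ (-v)).2
  have := a x hx; have := a y hy; have := b x hx; have := b y hy
  simp only [inner_neg_right, inner_sub_left] at *
  rw [abs_le]; constructor <;> linarith

lemma Mean.nonneg (hI : Mean I) {K : Set E} (hK : IsCompact K) (hne : K.Nonempty) :
    0 ≤ I (h K) := by
  have := hI.ge hK hne.some_mem hne.some_mem
  simp only [sub_self, inner_zero_left, abs_zero, hI.zero] at this
  linarith

lemma Mean.pos' (hI : Mean I) {K : Set E} (hK : IsCompact K) {x y : E} (hx : x ∈ K) (hy : y ∈ K)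
    (hxy : x ≠ y) : 0 < I (h K) := by
  linarith [hI.ge hK hx hy, hI.pos _ (sub_ne_zero.mpr hxy)]

open Classical in
/-- the scaling factor -/
noncomputable def bet (I : (E → ℝ) → ℝ) (K : Set E) : ℝ :=
  if (0 : E) ∈ K then 1 else I (h K) / I (h (cone K))

/-- the symmetrization -/
def D (I : (E → ℝ) → ℝ) (K : Set E) : Set E := mk (bet I K) (cone K)

lemma Mean.cone (hI : Mean I) {K : Set E} (hK : IsCompact K) (hne : K.Nonempty) :
    I (h (cone K)) = I (h K) + I (fun v => max (-h K v) 0) ∧ 0 ≤ I (fun v => max (-h K v) 0) := by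
  have hP := h_P hK hne
  constructor
  · rw [← hI.add _ _ hP hP.np]; congr 1; funext v; exact h_cone hK hne v
  · exact hI.zero.ge.trans (hI.mono _ _ P.zero hP.np fun v => le_max_right _ _)

lemma bet_mem (hI : Mean I) {K : Set E} (hK : IsCompact K) (hne : K.Nonempty) :
    bet I K ∈ Icc (0 : ℝ) 1 := by
  obtain ⟨e, b⟩ := hI.cone hK hne
  have := hI.nonneg hK hne
  unfold bet; split_ifs
  · simp
  · exact ⟨by rw [e]; positivity, div_le_one_of_le₀ (by linarith) (by linarith)⟩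

lemma bet_pos (hI : Mean I) {K : Set E} (hK : IsCompact K) {x y : E} (hx : x ∈ K) (hy : y ∈ K)
    (hxy : x ≠ y) : 0 < bet I K := by
  obtain ⟨e, b⟩ := hI.cone hK ⟨x, hx⟩
  have := hI.pos' hK hx hy hxy
  unfold bet; split_ifs
  · simp
  · rw [e]; positivity

lemma bet_mono (hI : Mean I) {K L : Set E} (hK : IsCompact K) (hne : K.Nonempty)
    (hL : IsCompact L) (hKL : K ⊆ L) : bet I K ≤ bet I L := by
  have hne' := hne.mono hKL
  by_cases h0 : (0 : E) ∈ L
  · rw [show bet I L = 1 from if_pos h0]; exact (bet_mem hI hK hne).2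
  · rw [show bet I L = _ from if_neg h0, show bet I K = _ from if_neg fun h => h0 (hKL h)]
    obtain ⟨e, b⟩ := hI.cone hK hne
    obtain ⟨e', b'⟩ := hI.cone hL hne'
    have w := hI.nonneg hK hne
    have w' := hI.mono _ _ (h_P hK hne) (h_P hL hne') (h_mono hK hne hL hKL)
    have b2 := hI.mono _ _ (h_P hL hne').np (h_P hK hne).np fun v =>
      max_le_max_right 0 (neg_le_neg (h_mono hK hne hL hKL v))
    rw [e, e']
    rcases w.eq_or_lt with w0 | w0
    · rw [← w0, zero_div]; exact div_nonneg (by linarith) (by linarith)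
    · rw [div_le_div_iff₀ (by linarith) (by linarith)]
      nlinarith [mul_le_mul w' b2 b' (by linarith)]

lemma D_compact {K : Set E} (hK : IsCompact K) : IsCompact (D I K) := mk_compact (cone_compact hK) _

lemma D_convex {K : Set E} (hK : Convex ℝ K) : Convex ℝ (D I K) := mk_convex (cone_convex hK) _

lemma D_mem {K : Set E} {x y : E} (hx : x ∈ cone K) (hy : y ∈ cone K) :
    (bet I K / 2) • (x - y) ∈ D I K := ⟨(x, y), ⟨hx, hy⟩, rfl⟩

lemma D_mono (hI : Mean I) {K L : Set E} (hK : IsCompact K) (hne : K.Nonempty)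
    (hL : IsCompact L) (hL' : Convex ℝ L) (hKL : K ⊆ L) : D I K ⊆ D I L :=
  mk_mono (cone_convex hL') (zero_cone (hne.mono hKL))
    (image_mono (prod_mono_right hKL)) (bet_mem hI hK hne).1 (bet_mono hI hK hne hL hKL)

lemma D_mean (hI : Mean I) {K : Set E} (hK : IsCompact K) (hc : Convex ℝ K) (hne : K.Nonempty) :
    I (h (D I K)) = I (h K) := by
  have hne' : (cone K).Nonempty := ⟨0, zero_cone hne⟩
  have : h (D I K) = _ := funext (h_mk (cone_compact hK) hne' (bet_mem hI hK hne).1)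
  rw [this, hI.smul, hI.sym (h_P (cone_compact hK) hne')]
  obtain ⟨e, b⟩ := hI.cone hK hne
  have w := hI.nonneg hK hne
  unfold bet; split_ifs with h0
  · rw [cone_eq hc h0]; ring
  · rcases eq_or_ne (I (h (cone K))) 0 with e0 | e0
    · rw [e0]; linarith
    · field_simp

lemma D_fix {K : Set E} (hc : Convex ℝ K) (hne : K.Nonempty) (hs : ∀ x ∈ K, -x ∈ K) :
    D I K = K := by
  have h0 : (0 : E) ∈ K := by
    have := hc hne.some_mem (hs _ hne.some_mem) (a := 1 / 2) (b := 1 / 2) (by norm_num)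
      (by norm_num) (by norm_num)
    simpa using this
  unfold D
  rw [cone_eq hc h0, show bet I K = 1 from if_pos h0]
  apply subset_antisymm
  · rintro _ ⟨⟨a, b⟩, ⟨ha, hb⟩, rfl⟩
    have := hc ha (hs _ hb) (a := 1 / 2) (b := 1 / 2) (by norm_num) (by norm_num) (by norm_num)
    simpa [smul_sub, sub_eq_add_neg] using this
  · intro x hx
    refine ⟨(x, -x), ⟨hx, hs x hx⟩, ?_⟩
    simp only [sub_neg_eq_add, ← two_smul ℝ x, smul_smul]; simp

open Pointwise in
lemma D_interior (hI : Mean I) [Nontrivial E] {K : Set E} (hK : IsCompact K)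
    (hi : (interior K).Nonempty) : (interior (D I K)).Nonempty := by
  obtain ⟨x, hx⟩ := hi
  obtain ⟨y, hy, hxy⟩ : ∃ y ∈ K, y ≠ x := by
    by_contra hc
    push Not at hc
    have : interior K ⊆ interior {x} := interior_mono hc
    simpa using this hx
  have hβ := bet_pos hI hK hy (interior_subset hx) hxy
  have hs : (bet I K / 2) • K ⊆ D I K := by
    rintro _ ⟨z, hz, rfl⟩
    simpa using D_mem (I := I) (sub_cone K hz) (zero_cone ⟨z, hz⟩)
  refine ⟨(bet I K / 2) • x, interior_mono hs ?_⟩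
  rw [interior_smul₀ (by positivity)]
  exact smul_mem_smul_set hx

open MeasureTheory in
lemma gauss [FiniteDimensional ℝ E] [MeasurableSpace E] [BorelSpace E] :
    Mean fun f : E → ℝ => ∫ v, f v * Real.exp (-‖v‖ ^ 2) := by
  have g : Integrable fun v : E => Real.exp (-‖v‖ ^ 2 / 2) := by
    have := (GaussianFourier.integrable_cexp_neg_mul_sq_norm_add (V := E) (b := 1 / 2)
      (by norm_num) 0 0).norm
    refine this.congr (Filter.Eventually.of_forall fun v => ?_)
    simp only [Complex.norm_exp]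
    congr 1
    simp [← Complex.ofReal_pow]; ring
  have key : ∀ f : E → ℝ, P f → Integrable fun v => f v * Real.exp (-‖v‖ ^ 2) := by
    rintro f ⟨hf, C, hC⟩
    refine (g.const_mul |C|).mono' (by fun_prop) (Filter.Eventually.of_forall fun v => ?_)
    rw [Real.norm_eq_abs, abs_mul, abs_of_pos (Real.exp_pos _)]
    have a : ‖v‖ ≤ Real.exp (‖v‖ ^ 2 / 2) := by
      nlinarith [Real.add_one_le_exp (‖v‖ ^ 2 / 2), sq_nonneg (‖v‖ - 1)]
    have b : |f v| ≤ |C| * Real.exp (‖v‖ ^ 2 / 2) :=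
      (hC v).trans (mul_le_mul (le_abs_self C) a (norm_nonneg _) (abs_nonneg _))
    calc _ ≤ |C| * Real.exp (‖v‖ ^ 2 / 2) * Real.exp (-‖v‖ ^ 2) :=
          mul_le_mul_of_nonneg_right b (Real.exp_pos _).le
      _ = _ := by rw [mul_assoc, ← Real.exp_add]; congr 2; ring
  refine ⟨fun f g hf hg => ?_, fun c f => ?_, fun f g hf hg hfg => ?_, fun f => ?_, fun a ha => ?_⟩
  · simp only [add_mul]; exact integral_add (key f hf) (key g hg)
  · simp only [mul_assoc]; exact integral_const_mul _ _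
  · exact integral_mono (key f hf) (key g hg) fun v =>
      mul_le_mul_of_nonneg_right (hfg v) (Real.exp_pos _).le
  · simpa using integral_neg_eq_self (fun v : E => f v * Real.exp (-‖v‖ ^ 2)) volume
  · refine integral_pos_of_integrable_nonneg_nonzero (x := a) (by fun_prop) (key _ (P.abs a))
      (fun v => by positivity) ?_
    have : inner ℝ a a ≠ 0 := by simpa using ha
    positivity

end Pool.Agent.Lib.helper1.Symm
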