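import Mathlib

set_option autoImplicit false

namespace Pool.Agent.Lib.helper1.Tc

open Finset Filter Topology MeasureTheory
open scoped ENNReal

noncomputable def T (d : ℝ) (x : ℕ → ℝ) (i : ℕ) : ℝ := ∑ j ∈ range i, (2 * x j + d)

noncomputable def C (d : ℝ) (x : ℕ → ℝ) (H : ℝ) : ℝ≥0∞ :=
  ⨅ i : ℕ, ⨅ _ : H ∈ Set.uIcc 0 ((-1) ^ i * x i), ENNReal.ofReal (T d x i + |H|)

noncomputable def V (d : ℝ) : ℝ≥0∞ :=
  ⨅ x : ℕ → ℝ, ⨅ _ : ∀ i, 0 < x i, ⨆ h : ProbabilityMeasure ℝ,
    ⨆ _ : ∫⁻ H, ENNReal.ofReal |H| ∂(h : Measure ℝ) ≤ 1, ∫⁻ H, C d x H ∂(h : Measure ℝ)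

lemma mem {x H : ℝ} (hx : 0 < x) (i : ℕ) :
    H ∈ Set.uIcc 0 ((-1) ^ i * x) ↔ 0 ≤ (-1) ^ i * H ∧ |H| ≤ x := by
  rcases neg_one_pow_eq_or ℝ i with h | h <;> rw [h, abs_le]
  · rw [one_mul, one_mul, Set.uIcc_of_le hx.le]
    exact ⟨fun h => ⟨h.1, by linarith [h.1], h.2⟩, fun h => ⟨h.1, h.2.2⟩⟩
  · rw [Set.uIcc_of_ge (by linarith)]
    exact ⟨fun h => ⟨by linarith [h.2], by linarith [h.1], by linarith [h.2]⟩,
      fun h => ⟨by linarith [h.2.1], by linarith [h.1]⟩⟩

theorem upper {d s : ℝ} (hd : 0 < d) (hs : 0 < s) :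
    V d ≤ ENNReal.ofReal (5 + d + (2 + d) * s + 2 / s) := by
  set x : ℕ → ℝ := fun i => d / 2 * ((1 + s) ^ (i + 1) - 1) with hx
  have b : ∀ i : ℕ, d / 2 * ((i + 1) * s) ≤ x i := fun i => by
    have := one_add_mul_le_pow (show -2 ≤ s by linarith) (i + 1)
    push_cast at this
    exact mul_le_mul_of_nonneg_left (by linarith) (by positivity)
  have x0 : ∀ i, 0 < x i := fun i => lt_of_lt_of_le (by positivity) (b i)
  set ρ := 2 * (1 + s) ^ 2 / s with hρ
  have ρ0 : 0 < ρ := by positivity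
  have e : ∀ k, T d x (k + 2) = ρ * x k + (1 + s) * d := fun k => by
    induction k with
    | zero => simp only [T, hx, hρ, sum_range_succ, sum_range_zero]; field_simp; ring
    | succ k ih =>
      rw [T, sum_range_succ, ← T, ih]; simp only [hx, hρ]; field_simp; ring
  have key : ∀ H k, H ∈ Set.uIcc 0 ((-1) ^ k * x k) →
      C d x H ≤ ENNReal.ofReal ((1 + ρ) * |H| + (1 + s) * d) := fun H k => by
    have a := abs_nonneg H
    induction k using Nat.twoStepInduction with
    | zero =>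
      refine fun h => (iInf₂_le 0 h).trans (ENNReal.ofReal_le_ofReal ?_)
      simp only [T, sum_range_zero]; nlinarith [mul_pos (show 0 < 1 + s by linarith) hd]
    | one =>
      refine fun h => (iInf₂_le 1 h).trans (ENNReal.ofReal_le_ofReal ?_)
      simp only [T, hx, sum_range_succ, sum_range_zero]; nlinarith
    | more k ih _ =>
      intro h
      by_cases h' : |H| ≤ x k
      · refine ih ((mem (x0 k) k).2 ⟨?_, h'⟩)
        simpa [pow_succ] using ((mem (x0 _) _).1 h).1
      · refine (iInf₂_le (k + 2) h).trans (ENNReal.ofReal_le_ofReal ?_)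
        rw [e]; nlinarith
  have all : ∀ H, C d x H ≤ ENNReal.ofReal ((1 + ρ) * |H| + (1 + s) * d) := fun H => by
    obtain ⟨k, hk⟩ := exists_nat_ge (|H| / (d / 2 * s))
    rw [div_le_iff₀ (by positivity)] at hk
    have p : 0 < d / 2 * s := by positivity
    rcases le_total 0 ((-1) ^ k * H) with h | h
    · exact key H k ((mem (x0 k) k).2 ⟨h, by nlinarith [b k]⟩)
    · refine key H (k + 1) ((mem (x0 _) _).2 ⟨by rw [pow_succ]; linarith, ?_⟩)
      have := b (k + 1)
      push_cast at this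
      nlinarith
  refine iInf₂_le_of_le x x0 (iSup₂_le fun h hh => (lintegral_mono all).trans ?_)
  have : ∀ H : ℝ, ENNReal.ofReal ((1 + ρ) * |H| + (1 + s) * d) =
      ENNReal.ofReal (1 + ρ) * ENNReal.ofReal |H| + ENNReal.ofReal ((1 + s) * d) := fun H => by
    rw [ENNReal.ofReal_add (by positivity) (by positivity), ENNReal.ofReal_mul (by positivity)]
  simp only [this]
  rw [lintegral_add_right _ measurable_const, lintegral_const_mul' _ _ ENNReal.ofReal_ne_top,
    lintegral_const, measure_univ, mul_one, show 5 + d + (2 + d) * s + 2 / s =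
      (1 + ρ) + (1 + s) * d by rw [hρ]; field_simp; ring,
    ENNReal.ofReal_add (show 0 ≤ 1 + ρ by positivity) (by positivity)]
  gcongr
  exact mul_le_of_le_one_right' hh

lemma step {a b t y ρ φ κ : ℝ} (a0 : 0 < a) (y0 : 0 < y) (ta : t ≤ ρ * a)
    (k2 : κ ≤ 2) (hκ : ∀ g, 1 ≤ g → ρ - 2 * g = φ → κ * g ≤ 2 * g ^ 2 - ρ * (g - 1))
    (h : φ * min a b ≤ t - 2 * max a b) :
    (φ + κ) * min (max a y) b ≤ t + 2 * y - 2 * max (max a y) b ∨
      (φ * min (max a y) b ≤ t + 2 * y - 2 * max (max a y) b ∧ min (max a y) b = min a b) := by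
  by_cases hc : a < b ∧ a < y
  · left
    rw [min_eq_left hc.1.le, max_eq_right hc.1.le] at h
    rw [max_eq_right hc.2.le]
    have e := min_add_max y b
    have m1 : a ≤ min y b := le_min hc.2.le hc.1.le
    have m2 := min_le_right y b
    rcases le_or_gt φ 0 with h0 | h0
    · nlinarith
    rcases le_or_gt (φ + κ - 2) 0 with h1 | h1
    · nlinarith
    have g1 : b ≤ (ρ - φ) / 2 * a := by linarith
    have := hκ ((ρ - φ) / 2) (le_of_mul_le_mul_right (by linarith) a0) (by ring)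
    have g2 := mul_le_mul_of_nonneg_left (m2.trans g1) h1.le
    have g3 : (φ + κ - 2) * ((ρ - φ) / 2) ≤ φ := by nlinarith
    nlinarith
  · have e : min (max a y) b = min a b := by
      rcases not_and_or.1 hc with h | h
      · rw [min_eq_right (not_lt.1 h), min_eq_right ((not_lt.1 h).trans (le_max_left _ _))]
      · rw [max_eq_left (not_lt.1 h)]
    refine Or.inr ⟨?_, e⟩
    have : max (max a y) b ≤ max a b + y := max_le (max_le (by linarith [le_max_left a b])
      (by linarith [le_max_left a b])) (by linarith [le_max_right a b])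
    rw [e]; linarith

lemma pot {u v t y : ℕ → ℝ} {ρ φ κ c : ℝ} (c0 : 0 < c) (u0 : ∀ n, 0 < u n) (v0 : ∀ n, 0 < v n)
    (y0 : ∀ n, c ≤ y n) (tu : ∀ n, t n ≤ ρ * u n) (tv : ∀ n, t n ≤ ρ * v n)
    (ht : ∀ n, t (n + 1) = t n + 2 * y n) (κ0 : 0 < κ) (k2 : κ ≤ 2)
    (hκ : ∀ g, 1 ≤ g → φ ≤ ρ - 2 * g → κ * g ≤ 2 * g ^ 2 - ρ * (g - 1))
    (hs : ∀ n, (u (n + 1) = max (u n) (y n) ∧ v (n + 1) = v n) ∨
      (u (n + 1) = u n ∧ v (n + 1) = max (v n) (y n))) {n : ℕ}
    (h : φ * min (u n) (v n) ≤ t n - 2 * max (u n) (v n)) : False := by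
  have tm : ∀ n, t n ≤ ρ * min (u n) (v n) := fun n => by
    rcases le_total (u n) (v n) with h | h
    · rw [min_eq_left h]; exact tu n
    · rw [min_eq_right h]; exact tv n
  have A : ∀ k : ℕ, ∃ n, (φ + k * κ) * min (u n) (v n) ≤ t n - 2 * max (u n) (v n) := fun k => by
    induction k with
    | zero => exact ⟨n, by simpa using h⟩
    | succ k ih =>
      obtain ⟨n, hn⟩ := ih
      by_contra hc
      rw [show φ + (k + 1 : ℕ) * κ = φ + k * κ + κ by push_cast; ring] at hc
      have hk : ∀ g, 1 ≤ g → ρ - 2 * g = φ + k * κ → κ * g ≤ 2 * g ^ 2 - ρ * (g - 1) :=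
        fun g h1 h2 => hκ g h1 (by rw [h2]; exact le_add_of_nonneg_right (by positivity))
      have B : ∀ j : ℕ, (φ + k * κ) * min (u (n + j)) (v (n + j)) ≤
          t (n + j) - 2 * max (u (n + j)) (v (n + j)) ∧
          min (u (n + j)) (v (n + j)) = min (u n) (v n) ∧ t n + j * c ≤ t (n + j) := fun j => by
        induction j with
        | zero => exact ⟨hn, rfl, by simp⟩
        | succ j ih =>
          obtain ⟨h1, h2, h3⟩ := ih
          have y1 := c0.trans_le (y0 (n + j))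
          have h4 := not_exists.1 hc (n + j + 1)
          rw [← add_assoc, ← h2]
          refine and_assoc.1 ⟨?_, by rw [ht]; push_cast; linarith [y0 (n + j)]⟩
          rcases hs (n + j) with ⟨e1, e2⟩ | ⟨e1, e2⟩ <;> rw [e1, e2, ht] at h4 ⊢
          · exact (step (u0 _) y1 (tu _) k2 hk h1).resolve_left h4
          · simp only [min_comm (u (n + j)), max_comm (u (n + j))] at h1 h4 ⊢
            exact (step (v0 _) y1 (tv _) k2 hk h1).resolve_left h4
      obtain ⟨j, hj⟩ := exists_nat_gt ((ρ * min (u n) (v n) - t n) / c)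
      rw [div_lt_iff₀ c0] at hj
      have := tm (n + j)
      rw [(B j).2.1] at this
      linarith [(B j).2.2]
  obtain ⟨k, hk⟩ := exists_nat_gt ((ρ - φ) / κ)
  rw [div_lt_iff₀ κ0] at hk
  obtain ⟨n, hn⟩ := A k
  nlinarith [tm n, lt_min (u0 n) (v0 n), le_max_left (u n) (v n), u0 n]

theorem lower {d W : ℝ} (hd : 0 < d) (hW : ∀ s > 0, W ≤ 5 + d + (2 + d) * s + 2 / s) :
    ENNReal.ofReal W ≤ V d := by
  classical
  refine le_iInf₂ fun x x0 => not_lt.1 fun hc => ?_
  obtain ⟨w, w0, h1, h2⟩ := ENNReal.lt_iff_exists_real_btwn.1 hc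
  have wW : w < W := (ENNReal.ofReal_lt_ofReal_iff_of_nonneg w0).1 h2
  have two : ∀ a b τ τ' p : ℝ, 0 ≤ p → p ≤ 1 → p * |a| + (1 - p) * |b| ≤ 1 → 0 ≤ τ → 0 ≤ τ' →
      ENNReal.ofReal τ ≤ C d x a → ENNReal.ofReal τ' ≤ C d x b → p * τ + (1 - p) * τ' ≤ w := by
    intro a b τ τ' p p0 p1 h t0 t1 ha hb
    have q0 : 0 ≤ 1 - p := by linarith
    have li : ∀ f : ℝ → ℝ≥0∞, ∫⁻ H, f H ∂(ENNReal.ofReal p • Measure.dirac a +
        ENNReal.ofReal (1 - p) • Measure.dirac b) =
        ENNReal.ofReal p * f a + ENNReal.ofReal (1 - p) * f b := fun f => by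
      simp [lintegral_add_measure, lintegral_smul_measure, lintegral_dirac]
    have of : ∀ s s' : ℝ, 0 ≤ s → 0 ≤ s' → ENNReal.ofReal p * ENNReal.ofReal s +
        ENNReal.ofReal (1 - p) * ENNReal.ofReal s' = ENNReal.ofReal (p * s + (1 - p) * s') :=
      fun s s' _ _ => by
        rw [ENNReal.ofReal_add (by positivity) (by positivity), ENNReal.ofReal_mul p0,
          ENNReal.ofReal_mul q0]
    have pr : IsProbabilityMeasure (ENNReal.ofReal p • Measure.dirac a +
        ENNReal.ofReal (1 - p) • Measure.dirac b) := ⟨by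
      simpa using (li fun _ => 1).trans (by simpa using of 1 1 zero_le_one zero_le_one)⟩
    have := (le_iSup₂_of_le (f := fun (h : ProbabilityMeasure ℝ)
      (_ : ∫⁻ H, ENNReal.ofReal |H| ∂(h : Measure ℝ) ≤ 1) => ∫⁻ H, C d x H ∂(h : Measure ℝ))
      ⟨_, pr⟩ (by
        show ∫⁻ H, _ ∂(_ + _) ≤ 1
        rw [li, of _ _ (abs_nonneg _) (abs_nonneg _)]
        exact ENNReal.ofReal_le_one.2 h) le_rfl).trans h1.le
    change ∫⁻ H, _ ∂(_ + _) ≤ _ at this
    rw [li] at this
    refine (ENNReal.ofReal_le_ofReal_iff w0).1 (le_trans ?_ this)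
    rw [← of _ _ t0 t1]
    gcongr
  set A := {r | ∃ b τ : ℝ, 1 < |b| ∧ 0 ≤ τ ∧ ENNReal.ofReal τ ≤ C d x b ∧ r = (τ - w) / (|b| - 1)}
  have bd : ∀ a τ : ℝ, |a| < 1 → 0 ≤ τ → ENNReal.ofReal τ ≤ C d x a →
      (w - τ) / (1 - |a|) ∈ upperBounds A := by
    rintro a τ ha t0 h _ ⟨b, τ', hb, t1, h', rfl⟩
    have p : 0 < |b| - |a| := by linarith
    have := two a b τ τ' ((|b| - 1) / (|b| - |a|)) (div_nonneg (by linarith) p.le)
      ((div_le_one p).2 (by linarith)) (le_of_eq (by field_simp; ring)) t0 t1 h h'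
    rw [div_le_div_iff₀ (by linarith) (by linarith)]
    rw [show (|b| - 1) / (|b| - |a|) * τ + (1 - (|b| - 1) / (|b| - |a|)) * τ' =
      ((|b| - 1) * τ + (1 - |a|) * τ') / (|b| - |a|) by field_simp; ring, div_le_iff₀ p] at this
    linarith
  have ne : A.Nonempty := ⟨_, 2, 0, by norm_num, le_rfl, by simp, rfl⟩
  have line : ∀ H τ : ℝ, 0 ≤ τ → ENNReal.ofReal τ ≤ C d x H → τ ≤ w + sSup A * (|H| - 1) :=
    fun H τ t0 h => by
      rcases lt_trichotomy |H| 1 with h3 | h3 | h3
      · have := (le_div_iff₀ (by linarith)).1 (csSup_le ne (bd H τ h3 t0 h))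
        linarith
      · simpa [h3] using two H H τ τ 1 zero_le_one le_rfl (by simp [h3]) t0 t0 h h
      · have := (div_le_iff₀ (by linarith)).1
          (le_csSup ⟨_, bd 0 0 (by simp) le_rfl (by simp)⟩ ⟨H, τ, h3, t0, h, rfl⟩)
        linarith
  set l := sSup A
  set E : ℝ → ℕ → ℝ := fun σ n =>
    Nat.rec 0 (fun k e => if (-1 : ℝ) ^ k = σ then max e (x k) else e) n with hE
  have Es : ∀ σ n, E σ (n + 1) = if (-1 : ℝ) ^ n = σ then max (E σ n) (x n) else E σ n :=
    fun _ _ => rfl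
  have mE : ∀ σ, Monotone (E σ) := fun σ => monotone_nat_of_le_succ fun n => by
    rw [Es]; split_ifs; exacts [le_max_left _ _, le_rfl]
  have E0 : ∀ σ n, 0 ≤ E σ n := fun σ n => mE σ (Nat.zero_le n)
  have Ts : ∀ n, T d x (n + 1) = T d x n + (2 * x n + d) := fun n => sum_range_succ _ _
  have mT : Monotone (T d x) := monotone_nat_of_le_succ fun n => by
    rw [Ts]; linarith [x0 n]
  have tE : ∀ σ : ℝ, σ = 1 ∨ σ = -1 → ∀ n, T d x n ≤ (l - 1) * E σ n + (w - l) := fun σ hσ n => by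
    have : ∀ ε > 0, T d x n ≤ (l - 1) * (E σ n + ε) + (w - l) := fun ε hε => by
      have p : 0 < E σ n + ε := by linarith [E0 σ n]
      have e : |σ * (E σ n + ε)| = E σ n + ε := by
        rcases hσ with h | h <;> rw [abs_mul, abs_of_pos p] <;> simp [h]
      have T0 : 0 ≤ T d x n := le_trans (by simp [T]) (mT (Nat.zero_le n))
      have := line (σ * (E σ n + ε)) (T d x n + (E σ n + ε)) (by linarith)
        (le_iInf₂ fun i hi => ENNReal.ofReal_le_ofReal (by
          obtain ⟨h3, h4⟩ := (mem (x0 i) i).1 hi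
          rw [e] at h4 ⊢
          have h5 : (-1 : ℝ) ^ i = σ := by
            rcases neg_one_pow_eq_or ℝ i with h | h <;> rcases hσ with h' | h' <;>
              rw [h] at h3 ⊢ <;> rw [h'] at h3 p ⊢ <;> linarith
          have : n ≤ i := not_lt.1 fun h => by
            have := mE σ (show i + 1 ≤ n from h)
            rw [Es, if_pos h5] at this
            linarith [le_max_right (E σ i) (x i)]
          linarith [mT this]))
      rw [e] at this
      linarith
    refine ge_of_tendsto (x := 𝓝[>] (0 : ℝ)) (f := fun ε => (l - 1) * (E σ n + ε) + (w - l))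
      (tendsto_nhdsWithin_of_tendsto_nhds (Continuous.tendsto' (by fun_prop) _ _ (by simp))) ?_
    exact eventually_mem_nhdsWithin.mono this
  have δ0 : 0 < W - w := by linarith
  have a0 := abs_nonneg (l - 1)
  refine pot (u := fun n => E 1 n + d / 2) (v := fun n => E (-1) n + d / 2)
    (t := fun n => T d x n - (w - l) + (l - 1) * (d / 2)) (y := fun n => x n + d / 2) (ρ := l - 1)
    (φ := l - 1 - 2 * (w - l) / d) (κ := 2 * (W - w) / (W - w + |l - 1|)) (half_pos hd)
    (fun n => by linarith [E0 1 n]) (fun n => by linarith [E0 (-1) n]) (fun n => by linarith [x0 n])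
    (fun n => by linarith [tE 1 (.inl rfl) n]) (fun n => by linarith [tE (-1) (.inr rfl) n])
    (fun n => by rw [Ts]; ring) (by positivity) ((div_le_iff₀ (by positivity)).2 (by linarith))
    (fun g g1 hg => ?_) (fun n => ?_) (n := 1) ?_
  · have g2 : g * d ≤ w - l := by
      have : 2 * g ≤ 2 * (w - l) / d := by linarith
      rw [le_div_iff₀ hd] at this; linarith
    have N : (W - w) * (g - 1) ≤ 2 * g ^ 2 - (l - 1) * (g - 1) := by
      rcases g1.eq_or_lt with h | h
      · simp [← h]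
      have := hW (g - 1) (by linarith)
      rw [← sub_le_iff_le_add', le_div_iff₀ (by linarith)] at this
      nlinarith
    rw [div_mul_eq_mul_div, div_le_iff₀ (by positivity)]
    nlinarith [mul_le_mul_of_nonneg_left N a0, mul_le_mul_of_nonneg_left (le_abs_self (l - 1))
      (mul_nonneg δ0.le (sub_nonneg.2 g1)), mul_nonneg δ0.le (mul_nonneg (sub_nonneg.2 g1)
      (zero_le_one.trans g1))]
  · simp only [Es]
    rcases neg_one_pow_eq_or ℝ n with h | h <;> rw [h]
    · exact .inl ⟨by rw [if_pos rfl, max_add_add_right], by rw [if_neg (by norm_num)]⟩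
    · exact .inr ⟨by rw [if_neg (by norm_num)], by rw [if_pos rfl, max_add_add_right]⟩
  · have e1 : E 1 1 = x 0 := by simp [hE, (x0 0).le]
    have e2 : E (-1) 1 = 0 := (Es (-1) 0).trans (if_neg (by norm_num))
    have := x0 0
    simp only [e1, e2, T, sum_range_one]
    rw [min_eq_right (by linarith), max_eq_left (by linarith)]
    apply le_of_eq; field_simp; ring

theorem final {d : ℝ} (hd : 0 < d) : V d = ENNReal.ofReal (5 + d + 2 * √(4 + 2 * d)) ∧
    V d < ENNReal.ofReal (9 + 2 * d) := by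
  have r0 : 0 < √(4 + 2 * d) := Real.sqrt_pos.2 (by linarith)
  have r2 : √(4 + 2 * d) ^ 2 = 4 + 2 * d := Real.sq_sqrt (by linarith)
  set r := √(4 + 2 * d)
  have e : V d = ENNReal.ofReal (5 + d + 2 * r) := by
    refine le_antisymm ((upper hd (s := 2 / r) (by positivity)).trans_eq ?_) (lower hd fun s hs => ?_)
    · congr 1
      rw [show 2 + d = r ^ 2 / 2 by linarith]; field_simp; ring
    · rw [show 2 + d = r ^ 2 / 2 by linarith, ← sub_le_iff_le_add', le_div_iff₀ hs]
      nlinarith [sq_nonneg (r * s - 2)]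
  refine ⟨e, e ▸ (ENNReal.ofReal_lt_ofReal_iff (by linarith)).2 ?_⟩
  have : r < 2 + d / 2 := lt_of_pow_lt_pow_left₀ 2 (by linarith) (by nlinarith)
  linarith

end Pool.Agent.Lib.helper1.Tc
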