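import Mathlib

set_option autoImplicit false

namespace Pool.Agent.Lib.helper1.Tq

open MeasureTheory ProbabilityTheory Set Filter Topology
open scoped ENNReal

section cons
variable {X : Type*} [MeasurableSpace X]

def cons (p : X × (ℕ → X)) : ℕ → X := fun n => Nat.casesOn (motive := fun _ => X) n p.1 p.2

lemma meas_cons : Measurable (cons (X := X)) := by
  refine measurable_pi_lambda _ fun n => ?_
  cases n with
  | zero => exact measurable_fst
  | succ n => exact (measurable_pi_apply n).comp measurable_snd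

lemma map_cons (μ : Measure X) [IsProbabilityMeasure μ] :
    (μ.prod (Measure.infinitePi fun _ : ℕ => μ)).map cons = Measure.infinitePi fun _ : ℕ => μ := by
  classical
  refine Measure.eq_infinitePi _ fun s t ht => ?_
  obtain ⟨N, hN⟩ : ∃ N, s ⊆ Finset.range (N + 1) :=
    ⟨s.sup id, fun i hi => Finset.mem_range.2 (Nat.lt_succ_of_le (Finset.le_sup (f := id) hi))⟩
  set t' : ℕ → Set X := fun i => if i ∈ s then t i else univ with ht'
  have mt' : ∀ i, MeasurableSet (t' i) := fun i => by
    simp only [ht']; split_ifs; exacts [ht i, .univ]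
  have e1 : cons ⁻¹' (Set.pi s t) = t' 0 ×ˢ Set.pi (Finset.range N) (fun n => t' (n + 1)) := by
    ext ⟨a, ω⟩
    simp only [mem_preimage, Set.mem_pi, Finset.mem_coe, mem_prod, Finset.mem_range, ht']
    constructor
    · intro h
      refine ⟨?_, fun n _ => ?_⟩
      · split_ifs with h0; exacts [h 0 h0, trivial]
      · split_ifs with h0; exacts [h _ h0, trivial]
    · rintro ⟨h0, h1⟩ i hi
      cases i with
      | zero => rw [if_pos hi] at h0; exact h0
      | succ n =>
        have := h1 n (by have := Finset.mem_range.1 (hN hi); omega)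
        rw [if_pos hi] at this; exact this
  rw [Measure.map_apply meas_cons (MeasurableSet.pi s.countable_toSet fun i _ => ht i), e1,
    Measure.prod_prod, Measure.infinitePi_pi _ (fun i _ => mt' _), mul_comm,
    ← Finset.prod_range_succ' (fun i => μ (t' i)) N,
    ← Finset.prod_subset hN (fun i _ hi => by simp [ht', hi])]
  exact Finset.prod_congr rfl fun i hi => by simp [ht', hi]
end cons

variable {W M : Type*} [MeasurableSpace W] [MeasurableSpace M]

/-- state just after the `n`-th jump -/
def after (φ : ℝ → W → W) (j : W → M → W) (w : W) (ω : ℕ → ℝ × M) (n : ℕ) : W :=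
  Nat.rec w (fun k x => j (φ (ω k).1 x) (ω k).2) n

noncomputable def arr (ω : ℕ → ℝ × M) (n : ℕ) : ℝ := ∑ k ∈ Finset.range n, (ω k).1

noncomputable def cnt (ω : ℕ → ℝ × M) (t : ℝ) : ℕ := sInf {n | t < arr ω (n + 1)}

noncomputable def work (φ : ℝ → W → W) (j : W → M → W) (w : W) (ω : ℕ → ℝ × M) (t : ℝ) : W :=
  φ (t - arr ω (cnt ω t)) (after φ j w ω (cnt ω t))

omit [MeasurableSpace M] in
lemma arr_cons (a : ℝ × M) (ω : ℕ → ℝ × M) (n : ℕ) :
    arr (cons (a, ω)) (n + 1) = arr ω n + a.1 := by
  unfold arr; rw [Finset.sum_range_succ']; rfl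

omit [MeasurableSpace M] [MeasurableSpace W] in
lemma after_cons (φ : ℝ → W → W) (j : W → M → W) (w : W) (a : ℝ × M) (ω : ℕ → ℝ × M) (n : ℕ) :
    after φ j w (cons (a, ω)) (n + 1) = after φ j (j (φ a.1 w) a.2) ω n := by
  induction n with
  | zero => rfl
  | succ n ih =>
    show j (φ (ω n).1 (after φ j w (cons (a, ω)) (n + 1))) (ω n).2 = _
    rw [ih]; rfl

omit [MeasurableSpace M] [MeasurableSpace W] in
lemma work_cons (φ : ℝ → W → W) (j : W → M → W) (w : W) (a : ℝ × M) (ω : ℕ → ℝ × M) (t : ℝ)
    (h : ∃ n, t - a.1 < arr ω (n + 1)) :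
    work φ j w (cons (a, ω)) t =
      if t < a.1 then φ t w else work φ j (j (φ a.1 w) a.2) ω (t - a.1) := by
  split_ifs with ht
  · have : cnt (cons (a, ω)) t = 0 := by
      apply Nat.sInf_eq_zero.2; left
      show t < arr _ (0 + 1)
      rw [arr_cons]; simpa [arr] using ht
    unfold work; rw [this]; simp [arr, after]
  · have : cnt (cons (a, ω)) t = cnt ω (t - a.1) + 1 := by
      have hm := Nat.sInf_mem (s := {n | t - a.1 < arr ω (n + 1)}) h
      apply le_antisymm
      · apply Nat.sInf_le
        show t < arr _ (_ + 1)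
        rw [arr_cons]; have : t - a.1 < arr ω (cnt ω (t - a.1) + 1) := hm
        linarith
      · refine le_csInf ⟨cnt ω (t - a.1) + 1, ?_⟩ fun n hn => ?_
        · show t < arr _ (_ + 1)
          rw [arr_cons]; have : t - a.1 < arr ω (cnt ω (t - a.1) + 1) := hm
          linarith
        · have hn' : t < arr (cons (a, ω)) (n + 1) := hn
          rw [arr_cons] at hn'
          cases n with
          | zero => exact absurd (by simpa [arr] using hn') ht
          | succ n =>
            have : cnt ω (t - a.1) ≤ n := Nat.sInf_le (show t - a.1 < arr ω (n + 1) by linarith)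
            omega
    unfold work; rw [this, arr_cons, after_cons]; congr 1; ring

lemma meas_arr (n : ℕ) : Measurable fun ω : ℕ → ℝ × M => arr ω n :=
  Finset.measurable_sum _ fun k _ => measurable_fst.comp (measurable_pi_apply k)

lemma meas_cnt : Measurable fun p : (ℕ → ℝ × M) × ℝ => cnt p.1 p.2 := by
  have hp : ∀ n, MeasurableSet {p : (ℕ → ℝ × M) × ℝ | p.2 < arr p.1 (n + 1)} := fun n =>
    measurableSet_lt measurable_snd ((meas_arr _).comp measurable_fst)
  refine measurable_to_countable' fun k => ?_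
  have : (fun p : (ℕ → ℝ × M) × ℝ => cnt p.1 p.2) ⁻¹' {k} =
      ({p | p.2 < arr p.1 (k + 1)} ∩ ⋂ i, ⋂ (_ : i < k), {p | p.2 < arr p.1 (i + 1)}ᶜ) ∪
      (⋂ (_ : k ≠ 0), ∅) ∩ ⋂ i, {p | p.2 < arr p.1 (i + 1)}ᶜ := by
    ext p
    simp only [mem_preimage, mem_singleton_iff, mem_union, mem_inter_iff, mem_setOf_eq, mem_iInter,
      mem_compl_iff, mem_empty_iff_false]
    constructor
    · rintro rfl
      by_cases h : ∃ n, p.2 < arr p.1 (n + 1)
      · exact Or.inl ⟨Nat.sInf_mem (s := {n | p.2 < arr p.1 (n + 1)}) h,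
          fun i hi => Nat.notMem_of_lt_sInf hi⟩
      · push Not at h
        refine Or.inr ⟨fun h0 => h0 (Nat.sInf_eq_zero.2 (Or.inr ?_)), fun i => not_lt.2 (h i)⟩
        exact eq_empty_of_forall_notMem fun i hi => absurd hi (not_lt.2 (h i))
    · rintro (⟨h1, h2⟩ | ⟨h1, h2⟩)
      · refine le_antisymm (Nat.sInf_le h1) (le_csInf ⟨k, h1⟩ fun n hn => ?_)
        by_contra hc
        exact h2 n (not_le.1 hc) hn
      · have : k = 0 := by by_contra hc; exact h1 hc
        rw [this]
        exact Nat.sInf_eq_zero.2 (Or.inr (eq_empty_of_forall_notMem fun i hi => h2 i hi))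
  rw [this]
  exact ((hp k).inter (.iInter fun i => .iInter fun _ => (hp i).compl)).union
    ((MeasurableSet.iInter fun _ => .empty).inter (.iInter fun i => (hp i).compl))

variable {φ : ℝ → W → W} {j : W → M → W}

lemma meas_after (hφ : Measurable fun p : ℝ × W => φ p.1 p.2)
    (hj : Measurable fun p : W × M => j p.1 p.2) (n : ℕ) :
    Measurable fun p : W × (ℕ → ℝ × M) => after φ j p.1 p.2 n := by
  induction n with
  | zero => exact measurable_fst
  | succ n ih =>
    have h1 : Measurable fun p : W × (ℕ → ℝ × M) => p.2 n :=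
      (measurable_pi_apply n).comp measurable_snd
    exact hj.comp ((hφ.comp (h1.fst.prodMk ih)).prodMk h1.snd)

lemma meas_work (hφ : Measurable fun p : ℝ × W => φ p.1 p.2)
    (hj : Measurable fun p : W × M => j p.1 p.2) :
    Measurable fun p : (ℝ × W) × (ℕ → ℝ × M) => work φ j p.1.2 p.2 p.1.1 := by
  have h : Measurable fun q : ((ℝ × W) × (ℕ → ℝ × M)) × ℕ =>
      φ (q.1.1.1 - arr q.1.2 q.2) (after φ j q.1.1.2 q.1.2 q.2) := by
    refine measurable_from_prod_countable_left fun n => ?_
    exact hφ.comp ((measurable_fst.fst.sub ((meas_arr n).comp measurable_snd)).prodMk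
      ((meas_after hφ hj n).comp (measurable_fst.snd.prodMk measurable_snd)))
  exact h.comp (measurable_id.prodMk (meas_cnt.comp (measurable_snd.prodMk measurable_fst.fst)))

/-! exponential law -/

lemma lint_exp {l : ℝ} (F : ℝ → ℝ≥0∞) (hF : Measurable F) :
    ∫⁻ r, F r ∂(expMeasure l) = ∫⁻ r in Ici 0, ENNReal.ofReal (l * Real.exp (-(l * r))) * F r := by
  have hm : Measurable (exponentialPDF l) := (measurable_exponentialPDFReal l).ennreal_ofReal
  show ∫⁻ r, F r ∂(volume.withDensity (exponentialPDF l)) = _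
  rw [lintegral_withDensity_eq_lintegral_mul _ hm hF, ← lintegral_indicator measurableSet_Ici]
  refine lintegral_congr fun r => ?_
  by_cases h : 0 ≤ r
  · rw [indicator_of_mem (show r ∈ Ici 0 from h), Pi.mul_apply, exponentialPDF_of_nonneg h]
  · rw [indicator_of_notMem (show r ∉ Ici 0 from h), Pi.mul_apply,
      exponentialPDF_of_neg (not_le.1 h), zero_mul]

lemma exp_Iic {l : ℝ} (hl : 0 < l) {t : ℝ} (ht : 0 ≤ t) :
    expMeasure l (Iic t) = ENNReal.ofReal (1 - Real.exp (-(l * t))) := by
  haveI := isProbabilityMeasure_expMeasure hl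
  rw [← ofReal_cdf, cdf_expMeasure_eq hl, if_pos ht]

lemma exp_Ioi {l : ℝ} (hl : 0 < l) {t : ℝ} (ht : 0 ≤ t) :
    expMeasure l (Ioi t) = ENNReal.ofReal (Real.exp (-(l * t))) := by
  haveI := isProbabilityMeasure_expMeasure hl
  rw [← compl_Iic, prob_compl_eq_one_sub measurableSet_Iic, exp_Iic hl ht, ← ENNReal.ofReal_one,
    ← ENNReal.ofReal_sub _ (by
      have : Real.exp (-(l * t)) ≤ 1 := Real.exp_le_one_iff.2 (by nlinarith)
      linarith)]
  congr 1; ring

lemma exp_ac (l : ℝ) : expMeasure l ≪ volume := withDensity_absolutelyContinuous _ _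

lemma exp_nonneg (l : ℝ) : ∀ᵐ r ∂(expMeasure l), 0 ≤ r := by
  rw [ae_iff]
  have := lint_exp (l := l) (indicator (Iio 0) 1) (measurable_one.indicator measurableSet_Iio)
  rw [lintegral_indicator_one measurableSet_Iio] at this
  simp only [not_le]
  show expMeasure l (Iio 0) = 0
  rw [this, setLIntegral_congr_fun measurableSet_Ici (g := fun _ => 0)
    (fun r hr => by simp [indicator, show ¬ r < 0 from not_lt.2 hr])]
  simp

lemma memoryless {l : ℝ} (hl : 0 < l) (F : ℝ → ℝ≥0∞) (hF : Measurable F) {t : ℝ} (ht : 0 ≤ t) :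
    ∫⁻ r, (if t < r then F (r - t) else 0) ∂(expMeasure l) =
      ENNReal.ofReal (Real.exp (-(l * t))) * ∫⁻ r, F r ∂(expMeasure l) := by
  have hm : Measurable fun r => if t < r then F (r - t) else 0 :=
    Measurable.ite (measurableSet_lt measurable_const measurable_id)
      (hF.comp (measurable_id.sub_const t)) measurable_const
  rw [lint_exp _ hm, lint_exp _ hF, ← lintegral_const_mul _ (by fun_prop),
    ← lintegral_indicator measurableSet_Ici, ← lintegral_add_right_eq_self _ t,
    ← setLIntegral_congr Ioi_ae_eq_Ici, ← lintegral_indicator measurableSet_Ioi]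
  refine lintegral_congr fun r => ?_
  by_cases h : 0 < r
  · rw [indicator_of_mem (show r + t ∈ Ici 0 from by show 0 ≤ r + t; linarith),
      indicator_of_mem (show r ∈ Ioi 0 from h), if_pos (by linarith), ← mul_assoc,
      ← ENNReal.ofReal_mul (Real.exp_pos _).le, add_sub_cancel_right]
    congr 2
    rw [mul_add, neg_add, Real.exp_add]; ring
  · rw [indicator_of_notMem (show r ∉ Ioi 0 from h)]
    by_cases h' : r + t ∈ Ici (0 : ℝ)
    · rw [indicator_of_mem h', if_neg (by linarith [not_lt.1 h]), mul_zero]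
    · rw [indicator_of_notMem h']

end Pool.Agent.Lib.helper1.Tq
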