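import Pool.Agent.Lib.helper1.Tq6

set_option autoImplicit false

namespace Pool.Agent.Lib.helper1.Tq

def X3 (a b c : ℤ) : ℤ := max a 0 + max b 0 + max c 0

def Q3 (a b c : ℤ) : ℤ := max (min (-a) c) 0 + max (min a (-b)) 0 + max (min b (-c)) 0

def lift3 (h : ℤ → ℤ → ℤ → ℤ) (d : Fin 3 → ℤ) : ℤ := h (d 0) (d 1) (d 2)

def P3 (h : ℤ → ℤ → ℤ → ℤ) (N y z w a b c : ℤ) : ℤ :=
  (if 1 ≤ a then h (a - y) b (c + y) + h (a - z) b (c + z) else 2 * N + 2 * h (a + w) (b - w) c) +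
  (if 1 ≤ b then h (a + y) (b - y) c + h (a + z) (b - z) c else 2 * N + 2 * h a (b + w) (c - w)) +
  (if 1 ≤ c then h a (b + y) (c - y) + h a (b + z) (c - z) else 2 * N + 2 * h (a - w) b (c + w)) -
  6 * h a b c

lemma P3_eq (h : ℤ → ℤ → ℤ → ℤ) (N y z w : ℤ) (d : Fin 3 → ℤ) :
    2 * (N : ℝ) * NR d + JZ (lift3 h) y z w d - 6 * lift3 h d =
      (P3 h N y z w (d 0) (d 1) (d 2) : ℤ) := by
  have : 2 * N * NR d + JZ (lift3 h) y z w d - 6 * lift3 h d = P3 h N y z w (d 0) (d 1) (d 2) := by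
    simp only [NR, JZ, P3, lift3, jz, Fin.sum_univ_three]
    simp only [Fin.reduceAdd, Fin.reduceEq, if_true, if_false]
    split_ifs <;> ring
  rw [← this]; push_cast; ring

lemma lip3 {h : ℤ → ℤ → ℤ → ℤ} {L z : ℤ}
    (h0 : ∀ a b c, |h (a - z) b (c + z) - h a b c| ≤ L ∧ |h (a + z) (b - z) c - h a b c| ≤ L ∧
      |h a (b + z) (c - z) - h a b c| ≤ L) (d : Fin 3 → ℤ) (k : Fin 3) :
    |lift3 h (jz d k z) - lift3 h d| ≤ L := by
  obtain ⟨p, q, r⟩ := h0 (d 0) (d 1) (d 2)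
  fin_cases k
  · simpa [lift3, jz] using p
  · simpa [lift3, jz] using q
  · simpa [lift3, jz] using r

lemma XQ_lip (a b c z : ℤ) (h : 0 ≤ z) :
    (|X3 (a - z) b (c + z) - X3 a b c| ≤ z ∧ |Q3 (a - z) b (c + z) - Q3 a b c| ≤ 2 * z) ∧
    (|X3 (a + z) (b - z) c - X3 a b c| ≤ z ∧ |Q3 (a + z) (b - z) c - Q3 a b c| ≤ 2 * z) ∧
    (|X3 a (b + z) (c - z) - X3 a b c| ≤ z ∧ |Q3 a (b + z) (c - z) - Q3 a b c| ≤ 2 * z) := by
  simp only [abs_le, X3, Q3]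
  refine ⟨⟨⟨?_, ?_⟩, ?_, ?_⟩, ⟨⟨?_, ?_⟩, ?_, ?_⟩, ⟨?_, ?_⟩, ?_, ?_⟩ <;> omega

lemma lipXQ {h : ℤ → ℤ → ℤ → ℤ} {α β u v L z : ℤ} (hz : 0 ≤ z)
    (hb : ∀ a b c, u ≤ h a b c - (α * X3 a b c + β * Q3 a b c) ∧
      h a b c - (α * X3 a b c + β * Q3 a b c) ≤ v) (hL : |α| * z + |β| * (2 * z) + (v - u) ≤ L)
    (d : Fin 3 → ℤ) (k : Fin 3) : |lift3 h (jz d k z) - lift3 h d| ≤ L := by
  have key : ∀ a b c a' b' c', |X3 a' b' c' - X3 a b c| ≤ z ∧ |Q3 a' b' c' - Q3 a b c| ≤ 2 * z →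
      |h a' b' c' - h a b c| ≤ L := fun a b c a' b' c' ⟨p, q⟩ => by
    have p1 : |α * (X3 a' b' c' - X3 a b c)| ≤ |α| * z := by
      rw [abs_mul]; exact mul_le_mul_of_nonneg_left p (abs_nonneg _)
    have q1 : |β * (Q3 a' b' c' - Q3 a b c)| ≤ |β| * (2 * z) := by
      rw [abs_mul]; exact mul_le_mul_of_nonneg_left q (abs_nonneg _)
    have := hb a b c; have := hb a' b' c'
    rw [abs_le] at *
    constructor <;> linarith [p1.1, p1.2, q1.1, q1.2]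
  refine lip3 (fun a b c => ?_) d k
  obtain ⟨p, q, r⟩ := XQ_lip a b c z hz
  exact ⟨key _ _ _ _ _ _ p, key _ _ _ _ _ _ q, key _ _ _ _ _ _ r⟩

def hA0 (a b c : ℤ) : ℤ := -31 * X3 a b c + -1 * Q3 a b c - if X3 a b c = 0 then 13 else 0

def hA1 (a b c : ℤ) : ℤ := -3 * X3 a b c + -2 * Q3 a b c - if X3 a b c = 1 then 2 else 0

def gL (α β κ a b c : ℤ) : ℤ := α * X3 a b c + β * Q3 a b c + κ

lemma gL_rot (α β κ a b c : ℤ) : gL α β κ a b c = gL α β κ b c a := by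
  unfold gL X3 Q3; rw [min_comm (-b) a, min_comm c (-a)]; ring

lemma P3_rot {h : ℤ → ℤ → ℤ → ℤ} (hr : ∀ a b c, h a b c = h b c a) (N y z w a b c : ℤ) :
    P3 h N y z w a b c = P3 h N y z w b c a := by
  unfold P3
  rw [hr (a - y), hr (a - z), hr (a + w), hr (a + y), hr (a + z), hr a (b + w), hr a (b + y),
    hr a (b + z), hr (a - w), hr a b]
  ring

lemma gL1 (α β κ : ℤ) {a b c : ℤ} (h1 : 0 ≤ a) (h2 : c ≤ 0) (h3 : 0 ≤ a + b) (h4 : b + c ≤ 0) :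
    gL α β κ a b c = α * (a + max b 0) + β * (max (-b) 0 + max b 0) + κ := by
  have : X3 a b c = a + max b 0 := by unfold X3; omega
  have : Q3 a b c = max (-b) 0 + max b 0 := by unfold Q3; omega
  simp only [gL, *]

lemma gL2 (α β κ : ℤ) {a b c : ℤ} (h1 : a ≤ 0) (h2 : 0 ≤ c) :
    gL α β κ a b c = α * (c + max b 0) + β * (c - max (a + c) 0) + κ := by
  have : X3 a b c = c + max b 0 := by unfold X3; omega
  have : Q3 a b c = c - max (a + c) 0 := by unfold Q3; omega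
  simp only [gL, *]

lemma far_cases {p : ℤ → ℤ → ℤ → Prop} {s : ℤ → Prop} (hs : ∀ x, s x → 0 ≤ x ∧ x ≤ 2)
    (rot : ∀ a b c, p b c a → p a b c)
    (h1 : ∀ a b c, s (a + b + c) → 5 ≤ a → c ≤ -5 → p a b c)
    (h2 : ∀ a b c, s (a + b + c) → a ≤ -5 → 5 ≤ c → p a b c) (a b c : ℤ) (h : s (a + b + c))
    (hX : 13 ≤ X3 a b c) : p a b c := by
  have h' : s (b + c + a) := by rwa [show b + c + a = a + b + c by ring]
  have h'' : s (c + a + b) := by rwa [show c + a + b = a + b + c by ring]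
  have := hs _ h
  unfold X3 at hX
  rcases (by omega : (5 ≤ a ∧ c ≤ -5) ∨ (a ≤ -5 ∧ 5 ≤ c) ∨ (5 ≤ b ∧ a ≤ -5) ∨ (b ≤ -5 ∧ 5 ≤ a) ∨
    (5 ≤ c ∧ b ≤ -5) ∨ (c ≤ -5 ∧ 5 ≤ b)) with q | q | q | q | q | q
  exacts [h1 _ _ _ h q.1 q.2, h2 _ _ _ h q.1 q.2, rot _ _ _ (h1 _ _ _ h' q.1 q.2),
    rot _ _ _ (h2 _ _ _ h' q.1 q.2), rot _ _ _ (rot _ _ _ (h1 _ _ _ h'' q.1 q.2)),
    rot _ _ _ (rot _ _ _ (h2 _ _ _ h'' q.1 q.2))]

lemma farA0 (a b c : ℤ) (h0 : a + b + c = 0) (h : 13 ≤ X3 a b c) :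
    246 ≤ P3 (gL (-31) (-1) 0) 60 1 1 1 a b c := by
  refine far_cases (s := fun x => x = 0) (p := fun a b c => 246 ≤ P3 (gL (-31) (-1) 0) 60 1 1 1 a b c)
    (fun x h => by omega) (fun a b c h => by rwa [P3_rot (gL_rot _ _ _)])
    (fun a b c h h1 h2 => ?_) (fun a b c h h1 h2 => ?_) a b c h0 h
  · simp (disch := omega) only [P3, gL1]; split_ifs <;> omega
  · simp (disch := omega) only [P3, gL2]; split_ifs <;> omega

lemma farA1 (a b c : ℤ) (h0 : a + b + c = 1) (h : 13 ≤ X3 a b c) :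
    38 ≤ P3 (gL (-3) (-2) 0) 11 1 1 1 a b c := by
  refine far_cases (s := fun x => x = 1) (p := fun a b c => 38 ≤ P3 (gL (-3) (-2) 0) 11 1 1 1 a b c)
    (fun x h => by omega) (fun a b c h => by rwa [P3_rot (gL_rot _ _ _)])
    (fun a b c h h1 h2 => ?_) (fun a b c h h1 h2 => ?_) a b c h0 h
  · simp (disch := omega) only [P3, gL1]; split_ifs <;> omega
  · simp (disch := omega) only [P3, gL2]; split_ifs <;> omega

lemma potL (a b c : ℤ) (h0 : 0 ≤ a + b + c ∧ a + b + c ≤ 2) (h : 13 ≤ X3 a b c) :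
    P3 (gL 30 13 140) 100 1 3 2 a b c ≤ 339 := by
  refine far_cases (s := fun x => 0 ≤ x ∧ x ≤ 2)
    (p := fun a b c => P3 (gL 30 13 140) 100 1 3 2 a b c ≤ 339)
    (fun x h => h) (fun a b c h => by rwa [P3_rot (gL_rot _ _ _)])
    (fun a b c h h1 h2 => ?_) (fun a b c h h1 h2 => ?_) a b c h0 h
  · simp (disch := omega) only [P3, gL1]
    rcases (by omega : b ≤ -4 ∨ (-3 ≤ b ∧ b ≤ 0) ∨ (1 ≤ b ∧ b ≤ 5) ∨ 6 ≤ b) with h3 | h3 | h3 | h3 <;>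
    split_ifs <;> omega
  · simp (disch := omega) only [P3, gL2]
    rcases (by omega : b ≤ -4 ∨ (-3 ≤ b ∧ b ≤ 0) ∨ (1 ≤ b ∧ b ≤ 5) ∨ 6 ≤ b) with h3 | h3 | h3 | h3 <;>
    split_ifs <;> omega

lemma boxA : ∀ i j : Fin 27,
    246 ≤ P3 hA0 60 1 1 1 ((i : ℕ) - 13) ((j : ℕ) - 13) (26 - (i : ℕ) - (j : ℕ)) ∧
    38 ≤ P3 hA1 11 1 1 1 ((i : ℕ) - 13) ((j : ℕ) - 13) (27 - (i : ℕ) - (j : ℕ)) := by
  decide +kernel

lemma hA0_far {a b c : ℤ} (h : 2 ≤ X3 a b c) : hA0 a b c = gL (-31) (-1) 0 a b c := by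
  unfold hA0 gL; rw [if_neg (by omega), sub_zero, add_zero]

lemma hA1_far {a b c : ℤ} (h : 2 ≤ X3 a b c) : hA1 a b c = gL (-3) (-2) 0 a b c := by
  unfold hA1 gL; rw [if_neg (by omega), sub_zero, add_zero]

lemma potA0 (a b c : ℤ) (h : a + b + c = 0) : 246 ≤ P3 hA0 60 1 1 1 a b c := by
  by_cases hX : 13 ≤ X3 a b c
  · refine le_of_le_of_eq (farA0 a b c h hX) ?_
    unfold P3
    repeat rw [hA0_far (by unfold X3 at *; omega)]
  · unfold X3 at *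
    have := (boxA ⟨(a + 13).toNat, by omega⟩ ⟨(b + 13).toNat, by omega⟩).1
    dsimp only at this
    convert this using 2 <;> omega

lemma potA1 (a b c : ℤ) (h : a + b + c = 1) : 38 ≤ P3 hA1 11 1 1 1 a b c := by
  by_cases hX : 13 ≤ X3 a b c
  · refine le_of_le_of_eq (farA1 a b c h hX) ?_
    unfold P3
    repeat rw [hA1_far (by unfold X3 at *; omega)]
  · unfold X3 at *
    have := (boxA ⟨(a + 13).toNat, by omega⟩ ⟨(b + 13).toNat, by omega⟩).2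
    dsimp only at this
    convert this using 2 <;> omega

def tb : List ℤ :=
  [0, 0, 0, 0, 0, 0, 0, 0, 0, 0, 0, 0, 0, 0, 0, 0, -24, -85, -84, -124, -93, -3, 0, 0, 0, 0,
   -10, -6, -45, -100, -72, 6, -44, 0, 0, 0, -74, -64, -50, -80, -64, -17, -62, -74, 0, 0, -44,
   -62, -40, -11, -43, 10, -40, -64, -10, 0, -3, 6, -17, 10, 36, 36, -11, -50, -6, -24, 0, -93,
   -72, -64, -43, 36, -43, -80, -45, -85, 0, 0, -124, -100, -80, -11, 10, -64, -100, -84, 0, 0,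
   0, -84, -45, -50, -40, -17, -72, -124, 0, 0, 0, 0, -85, -6, -64, -62, 6, -93, 0, 0, 0, 0, 0,
   -24, -10, -74, -44, -3, 0, 0, 0, 0, 0, 0, 0, 0, 0, 0, 0, 0, 0, 0, 0, 0, 0, 0, 0, 0, 0, 0, 0,
   0, 0, 0, 0, 0, 0, 0, 0, 0, -3, -74, -99, -140, -107, -14, 0, 0, 0, 0, -90, -74, -113, -122,
   -90, -9, -62, 0, 0, 0, -62, -88, -60, -95, -91, -40, -88, -90, 0, 0, -14, -9, -40, -8, -45,
   -8, -60, -74, -3, 0, 0, -107, -90, -91, -45, -45, -95, -113, -74, 0, 0, 0, -140, -122, -95,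
   -8, -91, -122, -99, 0, 0, 0, 0, -99, -113, -60, -40, -90, -140, 0, 0, 0, 0, 0, -74, -74, -88,
   -9, -107, 0, 0, 0, 0, 0, 0, -3, -90, -62, -14, 0, 0, 0, 0, 0]

def hB (a b c : ℤ) : ℤ := gL 30 13 140 a b c +
  if X3 a b c < 6 then tb.getD (((a + b + c - 1) * 11 + (a + 5)) * 11 + (b + 5)).toNat 0 else 0

lemma tb_bd (i : ℕ) : -140 ≤ tb.getD i 0 ∧ tb.getD i 0 ≤ 36 := by
  have h : ∀ x ∈ tb, -140 ≤ x ∧ x ≤ 36 := by decide +kernel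
  rw [List.getD_eq_getElem?_getD]
  cases e : tb[i]? with
  | none => simp
  | some x => exact h x (List.mem_of_getElem? e)

lemma hB_bd (a b c : ℤ) : 0 ≤ hB a b c - (30 * X3 a b c + 13 * Q3 a b c) ∧
    hB a b c - (30 * X3 a b c + 13 * Q3 a b c) ≤ 176 := by
  have := tb_bd (((a + b + c - 1) * 11 + (a + 5)) * 11 + (b + 5)).toNat
  unfold hB gL; split_ifs <;> omega

lemma hB_far {a b c : ℤ} (h : 6 ≤ X3 a b c) : hB a b c = gL 30 13 140 a b c := by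
  unfold hB; rw [if_neg (by omega), add_zero]

lemma potBox : ∀ i j : Fin 27, ∀ s : Fin 2,
    P3 hB 100 1 3 2 ((i : ℕ) - 13) ((j : ℕ) - 13) ((s : ℕ) + 27 - (i : ℕ) - (j : ℕ)) ≤ 339 := by
  decide +kernel

lemma potB (a b c : ℤ) (h : a + b + c = 1 ∨ a + b + c = 2 ∨ (a + b + c = 0 ∧ 13 ≤ X3 a b c)) :
    P3 hB 100 1 3 2 a b c ≤ 339 := by
  by_cases hX : 13 ≤ X3 a b c
  · refine le_of_eq_of_le ?_ (potL a b c (by omega) hX)
    unfold P3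
    repeat rw [hB_far (by unfold X3 at *; omega)]
  · unfold X3 at *
    have := potBox ⟨(a + 13).toNat, by omega⟩ ⟨(b + 13).toNat, by omega⟩
      ⟨(a + b + c - 1).toNat, by omega⟩
    dsimp only at this
    convert this using 2 <;> omega

end Pool.Agent.Lib.helper1.Tq
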