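import Pool.Agent.Lib.helper1.Tq8
import Pool.Agent.Lib.helper1.Tq9

set_option autoImplicit false

namespace Pool.Agent.Lib.helper1.Tq

open MeasureTheory ProbabilityTheory Set Filter Topology
open scoped ENNReal

section
variable {W M : Type*} [MeasurableSpace W] [MeasurableSpace M] (S : Sys W M)

lemma Sys.reach0 {A : Set W} (mA : MeasurableSet A) {t : ℝ} (ht : 0 ≤ t) {w : W}
    (h : S.φ t w ∈ A) : 0 < S.K t w A := by
  refine lt_of_lt_of_le ?_ (Measure.le_iff.1 (S.minor ht w) A mA)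
  simp [h, Real.exp_pos]

lemma Sys.reach1 {A : Set W} (mA : MeasurableSet A) {t r : ℝ} (h0 : 0 < r) (h1 : r ≤ t) {w : W}
    {m : M} (hm : 0 < S.ν {m})
    (h : ∀ s, 0 < s → s ≤ r → 0 < S.K (t - s) (S.j (S.φ s w) m) A) : 0 < S.K t w A := by
  rw [pos_iff_ne_zero]
  intro h2
  rw [S.K_set mA, S.first_jump (measurable_one.indicator mA), lintegral_eq_zero_iff
    (Measurable.ite (measurableSet_lt measurable_const measurable_fst) measurable_const
      (S.meas_step (S.meas_Q (measurable_one.indicator mA)) t w))] at h2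
  have h3 : S.μ (Ioc 0 r ×ˢ {m}) = 0 := by
    refine measure_mono_null (fun a ha => ?_) h2
    obtain ⟨s, m'⟩ := a
    obtain ⟨⟨p, q⟩, rfl⟩ : s ∈ Ioc 0 r ∧ m' = m := ha
    have := h s p q
    rw [S.K_set mA] at this
    simpa [show ¬ t < s by linarith] using this.ne'
  rw [Sys.μ, Measure.prod_prod, mul_eq_zero] at h3
  rcases h3 with h3 | h3
  · have e1 := exp_Ioi S.hl le_rfl
    have e2 := exp_Ioi S.hl h0.le
    rw [← Ioc_union_Ioi_eq_Ioi h0.le] at e1
    have := (measure_union_le (μ := expMeasure S.l) (Ioc 0 r) (Ioi r))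
    rw [e1, h3, zero_add, e2, ENNReal.ofReal_le_ofReal_iff (Real.exp_pos _).le,
      Real.exp_le_exp] at this
    nlinarith [S.hl]
  · exact hm.ne' h3
end

lemma UU_small {θ η K : ℝ} {H : (Fin 3 → ℤ) → ℤ} (θ0 : 0 < θ) {x : St} (hx : ∀ i, K ≤ x i)
    (hH : -1 ≤ η * H (dd 1 x)) (hK : 24 ≤ θ * (K - 1)) : UU 1 θ η H x ≤ 1 / 4 := by
  have : ∀ i, 2 * Real.exp (-(θ * x i)) * Real.exp (-(θ * (η * H (dd 1 x)))) ≤ 1 / 12 := fun i => by
    rw [mul_assoc, ← Real.exp_add, ← neg_add, Real.exp_neg, ← div_eq_mul_inv,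
      div_le_iff₀ (Real.exp_pos _)]
    nlinarith [Real.add_one_le_exp (θ * x i + θ * (η * H (dd 1 x))), hx i]
  unfold UU
  rw [Finset.sum_mul, Fin.sum_univ_three]
  linarith [this 0, this 1, this 2]

instance pA : IsProbabilityMeasure (tp (1 / 2) 1 1) := prob_tp (by norm_num) (by norm_num) _ _
instance pB : IsProbabilityMeasure (tp (1 / 2) (1 / 2) (3 / 2)) :=
  prob_tp (by norm_num) (by norm_num) _ _
instance pR : IsProbabilityMeasure (tp (1 / 2000) 1 2) := prob_tp (by norm_num) (by norm_num) _ _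

lemma X0 (a b c : ℤ) : 0 ≤ X3 a b c ∧ 0 ≤ Q3 a b c := by unfold X3 Q3; constructor <;> positivity

lemma latA {H : (Fin 3 → ℤ) → ℤ} {L : ℤ}
    (h : ∀ z, 0 ≤ z → z ≤ 2 → ∀ d k, |H (jz d k z) - H d| ≤ L) : Lat 1 (1 / 2000) 1 1 1 1 1 H L :=
  ⟨le_rfl, by norm_num, by norm_num, by norm_num, one_pos, one_pos, by norm_num, by norm_num,
    by norm_num, fun d k z hz => h z (by omega) (by omega) d k⟩

lemma latA0 : Lat 1 (1 / 2000) 1 1 1 1 1 (lift3 hA0) 80 :=
  latA fun z h0 h1 => lipXQ (α := -31) (β := -1) (u := -13) (v := 0) h0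
    (fun a b c => by unfold hA0; split_ifs <;> omega) (by norm_num; omega)

lemma latA1 : Lat 1 (1 / 2000) 1 1 1 1 1 (lift3 hA1) 16 :=
  latA fun z h0 h1 => lipXQ (α := -3) (β := -2) (u := -2) (v := 0) h0
    (fun a b c => by unfold hA1; split_ifs <;> omega) (by norm_num; omega)

lemma latB : Lat 2 (1 / 2000) (1 / 2) (3 / 2) 1 3 2 (lift3 hB) 400 :=
  ⟨by norm_num, by norm_num, by norm_num, by norm_num, by norm_num, by norm_num, by norm_num,
    by norm_num, by norm_num, fun d k z hz => lipXQ (α := 30) (β := 13) (u := 0) (v := 176)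
      (by omega) hB_bd (by norm_num; omega) d k⟩

theorem stabQ1 : Stable 2.99899 (tp (1 / 2) 1 1) (tp (1 / 2000) 1 2) 0 := by
  refine stable0 (H := fun _ => 0) (L := 0) (by norm_num) (latA fun _ _ _ _ _ => by simp)
    (fun _ => le_rfl) (θ := 1 / 10 ^ 8) (N := 1) (c := 4) (m := 1.00033334) (K1 := 1) (by norm_num)
    (by norm_num) one_pos (by norm_num) (by norm_num) (by norm_num) (by norm_num) (by norm_num)
    (fun d hd => ?_) (fun _ _ _ _ => le_rfl)
  have : NR d ≤ 2 := by
    simp only [NR, XX, Fin.sum_univ_three] at *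
    split_ifs <;> omega
  have : (NR d : ℝ) ≤ 2 := by exact_mod_cast this
  simp [JZ]; linarith

theorem unstQ1 : ¬ Stable 2.99899 (tp (1 / 2) 1 1) (tp (1 / 2000) 1 2) (fun _ => 10 ^ 10) := by
  have hd : dd 1 (fun _ => 10 ^ 10) = fun _ => 0 := by funext i; simp [dd]
  refine unstable (by norm_num) latA0 (fun d => ?_) (θ := 1 / 10 ^ 8) (N := 60) (c := 246)
    (m := 1.000341) (s0 := 0) (by norm_num) (by norm_num) (by norm_num) (by norm_num) (by norm_num)
    (by norm_num) (by norm_num) (fun d hd => ?_) le_rfl (Sys.reach0 _ ((meas_TT _ _).inter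
      (measurableSet_le (meas_UU _ _ _ _) measurable_const)) le_rfl ?_)
  · have := X0 (d 0) (d 1) (d 2)
    unfold lift3 hA0; split_ifs <;> omega
  · have := P3_eq hA0 60 1 1 1 d
    push_cast at this
    rw [this]; exact_mod_cast potA0 _ _ _ (by simpa [Fin.sum_univ_three] using hd)
  · have : drain 0 (fun _ => 10 ^ 10) = fun _ => 10 ^ 10 := by funext i; simp [drain]
    show drain 0 _ ∈ _
    rw [this]
    refine ⟨⟨fun _ => by norm_num, by simp [hd]⟩, UU_small (K := 10 ^ 10) (by norm_num)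
      (fun _ => le_rfl) ?_ (by norm_num)⟩
    rw [hd]; norm_num [lift3, hA0, X3, Q3]

theorem stabQ2 : Stable 2.9991425 (tp (1 / 2) (1 / 2) (3 / 2)) (tp (1 / 2000) 1 2) 0 := by
  refine stable0 (by norm_num) latB (fun d => ?_) (θ := 1 / 10 ^ 8) (N := 100) (c := 339)
    (m := 1.0002845) (K1 := 13) (by norm_num)
    (by norm_num) (by norm_num) (by norm_num) (by norm_num) (by norm_num) (by norm_num) (by norm_num)
    (fun d hd => ?_) (fun d d' h1 h2 => ?_)
  · have := X0 (d 0) (d 1) (d 2)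
    have := hB_bd (d 0) (d 1) (d 2)
    unfold lift3; omega
  · have := P3_eq hB 100 1 3 2 d
    push_cast at this
    rw [this]; exact_mod_cast potB _ _ _ (by simpa [Fin.sum_univ_three, XX, X3] using hd)
  · have a0 := h2 0; have a1 := h2 1; have a2 := h2 2
    have b1 : X3 (d' 0) (d' 1) (d' 2) ≤ X3 (d 0) (d 1) (d 2) := by unfold X3; omega
    have b2 : 13 ≤ X3 (d' 0) (d' 1) (d' 2) := h1
    have key : ∀ p q p' q' : ℤ, max p' 0 ≤ max p 0 → max q' 0 ≤ max q 0 →
      max (min p' q') 0 ≤ max (min p q) 0 := fun p q p' q' h h' => by omega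
    have b3 : Q3 (d' 0) (d' 1) (d' 2) ≤ Q3 (d 0) (d 1) (d 2) :=
      add_le_add (add_le_add (key _ _ _ _ a0.2 a2.1) (key _ _ _ _ a0.1 a1.2)) (key _ _ _ _ a1.1 a2.2)
    unfold lift3
    rw [hB_far (by omega), hB_far (by omega)]
    unfold gL; omega

theorem unstQ2 : ¬ Stable 2.9991425 (tp (1 / 2) 1 1) (tp (1 / 2000) 1 2) 0 := by
  have hl : (0 : ℝ) < 2.9991425 := by norm_num
  refine unstable hl latA1 (fun d => ?_) (θ := 1 / 10 ^ 8) (N := 11) (c := 38)
    (m := 1.0002871) (s0 := 1) (by norm_num) (by norm_num) (by norm_num) (by norm_num) (by norm_num)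
    (by norm_num) (by norm_num) (fun d hd => ?_) (t0 := 1 / 2) (by norm_num) ?_
  · have := X0 (d 0) (d 1) (d 2)
    unfold lift3 hA1; split_ifs <;> omega
  · have := P3_eq hA1 11 1 1 1 d
    push_cast at this
    rw [this]; exact_mod_cast potA1 _ _ _ (by simpa [Fin.sum_univ_three] using hd)
  set S := sys hl (tp (1 / 2) 1 1) (tp (1 / 2000) 1 2) with hS
  set A := TT 1 1 ∩ {x | UU 1 (1 / 10 ^ 8) (1 / 2000 / (3 * 11)) (lift3 hA1) x ≤ 1 / 4} with hA
  have mA : MeasurableSet A :=
    (meas_TT _ _).inter (measurableSet_le (meas_UU _ _ _ _) measurable_const)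
  have hν : ∀ i, 0 < S.ν {(i, 1, 1)} := fun i => by
    show 0 < Measure.prod _ _ _
    rw [← singleton_prod_singleton, ← singleton_prod_singleton, Measure.prod_prod,
      Measure.prod_prod]
    simp [tp]; norm_num
  have ind : ∀ n : ℕ, ∀ w ∈ TT 1 1, ∀ t, 0 < t → (∀ i, t < w i) → (∀ i j, w i - w j ≤ 1) →
      3 * 10 ^ 10 + 3 - n ≤ ∑ i, w i - 3 * t → 0 < S.K t w A := by
    intro n
    induction n with
    | zero =>
      intro w hw t ht h1 h2 h3
      have h1' : ∀ i, t ≤ w i := fun i => (h1 i).le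
      refine S.reach0 mA ht.le ⟨⟨fun i => ?_, ?_⟩, UU_small (K := 10 ^ 10) (by norm_num)
        (fun i => ?_) ?_ (by norm_num)⟩
      · show 0 < drain t w i
        rw [drain_eq h1']; linarith [h1 i]
      · show ∑ i, dd 1 (drain t w) i = 1
        rw [dd_drain 1 h1']; exact hw.2
      · show _ ≤ drain t w i
        rw [drain_eq h1']; rw [Fin.sum_univ_three] at h3
        push_cast at h3
        linarith [h2 0 i, h2 1 i, h2 2 i]
      · show _ ≤ _ * ((lift3 hA1 (dd 1 (drain t w)) : ℤ) : ℝ)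
        rw [dd_drain 1 h1']
        have b : ∀ i, -1 ≤ dd 1 w i ∧ dd 1 w i ≤ 1 := fun i =>
          ⟨Int.le_ceil_iff.2 (by push_cast; linarith [h2 i (i + 1)]),
            Int.ceil_le.2 (by push_cast; linarith [h2 (i + 1) i])⟩
        have : -20 ≤ lift3 hA1 (dd 1 w) := by
          have := b 0; have := b 1; have := b 2
          have : X3 (dd 1 w 0) (dd 1 w 1) (dd 1 w 2) ≤ 3 := by unfold X3; omega
          have : Q3 (dd 1 w 0) (dd 1 w 1) (dd 1 w 2) ≤ 3 := by unfold Q3; omega
          unfold lift3 hA1; split_ifs <;> omega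
        have : (-20 : ℝ) ≤ lift3 hA1 (dd 1 w) := by exact_mod_cast this
        linarith
    | succ n ih =>
      intro w hw t ht h1 h2 h3
      obtain ⟨i, -, hi⟩ := Finset.exists_min_image Finset.univ w Finset.univ_nonempty
      refine S.reach1 mA (half_pos ht) (by linarith) (hν i) fun s hs hs' => ?_
      have h1' : ∀ i, s ≤ w i := fun i => by linarith [h1 i]
      have hx : drain s w ∈ TT 1 1 :=
        ⟨fun i => by rw [drain_eq h1']; linarith [h1 i], by rw [dd_drain 1 h1']; exact hw.2⟩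
      obtain ⟨k, hk, hj⟩ : ∃ k, (∀ j, w k ≤ w j) ∧ join (drain s w) (i, 1, 1) = add (drain s w) k 1 := by
        unfold join
        split_ifs with h
        · exact ⟨i, fun j => hi j (Finset.mem_univ _), rfl⟩
        · refine ⟨i + 1, fun j => ?_, rfl⟩
          rw [drain_eq h1', drain_eq h1'] at h
          linarith [hi j (Finset.mem_univ _), not_lt.1 h]
      show 0 < S.K (t - s) (join (drain s w) (i, 1, 1)) A
      have ev : ∀ j, add (drain s w) k 1 j = w j - s + if j = k then 1 else 0 := fun j => by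
        unfold add
        split_ifs with h
        · rw [h, Function.update_self, drain_eq h1']
        · rw [Function.update_of_ne h, drain_eq h1', add_zero]
      rw [hj]
      refine ih _ (add_mem_TT latA1 hx k (by simp)) _ (by linarith) (fun j => ?_) (fun j j' => ?_) ?_
      · rw [ev]; split_ifs <;> linarith [h1 j]
      · rw [ev, ev]
        split_ifs with p q q
        · rw [p, q]; linarith
        · rw [p]; linarith [hk j']
        · linarith [h2 j j']
        · linarith [h2 j j']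
      · simp only [ev, Finset.sum_add_distrib, Finset.sum_ite_eq', Finset.mem_univ, if_true]
        push_cast at h3
        simp only [Fin.sum_univ_three] at h3 ⊢
        linarith
  refine S.reach1 mA (r := 1 / 8) (by norm_num) (by norm_num) (hν 1) fun r1 p1 q1 => ?_
  have e1 : S.j (S.φ r1 0) (1, 1, 1) = ![0, 0, 1] := by
    show join (drain r1 0) _ = _
    funext i; fin_cases i <;> simp [join, drain, p1.le]
  rw [e1]
  refine S.reach1 mA (r := 1 / 8) (by norm_num) (by linarith) (hν 0) fun r2 p2 q2 => ?_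
  have e2 : S.j (S.φ r2 ![0, 0, 1]) (0, 1, 1) = ![0, 1, 1 - r2] := by
    show join (drain r2 _) _ = _
    funext i; fin_cases i <;> simp [join, drain, p2.le]; linarith
  rw [e2]
  refine S.reach1 mA (r := 1 / 8) (by norm_num) (by linarith) (hν 0) fun r3 p3 q3 => ?_
  have e3 : S.j (S.φ r3 ![0, 1, 1 - r2]) (0, 1, 1) = ![1, 1 - r3, 1 - r2 - r3] := by
    show join (drain r3 _) _ = _
    have : r3 < 1 := by linarith
    funext i; fin_cases i <;> simp [join, drain, p3.le, this, this.le]; linarith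
  rw [e3]
  refine ind (3 * 10 ^ 10 + 3) _ ⟨fun i => ?_, ?_⟩ _ (by linarith) (fun i => ?_) (fun i j => ?_) ?_
  · fin_cases i <;> simp <;> linarith
  · have c0 : dd 1 ![1, 1 - r3, 1 - r2 - r3] 0 = 0 := Int.ceil_eq_iff.2 (by simp; constructor <;> linarith)
    have c1 : dd 1 ![1, 1 - r3, 1 - r2 - r3] 1 = 0 := Int.ceil_eq_iff.2 (by simp; constructor <;> linarith)
    have c2 : dd 1 ![1, 1 - r3, 1 - r2 - r3] 2 = 1 := Int.ceil_eq_iff.2 (by simp; constructor <;> linarith)
    rw [Fin.sum_univ_three, c0, c1, c2]; rfl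
  · fin_cases i <;> simp <;> linarith
  · fin_cases i <;> fin_cases j <;> simp <;> linarith
  · simp [Fin.sum_univ_three]; linarith

end Pool.Agent.Lib.helper1.Tq
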