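import Pool.Agent.Lib.helper1.Tq1

set_option autoImplicit false

namespace Pool.Agent.Lib.helper1.Tq

open MeasureTheory ProbabilityTheory Set Filter Topology
open scoped ENNReal

variable {W M : Type*} [MeasurableSpace W] [MeasurableSpace M]

/-- data of a jump process with a deterministic flow -/
structure Sys (W M : Type*) [MeasurableSpace W] [MeasurableSpace M] where
  φ : ℝ → W → W
  j : W → M → W
  l : ℝ
  ν : Measure M
  hφ : Measurable fun p : ℝ × W => φ p.1 p.2
  hj : Measurable fun p : W × M => j p.1 p.2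
  hl : 0 < l
  hν : IsProbabilityMeasure ν
  flow : ∀ r s w, 0 ≤ r → 0 ≤ s → φ s (φ r w) = φ (r + s) w

namespace Sys
variable (S : Sys W M)

noncomputable def μ : Measure (ℝ × M) := (expMeasure S.l).prod S.ν
instance : IsProbabilityMeasure S.ν := S.hν
instance : IsProbabilityMeasure (expMeasure S.l) := isProbabilityMeasure_expMeasure S.hl
instance : IsProbabilityMeasure S.μ := by unfold μ; infer_instance
noncomputable def P : Measure (ℕ → ℝ × M) := Measure.infinitePi fun _ : ℕ => S.μ
instance : IsProbabilityMeasure S.P := by unfold P; infer_instance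

lemma μ_nonneg : ∀ᵐ a ∂S.μ, 0 ≤ a.1 :=
  Measure.quasiMeasurePreserving_fst.ae (exp_nonneg S.l)

lemma μ_Iic (t : ℝ) : S.μ {a | a.1 ≤ t} = expMeasure S.l (Iic t) := by
  have : {a : ℝ × M | a.1 ≤ t} = Iic t ×ˢ univ := by ext; simp
  rw [this, μ, Measure.prod_prod]; simp

lemma Iic_lt {t : ℝ} (ht : 0 ≤ t) : expMeasure S.l (Iic t) < 1 := by
  rw [exp_Iic S.hl ht, ENNReal.ofReal_lt_one]; linarith [Real.exp_pos (-(S.l * t))]

lemma nonexpl : ∀ᵐ ω ∂S.P, ∀ s : ℝ, ∃ n, s < arr ω (n + 1) := by
  have key : ∀ s : ℕ, S.P {ω | ∀ n, arr ω (n + 1) ≤ s} = 0 := by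
    intro s
    set A : Set (ℕ → ℝ × M) := {ω | ∀ n, arr ω (n + 1) ≤ s} with hA
    have mA : MeasurableSet A := by
      rw [hA, setOf_forall]
      exact .iInter fun n => measurableSet_le (meas_arr _) measurable_const
    have h1 : S.P A ≤ expMeasure S.l (Iic s) * S.P A := by
      calc S.P A = (S.μ.prod S.P) (cons ⁻¹' A) := by
            rw [← Measure.map_apply meas_cons mA]; unfold P; rw [map_cons]
        _ ≤ (S.μ.prod S.P) ({a : ℝ × M | a.1 ≤ s} ×ˢ A) := by
            refine measure_mono_ae ?_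
            filter_upwards [Measure.quasiMeasurePreserving_fst.ae S.μ_nonneg] with p hp h
            obtain ⟨a, ω⟩ := p
            refine ⟨?_, fun n => ?_⟩
            · have := h 0; rw [arr_cons] at this; simpa [arr] using this
            · have := h (n + 1); rw [arr_cons] at this
              have hp' : 0 ≤ a.1 := hp
              show arr ω (n + 1) ≤ s
              linarith
        _ = _ := by rw [Measure.prod_prod, μ_Iic]
    by_contra h0
    have := ENNReal.mul_lt_mul_left h0 (measure_ne_top S.P A) (S.Iic_lt (t := s) (Nat.cast_nonneg s))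
    rw [one_mul] at this
    exact absurd h1 (not_le.2 this)
  have : ∀ᵐ ω ∂S.P, ∀ s : ℕ, ¬ ∀ n, arr ω (n + 1) ≤ s :=
    ae_all_iff.2 fun s => by rw [ae_iff]; simpa using key s
  filter_upwards [this] with ω h s
  obtain ⟨k, hk⟩ := exists_nat_ge s
  have := h k; push Not at this
  obtain ⟨n, hn⟩ := this
  exact ⟨n, by linarith⟩

noncomputable def Q (t : ℝ) (f : W → ℝ≥0∞) (w : W) : ℝ≥0∞ := ∫⁻ ω, f (work S.φ S.j w ω t) ∂S.P

lemma mw (t : ℝ) (w : W) : Measurable fun ω => work S.φ S.j w ω t :=
  (meas_work S.hφ S.hj).comp ((measurable_const (a := (t, w))).prodMk measurable_id)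

lemma meas_Q {f : W → ℝ≥0∞} (hf : Measurable f) : Measurable fun p : ℝ × W => S.Q p.1 f p.2 :=
  (hf.comp (meas_work S.hφ S.hj)).lintegral_prod_right'

lemma first_jump {f : W → ℝ≥0∞} (hf : Measurable f) (t : ℝ) (w : W) :
    S.Q t f w = ∫⁻ a, (if t < a.1 then f (S.φ t w) else
      S.Q (t - a.1) f (S.j (S.φ a.1 w) a.2)) ∂S.μ := by
  have hm : Measurable fun ω => f (work S.φ S.j w ω t) := hf.comp (S.mw t w)
  have : S.Q t f w = ∫⁻ p, f (work S.φ S.j w (cons p) t) ∂(S.μ.prod S.P) := by
    rw [← lintegral_map hm meas_cons]; unfold Q P; rw [map_cons]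
  have hm' : Measurable fun p : (ℝ × M) × (ℕ → ℝ × M) => f (work S.φ S.j w (cons p) t) :=
    hm.comp meas_cons
  rw [this, lintegral_prod _ hm'.aemeasurable]
  refine lintegral_congr fun a => ?_
  have h2 : ∀ᵐ ω ∂S.P, f (work S.φ S.j w (cons (a, ω)) t) =
      f (if t < a.1 then S.φ t w else work S.φ S.j (S.j (S.φ a.1 w) a.2) ω (t - a.1)) := by
    filter_upwards [S.nonexpl] with ω h
    rw [work_cons _ _ _ _ _ _ (h _)]
  rw [lintegral_congr_ae h2]
  split_ifs
  · simp
  · rfl

lemma le_of_super_bdd {G : Set W} (hG : ∀ w ∈ G, ∀ᵐ a ∂S.μ, S.j (S.φ a.1 w) a.2 ∈ G)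
    {f : W → ℝ≥0∞} (hf : Measurable f) {B : ℝ≥0∞} (hB : B ≠ ∞) (hfB : ∀ w, f w ≤ B)
    (u : ℝ → W → ℝ≥0∞)
    (hu : ∀ t, 0 ≤ t → ∀ w ∈ G, ∫⁻ a, (if t < a.1 then f (S.φ t w) else
      u (t - a.1) (S.j (S.φ a.1 w) a.2)) ∂S.μ ≤ u t w) {t : ℝ} (ht : 0 ≤ t) {w : W} (hw : w ∈ G) :
    S.Q t f w ≤ u t w := by
  set p := expMeasure S.l (Iic t) with hp
  have key : ∀ n : ℕ, ∀ s, 0 ≤ s → s ≤ t → ∀ x ∈ G, S.Q s f x ≤ u s x + B * p ^ n := by
    intro n
    induction n with
    | zero =>
      intro s _ _ x _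
      refine le_trans ?_ le_add_self
      simpa [Q] using lintegral_mono (μ := S.P) fun ω => hfB (work S.φ S.j x ω s)
    | succ n ih =>
      intro s hs hst x hx
      rw [S.first_jump hf]
      have mI : MeasurableSet {a : ℝ × M | a.1 ≤ t} := measurableSet_le measurable_fst measurable_const
      calc _ ≤ ∫⁻ a, ((if s < a.1 then f (S.φ s x) else u (s - a.1) (S.j (S.φ a.1 x) a.2)) +
            indicator {a : ℝ × M | a.1 ≤ t} (fun _ => B * p ^ n) a) ∂S.μ := by
            refine lintegral_mono_ae ?_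
            filter_upwards [hG x hx, S.μ_nonneg] with a ha h0
            split_ifs with h
            · exact le_self_add
            · rw [indicator_of_mem (show a ∈ {a : ℝ × M | a.1 ≤ t} from (not_lt.1 h).trans hst)]
              exact ih _ (by linarith [not_lt.1 h]) (by linarith) _ ha
        _ ≤ u s x + B * p ^ (n + 1) := by
            rw [lintegral_add_right _ (measurable_const.indicator mI), lintegral_indicator_const mI,
              μ_Iic, pow_succ, ← mul_assoc]
            exact add_le_add (hu s hs x hx) le_rfl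
  have lim : Tendsto (fun n : ℕ => u t w + B * p ^ n) atTop (𝓝 (u t w + B * 0)) :=
    tendsto_const_nhds.add (ENNReal.Tendsto.const_mul
      (ENNReal.tendsto_pow_atTop_nhds_zero_of_lt_one (S.Iic_lt ht)) (Or.inr hB))
  simpa using ge_of_tendsto' lim fun n => key n t ht le_rfl w hw

lemma le_of_super {G : Set W} (hG : ∀ w ∈ G, ∀ᵐ a ∂S.μ, S.j (S.φ a.1 w) a.2 ∈ G)
    {f : W → ℝ≥0∞} (hf : Measurable f) (u : ℝ → W → ℝ≥0∞)
    (hu : ∀ t, 0 ≤ t → ∀ w ∈ G, ∫⁻ a, (if t < a.1 then f (S.φ t w) else
      u (t - a.1) (S.j (S.φ a.1 w) a.2)) ∂S.μ ≤ u t w) {t : ℝ} (ht : 0 ≤ t) {w : W} (hw : w ∈ G) :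
    S.Q t f w ≤ u t w := by
  have h1 : S.Q t f w = ⨆ n : ℕ, S.Q t (fun x => min (f x) n) w := by
    unfold Q
    rw [← lintegral_iSup (f := fun (n : ℕ) ω => min (f (work S.φ S.j w ω t)) n)
      (fun n => (hf.comp (S.mw t w)).min measurable_const)
      (fun a b hab ω => min_le_min le_rfl (Nat.cast_le.2 hab))]
    refine lintegral_congr fun ω => ?_
    have := inf_iSup_eq (f (work S.φ S.j w ω t)) (fun n : ℕ => (n : ℝ≥0∞))
    rw [ENNReal.iSup_natCast, inf_top_eq] at this
    exact this
  rw [h1]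
  refine iSup_le fun n => S.le_of_super_bdd hG (hf.min measurable_const) (ENNReal.natCast_ne_top n)
    (fun x => min_le_right _ _) u (fun s hs x hx => le_trans (lintegral_mono fun a => ?_)
    (hu s hs x hx)) ht hw
  dsimp only
  split_ifs
  exacts [min_le_left _ _, le_rfl]

lemma meas_step {g : ℝ × W → ℝ≥0∞} (hg : Measurable g) (t : ℝ) (w : W) :
    Measurable fun a : ℝ × M => g (t - a.1, S.j (S.φ a.1 w) a.2) :=
  hg.comp ((measurable_fst.const_sub t).prodMk
    (S.hj.comp ((S.hφ.comp (measurable_fst.prodMk measurable_const)).prodMk measurable_snd)))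

lemma semi_le {f : W → ℝ≥0∞} (hf : Measurable f) {s t : ℝ} (hs : 0 ≤ s) (ht : 0 ≤ t) (w : W) :
    S.Q t (S.Q s f) w ≤ S.Q (t + s) f w := by
  have hg : Measurable (S.Q s f) := (S.meas_Q hf).comp (measurable_const.prodMk measurable_id)
  refine S.le_of_super (G := univ) (fun _ _ => ae_of_all _ fun _ => trivial) hg
    (fun t w => S.Q (t + s) f w) (fun t ht w _ => le_of_eq ?_) ht trivial
  rw [S.first_jump hf (t + s)]
  set F : ℝ × M → ℝ≥0∞ := fun a => if s < a.1 then f (S.φ s (S.φ t w)) else
      S.Q (s - a.1) f (S.j (S.φ a.1 (S.φ t w)) a.2) with hF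
  have mF : Measurable F := Measurable.ite (measurableSet_lt measurable_const measurable_fst)
    measurable_const (S.meas_step (S.meas_Q hf) s _)
  set H : ℝ × M → ℝ≥0∞ := fun a => if t < a.1 then 0 else
      S.Q (t + s - a.1) f (S.j (S.φ a.1 w) a.2) with hH
  have mlt : MeasurableSet {a : ℝ × M | t < a.1} := measurableSet_lt measurable_const measurable_fst
  have mH : Measurable H := Measurable.ite mlt measurable_const (S.meas_step (S.meas_Q hf) _ _)
  have mF' : Measurable fun a : ℝ × M => if t < a.1 then F (a.1 - t, a.2) else 0 :=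
    Measurable.ite mlt (mF.comp ((measurable_fst.sub_const t).prodMk measurable_snd))
      measurable_const
  have e1 : ∫⁻ a, (if t < a.1 then F (a.1 - t, a.2) else 0) ∂S.μ =
      ENNReal.ofReal (Real.exp (-(S.l * t))) * S.Q s f (S.φ t w) := by
    rw [S.first_jump hf s]
    unfold μ
    rw [lintegral_prod _ mF'.aemeasurable, lintegral_prod _ mF.aemeasurable,
      ← memoryless S.hl _ mF.lintegral_prod_right' ht]
    refine lintegral_congr fun r => ?_
    dsimp only
    split_ifs <;> simp
  have e2 : ∫⁻ a, (if t < a.1 then S.Q s f (S.φ t w) else 0) ∂S.μ =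
      ENNReal.ofReal (Real.exp (-(S.l * t))) * S.Q s f (S.φ t w) := by
    have : ∀ a : ℝ × M, (if t < a.1 then S.Q s f (S.φ t w) else 0) =
        indicator (Ioi t ×ˢ univ) (fun _ => S.Q s f (S.φ t w)) a := fun a => by
      simp [indicator]
    simp_rw [this]
    rw [lintegral_indicator_const (measurableSet_Ioi.prod .univ), μ, Measure.prod_prod,
      exp_Ioi S.hl ht, mul_comm]; simp
  calc _ = ∫⁻ a, ((if t < a.1 then S.Q s f (S.φ t w) else 0) + H a) ∂S.μ := by
        refine lintegral_congr fun a => ?_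
        simp only [hH]; split_ifs
        · simp
        · rw [zero_add]; congr 1; ring
    _ = ∫⁻ a, ((if t < a.1 then F (a.1 - t, a.2) else 0) + H a) ∂S.μ := by
        rw [lintegral_add_right _ mH, lintegral_add_right _ mH, e1, e2]
    _ = _ := by
        refine lintegral_congr fun a => ?_
        simp only [hH, hF]
        by_cases h : t < a.1
        · simp only [if_pos h, add_zero]
          rw [S.flow _ _ _ ht hs, S.flow _ _ _ ht (by linarith)]
          by_cases h' : t + s < a.1
          · rw [if_pos h', if_pos (by linarith)]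
          · rw [if_neg h', if_neg (by linarith), show s - (a.1 - t) = t + s - a.1 by ring,
              show t + (a.1 - t) = a.1 by ring]
        · simp only [if_neg h, zero_add]
          rw [if_neg (by linarith)]

/-- transition kernel -/
noncomputable def K (t : ℝ) : Kernel W W where
  toFun w := S.P.map fun ω => work S.φ S.j w ω t
  measurable' := by
    refine Measure.measurable_of_measurable_coe _ fun s hs => ?_
    have : (fun w => (S.P.map fun ω => work S.φ S.j w ω t) s) =
        fun w => S.Q t (indicator s 1) w := by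
      funext w
      rw [← lintegral_indicator_one hs, lintegral_map (measurable_one.indicator hs) (S.mw t w)]; rfl
    rw [this]
    exact (S.meas_Q (measurable_one.indicator hs)).comp (measurable_const.prodMk measurable_id)

lemma K_apply (t : ℝ) (w : W) : S.K t w = S.P.map fun ω => work S.φ S.j w ω t := rfl

instance (t : ℝ) : IsMarkovKernel (S.K t) :=
  ⟨fun w => by rw [K_apply]; exact Measure.isProbabilityMeasure_map (S.mw t w).aemeasurable⟩

lemma lint_K {f : W → ℝ≥0∞} (hf : Measurable f) (t : ℝ) (w : W) :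
    ∫⁻ x, f x ∂(S.K t w) = S.Q t f w := by
  rw [K_apply, lintegral_map hf (S.mw t w)]; rfl

lemma K_set {s : Set W} (hs : MeasurableSet s) (t : ℝ) (w : W) :
    S.K t w s = S.Q t (indicator s 1) w := by
  rw [← lintegral_indicator_one hs, S.lint_K (measurable_one.indicator hs)]

lemma semi {s t : ℝ} (hs : 0 ≤ s) (ht : 0 ≤ t) : S.K (t + s) = S.K s ∘ₖ S.K t := by
  have key : ∀ w A, MeasurableSet A → (S.K s ∘ₖ S.K t) w A ≤ S.K (t + s) w A := by
    intro w A hA
    rw [Kernel.comp_apply' _ _ _ hA, S.lint_K (Kernel.measurable_coe _ hA), S.K_set hA]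
    simp_rw [S.K_set hA]
    exact S.semi_le (measurable_one.indicator hA) hs ht w
  ext w A hA
  refine le_antisymm ?_ (key w A hA)
  have := key w Aᶜ hA.compl
  rw [prob_compl_eq_one_sub hA, prob_compl_eq_one_sub hA] at this
  exact (ENNReal.sub_le_sub_iff_left prob_le_one ENNReal.one_ne_top).1 this

lemma minor {t : ℝ} (ht : 0 ≤ t) (w : W) :
    ENNReal.ofReal (Real.exp (-(S.l * t))) • Measure.dirac (S.φ t w) ≤ S.K t w := by
  refine Measure.le_iff.2 fun A hA => ?_
  rw [S.K_set hA, S.first_jump (measurable_one.indicator hA), Measure.smul_apply,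
    Measure.dirac_apply' _ hA, smul_eq_mul, ← exp_Ioi S.hl ht]
  calc _ = ∫⁻ a, indicator (Ioi t ×ˢ univ) (fun _ => indicator A 1 (S.φ t w)) a ∂S.μ := by
        rw [lintegral_indicator_const (measurableSet_Ioi.prod .univ), μ, Measure.prod_prod,
          mul_comm]; simp
    _ ≤ _ := lintegral_mono fun a => by
        by_cases h : t < a.1
        · simp [indicator, h]
        · rw [indicator_of_notMem (by simpa using h)]; exact zero_le

/-- real form of the comparison lemma -/
lemma le_of_super_real {G : Set W} (hG : ∀ w ∈ G, ∀ᵐ a ∂S.μ, S.j (S.φ a.1 w) a.2 ∈ G)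
    {f : W → ℝ≥0∞} (hf : Measurable f) (u : ℝ → W → ℝ≥0∞)
    (mu : Measurable fun p : ℝ × W => u p.1 p.2)
    (hu : ∀ t, 0 ≤ t → ∀ w ∈ G, ∃ (A : ℝ) (F : ℝ → ℝ), 0 ≤ A ∧ f (S.φ t w) ≤ ENNReal.ofReal A ∧
      Continuous F ∧ (∀ r ∈ Icc 0 t, 0 ≤ F r ∧
        ∫⁻ m, u (t - r) (S.j (S.φ r w) m) ∂S.ν ≤ ENNReal.ofReal (F r)) ∧
      ENNReal.ofReal (Real.exp (-(S.l * t)) * A +
        ∫ r in (0 : ℝ)..t, S.l * Real.exp (-(S.l * r)) * F r) ≤ u t w)
    {t : ℝ} (ht : 0 ≤ t) {w : W} (hw : w ∈ G) : S.Q t f w ≤ u t w := by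
  refine S.le_of_super hG hf u (fun t ht w hw => ?_) ht hw
  obtain ⟨A, F, hA, h1, cF, h2, h3⟩ := hu t ht w hw
  refine le_trans ?_ h3
  have mlt : MeasurableSet {a : ℝ × M | t < a.1} := measurableSet_lt measurable_const measurable_fst
  unfold μ
  rw [lintegral_prod _ (Measurable.ite mlt measurable_const (S.meas_step mu t w)).aemeasurable]
  have hl := S.hl
  have c2 : Continuous fun r => S.l * Real.exp (-(S.l * r)) * F r := by fun_prop
  have n2 : ∀ r ∈ Icc 0 t, 0 ≤ S.l * Real.exp (-(S.l * r)) * F r := fun r hr =>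
    mul_nonneg (by positivity) (h2 r hr).1
  calc _ ≤ ∫⁻ r, (indicator (Ioi t) (fun _ => ENNReal.ofReal A) r +
          indicator (Icc 0 t) (fun r => ENNReal.ofReal (F r)) r) ∂(expMeasure S.l) := by
        refine lintegral_mono_ae ?_
        filter_upwards [exp_nonneg S.l] with r hr
        by_cases h : t < r
        · simp only [if_pos h, lintegral_const, measure_univ, mul_one]
          rw [indicator_of_mem (show r ∈ Ioi t from h)]
          exact h1.trans le_self_add
        · simp only [if_neg h]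
          rw [indicator_of_mem (show r ∈ Icc 0 t from ⟨hr, not_lt.1 h⟩)]
          exact (h2 r ⟨hr, not_lt.1 h⟩).2.trans le_add_self
    _ = _ := by
        have mm : Measurable (indicator (Icc 0 t) fun r => ENNReal.ofReal (F r)) :=
          cF.measurable.ennreal_ofReal.indicator measurableSet_Icc
        rw [lintegral_add_right _ mm, lintegral_indicator_const measurableSet_Ioi, exp_Ioi hl ht,
          lint_exp _ mm, ENNReal.ofReal_add (by positivity)
            (intervalIntegral.integral_nonneg ht n2), ← ENNReal.ofReal_mul hA, mul_comm A,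
          intervalIntegral.integral_of_le ht, ← integral_Icc_eq_integral_Ioc,
          ofReal_integral_eq_lintegral_ofReal c2.integrableOn_Icc
            ((ae_restrict_iff' measurableSet_Icc).2 (ae_of_all _ n2)),
          ← lintegral_indicator measurableSet_Ici, ← lintegral_indicator measurableSet_Icc]
        congr 1
        refine lintegral_congr fun r => ?_
        by_cases h : r ∈ Icc 0 t
        · rw [indicator_of_mem (show r ∈ Ici 0 from h.1), indicator_of_mem h, indicator_of_mem h,
            ← ENNReal.ofReal_mul (by positivity)]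
        · rw [indicator_of_notMem h]
          by_cases h' : r ∈ Ici (0 : ℝ)
          · rw [indicator_of_mem h', indicator_of_notMem h, mul_zero]
          · rw [indicator_of_notMem h']

end Sys
end Pool.Agent.Lib.helper1.Tq
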