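import Mathlib

set_option autoImplicit false

namespace Pool.Agent.Lib.helper1.Tq

open MeasureTheory ProbabilityTheory Set Filter Topology
open scoped ENNReal

variable {W : Type*} [MeasurableSpace W]

lemma int_bdd {a : W → ℝ} (ha : Measurable a) {C : ℝ} (hC : ∀ x, |a x| ≤ C) (μ : Measure W)
    [IsFiniteMeasure μ] : Integrable a μ :=
  Integrable.of_bound ha.aestronglyMeasurable C (ae_of_all _ hC)

lemma dbl {G : Set W} {o : W} (ho : o ∈ G) {V a : W → ℝ} (hV : ∀ x ∈ G, 0 ≤ V x)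
    {μ ν : Measure W} [IsProbabilityMeasure μ] [IsProbabilityMeasure ν]
    (hμ : ∀ᵐ x ∂μ, x ∈ G) (hν : ∀ᵐ x ∂ν, x ∈ G) (iμ : Integrable V μ) (iν : Integrable V ν)
    (aμ : Integrable a μ) (aν : Integrable a ν) [MeasurableSingletonClass W] {α β c : ℝ}
    (hα : 0 ≤ α) (hβ : 0 ≤ β) (hc : 0 ≤ c)
    (mμ : ENNReal.ofReal α • Measure.dirac o ≤ μ) (mν : ENNReal.ofReal α • Measure.dirac o ≤ ν)
    (h : ∀ x ∈ G, ∀ y ∈ G, a x - a y ≤ c * (2 + β * V x + β * V y)) :
    ∫ x, a x ∂μ - ∫ x, a x ∂ν ≤ c * (2 - 2 * α + β * ∫ x, V x ∂μ + β * ∫ x, V x ∂ν) := by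
  set k := sSup ((fun x => a x - c * (1 + β * V x)) '' G) with hk
  have ub : ∀ y ∈ G, ∀ z ∈ (fun x => a x - c * (1 + β * V x)) '' G,
      z ≤ a y + c * (1 + β * V y) := by
    rintro y hy _ ⟨x, hx, rfl⟩
    have := h x hx y hy
    dsimp only; linarith
  have h1 : ∀ x ∈ G, 0 ≤ k + c * (1 + β * V x) - a x := fun x hx => by
    have : a x - c * (1 + β * V x) ≤ k := le_csSup ⟨_, ub o ho⟩ ⟨x, hx, rfl⟩
    linarith
  have h2 : ∀ y ∈ G, 0 ≤ a y + c * (1 + β * V y) - k := fun y hy => by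
    have : k ≤ _ := csSup_le ⟨_, o, ho, rfl⟩ (ub y hy)
    linarith
  have i1 : Integrable (fun x => c * (1 + β * V x)) μ :=
    ((integrable_const 1).add (iμ.const_mul β)).const_mul c
  have i2 : Integrable (fun x => c * (1 + β * V x)) ν :=
    ((integrable_const 1).add (iν.const_mul β)).const_mul c
  have e1 := integral_mono_measure (f := fun x => k + c * (1 + β * V x) - a x) mμ
    (hμ.mono h1) (((integrable_const k).add i1).sub aμ)
  have e2 := integral_mono_measure (f := fun x => a x + c * (1 + β * V x) - k) mν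
    (hν.mono h2) ((aν.add i2).sub (integrable_const k))
  rw [integral_smul_measure, integral_dirac, ENNReal.toReal_ofReal hα, smul_eq_mul] at e1 e2
  have i3 : Integrable (fun x => k + c * (1 + β * V x)) μ := (integrable_const k).add i1
  have i4 : Integrable (fun x => a x + c * (1 + β * V x)) ν := aν.add i2
  rw [integral_sub i3 aμ, integral_add (integrable_const k) i1,
    integral_const_mul, integral_add (integrable_const 1) (iμ.const_mul β), integral_const_mul] at e1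
  rw [integral_sub i4 (integrable_const k), integral_add aν i2,
    integral_const_mul, integral_add (integrable_const 1) (iν.const_mul β), integral_const_mul] at e2
  simp only [integral_const, probReal_univ, smul_eq_mul, one_mul] at e1 e2
  have := mul_nonneg (mul_nonneg hα hc) (mul_nonneg hβ (hV o ho))
  nlinarith

lemma harris [MeasurableSingletonClass W] (K : ℝ → Kernel W W) [∀ t, IsMarkovKernel (K t)]
    (semi : ∀ s t, 0 ≤ s → 0 ≤ t → K (t + s) = K s ∘ₖ K t)
    {G : Set W} {o : W} (ho : o ∈ G) {V : W → ℝ} (hV : ∀ x ∈ G, 0 ≤ V x)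
    (hG : ∀ t, 0 ≤ t → ∀ x ∈ G, ∀ᵐ y ∂K t x, y ∈ G)
    (hI : ∀ t, 0 ≤ t → ∀ x ∈ G, Integrable V (K t x)) {c B : ℝ} (hc : 0 < c) (hB : 0 < B)
    (hD : ∀ t, 0 ≤ t → ∀ x ∈ G, ∫ y, V y ∂K t x ≤ Real.exp (-(c * t)) * V x + B)
    (hm : ∀ R, ∃ H, ∀ h, H ≤ h → ∃ α, 0 < α ∧ ∀ x ∈ G, V x ≤ R →
      ENNReal.ofReal α • Measure.dirac o ≤ K h x)
    {a : W → ℝ} (ha : Measurable a) {C : ℝ} (hC : ∀ x, |a x| ≤ C) :
    ∃ z, Tendsto (fun t => ∫ x, a x ∂K t o) atTop (𝓝 z) := by
  obtain ⟨H, hH⟩ := hm (8 * B)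
  set h := max H (1 / c) with hh
  have h0 : 0 < h := lt_of_lt_of_le (by positivity) (le_max_right _ _)
  have he : Real.exp (-(c * h)) ≤ 1 / 2 := by
    have : 1 ≤ c * h := by
      have := le_max_right H (1 / c)
      rw [div_le_iff₀ hc] at this; linarith
    rw [Real.exp_neg, ← one_div]
    exact one_div_le_one_div_of_le two_pos (by linarith [Real.add_one_le_exp (c * h)])
  obtain ⟨α0, hα0, hm0⟩ := hH h (le_max_left _ _)
  set α := min α0 (1 / 2) with hαd
  have hα : 0 < α := lt_min hα0 (by norm_num)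
  have hα2 : α ≤ 1 / 2 := min_le_right _ _
  have hm1 : ∀ x ∈ G, V x ≤ 8 * B → ENNReal.ofReal α • Measure.dirac o ≤ K h x := fun x hx hv =>
    le_trans (Measure.le_iff'.2 fun s => by
      simp only [Measure.smul_apply, smul_eq_mul]
      exact mul_le_mul_left (ENNReal.ofReal_le_ofReal (min_le_left _ _)) _) (hm0 x hx hv)
  set β := α / (2 * B) with hβd
  have hβ : 0 < β := by positivity
  have hβB : β * B = α / 2 := by rw [hβd]; field_simp
  set ρ := 1 - α / 4 with hρ
  have z0 : ∀ μ : Measure W, ENNReal.ofReal 0 • Measure.dirac o ≤ μ := fun μ => by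
    simp [Measure.zero_le]
  have hC0 : 0 ≤ C := (abs_nonneg _).trans (hC o)
  set R : ℝ → W → ℝ := fun t x => ∫ y, a y ∂K t x with hR
  have mR : ∀ t, Measurable (R t) := fun t =>
    (ha.stronglyMeasurable.integral_kernel (κ := K t)).measurable
  have bR : ∀ t x, |R t x| ≤ C := fun t x => by
    have := norm_integral_le_of_norm_le_const (μ := K t x) (f := a) (C := C) (ae_of_all _ hC)
    simpa using this
  have sR : ∀ s t, 0 ≤ s → 0 ≤ t → ∀ x, R (t + s) x = ∫ y, R s y ∂K t x := fun s t hs ht x => by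
    simp only [hR]; rw [semi s t hs ht, Kernel.integral_comp (int_bdd ha hC _)]
  have step : ∀ n : ℕ, ∀ x ∈ G, ∀ y ∈ G,
      R ((n + 1) * h) x - R ((n + 1) * h) y ≤ ρ ^ n * C * (2 + β * V x + β * V y) := by
    intro n
    induction n with
    | zero =>
      intro x hx y hy
      have := abs_le.1 (bR ((0 : ℕ) + 1 : ℝ) x)
      have h1 := abs_le.1 (bR ((((0 : ℕ) : ℝ) + 1) * h) x)
      have h2 := abs_le.1 (bR ((((0 : ℕ) : ℝ) + 1) * h) y)
      have := mul_nonneg hC0 (mul_nonneg hβ.le (hV x hx))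
      have := mul_nonneg hC0 (mul_nonneg hβ.le (hV y hy))
      rw [pow_zero]; nlinarith
    | succ n ih =>
      intro x hx y hy
      have hn : 0 ≤ ((n : ℝ) + 1) * h := by positivity
      have hρ0 : 0 ≤ ρ ^ n * C := mul_nonneg (pow_nonneg (by linarith) _) hC0
      rw [show (((n + 1 : ℕ) : ℝ) + 1) * h = h + (n + 1) * h by push_cast; ring,
        sR _ _ hn h0.le, sR _ _ hn h0.le, pow_succ, mul_right_comm (ρ ^ n), mul_assoc (ρ ^ n * C)]
      have d1 := hD h h0.le x hx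
      have d2 := hD h h0.le y hy
      have v1 := hV x hx
      have v2 := hV y hy
      have d3 : β * ∫ y, V y ∂K h x ≤ β * V x / 2 + α / 2 := by
        have : ∫ y, V y ∂K h x ≤ V x / 2 + B := by nlinarith
        nlinarith
      have d4 : β * ∫ y, V y ∂K h y ≤ β * V y / 2 + α / 2 := by
        have : ∫ y, V y ∂K h y ≤ V y / 2 + B := by nlinarith
        nlinarith
      have p1 := mul_nonneg hβ.le v1
      have p2 := mul_nonneg hβ.le v2
      by_cases hS : V x + V y ≤ 8 * B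
      · refine (dbl ho hV (hG h h0.le x hx) (hG h h0.le y hy) (hI h h0.le x hx) (hI h h0.le y hy)
          (int_bdd (mR _) (bR _) _) (int_bdd (mR _) (bR _) _) hα.le hβ.le hρ0
          (hm1 x hx (by linarith)) (hm1 y hy (by linarith)) ih).trans
          (mul_le_mul_of_nonneg_left ?_ hρ0)
        rw [hρ]; nlinarith
      · refine (dbl ho hV (hG h h0.le x hx) (hG h h0.le y hy) (hI h h0.le x hx) (hI h h0.le y hy)
          (int_bdd (mR _) (bR _) _) (int_bdd (mR _) (bR _) _) le_rfl hβ.le hρ0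
          (z0 _) (z0 _) ih).trans (mul_le_mul_of_nonneg_left ?_ hρ0)
        have : 4 * α ≤ β * V x + β * V y := by nlinarith [not_le.1 hS]
        rw [hρ]; nlinarith
  set D := C * (2 + 2 * (β * (V o + B))) with hDd
  have vo := hV o ho
  have cau : ∀ n : ℕ, ∀ s t, (n + 1) * h ≤ s → (n + 1) * h ≤ t → R s o - R t o ≤ ρ ^ n * D := by
    intro n s t hs ht
    have hn : 0 ≤ ((n : ℝ) + 1) * h := by positivity
    have hρ0 : 0 ≤ ρ ^ n * C := mul_nonneg (pow_nonneg (by linarith) _) hC0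
    have b : ∀ r, 0 ≤ r → β * ∫ y, V y ∂K r o ≤ β * (V o + B) := fun r hr => by
      refine mul_le_mul_of_nonneg_left ((hD r hr o ho).trans ?_) hβ.le
      have : Real.exp (-(c * r)) ≤ 1 := Real.exp_le_one_iff.2 (by nlinarith)
      nlinarith
    obtain ⟨s, rfl⟩ : ∃ s', s = s' + (n + 1) * h := ⟨s - (n + 1) * h, by ring⟩
    obtain ⟨t, rfl⟩ : ∃ s', t = s' + (n + 1) * h := ⟨t - (n + 1) * h, by ring⟩
    have hs' : 0 ≤ s := by linarith
    have ht' : 0 ≤ t := by linarith
    rw [sR _ _ hn hs', sR _ _ hn ht', hDd, ← mul_assoc]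
    refine (dbl ho hV (hG s hs' o ho) (hG t ht' o ho) (hI s hs' o ho) (hI t ht' o ho)
          (int_bdd (mR _) (bR _) _) (int_bdd (mR _) (bR _) _) le_rfl hβ.le hρ0
          (z0 _) (z0 _) (step n)).trans (mul_le_mul_of_nonneg_left ?_ hρ0)
    linarith [b s hs', b t ht']
  refine cauchy_map_iff_exists_tendsto.1 (Metric.cauchy_iff.2 ⟨inferInstance, fun ε hε => ?_⟩)
  have lim : Tendsto (fun n : ℕ => ρ ^ n * D) atTop (𝓝 (0 * D)) :=
    (tendsto_pow_atTop_nhds_zero_of_lt_one (by linarith) (by linarith)).mul_const D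
  rw [zero_mul] at lim
  obtain ⟨n, hn⟩ := (lim.eventually (gt_mem_nhds hε)).exists
  refine ⟨(fun t => R t o) '' Ici ((n + 1) * h), image_mem_map (Ici_mem_atTop _), ?_⟩
  rintro _ ⟨s, hs, rfl⟩ _ ⟨t, ht, rfl⟩
  rw [Real.dist_eq, abs_lt]
  constructor
  · linarith [cau n t s ht hs]
  · linarith [cau n s t hs ht]

lemma weak_of_tight [TopologicalSpace W] [T2Space W] [BorelSpace W]
    (μ : ℝ → ProbabilityMeasure W)
    (hT : ∀ ε : ℝ≥0∞, 0 < ε → ∃ C : Set W, IsCompact C ∧ ∀ t, 0 ≤ t → (μ t : Measure W) Cᶜ ≤ ε)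
    (hL : ∀ f : BoundedContinuousFunction W ℝ,
      ∃ z, Tendsto (fun t => ∫ x, f x ∂(μ t : Measure W)) atTop (𝓝 z)) :
    ∃ π : ProbabilityMeasure W, Tendsto μ atTop (𝓝 π) := by
  have hc : IsCompact (closure (μ '' Ici 0)) := by
    refine isCompact_closure_of_isTightMeasureSet
      (isTightMeasureSet_iff_exists_isCompact_measure_compl_le.2 fun ε hε => ?_)
    obtain ⟨C, hC, h⟩ := hT ε hε
    exact ⟨C, hC, by rintro _ ⟨_, ⟨t, ht, rfl⟩, rfl⟩; exact h t ht⟩
  obtain ⟨π, -, hπ⟩ := hc.exists_mapClusterPt (f := atTop) (u := μ)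
    (le_principal_iff.2 (mem_map.2 (mem_of_superset (Ici_mem_atTop 0)
      fun t ht => subset_closure ⟨t, ht, rfl⟩)))
  refine ⟨π, ProbabilityMeasure.tendsto_iff_forall_integral_tendsto.2 fun f => ?_⟩
  obtain ⟨z, hz⟩ := hL f
  have h1 : MapClusterPt (∫ x, f x ∂(π : Measure W)) atTop
      (fun t => ∫ x, f x ∂(μ t : Measure W)) :=
    hπ.continuousAt_comp (f := fun ν : ProbabilityMeasure W => ∫ x, f x ∂(ν : Measure W))
      (ProbabilityMeasure.continuous_integral_boundedContinuousFunction f).continuousAt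
  have : ∫ x, f x ∂(π : Measure W) = z := eq_of_nhds_neBot (h1.clusterPt.mono hz)
  rwa [this]

end Pool.Agent.Lib.helper1.Tq
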