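import Pool.Agent.Lib.helper1.Tq2
import Pool.Agent.Lib.helper1.Tq3

set_option autoImplicit false

namespace Pool.Agent.Lib.helper1.Tq

open MeasureTheory ProbabilityTheory Set Filter Topology
open scoped ENNReal

lemma int_exp {k : ℝ} (hk : k ≠ 0) (t : ℝ) :
    ∫ r in (0 : ℝ)..t, Real.exp (-(k * r)) = (1 - Real.exp (-(k * t))) / k := by
  have : ∀ r ∈ uIcc 0 t, HasDerivAt (fun r => -Real.exp (-(k * r)) / k) (Real.exp (-(k * r))) r := by
    intro r _
    have := (((hasDerivAt_id r).const_mul k).neg.exp.neg).div_const k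
    refine this.congr_deriv ?_
    simp only [id, Pi.neg_apply]; field_simp
  rw [intervalIntegral.integral_eq_sub_of_hasDerivAt this
    (Continuous.intervalIntegrable (by fun_prop) _ _)]
  simp; ring

lemma int3 {l a b : ℝ} (hl : l ≠ 0) (ha : a ≠ 0) (hb : b ≠ 0) (x y z t : ℝ) :
    ∫ r in (0 : ℝ)..t, (x * Real.exp (-(l * r)) + y * Real.exp (-(a * r)) + z * Real.exp (-(b * r))) =
      x * ((1 - Real.exp (-(l * t))) / l) + y * ((1 - Real.exp (-(a * t))) / a) +
        z * ((1 - Real.exp (-(b * t))) / b) := by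
  rw [intervalIntegral.integral_add, intervalIntegral.integral_add,
    intervalIntegral.integral_const_mul, intervalIntegral.integral_const_mul,
    intervalIntegral.integral_const_mul, int_exp hl, int_exp ha, int_exp hb] <;>
  exact Continuous.intervalIntegrable (by fun_prop) _ _

variable {W M : Type*} [MeasurableSpace W] [MeasurableSpace M]

namespace Sys
variable (S : Sys W M)

lemma stay {G : Set W} (mG : MeasurableSet G) (hG : ∀ w ∈ G, ∀ᵐ a ∂S.μ, S.j (S.φ a.1 w) a.2 ∈ G)
    (hφ : ∀ w ∈ G, ∀ t, 0 ≤ t → S.φ t w ∈ G) {t : ℝ} (ht : 0 ≤ t) {w : W} (hw : w ∈ G) :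
    ∀ᵐ y ∂S.K t w, y ∈ G := by
  rw [ae_iff]
  show S.K t w Gᶜ = 0
  rw [S.K_set mG.compl, ← nonpos_iff_eq_zero]
  refine S.le_of_super hG (measurable_one.indicator mG.compl) (fun _ _ => 0)
    (fun t ht w hw => ?_) ht hw
  simp [indicator, hφ w hw t ht]

lemma drift {G : Set W} (hG : ∀ w ∈ G, ∀ᵐ a ∂S.μ, S.j (S.φ a.1 w) a.2 ∈ G)
    (hφ : ∀ w ∈ G, ∀ t, 0 ≤ t → S.φ t w ∈ G) {D : W → ℝ} (mD : Measurable D) (D0 : ∀ x, 0 ≤ D x)
    {θ v C : ℝ} (hv : 0 ≤ v) (hC : 0 < C) (hθ : S.l * v < θ) (hθl : θ < S.l)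
    (h1 : ∀ w ∈ G, ∀ t, 0 ≤ t → D (S.φ t w) ≤ Real.exp (-(θ * t)) * D w + C)
    (h2 : ∀ x ∈ G, ∫⁻ m, ENNReal.ofReal (D (S.j x m)) ∂S.ν ≤ ENNReal.ofReal ((1 + v) * D x + C)) :
    ∃ c B, 0 < c ∧ 0 < B ∧ ∀ t, 0 ≤ t → ∀ x ∈ G, Integrable D (S.K t x) ∧
      ∫ y, D y ∂S.K t x ≤ Real.exp (-(c * t)) * D x + B := by
  have hl := S.hl
  set c := θ - S.l * v with hc
  have c0 : 0 < c := by linarith
  have cl : c < S.l := by nlinarith
  set C' := (1 + v) * C + C with hC'
  set K := C' * S.l / c with hK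
  have K0 : 0 < K := by positivity
  have hKc : K * c = C' * S.l := by rw [hK]; field_simp
  have e1 : ∀ s, 0 ≤ s → Real.exp (-(c * s)) ≤ 1 := fun s hs =>
    Real.exp_le_one_iff.2 (by nlinarith)
  refine ⟨c, K + C, c0, by positivity, fun t ht x hx => ?_⟩
  have key : S.Q t (fun y => ENNReal.ofReal (D y)) x ≤
      ENNReal.ofReal (K + C + Real.exp (-(c * t)) * (D x - K)) := by
    refine S.le_of_super_real hG mD.ennreal_ofReal
      (fun t x => ENNReal.ofReal (K + C + Real.exp (-(c * t)) * (D x - K))) (by fun_prop)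
      (fun t ht w hw => ⟨Real.exp (-(θ * t)) * D w + C, fun r => K + C + Real.exp (-(c * (t - r))) *
        ((1 + v) * Real.exp (-(θ * r)) * D w + C' - K), add_nonneg (mul_nonneg (Real.exp_pos _).le
        (D0 w)) hC.le, ENNReal.ofReal_le_ofReal (h1 w hw t ht), by fun_prop, fun r hr => ?_,
        ENNReal.ofReal_le_ofReal ?_⟩) ht hx
    · set e := Real.exp (-(c * (t - r))) with he
      have e0 : 0 < e := Real.exp_pos _
      have e2 : e ≤ 1 := e1 _ (by linarith [hr.2])
      have p1 : 0 ≤ K + C - e * K := by nlinarith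
      have p2 : 0 ≤ (1 + v) * Real.exp (-(θ * r)) * D w :=
        mul_nonneg (by positivity) (D0 w)
      have p3 : 0 ≤ C' := by positivity
      refine ⟨by nlinarith, ?_⟩
      calc _ = ∫⁻ m, (ENNReal.ofReal (K + C - e * K) +
            ENNReal.ofReal e * ENNReal.ofReal (D (S.j (S.φ r w) m))) ∂S.ν := by
            refine lintegral_congr fun m => ?_
            rw [← ENNReal.ofReal_mul e0.le, ← ENNReal.ofReal_add p1 (mul_nonneg e0.le (D0 _))]
            congr 1; ring
        _ ≤ ENNReal.ofReal (K + C - e * K) +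
            ENNReal.ofReal e * ENNReal.ofReal ((1 + v) * D (S.φ r w) + C) := by
            rw [lintegral_add_left measurable_const, lintegral_const_mul' _ _ ENNReal.ofReal_ne_top,
              lintegral_const, measure_univ, mul_one]
            gcongr
            exact h2 _ (hφ w hw r hr.1)
        _ ≤ _ := by
            have := D0 (S.φ r w)
            rw [← ENNReal.ofReal_mul e0.le, ← ENNReal.ofReal_add p1 (by positivity)]
            refine ENNReal.ofReal_le_ofReal ?_
            have h3 := mul_le_mul_of_nonneg_left (h1 w hw r hr.1) (show 0 ≤ e * (1 + v) by positivity)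
            rw [hC']; nlinarith
    · have : ∀ r, S.l * Real.exp (-(S.l * r)) * (K + C + Real.exp (-(c * (t - r))) *
          ((1 + v) * Real.exp (-(θ * r)) * D w + C' - K)) =
          (S.l * (K + C)) * Real.exp (-(S.l * r)) +
          (S.l * (1 + v) * Real.exp (-(c * t)) * D w) * Real.exp (-((S.l * (1 + v)) * r)) +
          (S.l * (C' - K) * Real.exp (-(c * t))) * Real.exp (-((S.l - c) * r)) := fun r => by
        have a1 : Real.exp (-((S.l * (1 + v)) * r)) * Real.exp (-(c * t)) = Real.exp (-(S.l * r)) *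
            Real.exp (-(c * (t - r))) * Real.exp (-(θ * r)) := by
          simp only [← Real.exp_add]; congr 1; rw [hc]; ring
        have a2 : Real.exp (-((S.l - c) * r)) * Real.exp (-(c * t)) = Real.exp (-(S.l * r)) *
            Real.exp (-(c * (t - r))) := by
          simp only [← Real.exp_add]; congr 1; ring
        linear_combination (-(S.l * (1 + v) * D w)) * a1 - (S.l * (C' - K)) * a2
      simp_rw [this]
      rw [int3 hl.ne' (by positivity) (by linarith : S.l - c ≠ 0)]
      have a1 : Real.exp (-((S.l * (1 + v)) * t)) * Real.exp (-(c * t)) = Real.exp (-(S.l * t)) *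
          Real.exp (-(θ * t)) := by
        simp only [← Real.exp_add]; congr 1; rw [hc]; ring
      have a2 : Real.exp (-((S.l - c) * t)) * Real.exp (-(c * t)) = Real.exp (-(S.l * t)) := by
        simp only [← Real.exp_add]; congr 1; ring
      have a3 : S.l * (C' - K) = -K * (S.l - c) := by linarith
      have n1 : S.l - c ≠ 0 := by linarith
      rw [a3]
      refine le_of_eq ?_
      generalize Real.exp (-((S.l * (1 + v)) * t)) = E1 at *
      generalize Real.exp (-((S.l - c) * t)) = E2 at *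
      generalize Real.exp (-(S.l * t)) = E3 at *
      generalize Real.exp (-(θ * t)) = E4 at *
      generalize Real.exp (-(c * t)) = E5 at *
      field_simp
      linear_combination (-D w) * a1 + K * a2
  have nn : 0 ≤ K + C + Real.exp (-(c * t)) * (D x - K) := by
    have := e1 t ht; have := D0 x; have := Real.exp_pos (-(c * t)); nlinarith
  rw [← S.lint_K mD.ennreal_ofReal] at key
  have iD : Integrable D (S.K t x) := ⟨mD.aestronglyMeasurable,
    (hasFiniteIntegral_iff_ofReal (ae_of_all _ D0)).2 (key.trans_lt ENNReal.ofReal_lt_top)⟩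
  refine ⟨iD, ?_⟩
  rw [← ofReal_integral_eq_lintegral_ofReal iD (ae_of_all _ D0),
    ENNReal.ofReal_le_ofReal_iff nn] at key
  have := Real.exp_pos (-(c * t))
  nlinarith

lemma escape {T B : Set W} (mT : MeasurableSet T) (mB : MeasurableSet B) {U : W → ℝ}
    (mU : Measurable U) (U0 : ∀ x, 0 ≤ U x) {θ v A : ℝ} (hv : v < 1) (hA : 0 ≤ A)
    (hθ : θ < S.l * v)
    (h1 : ∀ w ∈ T, ∀ t, 0 ≤ t → S.φ t w ∈ B → 1 ≤ (1 + A) * Real.exp (θ * t) * U w)
    (h2 : ∀ w ∈ T, ∀ r, 0 ≤ r → 1 ≤ (1 - v) * Real.exp (θ * r) * U w ∨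
      ((∀ᵐ m ∂S.ν, S.j (S.φ r w) m ∈ T) ∧ ∫⁻ m, ENNReal.ofReal (U (S.j (S.φ r w) m)) ∂S.ν ≤
        ENNReal.ofReal ((1 - v) * Real.exp (θ * r) * U w)))
    {t : ℝ} (ht : 0 ≤ t) {w : W} (hw : w ∈ T) :
    S.K t w B ≤ ENNReal.ofReal ((1 + A * Real.exp (-((S.l * v - θ) * t))) * U w) := by
  classical
  have hl := S.hl
  set c := S.l * v - θ with hc
  have c0 : 0 < c := by linarith
  set u : ℝ → W → ℝ≥0∞ := fun t x =>
    if x ∈ T then min 1 (ENNReal.ofReal ((1 + A * Real.exp (-(c * t))) * U x)) else 1 with hu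
  have mu : Measurable fun p : ℝ × W => u p.1 p.2 :=
    Measurable.ite (measurable_snd mT) (measurable_const.min (by fun_prop)) measurable_const
  have u1 : ∀ t x, u t x ≤ 1 := fun t x => by
    simp only [hu]; split_ifs; exacts [min_le_left _ _, le_rfl]
  have i1 : ∀ x, indicator B (1 : W → ℝ≥0∞) x ≤ 1 := fun x => by
    by_cases h : x ∈ B <;> simp [h]
  have triv : ∀ t, 0 ≤ t → ∀ w, ∃ (A : ℝ) (F : ℝ → ℝ), 0 ≤ A ∧
      indicator B (1 : W → ℝ≥0∞) (S.φ t w) ≤ ENNReal.ofReal A ∧
      Continuous F ∧ (∀ r ∈ Icc 0 t, 0 ≤ F r ∧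
        ∫⁻ m, u (t - r) (S.j (S.φ r w) m) ∂S.ν ≤ ENNReal.ofReal (F r)) ∧
      ENNReal.ofReal (Real.exp (-(S.l * t)) * A +
        ∫ r in (0 : ℝ)..t, S.l * Real.exp (-(S.l * r)) * F r) ≤ 1 := fun t ht w => by
    refine ⟨1, fun _ => 1, zero_le_one, by simpa using i1 _, continuous_const,
      fun r _ => ⟨zero_le_one, by simpa using lintegral_mono (μ := S.ν) fun m => u1 (t - r) _⟩, ?_⟩
    simp only [mul_one]
    rw [intervalIntegral.integral_const_mul, int_exp hl.ne', ENNReal.ofReal_le_one]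
    field_simp; linarith
  rw [S.K_set mB]
  refine le_trans (S.le_of_super_real (G := univ) (fun _ _ => ae_of_all _ fun _ => trivial)
    (measurable_one.indicator mB) u mu (fun t ht w _ => ?_) ht trivial)
    (by simp only [hu, if_pos hw]; exact min_le_right _ _)
  by_cases hw : w ∈ T
  swap
  · simp only [hu, if_neg hw]; exact triv t ht w
  by_cases hm : 1 ≤ ENNReal.ofReal ((1 + A * Real.exp (-(c * t))) * U w)
  · have : u t w = 1 := by simp only [hu, if_pos hw, min_eq_left hm]
    rw [this]; exact triv t ht w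
  have : u t w = ENNReal.ofReal ((1 + A * Real.exp (-(c * t))) * U w) := by
    simp only [hu, if_pos hw, min_eq_right (not_le.1 hm).le]
  rw [this]
  have Uw := U0 w
  have v1 : 0 < 1 - v := by linarith
  refine ⟨(1 + A) * Real.exp (θ * t) * U w, fun r => (1 + A * Real.exp (-(c * (t - r)))) *
    ((1 - v) * Real.exp (θ * r) * U w), by positivity, ?_, by fun_prop,
    fun r hr => ⟨by positivity, ?_⟩, ENNReal.ofReal_le_ofReal ?_⟩
  · by_cases h : S.φ t w ∈ B
    · simpa [h] using h1 w hw t ht h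
    · simp [h]
  · have p : 0 ≤ A * Real.exp (-(c * (t - r))) := by positivity
    rcases h2 w hw r hr.1 with h | ⟨h, h'⟩
    · refine le_trans (lintegral_mono (μ := S.ν) fun m => u1 (t - r) _) ?_
      simp only [lintegral_const, measure_univ, mul_one, ENNReal.one_le_ofReal]
      nlinarith
    · calc _ ≤ ∫⁻ m, ENNReal.ofReal (1 + A * Real.exp (-(c * (t - r)))) *
            ENNReal.ofReal (U (S.j (S.φ r w) m)) ∂S.ν := by
            refine lintegral_mono_ae (h.mono fun m hm => ?_)
            simp only [hu, if_pos hm]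
            rw [← ENNReal.ofReal_mul (by linarith)]; exact min_le_right _ _
        _ ≤ _ := by
            rw [lintegral_const_mul' _ _ ENNReal.ofReal_ne_top, ENNReal.ofReal_mul (by linarith)]
            gcongr
  · have : ∀ r, S.l * Real.exp (-(S.l * r)) * ((1 + A * Real.exp (-(c * (t - r)))) *
        ((1 - v) * Real.exp (θ * r) * U w)) = 0 * Real.exp (-(S.l * r)) +
          (S.l * (1 - v) * U w) * Real.exp (-((S.l - θ) * r)) +
          (S.l * (1 - v) * U w * A * Real.exp (-(c * t))) * Real.exp (-((S.l * (1 - v)) * r)) :=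
      fun r => by
        have a1 : Real.exp (-((S.l - θ) * r)) = Real.exp (-(S.l * r)) * Real.exp (θ * r) := by
          simp only [← Real.exp_add]; congr 1; ring
        have a2 : Real.exp (-((S.l * (1 - v)) * r)) * Real.exp (-(c * t)) = Real.exp (-(S.l * r)) *
            Real.exp (-(c * (t - r))) * Real.exp (θ * r) := by
          simp only [← Real.exp_add]; congr 1; rw [hc]; ring
        linear_combination (-(S.l * (1 - v) * U w)) * a1 - (S.l * (1 - v) * U w * A) * a2
    simp_rw [this]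
    have n1 : 0 < S.l - θ := by nlinarith
    rw [int3 hl.ne' n1.ne' (by positivity)]
    have a1 : Real.exp (-((S.l - θ) * t)) = Real.exp (-(S.l * t)) * Real.exp (θ * t) := by
      simp only [← Real.exp_add]; congr 1; ring
    have a2 : Real.exp (-((S.l * (1 - v)) * t)) * Real.exp (-(c * t)) = Real.exp (-(S.l * t)) *
        Real.exp (θ * t) := by
      simp only [← Real.exp_add]; congr 1; rw [hc]; ring
    have a3 : Real.exp (-((S.l - θ) * t)) ≤ 1 := Real.exp_le_one_iff.2 (by nlinarith)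
    have b1 : S.l * (1 - v) * U w * ((1 - Real.exp (-((S.l - θ) * t))) / (S.l - θ)) ≤
        U w * (1 - Real.exp (-((S.l - θ) * t))) := by
      rw [← mul_div_assoc, div_le_iff₀ n1]
      have := mul_nonneg (mul_nonneg Uw (sub_nonneg.2 a3)) c0.le
      rw [hc] at this; nlinarith
    have b2 : S.l * (1 - v) * U w * A * Real.exp (-(c * t)) *
        ((1 - Real.exp (-((S.l * (1 - v)) * t))) / (S.l * (1 - v))) =
        U w * A * (Real.exp (-(c * t)) - Real.exp (-(S.l * t)) * Real.exp (θ * t)) := by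
      rw [← a2]; field_simp
    rw [b2]; rw [a1] at b1 ⊢
    nlinarith

end Sys
end Pool.Agent.Lib.helper1.Tq
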