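import Pool.Agent.Lib.helper1.Tq4

set_option autoImplicit false

namespace Pool.Agent.Lib.helper1.Tq

open MeasureTheory ProbabilityTheory Set Filter Topology
open scoped ENNReal

abbrev St := Fin 3 → ℝ

def drain (r : ℝ) (w : St) : St := fun i => max (w i - r) 0

noncomputable def join (w : St) (m : Fin 3 × ℝ × ℝ) : St :=
  if w m.1 < w (m.1 + 1) then Function.update w m.1 (w m.1 + m.2.1)
  else Function.update w (m.1 + 1) (w (m.1 + 1) + m.2.2)

def add (w : St) (k : Fin 3) (s : ℝ) : St := Function.update w k (w k + s)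

lemma meas_add (k : Fin 3) : Measurable fun p : St × ℝ => add p.1 k p.2 :=
  measurable_update'.comp
    (measurable_fst.prodMk (((measurable_pi_apply k).comp measurable_fst).add measurable_snd))

lemma meas_join : Measurable fun p : St × (Fin 3 × ℝ × ℝ) => join p.1 p.2 := by
  have h : Measurable fun q : (St × ℝ × ℝ) × Fin 3 => join q.1.1 (q.2, q.1.2) := by
    refine measurable_from_prod_countable_left fun i => ?_
    exact Measurable.ite (measurableSet_lt ((measurable_pi_apply i).comp measurable_fst)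
      ((measurable_pi_apply (i + 1)).comp measurable_fst))
      ((meas_add i).comp (measurable_fst.prodMk measurable_snd.fst))
      ((meas_add (i + 1)).comp (measurable_fst.prodMk measurable_snd.snd))
  exact h.comp ((measurable_fst.prodMk measurable_snd.snd).prodMk measurable_snd.fst)

instance : IsProbabilityMeasure ((3 : ℝ≥0∞)⁻¹ • (Measure.count : Measure (Fin 3))) :=
  ⟨by simp [ENNReal.inv_mul_cancel]⟩

noncomputable def sys {l : ℝ} (hl : 0 < l) (Fl Fr : Measure ℝ) [IsProbabilityMeasure Fl]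
    [IsProbabilityMeasure Fr] : Sys St (Fin 3 × ℝ × ℝ) where
  φ := drain
  j := join
  l := l
  ν := ((3 : ℝ≥0∞)⁻¹ • (Measure.count : Measure (Fin 3))).prod (Fl.prod Fr)
  hφ := measurable_pi_lambda _ fun i => by unfold drain; fun_prop
  hj := meas_join
  hl := hl
  hν := inferInstance
  flow := fun r s w _ hs => by
    funext i; simp only [drain, max_def]; split_ifs <;> linarith

noncomputable def law (l : ℝ) (Fl Fr : Measure ℝ) (w : St) (t : ℝ) : Measure St :=
  (Measure.infinitePi fun _ : ℕ => (expMeasure l).prod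
    (((3 : ℝ≥0∞)⁻¹ • (Measure.count : Measure (Fin 3))).prod (Fl.prod Fr))).map
    fun ω => work drain join w ω t

def Stable (l : ℝ) (Fl Fr : Measure ℝ) (w : St) : Prop :=
  ∃ π : Measure St, IsProbabilityMeasure π ∧ π {x | ∀ i, 0 ≤ x i} = 1 ∧
    ∀ f : BoundedContinuousFunction St ℝ,
      Tendsto (fun t => ∫ x, f x ∂(law l Fl Fr w t)) atTop (𝓝 (∫ x, f x ∂π))

/-- two-point law -/
noncomputable def tp (e x y : ℝ) : Measure ℝ :=
  ENNReal.ofReal (1 - e) • Measure.dirac x + ENNReal.ofReal e • Measure.dirac y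

lemma lint_tp {e : ℝ} (h0 : 0 ≤ e) (h1 : e ≤ 1) (x y : ℝ) {g : ℝ → ℝ} (hg : ∀ a, 0 ≤ g a) :
    ∫⁻ a, ENNReal.ofReal (g a) ∂tp e x y = ENNReal.ofReal ((1 - e) * g x + e * g y) := by
  have : 0 ≤ 1 - e := by linarith
  rw [tp, lintegral_add_measure, lintegral_smul_measure, lintegral_smul_measure, lintegral_dirac,
    lintegral_dirac, ENNReal.ofReal_add (mul_nonneg this (hg _)) (mul_nonneg h0 (hg _)),
    ENNReal.ofReal_mul this, ENNReal.ofReal_mul h0]; rfl

lemma prob_tp {e : ℝ} (h0 : 0 ≤ e) (h1 : e ≤ 1) (x y : ℝ) : IsProbabilityMeasure (tp e x y) :=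
  ⟨by simpa using lint_tp h0 h1 x y (g := fun _ => 1) fun _ => zero_le_one⟩

lemma ae_tp (e x y : ℝ) : ∀ᵐ a ∂tp e x y, a = x ∨ a = y := by
  rw [tp, ae_add_measure_iff]
  exact ⟨Measure.ae_smul_measure (by simp [ae_dirac_eq]) _,
    Measure.ae_smul_measure (by simp [ae_dirac_eq]) _⟩

lemma tp_Iic (e : ℝ) {x y : ℝ} (hx : 0 < x) (hy : 0 < y) : tp e x y (Iic 0) = 0 := by
  simp [tp, hx, hy]

lemma int_tp (e x y : ℝ) : Integrable id (tp e x y) :=
  ((integrable_dirac (by simp)).smul_measure ENNReal.ofReal_ne_top).add_measure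
    ((integrable_dirac (by simp)).smul_measure ENNReal.ofReal_ne_top)

lemma mean_tp {e : ℝ} (h0 : 0 ≤ e) (h1 : e ≤ 1) (x y : ℝ) :
    ∫ a, a ∂tp e x y = (1 - e) * x + e * y := by
  rw [tp, integral_add_measure ((integrable_dirac (by simp)).smul_measure ENNReal.ofReal_ne_top)
    ((integrable_dirac (by simp)).smul_measure ENNReal.ofReal_ne_top)]
  simp [ENNReal.toReal_ofReal h0, ENNReal.toReal_ofReal (sub_nonneg.2 h1)]

/-- three times the mean of `g` after an arrival -/
noncomputable def J (el a1 a2 er b1 b2 : ℝ) (g : St → ℝ) (x : St) : ℝ :=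
  ∑ i, if x i < x (i + 1) then (1 - el) * g (add x i a1) + el * g (add x i a2)
    else (1 - er) * g (add x (i + 1) b1) + er * g (add x (i + 1) b2)

section
variable {l : ℝ} (hl : 0 < l)

lemma lint_J {el er : ℝ} (h0 : 0 ≤ el) (h1 : el ≤ 1) (h2 : 0 ≤ er) (h3 : er ≤ 1) (a1 a2 b1 b2 : ℝ)
    [IsProbabilityMeasure (tp el a1 a2)] [IsProbabilityMeasure (tp er b1 b2)]
    {g : St → ℝ} (mg : Measurable g) (hg : ∀ x, 0 ≤ g x) (x : St) :
    ∫⁻ m, ENNReal.ofReal (g (join x m)) ∂(sys hl (tp el a1 a2) (tp er b1 b2)).ν =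
      ENNReal.ofReal (J el a1 a2 er b1 b2 g x / 3) := by
  have hm : Measurable fun m => ENNReal.ofReal (g (join x m)) :=
    (mg.comp (meas_join.comp (measurable_const.prodMk measurable_id))).ennreal_ofReal
  have : 0 ≤ 1 - el := by linarith
  have : 0 ≤ 1 - er := by linarith
  show ∫⁻ m, _ ∂(Measure.prod _ _) = _
  rw [lintegral_prod _ hm.aemeasurable, lintegral_smul_measure,
    lintegral_count (α := Fin 3), tsum_fintype, J,
    ENNReal.ofReal_div_of_pos three_pos, ENNReal.ofReal_sum_of_nonneg (fun i _ => by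
      have := hg; split_ifs <;> exact add_nonneg (mul_nonneg ‹_› (hg _)) (mul_nonneg ‹_› (hg _))),
    smul_eq_mul, ENNReal.div_eq_inv_mul, ENNReal.ofReal_ofNat]
  congr 1
  refine Finset.sum_congr rfl fun i _ => ?_
  have hm' : Measurable fun y : ℝ × ℝ => ENNReal.ofReal (g (join x (i, y))) :=
    hm.comp measurable_prodMk_left
  rw [lintegral_prod _ hm'.aemeasurable]
  by_cases h : x i < x (i + 1)
  · simp only [join, if_pos h, lintegral_const, measure_univ, mul_one]
    exact lint_tp h0 h1 _ _ (g := fun a => g (add x i a)) fun _ => hg _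
  · simp only [join, if_neg h, lintegral_const, measure_univ, mul_one]
    exact lint_tp h2 h3 _ _ (g := fun a => g (add x (i + 1) a)) fun _ => hg _

lemma ae_ν (el er a1 a2 b1 b2 : ℝ)
    [IsProbabilityMeasure (tp el a1 a2)] [IsProbabilityMeasure (tp er b1 b2)] :
    ∀ᵐ m ∂(sys hl (tp el a1 a2) (tp er b1 b2)).ν,
      (m.2.1 = a1 ∨ m.2.1 = a2) ∧ (m.2.2 = b1 ∨ m.2.2 = b2) :=
  Measure.quasiMeasurePreserving_snd.ae ((Measure.quasiMeasurePreserving_fst.ae (ae_tp el a1 a2)).and
    (Measure.quasiMeasurePreserving_snd.ae (ae_tp er b1 b2)))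

variable (Fl Fr : Measure ℝ) [IsProbabilityMeasure Fl] [IsProbabilityMeasure Fr]

lemma law_eq (w : St) (t : ℝ) : law l Fl Fr w t = (sys hl Fl Fr).K t w := rfl

lemma not_stable {w : St} {p : ℝ≥0∞} (hp : p < 1)
    (h : ∀ N : ℕ, ∀ᶠ t in atTop, (sys hl Fl Fr).K t w {x | x 0 < N} ≤ p) : ¬ Stable l Fl Fr w := by
  rintro ⟨π, hπ, -, hc⟩
  let π' : ProbabilityMeasure St := ⟨π, hπ⟩
  let μ' : ℝ → ProbabilityMeasure St := fun t => ⟨(sys hl Fl Fr).K t w, inferInstance⟩
  have T : Tendsto μ' atTop (𝓝 π') := ProbabilityMeasure.tendsto_iff_forall_integral_tendsto.2 hc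
  have h1 : ∀ N : ℕ, π {x | x 0 < N} ≤ p := fun N =>
    (ProbabilityMeasure.le_liminf_measure_open_of_tendsto T
      (isOpen_lt (continuous_apply 0) continuous_const)).trans
      (liminf_le_of_frequently_le' (h N).frequently)
  have h2 : (⋃ N : ℕ, {x : St | x 0 < N}) = univ :=
    eq_univ_of_forall fun x => mem_iUnion.2 (exists_nat_gt (x 0))
  have h3 := Monotone.measure_iUnion (μ := π) (s := fun N : ℕ => {x : St | x 0 < N})
    fun a b hab x hx => lt_of_lt_of_le (show x 0 < a from hx) (Nat.cast_le.2 hab)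
  rw [h2, measure_univ] at h3
  exact absurd (h3.le.trans (iSup_le h1)) (not_le.2 hp)

lemma stable {G : Set St} (mG : MeasurableSet G) (G0 : (0 : St) ∈ G) (Gn : ∀ x ∈ G, ∀ i, 0 ≤ x i)
    (hG : ∀ w ∈ G, ∀ᵐ a ∂(sys hl Fl Fr).μ, join (drain a.1 w) a.2 ∈ G)
    (hφ : ∀ w ∈ G, ∀ t, 0 ≤ t → drain t w ∈ G) {D : St → ℝ} (mD : Measurable D) (D0 : ∀ x, 0 ≤ D x)
    {θ v C : ℝ} (hv : 0 ≤ v) (hC : 0 < C) (hθ : l * v < θ) (hθl : θ < l)
    (co : ∀ x ∈ G, ∀ i, θ * x i ≤ D x)
    (h1 : ∀ w ∈ G, ∀ t, 0 ≤ t → D (drain t w) ≤ Real.exp (-(θ * t)) * D w + C)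
    (h2 : ∀ x ∈ G, ∫⁻ m, ENNReal.ofReal (D (join x m)) ∂(sys hl Fl Fr).ν ≤
      ENNReal.ofReal ((1 + v) * D x + C)) : Stable l Fl Fr 0 := by
  set S := sys hl Fl Fr with hS
  have θ0 : 0 < θ := lt_of_le_of_lt (by positivity) hθ
  obtain ⟨c, B, c0, B0, hd⟩ := S.drift hG hφ mD D0 hv hC hθ hθl h1 h2
  have st : ∀ t, 0 ≤ t → ∀ x ∈ G, ∀ᵐ y ∂S.K t x, y ∈ G := fun t ht x hx => S.stay mG hG hφ ht hx
  obtain ⟨π, hπ⟩ := weak_of_tight (fun t => (⟨S.K t 0, inferInstance⟩ : ProbabilityMeasure St))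
    (fun ε hε => by
      obtain ⟨N, hN⟩ : ∃ N : ℝ, 0 < N ∧ ENNReal.ofReal ((D 0 + B) / N) ≤ ε := by
        by_cases h : ε = ∞
        · exact ⟨1, one_pos, h ▸ le_top⟩
        · have e0 := ENNReal.toReal_pos hε.ne' h
          have := D0 0
          refine ⟨(D 0 + B) / ε.toReal, by positivity, ?_⟩
          rw [div_div_cancel₀ (by positivity), ENNReal.ofReal_toReal h]
      refine ⟨Icc 0 fun _ => N / θ, isCompact_Icc, fun t ht => le_trans ?_ hN.2⟩
      obtain ⟨i1, i2⟩ := hd t ht 0 G0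
      have m1 := mul_meas_ge_le_integral_of_nonneg (ae_of_all _ D0) i1 N
      have : Real.exp (-(c * t)) ≤ 1 := Real.exp_le_one_iff.2 (by nlinarith)
      calc _ ≤ S.K t 0 {x | N ≤ D x} := by
            refine measure_mono_ae ((st t ht 0 G0).mono fun x hx hx' => ?_)
            by_contra hc
            refine hx' ⟨Gn x hx, fun i => ?_⟩
            rw [le_div_iff₀ θ0]
            have : D x < N := not_le.1 hc
            linarith [co x hx i]
        _ ≤ _ := by
            rw [← ofReal_measureReal]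
            refine ENNReal.ofReal_le_ofReal ?_
            rw [le_div_iff₀ hN.1]
            nlinarith [D0 0])
    (fun f => harris S.K (fun s t hs ht => S.semi hs ht) G0 (fun x _ => D0 x) st
      (fun t ht x hx => (hd t ht x hx).1) c0 B0 (fun t ht x hx => (hd t ht x hx).2)
      (fun R => ⟨max (R / θ) 0, fun h hh => ⟨_, Real.exp_pos (-(S.l * h)), fun x hx hR => by
        have : S.φ h x = 0 := by
          funext i
          have h3 : R / θ ≤ h := (le_max_left _ _).trans hh
          rw [div_le_iff₀ θ0] at h3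
          refine max_eq_right ?_
          have := co x hx i
          nlinarith
        rw [← this]; exact S.minor ((le_max_right _ _).trans hh) x⟩⟩)
      f.continuous.measurable (C := ‖f‖) fun x => f.norm_coe_le_norm x)
  refine ⟨π, inferInstance, le_antisymm prob_le_one ?_,
    ProbabilityMeasure.tendsto_iff_forall_integral_tendsto.1 hπ⟩
  have cl : IsClosed {x : St | ∀ i, 0 ≤ x i} := isClosed_Ici (a := (0 : St))
  refine le_trans (le_limsup_of_frequently_le' ((eventually_ge_atTop 0).mono fun t ht => ?_).frequently)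
    (ProbabilityMeasure.limsup_measure_closed_le_of_tendsto hπ cl)
  refine le_of_eq ((mem_ae_iff_prob_eq_one (μ := S.K t 0) cl.measurableSet).1 ?_).symm
  exact (st t ht 0 G0).mono fun x hx => Gn x hx

end
end Pool.Agent.Lib.helper1.Tq
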