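import Pool.Agent.Lib.helper1.Tq5

set_option autoImplicit false

namespace Pool.Agent.Lib.helper1.Tq

open MeasureTheory ProbabilityTheory Set Filter Topology
open scoped ENNReal

noncomputable def dd (n : ℝ) (w : St) : Fin 3 → ℤ := fun i => ⌈n * (w (i + 1) - w i)⌉

def jz (d : Fin 3 → ℤ) (k : Fin 3) (z : ℤ) : Fin 3 → ℤ :=
  fun i => if i = k then d i - z else if i + 1 = k then d i + z else d i

lemma dd_add {n s : ℝ} {z : ℤ} (h : n * s = z) (w : St) (k : Fin 3) :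
    dd n (add w k s) = jz (dd n w) k z := by
  funext i
  unfold dd jz add
  have h1 : ∀ i : Fin 3, i + 1 ≠ i := by decide
  split_ifs with h2 h3
  · subst h2
    rw [Function.update_self, Function.update_of_ne (h1 i), ← Int.ceil_sub_intCast, ← h]
    congr 1; ring
  · subst h3
    rw [Function.update_self, Function.update_of_ne h2, ← Int.ceil_add_intCast, ← h]
    congr 1; ring
  · rw [Function.update_of_ne h2, Function.update_of_ne h3]

lemma lt_iff {n : ℝ} (hn : 0 < n) (w : St) (i : Fin 3) : w i < w (i + 1) ↔ 1 ≤ dd n w i := by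
  unfold dd; rw [Int.one_le_ceil_iff, mul_pos_iff_of_pos_left hn, sub_pos]

lemma sum_jz (d : Fin 3 → ℤ) (k : Fin 3) (z : ℤ) : ∑ i, jz d k z i = ∑ i, d i := by
  fin_cases k <;> simp [Fin.sum_univ_three, jz] <;> ring

lemma sum_dd (n : ℝ) (w : St) : 0 ≤ ∑ i, dd n w i ∧ ∑ i, dd n w i ≤ 2 := by
  have h1 := fun i => Int.le_ceil (n * (w (i + 1) - w i))
  have h2 := fun i => Int.ceil_lt_add_one (n * (w (i + 1) - w i))
  have a0 := h1 0; have a1 := h1 1; have a2 := h1 2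
  have b0 := h2 0; have b1 := h2 1; have b2 := h2 2
  simp only [Fin.sum_univ_three, dd, Fin.reduceAdd] at *
  constructor
  · have : (0 : ℝ) ≤ ((⌈n * (w 1 - w 0)⌉ + ⌈n * (w 2 - w 1)⌉ + ⌈n * (w 0 - w 2)⌉ : ℤ) : ℝ) := by
      push_cast; linarith
    exact_mod_cast this
  · have : ((⌈n * (w 1 - w 0)⌉ + ⌈n * (w 2 - w 1)⌉ + ⌈n * (w 0 - w 2)⌉ : ℤ) : ℝ) < 3 := by
      push_cast; linarith
    have : ⌈n * (w 1 - w 0)⌉ + ⌈n * (w 2 - w 1)⌉ + ⌈n * (w 0 - w 2)⌉ < 3 := by exact_mod_cast this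
    omega

lemma int_of_zero {n : ℝ} {w : St} (h : ∑ i, dd n w i = 0) (i : Fin 3) :
    (dd n w i : ℝ) = n * (w (i + 1) - w i) := by
  have h1 := fun i => Int.le_ceil (n * (w (i + 1) - w i))
  have a0 := h1 0; have a1 := h1 1; have a2 := h1 2
  have h' : ((∑ i, dd n w i : ℤ) : ℝ) = 0 := by exact_mod_cast h
  simp only [Fin.sum_univ_three, dd, Fin.reduceAdd] at *
  push_cast at h'
  fin_cases i <;> simp only [Fin.reduceFinMk, Fin.reduceAdd, Fin.zero_eta, Fin.mk_one] <;> linarith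

lemma meas_dd (n : ℝ) : Measurable (dd n) :=
  measurable_pi_lambda _ fun i => Int.measurable_ceil.comp (by fun_prop)

lemma drain_eq {w : St} {r : ℝ} (h : ∀ i, r ≤ w i) (i : Fin 3) : drain r w i = w i - r :=
  max_eq_left (by linarith [h i])

lemma dd_drain (n : ℝ) {w : St} {r : ℝ} (h : ∀ i, r ≤ w i) : dd n (drain r w) = dd n w := by
  funext i; unfold dd; rw [drain_eq h, drain_eq h]; congr 2; ring

lemma dd_dom {n : ℝ} (hn : 0 < n) (w : St) (r : ℝ) (i : Fin 3) :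
    max (dd n (drain r w) i) 0 ≤ max (dd n w i) 0 ∧
      max (-dd n (drain r w) i) 0 ≤ max (-dd n w i) 0 := by
  unfold dd
  rcases le_total (w i) (w (i + 1)) with h | h
  · have h1 : 0 ≤ drain r w (i + 1) - drain r w i ∧
        drain r w (i + 1) - drain r w i ≤ w (i + 1) - w i := by
      simp only [drain, max_def]; split_ifs <;> constructor <;> linarith
    have h2 := Int.ceil_mono (mul_le_mul_of_nonneg_left h1.2 hn.le)
    have h3 := Int.ceil_nonneg (mul_nonneg hn.le h1.1)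
    omega
  · have h1 : drain r w (i + 1) - drain r w i ≤ 0 ∧
        w (i + 1) - w i ≤ drain r w (i + 1) - drain r w i := by
      simp only [drain, max_def]; split_ifs <;> constructor <;> linarith
    have h2 := Int.ceil_mono (mul_le_mul_of_nonneg_left h1.2 hn.le)
    have h3 := Int.ceil_nonpos.2 (mul_nonpos_of_nonneg_of_nonpos hn.le h1.1)
    omega

def XX (d : Fin 3 → ℤ) : ℤ := max (d 0) 0 + max (d 1) 0 + max (d 2) 0

lemma XX_ge {n : ℝ} (hn : 1 ≤ n) (w : St) {i j : Fin 3} (h : w i ≤ w j) :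
    w j - w i ≤ XX (dd n w) := by
  have h1 : ∀ i, n * (w (i + 1) - w i) ≤ ((max (dd n w i) 0 : ℤ) : ℝ) := fun i =>
    (Int.le_ceil _).trans (Int.cast_le.2 (le_max_left _ _))
  have h2 : ∀ i, (0 : ℝ) ≤ ((max (dd n w i) 0 : ℤ) : ℝ) := fun i => Int.cast_nonneg (le_max_right _ _)
  have a0 := h1 0; have a1 := h1 1; have a2 := h1 2
  have b0 := h2 0; have b1 := h2 1; have b2 := h2 2
  have h3 : w j - w i ≤ n * (w j - w i) := by nlinarith
  refine h3.trans ?_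
  unfold XX; rw [Int.cast_add, Int.cast_add]
  simp only [Fin.reduceAdd] at a0 a1 a2
  fin_cases i <;> fin_cases j <;>
    simp only [Fin.reduceFinMk, Fin.zero_eta, Fin.mk_one] <;> linarith

def JZ (H : (Fin 3 → ℤ) → ℤ) (a1 a2 b : ℤ) (d : Fin 3 → ℤ) : ℤ :=
  ∑ i, if 1 ≤ d i then H (jz d i a1) + H (jz d i a2) else 2 * H (jz d (i + 1) b)

def NR (d : Fin 3 → ℤ) : ℤ := ∑ i, if 1 ≤ d i then 0 else 1

noncomputable def Jm (e : ℝ) (x Y : St) : ℝ :=
  ∑ i, if x i < x (i + 1) then Y i else (1 + e) * Y (i + 1)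

lemma weights {n e : ℝ} (hn : 0 < n) (h0 : 0 ≤ e) (h1 : e ≤ 1) {x Y : St}
    (h : ∀ i j, x i ≤ x j → Y i ≤ Y j) :
    Jm e x Y ≤ (1 + e * (NR (dd n x) : ℝ) / 3) * ∑ i, Y i := by
  have a01 := h 0 1; have a10 := h 1 0; have a02 := h 0 2; have a20 := h 2 0
  have a12 := h 1 2; have a21 := h 2 1
  unfold NR Jm
  simp only [← lt_iff hn, Fin.sum_univ_three, Fin.reduceAdd]
  split_ifs with c0 c1 c2 c2 c1 c2 c2 <;> push_cast <;> (try push Not at *)
  · linarith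
  · nlinarith [a01 (by linarith), a12 (by linarith)]
  · nlinarith [a20 (by linarith), a01 (by linarith)]
  · nlinarith [a02 (by linarith), a21 (by linarith)]
  · nlinarith [a12 (by linarith), a20 (by linarith)]
  · nlinarith [a10 (by linarith), a02 (by linarith)]
  · nlinarith [a21 (by linarith), a10 (by linarith)]
  · linarith

lemma J_lin {e a1 a2 : ℝ} (h0 : 0 ≤ e) (h1 : e ≤ 1) (ha : a1 + a2 = 2) {F g : St → ℝ} {x Y : St}
    {α β γ : ℝ} (h : ∀ k s, s = a1 ∨ s = a2 ∨ s = 1 ∨ s = 2 →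
      F (add x k s) ≤ α + β * g (add x k s) + γ * s * Y k) :
    J (1 / 2) a1 a2 e 1 2 F x ≤ 3 * α + β * J (1 / 2) a1 a2 e 1 2 g x + γ * Jm e x Y := by
  unfold J Jm
  rw [Finset.mul_sum, Finset.mul_sum, show 3 * α = ∑ _i : Fin 3, α by simp,
    ← Finset.sum_add_distrib, ← Finset.sum_add_distrib]
  refine Finset.sum_le_sum fun i _ => ?_
  split_ifs
  · have p := h i a1 (by simp); have q := h i a2 (by simp)
    have : γ * Y i * (a1 + a2) = γ * Y i * 2 := by rw [ha]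
    linarith
  · have p := mul_le_mul_of_nonneg_left (h (i + 1) 1 (by simp)) (sub_nonneg.2 h1)
    have q := mul_le_mul_of_nonneg_left (h (i + 1) 2 (by simp)) h0
    linarith

/-- lattice data -/
structure Lat (n e a1 a2 : ℝ) (z1 z2 b : ℤ) (H : (Fin 3 → ℤ) → ℤ) (L : ℤ) : Prop where
  n1 : 1 ≤ n
  e0 : 0 ≤ e
  e1 : e ≤ 1
  ha : a1 + a2 = 2
  p1 : 0 < a1
  p2 : 0 < a2
  h1 : n * a1 = z1
  h2 : n * a2 = z2
  hb : n * 1 = b
  lip : ∀ d k z, z = z1 ∨ z = z2 ∨ z = b ∨ z = 2 * b → |H (jz d k z) - H d| ≤ L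

variable {n e a1 a2 : ℝ} {z1 z2 b : ℤ} {H : (Fin 3 → ℤ) → ℤ} {L : ℤ}

lemma Lat.hb2 (h : Lat n e a1 a2 z1 z2 b H L) : n * 2 = ((2 * b : ℤ) : ℝ) := by
  push_cast; linarith [h.hb]

lemma Lat.step (h : Lat n e a1 a2 z1 z2 b H L) (x : St) (k : Fin 3) {s : ℝ}
    (hs : s = a1 ∨ s = a2 ∨ s = 1 ∨ s = 2) : 0 < s ∧ s ≤ 2 ∧ (∃ z : ℤ, n * s = z) ∧
      |(H (dd n (add x k s)) : ℝ) - H (dd n x)| ≤ L := by
  have := h.p1; have := h.p2; have := h.ha
  rcases hs with rfl | rfl | rfl | rfl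
  · exact ⟨by linarith, by linarith, ⟨_, h.h1⟩, by
      rw [dd_add h.h1]; exact_mod_cast h.lip _ _ _ (by simp)⟩
  · exact ⟨by linarith, by linarith, ⟨_, h.h2⟩, by
      rw [dd_add h.h2]; exact_mod_cast h.lip _ _ _ (by simp)⟩
  · exact ⟨by linarith, by linarith, ⟨_, h.hb⟩, by
      rw [dd_add h.hb]; exact_mod_cast h.lip _ _ _ (by simp)⟩
  · exact ⟨by linarith, by linarith, ⟨_, h.hb2⟩, by
      rw [dd_add h.hb2]; exact_mod_cast h.lip _ _ _ (by simp)⟩

lemma Lat.JH (h : Lat n e a1 a2 z1 z2 b H L) (x : St) :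
    |J (1 / 2) a1 a2 e 1 2 (fun w => (H (dd n w) : ℝ)) x - (JZ H z1 z2 b (dd n x) : ℝ) / 2| ≤
      6 * e * L := by
  have hn : 0 < n := by linarith [h.n1]
  unfold J JZ
  push_cast
  rw [Finset.sum_div, ← Finset.sum_sub_distrib, show 6 * e * L = ∑ _i : Fin 3, 2 * e * L by
    simp; ring]
  refine (Finset.abs_sum_le_sum_abs _ _).trans (Finset.sum_le_sum fun i _ => ?_)
  have p := abs_le.1 (h.step x (i + 1) (s := 1) (by simp)).2.2.2
  have q := abs_le.1 (h.step x (i + 1) (s := 2) (by simp)).2.2.2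
  have e0 := h.e0
  simp only [lt_iff hn]
  split_ifs
  · rw [dd_add h.h1, dd_add h.h2, abs_le]; constructor <;> nlinarith
  · rw [← dd_add h.hb, abs_le]; constructor <;> nlinarith

lemma J_smul (η : ℝ) (g : St → ℝ) (x : St) :
    J (1 / 2) a1 a2 e 1 2 (fun w => η * g w) x = η * J (1 / 2) a1 a2 e 1 2 g x := by
  unfold J; rw [Finset.mul_sum]
  refine Finset.sum_congr rfl fun i _ => ?_
  split_ifs <;> ring

lemma exp_le {y : ℝ} (h : |y| ≤ 1) : Real.exp y ≤ 1 + y + y ^ 2 := by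
  linarith [(abs_le.1 (Real.abs_exp_sub_one_sub_id_le h)).2]

lemma sum_add (Φ : ℝ → ℝ) (x : St) (k : Fin 3) (s : ℝ) :
    ∑ i, Φ (add x k s i) = ∑ i, Φ (x i) + (Φ (x k + s) - Φ (x k)) := by
  fin_cases k <;> simp [Fin.sum_univ_three, add] <;> ring

lemma ae_join {l : ℝ} (hl : 0 < l) [IsProbabilityMeasure (tp (1 / 2) a1 a2)]
    [IsProbabilityMeasure (tp e 1 2)] (x : St) : ∀ᵐ m ∂(sys hl (tp (1 / 2) a1 a2) (tp e 1 2)).ν,
      ∃ k s, (s = a1 ∨ s = a2 ∨ s = 1 ∨ s = 2) ∧ join x m = add x k s := by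
  filter_upwards [ae_ν hl (1 / 2) e a1 a2 1 2] with m hm
  unfold join
  split_ifs
  · exact ⟨_, _, by tauto, rfl⟩
  · exact ⟨_, _, by tauto, rfl⟩

end Pool.Agent.Lib.helper1.Tq
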