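import Pool.Agent.Lib.helper1.Tq6

set_option autoImplicit false

namespace Pool.Agent.Lib.helper1.Tq

open MeasureTheory ProbabilityTheory Set Filter Topology
open scoped ENNReal

variable {n e a1 a2 : ℝ} {z1 z2 b : ℤ} {H : (Fin 3 → ℤ) → ℤ} {L : ℤ}

def TT (n : ℝ) (s : ℤ) : Set St := {x | (∀ i, 0 < x i) ∧ ∑ i, dd n x i = s}

noncomputable def UU (n θ η : ℝ) (H : (Fin 3 → ℤ) → ℤ) (x : St) : ℝ :=
  (∑ i, 2 * Real.exp (-(θ * x i))) * Real.exp (-(θ * (η * H (dd n x))))

lemma meas_H (n : ℝ) (H : (Fin 3 → ℤ) → ℤ) : Measurable fun x => (H (dd n x) : ℝ) :=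
  (measurable_of_countable fun d => (H d : ℝ)).comp (meas_dd n)

lemma meas_TT (n : ℝ) (s : ℤ) : MeasurableSet (TT n s) := by
  have : TT n s = (⋂ i, {x : St | 0 < x i}) ∩ dd n ⁻¹' {d | ∑ i, d i = s} := by
    ext; simp [TT]
  rw [this]
  exact (MeasurableSet.iInter fun i => measurableSet_lt measurable_const
    (measurable_pi_apply i)).inter (meas_dd n (Set.to_countable _).measurableSet)

lemma meas_UU (n θ η : ℝ) (H : (Fin 3 → ℤ) → ℤ) : Measurable (UU n θ η H) := by
  have := meas_H n H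
  unfold UU; fun_prop

lemma UU_pos (n θ η : ℝ) (H : (Fin 3 → ℤ) → ℤ) (x : St) : 0 ≤ UU n θ η H x := by
  unfold UU; positivity

lemma add_mem_TT (h : Lat n e a1 a2 z1 z2 b H L) {s0 : ℤ} {x : St} (hx : x ∈ TT n s0) (k : Fin 3)
    {s : ℝ} (hs : s = a1 ∨ s = a2 ∨ s = 1 ∨ s = 2) : add x k s ∈ TT n s0 := by
  obtain ⟨s1, -, ⟨z, hz⟩, -⟩ := h.step x k hs
  refine ⟨fun i => ?_, by rw [dd_add hz, sum_jz]; exact hx.2⟩
  have := hx.1 i
  unfold add
  rcases eq_or_ne i k with rfl | hi
  · rw [Function.update_self]; linarith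
  · rwa [Function.update_of_ne hi]

lemma JU (h : Lat n e a1 a2 z1 z2 b H L) {θ N c m : ℝ} (θ0 : 0 < θ) (θ1 : θ ≤ 1 / 3) (N0 : 0 < N)
    (hL : e / (3 * N) * L ≤ 1) (hm : m ≤ 1 + e * c / (6 * N) - 2 * e ^ 2 * L / N) (x : St)
    (pot : c ≤ 2 * N * NR (dd n x) + JZ H z1 z2 b (dd n x) - 6 * H (dd n x)) :
    J (1 / 2) a1 a2 e 1 2 (UU n θ (e / (3 * N)) H) x / 3 ≤
      (1 - (θ * m / 3 - 9 * θ ^ 2)) * UU n θ (e / (3 * N)) H x := by
  set η := e / (3 * N) with hη
  have e0 := h.e0
  have η0 : 0 ≤ η := by positivity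
  set U := UU n θ η H x with hU
  have U0 : 0 ≤ U := UU_pos _ _ _ _ _
  set G := Real.exp (-(θ * (η * H (dd n x)))) with hG
  set E : St := fun i => 2 * Real.exp (-(θ * x i)) * G with hE
  have sE : ∑ i, E i = U := by simp only [hE, hU, UU, Finset.sum_mul]; rfl
  have E0 : ∀ i, 0 ≤ E i := fun i => by simp only [hE]; positivity
  have key := J_lin h.e0 h.e1 h.ha (F := UU n θ η H) (g := fun w => η * H (dd n w)) (x := x)
    (Y := fun i => -E i) (α := U * (1 + 9 * θ ^ 2 + θ * (η * H (dd n x)))) (β := -(θ * U)) (γ := θ)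
    (fun k s hs => by
      obtain ⟨s0, s2, -, hd⟩ := h.step x k hs
      set Δ := η * H (dd n (add x k s)) - η * H (dd n x) with hΔ
      have d1 : |Δ| ≤ 1 := by
        rw [hΔ, ← mul_sub, abs_mul, abs_of_nonneg η0]
        exact (mul_le_mul_of_nonneg_left hd η0).trans hL
      obtain ⟨d2, d3⟩ := abs_le.1 d1
      have Ek : E k ≤ U := sE ▸ Finset.single_le_sum (fun i _ => E0 i) (Finset.mem_univ k)
      have q : UU n θ η H (add x k s) = Real.exp (-(θ * Δ)) * (U - E k) +
          E k * Real.exp (-(θ * (Δ + s))) := by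
        have q1 : Real.exp (-(θ * (η * H (dd n (add x k s))))) = G * Real.exp (-(θ * Δ)) := by
          rw [hG, ← Real.exp_add]; congr 1; rw [hΔ]; ring
        have q2 : Real.exp (-(θ * (x k + s))) * Real.exp (-(θ * Δ)) =
            Real.exp (-(θ * x k)) * Real.exp (-(θ * (Δ + s))) := by
          simp only [← Real.exp_add]; congr 1; ring
        rw [UU, sum_add (fun y => 2 * Real.exp (-(θ * y))), q1, hU, UU, ← hG]
        simp only [hE]
        linear_combination 2 * G * q2
      have r1 := exp_le (y := -(θ * Δ)) (by rw [abs_le]; constructor <;> nlinarith)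
      have r2 := exp_le (y := -(θ * (Δ + s))) (by rw [abs_le]; constructor <;> nlinarith)
      have r3 : (-(θ * Δ)) ^ 2 ≤ 9 * θ ^ 2 := by
        have : Δ ^ 2 ≤ 9 := by nlinarith
        nlinarith [sq_nonneg θ]
      have r4 : (-(θ * (Δ + s))) ^ 2 ≤ 9 * θ ^ 2 := by
        have : (Δ + s) ^ 2 ≤ 9 := by nlinarith
        nlinarith [sq_nonneg θ]
      have r5 := mul_le_mul_of_nonneg_right (r1.trans (add_le_add le_rfl r3)) (sub_nonneg.2 Ek)
      have r6 := mul_le_mul_of_nonneg_left (r2.trans (add_le_add le_rfl r4)) (E0 k)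
      rw [q, show η * H (dd n (add x k s)) = Δ + η * H (dd n x) by rw [hΔ]; ring]
      linarith)
  have w := weights (by linarith [h.n1] : 0 < n) h.e0 h.e1 (x := x) (Y := fun i => -E i)
    (fun i j hij => by
      simp only [hE, neg_le_neg_iff]
      gcongr)
  rw [Finset.sum_neg_distrib, sE] at w
  rw [J_smul] at key
  have j := (abs_le.1 (h.JH x)).1
  set JJ := J (1 / 2) a1 a2 e 1 2 (fun w => (H (dd n w) : ℝ)) x
  have f1 : m ≤ 1 + e * (NR (dd n x) : ℝ) / 3 + η * (JJ - 3 * H (dd n x)) := by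
    have : η * (c / 2 - N * NR (dd n x) - 6 * e * L) ≤ η * (JJ - 3 * H (dd n x)) :=
      mul_le_mul_of_nonneg_left (by linarith) η0
    have e2 : η * (c / 2 - N * NR (dd n x) - 6 * e * L) =
        e * c / (6 * N) - e * (NR (dd n x) : ℝ) / 3 - 2 * e ^ 2 * L / N := by
      rw [hη]; field_simp; ring
    linarith
  have f2 := mul_le_mul_of_nonneg_left f1 (mul_nonneg θ0.le U0)
  have f3 := mul_le_mul_of_nonneg_left w θ0.le
  linarith

lemma unstable {l : ℝ} (hl : 0 < l) [IsProbabilityMeasure (tp (1 / 2) a1 a2)]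
    [IsProbabilityMeasure (tp e 1 2)] (h : Lat n e a1 a2 z1 z2 b H L) (H0 : ∀ d, H d ≤ 0)
    {θ N c m : ℝ} {s0 : ℤ} (θ0 : 0 < θ) (θ1 : θ ≤ 1 / 3) (N0 : 0 < N) (hL : e / (3 * N) * L ≤ 1)
    (hm : m ≤ 1 + e * c / (6 * N) - 2 * e ^ 2 * L / N) (m2 : m ≤ 2)
    (hv : θ < l * (θ * m / 3 - 9 * θ ^ 2))
    (pot : ∀ d, ∑ i, d i = s0 → c ≤ 2 * N * NR d + JZ H z1 z2 b d - 6 * H d) {w : St} {t0 : ℝ}
    (ht0 : 0 ≤ t0) (reach : 0 < (sys hl (tp (1 / 2) a1 a2) (tp e 1 2)).K t0 w
      (TT n s0 ∩ {x | UU n θ (e / (3 * N)) H x ≤ 1 / 4})) :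
    ¬ Stable l (tp (1 / 2) a1 a2) (tp e 1 2) w := by
  set S := sys hl (tp (1 / 2) a1 a2) (tp e 1 2) with hS
  set η := e / (3 * N) with hη
  set v := θ * m / 3 - 9 * θ ^ 2 with hvd
  have e0 := h.e0
  have η0 : 0 ≤ η := by positivity
  have v2 : v ≤ 1 / 2 := by nlinarith [sq_nonneg θ]
  have Ul : ∀ x i, 2 * Real.exp (-(θ * x i)) ≤ UU n θ η H x := fun x i => by
    have h1 : 2 * Real.exp (-(θ * x i)) ≤ ∑ i, 2 * Real.exp (-(θ * x i)) :=
      Finset.single_le_sum (f := fun i => 2 * Real.exp (-(θ * x i))) (fun i _ => by positivity)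
        (Finset.mem_univ i)
    have h2 : (H (dd n x) : ℝ) ≤ 0 := by exact_mod_cast H0 _
    have h3 : 1 ≤ Real.exp (-(θ * (η * H (dd n x)))) :=
      Real.one_le_exp (by nlinarith [mul_nonneg θ0.le η0])
    exact h1.trans (le_mul_of_one_le_right (by positivity) h3)
  set A0 := TT n s0 ∩ {x | UU n θ η H x ≤ 1 / 4} with hA0
  have mA : MeasurableSet A0 :=
    (meas_TT _ _).inter (measurableSet_le (meas_UU _ _ _ _) measurable_const)
  refine not_stable hl _ _ (p := 2⁻¹ * S.K t0 w A0 + S.K t0 w A0ᶜ) ?_ fun M => ?_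
  · rw [← prob_add_prob_compl (μ := S.K t0 w) mA]
    refine ENNReal.add_lt_add_right (measure_ne_top _ _) ?_
    rw [← ENNReal.div_eq_inv_mul]
    exact ENNReal.half_lt_self reach.ne' (measure_ne_top _ _)
  have mB : MeasurableSet {x : St | x 0 < M} :=
    measurableSet_lt (measurable_pi_apply 0) measurable_const
  have esc : ∀ t, 0 ≤ t → ∀ x ∈ TT n s0, S.K t x {x : St | x 0 < M} ≤ ENNReal.ofReal
      ((1 + Real.exp (θ * M) * Real.exp (-((l * v - θ) * t))) * UU n θ η H x) := fun t ht x hx => by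
    refine S.escape (meas_TT _ _) mB (meas_UU _ _ _ _) (UU_pos _ _ _ _) (by linarith)
      (Real.exp_pos _).le hv (fun w hw t ht hB => ?_) (fun w hw r hr => ?_) ht hx
    · have h1 : w 0 - t < M := lt_of_le_of_lt (le_max_left _ _) hB
      have h2 : 1 ≤ Real.exp (θ * M) * Real.exp (θ * t) * Real.exp (-(θ * w 0)) := by
        simp only [← Real.exp_add]; exact Real.one_le_exp (by nlinarith)
      have h3 := mul_le_mul_of_nonneg_left (Ul w 0)
        (show 0 ≤ (1 + Real.exp (θ * M)) * Real.exp (θ * t) by positivity)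
      have : 0 ≤ Real.exp (θ * t) * Real.exp (-(θ * w 0)) := by positivity
      nlinarith
    · by_cases hc : ∀ i, r < w i
      · right
        have hc' : ∀ i, r ≤ w i := fun i => (hc i).le
        have hx : drain r w ∈ TT n s0 :=
          ⟨fun i => by rw [drain_eq hc']; linarith [hc i], by rw [dd_drain n hc']; exact hw.2⟩
        refine ⟨(ae_join hl (drain r w)).mono fun m ⟨k, s, hs, hj⟩ => ?_, ?_⟩
        · show join (drain r w) m ∈ _
          rw [hj]; exact add_mem_TT h hx k hs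
        · refine (lint_J hl (by norm_num) (by norm_num) h.e0 h.e1 a1 a2 1 2 (meas_UU _ _ _ _)
            (UU_pos _ _ _ _) (drain r w)).trans_le (ENNReal.ofReal_le_ofReal ?_)
          refine (JU h θ0 θ1 N0 hL hm _ (pot _ hx.2)).trans_eq ?_
          rw [mul_assoc (1 - v)]; congr 1
          unfold UU
          rw [dd_drain n hc', ← mul_assoc (Real.exp (θ * r)), Finset.mul_sum]
          congr 1
          refine Finset.sum_congr rfl fun i _ => ?_
          rw [drain_eq hc', mul_left_comm, ← Real.exp_add]; congr 2; ring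
      · left
        push Not at hc
        obtain ⟨i, hi⟩ := hc
        have h2 : 1 ≤ Real.exp (θ * r) * Real.exp (-(θ * w i)) := by
          simp only [← Real.exp_add]; exact Real.one_le_exp (by nlinarith)
        have h3 := mul_le_mul_of_nonneg_left (Ul w i)
          (show 0 ≤ (1 - v) * Real.exp (θ * r) from mul_nonneg (by linarith) (by positivity))
        nlinarith
  have lim : Tendsto (fun t : ℝ => Real.exp (θ * M) * Real.exp (-((l * v - θ) * (t - t0)))) atTop
      (𝓝 (Real.exp (θ * M) * 0)) :=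
    (Real.tendsto_exp_neg_atTop_nhds_zero.comp ((tendsto_atTop_add_const_right _ (-t0)
      tendsto_id).const_mul_atTop (by linarith))).const_mul _
  rw [mul_zero] at lim
  filter_upwards [lim.eventually (gt_mem_nhds one_pos), eventually_ge_atTop t0] with t h1 h2
  rw [show t = t0 + (t - t0) by ring, S.semi (by linarith) ht0, Kernel.comp_apply' _ _ _ mB]
  calc _ ≤ ∫⁻ y, (indicator A0 (fun _ => 2⁻¹) y + indicator A0ᶜ 1 y) ∂S.K t0 w := by
        refine lintegral_mono fun y => ?_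
        by_cases hy : y ∈ A0
        · rw [indicator_of_mem hy]
          refine le_trans ((esc _ (by linarith) y hy.1).trans ?_) le_self_add
          rw [← ENNReal.ofReal_ofNat, ← ENNReal.ofReal_inv_of_pos two_pos]
          refine ENNReal.ofReal_le_ofReal ?_
          have : UU n θ η H y ≤ 1 / 4 := hy.2
          have := UU_pos n θ η H y
          nlinarith
        · rw [indicator_of_mem (show y ∈ A0ᶜ from hy)]
          exact prob_le_one.trans le_add_self
    _ = _ := by
        rw [lintegral_add_left (measurable_const.indicator mA), lintegral_indicator_const mA,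
          lintegral_indicator_one mA.compl]

end Pool.Agent.Lib.helper1.Tq
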