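import Pool.Agent.Lib.helper1.Tq7

set_option autoImplicit false

namespace Pool.Agent.Lib.helper1.Tq

open MeasureTheory ProbabilityTheory Set Filter Topology
open scoped ENNReal

variable {n e a1 a2 : ℝ} {z1 z2 b : ℤ} {H : (Fin 3 → ℤ) → ℤ} {L : ℤ}

noncomputable def D0 (θ : ℝ) (x : St) : ℝ := ∑ i, (Real.exp (θ * x i) - 1)

noncomputable def DD (n θ η : ℝ) (H : (Fin 3 → ℤ) → ℤ) (x : St) : ℝ :=
  |Real.exp (θ * (η * H (dd n x))) * D0 θ x|

lemma D0_ge {θ : ℝ} (θ0 : 0 < θ) {x : St} (hx : ∀ i, 0 ≤ x i) (i : Fin 3) :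
    Real.exp (θ * x i) - 1 ≤ D0 θ x :=
  Finset.single_le_sum (f := fun i => Real.exp (θ * x i) - 1)
    (fun i _ => sub_nonneg.2 (Real.one_le_exp (mul_nonneg θ0.le (hx i)))) (Finset.mem_univ i)

lemma D0_ge' {θ : ℝ} (θ0 : 0 < θ) {x : St} (hx : ∀ i, 0 ≤ x i) (i : Fin 3) : θ * x i ≤ D0 θ x := by
  linarith [D0_ge θ0 hx i, Real.add_one_le_exp (θ * x i)]

lemma DD_eq {θ : ℝ} (θ0 : 0 < θ) (η : ℝ) {x : St} (hx : ∀ i, 0 ≤ x i) :
    DD n θ η H x = Real.exp (θ * (η * H (dd n x))) * D0 θ x :=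
  abs_of_nonneg (mul_nonneg (Real.exp_pos _).le
    ((mul_nonneg θ0.le (hx 0)).trans (D0_ge' θ0 hx 0)))

lemma add_nonneg' {x : St} (hx : ∀ i, 0 ≤ x i) (k : Fin 3) {s : ℝ} (hs : 0 ≤ s) (i : Fin 3) :
    0 ≤ add x k s i := by
  unfold add
  rcases eq_or_ne i k with rfl | hi
  · rw [Function.update_self]; linarith [hx i]
  · rw [Function.update_of_ne hi]; exact hx i

lemma DD_bdd {θ η : ℝ} (hn : 0 < n) (θ0 : 0 < θ) (η0 : 0 ≤ η) (K : ℝ) :
    ∃ C, 0 < C ∧ ∀ x : St, (∀ i, 0 ≤ x i) → (∀ i, x i ≤ K) → DD n θ η H x ≤ C := by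
  obtain ⟨B, hB⟩ := ((Set.finite_Icc (fun _ : Fin 3 => ⌈-(n * K)⌉) fun _ => ⌈n * K⌉).image H).bddAbove
  refine ⟨Real.exp (θ * (η * B)) * (3 * Real.exp (θ * K)), by positivity, fun x h0 h1 => ?_⟩
  have h2 : H (dd n x) ≤ B := hB ⟨_, ⟨fun i => Int.ceil_mono (by nlinarith [h0 (i + 1), h1 i]),
    fun i => Int.ceil_mono (by nlinarith [h0 i, h1 (i + 1)])⟩, rfl⟩
  have h3 : (H (dd n x) : ℝ) ≤ B := by exact_mod_cast h2
  rw [DD_eq θ0 η h0]
  refine mul_le_mul (by gcongr) ?_ ((mul_nonneg θ0.le (h0 0)).trans (D0_ge' θ0 h0 0)) (by positivity)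
  have : ∀ i, Real.exp (θ * x i) ≤ Real.exp (θ * K) := fun i => by gcongr; exact h1 i
  simp only [D0, Fin.sum_univ_three]
  linarith [this 0, this 1, this 2]

lemma JD (h : Lat n e a1 a2 z1 z2 b H L) {θ N c m : ℝ} (θ0 : 0 < θ) (θ1 : θ ≤ 1 / 3) (N0 : 0 < N)
    (hL : e / (3 * N) * L ≤ 1) (hm : 1 + e * c / (6 * N) + 2 * e ^ 2 * L / N ≤ m) {x : St}
    (hx : ∀ i, 0 ≤ x i) (big : 5 ≤ θ * D0 θ x)
    (pot : 2 * N * NR (dd n x) + JZ H z1 z2 b (dd n x) - 6 * H (dd n x) ≤ c) :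
    J (1 / 2) a1 a2 e 1 2 (DD n θ (e / (3 * N)) H) x / 3 ≤
      (1 + (θ * m / 3 + 11 * θ ^ 2)) * DD n θ (e / (3 * N)) H x := by
  set η := e / (3 * N) with hη
  have e0 := h.e0
  have η0 : 0 ≤ η := by positivity
  set G := Real.exp (θ * (η * H (dd n x))) with hG
  have G0 : 0 < G := Real.exp_pos _
  set P := D0 θ x with hP
  have P0 : 0 ≤ P := (mul_nonneg θ0.le (hx 0)).trans (D0_ge' θ0 hx 0)
  have key := J_lin h.e0 h.e1 h.ha (F := DD n θ η H) (g := fun w => η * H (dd n w)) (x := x)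
    (Y := fun i => Real.exp (θ * x i))
    (α := G * P * (1 + 10 * θ ^ 2 - θ * (η * H (dd n x))) + 9 * θ ^ 2 * G) (β := θ * (G * P))
    (γ := θ * G) (fun k s hs => by
      obtain ⟨s0, s2, -, hd⟩ := h.step x k hs
      set Δ := η * H (dd n (add x k s)) - η * H (dd n x) with hΔ
      have d1 : |Δ| ≤ 1 := by
        rw [hΔ, ← mul_sub, abs_mul, abs_of_nonneg η0]
        exact (mul_le_mul_of_nonneg_left hd η0).trans hL
      obtain ⟨d2, d3⟩ := abs_le.1 d1
      have Yk : Real.exp (θ * x k) - 1 ≤ P := D0_ge θ0 hx k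
      set Y := Real.exp (θ * x k) with hY
      have Y0 : 0 < Y := Real.exp_pos _
      have q : DD n θ η H (add x k s) = G * (Real.exp (θ * Δ) * P +
          Y * (Real.exp (θ * (Δ + s)) - Real.exp (θ * Δ))) := by
        have q1 : Real.exp (θ * (η * H (dd n (add x k s)))) = G * Real.exp (θ * Δ) := by
          rw [hG, ← Real.exp_add]; congr 1; rw [hΔ]; ring
        have q2 : Real.exp (θ * (x k + s)) * Real.exp (θ * Δ) = Y * Real.exp (θ * (Δ + s)) := by
          simp only [hY, ← Real.exp_add]; congr 1; ring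
        rw [DD_eq θ0 η (add_nonneg' hx k s0.le), D0, sum_add (fun y => Real.exp (θ * y) - 1), q1,
          hP, D0]
        linear_combination G * q2
      have r1 := exp_le (y := θ * Δ) (by rw [abs_le]; constructor <;> nlinarith)
      have r2 := exp_le (y := θ * (Δ + s)) (by rw [abs_le]; constructor <;> nlinarith)
      have r3 : (θ * Δ) ^ 2 ≤ θ ^ 2 := by
        have : Δ ^ 2 ≤ 1 := by nlinarith
        nlinarith [sq_nonneg θ]
      have r4 : (θ * (Δ + s)) ^ 2 ≤ 9 * θ ^ 2 := by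
        have : (Δ + s) ^ 2 ≤ 9 := by nlinarith
        nlinarith [sq_nonneg θ]
      have r5 := mul_le_mul_of_nonneg_right (r1.trans (add_le_add le_rfl r3)) P0
      have r6 : Real.exp (θ * (Δ + s)) - Real.exp (θ * Δ) ≤ θ * s + 9 * θ ^ 2 := by
        linarith [Real.add_one_le_exp (θ * Δ)]
      have r7 := mul_le_mul_of_nonneg_left r6 Y0.le
      have r8 := mul_le_mul_of_nonneg_left Yk (show 0 ≤ 9 * θ ^ 2 by positivity)
      rw [q, show η * H (dd n (add x k s)) = Δ + η * H (dd n x) by rw [hΔ]; ring]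
      have : Real.exp (θ * Δ) * P + Y * (Real.exp (θ * (Δ + s)) - Real.exp (θ * Δ)) ≤
          P * (1 + 10 * θ ^ 2 + θ * Δ) + 9 * θ ^ 2 + θ * s * Y := by linarith
      linarith [mul_le_mul_of_nonneg_left this G0.le])
  have w := weights (by linarith [h.n1] : 0 < n) h.e0 h.e1 (x := x)
    (Y := fun i => Real.exp (θ * x i)) (fun i j hij => by gcongr)
  have sY : ∑ i, Real.exp (θ * x i) = P + 3 := by
    simp only [hP, D0, Fin.sum_univ_three]; ring
  rw [sY] at w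
  rw [J_smul] at key
  have j := (abs_le.1 (h.JH x)).2
  set JJ := J (1 / 2) a1 a2 e 1 2 (fun w => (H (dd n w) : ℝ)) x
  have nr : (NR (dd n x) : ℝ) ≤ 3 := by
    have : NR (dd n x) ≤ 3 := by
      simp only [NR, Fin.sum_univ_three]; split_ifs <;> norm_num
    exact_mod_cast this
  have f1 : 1 + e * (NR (dd n x) : ℝ) / 3 + η * (JJ - 3 * H (dd n x)) ≤ m := by
    have : η * (JJ - 3 * H (dd n x)) ≤ η * (c / 2 - N * NR (dd n x) + 6 * e * L) :=
      mul_le_mul_of_nonneg_left (by linarith) η0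
    have e2 : η * (c / 2 - N * NR (dd n x) + 6 * e * L) =
        e * c / (6 * N) - e * (NR (dd n x) : ℝ) / 3 + 2 * e ^ 2 * L / N := by
      rw [hη]; field_simp; ring
    linarith
  have f0 : e * (NR (dd n x) : ℝ) ≤ 3 := by nlinarith [h.e1]
  have f2 := mul_le_mul_of_nonneg_left f1 (mul_nonneg θ0.le (mul_nonneg G0.le P0))
  have f3 := mul_le_mul_of_nonneg_left w (mul_nonneg θ0.le G0.le)
  have f4 := mul_le_mul_of_nonneg_left f0 (mul_nonneg θ0.le G0.le)
  have f5 := mul_le_mul_of_nonneg_left big (mul_nonneg θ0.le G0.le)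
  have f6 := mul_le_mul_of_nonneg_left θ1 (mul_nonneg θ0.le G0.le)
  rw [DD_eq θ0 η hx, ← hG, ← hP]
  linarith

lemma stable0 {l : ℝ} (hl : 0 < l) [IsProbabilityMeasure (tp (1 / 2) a1 a2)]
    [IsProbabilityMeasure (tp e 1 2)] (h : Lat n e a1 a2 z1 z2 b H L) (H0 : ∀ d, 0 ≤ H d)
    {θ N c m : ℝ} {K1 : ℤ} (θ0 : 0 < θ) (θ1 : θ ≤ 1 / 3) (N0 : 0 < N) (hL : e / (3 * N) * L ≤ 1)
    (hm : 1 + e * c / (6 * N) + 2 * e ^ 2 * L / N ≤ m) (m0 : 0 ≤ m) (l1 : 1 ≤ l)
    (hv : l * (θ * m / 3 + 11 * θ ^ 2) < θ)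
    (pot : ∀ d, ∑ i, d i = 1 ∨ ∑ i, d i = 2 ∨ (∑ i, d i = 0 ∧ K1 ≤ XX d) →
      2 * N * NR d + JZ H z1 z2 b d - 6 * H d ≤ c)
    (mono : ∀ d d' : Fin 3 → ℤ, K1 ≤ XX d' → (∀ i, max (d' i) 0 ≤ max (d i) 0 ∧
      max (-d' i) 0 ≤ max (-d i) 0) → H d' ≤ H d) :
    Stable l (tp (1 / 2) a1 a2) (tp e 1 2) 0 := by
  set η := e / (3 * N) with hη
  have e0 := h.e0
  have η0 : 0 ≤ η := by positivity
  have hn : 0 < n := by linarith [h.n1]
  set K : ℝ := max (5 / θ ^ 2) K1 with hK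
  obtain ⟨C, C0, hC⟩ := DD_bdd (H := H) hn θ0 η0 (K + 2)
  have far : ∀ x : St, ∀ i j, x i = 0 → K < x j → K1 ≤ XX (dd n x) := fun x i j hi hj => by
    have K0 : 0 ≤ K := le_trans (by positivity) (le_max_left _ _)
    have h1 := XX_ge h.n1 x (i := i) (j := j) (by linarith)
    have h2 : (K1 : ℝ) ≤ XX (dd n x) := by linarith [le_max_right (5 / θ ^ 2) (K1 : ℝ)]
    exact_mod_cast h2
  have mD : Measurable (DD n θ η H) := by
    have := meas_H n H
    unfold DD D0; fun_prop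
  have gφ : ∀ w ∈ {x : St | ∀ i, 0 ≤ x i} \ TT n 0, ∀ t, 0 ≤ t →
      drain t w ∈ {x : St | ∀ i, 0 ≤ x i} \ TT n 0 := fun w hw t ht => by
    refine ⟨fun i => le_max_right _ _, fun hT => hw.2 ?_⟩
    have h1 : ∀ i, t < w i := fun i => by
      have := hT.1 i
      simp only [drain, lt_max_iff, lt_irrefl, or_false] at this; linarith
    exact ⟨fun i => by linarith [h1 i], by rw [← dd_drain n fun i => (h1 i).le]; exact hT.2⟩
  refine stable hl _ _ (G := {x : St | ∀ i, 0 ≤ x i} \ TT n 0)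
    ((isClosed_Ici (a := (0 : St))).measurableSet.diff (meas_TT _ _))
    ⟨fun _ => le_rfl, fun hT => lt_irrefl _ (hT.1 0)⟩ (fun x hx => hx.1) (fun w hw => ?_) gφ mD
    (fun x => abs_nonneg _) (by positivity) C0 hv (by linarith) (fun x hx i => ?_)
    (fun w hw t ht => ?_) (fun x hx => ?_)
  · have c1 : (⋃ i : Fin 3, range fun z : ℤ => w i - z / n).Countable :=
      countable_iUnion fun i => countable_range _
    have a1' : ∀ᵐ r ∂expMeasure l, r ∉ ⋃ i : Fin 3, range fun z : ℤ => w i - z / n :=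
      (exp_ac l).ae_le (c1.ae_notMem volume)
    filter_upwards [(sys hl _ _).μ_nonneg, Measure.quasiMeasurePreserving_fst.ae a1',
      Measure.quasiMeasurePreserving_snd.ae (ae_ν hl (1 / 2) e a1 a2 1 2)] with a h0 h1 h2
    obtain ⟨k, s, hs, hj⟩ : ∃ k s, (s = a1 ∨ s = a2 ∨ s = 1 ∨ s = 2) ∧
        join (drain a.1 w) a.2 = add (drain a.1 w) k s := by
      unfold join
      split_ifs
      · exact ⟨_, _, by tauto, rfl⟩
      · exact ⟨_, _, by tauto, rfl⟩
    rw [hj]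
    have hx := gφ w hw a.1 h0
    obtain ⟨s0, -, ⟨z, hz⟩, -⟩ := h.step (drain a.1 w) k hs
    refine ⟨add_nonneg' hx.1 k s0.le, fun hT => hx.2 ?_⟩
    have h3 : ∑ i, dd n (drain a.1 w) i = 0 := by rw [← sum_jz _ k z, ← dd_add hz]; exact hT.2
    have ne : ∀ i : Fin 3, i + 1 ≠ i := by decide
    have oth : ∀ i, i ≠ k → 0 < drain a.1 w i := fun i hi => by
      have := hT.1 i; rwa [add, Function.update_of_ne hi] at this
    refine ⟨fun i => ?_, h3⟩
    rcases eq_or_ne i k with rfl | hi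
    swap; · exact oth i hi
    refine lt_of_le_of_ne (hx.1 i) fun h4 => h1 (mem_iUnion.2 ⟨i + 1, dd n (drain a.1 w) i, ?_⟩)
    have h5 := int_of_zero h3 i
    have h6 := oth _ (ne i)
    have h7 : drain a.1 w (i + 1) = w (i + 1) - a.1 := by
      simp only [drain, lt_max_iff, lt_irrefl, or_false] at h6; exact max_eq_left h6.le
    dsimp only
    rw [h5, ← h4, h7]; field_simp; ring
  · rw [DD_eq θ0 η hx.1]
    have h2 : (0 : ℝ) ≤ H (dd n x) := by exact_mod_cast H0 _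
    exact (D0_ge' θ0 hx.1 i).trans (le_mul_of_one_le_left
      ((mul_nonneg θ0.le (hx.1 0)).trans (D0_ge' θ0 hx.1 0)) (Real.one_le_exp (by positivity)))
  · have hx := (gφ w hw t ht).1
    by_cases hb : ∀ i, drain t w i ≤ K
    · exact (hC _ hx fun i => by linarith [hb i]).trans
        (le_add_of_nonneg_left (mul_nonneg (Real.exp_pos _).le (abs_nonneg _)))
    have h1 : H (dd n (drain t w)) ≤ H (dd n w) := by
      by_cases hc : ∀ i, t ≤ w i
      · rw [dd_drain n hc]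
      · push Not at hb hc
        obtain ⟨i, hi⟩ := hc
        obtain ⟨j, hj⟩ := hb
        exact mono _ _ (far _ i j (max_eq_right (by linarith)) hj) (dd_dom hn w t)
    have h2 : (H (dd n (drain t w)) : ℝ) ≤ H (dd n w) := by exact_mod_cast h1
    have h3 : D0 θ (drain t w) ≤ Real.exp (-(θ * t)) * D0 θ w := by
      unfold D0; rw [Finset.mul_sum]
      refine Finset.sum_le_sum fun i _ => ?_
      have p1 : Real.exp (-(θ * t)) ≤ 1 := Real.exp_le_one_iff.2 (by nlinarith)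
      have p2 : 1 ≤ Real.exp (θ * w i) := Real.one_le_exp (mul_nonneg θ0.le (hw.1 i))
      have p3 := Real.exp_pos (-(θ * t))
      simp only [drain, max_def]; split_ifs
      · simp only [mul_zero, Real.exp_zero]; nlinarith
      · rw [mul_sub (Real.exp _), ← Real.exp_add, show -(θ * t) + θ * w i = θ * (w i - t) by ring]
        linarith
    rw [DD_eq θ0 η hx, DD_eq θ0 η hw.1]
    have h4 : Real.exp (θ * (η * H (dd n (drain t w)))) ≤ Real.exp (θ * (η * H (dd n w))) := by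
      gcongr
    refine le_trans (mul_le_mul h4 h3
      ((mul_nonneg θ0.le (hx 0)).trans (D0_ge' θ0 hx 0)) (by positivity)) (by linarith)
  · rw [lint_J hl (by norm_num) (by norm_num) h.e0 h.e1 a1 a2 1 2 mD (fun x => abs_nonneg _)]
    refine ENNReal.ofReal_le_ofReal ?_
    have p : 0 ≤ (1 + (θ * m / 3 + 11 * θ ^ 2)) * DD n θ η H x :=
      mul_nonneg (by positivity) (abs_nonneg _)
    by_cases hb : ∀ i, x i ≤ K
    · have := J_lin h.e0 h.e1 h.ha (F := DD n θ η H) (g := fun _ => 0) (x := x) (Y := 0)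
        (α := C) (β := 0) (γ := 0) fun k s hs => by
          obtain ⟨s0, s2, -⟩ := h.step x k hs
          have := hC _ (add_nonneg' hx.1 k s0.le) fun i => by
            unfold add
            rcases eq_or_ne i k with rfl | hi
            · rw [Function.update_self]; linarith [hb i]
            · rw [Function.update_of_ne hi]; linarith [hb i]
          linarith
      linarith
    · push Not at hb
      obtain ⟨j, hj⟩ := hb
      refine (JD h θ0 θ1 N0 hL hm hx.1 ?_ (pot _ ?_)).trans (by linarith)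
      · have h1 := D0_ge' θ0 hx.1 j
        have h2 : 5 / θ ^ 2 < x j := (le_max_left _ _).trans_lt hj
        rw [div_lt_iff₀ (by positivity)] at h2
        nlinarith
      · obtain ⟨s1, s2⟩ := sum_dd n x
        by_cases h0 : ∑ i, dd n x i = 0
        · refine Or.inr (Or.inr ⟨h0, ?_⟩)
          by_contra hc
          refine hx.2 ⟨fun i => lt_of_le_of_ne (hx.1 i) fun h4 => hc (far x i j h4.symm hj), h0⟩
        · omega

end Pool.Agent.Lib.helper1.Tq
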