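import Mathlib

set_option autoImplicit false
open MeasureTheory
open scoped ENNReal

namespace Pool.Agent.Lib.helper1.Uq

abbrev Z2 := ℤ × ℤ

def ee (d : Bool) : Z2 := if d then (0, 1) else (1, 0)

def Lat (good : Z2 × Bool → Prop) : SimpleGraph Z2 :=
  SimpleGraph.fromRel (fun u v => ∃ d, v = u + ee d ∧ good (u, d))

def l1 (a c : Z2) : ℤ := |a.1 - c.1| + |a.2 - c.2|

def stp (u : Z2) (k : Bool × Bool) : Z2 := if k.1 then u + ee k.2 else u - ee k.2

def can (u : Z2) (k : Bool × Bool) : Z2 × Bool := if k.1 then (u, k.2) else (u - ee k.2, k.2)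

def pos (a : Z2) (w : ℕ → Bool × Bool) : ℕ → Z2
  | 0 => a
  | i + 1 => stp (pos a w i) (w i)

def ext {n : ℕ} (w : Fin n → Bool × Bool) : ℕ → Bool × Bool :=
  fun i => if h : i < n then w ⟨i, h⟩ else (true, true)

lemma ee_ne (u : Z2) (d : Bool) : u ≠ u + ee d := by
  intro h
  have h1 := congrArg Prod.fst h
  have h2 := congrArg Prod.snd h
  cases d <;> simp [ee] at h1 h2

lemma lat_adj {good : Z2 × Bool → Prop} {u : Z2} {d : Bool} (h : good (u, d)) :
    (Lat good).Adj u (u + ee d) := by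
  rw [Lat, SimpleGraph.fromRel_adj]
  exact ⟨ee_ne u d, Or.inl ⟨d, rfl, h⟩⟩

lemma adj_step {good : Z2 × Bool → Prop} {u v : Z2} (h : (Lat good).Adj u v) :
    ∃ k, v = stp u k ∧ good (can u k) := by
  rw [Lat, SimpleGraph.fromRel_adj] at h
  rcases h with ⟨-, ⟨d, rfl, h⟩ | ⟨d, rfl, h⟩⟩
  · exact ⟨(true, d), by simp [stp], by simpa [can] using h⟩
  · exact ⟨(false, d), by simp [stp], by simpa [can] using h⟩

lemma can_eq {u u' : Z2} {k k' : Bool × Bool} (h : can u k = can u' k') :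
    (u = u') ∨ (u = stp u' k' ∧ stp u k = u') := by
  obtain ⟨s, d⟩ := k
  obtain ⟨s', d'⟩ := k'
  cases s <;> cases s' <;> simp only [can, stp, Bool.false_eq_true, if_false, if_true,
    Prod.mk.injEq] at h ⊢
  · obtain ⟨h1, rfl⟩ := h
    left; exact sub_left_injective h1
  · obtain ⟨h1, rfl⟩ := h
    right; exact ⟨by rw [← h1]; simp, h1⟩
  · obtain ⟨h1, rfl⟩ := h
    right; exact ⟨h1, by rw [h1]; simp⟩
  · left; exact h.1

lemma l1_stp (u c : Z2) (k : Bool × Bool) : l1 u c ≤ l1 (stp u k) c + 1 := by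
  obtain ⟨s, d⟩ := k
  obtain ⟨x, y⟩ := u
  obtain ⟨a, b⟩ := c
  cases s <;> cases d <;> simp only [l1, stp, ee, Bool.false_eq_true, if_false, if_true,
    Prod.mk_add_mk, Prod.mk_sub_mk] <;>
  · simp only [abs_eq_max_neg]
    omega

lemma l1_walk {good : Z2 × Bool → Prop} {a c : Z2} (p : (Lat good).Walk a c) :
    l1 a c ≤ p.length := by
  induction p with
  | nil => simp [l1]
  | cons h p ih =>
    obtain ⟨k, hk, -⟩ := adj_step h
    rw [SimpleGraph.Walk.length_cons]
    subst hk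
    have := l1_stp _ _ k |>.trans (add_le_add_left ih 1)
    push_cast
    exact this

lemma exists_word {good : Z2 × Bool → Prop} {a c : Z2} {n : ℕ}
    (h : (Lat good).Reachable a c) (hn : (n : ℤ) ≤ l1 a c) :
    ∃ w : Fin n → Bool × Bool, (∀ i : Fin n, good (can (pos a (ext w) i) (w i))) ∧
      Function.Injective (fun i : Fin n => can (pos a (ext w) i) (w i)) := by
  obtain ⟨p, hp⟩ := h.exists_isPath
  have hl : n ≤ p.length := by
    have := hn.trans (l1_walk p)
    exact_mod_cast this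
  have hadj : ∀ i : Fin n, ∃ k, p.getVert (i + 1) = stp (p.getVert i) k ∧
      good (can (p.getVert i) k) := fun i =>
    adj_step (p.adj_getVert_succ (lt_of_lt_of_le i.2 hl))
  choose w hw1 hw2 using hadj
  have hpos : ∀ i, i ≤ n → pos a (ext w) i = p.getVert i := by
    intro i
    induction i with
    | zero => intro _; simp [pos]
    | succ i ih =>
      intro hi
      have hi' : i < n := hi
      rw [pos, ih hi'.le, ext, dif_pos hi']
      exact (hw1 ⟨i, hi'⟩).symm
  refine ⟨w, fun i => ?_, fun i j hij => ?_⟩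
  · rw [hpos i i.2.le]; exact hw2 i
  · simp only [hpos i i.2.le, hpos j j.2.le] at hij
    have hi := i.2
    have hj := j.2
    rcases can_eq hij with h1 | ⟨h1, h2⟩
    · have := hp.getVert_injOn (by rw [Set.mem_ofPred_eq]; omega)
        (by rw [Set.mem_ofPred_eq]; omega) h1
      exact Fin.ext this
    · rw [← hw1 j] at h1
      rw [← hw1 i] at h2
      have e1 := hp.getVert_injOn (by rw [Set.mem_ofPred_eq]; omega)
        (by rw [Set.mem_ofPred_eq]; omega) h1
      have e2 := hp.getVert_injOn (by rw [Set.mem_ofPred_eq]; omega)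
        (by rw [Set.mem_ofPred_eq]; omega) h2
      omega

/-- union bound over self-avoiding lattice paths -/
lemma path_bound {ι : Type} (ν : Measure Bool) [IsProbabilityMeasure ν] (b : Bool) (m : ℕ)
    (ψ : (Z2 × Bool) × Fin m → ι) (ok : Z2 × Bool → Prop)
    (hψ : ∀ x y, ok x.1 → ok y.1 → ψ x = ψ y → x = y)
    (good : (ι → Bool) → Z2 × Bool → Prop)
    (hg : ∀ ω c, good ω c → ok c ∧ ∀ t, ω (ψ (c, t)) = b) (a : Z2) (n : ℕ) :
    Measure.infinitePi (fun _ : ι => ν)
      {ω | ∃ c, (Lat (good ω)).Reachable a c ∧ (n : ℤ) ≤ l1 a c} ≤ (4 * ν {b} ^ m) ^ n := by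
  classical
  let C : (Fin n → Bool × Bool) → Fin n → Z2 × Bool := fun w i => can (pos a (ext w) i) (w i)
  let E : (Fin n → Bool × Bool) → Set (ι → Bool) := fun w =>
    {ω | (∀ i, ok (C w i)) ∧ Function.Injective (C w) ∧ ∀ i t, ω (ψ (C w i, t)) = b}
  have hsub : {ω | ∃ c, (Lat (good ω)).Reachable a c ∧ (n : ℤ) ≤ l1 a c} ⊆ ⋃ w, E w := by
    rintro ω ⟨c, h1, h2⟩
    obtain ⟨w, hw1, hw2⟩ := exists_word h1 h2
    exact Set.mem_iUnion.2 ⟨w, fun i => (hg ω _ (hw1 i)).1, hw2, fun i => (hg ω _ (hw1 i)).2⟩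
  have hE : ∀ w, Measure.infinitePi (fun _ : ι => ν) (E w) ≤ (ν {b} ^ m) ^ n := by
    intro w
    by_cases h : (∀ i, ok (C w i)) ∧ Function.Injective (C w)
    · let T : Finset ι := Finset.univ.image (fun x : Fin n × Fin m => ψ (C w x.1, x.2))
      have hinj : Function.Injective (fun x : Fin n × Fin m => ψ (C w x.1, x.2)) := by
        intro x y hxy
        have := hψ (C w x.1, x.2) (C w y.1, y.2) (h.1 _) (h.1 _) hxy
        simp only [Prod.mk.injEq] at this
        exact Prod.ext (h.2 this.1) this.2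
      have hT : T.card = n * m := by
        rw [Finset.card_image_of_injective _ hinj]; simp
      have hs : E w ⊆ Set.pi (T : Set ι) (fun _ => ({b} : Set Bool)) := by
        rintro ω ⟨-, -, h3⟩ e he
        simp only [T, Finset.coe_image, Set.mem_image] at he
        obtain ⟨x, -, rfl⟩ := he
        exact h3 _ _
      refine (measure_mono hs).trans ?_
      rw [Measure.infinitePi_pi _ (fun _ _ => MeasurableSet.singleton b), Finset.prod_const, hT,
        ← pow_mul, mul_comm]
    · have : E w = ∅ := by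
        ext ω
        simp only [E, Set.mem_ofPred_eq, Set.mem_empty_iff_false, iff_false]
        exact fun h' => h ⟨h'.1, h'.2.1⟩
      rw [this]; simp
  refine (measure_mono hsub).trans ((measure_iUnion_fintype_le _ _).trans ?_)
  refine (Finset.sum_le_sum (fun w _ => hE w)).trans ?_
  rw [Finset.sum_const, Finset.card_univ, mul_pow]
  simp

lemma parity (χ ρ : ℕ → ℕ → ZMod 2) (N : ℕ) (h0 : χ 0 0 = 1)
    (hN1 : ∀ i, χ i N = 0) (hN2 : ∀ j, χ N j = 0) (hρ0 : ∀ j, ρ 0 j = 0)
    (hb : ∀ i, χ i 0 ≠ χ (i + 1) 0 → ρ i 0 = 1)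
    (hh : ∀ i j, χ i (j + 1) ≠ χ (i + 1) (j + 1) → ρ i j = ρ i (j + 1))
    (hv : ∀ i j, χ (i + 1) j ≠ χ (i + 1) (j + 1) → ρ i j = ρ (i + 1) j) : False := by
  let A : ℕ → ℕ → ZMod 2 := fun i j => ρ i j * (χ i j - χ (i + 1) j)
  let B : ℕ → ℕ → ZMod 2 := fun i j => ρ i j * (χ i j - χ i (j + 1))
  have key : ∀ i j, (A i (j + 1) - A i j) = (B (i + 1) j - B i j) := by
    intro i j
    have e1 : A i (j + 1) = ρ i j * (χ i (j + 1) - χ (i + 1) (j + 1)) := by
      by_cases h : χ i (j + 1) = χ (i + 1) (j + 1)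
      · simp [A, h]
      · simp only [A]; rw [hh i j h]
    have e2 : B (i + 1) j = ρ i j * (χ (i + 1) j - χ (i + 1) (j + 1)) := by
      by_cases h : χ (i + 1) j = χ (i + 1) (j + 1)
      · simp [B, h]
      · simp only [B]; rw [hv i j h]
    rw [e1, e2]
    simp only [A, B]
    ring
  have s1 : ∑ i ∈ Finset.range N, ∑ j ∈ Finset.range N, (A i (j + 1) - A i j) = -1 := by
    have : ∀ i, ∑ j ∈ Finset.range N, (A i (j + 1) - A i j) = χ (i + 1) 0 - χ i 0 := by
      intro i
      rw [Finset.sum_range_sub (fun j => A i j)]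
      have : A i N = 0 := by simp [A, hN1]
      rw [this]
      by_cases h : χ i 0 = χ (i + 1) 0
      · simp [A, h]
      · simp only [A]; rw [hb i h]; ring
    simp only [this]
    rw [Finset.sum_range_sub (fun i => χ i 0), hN2, h0]; simp
  have s2 : ∑ i ∈ Finset.range N, ∑ j ∈ Finset.range N, (B (i + 1) j - B i j) = 0 := by
    rw [Finset.sum_comm]
    refine Finset.sum_eq_zero (fun j _ => ?_)
    rw [Finset.sum_range_sub (fun i => B i j)]
    simp [B, hN2, hρ0]
  simp only [key] at s1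
  rw [s2] at s1
  exact absurd s1 (by decide)

end Pool.Agent.Lib.helper1.Uq
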