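import Pool.Agent.Lib.helper1.Uq1

set_option autoImplicit false
open MeasureTheory
open scoped ENNReal

namespace Pool.Agent.Lib.helper1.Uq

variable {V : Type} (G : SimpleGraph V)

/-- the graph of open edges -/
def OG (ω : G.edgeSet → Bool) : SimpleGraph V :=
  SimpleGraph.fromEdgeSet {e : Sym2 V | ∃ h : e ∈ G.edgeSet, ω ⟨e, h⟩ = true}

lemma OG_adj {ω : G.edgeSet → Bool} {u v : V} :
    (OG G ω).Adj u v ↔ ∃ h : G.Adj u v, ω ⟨s(u, v), h⟩ = true := by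
  rw [OG, SimpleGraph.fromEdgeSet_adj]
  constructor
  · rintro ⟨⟨h, h'⟩, -⟩
    exact ⟨h, h'⟩
  · rintro ⟨h, h'⟩
    exact ⟨⟨h, h'⟩, h.ne⟩

def okQ (c : Z2 × Bool) : Prop := 0 ≤ c.1.1 ∧ (if c.2 then 0 ≤ c.1.2 else 1 ≤ c.1.2)

def psiQ (J : ℕ × ℕ → V) (h1 : ∀ i j, G.Adj (J (i, j)) (J (i + 1, j)))
    (h2 : ∀ i j, G.Adj (J (i, j)) (J (i, j + 1))) (x : (Z2 × Bool) × Fin 1) : G.edgeSet :=
  if x.1.2 then ⟨s(J (x.1.1.1.toNat, x.1.1.2.toNat), J (x.1.1.1.toNat + 1, x.1.1.2.toNat)), h1 _ _⟩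
  else ⟨s(J (x.1.1.1.toNat + 1, (x.1.1.2 - 1).toNat),
    J (x.1.1.1.toNat + 1, (x.1.1.2 - 1).toNat + 1)), h2 _ _⟩

lemma psiQ_inj (J : ℕ × ℕ → V) (hJ : Function.Injective J)
    (h1 : ∀ i j, G.Adj (J (i, j)) (J (i + 1, j)))
    (h2 : ∀ i j, G.Adj (J (i, j)) (J (i, j + 1))) (x y : (Z2 × Bool) × Fin 1)
    (hx : okQ x.1) (hy : okQ y.1) (h : psiQ G J h1 h2 x = psiQ G J h1 h2 y) : x = y := by
  obtain ⟨⟨⟨a, b⟩, d⟩, t⟩ := x
  obtain ⟨⟨⟨a', b'⟩, d'⟩, t'⟩ := y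
  have ht : t = t' := Subsingleton.elim _ _
  subst ht
  have h' := congrArg Subtype.val h
  clear h
  cases d <;> cases d' <;>
    simp only [psiQ, okQ, Bool.false_eq_true, if_false, if_true, Sym2.eq_iff,
      hJ.eq_iff, Prod.mk.injEq, and_true, Bool.true_eq_false, and_false] at h' hx hy ⊢ <;> omega

lemma quad_det (J : ℕ × ℕ → V) (hJ : Function.Injective J)
    (h1 : ∀ i j, G.Adj (J (i, j)) (J (i + 1, j)))
    (h2 : ∀ i j, G.Adj (J (i, j)) (J (i, j + 1))) (ω : G.edgeSet → Bool)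
    (hf : ((OG G ω).connectedComponentMk (J (0, 0))).supp.Finite) :
    ∃ k : ℕ, ∃ c, (Lat (fun c => okQ c ∧ ∀ t, ω (psiQ G J h1 h2 (c, t)) = false)).Reachable
      ((k : ℤ), 0) c ∧ ((k + 1 : ℕ) : ℤ) ≤ l1 ((k : ℤ), 0) c := by
  classical
  by_contra hcon
  push Not at hcon
  set L := Lat (fun c => okQ c ∧ ∀ t, ω (psiQ G J h1 h2 (c, t)) = false) with hL
  let R : ℕ → ℕ → Prop := fun i j => (OG G ω).Reachable (J (0, 0)) (J (i, j))
  let χ : ℕ → ℕ → ZMod 2 := fun i j => if R i j then 1 else 0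
  let Q : ℕ → ℕ → Prop := fun i j => ∃ k : ℕ, L.Reachable ((k : ℤ), 0) ((i : ℤ), (j : ℤ) + 1)
  let ρ : ℕ → ℕ → ZMod 2 := fun i j => if Q i j then 1 else 0
  have hfin : (J ⁻¹' ((OG G ω).connectedComponentMk (J (0, 0))).supp).Finite :=
    hf.preimage hJ.injOn
  obtain ⟨N, hN⟩ : ∃ N : ℕ, ∀ i j, R i j → i + j < N := by
    obtain ⟨N, hN⟩ := (hfin.image (fun x => x.1 + x.2)).bddAbove
    refine ⟨N + 1, fun i j hR => Nat.lt_succ_of_le (hN ⟨(i, j), ?_, rfl⟩)⟩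
    simp only [Set.mem_preimage, SimpleGraph.ConnectedComponent.mem_supp_iff,
      SimpleGraph.ConnectedComponent.eq]
    exact hR.symm
  have cl : ∀ {x y : ℕ × ℕ} (h : G.Adj (J x) (J y)), χ x.1 x.2 ≠ χ y.1 y.2 →
      ω ⟨s(J x, J y), h⟩ = false := by
    intro x y h hne
    by_contra hω
    have hω' : ω ⟨s(J x, J y), h⟩ = true := by simpa using hω
    have hadj : (OG G ω).Adj (J x) (J y) := (OG_adj G).2 ⟨h, hω'⟩
    apply hne
    have : R x.1 x.2 ↔ R y.1 y.2 :=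
      ⟨fun h => h.trans hadj.reachable, fun h => h.trans hadj.symm.reachable⟩
    simp only [χ, this]
  have up : ∀ i j : ℕ, χ i j ≠ χ (i + 1) j → L.Adj ((i : ℤ), (j : ℤ)) ((i : ℤ), (j : ℤ) + 1) := by
    intro i j hne
    have := lat_adj (good := fun c => okQ c ∧ ∀ t, ω (psiQ G J h1 h2 (c, t)) = false)
      (u := ((i : ℤ), (j : ℤ))) (d := true) ⟨by simp [okQ], fun t => by
        have := cl (x := (i, j)) (y := (i + 1, j)) (h1 i j) hne
        simpa [psiQ] using this⟩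
    rw [← hL] at this
    simpa [ee] using this
  have rt : ∀ i j : ℕ, χ (i + 1) j ≠ χ (i + 1) (j + 1) →
      L.Adj ((i : ℤ), (j : ℤ) + 1) ((i : ℤ) + 1, (j : ℤ) + 1) := by
    intro i j hne
    have := lat_adj (good := fun c => okQ c ∧ ∀ t, ω (psiQ G J h1 h2 (c, t)) = false)
      (u := ((i : ℤ), (j : ℤ) + 1)) (d := false) ⟨by simp [okQ], fun t => by
        have := cl (x := (i + 1, j)) (y := (i + 1, j + 1)) (h2 (i + 1) j) hne
        simpa [psiQ] using this⟩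
    rw [← hL] at this
    simpa [ee] using this
  refine parity χ ρ N ?_ ?_ ?_ ?_ ?_ ?_ ?_
  · simp only [χ]; rw [if_pos]; exact SimpleGraph.Reachable.refl _
  · intro i; simp only [χ]; rw [if_neg]; intro h; have := hN _ _ h; omega
  · intro j; simp only [χ]; rw [if_neg]; intro h; have := hN _ _ h; omega
  · intro j; simp only [ρ]; rw [if_neg]
    rintro ⟨k, hk⟩
    have := hcon k _ hk
    simp only [l1, abs_eq_max_neg] at this
    omega
  · intro i hne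
    simp only [ρ]; rw [if_pos]
    exact ⟨i, (up i 0 hne).reachable⟩
  · intro i j hne
    have ha := up i (j + 1) hne
    have : Q i j ↔ Q i (j + 1) := by
      constructor
      · rintro ⟨k, hk⟩; exact ⟨k, hk.trans ha.reachable⟩
      · rintro ⟨k, hk⟩; exact ⟨k, hk.trans ha.symm.reachable⟩
    simp only [ρ, this]
  · intro i j hne
    have ha := rt i j hne
    have : Q i j ↔ Q (i + 1) j := by
      constructor
      · rintro ⟨k, hk⟩; exact ⟨k, hk.trans ha.reachable⟩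
      · rintro ⟨k, hk⟩; exact ⟨k, hk.trans ha.symm.reachable⟩
    simp only [ρ, this]

lemma geo8 (r : ℝ≥0∞) (hr : r ≤ 8⁻¹) : ∑' k : ℕ, r ^ (k + 1) ≤ 4⁻¹ := by
  have h2 : r ≤ 2⁻¹ := hr.trans (ENNReal.inv_le_inv.2 (by norm_num))
  calc ∑' k : ℕ, r ^ (k + 1) ≤ ∑' k : ℕ, 8⁻¹ * (2⁻¹ : ℝ≥0∞) ^ k := by
        refine ENNReal.tsum_le_tsum (fun k => ?_)
        rw [pow_succ']
        gcongr
    _ = 8⁻¹ * 2 := by rw [ENNReal.tsum_mul_left, ENNReal.tsum_geometric_two]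
    _ = 4⁻¹ := by
        have : (8 : ℝ≥0∞) = 4 * 2 := by norm_num
        rw [this, ENNReal.mul_inv (by simp) (by simp), mul_assoc,
          ENNReal.inv_mul_cancel (by simp) (by simp), mul_one]

lemma quad_prob (ν : Measure Bool) [IsProbabilityMeasure ν] (hν : 4 * ν {false} ≤ 8⁻¹)
    (J : ℕ × ℕ → V) (hJ : Function.Injective J)
    (h1 : ∀ i j, G.Adj (J (i, j)) (J (i + 1, j)))
    (h2 : ∀ i j, G.Adj (J (i, j)) (J (i, j + 1))) :
    Measure.infinitePi (fun _ : G.edgeSet => ν)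
      {ω | ((OG G ω).connectedComponentMk (J (0, 0))).supp.Finite} ≤ 4⁻¹ := by
  have hsub : {ω | ((OG G ω).connectedComponentMk (J (0, 0))).supp.Finite} ⊆
      ⋃ k : ℕ, {ω : G.edgeSet → Bool | ∃ c, (Lat (fun c => okQ c ∧
        ∀ t, ω (psiQ G J h1 h2 (c, t)) = false)).Reachable
      ((k : ℤ), 0) c ∧ ((k + 1 : ℕ) : ℤ) ≤ l1 ((k : ℤ), 0) c} := by
    intro ω hω
    exact Set.mem_iUnion.2 (quad_det G J hJ h1 h2 ω hω)
  refine (measure_mono hsub).trans ((measure_iUnion_le _).trans ?_)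
  refine le_trans (ENNReal.tsum_le_tsum (fun k => path_bound ν false 1 (psiQ G J h1 h2) okQ
    (psiQ_inj G J hJ h1 h2) (fun ω c => okQ c ∧ ∀ t, ω (psiQ G J h1 h2 (c, t)) = false)
    (fun _ _ h => h) _ (k + 1))) ?_
  exact geo8 _ (by simpa using hν)

end Pool.Agent.Lib.helper1.Uq
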