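import Pool.Agent.Lib.helper1.Uq2

set_option autoImplicit false
open MeasureTheory
open scoped ENNReal

namespace Pool.Agent.Lib.helper1.Uq

abbrev VV (M : ℕ) := Z2 × Option (Bool × Fin M)

def pt (M : ℕ) (x : Z2) (d : Bool) (t : ℕ) : VV M :=
  if t = 0 then (x, none) else if h : t - 1 < M then (x, some (d, ⟨t - 1, h⟩))
  else (x + ee d, none)

def inA (x : Z2) : Prop := 1 ≤ x.1 ∧ 1 ≤ x.2
def inB (x : Z2) : Prop := x.1 ≤ 0 ∧ x.2 ≤ 0

/-- every lattice edge is subdivided; direct edges are added inside two opposite quadrants -/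
def GG (M : ℕ) : SimpleGraph (VV M) := SimpleGraph.fromRel (fun u v =>
  (∃ x d t, t ≤ M ∧ u = pt M x d t ∧ v = pt M x d (t + 1)) ∨
  (∃ x d, ((inA x ∧ inA (x + ee d)) ∨ (inB x ∧ inB (x + ee d))) ∧ u = (x, none) ∧
    v = (x + ee d, none)))

variable {M : ℕ}

lemma pt_zero (x : Z2) (d : Bool) : pt M x d 0 = (x, none) := by simp [pt]

lemma pt_last (x : Z2) (d : Bool) : pt M x d (M + 1) = (x + ee d, none) := by simp [pt]

lemma pt_mid (x : Z2) (d : Bool) (t : ℕ) (h : t < M) :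
    pt M x d (t + 1) = (x, some (d, ⟨t, h⟩)) := by simp [pt, h]

lemma pt_ne (x : Z2) (d : Bool) (t : ℕ) (h : t ≤ M) : pt M x d t ≠ pt M x d (t + 1) := by
  rcases h.lt_or_eq with h | rfl
  · rw [pt_mid x d t h]
    rcases t with _ | t
    · simp [pt_zero]
    · rw [pt_mid x d t (by omega)]; simp
  · rw [pt_last]
    rcases t with _ | t
    · rw [pt_zero]; intro h; exact ee_ne x d (congrArg Prod.fst h)
    · rw [pt_mid x d t (by omega)]; simp

lemma adj_pt (x : Z2) (d : Bool) (t : ℕ) (h : t ≤ M) :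
    (GG M).Adj (pt M x d t) (pt M x d (t + 1)) := by
  rw [GG, SimpleGraph.fromRel_adj]
  exact ⟨pt_ne x d t h, Or.inl (Or.inl ⟨x, d, t, h, rfl, rfl⟩)⟩

lemma adj_dir (x : Z2) (d : Bool)
    (h : (inA x ∧ inA (x + ee d)) ∨ (inB x ∧ inB (x + ee d))) :
    (GG M).Adj (x, none) (x + ee d, none) := by
  rw [GG, SimpleGraph.fromRel_adj]
  exact ⟨fun h => ee_ne x d (congrArg Prod.fst h), Or.inl (Or.inr ⟨x, d, h, rfl, rfl⟩)⟩

lemma pt_fst (x : Z2) (d : Bool) (t : ℕ) : (pt M x d t).1 = x ∨ (pt M x d t).1 = x + ee d := by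
  unfold pt
  split_ifs <;> simp

lemma l1_symm (a c : Z2) : l1 a c = l1 c a := by
  simp only [l1]; rw [abs_sub_comm a.1, abs_sub_comm a.2]

lemma l1_ee (x : Z2) (d : Bool) : l1 x (x + ee d) ≤ 1 := by
  cases d <;> simp [l1, ee]

lemma l1_self (x : Z2) : l1 x x = 0 := by simp [l1]

lemma adj_l1 {u v : VV M} (h : (GG M).Adj u v) : l1 u.1 v.1 ≤ 1 := by
  have key : ∀ u v : VV M, ((∃ x d t, t ≤ M ∧ u = pt M x d t ∧ v = pt M x d (t + 1)) ∨
      (∃ x d, ((inA x ∧ inA (x + ee d)) ∨ (inB x ∧ inB (x + ee d))) ∧ u = (x, none) ∧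
      v = (x + ee d, none))) → l1 u.1 v.1 ≤ 1 := by
    rintro u v (⟨x, d, t, -, rfl, rfl⟩ | ⟨x, d, -, rfl, rfl⟩)
    · rcases pt_fst (M := M) x d t with h1 | h1 <;>
        rcases pt_fst (M := M) x d (t + 1) with h2 | h2 <;> rw [h1, h2]
      · simp [l1_self]
      · exact l1_ee x d
      · rw [l1_symm]; exact l1_ee x d
      · simp [l1_self]
    · exact l1_ee x d
  rw [GG, SimpleGraph.fromRel_adj] at h
  rcases h.2 with h | h
  · exact key _ _ h
  · rw [l1_symm]; exact key _ _ h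

lemma l1_tri (a b c : Z2) : l1 a c ≤ l1 a b + l1 b c := by
  simp only [l1, abs_eq_max_neg]; omega

lemma walk_l1 {u v : VV M} (p : (GG M).Walk u v) : l1 u.1 v.1 ≤ p.length := by
  induction p with
  | nil => simp [l1]
  | @cons a b c h p ih =>
    rw [SimpleGraph.Walk.length_cons]
    have := l1_tri a.1 b.1 c.1
    have := adj_l1 h
    push_cast
    omega

def WW (u v : VV M) (n : ℕ) : Prop := ∃ p : (GG M).Walk u v, p.length ≤ n

lemma WW.symm {u v : VV M} {n : ℕ} (h : WW u v n) : WW v u n := by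
  obtain ⟨p, hp⟩ := h
  exact ⟨p.reverse, by simpa using hp⟩

lemma WW.trans {u v w : VV M} {n k : ℕ} (h : WW u v n) (h' : WW v w k) : WW u w (n + k) := by
  obtain ⟨p, hp⟩ := h
  obtain ⟨q, hq⟩ := h'
  exact ⟨p.append q, by rw [SimpleGraph.Walk.length_append]; omega⟩

lemma WW.mono {u v : VV M} {n k : ℕ} (h : WW u v n) (hk : n ≤ k) : WW u v k := by
  obtain ⟨p, hp⟩ := h
  exact ⟨p, hp.trans hk⟩

lemma WW.refl (u : VV M) (n : ℕ) : WW u u n := ⟨SimpleGraph.Walk.nil, by simp⟩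

lemma WW_pt (x : Z2) (d : Bool) (t : ℕ) (h : t ≤ M + 1) : WW (x, none) (pt M x d t) t := by
  induction t with
  | zero => rw [pt_zero]; exact WW.refl _ _
  | succ t ih =>
    exact (ih (by omega)).trans ⟨(adj_pt x d t (by omega)).toWalk, by simp⟩

lemma WW_base (u : VV M) : WW (u.1, none) u M := by
  obtain ⟨x, _ | ⟨d, t⟩⟩ := u
  · exact WW.refl _ _
  · have := WW_pt (M := M) x d (t + 1) (by omega)
    rw [pt_mid x d t t.2] at this
    exact this.mono t.2

lemma WW_stp (x : Z2) (k : Bool × Bool) : WW (M := M) (x, none) (stp x k, none) (M + 1) := by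
  obtain ⟨s, d⟩ := k
  cases s
  · have := WW_pt (M := M) (x - ee d) d (M + 1) le_rfl
    rw [pt_last, sub_add_cancel] at this
    simpa [stp] using this.symm
  · have := WW_pt (M := M) x d (M + 1) le_rfl
    rw [pt_last] at this
    simpa [stp] using this

lemma exists_stp (x y : Z2) (h : x ≠ y) : ∃ k, l1 (stp x k) y + 1 ≤ l1 x y := by
  obtain ⟨a, b⟩ := x
  obtain ⟨c, e⟩ := y
  have : a < c ∨ c < a ∨ b < e ∨ e < b := by
    by_contra hc
    apply h
    simp only [Prod.mk.injEq]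
    omega
  rcases this with h | h | h | h
  · refine ⟨(true, false), ?_⟩
    simp only [l1, stp, ee, abs_eq_max_neg, if_true, Bool.false_eq_true, if_false, Prod.mk_add_mk]
    omega
  · refine ⟨(false, false), ?_⟩
    simp only [l1, stp, ee, abs_eq_max_neg, Bool.false_eq_true, if_false, Prod.mk_sub_mk]
    omega
  · refine ⟨(true, true), ?_⟩
    simp only [l1, stp, ee, abs_eq_max_neg, if_true, Prod.mk_add_mk]
    omega
  · refine ⟨(false, true), ?_⟩
    simp only [l1, stp, ee, abs_eq_max_neg, if_true, Bool.false_eq_true, if_false, Prod.mk_sub_mk]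
    omega

lemma WW_lat (n : ℕ) : ∀ x y : Z2, l1 x y ≤ n → WW (M := M) (x, none) (y, none) ((M + 1) * n) := by
  induction n with
  | zero =>
    intro x y h
    have : x = y := by
      obtain ⟨a, b⟩ := x
      obtain ⟨c, e⟩ := y
      simp only [l1, abs_eq_max_neg] at h
      simp only [Prod.mk.injEq]
      omega
    subst this
    exact WW.refl _ _
  | succ n ih =>
    intro x y h
    by_cases hxy : x = y
    · subst hxy; exact WW.refl _ _
    · obtain ⟨k, hk⟩ := exists_stp x y hxy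
      have := (WW_stp (M := M) x k).trans (ih (stp x k) y (by push_cast at h; omega))
      exact this.mono (by ring_nf; omega)

lemma l1_nonneg (a c : Z2) : 0 ≤ l1 a c := by unfold l1; positivity

lemma WW_all (u v : VV M) : WW u v (M + ((M + 1) * (l1 u.1 v.1).toNat) + M) :=
  ((WW_base u).symm.trans (WW_lat _ u.1 v.1 (by have := l1_nonneg u.1 v.1; omega))).trans
    (WW_base v)

lemma GG_conn : (GG M).Connected := by
  have : Nonempty (VV M) := ⟨((0, 0), none)⟩
  exact ⟨fun u v => by obtain ⟨p, -⟩ := WW_all u v; exact ⟨p⟩⟩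

lemma GG_deg : ∃ D : ℕ, ∀ v : VV M, ((GG M).neighborSet v).encard ≤ (D : ℕ∞) := by
  refine ⟨Fintype.card ((Fin 3 × Fin 3) × Option (Bool × Fin M)), fun v => ?_⟩
  have : (GG M).neighborSet v ⊆ (fun z : (Fin 3 × Fin 3) × Option (Bool × Fin M) =>
      (((v.1.1 + (z.1.1 : ℕ) - 1, v.1.2 + (z.1.2 : ℕ) - 1), z.2) : VV M)) '' Set.univ := by
    intro u hu
    have h := adj_l1 (show (GG M).Adj v u from hu)
    simp only [l1, abs_eq_max_neg] at h
    refine ⟨((⟨(u.1.1 - v.1.1 + 1).toNat, by omega⟩, ⟨(u.1.2 - v.1.2 + 1).toNat, by omega⟩), u.2),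
      trivial, ?_⟩
    obtain ⟨⟨a, b⟩, o⟩ := u
    simp only [Prod.mk.injEq, and_true] at h ⊢
    omega
  refine (Set.encard_le_encard this).trans ((Set.encard_image_le _ _).trans ?_)
  rw [Set.encard_univ, ENat.card_eq_coe_fintype_card]

lemma GG_qi : ∃ (f : VV M → (Fin 2 → ℤ)) (C K : ℕ),
    (∀ x y : VV M,
      (∑ i, |f x i - f y i|) ≤ (C : ℤ) * ((GG M).dist x y : ℤ) + (K : ℤ) ∧
      ((GG M).dist x y : ℤ) ≤ (C : ℤ) * (∑ i, |f x i - f y i|) + (K : ℤ)) ∧
    ∀ z : Fin 2 → ℤ, ∃ x : VV M, (∑ i, |z i - f x i|) ≤ (K : ℤ) := by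
  refine ⟨fun v => ![v.1.1, v.1.2], M + 1, 2 * M, fun x y => ?_, fun z => ?_⟩
  · have e : (∑ i, |(![x.1.1, x.1.2] : Fin 2 → ℤ) i - (![y.1.1, y.1.2] : Fin 2 → ℤ) i|) =
        l1 x.1 y.1 := by simp [Fin.sum_univ_two, l1]
    rw [e]
    constructor
    · obtain ⟨p, hp⟩ := (GG_conn (M := M)).exists_walk_length_eq_dist x y
      have := walk_l1 p
      rw [hp] at this
      push_cast
      nlinarith [Int.natCast_nonneg ((GG M).dist x y), Int.natCast_nonneg M]
    · obtain ⟨p, hp⟩ := WW_all x y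
      have h1 := (SimpleGraph.dist_le p).trans hp
      have h2 : (((GG M).dist x y : ℕ) : ℤ) ≤ ((M + ((M + 1) * (l1 x.1 y.1).toNat) + M : ℕ) : ℤ) := by
        exact_mod_cast h1
      push_cast at h2 ⊢
      rw [Int.toNat_of_nonneg (l1_nonneg _ _)] at h2
      linarith
  · refine ⟨((z 0, z 1), none), ?_⟩
    simp [Fin.sum_univ_two]

def goodC (ω : (GG M).edgeSet → Bool) (c : Z2 × Bool) : Prop :=
  ∀ t, t ≤ M → (OG (GG M) ω).Adj (pt M c.1 c.2 t) (pt M c.1 c.2 (t + 1))

lemma separate (ω : (GG M).edgeSet → Bool)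
    (h : ∀ a y, inA a → inB y → ¬ (Lat (goodC ω)).Reachable a y) :
    ¬ (OG (GG M) ω).Reachable ((1, 1), none) ((0, 0), none) := by
  let S : Z2 → Prop := fun y => ∃ a, inA a ∧ (Lat (goodC ω)).Reachable a y
  let op : Z2 → Bool → ℕ → Prop := fun x d t =>
    (OG (GG M) ω).Adj (pt M x d t) (pt M x d (t + 1))
  let P : Z2 → Bool → ℕ → Prop := fun x d t =>
    (S x ∧ ∀ s, s < t → op x d s) ∨ (S (x + ee d) ∧ ∀ s, t ≤ s → s ≤ M → op x d s)
  let S' : VV M → Prop := fun v => match v.2 with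
    | none => S v.1
    | some z => P v.1 z.1 (z.2 + 1)
  have hS : ∀ x d, (∀ s, s ≤ M → op x d s) → (S x ↔ S (x + ee d)) := by
    intro x d hx
    have ha : (Lat (goodC ω)).Adj x (x + ee d) := lat_adj (good := goodC ω) hx
    exact ⟨fun ⟨a, h1, h2⟩ => ⟨a, h1, h2.trans ha.reachable⟩,
      fun ⟨a, h1, h2⟩ => ⟨a, h1, h2.trans ha.symm.reachable⟩⟩
  have hP : ∀ x d t, t ≤ M + 1 → (S' (pt M x d t) ↔ P x d t) := by
    intro x d t ht
    rcases t with _ | t
    · rw [pt_zero]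
      show S x ↔ P x d 0
      constructor
      · intro h; exact Or.inl ⟨h, fun s hs => absurd hs (by omega)⟩
      · rintro (h | h)
        · exact h.1
        · exact (hS x d (fun s hs => h.2 s (by omega) hs)).2 h.1
    · rcases (show t < M ∨ t = M by omega) with h | rfl
      · rw [pt_mid x d t h]
      · rw [pt_last]
        show S (x + ee d) ↔ P x d (t + 1)
        constructor
        · intro h; exact Or.inr ⟨h, fun s hs hs' => absurd hs (by omega)⟩
        · rintro (h | h)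
          · exact (hS x d (fun s hs => h.2 s (by omega))).1 h.1
          · exact h.1
  have hstep : ∀ x d t, t ≤ M → op x d t → (P x d t ↔ P x d (t + 1)) := by
    intro x d t ht ho
    constructor
    · rintro (h | h)
      · refine Or.inl ⟨h.1, fun s hs => ?_⟩
        rcases (show s < t ∨ s = t by omega) with h' | rfl
        · exact h.2 s h'
        · exact ho
      · exact Or.inr ⟨h.1, fun s hs hs' => h.2 s (by omega) hs'⟩
    · rintro (h | h)
      · exact Or.inl ⟨h.1, fun s hs => h.2 s (by omega)⟩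
      · refine Or.inr ⟨h.1, fun s hs hs' => ?_⟩
        rcases (show t + 1 ≤ s ∨ s = t by omega) with h' | rfl
        · exact h.2 s h' hs'
        · exact ho
  have hA : ∀ x, inA x → S x := fun x hx => ⟨x, hx, SimpleGraph.Reachable.refl _⟩
  have hB : ∀ x, inB x → ¬ S x := fun x hx ⟨a, h1, h2⟩ => h a x h1 hx h2
  have key : ∀ u v : VV M, (OG (GG M) ω).Adj u v →
      ((∃ x d t, t ≤ M ∧ u = pt M x d t ∧ v = pt M x d (t + 1)) ∨
      (∃ x d, ((inA x ∧ inA (x + ee d)) ∨ (inB x ∧ inB (x + ee d))) ∧ u = (x, none) ∧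
      v = (x + ee d, none))) → (S' u ↔ S' v) := by
    rintro u v huv (⟨x, d, t, ht, rfl, rfl⟩ | ⟨x, d, hx, rfl, rfl⟩)
    · rw [hP x d t (by omega), hP x d (t + 1) (by omega)]
      exact hstep x d t ht huv
    · show S x ↔ S (x + ee d)
      rcases hx with hx | hx
      · exact iff_of_true (hA _ hx.1) (hA _ hx.2)
      · exact iff_of_false (hB _ hx.1) (hB _ hx.2)
  have hadj : ∀ u v : VV M, (OG (GG M) ω).Adj u v → (S' u ↔ S' v) := by
    intro u v huv
    obtain ⟨hG, -⟩ := (OG_adj _).1 huv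
    rw [GG, SimpleGraph.fromRel_adj] at hG
    rcases hG.2 with h | h
    · exact key u v huv h
    · exact (key v u huv.symm h).symm
  have hw : ∀ u v : VV M, (OG (GG M) ω).Walk u v → (S' u ↔ S' v) := by
    intro u v p
    induction p with
    | nil => rfl
    | cons h p ih => exact (hadj _ _ h).trans ih
  rintro ⟨p⟩
  exact hB (0, 0) ⟨le_rfl, le_rfl⟩ ((hw _ _ p).1 (hA (1, 1) ⟨le_rfl, le_rfl⟩))

def psiC (m : ℕ) (x : (Z2 × Bool) × Fin m) : (GG (m + 1)).edgeSet :=
  ⟨s(pt (m + 1) x.1.1 x.1.2 (x.2 + 1), pt (m + 1) x.1.1 x.1.2 (x.2 + 1 + 1)),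
    (SimpleGraph.mem_edgeSet _).2 (adj_pt x.1.1 x.1.2 (x.2 + 1) (by have := x.2.2; omega))⟩

lemma psiC_inj (m : ℕ) (x y : (Z2 × Bool) × Fin m) (h : psiC m x = psiC m y) : x = y := by
  obtain ⟨⟨a, d⟩, t⟩ := x
  obtain ⟨⟨a', d'⟩, t'⟩ := y
  have h' := congrArg Subtype.val h
  have ht := t.2
  have ht' := t'.2
  simp only [psiC] at h'
  rw [pt_mid a d t (by omega), pt_mid a d (t + 1) (by omega), pt_mid a' d' t' (by omega),
    pt_mid a' d' (t' + 1) (by omega)] at h'
  simp only [Sym2.eq_iff, Prod.mk.injEq, Option.some.injEq, Fin.mk.injEq] at h' ⊢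
  rcases h' with h' | h'
  · exact ⟨⟨h'.1.1, h'.1.2.1⟩, Fin.ext h'.1.2.2⟩
  · omega

lemma sep_prob (ν : Measure Bool) [IsProbabilityMeasure ν] (m : ℕ)
    (hν : 4 * ν {true} ^ m ≤ 8⁻¹) :
    Measure.infinitePi (fun _ : (GG (m + 1)).edgeSet => ν)
      {ω | (OG (GG (m + 1)) ω).Reachable ((1, 1), none) ((0, 0), none)} ≤ 4⁻¹ := by
  have hsub : {ω | (OG (GG (m + 1)) ω).Reachable ((1, 1), none) ((0, 0), none)} ⊆
      ⋃ i : ℕ, ⋃ j : ℕ, {ω : (GG (m + 1)).edgeSet → Bool | ∃ c, (Lat (goodC ω)).Reachable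
        ((i : ℤ) + 1, (j : ℤ) + 1) c ∧
        (((i + 1) + (j + 1) : ℕ) : ℤ) ≤ l1 ((i : ℤ) + 1, (j : ℤ) + 1) c} := by
    intro ω hω
    by_contra hc
    refine separate ω (fun a y ha hy hr => hc ?_) hω
    obtain ⟨a1, a2⟩ := a
    obtain ⟨h1, h2⟩ := ha
    obtain ⟨h3, h4⟩ := hy
    simp only at h1 h2
    refine Set.mem_iUnion.2 ⟨(a1 - 1).toNat, Set.mem_iUnion.2 ⟨(a2 - 1).toNat, y, ?_, ?_⟩⟩
    · have e1 : (((a1 - 1).toNat : ℕ) : ℤ) + 1 = a1 := by omega
      have e2 : (((a2 - 1).toNat : ℕ) : ℤ) + 1 = a2 := by omega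
      rw [e1, e2]; exact hr
    · simp only [l1, abs_eq_max_neg]
      omega
  have hg : ∀ (ω : (GG (m + 1)).edgeSet → Bool) c, goodC ω c →
      True ∧ ∀ t, ω (psiC m (c, t)) = true := by
    intro ω c hc
    refine ⟨trivial, fun t => ?_⟩
    obtain ⟨_, h⟩ := (OG_adj _).1 (hc (t + 1) (by have := t.2; omega))
    exact h
  refine (measure_mono hsub).trans ((measure_iUnion_le _).trans ?_)
  refine le_trans (ENNReal.tsum_le_tsum (fun i => (measure_iUnion_le _).trans
    (ENNReal.tsum_le_tsum (fun j => path_bound ν true m (psiC m) (fun _ => True)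
    (fun x y _ _ h => psiC_inj m x y h) goodC hg _ ((i + 1) + (j + 1)))))) ?_
  simp only [pow_add (4 * ν {true} ^ m) (_ + 1) (_ + 1), ENNReal.tsum_mul_left,
    ENNReal.tsum_mul_right]
  have := geo8 _ hν
  calc _ ≤ (4⁻¹ : ℝ≥0∞) * 1 := mul_le_mul' this (this.trans (ENNReal.inv_le_one.2 (by norm_num)))
    _ = 4⁻¹ := mul_one _

theorem two_clusters (ν : Measure Bool) [IsProbabilityMeasure ν] (m : ℕ)
    (h0 : 4 * ν {false} ≤ 8⁻¹) (h1 : 4 * ν {true} ^ m ≤ 8⁻¹) :
    ¬ ∀ᵐ ω ∂(Measure.infinitePi (fun _ : (GG (m + 1)).edgeSet => ν)),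
      ∀ c₁ c₂ : (OG (GG (m + 1)) ω).ConnectedComponent,
        c₁.supp.Infinite → c₂.supp.Infinite → c₁ = c₂ := by
  intro hae
  rw [ae_iff] at hae
  let JA : ℕ × ℕ → VV (m + 1) := fun x => (((x.1 : ℤ) + 1, (x.2 : ℤ) + 1), none)
  let JB : ℕ × ℕ → VV (m + 1) := fun x => ((-(x.1 : ℤ), -(x.2 : ℤ)), none)
  have hA := quad_prob (GG (m + 1)) ν h0 JA
    (fun x y h => by simp only [JA, Prod.mk.injEq] at h; exact Prod.ext (by omega) (by omega))
    (fun i j => by
      have := adj_dir (M := m + 1) ((i : ℤ) + 1, (j : ℤ) + 1) false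
        (Or.inl (by simp only [inA, ee]; simp; omega))
      simpa [JA, ee] using this)
    (fun i j => by
      have := adj_dir (M := m + 1) ((i : ℤ) + 1, (j : ℤ) + 1) true
        (Or.inl (by simp only [inA, ee]; simp; omega))
      simpa [JA, ee] using this)
  have hB := quad_prob (GG (m + 1)) ν h0 JB
    (fun x y h => by simp only [JB, Prod.mk.injEq] at h; exact Prod.ext (by omega) (by omega))
    (fun i j => by
      have := adj_dir (M := m + 1) (-((i + 1 : ℕ) : ℤ), -(j : ℤ)) false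
        (Or.inr (by simp only [inB, ee]; simp))
      simpa [JB, ee] using this.symm)
    (fun i j => by
      have := adj_dir (M := m + 1) (-(i : ℤ), -((j + 1 : ℕ) : ℤ)) true
        (Or.inr (by simp only [inB, ee]; simp))
      simpa [JB, ee] using this.symm)
  have hC := sep_prob ν m h1
  have hcov : (Set.univ : Set ((GG (m + 1)).edgeSet → Bool)) ⊆
      (({ω | ((OG (GG (m + 1)) ω).connectedComponentMk (JA (0, 0))).supp.Finite} ∪
      {ω | ((OG (GG (m + 1)) ω).connectedComponentMk (JB (0, 0))).supp.Finite}) ∪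
      {ω | (OG (GG (m + 1)) ω).Reachable ((1, 1), none) ((0, 0), none)}) ∪
      {ω | ¬ ∀ c₁ c₂ : (OG (GG (m + 1)) ω).ConnectedComponent,
        c₁.supp.Infinite → c₂.supp.Infinite → c₁ = c₂} := by
    intro ω _
    by_contra hc
    simp only [Set.mem_union, Set.mem_ofPred_eq, not_or, not_not] at hc
    obtain ⟨⟨⟨a, b⟩, c⟩, e⟩ := hc
    have := e _ _ a b
    rw [SimpleGraph.ConnectedComponent.eq] at this
    exact c (by simpa [JA, JB] using this)
  have h := (measure_mono (μ := Measure.infinitePi (fun _ : (GG (m + 1)).edgeSet => ν))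
    hcov).trans ((measure_union_le _ _).trans (add_le_add ((measure_union_le _ _).trans
      (add_le_add ((measure_union_le _ _).trans (add_le_add hA hB)) hC)) hae.le))
  rw [measure_univ, add_zero] at h
  have h' := ENNReal.toReal_mono (by simp) h
  rw [ENNReal.toReal_add (by simp) (by simp), ENNReal.toReal_add (by simp) (by simp)] at h'
  norm_num at h'

end Pool.Agent.Lib.helper1.Uq
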